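import Pool.Agent.PM.A1

set_option autoImplicit false

/-!
# Module A2: `solve` and `prune` over a field
-/

namespace Pool.Agent.PM

variable {K : Type} [Field K] [DecidableEq K]

private theorem addE_step {m : ℕ} {E : List (List K × K)} {p : List K × K} (hE : Ech m E)
    (hp : p.1.length = m) :
    Ech m (addE E p) ∧
    (∀ w : List K, w.length = m → (∀ q ∈ E, dot q.1 w = q.2) → dot p.1 w = p.2 →
      ∀ q ∈ addE E p, dot q.1 w = q.2) ∧
    (∀ w : List K, w.length = m → (∀ q ∈ addE E p, dot q.1 w = 0) →
      (∀ q ∈ E, dot q.1 w = 0) ∧ dot p.1 w = 0) := by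
  unfold addE
  by_cases h : lead (reduce E p).1 (reduce E p).1 = 0
  · rw [if_pos h]
    refine ⟨hE, fun w _ h1 _ => h1, fun w hw h1 => ⟨h1, ?_⟩⟩
    rw [← reduce_dot0 hE hp hw h1]
    exact lead_self_zero h
  · rw [if_neg h]
    refine ⟨ech_append hE hp h, ?_, ?_⟩
    · intro w hw h1 h2 q hq
      rcases List.mem_append.1 hq with h3 | h3
      · exact h1 q h3
      · have : q = nrm (reduce E p) := by simpa using h3
        subst this
        have h4 := reduce_dot hE hp hw h1
        rw [h2, sub_self] at h4
        have h5 : dot (reduce E p).1 w = (reduce E p).2 := sub_eq_zero.1 h4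
        unfold nrm
        simp only
        rw [dot_map_mul, h5]
    · intro w hw h1
      have h2 : ∀ q ∈ E, dot q.1 w = 0 := fun q hq => h1 q (List.mem_append_left _ hq)
      refine ⟨h2, ?_⟩
      have h3 := h1 (nrm (reduce E p)) (by simp)
      unfold nrm at h3
      simp only at h3
      rw [dot_map_mul] at h3
      rcases mul_eq_zero.1 h3 with h4 | h4
      · exact absurd h4 (inv_ne_zero h)
      · rw [← reduce_dot0 hE hp hw h2]
        exact h4

private theorem addE_fold {m : ℕ} (l : List (List K × K)) (hl : ∀ p ∈ l, p.1.length = m)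
    {E : List (List K × K)} (hE : Ech m E) :
    Ech m (l.foldl addE E) ∧
    (∀ w : List K, w.length = m → (∀ q ∈ E, dot q.1 w = q.2) → (∀ p ∈ l, dot p.1 w = p.2) →
      ∀ q ∈ l.foldl addE E, dot q.1 w = q.2) ∧
    (∀ w : List K, w.length = m → (∀ q ∈ l.foldl addE E, dot q.1 w = 0) →
      (∀ q ∈ E, dot q.1 w = 0) ∧ ∀ p ∈ l, dot p.1 w = 0) := by
  induction l generalizing E with
  | nil => exact ⟨hE, fun w _ h _ => h, fun w _ h => ⟨h, by simp⟩⟩
  | cons p l ih =>
    have hp := hl p (by simp)
    obtain ⟨s1, s2, s3⟩ := addE_step hE hp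
    obtain ⟨t1, t2, t3⟩ := ih (fun q hq => hl q (List.mem_cons_of_mem _ hq)) s1
    rw [List.foldl_cons]
    refine ⟨t1, ?_, ?_⟩
    · intro w hw h1 h2
      exact t2 w hw (s2 w hw h1 (h2 p (by simp))) (fun q hq => h2 q (List.mem_cons_of_mem _ hq))
    · intro w hw h1
      obtain ⟨u1, u2⟩ := t3 w hw h1
      obtain ⟨v1, v2⟩ := s3 w hw u1
      refine ⟨v1, ?_⟩
      intro q hq
      rcases List.mem_cons.1 hq with rfl | hq
      · exact v2
      · exact u2 q hq

private theorem ech_nil {m : ℕ} : Ech m ([] : List (List K × K)) := ⟨by simp, List.Pairwise.nil⟩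

omit [DecidableEq K] in
private theorem list_as_map {α : Type} [DecidableEq α] (I : List α) (hI : I.Nodup) (w : List K)
    (hw : w.length = I.length) : ∃ u : α → K, w = I.map u := by
  induction I generalizing w with
  | nil => exact ⟨fun _ => 0, by simpa using hw⟩
  | cons a I ih =>
    rw [List.nodup_cons] at hI
    cases w with
    | nil => simp at hw
    | cons b w =>
      obtain ⟨u, hu⟩ := ih hI.2 w (by simpa using hw)
      refine ⟨fun i => if i = a then b else u i, ?_⟩
      rw [List.map_cons, if_pos rfl, hu]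
      congr 1
      apply List.map_congr_left
      intro i hi
      rw [if_neg]
      rintro rfl
      exact hI.1 hi

theorem solve_eq (I : List ℕ) (hI : I.Nodup) (l : List (List K × K))
    (hl : ∀ p ∈ l, p.1.length = I.length) (w : ℕ → K)
    (hw : ∀ p ∈ l, dot p.1 (I.map w) = p.2)
    (hu : ∀ u : ℕ → K, (∀ p ∈ l, dot p.1 (I.map u) = 0) → ∀ i ∈ I, u i = 0) :
    solve I l = I.map w := by
  obtain ⟨e1, e2, e3⟩ := addE_fold l hl (ech_nil (m := I.length))
  have hwE := e2 (I.map w) (by simp) (by simp) hw
  unfold solve units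
  rw [List.map_map]
  apply List.map_congr_left
  intro i hi
  simp only [Function.comp_apply]
  have hlen : (((I.map fun j => if i = j then (1 : K) else 0), (0 : K)) :
    List K × K).1.length = I.length := by simp
  have h1 := reduce_dot e1 hlen (w := I.map w) (by simp) hwE
  have hz : ∀ v : List K, v.length = I.length →
      lead (reduce (l.foldl addE []) ((I.map fun j => if i = j then (1 : K) else 0), 0)).1 
        (reduce (l.foldl addE []) ((I.map fun j => if i = j then (1 : K) else 0), 0)).1 = 0 := by
    intro _ _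
    by_contra hne
    obtain ⟨v, hv1, hv2, hv3⟩ := ech_zero e1 (reduce_length e1 hlen) hne (reduce_lead e1 hlen)
    rw [reduce_dot0 e1 hlen hv1 hv2] at hv3
    obtain ⟨u, rfl⟩ := list_as_map I hI v hv1
    have h2 := (e3 _ hv1 hv2).2
    have h3 := hu u h2
    apply hv3
    rw [dot_map_map I hI]
    apply Finset.sum_eq_zero
    intro j hj
    rw [h3 j (List.mem_toFinset.1 hj), mul_zero]
  have h2 := hz (I.map w) (by simp)
  rw [lead_self_zero h2, zero_sub, sub_zero] at h1
  rw [h1, dot_map_map I hI]
  rw [Finset.sum_eq_single i]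
  · simp
  · intro j _ hj
    rw [if_neg (fun h => hj h.symm), zero_mul]
  · intro h
    exact absurd (List.mem_toFinset.2 hi) h

private theorem pruneStep_mono {α : Type} (l : List (α × List K))
    (s : List (List K × K) × List α) : ∀ a ∈ s.2, a ∈ (l.foldl pruneStep s).2 := by
  induction l generalizing s with
  | nil => exact fun a h => h
  | cons p l ih =>
    intro a ha
    rw [List.foldl_cons]
    apply ih
    unfold pruneStep
    split
    · exact ha
    · exact List.mem_append_left _ ha

private theorem prune_fold {α : Type} {m : ℕ} (l : List (α × List K))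
    (hl : ∀ p ∈ l, p.2.length = m) (s : List (List K × K) × List α) (hs : Ech m s.1)
    (hs2 : s.2.length = s.1.length) :
    Ech m (l.foldl pruneStep s).1 ∧ (l.foldl pruneStep s).2.length = (l.foldl pruneStep s).1.length ∧
    (∀ a ∈ (l.foldl pruneStep s).2, a ∈ s.2 ∨ ∃ v, (a, v) ∈ l) ∧
    ∀ w : List K, w.length = m → (∀ q ∈ s.1, dot q.1 w = 0) →
      (∀ p ∈ l, p.1 ∈ (l.foldl pruneStep s).2 → dot p.2 w = 0) → ∀ p ∈ l, dot p.2 w = 0 := by
  induction l generalizing s with
  | nil => exact ⟨hs, hs2, fun a h => Or.inl h, fun w _ _ _ p hp => by simp at hp⟩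
  | cons p l ih =>
    have hp : ((p.2, 0) : List K × K).1.length = m := hl p (by simp)
    have hl' : ∀ q ∈ l, q.2.length = m := fun q hq => hl q (List.mem_cons_of_mem _ hq)
    rw [List.foldl_cons]
    by_cases h : lead (reduce s.1 (p.2, 0)).1 (reduce s.1 (p.2, 0)).1 = 0
    · have hst : pruneStep s p = s := by
        unfold pruneStep
        rw [if_pos h]
      rw [hst]
      obtain ⟨t1, t2, t3, t4⟩ := ih hl' s hs hs2
      refine ⟨t1, t2, ?_, ?_⟩
      · intro a ha
        rcases t3 a ha with h1 | ⟨v, hv⟩
        · exact Or.inl h1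
        · exact Or.inr ⟨v, List.mem_cons_of_mem _ hv⟩
      · intro w hw h1 h2 q hq
        rcases List.mem_cons.1 hq with rfl | hq
        · have h3 := reduce_dot0 hs hp hw h1
          rw [lead_self_zero h] at h3
          exact h3.symm
        · exact t4 w hw h1 (fun r hr => h2 r (List.mem_cons_of_mem _ hr)) q hq
    · have hst : pruneStep s p = (s.1 ++ [nrm (reduce s.1 (p.2, 0))], s.2 ++ [p.1]) := by
        unfold pruneStep
        rw [if_neg h]
      rw [hst]
      obtain ⟨t1, t2, t3, t4⟩ := ih hl' (s.1 ++ [nrm (reduce s.1 (p.2, 0))], s.2 ++ [p.1])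
        (ech_append hs hp h) (by simp [hs2])
      refine ⟨t1, t2, ?_, ?_⟩
      · intro a ha
        rcases t3 a ha with h1 | ⟨v, hv⟩
        · rcases List.mem_append.1 h1 with h1 | h1
          · exact Or.inl h1
          · right
            have : a = p.1 := by simpa using h1
            subst this
            exact ⟨p.2, by simp⟩
        · exact Or.inr ⟨v, List.mem_cons_of_mem _ hv⟩
      · intro w hw h1 h2
        have h3 : dot p.2 w = 0 := by
          apply h2 p (by simp)
          apply pruneStep_mono
          simp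
        have h4 : ∀ q ∈ s.1 ++ [nrm (reduce s.1 (p.2, 0))], dot q.1 w = 0 := by
          intro q hq
          rcases List.mem_append.1 hq with h5 | h5
          · exact h1 q h5
          · have : q = nrm (reduce s.1 (p.2, 0)) := by simpa using h5
            subst this
            unfold nrm
            simp only
            rw [dot_map_mul, reduce_dot0 hs hp hw h1, h3, mul_zero]
        intro q hq
        rcases List.mem_cons.1 hq with rfl | hq
        · exact h3
        · exact t4 w hw h4 (fun r hr => h2 r (List.mem_cons_of_mem _ hr)) q hq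

theorem prune_spec {α : Type} (l : List (α × List K)) (m : ℕ) (hl : ∀ p ∈ l, p.2.length = m) :
    (prune l).length ≤ m ∧ (∀ a ∈ prune l, ∃ v, (a, v) ∈ l) ∧
    ∀ w : List K, w.length = m → (∀ p ∈ l, p.1 ∈ prune l → dot p.2 w = 0) →
      ∀ p ∈ l, dot p.2 w = 0 := by
  obtain ⟨t1, t2, t3, t4⟩ := prune_fold l hl ([], []) ech_nil rfl
  unfold prune
  refine ⟨?_, ?_, ?_⟩
  · rw [t2]
    exact ech_length t1
  · intro a ha
    rcases t3 a ha with h | h
    · simp at h
    · exact h
  · intro w hw h
    exact t4 w hw (by simp) h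

end Pool.Agent.PM
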