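import Pool.Agent.PM.A2

set_option autoImplicit false

/-!
# Module A3: functions that are linear in the features

`Pol m d g`: on vectors of length `m` the function `g` is a linear combination of the products of at most `d`
coordinates.
-/

namespace Pool.Agent.PM

variable {K : Type} [Field K] [DecidableEq K] {m d e : ℕ} {f g : List K → K}

/-- linear combination of the products of at most `d` coordinates -/
def Pol (m d : ℕ) (g : List K → K) : Prop :=
  ∃ w : List K, w.length = (m + 1) ^ d ∧ ∀ v : List K, v.length = m → g v = dot (ft d v) w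

theorem ft_length (d : ℕ) (v : List K) : (ft d v).length = (v.length + 1) ^ d := by
  induction d with
  | zero => rfl
  | succ d ih =>
    unfold ft
    rw [List.length_flatMap]
    simp only [List.length_map, List.map_const', List.sum_replicate, smul_eq_mul,
      List.length_cons, ih]
    rw [pow_succ']

private theorem dot_flat {u w : List K} (h : u.length = w.length) :
    ∀ x y : List K, x.length = y.length →
      dot (x.flatMap fun a => u.map fun b => a * b) (y.flatMap fun a => w.map fun b => a * b) =
        dot x y * dot u w := by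
  intro x
  induction x with
  | nil =>
    intro y hy
    have hy' : y = [] := List.length_eq_zero_iff.1 hy.symm
    rw [hy', List.flatMap_nil, List.flatMap_nil, dot_nil, zero_mul]
  | cons a x ih =>
    intro y hy
    cases y with
    | nil => simp at hy
    | cons b y =>
      rw [List.flatMap_cons, List.flatMap_cons, dot_append (by simp [h]), dot_cons, dot_map_mul,
        dot_comm u, dot_map_mul, dot_comm w, ih y (by simpa using hy)]
      ring

private theorem pol_mul (hf : Pol m d f) {c : List K} (hc : c.length = m) (a : K) :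
    Pol m (d + 1) fun v => (dot v c + a) * f v := by
  obtain ⟨w, hw, hfw⟩ := hf
  refine ⟨(a :: c).flatMap fun b => w.map fun x => b * x, ?_, fun v hv => ?_⟩
  · rw [List.length_flatMap]
    simp only [List.length_map, List.map_const', List.sum_replicate, smul_eq_mul,
      List.length_cons, hc, hw]
    rw [pow_succ']
  · have h1 : ft (d + 1) v = (1 :: v).flatMap fun x => (ft d v).map fun b => x * b := rfl
    have h2 := dot_flat (u := ft d v) (w := w) (by rw [ft_length, hv, hw]) (1 :: v) (a :: c)
      (by rw [List.length_cons, List.length_cons, hv, hc])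
    rw [h1, h2, dot_cons]
    show (dot v c + a) * f v = _
    rw [hfw v hv]
    ring

private theorem pol_up (hf : Pol m d f) : Pol m (d + 1) f := by
  have h1 := pol_mul hf (c := (List.replicate m (0 : K)).map fun a => 0 * a)
    (by rw [List.length_map, List.length_replicate]) 1
  obtain ⟨w, hw, hfw⟩ := h1
  refine ⟨w, hw, fun v hv => ?_⟩
  rw [← hfw v hv]
  show f v = (dot v ((List.replicate m (0 : K)).map fun a => 0 * a) + 1) * f v
  rw [dot_comm v, dot_map_mul, zero_mul, zero_add, one_mul]

private theorem pol_mono (hf : Pol m d f) (k : ℕ) : Pol m (d + k) f := by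
  induction k with
  | zero => exact hf
  | succ k ih => exact pol_up ih

theorem Pol.add (hf : Pol m d f) (hg : Pol m d g) : Pol m d fun v => f v + g v := by
  obtain ⟨w, hw, hfw⟩ := hf
  obtain ⟨w', hw', hgw⟩ := hg
  refine ⟨axpy (-1) w' w, ?_, fun v hv => ?_⟩
  · unfold axpy
    rw [List.length_zipWith, hw, hw', min_self]
  · rw [dot_comm, dot_axpy (-1) hw' hw (by rw [ft_length, hv]), dot_comm w, dot_comm w',
      ← hfw v hv, ← hgw v hv]
    ring

theorem Pol.smul (hf : Pol m d f) (c : K) : Pol m d fun v => c * f v := by
  obtain ⟨w, hw, hfw⟩ := hf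
  refine ⟨w.map fun a => c * a, by rw [List.length_map, hw], fun v hv => ?_⟩
  rw [dot_comm, dot_map_mul, dot_comm w, ← hfw v hv]

theorem Pol.const (c : K) : Pol m d fun _ => c := by
  have h0 : Pol m 0 fun _ => c := by
    refine ⟨[c], rfl, fun v _ => ?_⟩
    have h1 : ft 0 v = [1] := rfl
    rw [h1, dot_cons, dot_nil, one_mul, add_zero]
  have h1 := pol_mono h0 d
  rwa [Nat.zero_add] at h1

theorem Pol.mono (hf : Pol m d f) (h : d ≤ e) : Pol m e f := by
  obtain ⟨k, rfl⟩ := Nat.exists_eq_add_of_le h
  exact pol_mono hf k

/-- multiplication by an affine function -/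
theorem Pol.mul (hf : Pol m d f) {c : List K} (hc : c.length = m) (a : K) :
    Pol m (d + 1) fun v => (dot v c + a) * f v := by
  exact pol_mul hf hc a

theorem Pol.pow {c : List K} (hc : c.length = m) (a : K) : Pol m d fun v => (dot v c + a) ^ d := by
  induction d with
  | zero =>
    have h1 : (fun v : List K => (dot v c + a) ^ 0) = fun _ => 1 := funext fun v => pow_zero _
    rw [h1]
    exact Pol.const 1
  | succ d ih =>
    have h1 : (fun v : List K => (dot v c + a) ^ (d + 1)) =
        fun v => (dot v c + a) * (dot v c + a) ^ d := funext fun v => pow_succ' _ _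
    rw [h1]
    exact pol_mul ih hc a

theorem Pol.pow2 {c c' : List K} (hc : c.length = m) (hc' : c'.length = m) (a a' : K) :
    Pol m (d + e) fun v => (dot v c + a) ^ d * (dot v c' + a') ^ e := by
  induction d with
  | zero =>
    have h1 : (fun v : List K => (dot v c + a) ^ 0 * (dot v c' + a') ^ e) =
        fun v => (dot v c' + a') ^ e := funext fun v => by rw [pow_zero, one_mul]
    rw [h1, Nat.zero_add]
    exact Pol.pow hc' a'
  | succ d ih =>
    have h1 : (fun v : List K => (dot v c + a) ^ (d + 1) * (dot v c' + a') ^ e) =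
        fun v => (dot v c + a) * ((dot v c + a) ^ d * (dot v c' + a') ^ e) :=
      funext fun v => by rw [pow_succ', mul_assoc]
    have h2 : d + 1 + e = (d + e) + 1 := by omega
    rw [h1, h2]
    exact pol_mul ih hc a

theorem prune_pol {α : Type} (l : List α) (vc : α → List K) (N : List K) (hN : N.length = m)
    (hl : ∀ a ∈ l, (vc a).length = m) (hg : Pol m d g) {a : α} (ha : a ∈ l) (h0 : g (vc a) ≠ 0) :
    ∃ b ∈ (prune (l.map fun a => (a, ft d (vc a)))).take (ft d N).length, g (vc b) ≠ 0 := by
  obtain ⟨w, hw, hgw⟩ := hg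
  have hl' : ∀ p ∈ l.map fun a => (a, ft d (vc a)), p.2.length = (m + 1) ^ d := by
    intro p hp
    obtain ⟨b, hb, rfl⟩ := List.mem_map.1 hp
    show (ft d (vc b)).length = _
    rw [ft_length, hl b hb]
  obtain ⟨h1, h2, h3⟩ := prune_spec _ _ hl'
  rw [List.take_of_length_le (by rw [ft_length, hN]; exact h1)]
  by_contra hcon
  push Not at hcon
  have h4 := h3 w hw (fun p hp hpp => by
    obtain ⟨b, hb, rfl⟩ := List.mem_map.1 hp
    show dot (ft d (vc b)) w = 0
    rw [← hgw _ (hl b hb)]
    exact hcon b hpp) (a, ft d (vc a)) (List.mem_map.2 ⟨a, ha, rfl⟩)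
  apply h0
  rw [hgw _ (hl a ha)]
  exact h4

private theorem fold_sub {α : Type} (l : List (α × List K)) (s : List (List K × K) × List α)
    {a : α} (ha : a ∈ (l.foldl pruneStep s).2) : a ∈ s.2 ∨ ∃ v, (a, v) ∈ l := by
  induction l generalizing s with
  | nil => exact Or.inl ha
  | cons p l ih =>
    rw [List.foldl_cons] at ha
    rcases ih (pruneStep s p) ha with h | ⟨v, hv⟩
    · unfold pruneStep at h
      by_cases h0 : lead (reduce s.1 (p.2, 0)).1 (reduce s.1 (p.2, 0)).1 = 0
      · rw [if_pos h0] at h
        exact Or.inl h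
      · rw [if_neg h0] at h
        rcases List.mem_append.1 h with h1 | h1
        · exact Or.inl h1
        · rw [List.mem_singleton.1 h1]
          exact Or.inr ⟨p.2, List.mem_cons_self⟩
    · exact Or.inr ⟨v, List.mem_cons_of_mem _ hv⟩

theorem prune_sub {α : Type} (l : List α) (vc : α → List K) (n : ℕ) {b : α}
    (hb : b ∈ (prune (l.map fun a => (a, ft d (vc a)))).take n) : b ∈ l := by
  have h1 := List.mem_of_mem_take hb
  unfold prune at h1
  rcases fold_sub _ _ h1 with h2 | ⟨v, hv⟩
  · exact absurd h2 List.not_mem_nil
  · obtain ⟨b', hb', hbb⟩ := List.mem_map.1 hv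
    have h3 : b' = b := congrArg Prod.fst hbb
    rw [← h3]
    exact hb'

end Pool.Agent.PM
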