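import Pool.Agent.AM.Defs

set_option autoImplicit false

/-!
# The algorithm

Elements are natural numbers, sets are lists. A matrix is a list of entries `((y, i), x)`: the coordinate
`i` of the element `y` is `x`. `E` is the ground set, `B` a basis of the matroid; a minor is given by its ground
set `S`, it is the contraction of `B \ S` and restriction to `S`, its basis is `B ∩ S`.
-/

namespace Pool.Agent.PM

open N487b59b3 Pool.Agent.Helper22
open Pool.Agent.G4 (nor dif word prd)
open Pool.Agent.BW (rkX rkD lamL cutZ grdy cod dcd)
open Pool.Agent.AM (cr pts chv cht1 Tri Prm lists trip prmQ)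

/-! ## Linear algebra -/

section linalg

variable {K : Type} [Field K] [DecidableEq K]

/-- dot product -/
def dot (u v : List K) : K := (List.zipWith (fun a b => a * b) u v).foldl (fun s a => s + a) 0

/-- `v - c u` -/
def axpy (c : K) (u v : List K) : List K := List.zipWith (fun a b => b - c * a) u v

/-- the entry of `v` at the place of the first nonzero entry of `u` -/
def lead (u v : List K) : K := (((u.zip v).filter fun p => !decide (p.1 = 0)).headD (0, 0)).2

/-- clear the leading place of `q.1` in `p.1` -/
def red (p q : List K × K) : List K × K :=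
  (axpy (lead q.1 p.1) q.1 p.1, p.2 - lead q.1 p.1 * q.2)

/-- reduce by all vectors of a list -/
def reduce (E : List (List K × K)) (p : List K × K) : List K × K := E.foldl red p

/-- normalise -/
def nrm (p : List K × K) : List K × K :=
  (p.1.map fun a => (lead p.1 p.1)⁻¹ * a, (lead p.1 p.1)⁻¹ * p.2)

/-- add an equation to an echelon list -/
def addE (E : List (List K × K)) (p : List K × K) : List (List K × K) :=
  if lead (reduce E p).1 (reduce E p).1 = 0 then E else E ++ [nrm (reduce E p)]

/-- the unit vectors indexed by a list -/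
def units (K : Type) [Field K] (I : List ℕ) : List (List K) :=
  I.map fun i => I.map fun j => if i = j then 1 else 0

/-- the solution of a linear system (its coordinates are indexed by `I`) -/
def solve (I : List ℕ) (l : List (List K × K)) : List K :=
  (units K I).map fun e => -(reduce (l.foldl addE []) (e, 0)).2

/-- one step of pruning -/
def pruneStep {α : Type} (s : List (List K × K) × List α) (p : α × List K) :
    List (List K × K) × List α :=
  if lead (reduce s.1 (p.2, 0)).1 (reduce s.1 (p.2, 0)).1 = 0 then s
  else (s.1 ++ [nrm (reduce s.1 (p.2, 0))], s.2 ++ [p.1])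

/-- the items whose vectors are not in the span of the preceding ones -/
def prune {α : Type} (l : List (α × List K)) : List α := (l.foldl pruneStep ([], [])).2

/-- the products of at most `d` coordinates of the vector `v` -/
def ft : ℕ → List K → List K
  | 0, _ => [1]
  | d + 1, v => (1 :: v).flatMap fun a => (ft d v).map fun b => a * b

/-- the first element with a property -/
def pickK (els : List K) (P : K → Bool) : K := (els.filter P).headD 0

end linalg

/-! ## Matrices -/

/-- a matrix -/
abbrev Mx (K : Type) : Type := List ((ℕ × ℕ) × K)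

section mat

variable {K : Type} [Field K] [DecidableEq K]

/-- the coordinate `i` of the element `y` -/
def ent (D : Mx K) (y i : ℕ) : K := ((D.filter fun p => decide (p.1 = (y, i))).headD ((0, 0), 0)).2

/-- the coordinates `R` of the element `y` -/
def vec (D : Mx K) (R : List ℕ) (y : ℕ) : List K := R.map fun i => ent D y i

/-- the linear form which is one at `z` and zero at the other elements of the basis `T` -/
def fv (D : Mx K) (R T : List ℕ) (z : ℕ) : List K :=
  solve R (T.map fun t => (vec D R t, if t = z then 1 else 0))

/-- the circuit of `T + x`, as a vector indexed by `S` -/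
def cir (D : Mx K) (R S T : List ℕ) (x : ℕ) : List K :=
  S.map fun s => if s = x then -1 else if s ∈ T then dot (fv D R T s) (vec D R x) else 0

/-- the forms of all elements of the basis `T`, as a vector indexed by `S × R` -/
def qv (D : Mx K) (R S T : List ℕ) : List K :=
  S.flatMap fun s => if s ∈ T then fv D R T s else R.map fun _ => 0

end mat

/-! ## Lists of bases -/

/-- marked bases, circuits -/
abbrev Lst : Type := List (List ℕ × ℕ)

/-- the three lists: marked bases, circuits, bases -/
abbrev Trip : Type := Lst × (Lst × List (List ℕ))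

/-- circuits, extension -/
def lxS (oy : List ℕ) (Ls : Lst) (Bs : List (List ℕ)) : Lst :=
  Ls ++ oy.flatMap fun y => Bs.map fun T => (T, y)

/-- bases, extension -/
def lxB (oy : List ℕ) (L : Lst) (Bs : List (List ℕ)) : List (List ℕ) :=
  Bs ++ oy.flatMap fun y => L.map fun p => y :: p.1.filter fun t => !decide (t = p.2)

/-- marked bases, coextension -/
def lcL (ob : List ℕ) (L : Lst) (Bs : List (List ℕ)) : Lst :=
  (L.map fun p => (ob ++ p.1, p.2)) ++ ob.flatMap fun b => Bs.map fun T => (b :: T, b)

/-- circuits, coextension -/
def lcS (ob : List ℕ) (Ls : Lst) : Lst := Ls.map fun p => (ob ++ p.1, p.2)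

/-- bases, coextension -/
def lcB (ob : List ℕ) (Ls : Lst) (Bs : List (List ℕ)) : List (List ℕ) :=
  (Bs.map fun T => ob ++ T) ++ ob.flatMap fun _ => Ls.map fun p => p.2 :: p.1

/-- the new lists, before normalisation -/
def rawT (oy ob : List ℕ) (t : Trip) : Trip :=
  (lcL ob t.1 (lxB oy t.1 t.2.2),
    (lxS oy (lcS ob t.2.1) (lcB ob t.2.1 t.2.2), lcB ob (lxS oy t.2.1 t.2.2) (lxB oy t.1 t.2.2)))

/-- normalise -/
def norT (S : List ℕ) (t : Trip) : Trip :=
  (t.1.map fun p => (nor S p.1, p.2),
    (t.2.1.map fun p => (nor S p.1, p.2), t.2.2.map fun T => nor S T))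

/-- is `T` a basis of the minor on `S` -/
def isb (X : Oracle) (E B S T : List ℕ) : Bool :=
  decide ((nor B S).length ≤ T.length) && X (word E (dif B S ++ T))

/-- keep the correct items -/
def okT (X : Oracle) (E B S : List ℕ) (t : Trip) : Trip :=
  (t.1.filter fun p => decide (p.2 ∈ p.1) && isb X E B S p.1,
    (t.2.1.filter fun p => (!decide (p.2 ∈ p.1) && decide (p.2 ∈ S)) && isb X E B S p.1,
      t.2.2.filter fun T => isb X E B S T))

section steps

variable {K : Type} [Field K] [DecidableEq K]

/-- prune the lists -/
def prT (d : ℕ) (D : Mx K) (R S : List ℕ) (t : Trip) : Trip :=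
  ((prune (t.1.map fun p => (p, ft (d + d) (fv D R p.1 p.2)))).take
      (ft (d + d) (R.map fun _ => (0 : K))).length,
    ((prune (t.2.1.map fun p => (p, ft (d + d) (cir D R S p.1 p.2)))).take
      (ft (d + d) (S.map fun _ => (0 : K))).length,
      (prune (t.2.2.map fun T => (T, ft d (qv D R S T)))).take
      (ft d ((prd S R).map fun _ => (0 : K))).length))

/-- a state: ground set, matrix, lists -/
abbrev St (K : Type) : Type := List ℕ × (Mx K × Trip)

/-! ## Learning entries -/

/-- the row `c` is not linear on the circuit `p` -/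
def askS (X : Oracle) (E B S : List ℕ) (c : ℕ) (p : List ℕ × ℕ) : Bool :=
  X (word E (dif (dif B S) [c] ++ p.2 :: p.1))

/-- the element `n` is not in the hyperplane of the marked basis `p` -/
def askL (X : Oracle) (E B S : List ℕ) (n : ℕ) (p : List ℕ × ℕ) : Bool :=
  X (word E (dif B S ++ n :: p.1.filter fun t => !decide (t = p.2)))

/-- the entry of the new column `y` in the row `c` -/
def lrR (els : List K) (X : Oracle) (E B S : List ℕ) (D : Mx K) (Ls : Lst) (y c : ℕ) : K :=
  pickK els fun x => Ls.all fun p => askS X E B S c p ==
    !decide (dot (cir D (nor B S) S p.1 p.2) (S.map fun s => if s = y then x else ent D s c) = 0)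

/-- the entry of the new row `b` in the column `n` -/
def lrC (els : List K) (X : Oracle) (E B S : List ℕ) (D : Mx K) (L : Lst) (n b : ℕ) : K :=
  pickK els fun x => L.all fun p => askL X E B S n p ==
    !decide (dot (fv D (nor B S) p.1 p.2)
      ((nor B S).map fun i => if i = b then x else ent D n i) = 0)

/-- the corner: row `b`, column `y` -/
def crn (els : List K) (X : Oracle) (E B S : List ℕ) (D : Mx K) (Bs : List (List ℕ)) (y b : ℕ) : K :=
  pickK els fun k => Bs.all fun T => X (word E (dif (dif B S) [b] ++ y :: T)) ==
    !decide (dot (qv D (nor B S) S T) ((prd S (nor B S)).map fun p => ent D p.1 b * ent D y p.2) = k)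

/-! ## One step -/

/-- the new ground set -/
def nwS (E : List ℕ) (s : St K) (r : List ℕ × List ℕ) : List ℕ := nor E (s.1 ++ (r.1 ++ r.2))

/-- the matrix with the corner -/
def nwC (els : List K) (X : Oracle) (E B : List ℕ) (s : St K) (r : List ℕ × List ℕ) : Mx K :=
  ((prd r.1 r.2).map fun p => (p, crn els X E B s.1 s.2.1 s.2.2.2.2 p.1 p.2)) ++ s.2.1

/-- the new lists -/
def nwT (d : ℕ) (X : Oracle) (E B S : List ℕ) (D : Mx K) (t : Trip) (r : List ℕ × List ℕ) : Trip :=
  prT d D (nor B S) S (okT X E B S (norT S (rawT r.1 r.2 t)))

/-- the new matrix -/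
def nwD (els : List K) (X : Oracle) (E B S : List ℕ) (D : Mx K) (t : Trip)
    (r : List ℕ × List ℕ) : Mx K :=
  ((prd r.1 (dif B S)).map fun p => (p, lrR els X E B S D t.2.1 p.1 p.2)) ++
    (((prd (dif E (B ++ S)) r.2).map fun p => (p, lrC els X E B S D t.1 p.1 p.2)) ++ D)

/-- one step of the reconstruction, given the matrix `D` with the corner and the new lists -/
def stepA (els : List K) (d : ℕ) (X : Oracle) (E B S : List ℕ) (D : Mx K) (t : Trip)
    (r : List ℕ × List ℕ) : St K :=
  (S, (nwD els X E B S D (nwT d X E B S D t r) r, nwT d X E B S D t r))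

/-- one step of the reconstruction -/
def stepB (els : List K) (d : ℕ) (X : Oracle) (E B : List ℕ) (s : St K) (r : List ℕ × List ℕ) :
    St K := stepA els d X E B (nwS E s r) (nwC els X E B s r) s.2.2 r

/-! ## The start: a plane -/

/-- all sets of at most three elements -/
def triS (S : List ℕ) : List (List ℕ) := (prd S (prd S S)).map fun p => nor S [p.1, p.2.1, p.2.2]

/-- the lists of the plane -/
def bsT (X : Oracle) (E B S : List ℕ) : Trip :=
  okT X E B S ((prd (triS S) S), ((prd (triS S) S), triS S))

/-- the coordinates in the plane -/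
def bsC (dc : ℕ → K) (P : Prm) (X : Oracle) (E B : List ℕ) (Z : List (ℕ × Tri)) : Mx K :=
  E.flatMap fun y => [((y, B.headD 0), dc (chv P (fun T => rkX X E T) B (trip B) Z y).1),
    ((y, B.tail.headD 0), dc (chv P (fun T => rkX X E T) B (trip B) Z y).2.1),
    ((y, B.tail.tail.headD 0), dc (chv P (fun T => rkX X E T) B (trip B) Z y).2.2)]

/-- the entries of the row `c` in the plane -/
def rwC (vecs : List (List K)) (X : Oracle) (E B S : List ℕ) (D : Mx K) (Ls : Lst) (c : ℕ) :
    List K :=
  (vecs.filter fun v => ((S.zip v).all fun p => !decide (p.1 ∈ B) || decide (p.2 = 0)) &&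
    Ls.all fun p => askS X E B S c p ==
      !decide (dot (cir D (nor B S) S p.1 p.2) v = 0)).headD []

/-- the first matrix -/
def bsD (vecs : List (List K)) (X : Oracle) (E B S : List ℕ) (D : Mx K) (Ls : Lst) : Mx K :=
  ((dif B S).flatMap fun c => (S.zip (rwC vecs X E B S D Ls c)).map fun p => ((p.1, c), p.2)) ++
    (((dif B S).map fun c => ((c, c), (1 : K))) ++ D)

/-- the first state -/
def bsSt (vecs : List (List K)) (dc : ℕ → K) (P : Prm) (X : Oracle) (E B S : List ℕ) : St K :=
  (S, (bsD vecs X E B S (bsC dc P X E B (cht1 P (fun T => rkX X E T) B E (trip B)))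
      (bsT X E B S).2.1, bsT X E B S))

end steps

/-! ## The chain of minors -/

/-- the oracle of the minor: contraction of `A`, restriction to `S` -/
def mo (X : Oracle) (E A S : List ℕ) : Oracle := fun w =>
  X (word E (A ++ ((S.zip w).filter fun p => p.2).map fun p => p.1))

/-- minimal connectivity of a set that contains `A` and avoids `B` -/
def mcut (X : Oracle) (S A B : List ℕ) : ℕ :=
  lamL (fun T => rkD X S T) S (cutZ (fun T => rkD X S T) S A B)

/-- 3-connectedness with at least four elements -/
def cn3 (X : Oracle) (S : List ℕ) : Bool :=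
  decide (4 ≤ S.length) && (((prd S S).all fun p => decide (p.1 = p.2) ||
    decide (1 ≤ mcut X S [p.1] [p.2])) &&
    ((prd (prd S S) (prd S S)).all fun p => (decide (p.1.1 = p.1.2) || (decide (p.2.1 = p.2.2) ||
      (decide (p.1.1 ∈ [p.2.1, p.2.2]) || decide (p.1.2 ∈ [p.2.1, p.2.2])))) ||
      decide (2 ≤ mcut X S [p.1.1, p.1.2] [p.2.1, p.2.2])))

/-- is `C` a label -/
def labB (N : ℕ) (X : Oracle) (S C : List ℕ) : Bool :=
  decide (rkX X S C = C.length) && (decide (rkX X S S = C.length + 3) &&
    decide (N ≤ (pts (fun T => rkX X S T) C S []).length))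

/-- the operations -/
def ops (S : List ℕ) : List (List ℕ × List ℕ) :=
  (S.map fun y => ([y], [])) ++ ((S.map fun b => ([], [b])) ++
    ((prd S S).filter fun p => !decide (p.1 = p.2)).map fun p => ([p.1], [p.2]))

/-- sets of at most two elements -/
def two (S : List ℕ) : List (List ℕ) := [] :: ((S.map fun g => [g]) ++
  (prd S S).map fun g => [g.1, g.2])

/-- the candidates for the new label -/
def lcs (S S' C : List ℕ) : List (List ℕ) :=
  (prd (two S) (two S)).map fun p => nor S' (dif C p.1 ++ p.2)

/-- a state of the chain: ground set, contracted elements, label, steps (the last one first) -/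
abbrev Ch : Type := List ℕ × (List ℕ × (List ℕ × List (List ℕ × List ℕ)))

/-- the possible steps -/
def cds (N : ℕ) (X : Oracle) (E : List ℕ) (s : Ch) : List ((List ℕ × List ℕ) × List ℕ) :=
  ((ops s.1).filter fun o =>
    cn3 (mo X E (s.2.1 ++ o.2) (dif s.1 (o.1 ++ o.2))) (dif s.1 (o.1 ++ o.2))).flatMap fun o =>
      ((lcs s.1 (dif s.1 (o.1 ++ o.2)) s.2.2.1).filter fun C =>
        labB N (mo X E (s.2.1 ++ o.2) (dif s.1 (o.1 ++ o.2))) (dif s.1 (o.1 ++ o.2)) C).map
          fun C => (o, C)

/-- one step of the chain -/
def chStep (N : ℕ) (X : Oracle) (E : List ℕ) (s : Ch) : Ch :=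
  if (cds N X E s).isEmpty then s else
    (dif s.1 (((cds N X E s).headD (([], []), [])).1.1 ++
        ((cds N X E s).headD (([], []), [])).1.2),
      (s.2.1 ++ ((cds N X E s).headD (([], []), [])).1.2,
        (((cds N X E s).headD (([], []), [])).2,
          ((cds N X E s).headD (([], []), [])).1 :: s.2.2.2)))

/-- the chain -/
def chain (N : ℕ) (X : Oracle) (E C : List ℕ) : Ch := (chStep N X E)^[E.length] (E, ([], (C, [])))

/-! ## The algorithm -/

/-- the set with the characteristic word `a` -/
def setW (a : List Bool) : List ℕ :=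
  (((List.range a.length).zip a).filter fun p => p.2).map fun p => p.1

/-- the basis: a basis of the plane and the contracted elements -/
def basW (X : Oracle) (E : List ℕ) (s : Ch) : List ℕ :=
  grdy (fun T => rkX X E T) s.1 s.2.1 ++ s.2.1

section main

variable {K : Type} [Field K] [DecidableEq K]

/-- all steps -/
def runS (els : List K) (vecs : List (List K)) (dc : ℕ → K) (P : Prm) (d : ℕ) (X : Oracle)
    (E B : List ℕ) (s : Ch) : St K :=
  s.2.2.2.foldl (stepB els d X E B) (bsSt vecs dc P X E B s.1)

/-- the rows of the matrix -/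
def outS (cd : K → ℕ) (E B : List ℕ) (s : St K) : List (List ℕ) :=
  B.map fun i => E.map fun y => cd (ent s.2.1 y i)

end main

/-- the label: a maximal independent subset of the input -/
def labW (X : Oracle) (E : List ℕ) (a : List Bool) : List ℕ :=
  grdy (fun T => rkX X E T) (setW a) []

/-- the chain for the input `a` -/
def chW (N : ℕ) (X : Oracle) (a : List Bool) : Ch :=
  chain N X (List.range a.length) (labW X (List.range a.length) a)

/-- the algorithm: the input is the characteristic word of a set `C` -/
noncomputable def algP {K : Type} [Field K] [Fintype K] [DecidableEq K]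
    (e : Fin (Fintype.card K) ≃ K) (X : Oracle) (a : List Bool) : List (List ℕ) :=
  outS (cod e) (List.range a.length)
    (basW X (List.range a.length) (chW (Fintype.card K ^ 2 + Fintype.card K + 1) X a))
    (runS ((Finset.univ : Finset K).toList)
      (lists ((Finset.univ : Finset K).toList) (Fintype.card K ^ 2 + Fintype.card K + 1)) (dcd e)
      (prmQ e) (Fintype.card K - 1) X (List.range a.length)
      (basW X (List.range a.length) (chW (Fintype.card K ^ 2 + Fintype.card K + 1) X a))
      (chW (Fintype.card K ^ 2 + Fintype.card K + 1) X a))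

end Pool.Agent.PM
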