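import Pool.Agent.PM.Cfg

set_option autoImplicit false

/-!
# Module Bas: bases, exchange, coextension

Everything is immediate from the definition of `IsB` (every function on `T` is the restriction of
exactly one linear form).
-/

namespace Pool.Agent.PM

open Module

variable {K V : Type} [Field K] [AddCommGroup V] [Module K V] {w : ℕ → V} {T S : Finset ℕ}
  {x y z c : ℕ}

theorem IsB.eq (h : IsB K w T) {l m : Dual K V} (hl : ∀ s ∈ T, l (w s) = m (w s)) : l = m := by
  obtain ⟨u, _, hu⟩ := h fun s => m (w s)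
  rw [hu l hl, hu m fun s _ => rfl]

/-- the linear form with given values on the basis -/
theorem IsB.form (h : IsB K w T) (f : ℕ → K) : ∃ l : Dual K V, ∀ s ∈ T, l (w s) = f s :=
  (h f).exists

theorem IsB.coord (h : IsB K w T) (v : V) :
    ∃ a : ℕ → K, (∀ s, s ∉ T → a s = 0) ∧ v = ∑ s ∈ T, a s • w s := by
  choose H hH using fun s : ℕ => h.form (K := K) fun x => if x = s then (1 : K) else 0
  refine ⟨fun s => if s ∈ T then H s v else 0, fun s hs => if_neg hs, ?_⟩
  rw [← sub_eq_zero, ← Module.forall_dual_apply_eq_zero_iff K]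
  intro l
  have hl : l = ∑ s ∈ T, l (w s) • H s := by
    refine h.eq fun x hx => ?_
    rw [LinearMap.sum_apply, Finset.sum_eq_single x]
    · rw [LinearMap.smul_apply, hH x x hx, if_pos rfl, smul_eq_mul, mul_one]
    · intro s _ hsx
      rw [LinearMap.smul_apply, hH s x hx, if_neg (Ne.symm hsx), smul_zero]
    · intro hx'
      exact absurd hx hx'
  have hv : l v = ∑ s ∈ T, l (w s) * H s v := by
    conv_lhs => rw [hl]
    rw [LinearMap.sum_apply]
    exact Finset.sum_congr rfl fun s _ => rfl
  rw [map_sub, map_sum, hv, sub_eq_zero]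
  refine Finset.sum_congr rfl fun s hs => ?_
  show l (w s) * H s v = l ((if s ∈ T then H s v else 0) • w s)
  rw [if_pos hs, map_smul, smul_eq_mul, mul_comm]

theorem IsB.exch (h : IsB K w T) (hz : z ∈ T) (hy : y ∉ T) {l : Dual K V}
    (hl : ∀ s ∈ T, l (w s) = if s = z then 1 else 0) (hly : l (w y) ≠ 0) :
    IsB K w (insert y (T.erase z)) := by
  intro f
  obtain ⟨m, hm⟩ := h.form (K := K) fun s => if s = z then 0 else f s
  refine ⟨m + ((f y - m (w y)) / l (w y)) • l, fun s hs => ?_, fun m' hm' => ?_⟩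
  · rcases Finset.mem_insert.1 hs with hs | hs
    · rw [hs, LinearMap.add_apply, LinearMap.smul_apply, smul_eq_mul, div_mul_cancel₀ _ hly]
      ring
    · have hsz := Finset.ne_of_mem_erase hs
      rw [LinearMap.add_apply, LinearMap.smul_apply, smul_eq_mul,
        hl s (Finset.mem_of_mem_erase hs), hm s (Finset.mem_of_mem_erase hs), if_neg hsz,
        if_neg hsz]
      ring
  · have h1 : m' = m + m' (w z) • l := by
      refine h.eq fun s hs => ?_
      rw [LinearMap.add_apply, LinearMap.smul_apply, smul_eq_mul, hl s hs, hm s hs]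
      by_cases hsz : s = z
      · rw [if_pos hsz, if_pos hsz, hsz]
        ring
      · rw [if_neg hsz, if_neg hsz,
          hm' s (Finset.mem_insert_of_mem (Finset.mem_erase.2 ⟨hsz, hs⟩))]
        ring
    have h2 := hm' y (Finset.mem_insert_self _ _)
    have h3 : m' (w z) = (f y - m (w y)) / l (w y) := by
      rw [eq_div_iff hly]
      rw [h1, LinearMap.add_apply, LinearMap.smul_apply, smul_eq_mul] at h2
      linear_combination h2
    rw [h1, h3]

theorem dual_prod (l : Dual K (V × K)) : ∃ (m : Dual K V) (n : K), ∀ v x, l (v, x) = m v + n * x := by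
  refine ⟨l ∘ₗ LinearMap.inl K V K, l (0, 1), fun v x => ?_⟩
  have h1 : ((v, x) : V × K) = LinearMap.inl K V K v + x • ((0, 1) : V × K) := by
    ext <;> simp
  rw [h1, map_add, map_smul, smul_eq_mul, LinearMap.comp_apply, mul_comm]

omit [Module K V] in
private theorem cx_ne' {w : ℕ → V} {t : ℕ → K} {s c : ℕ} (hs : s ≠ c) :
    Pool.Agent.PM.cx w t c s = (w s, t s) := by
  simp [Pool.Agent.PM.cx, hs]

omit [Module K V] in
private theorem cx_self' {w : ℕ → V} {t : ℕ → K} {c : ℕ} :
    Pool.Agent.PM.cx w t c c = (0, 1) := by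
  simp [Pool.Agent.PM.cx]

/-- the linear form with two components -/
private def fmB (m : Dual K V) (n : K) : Dual K (V × K) :=
  m ∘ₗ LinearMap.fst K V K + n • LinearMap.snd K V K

private theorem fmB_apply (m : Dual K V) (n : K) (v : V) (x : K) :
    fmB m n (v, x) = m v + n * x := by
  simp [fmB]

private theorem dual_fmB (l : Dual K (V × K)) : ∃ (m : Dual K V) (n : K), l = fmB m n := by
  obtain ⟨m, n, h⟩ := dual_prod l
  refine ⟨m, n, LinearMap.ext fun p => ?_⟩
  obtain ⟨v, x⟩ := p
  rw [h, fmB_apply]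

theorem IsB.cx (h : IsB K w T) (t : ℕ → K) (hc : c ∉ T) : IsB K (cx w t c) (insert c T) := by
  intro f
  obtain ⟨m, hm⟩ := h.form (K := K) fun s => f s - f c * t s
  have hne : ∀ s ∈ T, s ≠ c := fun s hs e => hc (e ▸ hs)
  refine ⟨fmB m (f c), fun s hs => ?_, fun l hl => ?_⟩
  · rcases Finset.mem_insert.1 hs with hs | hs
    · rw [hs, cx_self', fmB_apply, map_zero]
      ring
    · rw [cx_ne' (hne s hs), fmB_apply, hm s hs]
      ring
  · obtain ⟨m', n', rfl⟩ := dual_fmB l
    have h1 := hl c (Finset.mem_insert_self _ _)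
    rw [cx_self', fmB_apply, map_zero, mul_one, zero_add] at h1
    have h2 : m' = m := h.eq fun s hs => by
      have h3 := hl s (Finset.mem_insert_of_mem hs)
      rw [cx_ne' (hne s hs), fmB_apply, h1] at h3
      rw [hm s hs]
      linear_combination h3
    rw [h1, h2]

theorem IsB.cx_ins (h : IsB K w T) {t : ℕ → K} (hx : x ∉ T) (hc : c ∉ T) (hcx : c ≠ x)
    {l : Dual K V} (hl : ∀ s ∈ T, l (w s) = t s) (hlx : l (w x) ≠ t x) :
    IsB K (Pool.Agent.PM.cx w t c) (insert x T) := by
  intro f
  obtain ⟨g, hg⟩ := h.form (K := K) f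
  have hne : ∀ s ∈ T, s ≠ c := fun s hs e => hc (e ▸ hs)
  have h0 : t x - l (w x) ≠ 0 := sub_ne_zero.2 (Ne.symm hlx)
  obtain ⟨n, hn⟩ : ∃ n : K, n * (t x - l (w x)) = f x - g (w x) :=
    ⟨(f x - g (w x)) / (t x - l (w x)), div_mul_cancel₀ _ h0⟩
  refine ⟨fmB (g - n • l) n, fun s hs => ?_, fun F hF => ?_⟩
  · rcases Finset.mem_insert.1 hs with hs | hs
    · rw [hs, cx_ne' (Ne.symm hcx), fmB_apply, LinearMap.sub_apply, LinearMap.smul_apply,
        smul_eq_mul]
      linear_combination hn
    · rw [cx_ne' (hne s hs), fmB_apply, LinearMap.sub_apply, LinearMap.smul_apply, smul_eq_mul,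
        hg s hs, hl s hs]
      ring
  · obtain ⟨m', n', rfl⟩ := dual_fmB F
    have h2 : m' = g - n' • l := h.eq fun s hs => by
      have h3 := hF s (Finset.mem_insert_of_mem hs)
      rw [cx_ne' (hne s hs), fmB_apply] at h3
      rw [LinearMap.sub_apply, LinearMap.smul_apply, smul_eq_mul, hg s hs, hl s hs]
      linear_combination h3
    have h4 := hF x (Finset.mem_insert_self _ _)
    rw [cx_ne' (Ne.symm hcx), fmB_apply, h2, LinearMap.sub_apply, LinearMap.smul_apply,
      smul_eq_mul] at h4
    have h5 : n' = n := by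
      have h6 : (n' - n) * (t x - l (w x)) = 0 := by linear_combination h4 - hn
      rcases mul_eq_zero.1 h6 with h7 | h7
      · exact sub_eq_zero.1 h7
      · exact absurd h7 h0
    rw [h2, h5]

end Pool.Agent.PM
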