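import Pool.Agent.PM.N2
import Pool.Agent.BW.CutL
import Pool.Agent.BW.CutM
import Pool.Agent.BW.Can
import Pool.Agent.G4.R1b

set_option autoImplicit false

/-!
# Module C1: the test for 3-connectedness
-/

namespace Pool.Agent.PM

open Finset Pool.Agent.Helper22
open Pool.Agent.G4 (nor dif word prd IsRk Conn3 ctr lam dualR)
open Pool.Agent.BW (rkX rkD RkS)

variable {X : Oracle} {E S A T : List ℕ} {r : Finset ℕ → ℤ}

theorem orf_rkd (hr : IsRk r) (hX : Orf X S r) (hS : S.Nodup) :
    RkS (fun T => rkD X S T) S (dualR r S.toFinset) := by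
  intro T hT
  have hg := greedy_rk hS hr hX
  have h1 : (rkX X S (dif S T) : ℤ) = r (S.toFinset \ T.toFinset) := by
    have := hg (dif S T) fun t ht => (Pool.Agent.BW.mem_dif.1 ht).1
    rw [Pool.Agent.BW.toF_dif] at this
    exact this
  have h2 : (rkX X S S : ℤ) = r S.toFinset := hg S fun t ht => ht
  have h3 : ((nor S T).length : ℤ) = ((T.toFinset ∩ S.toFinset).card : ℤ) := by
    rw [← Pool.Agent.BW.can_card hS Pool.Agent.BW.nor_sub, Pool.Agent.BW.toF_nor, inter_comm]
  have h4 : r S.toFinset ≤ r (S.toFinset \ T.toFinset) + ((T.toFinset ∩ S.toFinset).card : ℤ) := by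
    have h5 := hr.union_le (S.toFinset \ T.toFinset) (T.toFinset ∩ S.toFinset)
    have e1 : S.toFinset \ T.toFinset ∪ T.toFinset ∩ S.toFinset = S.toFinset := by
      ext x
      simp only [mem_union, mem_sdiff, mem_inter]
      tauto
    rwa [e1] at h5
  show (((nor S T).length + rkX X S (dif S T) - rkX X S S : ℕ) : ℤ) = _
  unfold dualR
  omega

private theorem c1_zip (l : List ℕ) (f : ℕ → Bool) :
    (((l.zip (l.map f)).filter fun p => p.2).map fun p => p.1) = l.filter f := by
  induction l with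
  | nil => rfl
  | cons a l ih =>
    rw [List.map_cons, List.zip_cons_cons, List.filter_cons, List.filter_cons]
    cases hf : f a
    · simpa using ih
    · simpa using ih

theorem orf_mo (hr : IsRk r) (hX : Orf X E r) (hA : ∀ a ∈ A, a ∈ E)
    (hi : r A.toFinset = (A.toFinset.card : ℤ)) (hS : ∀ s ∈ S, s ∈ E) (hn : S.Nodup)
    (hd : ∀ a ∈ A, a ∉ S) : Orf (mo X E A S) S (ctr r A.toFinset) := by
  intro T hT
  have e1 : (((S.zip (word S T)).filter fun p => p.2).map fun p => p.1) = nor S T :=
    c1_zip S fun e => decide (e ∈ T)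
  have e2 : (nor S T).toFinset = T.toFinset := by
    rw [Pool.Agent.BW.toF_nor]
    apply inter_eq_right.2
    intro x hx
    rw [List.mem_toFinset] at hx ⊢
    exact hT x hx
  have hdis : Disjoint A.toFinset T.toFinset := by
    rw [disjoint_left]
    intro x hx hx'
    rw [List.mem_toFinset] at hx hx'
    exact hd x hx (hT x hx')
  unfold mo
  rw [e1, hX (A ++ nor S T) ?_, List.toFinset_append, e2, card_union_of_disjoint hdis]
  · unfold ctr
    rw [hi]
    push_cast
    constructor <;> intro h <;> omega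
  · intro t ht
    rcases List.mem_append.1 ht with ht | ht
    · exact hA t ht
    · exact hS t (Pool.Agent.BW.mem_nor.1 ht).1

theorem mcut_spec (hr : IsRk r) (hX : Orf X S r) (hS : S.Nodup) (hA : A ⊆ S) (hT : T ⊆ S)
    (hd : Disjoint A.toFinset T.toFinset) :
    (∃ Z, A.toFinset ⊆ Z ∧ Z ⊆ S.toFinset ∧ Disjoint Z T.toFinset ∧
      (mcut X S A T : ℤ) = lam r S.toFinset Z) ∧
    ∀ Z, A.toFinset ⊆ Z → Z ⊆ S.toFinset → Disjoint Z T.toFinset →
      (mcut X S A T : ℤ) ≤ lam r S.toFinset Z := by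
  have hρ := orf_rkd hr hX hS
  have hc := Pool.Agent.BW.cut_spec (hr.dual S.toFinset) hS hρ hA hT hd
  have hsub : Pool.Agent.BW.cutZ (fun T => rkD X S T) S A T ⊆ S :=
    (Pool.Agent.BW.cutZ_sub).subset
  have h1 : (mcut X S A T : ℤ) =
      lam r S.toFinset (Pool.Agent.BW.cutZ (fun T => rkD X S T) S A T).toFinset := by
    rw [← Pool.Agent.G4.lam_dual hr hc.ZE, ← Pool.Agent.BW.lamL_spec (hr.dual S.toFinset) hρ hsub]
    rfl
  have hA' : A.toFinset ⊆ S.toFinset := hc.AZ.trans hc.ZE
  have hT' : T.toFinset ⊆ S.toFinset := by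
    intro x hx
    rw [List.mem_toFinset] at hx ⊢
    exact hT hx
  refine ⟨⟨_, hc.AZ, hc.ZE, hc.ZB, h1⟩, ?_⟩
  intro Z h2 h3 h4
  have h5 := hc.min (hr.dual S.toFinset) hA' hT' h2 h3 h4
  rw [Pool.Agent.G4.lam_dual hr hc.ZE, Pool.Agent.G4.lam_dual hr h3] at h5
  rw [h1]
  exact h5

private theorem c1_cn3 : cn3 X S = true ↔ 4 ≤ S.length ∧
    (∀ a ∈ S, ∀ b ∈ S, a ≠ b → 1 ≤ mcut X S [a] [b]) ∧
    ∀ a ∈ S, ∀ a' ∈ S, ∀ b ∈ S, ∀ b' ∈ S, a ≠ a' → b ≠ b' → a ∉ [b, b'] → a' ∉ [b, b'] →
      2 ≤ mcut X S [a, a'] [b, b'] := by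
  unfold cn3
  rw [Bool.and_eq_true, Bool.and_eq_true, decide_eq_true_iff, List.all_eq_true, List.all_eq_true]
  refine and_congr Iff.rfl (and_congr ?_ ?_)
  · constructor
    · intro h a ha b hb hab
      have h1 := h (a, b) (Pool.Agent.BW.mem_prd.2 ⟨ha, hb⟩)
      rw [Bool.or_eq_true, decide_eq_true_iff, decide_eq_true_iff] at h1
      exact h1.resolve_left hab
    · intro h p hp
      rw [Bool.or_eq_true, decide_eq_true_iff, decide_eq_true_iff]
      have h1 := Pool.Agent.BW.mem_prd.1 hp
      by_cases h2 : p.1 = p.2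
      · exact Or.inl h2
      · exact Or.inr (h p.1 h1.1 p.2 h1.2 h2)
  · constructor
    · intro h a ha a' ha' b hb b' hb' h1 h2 h3 h4
      have h5 := h ((a, a'), (b, b')) (Pool.Agent.BW.mem_prd.2
        ⟨Pool.Agent.BW.mem_prd.2 ⟨ha, ha'⟩, Pool.Agent.BW.mem_prd.2 ⟨hb, hb'⟩⟩)
      rw [Bool.or_eq_true, Bool.or_eq_true, Bool.or_eq_true, Bool.or_eq_true, decide_eq_true_iff,
        decide_eq_true_iff, decide_eq_true_iff, decide_eq_true_iff, decide_eq_true_iff] at h5
      tauto
    · intro h p hp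
      obtain ⟨h1, h2⟩ := Pool.Agent.BW.mem_prd.1 hp
      obtain ⟨h3, h4⟩ := Pool.Agent.BW.mem_prd.1 h1
      obtain ⟨h5, h6⟩ := Pool.Agent.BW.mem_prd.1 h2
      have h7 := h p.1.1 h3 p.1.2 h4 p.2.1 h5 p.2.2 h6
      rw [Bool.or_eq_true, Bool.or_eq_true, Bool.or_eq_true, Bool.or_eq_true, decide_eq_true_iff,
        decide_eq_true_iff, decide_eq_true_iff, decide_eq_true_iff, decide_eq_true_iff]
      tauto

theorem cn3_iff (hr : IsRk r) (hX : Orf X S r) (hS : S.Nodup) :
    cn3 X S = true ↔ Conn3 r S.toFinset := by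
  have hlen : S.toFinset.card = S.length := List.toFinset_card_of_nodup hS
  have sub1 : ∀ a ∈ S, [a] ⊆ S := by
    intro a ha x hx
    rw [List.mem_singleton.1 hx]
    exact ha
  have sub2 : ∀ a ∈ S, ∀ b ∈ S, [a, b] ⊆ S := by
    intro a ha b hb x hx
    simp only [List.mem_cons, List.not_mem_nil, or_false] at hx
    rcases hx with rfl | rfl
    · exact ha
    · exact hb
  rw [c1_cn3]
  unfold Conn3
  rw [hlen]
  refine and_congr Iff.rfl ?_
  constructor
  · rintro ⟨h1, h2⟩ Y hY hY1 hY2
    constructor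
    · obtain ⟨a, ha⟩ := hY1
      obtain ⟨b, hb⟩ := hY2
      obtain ⟨hbS, hbY⟩ := mem_sdiff.1 hb
      have haS := List.mem_toFinset.1 (hY ha)
      have hbS' := List.mem_toFinset.1 hbS
      have hab : a ≠ b := fun e => hbY (e ▸ ha)
      have h3 := h1 a haS b hbS' hab
      have h4 := (mcut_spec hr hX hS (sub1 a haS) (sub1 b hbS') (by
        rw [disjoint_left]
        intro x hx hx'
        rw [List.mem_toFinset, List.mem_singleton] at hx hx'
        exact hab (hx.symm.trans hx'))).2 Y (by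
          intro x hx
          rw [List.mem_toFinset, List.mem_singleton] at hx
          rw [hx]
          exact ha) hY (by
          rw [disjoint_left]
          intro x hx hx'
          rw [List.mem_toFinset, List.mem_singleton] at hx'
          rw [hx'] at hx
          exact hbY hx)
      omega
    · intro hc1 hc2
      obtain ⟨a, ha, a', ha', haa⟩ := one_lt_card.1 (show 1 < Y.card by omega)
      obtain ⟨b, hb, b', hb', hbb⟩ := one_lt_card.1 (show 1 < (S.toFinset \ Y).card by omega)
      obtain ⟨hbS, hbY⟩ := mem_sdiff.1 hb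
      obtain ⟨hbS', hbY'⟩ := mem_sdiff.1 hb'
      have haS := List.mem_toFinset.1 (hY ha)
      have haS' := List.mem_toFinset.1 (hY ha')
      rw [List.mem_toFinset] at hbS hbS'
      have n1 : a ∉ [b, b'] := by
        simp only [List.mem_cons, List.not_mem_nil, or_false, not_or]
        exact ⟨fun e => hbY (e ▸ ha), fun e => hbY' (e ▸ ha)⟩
      have n2 : a' ∉ [b, b'] := by
        simp only [List.mem_cons, List.not_mem_nil, or_false, not_or]
        exact ⟨fun e => hbY (e ▸ ha'), fun e => hbY' (e ▸ ha')⟩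
      have h3 := h2 a haS a' haS' b hbS b' hbS' haa hbb n1 n2
      have h4 := (mcut_spec hr hX hS (sub2 a haS a' haS') (sub2 b hbS b' hbS') (by
        rw [disjoint_left]
        intro x hx hx'
        rw [List.mem_toFinset] at hx hx'
        simp only [List.mem_cons, List.not_mem_nil, or_false] at hx
        rcases hx with rfl | rfl
        · exact n1 hx'
        · exact n2 hx')).2 Y (by
          intro x hx
          rw [List.mem_toFinset] at hx
          simp only [List.mem_cons, List.not_mem_nil, or_false] at hx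
          rcases hx with rfl | rfl
          · exact ha
          · exact ha') hY (by
          rw [disjoint_left]
          intro x hx hx'
          rw [List.mem_toFinset] at hx'
          simp only [List.mem_cons, List.not_mem_nil, or_false] at hx'
          rcases hx' with rfl | rfl
          · exact hbY hx
          · exact hbY' hx)
      omega
  · intro h
    constructor
    · intro a ha b hb hab
      obtain ⟨Z, h1, h2, h3, h4⟩ := (mcut_spec hr hX hS (sub1 a ha) (sub1 b hb) (by
        rw [disjoint_left]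
        intro x hx hx'
        rw [List.mem_toFinset, List.mem_singleton] at hx hx'
        exact hab (hx.symm.trans hx'))).1
      have h5 := (h Z h2 ⟨a, h1 (by simp)⟩ ⟨b, mem_sdiff.2 ⟨List.mem_toFinset.2 hb, fun hbZ =>
        (disjoint_left.1 h3) hbZ (by simp)⟩⟩).1
      omega
    · intro a ha a' ha' b hb b' hb' haa hbb n1 n2
      obtain ⟨Z, h1, h2, h3, h4⟩ := (mcut_spec hr hX hS (sub2 a ha a' ha') (sub2 b hb b' hb') (by
        rw [disjoint_left]
        intro x hx hx'
        rw [List.mem_toFinset] at hx hx'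
        simp only [List.mem_cons, List.not_mem_nil, or_false] at hx
        rcases hx with rfl | rfl
        · exact n1 hx'
        · exact n2 hx')).1
      have m1 : a ∈ Z := h1 (by simp)
      have m2 : a' ∈ Z := h1 (by simp)
      have m3 : b ∈ S.toFinset \ Z := mem_sdiff.2 ⟨List.mem_toFinset.2 hb, fun hbZ =>
        (disjoint_left.1 h3) hbZ (by simp)⟩
      have m4 : b' ∈ S.toFinset \ Z := mem_sdiff.2 ⟨List.mem_toFinset.2 hb', fun hbZ =>
        (disjoint_left.1 h3) hbZ (by simp)⟩
      have c1 : 1 < Z.card := one_lt_card.2 ⟨a, m1, a', m2, haa⟩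
      have c2 : 1 < (S.toFinset \ Z).card := one_lt_card.2 ⟨b, m3, b', m4, hbb⟩
      have h5 := (h Z h2 ⟨a, m1⟩ ⟨b, m3⟩).2 c1 c2
      omega

end Pool.Agent.PM
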