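import Pool.Agent.G4.R1b

set_option autoImplicit false

/-!
# Module RA: labels of matroids (rank functions)

A label `C` of the matroid on `S` is an independent set such that the contraction of `C` has rank three
and `q ^ 2 + q + 1` pairwise independent elements.
-/

namespace Pool.Agent.PM

open Finset
open Pool.Agent.G4 (IsRk ctr lam dualR Conn3)

variable {q : ℕ} {r r' : Finset ℕ → ℤ} {S S' X Y Z A B C D : Finset ℕ} {a b x y e : ℕ}

/-- bounds for the number of elements of lines and planes of minors -/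
def Qb (q : ℕ) (r : Finset ℕ → ℤ) : Prop :=
  ∀ C Z : Finset ℕ, (∀ a ∈ Z, ∀ b ∈ Z, a ≠ b → ctr r C {a, b} = 2) →
    (ctr r C Z ≤ 2 → Z.card ≤ q + 1) ∧ (ctr r C Z ≤ 3 → Z.card ≤ q ^ 2 + q + 1)

/-- `C` is a label of the matroid on `S` -/
def Lb (q : ℕ) (r : Finset ℕ → ℤ) (S C : Finset ℕ) : Prop :=
  C ⊆ S ∧ r C = C.card ∧ r S = C.card + 3 ∧
    ∃ Z ⊆ S \ C, Z.card = q ^ 2 + q + 1 ∧ ∀ a ∈ Z, ∀ b ∈ Z, a ≠ b → ctr r C {a, b} = 2

private theorem clo (hr : IsRk r) (hAB : A ⊆ B) (h : r (insert y A) = r A) :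
    r (insert y B) = r B := by
  have h1 := hr.sub B (insert y A)
  have e1 : B ∪ insert y A = insert y B := by
    rw [union_insert, union_eq_left.2 hAB]
  have h2 : r A ≤ r (B ∩ insert y A) :=
    hr.mono' (subset_inter hAB (subset_insert y A))
  have h3 := hr.mono B y
  rw [e1] at h1
  omega

private theorem erase_eq (hr : IsRk r) (hA : A ⊆ S.erase y) (h : r (insert y A) = r A) :
    r (S.erase y) = r S := by
  by_cases hy : y ∈ S
  · have h1 := clo hr hA h
    rw [insert_erase hy] at h1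
    exact h1.symm
  · rw [erase_eq_of_notMem hy]

private theorem pair_le (hr : IsRk r) (C : Finset ℕ) (a b : ℕ) : r (C ∪ {a, b}) ≤ r C + 2 := by
  have h1 := hr.union_le C {a, b}
  have h2 : ({a, b} : Finset ℕ).card ≤ 2 := card_le_two
  omega

private theorem union_pair (C : Finset ℕ) (a b : ℕ) : C ∪ {a, b} = insert b (insert a C) := by
  ext x
  simp only [mem_union, mem_insert, mem_singleton]
  tauto

theorem Lb.congr (h : ∀ X ⊆ S, r X = r' X) (hL : Lb q r S C) : Lb q r' S C := by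
  obtain ⟨h1, h2, h3, Z, hZ, hc, hZ2⟩ := hL
  refine ⟨h1, by rw [← h C h1, h2], by rw [← h S (Subset.refl S), h3], Z, hZ, hc,
    fun a ha b hb hab => ?_⟩
  rw [← hZ2 a ha b hb hab]
  unfold Pool.Agent.G4.ctr
  have h4 : C ∪ {a, b} ⊆ S := by
    refine union_subset h1 fun z hz => ?_
    rcases mem_insert.1 hz with rfl | hz
    · exact (mem_sdiff.1 (hZ ha)).1
    · rw [mem_singleton.1 hz]
      exact (mem_sdiff.1 (hZ hb)).1
  rw [h C h1, h _ h4]

theorem Lb.ctr (hr : IsRk r) (hL : Lb q r S C) (hy : y ∈ C) :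
    Lb q (Pool.Agent.G4.ctr r {y}) (S.erase y) (C.erase y) := by
  obtain ⟨h1, h2, h3, Z, hZ, hc, hZ2⟩ := hL
  have e1 : {y} ∪ C.erase y = C := by rw [← insert_eq, insert_erase hy]
  have e2 : {y} ∪ S.erase y = S := by rw [← insert_eq, insert_erase (h1 hy)]
  have e3 : (C.erase y).card + 1 = C.card := card_erase_add_one hy
  have e4 : r {y} = 1 := by
    have h4 := hr.union_le {y} (C.erase y)
    have h5 := hr.le_card {y}
    rw [e1] at h4
    rw [card_singleton] at h5
    push_cast at h5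
    omega
  refine ⟨erase_subset_erase y h1, ?_, ?_, Z, ?_, hc, fun a ha b hb hab => ?_⟩
  · unfold Pool.Agent.G4.ctr
    rw [e1, e4]
    omega
  · unfold Pool.Agent.G4.ctr
    rw [e2, e4]
    omega
  · intro z hz
    obtain ⟨h5, h6⟩ := mem_sdiff.1 (hZ hz)
    exact mem_sdiff.2 ⟨mem_erase.2 ⟨fun h7 => h6 (h7 ▸ hy), h5⟩, fun h7 => h6 (mem_erase.1 h7).2⟩
  · rw [Pool.Agent.G4.ctr_ctr, e1]
    exact hZ2 a ha b hb hab

theorem Lb.of_ctr (hr : IsRk r) (hy : y ∈ S) (h1 : r {y} = 1)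
    (hL : Lb q (Pool.Agent.G4.ctr r {y}) (S.erase y) D) : Lb q r S (insert y D) := by
  obtain ⟨h2, h3, h4, Z, hZ, hc, hZ2⟩ := hL
  have hyD : y ∉ D := fun h5 => (mem_erase.1 (h2 h5)).1 rfl
  have e2 : {y} ∪ S.erase y = S := by rw [← insert_eq, insert_erase hy]
  have e3 : (insert y D).card = D.card + 1 := card_insert_of_notMem hyD
  unfold Pool.Agent.G4.ctr at h3 h4
  rw [← insert_eq] at h3
  rw [e2] at h4
  refine ⟨insert_subset hy (h2.trans (erase_subset y S)), by rw [e3]; push_cast; omega,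
    by rw [e3]; push_cast; omega, Z, ?_, hc, fun a ha b hb hab => ?_⟩
  · intro z hz
    obtain ⟨h5, h6⟩ := mem_sdiff.1 (hZ hz)
    obtain ⟨h7, h8⟩ := mem_erase.1 h5
    refine mem_sdiff.2 ⟨h8, fun h9 => ?_⟩
    rcases mem_insert.1 h9 with h10 | h10
    · exact h7 h10
    · exact h6 h10
  · have h5 := hZ2 a ha b hb hab
    rw [Pool.Agent.G4.ctr_ctr, ← insert_eq] at h5
    exact h5

theorem Lb.mono (hr : IsRk r) (hL : Lb q r S C) (hS : S ⊆ S') (h : r S' = r S) :
    Lb q r S' C := by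
  obtain ⟨h1, h2, h3, Z, hZ, hc, hZ2⟩ := hL
  exact ⟨h1.trans hS, h2, by rw [h, h3], Z, hZ.trans (sdiff_subset_sdiff hS (Subset.refl C)),
    hc, hZ2⟩

theorem Lb.loop (hr : IsRk r) (hL : Lb q r S C) (hy : y ∉ C) (h : r (insert y C) = r C) :
    Lb q r (S.erase y) C := by
  obtain ⟨h1, h2, h3, Z, hZ, hc, hZ2⟩ := hL
  have hCS : C ⊆ S.erase y := fun z hz => mem_erase.2 ⟨fun h4 => hy (h4 ▸ hz), h1 hz⟩
  have h4 : r (S.erase y) = r S := erase_eq hr hCS h
  refine ⟨hCS, h2, by rw [h4, h3], ?_⟩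
  by_cases hyZ : y ∈ Z
  · by_cases hq : Z.card ≤ 1
    · -- one element is enough
      have h5 : ∃ z ∈ S.erase y, z ∉ C := by
        by_contra hcon
        push Not at hcon
        have h6 := hr.mono' (A := S.erase y) (B := C) hcon
        omega
      obtain ⟨z, hz, hzC⟩ := h5
      have h6 : Z.card = 1 := le_antisymm hq (card_pos.2 ⟨y, hyZ⟩)
      refine ⟨{z}, singleton_subset_iff.2 (mem_sdiff.2 ⟨hz, hzC⟩), ?_, fun a ha b hb hab => ?_⟩
      · rw [card_singleton, ← hc, h6]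
      · exact absurd ((mem_singleton.1 ha).trans (mem_singleton.1 hb).symm) hab
    · exfalso
      obtain ⟨b, hb, hby⟩ := exists_mem_ne (by omega : 1 < Z.card) y
      have h5 := hZ2 y hyZ b hb hby.symm
      unfold Pool.Agent.G4.ctr at h5
      rw [union_pair] at h5
      have h6 := hr.unit (insert y C) b
      omega
  · refine ⟨Z, fun z hz => ?_, hc, hZ2⟩
    obtain ⟨h5, h6⟩ := mem_sdiff.1 (hZ hz)
    exact mem_sdiff.2 ⟨mem_erase.2 ⟨fun h7 => hyZ (h7 ▸ hz), h5⟩, h6⟩

theorem Lb.par (hr : IsRk r) (hL : Lb q r S C) (hy : y ∉ C) (hx : x ∈ S) (hxC : x ∉ C)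
    (hxy : x ≠ y) (h1 : r (insert x C) = r C + 1) (h2 : r (insert y (insert x C)) = r C + 1) :
    Lb q r (S.erase y) C := by
  obtain ⟨h3, h4, h5, Z, hZ, hc, hZ2⟩ := hL
  have hCS : C ⊆ S.erase y := fun z hz => mem_erase.2 ⟨fun h4 => hy (h4 ▸ hz), h3 hz⟩
  have hxS : insert x C ⊆ S.erase y := insert_subset (mem_erase.2 ⟨hxy, hx⟩) hCS
  have h6 : r (insert y (insert x C)) = r (insert x C) := by rw [h1, h2]
  have h7 : r (S.erase y) = r S := erase_eq hr hxS h6
  refine ⟨hCS, h4, by rw [h7, h5], ?_⟩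
  by_cases hyZ : y ∈ Z
  · have hxZ : x ∉ Z := by
      intro hxZ
      have h8 := hZ2 x hxZ y hyZ hxy
      unfold Pool.Agent.G4.ctr at h8
      rw [union_pair] at h8
      omega
    have key : ∀ b ∈ Z.erase y, Pool.Agent.G4.ctr r C {x, b} = 2 := by
      intro b hb
      obtain ⟨hby, hbZ⟩ := mem_erase.1 hb
      have h8 := hZ2 y hyZ b hbZ hby.symm
      unfold Pool.Agent.G4.ctr at h8 ⊢
      have h9 := pair_le hr C x b
      have h10 : r (insert y (insert b (insert x C))) = r (insert b (insert x C)) :=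
        clo hr (subset_insert b (insert x C)) h6
      have h11 : r (C ∪ {y, b}) ≤ r (insert y (insert b (insert x C))) := by
        refine hr.mono' ?_
        rw [union_pair]
        intro z hz
        simp only [mem_insert] at hz ⊢
        tauto
      rw [union_pair] at h9 ⊢
      omega
    refine ⟨insert x (Z.erase y), ?_, ?_, fun a ha b hb hab => ?_⟩
    · intro z hz
      rcases mem_insert.1 hz with rfl | hz
      · exact mem_sdiff.2 ⟨mem_erase.2 ⟨hxy, hx⟩, hxC⟩
      · obtain ⟨h8, h9⟩ := mem_erase.1 hz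
        obtain ⟨h10, h11⟩ := mem_sdiff.1 (hZ h9)
        exact mem_sdiff.2 ⟨mem_erase.2 ⟨h8, h10⟩, h11⟩
    · rw [card_insert_of_notMem fun h8 => hxZ (mem_erase.1 h8).2, card_erase_add_one hyZ, hc]
    · rcases mem_insert.1 ha with ha | ha
      · rcases mem_insert.1 hb with hb | hb
        · exact absurd (ha.trans hb.symm) hab
        · rw [ha]
          exact key b hb
      · rcases mem_insert.1 hb with hb | hb
        · rw [hb, pair_comm]
          exact key a ha
        · exact hZ2 a (mem_erase.1 ha).2 b (mem_erase.1 hb).2 hab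
  · refine ⟨Z, fun z hz => ?_, hc, hZ2⟩
    obtain ⟨h8, h9⟩ := mem_sdiff.1 (hZ hz)
    exact mem_sdiff.2 ⟨mem_erase.2 ⟨fun h10 => hyZ (h10 ▸ hz), h8⟩, h9⟩

/-- `C'` is obtained from `C` by at most two exchanges -/
def Near (C C' : Finset ℕ) : Prop := (C \ C').card ≤ 2 ∧ (C' \ C).card ≤ 2

end Pool.Agent.PM
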