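import Pool.Agent.PM.N2
import Pool.Agent.PM.RA
import Pool.Agent.BW.Can
import Pool.Agent.G4.R1b

set_option autoImplicit false

/-!
# Module C2: the test for labels
-/

namespace Pool.Agent.PM

open Finset Pool.Agent.Helper22
open Pool.Agent.G4 (nor dif word prd IsRk Conn3 ctr lam dualR)
open Pool.Agent.BW (rkX rkD RkS rkV)
open Pool.Agent.AM (pts)

variable {X : Oracle} {E S C : List ℕ} {r : Finset ℕ → ℤ} {q N : ℕ} {ρ : List ℕ → ℕ}

private theorem c2_cr (hr : IsRk r) (hρ : RkS ρ S r) (hC : C ⊆ S) {Y : List ℕ} (hY : ∀ y ∈ Y, y ∈ S) :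
    (Pool.Agent.AM.cr ρ C [] Y : ℤ) = ctr r C.toFinset Y.toFinset := by
  have h0 : dif C [] = C := by
    unfold Pool.Agent.G4.dif
    simp
  have h1 : (ρ (C ++ Y) : ℤ) = r (C.toFinset ∪ Y.toFinset) := by
    rw [hρ (C ++ Y), List.toFinset_append]
    intro t ht
    rcases List.mem_append.1 ht with h | h
    · exact hC h
    · exact hY t h
  have h2 : (ρ C : ℤ) = r C.toFinset := hρ C fun t ht => hC ht
  have h3 : r C.toFinset ≤ r (C.toFinset ∪ Y.toFinset) := hr.mono' subset_union_left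
  unfold Pool.Agent.AM.cr Pool.Agent.G4.ctr
  rw [h0]
  omega

private def c2_step (ρ : List ℕ → ℕ) (C L : List ℕ) (y : ℕ) : List ℕ :=
  if decide (Pool.Agent.AM.cr ρ C [] [y] = 0) ||
    L.any (fun s => decide (Pool.Agent.AM.cr ρ C [] [s, y] ≤ 1)) then L else L ++ [y]

/-- the list is correct -/
private def Ok (r' : Finset ℕ → ℤ) (S L : List ℕ) : Prop :=
  (∀ s ∈ L, s ∈ S ∧ r' {s} = 1) ∧ L.Pairwise fun s t => r' {s, t} = 2

private theorem c2_one (hr : IsRk r) (y : ℕ) : r {y} = 0 ∨ r {y} = 1 := by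
  have h1 := hr.nonneg {y}
  have h2 := hr.le_card {y}
  rw [card_singleton] at h2
  omega

private theorem c2_st (hr : IsRk r) (hρ : RkS ρ S r) (hC : C ⊆ S) {L : List ℕ}
    (hL : Ok (ctr r C.toFinset) S L) {y : ℕ} (hy : y ∈ S) :
    (c2_step ρ C L y = L ∧ (ctr r C.toFinset {y} ≠ 0 → ∃ s ∈ L, ctr r C.toFinset {s, y} ≤ 1)) ∨
    (c2_step ρ C L y = L ++ [y] ∧ Ok (ctr r C.toFinset) S (L ++ [y])) := by
  have hr' := hr.ctr C.toFinset
  have e1 : (Pool.Agent.AM.cr ρ C [] [y] : ℤ) = ctr r C.toFinset {y} := by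
    rw [c2_cr hr hρ hC (by simpa using hy)]
    simp
  have e2 : ∀ s ∈ L, (Pool.Agent.AM.cr ρ C [] [s, y] : ℤ) = ctr r C.toFinset {s, y} := by
    intro s hs
    rw [c2_cr hr hρ hC]
    · simp
    · intro t ht
      rcases List.mem_cons.1 ht with rfl | ht
      · exact (hL.1 t hs).1
      · rw [List.mem_singleton.1 ht]
        exact hy
  unfold c2_step
  by_cases h1 : Pool.Agent.AM.cr ρ C [] [y] = 0
  · left
    refine ⟨by rw [if_pos (by simp [h1])], fun h2 => absurd ?_ h2⟩
    rw [← e1, h1]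
    rfl
  · by_cases h2 : ∃ s ∈ L, Pool.Agent.AM.cr ρ C [] [s, y] ≤ 1
    · left
      obtain ⟨s, hs, h3⟩ := h2
      have h4 : L.any (fun s => decide (Pool.Agent.AM.cr ρ C [] [s, y] ≤ 1)) = true := by
        rw [List.any_eq_true]
        exact ⟨s, hs, by simpa using h3⟩
      refine ⟨by rw [if_pos (by rw [h4, Bool.or_true])], fun _ => ⟨s, hs, ?_⟩⟩
      rw [← e2 s hs]
      exact_mod_cast h3
    · right
      have h4 : L.any (fun s => decide (Pool.Agent.AM.cr ρ C [] [s, y] ≤ 1)) = false := by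
        rw [List.any_eq_false]
        intro s hs h5
        exact h2 ⟨s, hs, by simpa using h5⟩
      refine ⟨by rw [h4, Bool.or_false, if_neg (by simpa using h1)], ?_, ?_⟩
      · intro s hs
        rcases List.mem_append.1 hs with hs | hs
        · exact hL.1 s hs
        · rw [List.mem_singleton.1 hs]
          refine ⟨hy, ?_⟩
          rcases c2_one hr' y with h5 | h5
          · exfalso
            rw [← e1] at h5
            exact h1 (by exact_mod_cast h5)
          · exact h5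
      · rw [List.pairwise_append]
        refine ⟨hL.2, List.pairwise_singleton _ _, fun s hs t ht => ?_⟩
        rw [List.mem_singleton.1 ht]
        have h5 : ¬ Pool.Agent.AM.cr ρ C [] [s, y] ≤ 1 := fun h6 => h2 ⟨s, hs, h6⟩
        have h6 := e2 s hs
        have h7 := hr'.le_card {s, y}
        have h8 : ({s, y} : Finset ℕ).card ≤ 2 := card_le_two
        omega

private theorem c2_fold (hr : IsRk r) (hρ : RkS ρ S r) (hC : C ⊆ S) (D : List ℕ) :
    (∀ y ∈ D, y ∈ S) → ∀ L : List ℕ, Ok (ctr r C.toFinset) S L →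
      (∃ M, D.foldl (c2_step ρ C) L = L ++ M) ∧ Ok (ctr r C.toFinset) S (D.foldl (c2_step ρ C) L) ∧
      ∀ y ∈ D, ctr r C.toFinset {y} ≠ 0 →
        ∃ s ∈ D.foldl (c2_step ρ C) L, ctr r C.toFinset {s, y} ≤ 1 := by
  induction D with
  | nil =>
    intro _ L h1
    exact ⟨⟨[], by simp⟩, h1, fun y hy => absurd hy (by simp)⟩
  | cons y D ih =>
    intro hD L h1
    have hy : y ∈ S := hD y List.mem_cons_self
    have hD' : ∀ x ∈ D, x ∈ S := fun x hx => hD x (List.mem_cons_of_mem _ hx)
    rw [List.foldl_cons]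
    rcases c2_st hr hρ hC h1 hy with ⟨e1, e2⟩ | ⟨e1, e2⟩
    · rw [e1]
      obtain ⟨⟨M, g1⟩, g2, g3⟩ := ih hD' L h1
      refine ⟨⟨M, g1⟩, g2, fun x hx hx0 => ?_⟩
      rcases List.mem_cons.1 hx with rfl | hx
      · obtain ⟨s, hs, hp⟩ := e2 hx0
        refine ⟨s, ?_, hp⟩
        rw [g1]
        exact List.mem_append_left _ hs
      · exact g3 x hx hx0
    · rw [e1]
      obtain ⟨⟨M, g1⟩, g2, g3⟩ := ih hD' (L ++ [y]) e2
      refine ⟨⟨[y] ++ M, by rw [g1, List.append_assoc]⟩, g2, fun x hx hx0 => ?_⟩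
      rcases List.mem_cons.1 hx with rfl | hx
      · refine ⟨x, ?_, ?_⟩
        · rw [g1]
          exact List.mem_append_left _ (List.mem_append_right _ (List.mem_singleton.2 rfl))
        · have h2 := (hr.ctr C.toFinset).le_card {x}
          rw [card_singleton] at h2
          have h3 : ({x, x} : Finset ℕ) = {x} := by simp
          rw [h3]
          exact_mod_cast h2
      · exact g3 x hx hx0

theorem pts_le (hr : IsRk r) (hρ : RkS ρ S r) (hC : C ⊆ S) (hN : 2 ≤ N) :
    N ≤ (pts ρ C S []).length ↔ ∃ Z ⊆ S.toFinset \ C.toFinset, Z.card = N ∧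
      ∀ a ∈ Z, ∀ b ∈ Z, a ≠ b → ctr r C.toFinset {a, b} = 2 := by
  have hr' := hr.ctr C.toFinset
  have e0 : pts ρ C S [] = S.foldl (c2_step ρ C) [] := rfl
  obtain ⟨_, ⟨g1, g2⟩, g3⟩ := c2_fold hr hρ hC S (fun _ h => h) []
    ⟨fun s hs => absurd hs (by simp), List.Pairwise.nil⟩
  rw [e0]
  generalize S.foldl (c2_step ρ C) [] = P at g1 g2 g3
  have hss : ∀ s : ℕ, ctr r C.toFinset {s, s} ≤ 1 := by
    intro s
    have h3 : ({s, s} : Finset ℕ) = {s} := by simp
    have h2 := hr'.le_card {s}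
    rw [card_singleton] at h2
    rw [h3]
    exact_mod_cast h2
  constructor
  · intro hN'
    have hnd : P.Nodup := by
      refine g2.imp ?_
      intro s t hst he
      subst he
      have := hss s
      omega
    have hsym : ∀ a ∈ P, ∀ b ∈ P, a ≠ b → ctr r C.toFinset {a, b} = 2 := by
      intro a ha b hb hab
      have hS : Std.Symm fun s t : ℕ => ctr r C.toFinset {s, t} = 2 := ⟨fun s t hst => by
        rw [pair_comm]
        exact hst⟩
      exact g2.forall ha hb hab
    have htk : ∀ x ∈ (P.take N).toFinset, x ∈ P := fun x hx =>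
      List.mem_of_mem_take (List.mem_toFinset.1 hx)
    refine ⟨(P.take N).toFinset, ?_, ?_, ?_⟩
    · intro x hx
      have h1 := g1 x (htk x hx)
      rw [mem_sdiff, List.mem_toFinset]
      refine ⟨h1.1, fun h2 => ?_⟩
      have h3 := h1.2
      unfold Pool.Agent.G4.ctr at h3
      rw [union_eq_left.2 (singleton_subset_iff.2 h2)] at h3
      omega
    · rw [List.toFinset_card_of_nodup (hnd.sublist (List.take_sublist N P)), List.length_take]
      omega
    · intro a ha b hb hab
      exact hsym a (htk a ha) b (htk b hb) hab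
  · rintro ⟨Z, hZ, hZc, hZ2⟩
    have h1 : ∀ a ∈ Z, ctr r C.toFinset {a} ≠ 0 := by
      intro a ha h0
      obtain ⟨b, hb, hba⟩ := exists_mem_ne (by omega : 1 < Z.card) a
      have h2 := hZ2 a ha b hb hba.symm
      have h3 := hr'.unit {a} b
      have h4 : insert b {a} = ({a, b} : Finset ℕ) := by rw [pair_comm]
      rw [h4, h2, h0] at h3
      omega
    have h2 : ∀ a : ℕ, ∃ s : ℕ, a ∈ Z → s ∈ P ∧ ctr r C.toFinset {s, a} ≤ 1 := by
      intro a
      by_cases ha : a ∈ Z
      · obtain ⟨s, hs, h3⟩ := g3 a (List.mem_toFinset.1 (mem_sdiff.1 (hZ ha)).1) (h1 a ha)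
        exact ⟨s, fun _ => ⟨hs, h3⟩⟩
      · exact ⟨0, fun h => absurd h ha⟩
    choose f hf using h2
    have h3 : Z.card ≤ P.toFinset.card := by
      refine card_le_card_of_injOn f (fun a ha => List.mem_toFinset.2 (hf a ha).1) ?_
      intro a ha b hb hab
      by_contra hne
      have ha' : a ∈ Z := ha
      have hb' : b ∈ Z := hb
      have h4 := hZ2 a ha' b hb' hne
      have h5 := (hf a ha').2
      have h6 := (hf b hb').2
      rw [← hab] at h6
      have h7 := hr'.sub {f a, a} {f a, b}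
      have h8 := hr'.mono' (A := {f a}) (B := {f a, a} ∩ {f a, b}) (by
        intro x hx
        rw [mem_singleton] at hx
        subst hx
        simp)
      have h9 := hr'.mono' (A := {a, b}) (B := {f a, a} ∪ {f a, b}) (by
        intro x hx
        rw [mem_insert, mem_singleton] at hx
        rcases hx with rfl | rfl <;> simp)
      have h10 := (g1 _ (hf a ha').1).2
      omega
    have h4 : P.toFinset.card ≤ P.length := P.toFinset_card_le
    omega

theorem labB_iff (hr : IsRk r) (hX : Orf X S r) (hS : S.Nodup) (hC : C.Sublist S) (hq : 1 ≤ q) :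
    labB (q ^ 2 + q + 1) X S C = true ↔ Lb q r S.toFinset C.toFinset := by
  have hρ := greedy_rk hS hr hX
  have hCS : C ⊆ S := hC.subset
  have hCn : C.Nodup := hS.sublist hC
  have hcard : C.toFinset.card = C.length := List.toFinset_card_of_nodup hCn
  have e1 : (rkX X S C : ℤ) = r C.toFinset := hρ C fun t ht => hCS ht
  have e2 : (rkX X S S : ℤ) = r S.toFinset := hρ S fun t ht => ht
  have hN : 2 ≤ q ^ 2 + q + 1 := by
    have : 0 < q ^ 2 := by positivity
    omega
  have e3 := pts_le (N := q ^ 2 + q + 1) hr hρ hCS hN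
  have hsub : C.toFinset ⊆ S.toFinset := fun x hx =>
    List.mem_toFinset.2 (hCS (List.mem_toFinset.1 hx))
  unfold labB Lb
  rw [Bool.and_eq_true, Bool.and_eq_true, decide_eq_true_iff, decide_eq_true_iff,
    decide_eq_true_iff, e3]
  constructor
  · rintro ⟨h1, h2, h3⟩
    refine ⟨hsub, ?_, ?_, h3⟩
    · rw [← e1, h1, hcard]
    · rw [← e2, h2, hcard]
      push_cast
      rfl
  · rintro ⟨_, h1, h2, h3⟩
    refine ⟨?_, ?_, h3⟩
    · rw [← e1, hcard] at h1
      exact_mod_cast h1
    · rw [← e2, hcard] at h2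
      exact_mod_cast h2

end Pool.Agent.PM
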