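import Pool.Agent.PM.RA
import Pool.Agent.BW.Defs
import Pool.Agent.G4.R1b

set_option autoImplicit false

/-!
# Module C2b: the number of points of lines and planes
-/

namespace Pool.Agent.PM

open Finset
open Pool.Agent.G4 (IsRk Conn3 ctr lam dualR)
open Pool.Agent.BW (rkV)

theorem qb_ctr {q : ℕ} {r : Finset ℕ → ℤ} (hQ : Qb q r) (D : Finset ℕ) : Qb q (ctr r D) := by
  intro C Z h
  rw [Pool.Agent.G4.ctr_ctr]
  apply hQ (D ∪ C) Z
  intro a ha b hb hab
  rw [← Pool.Agent.G4.ctr_ctr]
  exact h a ha b hb hab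

private theorem c2b_sp_insert {K V : Type} [Field K] [AddCommGroup V] [Module K V] (v : ℕ → V)
    (z : ℕ) (C : Finset ℕ) : Pool.Agent.BW.sp K v (insert z C) =
      Submodule.span K {v z} ⊔ Pool.Agent.BW.sp K v C := by
  unfold Pool.Agent.BW.sp
  rw [Finset.coe_insert, Set.image_insert_eq, Submodule.span_insert]

private theorem c2b_fin {K V : Type} [Field K] [AddCommGroup V] [Module K V] (v : ℕ → V)
    (C : Finset ℕ) : Module.Finite K (Pool.Agent.BW.sp K v C) := by
  unfold Pool.Agent.BW.sp
  exact Module.Finite.span_of_finite K (C.finite_toSet.image v)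

private theorem c2b_insert_le {K V : Type} [Field K] [AddCommGroup V] [Module K V] (v : ℕ → V)
    (z : ℕ) (C : Finset ℕ) : Module.finrank K (Pool.Agent.BW.sp K v (insert z C)) ≤
      Module.finrank K (Pool.Agent.BW.sp K v C) + 1 := by
  have := c2b_fin (K := K) v C
  have : Module.Finite K (Submodule.span K {v z}) :=
    Module.Finite.span_of_finite K (Set.finite_singleton _)
  rw [c2b_sp_insert]
  have h1 := Submodule.finrank_add_le_finrank_add_finrank (Submodule.span K {v z})
    (Pool.Agent.BW.sp K v C)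
  have h2 : Module.finrank K (Submodule.span K {v z}) ≤ 1 := by
    have h3 := finrank_span_le_card (R := K) ({v z} : Set V)
    simpa using h3
  omega

/-- `v z` is not in the span of `C + z'` -/
private theorem c2b_not_mem {K V : Type} [Field K] [AddCommGroup V] [Module K V] (v : ℕ → V)
    (C : Finset ℕ) {z z' : ℕ} (h : ctr (rkV K v) C {z, z'} = 2) :
    v z ∉ Pool.Agent.BW.sp K v (insert z' C) := by
  intro hm
  have h1 : Pool.Agent.BW.sp K v (C ∪ {z, z'}) = Pool.Agent.BW.sp K v (insert z' C) := by
    have e : C ∪ {z, z'} = insert z (insert z' C) := by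
      ext x
      simp only [mem_union, mem_insert, mem_singleton]
      tauto
    rw [e, c2b_sp_insert v z, sup_eq_right, Submodule.span_singleton_le_iff_mem]
    exact hm
  have h2 := c2b_insert_le (K := K) v z' C
  unfold ctr rkV at h
  rw [h1] at h
  omega

private theorem c2b_count {K V : Type} [Field K] [Fintype K] [AddCommGroup V] [Module K V]
    (v : ℕ → V) (C Z : Finset ℕ) (h2 : 1 < Z.card)
    (hZ : ∀ a ∈ Z, ∀ b ∈ Z, a ≠ b → ctr (rkV K v) C {a, b} = 2) :
    Z.card * (Fintype.card K - 1) *
        Fintype.card K ^ Module.finrank K (Pool.Agent.BW.sp K v C) +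
        Fintype.card K ^ Module.finrank K (Pool.Agent.BW.sp K v C) ≤
      Fintype.card K ^ Module.finrank K (Pool.Agent.BW.sp K v (C ∪ Z)) := by
  classical
  have := c2b_fin (K := K) v C
  have := c2b_fin (K := K) v (C ∪ Z)
  have : Finite (Pool.Agent.BW.sp K v C) := Module.finite_of_finite K
  have : Finite (Pool.Agent.BW.sp K v (C ∪ Z)) := Module.finite_of_finite K
  have hnot : ∀ z ∈ Z, v z ∉ Pool.Agent.BW.sp K v C := by
    intro z hz hm
    obtain ⟨z', hz', hne⟩ := Finset.exists_mem_ne h2 z
    refine c2b_not_mem (K := K) v C (hZ z hz z' hz' hne.symm) ?_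
    rw [c2b_sp_insert]
    exact Submodule.mem_sup_right hm
  have hle : Pool.Agent.BW.sp K v C ≤ Pool.Agent.BW.sp K v (C ∪ Z) := by
    unfold Pool.Agent.BW.sp
    apply Submodule.span_mono
    apply Set.image_mono
    rw [Finset.coe_union]
    exact Set.subset_union_left
  have hvz : ∀ z ∈ Z, v z ∈ Pool.Agent.BW.sp K v (C ∪ Z) := by
    intro z hz
    apply Submodule.subset_span
    exact ⟨z, by rw [Finset.coe_union]; exact Or.inr hz, rfl⟩
  let F : ((({z // z ∈ Z} × {c : K // c ≠ 0}) × Pool.Agent.BW.sp K v C) ⊕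
      Pool.Agent.BW.sp K v C) → Pool.Agent.BW.sp K v (C ∪ Z) :=
    Sum.elim (fun p => ⟨p.1.2.1 • v p.1.1.1 + p.2.1,
        Submodule.add_mem _ (Submodule.smul_mem _ _ (hvz _ p.1.1.2)) (hle p.2.2)⟩)
      (fun m => ⟨m.1, hle m.2⟩)
  have hF : Function.Injective F := by
    have key : ∀ (z : ℕ) (hz : z ∈ Z) (c : K) (hc : c ≠ 0) (m m' : V)
        (hm : m ∈ Pool.Agent.BW.sp K v C) (hm' : m' ∈ Pool.Agent.BW.sp K v C),
        c • v z + m ≠ m' := by
      intro z hz c hc m m' hm hm' he
      apply hnot z hz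
      have h3 : c • v z = m' - m := by rw [← he, add_sub_cancel_right]
      have h4 : v z = c⁻¹ • (m' - m) := by rw [← h3, smul_smul, inv_mul_cancel₀ hc, one_smul]
      rw [h4]
      exact Submodule.smul_mem _ _ (Submodule.sub_mem _ hm' hm)
    rintro (⟨⟨⟨z, hz⟩, ⟨c, hc⟩⟩, ⟨m, hm⟩⟩ | ⟨m, hm⟩) (⟨⟨⟨z', hz'⟩, ⟨c', hc'⟩⟩, ⟨m', hm'⟩⟩ | ⟨m', hm'⟩) he
    · have he' : c • v z + m = c' • v z' + m' := congrArg Subtype.val he
      by_cases hzz : z = z'
      · subst hzz
        by_cases hcc : c = c'
        · subst hcc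
          have h3 := add_left_cancel he'
          subst h3
          rfl
        · exfalso
          refine key z hz (c - c') (sub_ne_zero.2 hcc) m m' hm hm' ?_
          rw [sub_smul, sub_add_eq_add_sub, he', add_sub_cancel_left]
      · exfalso
        refine c2b_not_mem (K := K) v C (hZ z hz z' hz' hzz) ?_
        have h3 : c • v z = c' • v z' + (m' - m) := by
          rw [← add_sub_assoc, ← he', add_sub_cancel_right]
        have h4 : v z = c⁻¹ • (c' • v z' + (m' - m)) := by
          rw [← h3, smul_smul, inv_mul_cancel₀ hc, one_smul]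
        rw [h4, c2b_sp_insert]
        apply Submodule.smul_mem
        exact Submodule.add_mem_sup
          (Submodule.smul_mem _ _ (Submodule.mem_span_singleton_self _))
          (Submodule.sub_mem _ hm' hm)
    · exact absurd (congrArg Subtype.val he) (key z hz c hc m m' hm hm')
    · exact absurd (congrArg Subtype.val he).symm (key z' hz' c' hc' m' m hm' hm)
    · have h3 : m = m' := congrArg Subtype.val he
      subst h3
      rfl
  have h3 := Nat.card_le_card_of_injective F hF
  have e1 : Nat.card (Pool.Agent.BW.sp K v C) =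
      Fintype.card K ^ Module.finrank K (Pool.Agent.BW.sp K v C) := by
    rw [Module.natCard_eq_pow_finrank (K := K), Nat.card_eq_fintype_card]
  have e2 : Nat.card (Pool.Agent.BW.sp K v (C ∪ Z)) =
      Fintype.card K ^ Module.finrank K (Pool.Agent.BW.sp K v (C ∪ Z)) := by
    rw [Module.natCard_eq_pow_finrank (K := K), Nat.card_eq_fintype_card]
  have e3 : Nat.card {c : K // c ≠ 0} = Fintype.card K - 1 := by
    rw [Nat.card_eq_fintype_card, Fintype.card_subtype_compl, Fintype.card_subtype_eq]
  have e4 : Nat.card {z // z ∈ Z} = Z.card := by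
    rw [Nat.card_eq_fintype_card, Fintype.card_coe]
  rw [Nat.card_sum, Nat.card_prod, Nat.card_prod, e1, e2, e3, e4] at h3
  exact h3

theorem qb_rkV {K V : Type} [Field K] [Fintype K] [AddCommGroup V] [Module K V] (v : ℕ → V) :
    Qb (Fintype.card K) (rkV K v) := by
  intro C Z hZ
  have hq : 2 ≤ Fintype.card K := Fintype.one_lt_card
  obtain ⟨p, hp⟩ : ∃ p, Fintype.card K = p + 1 := ⟨Fintype.card K - 1, by omega⟩
  have hp1 : 1 ≤ p := by omega
  rw [hp]
  by_cases h1 : Z.card ≤ 1
  · refine ⟨fun _ => by omega, fun _ => ?_⟩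
    have : 0 ≤ (p + 1) ^ 2 := Nat.zero_le _
    omega
  · have h2 : 1 < Z.card := by omega
    have h3 := c2b_count v C Z h2 hZ
    rw [hp] at h3
    unfold ctr rkV
    constructor
    · intro h4
      have h5 : Module.finrank K (Pool.Agent.BW.sp K v (C ∪ Z)) ≤
          Module.finrank K (Pool.Agent.BW.sp K v C) + 2 := by omega
      have h6 : (p + 1) ^ Module.finrank K (Pool.Agent.BW.sp K v (C ∪ Z)) ≤
          (p + 1) ^ (Module.finrank K (Pool.Agent.BW.sp K v C) + 2) :=
        Nat.pow_le_pow_right (by omega) h5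
      have h7 := h3.trans h6
      rw [pow_add] at h7
      have h8 : 0 < (p + 1) ^ Module.finrank K (Pool.Agent.BW.sp K v C) := by positivity
      have h9 : (Z.card * p + 1) ≤ (p + 1) ^ 2 := by
        refine Nat.le_of_mul_le_mul_left ?_ h8
        refine le_trans (le_of_eq ?_) h7
        rw [Nat.add_sub_cancel]
        ring
      have h10 : p * Z.card ≤ p * (p + 2) := by
        have e : (p + 1) ^ 2 = p * (p + 2) + 1 := by ring
        rw [e] at h9
        rw [mul_comm p Z.card]
        omega
      have h11 := Nat.le_of_mul_le_mul_left h10 (by omega)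
      omega
    · intro h4
      have h5 : Module.finrank K (Pool.Agent.BW.sp K v (C ∪ Z)) ≤
          Module.finrank K (Pool.Agent.BW.sp K v C) + 3 := by omega
      have h6 : (p + 1) ^ Module.finrank K (Pool.Agent.BW.sp K v (C ∪ Z)) ≤
          (p + 1) ^ (Module.finrank K (Pool.Agent.BW.sp K v C) + 3) :=
        Nat.pow_le_pow_right (by omega) h5
      have h7 := h3.trans h6
      rw [pow_add] at h7
      have h8 : 0 < (p + 1) ^ Module.finrank K (Pool.Agent.BW.sp K v C) := by positivity
      have h9 : (Z.card * p + 1) ≤ (p + 1) ^ 3 := by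
        refine Nat.le_of_mul_le_mul_left ?_ h8
        refine le_trans (le_of_eq ?_) h7
        rw [Nat.add_sub_cancel]
        ring
      have h10 : p * Z.card ≤ p * (p ^ 2 + 3 * p + 3) := by
        have e : (p + 1) ^ 3 = p * (p ^ 2 + 3 * p + 3) + 1 := by ring
        rw [e] at h9
        rw [mul_comm p Z.card]
        omega
      have h11 := Nat.le_of_mul_le_mul_left h10 (by omega)
      have e : (p + 1) ^ 2 + (p + 1) + 1 = p ^ 2 + 3 * p + 3 := by ring
      rw [e]
      exact h11

end Pool.Agent.PM
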