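import Pool.Agent.PM.N7
import Pool.Agent.PM.RA

set_option autoImplicit false

/-!
# The chain of minors: definitions
-/

namespace Pool.Agent.PM

open Finset Pool.Agent.Helper22
open Pool.Agent.G4 (nor dif word prd IsRk Conn3 ctr lam dualR)

/-- the steps `o :: os` lead from the minor on `S` to the matroid on `E`, `B` is the basis -/
def Lad (r : Finset ℕ → ℤ) (E B : List ℕ) : List ℕ → List (List ℕ × List ℕ) → Prop
  | S, [] => S = E ∧ Conn3 (ctr r (dif B S).toFinset) S.toFinset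
  | S, o :: os => (S.Sublist E ∧ Rec E B S o ∧ Conn3 (ctr r (dif B S).toFinset) S.toFinset) ∧
      Lad r E B (nor E (S ++ (o.1 ++ o.2))) os

/-- a correct state of the chain -/
structure ChI (q : ℕ) (r : Finset ℕ → ℤ) (E : List ℕ) (s : Ch) : Prop where
  sub : s.1.Sublist E
  AE : ∀ a ∈ s.2.1, a ∈ E ∧ a ∉ s.1
  nd : s.2.1.Nodup
  ind : r s.2.1.toFinset = (s.2.1.length : ℤ)
  sp : r (s.2.1.toFinset ∪ s.1.toFinset) = r E.toFinset
  c3 : Conn3 (ctr r s.2.1.toFinset) s.1.toFinset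
  Cs : s.2.2.1.Sublist s.1
  lb : Lb q (ctr r s.2.1.toFinset) s.1.toFinset s.2.2.1.toFinset
  lad : ∀ B : List ℕ, (∀ x, (x ∈ B ∧ x ∉ s.1) ↔ x ∈ s.2.1) → Lad r E B s.1 s.2.2.2

end Pool.Agent.PM
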