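import Pool.Agent.PM.RA

set_option autoImplicit false

/-!
# Module RC: a label and a 2-separation: contraction
-/

namespace Pool.Agent.PM

open Finset
open Pool.Agent.G4 (IsRk ctr lam dualR Conn3)

variable {q : ℕ} {r r' : Finset ℕ → ℤ} {S S' X Y Z A B C D : Finset ℕ} {a b x y e : ℕ}

private theorem cl_mono (hr : IsRk r) (h : r (insert e A) = r A) (hAB : A ⊆ B) :
    r (insert e B) = r B := by
  have h1 := hr.sub (insert e A) B
  have e1 : insert e A ∪ B = insert e B := by rw [insert_union, union_eq_right.2 hAB]
  have h2 : r A ≤ r (insert e A ∩ B) := hr.mono' (subset_inter (subset_insert _ _) hAB)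
  have h3 := hr.mono B e
  rw [e1] at h1
  omega

/-- if all elements of `B` are in the closure of `A` then so is `B` -/
private theorem cl_all (hr : IsRk r) (h : ∀ e ∈ B, r (insert e A) = r A) : r (A ∪ B) = r A := by
  induction B using Finset.induction_on with
  | empty => rw [union_empty]
  | insert d B' _ ih =>
    rw [union_insert, cl_mono hr (h d (mem_insert_self _ _)) subset_union_left]
    exact ih fun e he => h e (mem_insert_of_mem he)

private theorem indep_sub (hr : IsRk r) (h : r C = C.card) (hD : D ⊆ C) : r D = D.card := by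
  have h1 := hr.union_le D (C \ D)
  rw [union_sdiff_of_subset hD, h] at h1
  have h2 := card_sdiff_add_card_eq_card hD
  have h3 := hr.le_card D
  omega

private theorem fund (hr : IsRk r) (h1 : 1 ≤ r {y}) (D : Finset ℕ) : r D = D.card →
    r (insert y D) = r D → ∃ c ∈ D, r (insert y (D.erase c)) = D.card := by
  induction D using Finset.induction_on with
  | empty =>
    intro _ h2
    exfalso
    rw [hr.empty, insert_empty_eq] at h2
    omega
  | insert d D' hd ih =>
    intro hD h2
    rw [card_insert_of_notMem hd] at hD ⊢
    push_cast at hD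
    have h3 := hr.unit D' d
    have h4 := hr.le_card D'
    have h5 : r D' = D'.card := by omega
    by_cases h6 : r (insert y D') = D'.card + 1
    · refine ⟨d, mem_insert_self _ _, ?_⟩
      rw [erase_insert hd, h6]
      push_cast
      rfl
    · have h7 := hr.mono D' y
      have h8 := hr.unit D' y
      obtain ⟨c, hc, hc2⟩ := ih h5 (by omega)
      have hcd : c ≠ d := fun e => hd (e ▸ hc)
      refine ⟨c, mem_insert_of_mem hc, ?_⟩
      have h9 := hr.sub (insert y ((insert d D').erase c)) (insert y D')
      have e1 : insert y ((insert d D').erase c) ∪ insert y D' = insert y (insert d D') := by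
        ext x
        simp only [mem_union, mem_insert, mem_erase]
        by_cases hx : x = c
        · rw [hx]
          simp [hc]
        · simp only [ne_eq, hx, not_false_iff, true_and]
          tauto
      have h10 : r (insert y (D'.erase c)) ≤
          r (insert y ((insert d D').erase c) ∩ insert y D') := by
        apply hr.mono'
        intro x hx
        simp only [mem_inter, mem_insert, mem_erase] at hx ⊢
        tauto
      have h11 := hr.le_card (insert y ((insert d D').erase c))
      have h12 : (insert y ((insert d D').erase c)).card ≤ D'.card + 1 := by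
        refine (card_insert_le _ _).trans ?_
        rw [card_erase_of_mem (mem_insert_of_mem hc), card_insert_of_notMem hd]
        omega
      rw [e1] at h9
      push_cast
      omega

private theorem mk (hL : Lb q r S C) {c : ℕ} (hc : c ∈ C) (hyS : y ∈ S) (hyC : y ∉ C)
    (h1 : r (insert y (C.erase c)) = C.card)
    (hZ : q = 0 ∨ ∃ Z ⊆ S \ insert y (C.erase c), Z.card = q ^ 2 + q + 1 ∧
      ∀ a ∈ Z, ∀ b ∈ Z, a ≠ b → r (insert y (C.erase c) ∪ {a, b}) = C.card + 2) :
    Lb q r S (insert y (C.erase c)) := by
  have hcard : (insert y (C.erase c)).card = C.card := by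
    rw [card_insert_of_notMem fun h => hyC (mem_of_mem_erase h), card_erase_of_mem hc]
    have := card_pos.2 ⟨c, hc⟩
    omega
  have hsub : insert y (C.erase c) ⊆ S :=
    insert_subset hyS ((erase_subset _ _).trans hL.1)
  refine ⟨hsub, by rw [hcard, h1], by rw [hcard, hL.2.2.1], ?_⟩
  rcases hZ with hq | ⟨Z, hZ, hZ2, hZ3⟩
  · refine ⟨{c}, ?_, ?_, ?_⟩
    · rw [singleton_subset_iff, mem_sdiff, mem_insert, not_or]
      exact ⟨hL.1 hc, fun e => hyC (e ▸ hc), notMem_erase _ _⟩
    · rw [hq, card_singleton]; rfl
    · intro a ha b hb hab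
      rw [mem_singleton] at ha hb
      exact absurd (ha.trans hb.symm) hab
  · refine ⟨Z, hZ, hZ2, fun a ha b hb hab => ?_⟩
    unfold Pool.Agent.G4.ctr
    rw [hZ3 a ha b hb hab, h1]
    omega

theorem lb_keep_ctr (hr : IsRk r) (hL : Lb q r (X ∪ Y) C) (hd : Disjoint X Y) (hXn : X.Nonempty)
    (hconn : ∀ A ⊆ X ∪ Y, A.Nonempty → ((X ∪ Y) \ A).Nonempty → 1 ≤ lam r (X ∪ Y) A)
    (h1 : lam r (X ∪ Y) X ≤ 1) (hY : r (C ∪ Y) ≤ C.card + 1) (hX : r (C ∪ X) = r (X ∪ Y))
    (hy : y ∈ Y) (h2 : 1 ≤ lam (ctr r {y}) ((X ∪ Y).erase y) X) :
    ∃ c ∈ C, y ∉ C.erase c ∧ Lb q r (X ∪ Y) (insert y (C.erase c)) := by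
  by_cases hyC : y ∈ C
  · exact ⟨y, hyC, notMem_erase _ _, by rwa [insert_erase hyC]⟩
  have hXY : ∀ x ∈ X, x ∉ Y := fun x h3 h4 => (disjoint_left.1 hd) h3 h4
  have hyX : y ∉ X := fun h => hXY y h hy
  have e0 : (X ∪ Y) \ X = Y := union_sdiff_cancel_left hd
  obtain ⟨hCS, hCr, hSr, Z, hZS, hZc, hZ2⟩ := id hL
  have hyr : 1 ≤ r {y} := by
    have h3 := hconn {y} (singleton_subset_iff.2 (mem_union_right _ hy)) (singleton_nonempty y) (by
      obtain ⟨x, hx⟩ := hXn
      refine ⟨x, mem_sdiff.2 ⟨mem_union_left _ hx, ?_⟩⟩
      rw [mem_singleton]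
      rintro rfl
      exact hyX hx)
    have h4 : r ((X ∪ Y) \ {y}) ≤ r (X ∪ Y) := hr.mono' sdiff_subset
    unfold lam at h3
    omega
  have hyr' : r {y} ≤ 1 := by
    have := hr.le_card {y}
    rw [card_singleton] at this
    exact_mod_cast this
  have hXYr : r X + r Y = r (X ∪ Y) + 1 := by
    have h3 := hconn X subset_union_left hXn (by rw [e0]; exact ⟨y, hy⟩)
    unfold lam at h3 h1
    rw [e0] at h3 h1
    omega
  have hyXr : r X + 1 ≤ r (insert y X) := by
    unfold lam Pool.Agent.G4.ctr at h2
    have e1 : {y} ∪ X = insert y X := rfl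
    have e2 : {y} ∪ ((X ∪ Y).erase y \ X) = Y := by
      ext x
      simp only [mem_union, mem_singleton, mem_sdiff, mem_erase]
      have := hXY x
      constructor
      · rintro (rfl | h3)
        · exact hy
        · tauto
      · intro h3
        by_cases hx : x = y
        · exact Or.inl hx
        · tauto
    have e3 : {y} ∪ (X ∪ Y).erase y = X ∪ Y := insert_erase (mem_union_right _ hy)
    rw [e1, e2, e3] at h2
    omega
  have hk : r (C ∩ Y) = (C ∩ Y).card := indep_sub hr hCr inter_subset_left
  have eX : C ∪ X = X ∪ (C ∩ Y) := by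
    ext x
    simp only [mem_union, mem_inter]
    have h3 := @hCS x
    rw [mem_union] at h3
    tauto
  by_cases hb : r (insert y (C ∩ Y)) = r (C ∩ Y)
  · -- `y` in the closure of `C ∩ Y`
    obtain ⟨c, hc, hc2⟩ := fund hr hyr (C ∩ Y) hk hb
    rw [mem_inter] at hc
    have hyc : y ≠ c := fun e => hyC (e ▸ hc.1)
    have g1 : r (insert c (insert y ((C ∩ Y).erase c))) = r (insert y ((C ∩ Y).erase c)) := by
      have e1 : insert c (insert y ((C ∩ Y).erase c)) = insert y (C ∩ Y) := by
        rw [insert_comm, insert_erase (mem_inter.2 hc)]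
      rw [e1, hb, hc2, hk]
    have g2 : insert y ((C ∩ Y).erase c) ⊆ insert y (C.erase c) :=
      insert_subset_insert _ (erase_subset_erase _ inter_subset_left)
    have e2 : insert c (insert y (C.erase c)) = insert y C := by
      rw [insert_comm, insert_erase hc.1]
    have g3 : ∀ A, r (insert y (C.erase c) ∪ A) = r (C ∪ A) := by
      intro A
      rw [← cl_mono hr g1 (g2.trans subset_union_left), ← insert_union, e2, insert_union]
      exact cl_mono hr hb (inter_subset_left.trans subset_union_left)
    have g4 : r (insert y (C.erase c)) = C.card := by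
      have := g3 ∅
      rwa [union_empty, union_empty, hCr] at this
    refine ⟨c, hc.1, fun h => hyC (mem_of_mem_erase h), mk hL hc.1 (mem_union_right _ hy) hyC g4 ?_⟩
    by_cases hq : q = 0
    · exact Or.inl hq
    · right
      refine ⟨Z, fun z hz => ?_, hZc, fun a ha b hb hab => ?_⟩
      · have h3 := mem_sdiff.1 (hZS hz)
        rw [mem_sdiff, mem_insert, not_or]
        refine ⟨h3.1, ?_, fun h => h3.2 (mem_of_mem_erase h)⟩
        rintro rfl
        have hq1 : 1 ≤ q := Nat.one_le_iff_ne_zero.2 hq
        have h4 : 1 < Z.card := by rw [hZc]; nlinarith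
        obtain ⟨b, hbZ, hbz⟩ := exists_mem_ne h4 z
        have h5 := hZ2 z hz b hbZ hbz.symm
        unfold Pool.Agent.G4.ctr at h5
        have h6 : r (insert z C) = r C := cl_mono hr hb inter_subset_left
        have h7 := hr.unit (insert z C) b
        have e3 : C ∪ {z, b} = insert b (insert z C) := by
          ext x
          simp only [mem_union, mem_insert, mem_singleton]
          tauto
        rw [e3] at h5
        omega
      · have h3 := hZ2 a ha b hb hab
        unfold Pool.Agent.G4.ctr at h3
        rw [g3]
        omega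
  · -- `y` not in the closure of `C ∩ Y`
    have h3 := hr.mono (C ∩ Y) y
    have h4 : r (insert y (C ∩ Y)) ≤ r Y := hr.mono' (insert_subset hy inter_subset_right)
    have h5 := hr.union_le X (C ∩ Y)
    rw [← eX, hX] at h5
    have hrX : r X + (C ∩ Y).card = r (X ∪ Y) := by omega
    obtain ⟨c, hc, hc2⟩ := fund (hr.ctr X) (y := y) (by
        unfold Pool.Agent.G4.ctr
        rw [union_comm, ← insert_eq]
        omega) (C ∩ Y) (by
        unfold Pool.Agent.G4.ctr
        rw [← eX, hX]
        omega) (by
        unfold Pool.Agent.G4.ctr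
        have h6 : r (X ∪ (C ∩ Y)) ≤ r (X ∪ insert y (C ∩ Y)) :=
          hr.mono' (union_subset_union_right (subset_insert _ _))
        have h7 : r (X ∪ insert y (C ∩ Y)) ≤ r (X ∪ Y) :=
          hr.mono' (union_subset_union_right (insert_subset hy inter_subset_right))
        rw [← eX, hX] at h6
        rw [← eX, hX]
        omega)
    unfold Pool.Agent.G4.ctr at hc2
    rw [mem_inter] at hc
    have hyc : y ≠ c := fun e => hyC (e ▸ hc.1)
    have hcX : c ∉ X := fun h => hXY c h hc.2
    -- adding a set of `k` elements skew to `X`
    have skew : ∀ D : Finset ℕ, D ⊆ Y → D.card ≤ (C ∩ Y).card →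
        r X + (C ∩ Y).card ≤ r (X ∪ D) → ∀ A ⊆ X, r (A ∪ D) = r A + (C ∩ Y).card := by
      intro D hDY hDc hDr A hA
      have h6 := hr.submod (A := A) (B := X) (X := D) hA
        (disjoint_left.2 fun x hx hx' => hXY x hx' (hDY hx))
      have h7 := hr.union_le A D
      have h8 : (D.card : ℤ) ≤ (C ∩ Y).card := by exact_mod_cast hDc
      omega
    have sk1 := skew (C ∩ Y) inter_subset_right le_rfl (by rw [← eX, hX]; omega)
    have hDY' : insert y ((C ∩ Y).erase c) ⊆ Y :=
      insert_subset hy ((erase_subset _ _).trans inter_subset_right)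
    have hcard' : (insert y ((C ∩ Y).erase c)).card ≤ (C ∩ Y).card := by
      refine (card_insert_le _ _).trans ?_
      rw [card_erase_of_mem (mem_inter.2 hc)]
      have := card_pos.2 ⟨c, mem_inter.2 hc⟩
      omega
    have sk2 := skew (insert y ((C ∩ Y).erase c)) hDY' hcard' (by omega)
    have g3 : ∀ A ⊆ X, r (insert y (C.erase c) ∪ A) = r (C ∪ A) := by
      intro A hA
      have e1 : insert y (C.erase c) ∪ A = (C ∩ X ∪ A) ∪ insert y ((C ∩ Y).erase c) := by
        ext x
        simp only [mem_union, mem_insert, mem_erase, mem_inter]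
        have h6 := @hCS x
        rw [mem_union] at h6
        by_cases hx : x = c
        · subst hx
          tauto
        · tauto
      have e2 : C ∪ A = (C ∩ X ∪ A) ∪ (C ∩ Y) := by
        ext x
        simp only [mem_union, mem_inter]
        have h6 := @hCS x
        rw [mem_union] at h6
        tauto
      have h6 : C ∩ X ∪ A ⊆ X := union_subset inter_subset_right hA
      rw [e1, e2, sk1 _ h6, sk2 _ h6]
    have g4 : r (insert y (C.erase c)) = C.card := by
      have := g3 ∅ (empty_subset _)
      rwa [union_empty, union_empty, hCr] at this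
    have e4 : insert y (C.erase c) ∪ Y = C ∪ Y := by
      ext x
      simp only [mem_union, mem_insert, mem_erase]
      by_cases hx : x = c
      · subst hx
        tauto
      · by_cases hx' : x = y
        · subst hx'
          tauto
        · tauto
    refine ⟨c, hc.1, fun h => hyC (mem_of_mem_erase h), mk hL hc.1 (mem_union_right _ hy) hyC g4 ?_⟩
    by_cases hq : q = 0
    · exact Or.inl hq
    right
    have hq1 : 1 ≤ q := Nat.one_le_iff_ne_zero.2 hq
    have hZ1 : 1 < Z.card := by rw [hZc]; nlinarith
    have hZr : ∀ a ∈ Z, ∀ b ∈ Z, a ≠ b → r (C ∪ {a, b}) = C.card + 2 := by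
      intro a ha b hb hab
      have h6 := hZ2 a ha b hb hab
      unfold Pool.Agent.G4.ctr at h6
      omega
    have pairX : ∀ a ∈ Z, ∀ b ∈ Z, a ∈ X → b ∈ X → a ≠ b →
        r (insert y (C.erase c) ∪ {a, b}) = C.card + 2 := by
      intro a ha b hb haX hbX hab
      rw [g3 {a, b} (insert_subset haX (singleton_subset_iff.2 hbX)), hZr a ha b hb hab]
    by_cases hZX : Z ⊆ X
    · refine ⟨Z, fun z hz => ?_, hZc, fun a ha b hb hab => pairX a ha b hb (hZX ha) (hZX hb) hab⟩
      have h6 := mem_sdiff.1 (hZS hz)
      rw [mem_sdiff, mem_insert, not_or]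
      refine ⟨h6.1, ?_, fun h => h6.2 (mem_of_mem_erase h)⟩
      rintro rfl
      exact hyX (hZX hz)
    · -- one element of `Z` in `Y`
      obtain ⟨s, hs, hsX⟩ := not_subset.1 hZX
      have hsY : s ∈ Y := (mem_union.1 (mem_sdiff.1 (hZS hs)).1).resolve_left hsX
      have huniq : ∀ u ∈ Z, u ≠ s → u ∈ X := by
        intro u hu hus
        by_contra huX
        have huY : u ∈ Y := (mem_union.1 (mem_sdiff.1 (hZS hu)).1).resolve_left huX
        have h6 := hZr u hu s hs hus
        have h7 : r (C ∪ {u, s}) ≤ r (C ∪ Y) :=
          hr.mono' (union_subset_union_right (insert_subset huY (singleton_subset_iff.2 hsY)))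
        omega
      obtain ⟨b, hbZ, hbs⟩ := exists_mem_ne hZ1 s
      have h6 : C.card + 1 ≤ r (C ∪ Y) := by
        have h7 := hZr b hbZ s hs hbs
        have h8 := hr.unit (C ∪ {s}) b
        have h9 : r (C ∪ {s}) ≤ r (C ∪ Y) :=
          hr.mono' (union_subset_union_right (singleton_subset_iff.2 hsY))
        have e5 : C ∪ {b, s} = insert b (C ∪ {s}) := union_insert _ _ _
        rw [e5] at h7
        omega
      obtain ⟨s', hs'Y, hs'⟩ : ∃ s' ∈ Y, r (insert s' (insert y (C.erase c))) ≠
          r (insert y (C.erase c)) := by
        by_contra hn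
        push Not at hn
        have := cl_all hr hn
        rw [e4, g4] at this
        omega
      have h7 := hr.unit (insert y (C.erase c)) s'
      have h8 := hr.mono (insert y (C.erase c)) s'
      have h9 : r (insert s' (insert y (C.erase c))) = C.card + 1 := by omega
      have hs'C : s' ∉ insert y (C.erase c) := by
        intro h
        rw [insert_eq_of_mem h] at hs'
        exact hs' rfl
      have hs'X : s' ∉ X := fun h => hXY s' h hs'Y
      have hs'Z : s' ∉ Z.erase s := by
        intro h
        exact hs'X (huniq s' (mem_of_mem_erase h) (ne_of_mem_erase h))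
      -- pairs with `s'`
      have pairS : ∀ u ∈ Z, u ≠ s → r (insert y (C.erase c) ∪ {s', u}) = C.card + 2 := by
        intro u hu hus
        have k1 : r (insert s' (insert y (C.erase c)) ∪ Y) =
            r (insert s' (insert y (C.erase c))) := by
          apply cl_all hr
          intro e he
          have k2 : r (insert e (insert s' (insert y (C.erase c)))) ≤ r (C ∪ Y) := by
            rw [← e4]
            apply hr.mono'
            intro x hx
            rw [mem_insert, mem_insert] at hx
            rcases hx with rfl | rfl | hx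
            · exact mem_union_right _ he
            · exact mem_union_right _ hs'Y
            · exact mem_union_left _ hx
          have k3 := hr.mono (insert s' (insert y (C.erase c))) e
          omega
        have k2 : r (insert u (insert s' (insert y (C.erase c)) ∪ Y)) ≤
            r (insert u (insert s' (insert y (C.erase c)))) := by
          have k3 := hr.submod (A := insert s' (insert y (C.erase c)))
            (B := insert s' (insert y (C.erase c)) ∪ Y) (X := {u}) subset_union_left ?_
          · rw [union_comm _ {u}, union_comm _ {u}, ← insert_eq, ← insert_eq, k1] at k3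
            omega
          · have huX := huniq u hu hus
            have huC : u ∉ C := (mem_sdiff.1 (hZS hu)).2
            rw [disjoint_singleton_left, mem_union, mem_insert, mem_insert]
            rintro ((rfl | rfl | h) | h)
            · exact hs'X huX
            · exact hyX huX
            · exact huC (mem_of_mem_erase h)
            · exact hXY u huX h
        have k3 : r (C ∪ {u, s}) ≤ r (insert u (insert s' (insert y (C.erase c)) ∪ Y)) := by
          apply hr.mono'
          rw [insert_union, e4]
          intro x hx
          rw [mem_union, mem_insert, mem_singleton] at hx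
          rw [mem_insert, mem_insert, mem_union]
          rcases hx with hx | rfl | rfl
          · exact Or.inr (Or.inr (Or.inl hx))
          · exact Or.inl rfl
          · exact Or.inr (Or.inr (Or.inr hsY))
        have k4 := hZr u hu s hs hus
        have k5 := hr.unit (insert s' (insert y (C.erase c))) u
        have e5 : insert y (C.erase c) ∪ {s', u} =
            insert u (insert s' (insert y (C.erase c))) := by
          ext x
          simp only [mem_union, mem_insert, mem_singleton]
          tauto
        rw [e5]
        omega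
      refine ⟨insert s' (Z.erase s), ?_, ?_, ?_⟩
      · intro z hz
        rcases mem_insert.1 hz with rfl | hz
        · exact mem_sdiff.2 ⟨mem_union_right _ hs'Y, hs'C⟩
        · have h10 := mem_sdiff.1 (hZS (mem_of_mem_erase hz))
          rw [mem_sdiff, mem_insert, not_or]
          refine ⟨h10.1, ?_, fun h => h10.2 (mem_of_mem_erase h)⟩
          rintro rfl
          exact hyX (huniq z (mem_of_mem_erase hz) (ne_of_mem_erase hz))
      · rw [card_insert_of_notMem hs'Z, card_erase_of_mem hs, hZc]
        omega
      · intro a ha b hb hab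
        rcases mem_insert.1 ha with ha1 | ha1
        · rcases mem_insert.1 hb with hb1 | hb1
          · exact absurd (ha1.trans hb1.symm) hab
          · rw [ha1]
            exact pairS b (mem_of_mem_erase hb1) (ne_of_mem_erase hb1)
        · rcases mem_insert.1 hb with hb1 | hb1
          · rw [hb1, pair_comm]
            exact pairS a (mem_of_mem_erase ha1) (ne_of_mem_erase ha1)
          · have ha' := mem_of_mem_erase ha1
            have hb' := mem_of_mem_erase hb1
            exact pairX a ha' b hb' (huniq a ha' (ne_of_mem_erase ha1))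
              (huniq b hb' (ne_of_mem_erase hb1)) hab

end Pool.Agent.PM
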