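import Pool.Agent.PM.RA

set_option autoImplicit false

/-!
# Module RD: labels and series pairs, parallel pairs
-/

namespace Pool.Agent.PM

open Finset
open Pool.Agent.G4 (IsRk ctr lam dualR Conn3)

variable {q : ℕ} {r r' : Finset ℕ → ℤ} {S S' X Y Z A B C D : Finset ℕ} {a b x y e : ℕ}

private theorem rd_ser (hr : IsRk r) (ha : a ∈ S) (hab : a ≠ b)
    (h1 : r (S \ {a, b}) < r S) (h3 : r (S.erase b) = r S) {F : Finset ℕ}
    (hF : F ⊆ S \ {a, b}) : r (insert a F) = r F + 1 := by
  have e1 : S.erase b = (S \ {a, b}) ∪ {a} := by
    ext x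
    simp only [mem_erase, mem_union, mem_sdiff, mem_insert, mem_singleton, not_or]
    constructor
    · rintro ⟨h5, h6⟩
      by_cases hx : x = a
      · exact Or.inr hx
      · exact Or.inl ⟨h6, hx, h5⟩
    · rintro (⟨h5, _, h6⟩ | rfl)
      · exact ⟨h6, h5⟩
      · exact ⟨hab, ha⟩
  have hd : Disjoint ({a} : Finset ℕ) (S \ {a, b}) := by
    rw [disjoint_singleton_left]
    intro h
    exact (mem_sdiff.1 h).2 (mem_insert_self _ _)
  have h4 := hr.submod hF hd
  rw [← e1, h3] at h4
  have h5 := hr.unit F a
  have e2 : F ∪ {a} = insert a F := by rw [union_comm, ← insert_eq]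
  rw [e2] at h4
  omega

private theorem rd_par (hr : IsRk r) (h1 : r {a, b} = 1) (h3 : r {b} = 1) {F : Finset ℕ}
    (hb : b ∈ F) : r (insert a F) = r F := by
  by_cases ha : a ∈ F
  · rw [insert_eq_of_mem ha]
  · have h4 := hr.submod (singleton_subset_iff.2 hb) (disjoint_singleton_left.2 ha)
    have e1 : F ∪ {a} = insert a F := by rw [union_comm, ← insert_eq]
    have e2 : ({b} : Finset ℕ) ∪ {a} = {a, b} := by rw [union_comm, ← insert_eq]
    rw [e1, e2, h1, h3] at h4
    have h5 := hr.mono F a
    omega

theorem lb_series (hr : IsRk r) (hq : 2 ≤ q) (hQ : Qb q r) (hL : Lb q r S C) (ha : a ∈ S)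
    (hb : b ∈ S) (hab : a ≠ b) (h1 : r (S \ {a, b}) < r S) (h2 : r (S.erase a) = r S)
    (h3 : r (S.erase b) = r S) :
    ∃ c ∈ C, (c = a ∨ c = b) ∧ Lb q (ctr r {a}) (S.erase a) (C.erase c) := by
  by_cases haC : a ∈ C
  · exact ⟨a, haC, Or.inl rfl, hL.ctr hr haC⟩
  obtain ⟨hCS, hrC, hrS, Z, hZ, hZc, hZ2⟩ := hL
  by_cases hbC : b ∈ C
  · refine ⟨b, hbC, Or.inr rfl, ?_⟩
    have hab2 : ({a, b} : Finset ℕ) = {b, a} := pair_comm a b
    have h1' : r (S \ {b, a}) < r S := by rw [← hab2]; exact h1
    -- exchange
    have hF : ∀ F : Finset ℕ, F ⊆ S \ {a, b} →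
        r (insert a (C.erase b) ∪ F) = r (C ∪ F) := by
      intro F hF
      have hF' : C.erase b ∪ F ⊆ S \ {a, b} := by
        refine union_subset (fun x hx => ?_) hF
        rw [mem_erase] at hx
        rw [mem_sdiff, mem_insert, mem_singleton, not_or]
        refine ⟨hCS hx.2, ?_, hx.1⟩
        rintro rfl
        exact haC hx.2
      have e1 := rd_ser hr ha hab h1 h3 hF'
      have e2 := rd_ser hr hb hab.symm h1' h2 (hab2 ▸ hF')
      rw [insert_union, e1, ← e2, ← insert_union, insert_erase hbC]
    have hC' : r (insert a (C.erase b)) = r C := by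
      have := hF ∅ (empty_subset _)
      rwa [union_empty, union_empty] at this
    have haE : a ∉ C.erase b := fun h => haC (mem_erase.1 h).2
    have hcard : (insert a (C.erase b)).card = C.card := by
      rw [card_insert_of_notMem haE, card_erase_of_mem hbC]
      have := card_pos.2 ⟨b, hbC⟩
      omega
    have hbZ : b ∉ Z := fun h => (mem_sdiff.1 (hZ h)).2 hbC
    have key : Lb q r S (insert a (C.erase b)) := by
      refine ⟨insert_subset ha ((erase_subset _ _).trans hCS), ?_, ?_, ?_⟩
      · rw [hC', hcard, hrC]
      · rw [hcard, hrS]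
      · by_cases haZ : a ∈ Z
        · have hbE : b ∉ Z.erase a := fun h => hbZ (mem_erase.1 h).2
          have hin : ∀ x ∈ Z.erase a, x ∈ S \ {a, b} := by
            intro x hx
            rw [mem_erase] at hx
            rw [mem_sdiff, mem_insert, mem_singleton, not_or]
            refine ⟨(mem_sdiff.1 (hZ hx.2)).1, hx.1, ?_⟩
            rintro rfl
            exact hbZ hx.2
          have hbx : ∀ x ∈ Z.erase a, ctr r (insert a (C.erase b)) {b, x} = 2 := by
            intro x hx
            have h5 := hZ2 a haZ x (mem_erase.1 hx).2 (mem_erase.1 hx).1.symm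
            unfold Pool.Agent.G4.ctr at h5 ⊢
            have e : insert a (C.erase b) ∪ {b, x} = C ∪ {a, x} := by
              ext z
              simp only [mem_union, mem_insert, mem_erase, mem_singleton]
              by_cases hz : z = b
              · subst hz
                simp [hbC]
              · simp only [hz, ne_eq, not_false_eq_true, true_and, false_or]
                tauto
            rw [e, hC']
            exact h5
          refine ⟨insert b (Z.erase a), ?_, ?_, ?_⟩
          · intro x hx
            rw [mem_insert] at hx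
            rw [mem_sdiff, mem_insert, mem_erase, not_or]
            rcases hx with rfl | hx
            · exact ⟨hb, hab.symm, fun h => h.1 rfl⟩
            · have h5 := mem_sdiff.1 (hZ (mem_erase.1 hx).2)
              exact ⟨h5.1, (mem_erase.1 hx).1, fun h => h5.2 h.2⟩
          · rw [card_insert_of_notMem hbE, card_erase_of_mem haZ, hZc]
            omega
          · intro x hx y hy hxy
            rw [mem_insert] at hx hy
            rcases hx with rfl | hx <;> rcases hy with rfl | hy
            · exact absurd rfl hxy
            · exact hbx y hy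
            · rw [pair_comm]
              exact hbx x hx
            · have h5 := hZ2 x (mem_erase.1 hx).2 y (mem_erase.1 hy).2 hxy
              unfold Pool.Agent.G4.ctr at h5 ⊢
              rw [hF {x, y} (insert_subset (hin x hx) (singleton_subset_iff.2 (hin y hy))), hC']
              exact h5
        · have hin : ∀ x ∈ Z, x ∈ S \ {a, b} := by
            intro x hx
            rw [mem_sdiff, mem_insert, mem_singleton, not_or]
            refine ⟨(mem_sdiff.1 (hZ hx)).1, ?_, ?_⟩
            · rintro rfl
              exact haZ hx
            · rintro rfl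
              exact hbZ hx
          refine ⟨Z, ?_, hZc, ?_⟩
          · intro x hx
            have h5 := mem_sdiff.1 (hZ hx)
            rw [mem_sdiff, mem_insert, mem_erase, not_or]
            refine ⟨h5.1, ?_, fun h => h5.2 h.2⟩
            rintro rfl
            exact haZ hx
          · intro x hx y hy hxy
            have h5 := hZ2 x hx y hy hxy
            unfold Pool.Agent.G4.ctr at h5 ⊢
            rw [hF {x, y} (insert_subset (hin x hx) (singleton_subset_iff.2 (hin y hy))), hC']
            exact h5
    have h5 := key.ctr hr (mem_insert_self a _)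
    rwa [erase_insert haE] at h5
  · exfalso
    have hCs : C ∪ (Z \ {a, b}) ⊆ S \ {a, b} := by
      refine union_subset (fun x hx => ?_) (fun x hx => ?_)
      · rw [mem_sdiff, mem_insert, mem_singleton, not_or]
        refine ⟨hCS hx, ?_, ?_⟩
        · rintro rfl
          exact haC hx
        · rintro rfl
          exact hbC hx
      · rw [mem_sdiff] at hx ⊢
        exact ⟨(mem_sdiff.1 (hZ hx.1)).1, hx.2⟩
    have h5 := hr.mono' hCs
    have h6 : ctr r C (Z \ {a, b}) ≤ 2 := by
      unfold Pool.Agent.G4.ctr
      omega
    have h7 := (hQ C (Z \ {a, b}) (fun x hx y hy hxy =>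
      hZ2 x (mem_sdiff.1 hx).1 y (mem_sdiff.1 hy).1 hxy)).1 h6
    have h8 : Z.card ≤ (Z \ {a, b}).card + 2 := by
      have := card_le_card_sdiff_add_card (s := Z) (t := {a, b})
      have h9 : ({a, b} : Finset ℕ).card ≤ 2 := card_le_two
      omega
    have h9 : 2 * 2 ≤ q * q := Nat.mul_le_mul hq hq
    rw [hZc, pow_two] at h8
    omega

theorem lb_parallel (hr : IsRk r) (hL : Lb q r S C) (ha : a ∈ S) (hb : b ∈ S) (hab : a ≠ b)
    (h1 : r {a, b} = 1) (h2 : r {a} = 1) (h3 : r {b} = 1) :
    ∃ C', Lb q r (S.erase a) C' ∧ (C' = C ∨ a ∈ C ∧ C' = insert b (C.erase a)) := by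
  by_cases haC : a ∈ C
  · have hba : r {b, a} = 1 := by rw [pair_comm]; exact h1
    obtain ⟨hCS, hrC, hrS, Z, hZ, hZc, hZ2⟩ := hL
    have hbC : b ∉ C := by
      intro hbC
      have hs : ({a, b} : Finset ℕ) ⊆ C := insert_subset haC (singleton_subset_iff.2 hbC)
      have h5 := hr.union_le {a, b} (C \ {a, b})
      have h6 := card_sdiff_add_card_eq_card hs
      rw [card_pair hab] at h6
      rw [union_sdiff_of_subset hs, h1, hrC] at h5
      omega
    have hbE : b ∉ C.erase a := fun h => hbC (mem_erase.1 h).2
    have hF : ∀ F : Finset ℕ, r (insert b (C.erase a) ∪ F) = r (C ∪ F) := by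
      intro F
      have e1 := rd_par hr h1 h3 (F := insert b (C.erase a) ∪ F)
        (mem_union_left _ (mem_insert_self _ _))
      have e2 := rd_par hr hba h2 (F := C ∪ F) (mem_union_left _ haC)
      have e3 : insert a (insert b (C.erase a) ∪ F) = insert b (C ∪ F) := by
        rw [← insert_union, insert_comm, insert_erase haC, insert_union]
      rw [← e1, e3, e2]
    have hC' : r (insert b (C.erase a)) = r C := by
      have := hF ∅
      rwa [union_empty, union_empty] at this
    have hcard : (insert b (C.erase a)).card = C.card := by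
      rw [card_insert_of_notMem hbE, card_erase_of_mem haC]
      have := card_pos.2 ⟨a, haC⟩
      omega
    have hbS : b ∈ S.erase a := mem_erase.2 ⟨hab.symm, hb⟩
    have hrS' : r (S.erase a) = r S := by
      have := rd_par hr h1 h3 hbS
      rw [insert_erase ha] at this
      exact this.symm
    refine ⟨insert b (C.erase a), ⟨insert_subset hbS (erase_subset_erase a hCS), ?_, ?_, ?_⟩,
      Or.inr ⟨haC, rfl⟩⟩
    · rw [hC', hcard, hrC]
    · rw [hrS', hcard, hrS]
    · by_cases hq : q = 0
      · subst hq
        have hne : ∃ z, z ∈ S.erase a \ insert b (C.erase a) := by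
          by_contra hcon
          push Not at hcon
          have hs : S.erase a ⊆ insert b (C.erase a) := by
            intro x hx
            by_contra hx'
            exact hcon x (mem_sdiff.2 ⟨hx, hx'⟩)
          have h5 := hr.mono' hs
          rw [hrS', hC', hrS, hrC] at h5
          omega
        obtain ⟨z, hz⟩ := hne
        refine ⟨{z}, singleton_subset_iff.2 hz, by simp, ?_⟩
        intro x hx y hy hxy
        rw [mem_singleton] at hx hy
        exact absurd (hx.trans hy.symm) hxy
      · have hbZ : b ∉ Z := by
          intro hbZ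
          have hc : 1 < Z.card := by
            rw [hZc]
            have : 0 < q := Nat.pos_of_ne_zero hq
            nlinarith
          obtain ⟨z, hz, hzb⟩ := exists_mem_ne hc b
          have h5 := hZ2 b hbZ z hz hzb.symm
          unfold Pool.Agent.G4.ctr at h5
          have e : C ∪ {b, z} = insert z (insert b C) := by
            ext x
            simp only [mem_union, mem_insert, mem_singleton]
            tauto
          rw [e] at h5
          have h6 := hr.unit (insert b C) z
          have h7 := rd_par hr hba h2 haC
          omega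
        refine ⟨Z, ?_, hZc, ?_⟩
        · intro x hx
          have h5 := mem_sdiff.1 (hZ hx)
          rw [mem_sdiff, mem_insert, mem_erase, mem_erase, not_or]
          refine ⟨⟨?_, h5.1⟩, ?_, fun h => h5.2 h.2⟩
          · rintro rfl
            exact h5.2 haC
          · rintro rfl
            exact hbZ hx
        · intro x hx y hy hxy
          have h5 := hZ2 x hx y hy hxy
          unfold Pool.Agent.G4.ctr at h5 ⊢
          rw [hF, hC']
          exact h5
  · refine ⟨C, ?_, Or.inl rfl⟩
    by_cases hbC : b ∈ C
    · exact hL.loop hr haC (rd_par hr h1 h3 hbC)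
    · have h5 := rd_par hr h1 h3 (mem_insert_self b C)
      by_cases h6 : r (insert b C) = r C
      · refine hL.loop hr haC ?_
        have h7 := hr.mono C a
        have h8 : r (insert a C) ≤ r (insert a (insert b C)) :=
          hr.mono' (insert_subset_insert a (subset_insert b C))
        omega
      · have h7 : r (insert b C) = r C + 1 := by
          have := hr.mono C b
          have := hr.unit C b
          omega
        exact hL.par hr haC hb hbC hab.symm h7 (by rw [h5, h7])

end Pool.Agent.PM
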