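import Pool.Agent.PM.RG
import Pool.Agent.G4.R5

set_option autoImplicit false

/-!
# Module RH: dual statements

Proved by helper77: `del_cases`, `triple_of_killers` and `conn3_ctr_of_triple` for the dual rank function.
-/

namespace Pool.Agent.PM

open Finset
open Pool.Agent.G4 (IsRk ctr lam dualR Conn3)

variable {r : Finset ℕ → ℤ} {S X Y : Finset ℕ} {a b y e : ℕ}

private theorem rh_sd (S : Finset ℕ) (x : ℕ) : S \ {x} = S.erase x := sdiff_singleton_eq_erase x S

private theorem rh_dctr (he : e ∈ S) (hX : X ⊆ S.erase e) :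
    dualR (ctr r {e}) (S.erase e) X = dualR r S X := by
  have := Pool.Agent.G4.dual_ctr (r := r) (S := S) (C := {e}) (X := X) (singleton_subset_iff.2 he)
    (by rw [rh_sd]; exact hX)
  rwa [rh_sd] at this

private theorem rh_ctrd (ha : a ∈ S) (hX : X ⊆ S.erase a) :
    ctr (dualR r S) {a} X = dualR r (S.erase a) X := by
  have := Pool.Agent.G4.ctr_dual (r := r) (S := S) (C := {a}) (X := X) (singleton_subset_iff.2 ha)
    (by rw [rh_sd]; exact hX)
  rwa [rh_sd] at this

private theorem rh_lamd (hr : IsRk r) (he : e ∈ S) (hX : X ⊆ S.erase e) :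
    lam (dualR r S) (S.erase e) X = lam (ctr r {e}) (S.erase e) X := by
  rw [← Pool.Agent.G4.lam_dual (hr.ctr {e}) hX]
  exact Pool.Agent.G4.lam_congr' (fun Z hZ => (rh_dctr he hZ).symm) hX

/-- contraction of `a` in the dual of the contraction -/
private theorem rh_ctrd2 (he : e ∈ S) (ha : a ∈ S.erase e) (hX : X ⊆ (S.erase e).erase a) :
    ctr (dualR r S) {a} X = dualR (ctr r {e}) ((S.erase e).erase a) X := by
  rw [← rh_ctrd ha hX]
  unfold Pool.Agent.G4.ctr
  have h1 : ({a} : Finset ℕ) ⊆ S.erase e := singleton_subset_iff.2 ha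
  have h2 : {a} ∪ X ⊆ S.erase e := union_subset h1 (hX.trans (erase_subset _ _))
  have h3 := rh_dctr (r := r) he h1
  have h4 := rh_dctr (r := r) he h2
  unfold Pool.Agent.G4.ctr at h3 h4
  rw [h3, h4]

private theorem rh_pair (ha : a ∈ S) (hb : b ∈ S) : {a, b} ⊆ S :=
  insert_subset ha (singleton_subset_iff.2 hb)

private theorem rh_conn (hr : IsRk r) (ha : a ∈ S) (h : Conn3 (ctr (dualR r S) {a}) (S.erase a)) :
    Conn3 r (S.erase a) :=
  Pool.Agent.G4.Conn3.of_dual hr ((Pool.Agent.G4.Conn3.congr fun X hX => rh_ctrd ha hX).1 h)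

theorem ctr_cases (hr : IsRk r) (hS : Conn3 r S) (h8 : 8 ≤ S.card) (he : e ∈ S)
    (hno : ∀ X ⊆ S.erase e, lam (ctr r {e}) (S.erase e) X ≤ 1 →
      X.card ≤ 2 ∨ (S.erase e \ X).card ≤ 2) :
    Conn3 (ctr r {e}) (S.erase e) ∨ ∃ a ∈ S.erase e, ∃ b ∈ S.erase e, a ≠ b ∧
      lam (ctr r {e}) (S.erase e) {a, b} ≤ 1 ∧
      (Conn3 r (S.erase a) ∨ Conn3 (ctr r {e}) ((S.erase e).erase a)) := by
  rcases del_cases (hr.dual S) (hS.dual hr) h8 he
    (fun X hX h1 => hno X hX (by rw [← rh_lamd hr he hX]; exact h1)) with h | ⟨a, ha, b, hb, hab, h1, h⟩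
  · exact Or.inl (Pool.Agent.G4.Conn3.of_dual (hr.ctr {e})
      ((Pool.Agent.G4.Conn3.congr fun X hX => (rh_dctr he hX).symm).1 h))
  · refine Or.inr ⟨a, ha, b, hb, hab, by rw [← rh_lamd hr he (rh_pair ha hb)]; exact h1, ?_⟩
    rcases h with h | h
    · exact Or.inl (rh_conn hr (mem_of_mem_erase ha) h)
    · exact Or.inr (Pool.Agent.G4.Conn3.of_dual (hr.ctr {e})
        ((Pool.Agent.G4.Conn3.congr fun X hX => rh_ctrd2 he ha hX).1 h))

theorem killers_ctr (hr : IsRk r) (hS : Conn3 r S) (h8 : 8 ≤ S.card) (he : e ∈ S)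
    (hXY : X ∪ Y = S.erase e) (hd : Disjoint X Y) (hX : X.Nonempty) (hY : 3 ≤ Y.card)
    (h1 : lam (ctr r {e}) (S.erase e) X ≤ 1)
    (hk : ∀ y ∈ Y, lam (ctr r {e}) ((S.erase e).erase y) X ≤ 0 ∨
      lam (ctr (ctr r {e}) {y}) ((S.erase e).erase y) X ≤ 0) :
    ∃ a ∈ S.erase e, ∃ b ∈ S.erase e, a ≠ b ∧ lam (ctr r {e}) (S.erase e) {a, b} ≤ 1 ∧
      Conn3 r (S.erase a) := by
  have hXT : X ⊆ S.erase e := by rw [← hXY]; exact subset_union_left
  have hYT : Y ⊆ S.erase e := by rw [← hXY]; exact subset_union_right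
  have hdS := hS.dual hr
  have hdr := hr.dual S
  obtain ⟨a, ha, b, hb, c, hc, hab, hbc, hac, h2, h3⟩ := Pool.Agent.G4.triple_of_killers (r := dualR r S)
    (S := S.erase e) (X := X) (Y := Y) hdr hXY hd hX hY
    (fun A hA hA1 hA2 => hdS.conn_erase hdr he hA hA1 hA2)
    (fun a ha b hb hab => hdS.rank_two hdr (mem_of_mem_erase ha) (mem_of_mem_erase hb) hab)
    (by rw [rh_lamd hr he hXT]; exact h1)
    (by
      intro y hy
      have hyT := hYT hy
      have hXy : X ⊆ (S.erase e).erase y := by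
        intro x hx
        refine mem_erase.2 ⟨?_, hXT hx⟩
        rintro rfl
        exact (disjoint_left.1 hd hx) hy
      rcases hk y hy with h | h
      · right
        rw [Pool.Agent.G4.lam_congr' (fun Z hZ => rh_ctrd2 (r := r) he hyT hZ) hXy,
          Pool.Agent.G4.lam_dual (hr.ctr {e}) hXy]
        exact h
      · left
        have h4 : ∀ Z ⊆ (S.erase e).erase y,
            dualR r S Z = dualR (ctr (ctr r {e}) {y}) ((S.erase e).erase y) Z := by
          intro Z hZ
          rw [rh_dctr hyT hZ, rh_dctr he (hZ.trans (erase_subset _ _))]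
        rw [Pool.Agent.G4.lam_congr' h4 hXy, Pool.Agent.G4.lam_dual ((hr.ctr {e}).ctr {y}) hXy]
        exact h)
  refine ⟨a, hYT ha, b, hYT hb, hab, ?_, ?_⟩
  · rw [← rh_lamd hr he (rh_pair (hYT ha) (hYT hb))]; exact h2
  · exact rh_conn hr (mem_of_mem_erase (hYT ha))
      (Pool.Agent.G4.conn3_ctr_of_triple hdr hdS (by omega) he (hYT ha) (hYT hb) (hYT hc) hab hbc hac h2 h3)

theorem par_of_pair (hr : IsRk r) (hS : Conn3 r S) (h5 : 5 ≤ S.card) (he : e ∈ S)
    (ha : a ∈ S.erase e) (hb : b ∈ S.erase e) (hab : a ≠ b)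
    (h1 : lam (ctr r {e}) (S.erase e) {a, b} ≤ 1) :
    ctr r {e} {a, b} = 1 ∧ ctr r {e} {a} = 1 ∧ ctr r {e} {b} = 1 := by
  have haS := mem_of_mem_erase ha
  have hbS := mem_of_mem_erase hb
  have he1 := hS.rank_one hr he
  have hone : ∀ x ∈ S.erase e, ctr r {e} {x} = 1 := by
    intro x hx
    have h2 := hS.rank_two hr he (mem_of_mem_erase hx) (ne_of_mem_erase hx).symm
    unfold Pool.Agent.G4.ctr
    rw [← insert_eq, h2, he1]
    norm_num
  have h3 := (hr.ctr {e}).mono' (A := {a}) (B := {a, b}) (by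
    intro x hx
    rw [mem_singleton] at hx
    rw [hx]
    exact mem_insert_self _ _)
  rw [hone a ha] at h3
  have h4 : {e} ∪ (S.erase e \ {a, b}) = S \ {a, b} := by
    ext x
    simp only [mem_union, mem_singleton, mem_sdiff, mem_erase, mem_insert, not_or]
    constructor
    · rintro (rfl | ⟨⟨_, h6⟩, h7⟩)
      · exact ⟨he, (ne_of_mem_erase ha).symm, (ne_of_mem_erase hb).symm⟩
      · exact ⟨h6, h7⟩
    · rintro ⟨h6, h7⟩
      by_cases hxe : x = e
      · exact Or.inl hxe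
      · exact Or.inr ⟨⟨hxe, h6⟩, h7⟩
  have h5' : {e} ∪ S.erase e = S := by rw [← insert_eq, insert_erase he]
  have h6 := hS.corank hr haS hbS
  refine ⟨?_, hone a ha, hone b hb⟩
  unfold lam at h1
  have h7 : ctr r {e} (S.erase e \ {a, b}) = r S - 1 := by
    unfold Pool.Agent.G4.ctr
    rw [h4, h6, he1]
  have h8 : ctr r {e} (S.erase e) = r S - 1 := by
    unfold Pool.Agent.G4.ctr
    rw [h5', he1]
  rw [h7, h8] at h1
  omega

theorem ser_of_pair (hr : IsRk r) (hS : Conn3 r S) (h5 : 5 ≤ S.card) (hy : y ∈ S)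
    (ha : a ∈ S.erase y) (hb : b ∈ S.erase y) (hab : a ≠ b)
    (h1 : lam r (S.erase y) {a, b} ≤ 1) :
    r (S.erase y \ {a, b}) < r (S.erase y) ∧ r ((S.erase y).erase a) = r (S.erase y) ∧
      r ((S.erase y).erase b) = r (S.erase y) := by
  have haS := mem_of_mem_erase ha
  have hbS := mem_of_mem_erase hb
  have hone : ∀ x ∈ S.erase y, r ((S.erase y).erase x) = r (S.erase y) := by
    intro x hx
    have h2 := hS.corank hr hy (mem_of_mem_erase hx)
    have h3 : S \ {y, x} = (S.erase y).erase x := by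
      ext z
      simp only [mem_sdiff, mem_insert, mem_singleton, mem_erase, not_or]
      tauto
    rw [h3] at h2
    have h4 := hr.mono' (erase_subset y S)
    have h6 := hr.mono' (erase_subset x (S.erase y))
    omega
  refine ⟨?_, hone a ha, hone b hb⟩
  have h2 := hS.rank_two hr haS hbS hab
  unfold lam at h1
  omega

end Pool.Agent.PM
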