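import Pool.Agent.PM.RB
import Pool.Agent.PM.RC
import Pool.Agent.PM.RD
import Pool.Agent.PM.RH
import Pool.Agent.G4.R2

set_option autoImplicit false

/-!
# Module RI: the chain lemma with labels

`Step q r S C`: there is a smaller 3-connected minor (one or two elements less) with a label near `C`.
-/

namespace Pool.Agent.PM

open Finset
open Pool.Agent.G4 (IsRk ctr lam dualR Conn3)

variable {q : ℕ} {r : Finset ℕ → ℤ} {S C C₁ : Finset ℕ} {a b y e : ℕ}

/-- there is a smaller 3-connected minor with a label near `C` -/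
def Step (q : ℕ) (r : Finset ℕ → ℤ) (S C : Finset ℕ) : Prop :=
  ∃ C', Near C C' ∧
    ((∃ y ∈ S, Conn3 r (S.erase y) ∧ Lb q r (S.erase y) C') ∨
    (∃ e ∈ S, Conn3 (ctr r {e}) (S.erase e) ∧ Lb q (ctr r {e}) (S.erase e) C') ∨
    ∃ y ∈ S, ∃ e ∈ S, y ≠ e ∧ Conn3 (ctr r {e}) ((S.erase y).erase e) ∧
      Lb q (ctr r {e}) ((S.erase y).erase e) C')

private theorem ri_pairC (hr : IsRk r) (hS : Conn3 r S) (h5 : 5 ≤ S.card) (he : e ∈ S)
    (hL : Lb q (ctr r {e}) (S.erase e) C₁) (h1 : C₁ ⊆ C) (h2 : (C \ C₁).card ≤ 1)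
    (ha : a ∈ S.erase e) (hb : b ∈ S.erase e) (hab : a ≠ b)
    (h3 : lam (ctr r {e}) (S.erase e) {a, b} ≤ 1)
    (h4 : Conn3 r (S.erase a) ∨ Conn3 (ctr r {e}) ((S.erase e).erase a)) : Step q r S C := by
  obtain ⟨p1, p2, p3⟩ := par_of_pair hr hS h5 he ha hb hab h3
  obtain ⟨C₂, hL2, hC2⟩ := lb_parallel (hr.ctr {e}) hL ha hb hab p1 p2 p3
  have n1 : C \ C₂ ⊆ insert a (C \ C₁) := by
    intro x hx
    rw [mem_sdiff] at hx
    rw [mem_insert, mem_sdiff]
    by_cases hxa : x = a
    · exact Or.inl hxa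
    · refine Or.inr ⟨hx.1, fun h => hx.2 ?_⟩
      rcases hC2 with h6 | ⟨_, h6⟩
      · rw [h6]
        exact h
      · rw [h6]
        exact mem_insert_of_mem (mem_erase.2 ⟨hxa, h⟩)
  have n2 : C₂ \ C ⊆ {b} := by
    intro x hx
    rw [mem_sdiff] at hx
    rw [mem_singleton]
    by_contra hxb
    rcases hC2 with h6 | ⟨_, h6⟩
    · rw [h6] at hx
      exact hx.2 (h1 hx.1)
    · rw [h6] at hx
      rcases mem_insert.1 hx.1 with h7 | h7
      · exact hxb h7
      · exact hx.2 (h1 (mem_of_mem_erase h7))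
  have c1 : (C \ C₂).card ≤ 2 := (card_le_card n1).trans ((card_insert_le _ _).trans (by omega))
  have c2 : (C₂ \ C).card ≤ 1 := (card_le_card n2).trans (by rw [card_singleton])
  have haS : a ∈ S := mem_of_mem_erase ha
  have hae : a ≠ e := ne_of_mem_erase ha
  rcases h4 with h4 | h4
  · refine ⟨insert e C₂, ⟨?_, ?_⟩, Or.inl ⟨a, haS, h4, ?_⟩⟩
    · exact (card_le_card (sdiff_subset_sdiff (Subset.refl _) (subset_insert _ _))).trans c1
    · have h6 : insert e C₂ \ C ⊆ insert e (C₂ \ C) := by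
        intro x hx
        rw [mem_sdiff, mem_insert] at hx
        rw [mem_insert, mem_sdiff]
        tauto
      exact (card_le_card h6).trans ((card_insert_le _ _).trans (by omega))
    · apply Lb.of_ctr hr (mem_erase.2 ⟨hae.symm, he⟩) (hS.rank_one hr he)
      rw [erase_right_comm]
      exact hL2
  · refine ⟨C₂, ⟨c1, by omega⟩, Or.inr (Or.inr ⟨a, haS, e, he, hae, ?_, ?_⟩)⟩
    · rw [erase_right_comm]
      exact h4
    · rw [erase_right_comm]
      exact hL2

theorem step_ctr (hr : IsRk r) (hS : Conn3 r S) (h8 : 8 ≤ S.card) (he : e ∈ S)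
    (hno : ∀ X ⊆ S.erase e, lam (ctr r {e}) (S.erase e) X ≤ 1 →
      X.card ≤ 2 ∨ (S.erase e \ X).card ≤ 2)
    (hL : Lb q (ctr r {e}) (S.erase e) C₁) (h1 : C₁ ⊆ C) (h2 : (C \ C₁).card ≤ 1) :
    Step q r S C := by
  have h3 : (C₁ \ C).card ≤ 1 := by
    rw [sdiff_eq_empty_iff_subset.2 h1, card_empty]
    omega
  rcases ctr_cases hr hS h8 he hno with h | ⟨a, ha, b, hb, hab, h4, h5⟩
  · exact ⟨C₁, ⟨by omega, by omega⟩, Or.inr (Or.inl ⟨e, he, h, hL⟩)⟩
  · exact ri_pairC hr hS (by omega) he hL h1 h2 ha hb hab h4 h5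

theorem step_del (hr : IsRk r) (hq : 2 ≤ q) (hQ : Qb q r) (hS : Conn3 r S) (h8 : 8 ≤ S.card)
    (hy : y ∈ S)
    (hno : ∀ X ⊆ S.erase y, lam r (S.erase y) X ≤ 1 → X.card ≤ 2 ∨ (S.erase y \ X).card ≤ 2)
    (hL : Lb q r (S.erase y) C₁) (h1 : (C \ C₁).card ≤ 1) (h2 : (C₁ \ C).card ≤ 1) :
    Step q r S C := by
  rcases del_cases hr hS h8 hy hno with h | ⟨a, ha, b, hb, hab, h4, h5⟩
  · exact ⟨C₁, ⟨by omega, by omega⟩, Or.inl ⟨y, hy, h, hL⟩⟩
  · obtain ⟨s1, s2, s3⟩ := ser_of_pair hr hS (by omega) hy ha hb hab h4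
    obtain ⟨c, hc, _, hL2⟩ := lb_series hr hq hQ hL ha hb hab s1 s2 s3
    have haS : a ∈ S := mem_of_mem_erase ha
    have hay : a ≠ y := ne_of_mem_erase ha
    have n1 : C \ C₁.erase c ⊆ insert c (C \ C₁) := by
      intro x hx
      rw [mem_sdiff, mem_erase] at hx
      rw [mem_insert, mem_sdiff]
      tauto
    have n2 : C₁.erase c \ C ⊆ C₁ \ C := sdiff_subset_sdiff (erase_subset _ _) (Subset.refl _)
    have hN : Near C (C₁.erase c) :=
      ⟨(card_le_card n1).trans ((card_insert_le _ _).trans (by omega)),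
        (card_le_card n2).trans (by omega)⟩
    rcases h5 with h5 | h5
    · refine ⟨C₁.erase c, hN, Or.inr (Or.inl ⟨a, haS, h5, ?_⟩)⟩
      refine Lb.mono (hr.ctr {a}) hL2 ?_ ?_
      · rw [erase_right_comm]
        exact erase_subset _ _
      · have e1 : ({a} : Finset ℕ) ∪ S.erase a = S := by
          rw [← insert_eq, insert_erase haS]
        have e2 : ({a} : Finset ℕ) ∪ (S.erase y).erase a = S.erase y := by
          rw [← insert_eq, insert_erase ha]
        have e3 : r (S.erase y) = r S := by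
          have := hS.corank hr hy hy
          rwa [pair_eq_singleton, sdiff_singleton_eq_erase] at this
        unfold ctr
        rw [e1, e2, e3]
    · exact ⟨C₁.erase c, hN, Or.inr (Or.inr ⟨y, hy, a, haS, hay.symm, h5, hL2⟩)⟩

private theorem ri_conn (hr : IsRk r) (hS : Conn3 r S) (he : e ∈ S) {A : Finset ℕ}
    (hA : A ⊆ S.erase e) (h1 : A.Nonempty) (h2 : (S.erase e \ A).Nonempty) :
    1 ≤ lam (ctr r {e}) (S.erase e) A := by
  have h3 := (hS.dual hr).conn_erase (hr.dual S) he hA h1 h2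
  rw [← sdiff_singleton_eq_erase] at h3 hA ⊢
  rw [← Pool.Agent.G4.lam_dual (hr.ctr {e}) hA]
  have h4 : ∀ X ⊆ S \ {e}, dualR (ctr r {e}) (S \ {e}) X = dualR r S X := fun X hX =>
    Pool.Agent.G4.dual_ctr (singleton_subset_iff.2 he) hX
  rw [Pool.Agent.G4.lam_congr' h4 hA]
  exact h3

private theorem ri_main (hr : IsRk r) (hq : 2 ≤ q) (hQ : Qb q r) (hS : Conn3 r S)
    (h8 : 8 ≤ S.card) (hL : Lb q r S C) (heC : e ∈ C) {X Y : Finset ℕ}
    (hXY : X ∪ Y = S.erase e) (hd : Disjoint X Y) (hX3 : 3 ≤ X.card) (hY3 : 3 ≤ Y.card)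
    (h1 : lam (ctr r {e}) (S.erase e) X ≤ 1)
    (hY : ctr r {e} (C.erase e ∪ Y) ≤ (C.erase e).card + 1)
    (hX : ctr r {e} (C.erase e ∪ X) = ctr r {e} (S.erase e)) : Step q r S C := by
  have he : e ∈ S := hL.1 heC
  have hLe : Lb q (ctr r {e}) (S.erase e) (C.erase e) := hL.ctr hr heC
  have hCC : (C \ C.erase e).card ≤ 1 := by
    have h1 : C \ C.erase e ⊆ {e} := by
      intro x hx
      rw [mem_sdiff, mem_erase] at hx
      rw [mem_singleton]
      tauto
    exact (card_le_card h1).trans (by rw [card_singleton])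
  have hXn : X.Nonempty := card_pos.1 (by omega)
  by_cases hk : ∀ y ∈ Y, lam (ctr r {e}) ((S.erase e).erase y) X ≤ 0 ∨
      lam (ctr (ctr r {e}) {y}) ((S.erase e).erase y) X ≤ 0
  · obtain ⟨a, ha, b, hb, hab, h2, h3⟩ := killers_ctr hr hS h8 he hXY hd hXn hY3 h1 hk
    exact ri_pairC hr hS (by omega) he hLe (erase_subset _ _) hCC ha hb hab h2 (Or.inl h3)
  · push Not at hk
    obtain ⟨y, hyY, h2, h3⟩ := hk
    have hyS' : y ∈ S.erase e := by
      rw [← hXY]
      exact mem_union_right _ hyY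
    have hyS : y ∈ S := mem_of_mem_erase hyS'
    have hye : y ≠ e := ne_of_mem_erase hyS'
    have hre : r {e} = 1 := hS.rank_one hr he
    have hconn : ∀ A ⊆ X ∪ Y, A.Nonempty → ((X ∪ Y) \ A).Nonempty →
        1 ≤ lam (ctr r {e}) (X ∪ Y) A := by
      rw [hXY]
      exact fun A hA h4 h5 => ri_conn hr hS he hA h4 h5
    rw [← hXY] at hLe h1 h2 h3 hX
    obtain ⟨C', hC', hC2⟩ := lb_keep_del (hr.ctr {e}) hLe hd hXn hconn h1 hY hX hyY (by omega)
    obtain ⟨c, hcC, hyc, hLc⟩ := lb_keep_ctr (hr.ctr {e}) hLe hd hXn hconn h1 hY hX hyY (by omega)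
    rw [hXY] at hC' hLc
    have hceC : c ∈ C := mem_of_mem_erase hcC
    have hce : c ≠ e := ne_of_mem_erase hcC
    -- the label of the deletion
    have hL1 : Lb q r (S.erase y) (insert e C') := by
      apply Lb.of_ctr hr (mem_erase.2 ⟨hye.symm, he⟩) hre
      rw [erase_right_comm]
      exact hC'
    -- the label of the contraction
    have hL2 : Lb q r S (insert e (insert y ((C.erase e).erase c))) := hLc.of_ctr hr he hre
    have hL3 := hL2.ctr hr (y := y) (mem_insert_of_mem (mem_insert_self _ _))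
    have hsub : (insert e (insert y ((C.erase e).erase c))).erase y ⊆ C := by
      intro x hx
      rw [mem_erase, mem_insert, mem_insert] at hx
      rcases hx with ⟨h5, h6 | h6 | h6⟩
      · rw [h6]
        exact heC
      · exact absurd h6 h5
      · exact mem_of_mem_erase (mem_of_mem_erase h6)
    have hcard : (C \ (insert e (insert y ((C.erase e).erase c))).erase y).card ≤ 1 := by
      have h4 : C \ (insert e (insert y ((C.erase e).erase c))).erase y ⊆ {c} := by
        intro x hx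
        rw [mem_sdiff, mem_erase, mem_insert, mem_insert, mem_erase, mem_erase] at hx
        rw [mem_singleton]
        by_contra hxc
        apply hx.2
        by_cases hxe : x = e
        · rw [hxe]
          exact ⟨hye.symm, Or.inl rfl⟩
        · refine ⟨?_, Or.inr (Or.inr ⟨hxc, hxe, hx.1⟩)⟩
          rintro rfl
          exact hyc (mem_erase.2 ⟨hxc, mem_erase.2 ⟨hxe, hx.1⟩⟩)
      exact (card_le_card h4).trans (by rw [card_singleton])
    by_cases hno : ∀ X ⊆ S.erase y, lam r (S.erase y) X ≤ 1 →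
        X.card ≤ 2 ∨ (S.erase y \ X).card ≤ 2
    · refine step_del hr hq hQ hS h8 hyS hno hL1 ?_ ?_
      · have h4 : C \ insert e C' ⊆ {y} := by
          intro x hx
          rw [mem_sdiff, mem_insert, not_or] at hx
          rw [mem_singleton]
          by_contra hxy
          apply hx.2.2
          rcases hC2 with h5 | ⟨g, _, h5⟩
          · rw [h5]
            exact mem_erase.2 ⟨hx.2.1, hx.1⟩
          · rw [h5]
            exact mem_insert_of_mem (mem_erase.2 ⟨hxy, mem_erase.2 ⟨hx.2.1, hx.1⟩⟩)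
        exact (card_le_card h4).trans (by rw [card_singleton])
      · rcases hC2 with h5 | ⟨g, _, h5⟩
        · have h4 : insert e C' \ C = ∅ := by
            rw [h5, insert_erase heC, Finset.sdiff_self]
          rw [h4, card_empty]
          omega
        · have h4 : insert e C' \ C ⊆ {g} := by
            intro x hx
            rw [mem_sdiff, mem_insert, h5, mem_insert, mem_erase, mem_erase] at hx
            rw [mem_singleton]
            by_contra hxg
            apply hx.2
            rcases hx.1 with h6 | h6 | h6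
            · rw [h6]
              exact heC
            · exact absurd h6 hxg
            · exact h6.2.2
          exact (card_le_card h4).trans (by rw [card_singleton])
    · push Not at hno
      obtain ⟨U, hU, h4, h5, h6⟩ := hno
      refine step_ctr hr hS h8 hyS ?_ hL3 hsub hcard
      intro W hW h7
      by_contra hcon
      rw [not_or] at hcon
      exact Pool.Agent.G4.bixby hr hS hyS (X := U) (Y := S.erase y \ U)
        (union_sdiff_of_subset hU) disjoint_sdiff (by omega) (by omega) h4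
        (U := W) (W := S.erase y \ W) (union_sdiff_of_subset hW) disjoint_sdiff
        (by omega) (by omega) h7

theorem chain_step (hr : IsRk r) (hq : 2 ≤ q) (hQ : Qb q r) (hS : Conn3 r S)
    (hc : q ^ 2 + q + 1 < S.card) (hL : Lb q r S C) : Step q r S C := by
  have h8 : 8 ≤ S.card := by nlinarith
  have hCne : C.Nonempty := by
    rw [nonempty_iff_ne_empty]
    rintro rfl
    have h1 := (hQ ∅ S fun a ha b hb hab => by
      rw [Pool.Agent.G4.ctr_empty hr]
      exact hS.rank_two hr ha hb hab).2 (by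
        rw [Pool.Agent.G4.ctr_empty hr, hL.2.2.1, card_empty]
        norm_num)
    omega
  obtain ⟨e, heC⟩ := hCne
  have he : e ∈ S := hL.1 heC
  have hLe : Lb q (ctr r {e}) (S.erase e) (C.erase e) := hL.ctr hr heC
  have hQe : Qb q (ctr r {e}) := by
    intro D Z hZ
    have h1 := hQ ({e} ∪ D) Z fun a ha b hb hab => by
      rw [← Pool.Agent.G4.ctr_ctr]
      exact hZ a ha b hb hab
    rw [← Pool.Agent.G4.ctr_ctr] at h1
    exact h1
  have hCC : (C \ C.erase e).card ≤ 1 := by
    have h1 : C \ C.erase e ⊆ {e} := by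
      intro x hx
      rw [mem_sdiff, mem_erase] at hx
      rw [mem_singleton]
      tauto
    exact (card_le_card h1).trans (by rw [card_singleton])
  by_cases hno : ∀ X ⊆ S.erase e, lam (ctr r {e}) (S.erase e) X ≤ 1 →
      X.card ≤ 2 ∨ (S.erase e \ X).card ≤ 2
  · exact step_ctr hr hS h8 he hno hLe (erase_subset _ _) hCC
  · push Not at hno
    obtain ⟨X, hX, h1, h2, h3⟩ := hno
    rcases lb_side (hr.ctr {e}) hq hQe hLe hX h1 with ⟨h4, h5⟩ | ⟨h4, h5⟩
    · exact ri_main hr hq hQ hS h8 hL heC (X := X) (Y := S.erase e \ X)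
        (union_sdiff_of_subset hX) disjoint_sdiff (by omega) (by omega) h1 h4 h5
    · refine ri_main hr hq hQ hS h8 hL heC (X := S.erase e \ X) (Y := X)
        (sdiff_union_of_subset hX) sdiff_disjoint (by omega) (by omega) ?_ h4 h5
      rw [Pool.Agent.G4.lam_compl hX]
      exact h1

end Pool.Agent.PM
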