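import Pool.Agent.PM.C1
import Pool.Agent.PM.C2
import Pool.Agent.PM.C2b
import Pool.Agent.PM.CD
import Pool.Agent.PM.RI

set_option autoImplicit false

/-!
# Module C3: one step of the chain
-/

namespace Pool.Agent.PM

open Finset Pool.Agent.Helper22
open Pool.Agent.G4 (nor dif word prd IsRk Conn3 ctr lam dualR)
open Pool.Agent.BW (rkX rkD RkS rkV)

variable {X : Oracle} {E : List ℕ} {r : Finset ℕ → ℤ} {q : ℕ} {s : Ch}

private theorem c3_mem_dif {A C : List ℕ} {x : ℕ} : x ∈ dif A C ↔ x ∈ A ∧ x ∉ C := by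
  unfold dif
  rw [List.mem_filter]
  simp

private theorem c3_mem_nor {A C : List ℕ} {x : ℕ} : x ∈ nor A C ↔ x ∈ A ∧ x ∈ C := by
  unfold nor
  rw [List.mem_filter]
  simp

private theorem c3_mem_prd {α β : Type} {l : List α} {m : List β} {p : α × β} :
    p ∈ prd l m ↔ p.1 ∈ l ∧ p.2 ∈ m := by
  unfold prd
  rw [List.mem_flatMap]
  constructor
  · rintro ⟨a, ha, h⟩
    obtain ⟨b, hb, rfl⟩ := List.mem_map.1 h
    exact ⟨ha, hb⟩
  · rintro ⟨h1, h2⟩
    exact ⟨p.1, h1, List.mem_map.2 ⟨p.2, h2, rfl⟩⟩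

private theorem c3_ops {S : List ℕ} {o : List ℕ × List ℕ} : o ∈ ops S ↔
    (∃ y ∈ S, o = ([y], [])) ∨ (∃ b ∈ S, o = ([], [b])) ∨
      ∃ y ∈ S, ∃ b ∈ S, y ≠ b ∧ o = ([y], [b]) := by
  unfold ops
  rw [List.mem_append, List.mem_append, List.mem_map, List.mem_map, List.mem_map]
  constructor
  · rintro (⟨y, hy, rfl⟩ | ⟨b, hb, rfl⟩ | ⟨p, hp, rfl⟩)
    · exact Or.inl ⟨y, hy, rfl⟩
    · exact Or.inr (Or.inl ⟨b, hb, rfl⟩)
    · obtain ⟨h1, h2⟩ := List.mem_filter.1 hp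
      rw [c3_mem_prd] at h1
      refine Or.inr (Or.inr ⟨p.1, h1.1, p.2, h1.2, ?_, rfl⟩)
      intro h3
      rw [h3] at h2
      simp at h2
  · rintro (⟨y, hy, rfl⟩ | ⟨b, hb, rfl⟩ | ⟨y, hy, b, hb, hyb, rfl⟩)
    · exact Or.inl ⟨y, hy, rfl⟩
    · exact Or.inr (Or.inl ⟨b, hb, rfl⟩)
    · refine Or.inr (Or.inr ⟨(y, b), List.mem_filter.2 ⟨c3_mem_prd.2 ⟨hy, hb⟩, ?_⟩, rfl⟩)
      simpa using hyb

private theorem c3_mem_cds {N : ℕ} {c : (List ℕ × List ℕ) × List ℕ} : c ∈ cds N X E s ↔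
    c.1 ∈ ops s.1 ∧ cn3 (mo X E (s.2.1 ++ c.1.2) (dif s.1 (c.1.1 ++ c.1.2)))
      (dif s.1 (c.1.1 ++ c.1.2)) = true ∧
    c.2 ∈ lcs s.1 (dif s.1 (c.1.1 ++ c.1.2)) s.2.2.1 ∧
    labB N (mo X E (s.2.1 ++ c.1.2) (dif s.1 (c.1.1 ++ c.1.2))) (dif s.1 (c.1.1 ++ c.1.2)) c.2 =
      true := by
  unfold cds
  rw [List.mem_flatMap]
  constructor
  · rintro ⟨o, ho, h⟩
    obtain ⟨C, hC, rfl⟩ := List.mem_map.1 h
    obtain ⟨h1, h2⟩ := List.mem_filter.1 ho
    obtain ⟨h3, h4⟩ := List.mem_filter.1 hC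
    exact ⟨h1, h2, h3, h4⟩
  · rintro ⟨h1, h2, h3, h4⟩
    exact ⟨c.1, List.mem_filter.2 ⟨h1, h2⟩, List.mem_map.2 ⟨c.2, List.mem_filter.2 ⟨h3, h4⟩, rfl⟩⟩

theorem ChI.len (hE : E.Nodup) (hI : ChI q r E s) :
    q ^ 2 + q + 1 + s.2.2.1.length ≤ s.1.length := by
  have hSn : s.1.Nodup := hE.sublist hI.sub
  have hCn : s.2.2.1.Nodup := hSn.sublist hI.Cs
  obtain ⟨h1, _, _, Z, hZ, hZc, _⟩ := hI.lb
  have hd : Disjoint Z s.2.2.1.toFinset := by
    rw [disjoint_left]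
    intro x hx hx'
    exact (mem_sdiff.1 (hZ hx)).2 hx'
  have h2 : Z ∪ s.2.2.1.toFinset ⊆ s.1.toFinset :=
    union_subset (fun x hx => (mem_sdiff.1 (hZ hx)).1) h1
  have h3 := card_le_card h2
  rw [card_union_of_disjoint hd, hZc, List.toFinset_card_of_nodup hCn,
    List.toFinset_card_of_nodup hSn] at h3
  exact h3

/-- facts on the second component of an operation -/
private theorem c3_two (hr : IsRk r) (hI : ChI q r E s) {o : List ℕ × List ℕ}
    (ho : o ∈ ops s.1) : (∀ x ∈ o.2, x ∈ s.1) ∧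
    r (s.2.1 ++ o.2).toFinset = ((s.2.1 ++ o.2).length : ℤ) ∧ (s.2.1 ++ o.2).Nodup := by
  have key : ∀ b ∈ s.1, r (s.2.1 ++ [b]).toFinset = ((s.2.1 ++ [b]).length : ℤ) ∧
      (s.2.1 ++ [b]).Nodup := by
    intro b hb
    have hbA : b ∉ s.2.1 := fun h => (hI.AE b h).2 hb
    have h1 := hI.c3.rank_one (hr.ctr _) (List.mem_toFinset.2 hb)
    unfold ctr at h1
    have e1 : (s.2.1 ++ [b]).toFinset = s.2.1.toFinset ∪ {b} := by
      rw [List.toFinset_append, List.toFinset_cons, List.toFinset_nil, insert_empty_eq]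
    constructor
    · rw [e1, List.length_append, List.length_singleton]
      have h2 := hI.ind
      push_cast
      omega
    · rw [List.nodup_append]
      refine ⟨hI.nd, by simp, ?_⟩
      intro a ha c hc
      rw [List.mem_singleton] at hc
      rw [hc]
      rintro rfl
      exact hbA ha
  rcases c3_ops.1 ho with ⟨y, hy, rfl⟩ | ⟨b, hb, rfl⟩ | ⟨y, hy, b, hb, hyb, rfl⟩
  · refine ⟨fun x hx => absurd hx List.not_mem_nil, ?_, ?_⟩
    · rw [List.append_nil]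
      exact hI.ind
    · rw [List.append_nil]
      exact hI.nd
  · refine ⟨fun x hx => ?_, key b hb⟩
    rw [List.mem_singleton.1 hx]
    exact hb
  · refine ⟨fun x hx => ?_, key b hb⟩
    rw [List.mem_singleton.1 hx]
    exact hb

theorem mo_ok (hr : IsRk r) (hX : Orf X E r) (hE : E.Nodup) (hI : ChI q r E s)
    {o : List ℕ × List ℕ} (ho : o ∈ ops s.1) :
    Orf (mo X E (s.2.1 ++ o.2) (dif s.1 (o.1 ++ o.2))) (dif s.1 (o.1 ++ o.2))
      (ctr r (s.2.1 ++ o.2).toFinset) ∧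
    r (s.2.1 ++ o.2).toFinset = ((s.2.1 ++ o.2).length : ℤ) ∧ (s.2.1 ++ o.2).Nodup := by
  obtain ⟨h1, h2, h3⟩ := c3_two hr hI ho
  refine ⟨?_, h2, h3⟩
  refine orf_mo hr hX ?_ ?_ ?_ ?_ ?_
  · intro a ha
    rcases List.mem_append.1 ha with ha | ha
    · exact (hI.AE a ha).1
    · exact hI.sub.subset (h1 a ha)
  · rw [List.toFinset_card_of_nodup h3]
    exact h2
  · intro x hx
    exact hI.sub.subset (c3_mem_dif.1 hx).1
  · exact (hE.sublist hI.sub).sublist List.filter_sublist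
  · intro a ha hx
    rw [c3_mem_dif] at hx
    rcases List.mem_append.1 ha with ha | ha
    · exact (hI.AE a ha).2 hx.1
    · exact hx.2 (List.mem_append_right _ ha)

theorem cds_ok (hr : IsRk r) (hX : Orf X E r) (hE : E.Nodup) (hq : 1 ≤ q) (hI : ChI q r E s)
    {c : (List ℕ × List ℕ) × List ℕ} (hc : c ∈ cds (q ^ 2 + q + 1) X E s) :
    ChI q r E (dif s.1 (c.1.1 ++ c.1.2), (s.2.1 ++ c.1.2, (c.2, c.1 :: s.2.2.2))) ∧
      (dif s.1 (c.1.1 ++ c.1.2)).length < s.1.length := by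
  obtain ⟨ho, h3, hlc, hlab⟩ := c3_mem_cds.1 hc
  obtain ⟨hmo, hind, hnd⟩ := mo_ok hr hX hE hI ho
  obtain ⟨o2S, _, _⟩ := c3_two hr hI ho
  have hSn : s.1.Nodup := hE.sublist hI.sub
  have hS'S : (dif s.1 (c.1.1 ++ c.1.2)).Sublist s.1 := List.filter_sublist
  have hS'n : (dif s.1 (c.1.1 ++ c.1.2)).Nodup := hSn.sublist hS'S
  have hCs : c.2.Sublist (dif s.1 (c.1.1 ++ c.1.2)) := by
    unfold lcs at hlc
    obtain ⟨p, _, hp⟩ := List.mem_map.1 hlc
    rw [← hp]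
    exact List.filter_sublist
  have hc3 : Conn3 (ctr r (s.2.1 ++ c.1.2).toFinset) (dif s.1 (c.1.1 ++ c.1.2)).toFinset :=
    (cn3_iff (hr.ctr _) hmo hS'n).1 h3
  have hlb := (labB_iff (hr.ctr _) hmo hS'n hCs hq).1 hlab
  have o1S : ∀ x ∈ c.1.1, x ∈ s.1 := by
    rcases c3_ops.1 ho with ⟨y, hy, he⟩ | ⟨b, hb, he⟩ | ⟨y, hy, b, hb, hyb, he⟩
    · rw [he]
      intro x hx
      rw [List.mem_singleton.1 hx]
      exact hy
    · rw [he]
      intro x hx
      exact absurd hx List.not_mem_nil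
    · rw [he]
      intro x hx
      rw [List.mem_singleton.1 hx]
      exact hy
  have hdis : ∀ x ∈ c.1.1, x ∉ c.1.2 := by
    rcases c3_ops.1 ho with ⟨y, hy, he⟩ | ⟨b, hb, he⟩ | ⟨y, hy, b, hb, hyb, he⟩
    · rw [he]
      intro x _ hx
      exact absurd hx List.not_mem_nil
    · rw [he]
      intro x hx
      exact absurd hx List.not_mem_nil
    · rw [he]
      intro x hx hx'
      exact hyb ((List.mem_singleton.1 hx).symm.trans (List.mem_singleton.1 hx'))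
  have hne : ∃ x ∈ c.1.1 ++ c.1.2, x ∈ s.1 := by
    rcases c3_ops.1 ho with ⟨y, hy, he⟩ | ⟨b, hb, he⟩ | ⟨y, hy, b, hb, hyb, he⟩
    · rw [he]
      exact ⟨y, by simp, hy⟩
    · rw [he]
      exact ⟨b, by simp, hb⟩
    · rw [he]
      exact ⟨y, by simp, hy⟩
  -- deletion does not change the rank
  have hdel : r (s.2.1.toFinset ∪ (s.1.toFinset \ c.1.1.toFinset)) =
      r (s.2.1.toFinset ∪ s.1.toFinset) := by
    have key : ∀ y ∈ s.1, r (s.2.1.toFinset ∪ (s.1.toFinset \ [y].toFinset)) =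
        r (s.2.1.toFinset ∪ s.1.toFinset) := by
      intro y hy
      have h5 := hI.c3.corank (hr.ctr _) (List.mem_toFinset.2 hy) (List.mem_toFinset.2 hy)
      unfold ctr at h5
      have e1 : ({y, y} : Finset ℕ) = [y].toFinset := by simp
      rw [e1] at h5
      omega
    rcases c3_ops.1 ho with ⟨y, hy, he⟩ | ⟨b, hb, he⟩ | ⟨y, hy, b, hb, hyb, he⟩
    · rw [he]
      exact key y hy
    · rw [he, List.toFinset_nil, sdiff_empty]
    · rw [he]
      exact key y hy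
  refine ⟨⟨hS'S.trans hI.sub, ?_, hnd, hind, ?_, hc3, hCs, hlb, ?_⟩, ?_⟩
  · intro a ha
    show a ∈ E ∧ a ∉ dif s.1 (c.1.1 ++ c.1.2)
    rw [c3_mem_dif]
    rcases List.mem_append.1 ha with ha | ha
    · exact ⟨(hI.AE a ha).1, fun h => (hI.AE a ha).2 h.1⟩
    · exact ⟨hI.sub.subset (o2S a ha), fun h => h.2 (List.mem_append_right _ ha)⟩
  · show r ((s.2.1 ++ c.1.2).toFinset ∪ (dif s.1 (c.1.1 ++ c.1.2)).toFinset) = r E.toFinset
    rw [← hI.sp, ← hdel]
    congr 1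
    ext x
    rw [mem_union, mem_union, List.mem_toFinset, List.mem_toFinset, List.mem_toFinset, mem_sdiff,
      List.mem_toFinset, List.mem_toFinset, List.mem_append, c3_mem_dif, List.mem_append]
    have f1 := o2S x
    have f2 := hdis x
    tauto
  · intro B hB
    have hB' : ∀ x, (x ∈ B ∧ x ∉ s.1) ↔ x ∈ s.2.1 := by
      intro x
      have h5 := hB x
      have h6 := hI.AE x
      have h7 := o2S x
      change (x ∈ B ∧ x ∉ dif s.1 (c.1.1 ++ c.1.2)) ↔ x ∈ s.2.1 ++ c.1.2 at h5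
      rw [c3_mem_dif, List.mem_append, List.mem_append] at h5
      tauto
    have hlad := hI.lad B hB'
    have hback : nor E (dif s.1 (c.1.1 ++ c.1.2) ++ (c.1.1 ++ c.1.2)) = s.1 := by
      refine Pool.Agent.BW.can_ext hE List.filter_sublist hI.sub ?_
      ext x
      rw [List.mem_toFinset, List.mem_toFinset, c3_mem_nor, List.mem_append, List.mem_append,
        c3_mem_dif, List.mem_append]
      have f1 := o2S x
      have f2 := o1S x
      have f3 : x ∈ s.1 → x ∈ E := fun h => hI.sub.subset h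
      tauto
    refine ⟨⟨hS'S.trans hI.sub, ?_, ?_⟩, ?_⟩
    · -- `Rec`
      have hy0 : ∀ y ∈ c.1.1, y ∈ E ∧ y ∉ B ∧ y ∉ dif s.1 (c.1.1 ++ c.1.2) := by
        intro y hy
        have h5 : y ∉ dif s.1 (c.1.1 ++ c.1.2) := fun h =>
          (c3_mem_dif.1 h).2 (List.mem_append_left _ hy)
        refine ⟨hI.sub.subset (o1S y hy), fun hyB => ?_, h5⟩
        rcases List.mem_append.1 ((hB y).1 ⟨hyB, h5⟩) with h6 | h6
        · exact (hI.AE y h6).2 (o1S y hy)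
        · exact hdis y hy h6
      have hb0 : ∀ b ∈ c.1.2, b ∈ B ∧ b ∉ dif s.1 (c.1.1 ++ c.1.2) := fun b hb =>
        (hB b).2 (List.mem_append_right _ hb)
      rcases c3_ops.1 ho with ⟨y, hy, he⟩ | ⟨b, hb, he⟩ | ⟨y, hy, b, hb, hyb, he⟩
      · have h5 := hy0 y (by rw [he]; simp)
        exact Or.inl ⟨y, h5.1, h5.2.1, h5.2.2, he⟩
      · have h5 := hb0 b (by rw [he]; simp)
        exact Or.inr (Or.inl ⟨b, h5.1, h5.2, he⟩)
      · have h5 := hy0 y (by rw [he]; simp)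
        have h6 := hb0 b (by rw [he]; simp)
        exact Or.inr (Or.inr ⟨y, h5.1, b, h6.1, h5.2.1, h5.2.2, h6.2, he⟩)
    · have e1 : (dif B (dif s.1 (c.1.1 ++ c.1.2))).toFinset = (s.2.1 ++ c.1.2).toFinset := by
        ext x
        rw [List.mem_toFinset, List.mem_toFinset, c3_mem_dif]
        exact hB x
      rw [e1]
      exact hc3
    · show Lad r E B (nor E (dif s.1 (c.1.1 ++ c.1.2) ++ (c.1.1 ++ c.1.2))) s.2.2.2
      rw [hback]
      exact hlad
  · by_contra hlt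
    have h5 := hS'S.eq_of_length_le (not_lt.1 hlt)
    obtain ⟨x, hx, hxS⟩ := hne
    rw [← h5] at hxS
    exact (c3_mem_dif.1 hxS).2 hx

private theorem c3_twoS {S : List ℕ} {D : Finset ℕ} (hD : D ⊆ S.toFinset) (h : D.card ≤ 2) :
    ∃ l ∈ two S, ∀ x, x ∈ l ↔ x ∈ D := by
  unfold two
  interval_cases hc : D.card
  · rw [card_eq_zero] at hc
    exact ⟨[], by simp, by simp [hc]⟩
  · obtain ⟨g, hg⟩ := card_eq_one.1 hc
    refine ⟨[g], ?_, by simp [hg]⟩
    rw [List.mem_cons, List.mem_append, List.mem_map]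
    refine Or.inr (Or.inl ⟨g, ?_, rfl⟩)
    apply List.mem_toFinset.1
    apply hD
    rw [hg]
    exact mem_singleton_self g
  · obtain ⟨g, g', _, hg⟩ := card_eq_two.1 hc
    refine ⟨[g, g'], ?_, by simp [hg]⟩
    rw [List.mem_cons, List.mem_append, List.mem_map, List.mem_map]
    refine Or.inr (Or.inr ⟨(g, g'), c3_mem_prd.2 ⟨?_, ?_⟩, rfl⟩)
    · apply List.mem_toFinset.1
      apply hD
      rw [hg]
      exact mem_insert_self _ _
    · apply List.mem_toFinset.1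
      apply hD
      rw [hg]
      exact mem_insert_of_mem (mem_singleton_self _)

theorem cds_ne (hr : IsRk r) (hX : Orf X E r) (hE : E.Nodup) (hq : 2 ≤ q) (hQ : Qb q r)
    (hI : ChI q r E s) (hl : q ^ 2 + q + 1 < s.1.length) :
    cds (q ^ 2 + q + 1) X E s ≠ [] := by
  have hSn : s.1.Nodup := hE.sublist hI.sub
  obtain ⟨C', hN, hst⟩ := chain_step (hr.ctr s.2.1.toFinset) hq (qb_ctr hQ _) hI.c3
    (by rw [List.toFinset_card_of_nodup hSn]; exact hl) hI.lb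
  -- it is enough to find the operation
  suffices key : ∃ o ∈ ops s.1, Conn3 (ctr r (s.2.1 ++ o.2).toFinset)
      (dif s.1 (o.1 ++ o.2)).toFinset ∧ Lb q (ctr r (s.2.1 ++ o.2).toFinset)
      (dif s.1 (o.1 ++ o.2)).toFinset C' by
    obtain ⟨o, ho, h3, hlb⟩ := key
    obtain ⟨hmo, _, _⟩ := mo_ok hr hX hE hI ho
    have hS'S : (dif s.1 (o.1 ++ o.2)).Sublist s.1 := List.filter_sublist
    have hS'n : (dif s.1 (o.1 ++ o.2)).Nodup := hSn.sublist hS'S
    have hC'S : C' ⊆ s.1.toFinset := fun x hx =>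
      List.mem_toFinset.2 (hS'S.subset (List.mem_toFinset.1 (hlb.1 hx)))
    have hCS : s.2.2.1.toFinset ⊆ s.1.toFinset := hI.lb.1
    obtain ⟨l1, hl1, hm1⟩ := c3_twoS (S := s.1) (D := s.2.2.1.toFinset \ C')
      (sdiff_subset.trans hCS) hN.1
    obtain ⟨l2, hl2, hm2⟩ := c3_twoS (S := s.1) (D := C' \ s.2.2.1.toFinset)
      (sdiff_subset.trans hC'S) hN.2
    have hCs : (nor (dif s.1 (o.1 ++ o.2)) (dif s.2.2.1 l1 ++ l2)).Sublist
        (dif s.1 (o.1 ++ o.2)) := List.filter_sublist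
    have e1 : (nor (dif s.1 (o.1 ++ o.2)) (dif s.2.2.1 l1 ++ l2)).toFinset = C' := by
      ext x
      rw [List.mem_toFinset, c3_mem_nor, List.mem_append, c3_mem_dif (A := s.2.2.1) (C := l1), hm1,
        hm2, mem_sdiff, mem_sdiff, List.mem_toFinset]
      constructor
      · rintro ⟨_, h5 | h5⟩
        · by_contra h6
          exact h5.2 ⟨h5.1, h6⟩
        · exact h5.1
      · intro h5
        refine ⟨List.mem_toFinset.1 (hlb.1 h5), ?_⟩
        by_cases h6 : x ∈ s.2.2.1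
        · exact Or.inl ⟨h6, fun h7 => h7.2 h5⟩
        · exact Or.inr ⟨h5, h6⟩
    apply List.ne_nil_of_mem (a := (o, nor (dif s.1 (o.1 ++ o.2)) (dif s.2.2.1 l1 ++ l2)))
    rw [c3_mem_cds]
    refine ⟨ho, (cn3_iff (hr.ctr _) hmo hS'n).2 h3, ?_, ?_⟩
    · unfold lcs
      exact List.mem_map.2 ⟨(l1, l2), c3_mem_prd.2 ⟨hl1, hl2⟩, rfl⟩
    · refine (labB_iff (hr.ctr _) hmo hS'n hCs (by omega)).2 ?_
      rw [e1]
      exact hlb
  have hcc : ∀ e, ctr (ctr r s.2.1.toFinset) {e} = ctr r (s.2.1 ++ [e]).toFinset := by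
    intro e
    funext Y
    rw [Pool.Agent.G4.ctr_ctr, List.toFinset_append, List.toFinset_cons, List.toFinset_nil,
      insert_empty_eq]
  have hd1 : ∀ y, (dif s.1 [y]).toFinset = s.1.toFinset.erase y := by
    intro y
    ext x
    rw [List.mem_toFinset, c3_mem_dif, mem_erase, List.mem_toFinset, List.mem_singleton]
    tauto
  have hd2 : ∀ y e, (dif s.1 [y, e]).toFinset = (s.1.toFinset.erase y).erase e := by
    intro y e
    ext x
    rw [List.mem_toFinset, c3_mem_dif, mem_erase, mem_erase, List.mem_toFinset]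
    simp only [List.mem_cons, List.not_mem_nil, or_false, not_or]
    tauto
  rcases hst with ⟨y, hy, h3, hlb⟩ | ⟨e, he, h3, hlb⟩ | ⟨y, hy, e, he, hye, h3, hlb⟩
  · refine ⟨([y], []), c3_ops.2 (Or.inl ⟨y, List.mem_toFinset.1 hy, rfl⟩), ?_⟩
    show Conn3 (ctr r (s.2.1 ++ []).toFinset) (dif s.1 ([y] ++ [])).toFinset ∧
      Lb q (ctr r (s.2.1 ++ []).toFinset) (dif s.1 ([y] ++ [])).toFinset C'
    rw [List.append_nil, List.append_nil, hd1]
    exact ⟨h3, hlb⟩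
  · refine ⟨([], [e]), c3_ops.2 (Or.inr (Or.inl ⟨e, List.mem_toFinset.1 he, rfl⟩)), ?_⟩
    show Conn3 (ctr r (s.2.1 ++ [e]).toFinset) (dif s.1 [e]).toFinset ∧
      Lb q (ctr r (s.2.1 ++ [e]).toFinset) (dif s.1 [e]).toFinset C'
    rw [← hcc, hd1]
    exact ⟨h3, hlb⟩
  · refine ⟨([y], [e]), c3_ops.2 (Or.inr (Or.inr ⟨y, List.mem_toFinset.1 hy, e,
      List.mem_toFinset.1 he, hye, rfl⟩)), ?_⟩
    show Conn3 (ctr r (s.2.1 ++ [e]).toFinset) (dif s.1 [y, e]).toFinset ∧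
      Lb q (ctr r (s.2.1 ++ [e]).toFinset) (dif s.1 [y, e]).toFinset C'
    rw [← hcc, hd2]
    exact ⟨h3, hlb⟩

end Pool.Agent.PM
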