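import Pool.Agent.PM.C3
import Pool.Agent.BW.Grdy

set_option autoImplicit false

/-!
# Module C4: the chain; the basis

* `chain_inv`: `chStep`: if `cds` is empty then nothing changes, otherwise its first element is a member: `cds_ok`.
By `cds_ne` the length decreases if it is more than `q ^ 2 + q + 1`, and it is never smaller (`ChI.len`). After `E.length`
steps it is `q ^ 2 + q + 1`. The start: `ChI q r E (E, ([], (C, [])))`: `ctr r ∅ = r` (`ctr_empty`: values only, so `Conn3.congr`,
`Lb.congr`), `Lad`: `dif B E` is empty.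
* `basis_spec`: `ChI.len` gives that the label is empty, so `ctr r A S = 3`. `grdy_spec` for `ρ = rkX X E` (`greedy_rk`), `Y = S`,
`C = A`: `G.Sublist S`, `r (A ∪ G) = r A + |G| = r (A ∪ S)`, so `|G| = 3`, `G = [a, b, c]`; `basW X E s = G ++ A`. `nor (G ++ A) S = G` as
`A` is disjoint from `S`. `Lad`: `ChI.lad`.
-/

namespace Pool.Agent.PM

open Finset Pool.Agent.Helper22
open Pool.Agent.G4 (nor dif word prd IsRk Conn3 ctr lam dualR)
open Pool.Agent.BW (rkX rkD RkS rkV)

variable {X : Oracle} {E C : List ℕ} {r : Finset ℕ → ℤ} {q : ℕ} {s : Ch}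

private theorem c4_nil {A : List ℕ} (h : ∀ x, x ∉ A) : A = [] :=
  List.eq_nil_iff_forall_not_mem.2 h

private theorem c4_step (hr : IsRk r) (hX : Orf X E r) (hE : E.Nodup) (hq : 2 ≤ q) (hQ : Qb q r)
    (hI : ChI q r E s) : ChI q r E (chStep (q ^ 2 + q + 1) X E s) ∧
      ((chStep (q ^ 2 + q + 1) X E s).1.length + 1 ≤ s.1.length ∨
        (chStep (q ^ 2 + q + 1) X E s).1.length = q ^ 2 + q + 1) := by
  unfold chStep
  cases hc : cds (q ^ 2 + q + 1) X E s with
  | nil =>
    rw [if_pos (by rfl)]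
    refine ⟨hI, Or.inr ?_⟩
    have h1 := hI.len hE
    by_contra h2
    exact cds_ne hr hX hE hq hQ hI (by omega) hc
  | cons c l =>
    have h1 : c ∈ cds (q ^ 2 + q + 1) X E s := by
      rw [hc]
      exact List.mem_cons_self
    have h2 := cds_ok hr hX hE (by omega) hI h1
    rw [if_neg (by simp)]
    exact ⟨h2.1, Or.inl h2.2⟩

private theorem c4_iter (hr : IsRk r) (hX : Orf X E r) (hE : E.Nodup) (hq : 2 ≤ q) (hQ : Qb q r)
    (k : ℕ) : ∀ s : Ch, ChI q r E s → ChI q r E ((chStep (q ^ 2 + q + 1) X E)^[k] s) ∧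
      (((chStep (q ^ 2 + q + 1) X E)^[k] s).1.length + k ≤ s.1.length ∨
        ((chStep (q ^ 2 + q + 1) X E)^[k] s).1.length = q ^ 2 + q + 1) := by
  induction k with
  | zero => exact fun s hs => ⟨hs, Or.inl le_rfl⟩
  | succ k ih =>
    intro s hs
    rw [Function.iterate_succ_apply']
    obtain ⟨h1, h2⟩ := ih s hs
    obtain ⟨h3, h4⟩ := c4_step hr hX hE hq hQ h1
    refine ⟨h3, ?_⟩
    have h5 := h3.len hE
    rcases h4 with h4 | h4
    · rcases h2 with h2 | h2
      · left
        omega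
      · omega
    · exact Or.inr h4

theorem chain_inv (hr : IsRk r) (hX : Orf X E r) (hE : E.Nodup) (hq : 2 ≤ q) (hQ : Qb q r)
    (h3 : Conn3 r E.toFinset) (hC : C.Sublist E) (hL : Lb q r E.toFinset C.toFinset) :
    ChI q r E (chain (q ^ 2 + q + 1) X E C) ∧
      (chain (q ^ 2 + q + 1) X E C).1.length = q ^ 2 + q + 1 := by
  have h0 : ∀ Y : Finset ℕ, r Y = ctr r ([] : List ℕ).toFinset Y := by
    intro Y
    rw [List.toFinset_nil]
    exact (Pool.Agent.G4.ctr_empty hr Y).symm
  have hc3 : Conn3 (ctr r ([] : List ℕ).toFinset) E.toFinset :=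
    (Pool.Agent.G4.Conn3.congr fun Y _ => h0 Y).1 h3
  have hst : ChI q r E (E, ([], (C, []))) := by
    refine ⟨List.Sublist.refl E, ?_, List.nodup_nil, ?_, ?_, hc3, hC, ?_, ?_⟩
    · intro a ha
      exact absurd ha List.not_mem_nil
    · show r ([] : List ℕ).toFinset = (([] : List ℕ).length : ℤ)
      rw [List.toFinset_nil, hr.empty]
      rfl
    · show r (([] : List ℕ).toFinset ∪ E.toFinset) = r E.toFinset
      rw [List.toFinset_nil, empty_union]
    · exact hL.congr fun Y _ => h0 Y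
    · intro B hB
      have h1 : dif B E = [] := c4_nil fun x hx =>
        absurd ((hB x).1 (Pool.Agent.BW.mem_dif.1 hx)) List.not_mem_nil
      show E = E ∧ Conn3 (ctr r (dif B E).toFinset) E.toFinset
      rw [h1]
      exact ⟨rfl, hc3⟩
  obtain ⟨h1, h2⟩ := c4_iter hr hX hE hq hQ E.length _ hst
  refine ⟨h1, ?_⟩
  rcases h2 with h2 | h2
  · have h4 := h1.len hE
    change ((chStep (q ^ 2 + q + 1) X E)^[E.length] (E, ([], (C, [])))).1.length + E.length ≤
      E.length at h2
    omega
  · exact h2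

theorem basis_spec (hr : IsRk r) (hX : Orf X E r) (hE : E.Nodup) (hI : ChI q r E s)
    (hl : s.1.length = q ^ 2 + q + 1) :
    ∃ a b c, basW X E s = a :: b :: c :: s.2.1 ∧ nor (basW X E s) s.1 = [a, b, c] ∧
      (basW X E s).Nodup ∧ (∀ x ∈ basW X E s, x ∈ E) ∧
      r (basW X E s).toFinset = ((basW X E s).toFinset.card : ℤ) ∧
      r (basW X E s).toFinset = r E.toFinset ∧ Lad r E (basW X E s) s.1 s.2.2.2 := by
  have h1 := hI.len hE
  have h2 : s.2.2.1 = [] := List.eq_nil_of_length_eq_zero (by omega)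
  have h3 := hI.lb.2.2.1
  rw [h2, List.toFinset_nil, card_empty] at h3
  unfold Pool.Agent.G4.ctr at h3
  obtain ⟨g1, g2, g3, g4⟩ := Pool.Agent.BW.grdy_spec (Y := s.1) (C := s.2.1) hr
    (greedy_rk hE hr hX) hI.sub.subset (hE.sublist hI.sub) fun a ha => (hI.AE a ha).1
  obtain ⟨G, hG⟩ : ∃ G, G = Pool.Agent.BW.grdy (fun T => rkX X E T) s.1 s.2.1 := ⟨_, rfl⟩
  have hbas : basW X E s = G ++ s.2.1 := by
    unfold basW
    rw [← hG]
  rw [← hG] at g1 g2 g3 g4
  have hlen : G.length = 3 := by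
    push_cast at h3
    have : (G.length : ℤ) = 3 := by linarith
    exact_mod_cast this
  have hGn : G.Nodup := (hE.sublist hI.sub).sublist g1
  have hnd : (basW X E s).Nodup := by
    rw [hbas, List.nodup_append]
    refine ⟨hGn, hI.nd, ?_⟩
    rintro a ha b hb rfl
    exact (hI.AE a hb).2 (g1.subset ha)
  have hset : (basW X E s).toFinset = s.2.1.toFinset ∪ G.toFinset := by
    rw [hbas, List.toFinset_append, union_comm]
  obtain ⟨a, b, c, habc⟩ := List.length_eq_three.1 hlen
  refine ⟨a, b, c, ?_, ?_, hnd, ?_, ?_, ?_, ?_⟩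
  · rw [hbas, habc]
    rfl
  · rw [hbas, ← habc]
    unfold Pool.Agent.G4.nor
    rw [List.filter_append]
    have e1 : G.filter (fun e => decide (e ∈ s.1)) = G := by
      rw [List.filter_eq_self]
      exact fun x hx => decide_eq_true (g1.subset hx)
    have e2 : s.2.1.filter (fun e => decide (e ∈ s.1)) = [] := by
      rw [List.filter_eq_nil_iff]
      intro x hx h
      exact (hI.AE x hx).2 (of_decide_eq_true h)
    rw [e1, e2, List.append_nil]
  · intro x hx
    rw [hbas] at hx
    rcases List.mem_append.1 hx with hx | hx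
    · exact hI.sub.subset (g1.subset hx)
    · exact (hI.AE x hx).1
  · rw [List.toFinset_card_of_nodup hnd, hset, g2, hI.ind, hbas, List.length_append]
    push_cast
    ring
  · rw [hset, g3, hI.sp]
  · refine hI.lad _ fun x => ?_
    rw [hbas, List.mem_append]
    constructor
    · rintro ⟨h5 | h5, h6⟩
      · exact absurd (g1.subset h5) h6
      · exact h5
    · intro h5
      exact ⟨Or.inr h5, (hI.AE x h5).2⟩

end Pool.Agent.PM
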