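import Pool.Agent.PM.L4

set_option autoImplicit false

/-!
# Module L5: coextension by one element, conclusion
-/

namespace Pool.Agent.PM

open Module

variable {K V : Type} [Field K] [AddCommGroup V] [Module K V] {w : ℕ → V} {S : Finset ℕ}
  {L Ls : Set (Finset ℕ × ℕ)} {Bs : Set (Finset ℕ)} {c f : ℕ} {t : ℕ → K}

theorem coext_cx (hG : Good K w S L Ls Bs) (hc : c ∉ S) (h : Cos K (cx w t c) (insert c S))
    (hw : Cos K w S) (h1 : S.Nonempty) : CX K (cx w t c) (insert c S) (coB c Ls Bs) := by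
  intro s hs
  obtain ⟨s₀, hs₀⟩ := h1
  by_cases hsc : s = c
  · rw [hsc]
    refine ⟨?_, ?_⟩
    · obtain ⟨⟨T, hT, hTS, hB, -⟩, -⟩ := hG.cx s₀ hs₀
      exact ⟨insert c T, Or.inl ⟨T, hT, rfl⟩, Finset.insert_subset_insert c hTS,
        hB.cx t fun h2 => hc (hTS h2), Finset.mem_insert_self _ _⟩
    · obtain ⟨T, x, hT, hTS, hxS, hxT, hB, -, l, hl, hlx⟩ := hG.cs _ _ (ind_t hc h hw hs₀)
      have hcT : c ∉ T := fun h2 => hc (hTS h2)
      have hcx : c ≠ x := fun h2 => hc (h2 ▸ hxS)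
      refine ⟨insert x T, Or.inr ⟨T, x, hT, rfl⟩, ?_, hB.cx_ins hxT hcT hcx hl hlx, ?_⟩
      · exact Finset.insert_subset (Finset.mem_insert_of_mem hxS)
          (hTS.trans (Finset.subset_insert _ _))
      · intro h2
        rcases Finset.mem_insert.1 h2 with h3 | h3
        · exact hcx h3
        · exact hcT h3
  · have hsS : s ∈ S := (Finset.mem_insert.1 hs).resolve_left hsc
    obtain ⟨⟨T, hT, hTS, hB, hsT⟩, T', hT', hTS', hB', hsT'⟩ := hG.cx s hsS
    refine ⟨⟨insert c T, Or.inl ⟨T, hT, rfl⟩, Finset.insert_subset_insert c hTS,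
      hB.cx t fun h2 => hc (hTS h2), Finset.mem_insert_of_mem hsT⟩,
      insert c T', Or.inl ⟨T', hT', rfl⟩, Finset.insert_subset_insert c hTS',
      hB'.cx t fun h2 => hc (hTS' h2), ?_⟩
    intro h2
    rcases Finset.mem_insert.1 h2 with h3 | h3
    · exact hsc h3
    · exact hsT' h3

theorem coext_good (hG : Good K w S L Ls Bs) (hc : c ∉ S) (h : Cos K (cx w t c) (insert c S))
    (hs : Sim K w S) (hw : Cos K w S) (h2 : 2 ≤ S.card) :
    Good K (cx w t c) (insert c S) (coL c L Bs) (coS c Ls) (coB c Ls Bs) where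
  ca := coext_ca hG hc h hs h2
  cs := coext_cs hG hc
  cb := coext_cb hG hc h hs hw h2
  cx := coext_cx hG hc h hw (Finset.card_pos.1 (by omega))

section equiv

variable {V' : Type} [AddCommGroup V'] [Module K V']

private theorem symm_dual (Φ : V ≃ₗ[K] V') (l : Dual K V) (v : V) :
    (l ∘ₗ Φ.symm.toLinearMap) (Φ v) = l v := by
  rw [LinearMap.comp_apply, LinearEquiv.coe_toLinearMap, LinearEquiv.symm_apply_apply]

private theorem isB_of (Φ : V ≃ₗ[K] V') {T : Finset ℕ} (h : IsB K (fun s => Φ (w s)) T) :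
    IsB K w T := by
  intro f
  obtain ⟨l, hl, hu⟩ := h f
  refine ⟨l ∘ₗ Φ.toLinearMap, fun s hs => hl s hs, fun m hm => ?_⟩
  have h1 := hu (m ∘ₗ Φ.symm.toLinearMap) fun s hs => (symm_dual Φ m (w s)).trans (hm s hs)
  rw [← h1]
  exact LinearMap.ext fun v => (symm_dual Φ m v).symm

private theorem lin_of (Φ : V ≃ₗ[K] V') {t : ℕ → K} (h : Lin (fun s => Φ (w s)) S t) :
    Lin w S t := by
  obtain ⟨l, hl⟩ := h
  exact ⟨l ∘ₗ Φ.toLinearMap, fun s hs => hl s hs⟩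

private theorem smul_of (Φ : V ≃ₗ[K] V') {v u : V} {c : K} (h : Φ v = c • Φ u) : v = c • u := by
  apply Φ.injective
  rw [h, map_smul]

private theorem deg_of (Φ : V ≃ₗ[K] V') {t : ℕ → K} {v : V}
    (h : Deg (fun s => Φ (w s)) S t (Φ v)) : Deg w S t v := by
  obtain ⟨s, hs, ⟨l, hl⟩, c, hc⟩ := h
  exact ⟨s, hs, ⟨l ∘ₗ Φ.toLinearMap, fun x hx hxs => hl x hx hxs⟩, c, smul_of Φ hc⟩

end equiv

/-- properties of lists are invariant under linear equivalences -/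
theorem Good.of_equiv {V' : Type} [AddCommGroup V'] [Module K V'] (Φ : V ≃ₗ[K] V')
    (h : Good K (fun s => Φ (w s)) S L Ls Bs) : Good K w S L Ls Bs := by
  refine ⟨?_, ?_, ?_, ?_⟩
  · intro x y hxy
    obtain ⟨T, z, h1, h2, h3, h4, l, h5, h6, h7⟩ := h.ca (Φ x) (Φ y) fun a b hab => by
      refine hxy a b (Φ.injective ?_)
      rw [map_add, map_smul, map_smul, map_zero]
      exact hab
    exact ⟨T, z, h1, h2, h3, isB_of Φ h4, l ∘ₗ Φ.toLinearMap, h5, h6, h7⟩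
  · intro t t' htt
    obtain ⟨T, x, h1, h2, h3, h4, h5, ⟨l, h6, h7⟩, m, h8, h9⟩ := h.cs t t' fun a b hab =>
      htt a b (lin_of Φ hab)
    exact ⟨T, x, h1, h2, h3, h4, isB_of Φ h5, ⟨l ∘ₗ Φ.toLinearMap, h6, h7⟩,
      m ∘ₗ Φ.toLinearMap, h8, h9⟩
  · intro t v hv hlin hdeg k
    obtain ⟨T, h1, h2, h3, l, h4, h5⟩ := h.cb t (Φ v)
      (fun h0 => hv (Φ.injective (h0.trans (map_zero Φ).symm)))
      (fun h0 => hlin (lin_of Φ h0)) (fun h0 => hdeg (deg_of Φ h0)) k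
    exact ⟨T, h1, h2, isB_of Φ h3, l ∘ₗ Φ.toLinearMap, h4, h5⟩
  · intro s hs
    obtain ⟨⟨T, hT, hTS, hB, hsT⟩, T', hT', hTS', hB', hsT'⟩ := h.cx s hs
    exact ⟨⟨T, hT, hTS, isB_of Φ hB, hsT⟩, T', hT', hTS', isB_of Φ hB', hsT'⟩

theorem Sim.equiv {V' : Type} [AddCommGroup V'] [Module K V'] (Φ : V ≃ₗ[K] V') :
    Sim K (fun s => Φ (w s)) S ↔ Sim K w S := by
  constructor
  · intro h a ha
    obtain ⟨h1, h2⟩ := h a ha
    refine ⟨fun h0 => h1 ?_, fun b hb hba c h0 => h2 b hb hba c ?_⟩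
    · show Φ (w a) = 0
      rw [h0, map_zero]
    · show Φ (w a) = c • Φ (w b)
      rw [h0, map_smul]
  · intro h a ha
    obtain ⟨h1, h2⟩ := h a ha
    refine ⟨fun h0 => h1 (Φ.injective ?_), fun b hb hba c h0 => h2 b hb hba c (smul_of Φ h0)⟩
    exact h0.trans (map_zero Φ).symm

theorem Cos.equiv {V' : Type} [AddCommGroup V'] [Module K V'] (Φ : V ≃ₗ[K] V') :
    Cos K (fun s => Φ (w s)) S ↔ Cos K w S := by
  constructor
  · intro h a ha b hb l hl
    have h1 := h a ha b hb (l ∘ₗ Φ.symm.toLinearMap) fun s hs hsa hsb =>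
      (symm_dual Φ l (w s)).trans (hl s hs hsa hsb)
    refine LinearMap.ext fun v => ?_
    rw [← symm_dual Φ l v, h1]
    rfl
  · intro h a ha b hb l hl
    have h1 := h a ha b hb (l ∘ₗ Φ.toLinearMap) fun s hs hsa hsb => hl s hs hsa hsb
    refine LinearMap.ext fun v => ?_
    have h2 := LinearMap.congr_fun h1 (Φ.symm v)
    have h3 : (l ∘ₗ Φ.toLinearMap) (Φ.symm v) = l v := by
      rw [LinearMap.comp_apply, LinearEquiv.coe_toLinearMap, LinearEquiv.apply_symm_apply]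
    rw [← h3, h2]
    rfl

end Pool.Agent.PM
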