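import Pool.Agent.PM.N2
import Pool.Agent.PM.L5
import Pool.Agent.G4.R1b

set_option autoImplicit false

/-!
# Module N3: 3-connected configurations
-/

namespace Pool.Agent.PM

open Module Pool.Agent.Helper22 Finset
open Pool.Agent.G4 (nor dif word prd IsRk Conn3 ctr)
open Pool.Agent.BW (rkX rkV RkS)

section

variable {K V : Type} [Field K] [AddCommGroup V] [Module K V] {w : ℕ → V} {S : Finset ℕ}
  {b y : ℕ} {t : ℕ → K}

private theorem spDef3 (v : ℕ → V) (F : Finset ℕ) :
    Pool.Agent.BW.sp K v F = Submodule.span K (v '' (F : Set ℕ)) := rfl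

private theorem mem_sp3 (v : ℕ → V) {F : Finset ℕ} {s : ℕ} (hs : s ∈ F) : v s ∈ Pool.Agent.BW.sp K v F :=
  Submodule.subset_span ⟨s, hs, rfl⟩

/-- a linear form that vanishes on the vectors vanishes on the span -/
private theorem form_sp3 (v : ℕ → V) {F : Finset ℕ} {l : Dual K V} (hl : ∀ s ∈ F, l (v s) = 0) {x : V}
    (hx : x ∈ Pool.Agent.BW.sp K v F) : l x = 0 := by
  have h1 : Pool.Agent.BW.sp K v F ≤ LinearMap.ker l := by
    rw [spDef3, Submodule.span_le]
    rintro _ ⟨s, hs, rfl⟩
    exact hl s hs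
  exact h1 hx

theorem conn_sim (hsp : ∀ l : Dual K V, (∀ s ∈ S, l (w s) = 0) → l = 0)
    (h : Conn3 (rkV K w) S) : Sim K w S ∧ Cos K w S := by
  have hr := Pool.Agent.BW.isRk_rkV (K := K) w
  refine ⟨fun a ha => ⟨?_, ?_⟩, ?_⟩
  · intro h0
    have h1 := h.rank_one hr ha
    have h2 : Pool.Agent.BW.sp K w {a} = ⊥ := by
      rw [spDef3, Finset.coe_singleton, Set.image_singleton, h0, Submodule.span_zero_singleton]
    unfold Pool.Agent.BW.rkV at h1
    rw [h2, finrank_bot] at h1
    exact absurd h1 (by norm_num)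
  · intro b hb hba c h0
    have h1 := h.rank_one hr hb
    have h2 := h.rank_two hr ha hb hba.symm
    have h3 : Pool.Agent.BW.sp K w {a, b} ≤ Pool.Agent.BW.sp K w {b} := by
      rw [spDef3, Submodule.span_le]
      rintro _ ⟨s, hs, rfl⟩
      rw [Finset.mem_coe, Finset.mem_insert, Finset.mem_singleton] at hs
      rcases hs with rfl | rfl
      · rw [h0]
        exact Submodule.smul_mem _ c (mem_sp3 w (Finset.mem_singleton_self b))
      · exact mem_sp3 w (Finset.mem_singleton_self s)
    have h4 := Submodule.finrank_mono h3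
    unfold Pool.Agent.BW.rkV at h1 h2
    omega
  · intro a ha b hb l hl
    have h1 := h.corank hr ha hb
    have h2 : Pool.Agent.BW.sp K w (S \ {a, b}) = Pool.Agent.BW.sp K w S := by
      refine Submodule.eq_of_le_of_finrank_eq (Pool.Agent.BW.sp_mono w Finset.sdiff_subset) ?_
      unfold Pool.Agent.BW.rkV at h1
      exact_mod_cast h1
    refine hsp l fun s hs => ?_
    refine form_sp3 (F := S \ {a, b}) w (fun x hx => ?_) (h2 ▸ mem_sp3 w hs)
    rw [Finset.mem_sdiff, Finset.mem_insert, Finset.mem_singleton, not_or] at hx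
    exact hl x hx.1 hx.2.1 hx.2.2

theorem conn_nd (hb : b ∉ S) (hy : y ∉ S) (hyb : y ≠ b) (h3 : 3 ≤ S.card)
    (h : Conn3 (rkV K (cx w t b)) (insert b (insert y S))) : ¬ Deg w S t (w y) := by
  rintro ⟨s, hs, ⟨l, hl⟩, c, hc⟩
  have hsb : s ≠ b := fun e => hb (e ▸ hs)
  have hsy : s ≠ y := fun e => hy (e ▸ hs)
  obtain ⟨E', hE'⟩ : ∃ E' : Finset ℕ, E' = insert b (insert y S) := ⟨_, rfl⟩
  obtain ⟨Y, hY⟩ : ∃ Y : Finset ℕ, Y = {s, y, b} := ⟨_, rfl⟩
  rw [← hE'] at h
  have hYE : Y ⊆ E' := by
    rw [hY, hE']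
    intro x hx
    simp only [Finset.mem_insert, Finset.mem_singleton] at hx ⊢
    rcases hx with rfl | rfl | rfl
    · exact Or.inr (Or.inr hs)
    · exact Or.inr (Or.inl rfl)
    · exact Or.inl rfl
  have hYc : Y.card = 3 := by
    rw [hY]
    exact Finset.card_eq_three.2 ⟨s, y, b, hsy, hsb, hyb, rfl⟩
  have hd : E' \ Y = S.erase s := by
    rw [hE', hY]
    ext x
    simp only [Finset.mem_sdiff, Finset.mem_insert, Finset.mem_singleton, Finset.mem_erase, not_or]
    constructor
    · rintro ⟨h1, h2, h3, h4⟩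
      exact ⟨h2, (h1.resolve_left h4).resolve_left h3⟩
    · rintro ⟨h1, h2⟩
      exact ⟨Or.inr (Or.inr h2), h1, fun e => hy (e ▸ h2), fun e => hb (e ▸ h2)⟩
  have hdc : 2 ≤ (E' \ Y).card := by
    rw [hd, Finset.card_erase_of_mem hs]
    omega
  have h1 := (h.2 Y hYE (Finset.card_pos.1 (by omega)) (Finset.card_pos.1 (by omega))).2 (by omega) hdc
  unfold Pool.Agent.G4.lam at h1
  rw [hd] at h1
  have hwb : cx w t b b = (0, 1) := by simp [cx]
  have hwx : ∀ x, x ≠ b → cx w t b x = (w x, t x) := fun x hx => by simp [cx, hx]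
  -- the rank of the set of three elements
  have h2 : rkV K (cx w t b) Y ≤ 2 := by
    have h3 : Pool.Agent.BW.sp K (cx w t b) Y ≤ Pool.Agent.BW.sp K (cx w t b) {s, b} := by
      rw [spDef3, Submodule.span_le]
      rintro _ ⟨x, hx, rfl⟩
      rw [hY, Finset.mem_coe] at hx
      simp only [Finset.mem_insert, Finset.mem_singleton] at hx
      rcases hx with rfl | rfl | rfl
      · exact mem_sp3 _ (Finset.mem_insert_self _ _)
      · have e1 : cx w t b x = c • cx w t b s + (t x - c * t s) • cx w t b b := by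
          rw [hwb, hwx x hyb, hwx s hsb, hc]
          ext
          · simp
          · simp
        rw [e1]
        refine Submodule.add_mem _ (Submodule.smul_mem _ _ (mem_sp3 _ (Finset.mem_insert_self _ _)))
          (Submodule.smul_mem _ _ (mem_sp3 _ (Finset.mem_insert_of_mem (Finset.mem_singleton_self _))))
      · exact mem_sp3 _ (Finset.mem_insert_of_mem (Finset.mem_singleton_self _))
    have h4 := Submodule.finrank_mono h3
    have h5 := (Pool.Agent.BW.isRk_rkV (K := K) (cx w t b)).le_card {s, b}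
    rw [Finset.card_pair hsb] at h5
    unfold Pool.Agent.BW.rkV at h5 ⊢
    push_cast at h5
    omega
  -- the rank of the complement
  have h3 : rkV K (cx w t b) (S.erase s) + 1 ≤ rkV K (cx w t b) E' := by
    have h4 : Pool.Agent.BW.sp K (cx w t b) (S.erase s) < Pool.Agent.BW.sp K (cx w t b) E' := by
      refine lt_of_le_of_ne (Pool.Agent.BW.sp_mono _ (hd ▸ Finset.sdiff_subset)) fun e => ?_
      have h5 : cx w t b b ∈ Pool.Agent.BW.sp K (cx w t b) (S.erase s) := by
        rw [e]
        exact mem_sp3 _ (hE' ▸ Finset.mem_insert_self _ _)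
      have h6 := form_sp3 (l := LinearMap.snd K V K - l ∘ₗ LinearMap.fst K V K) (cx w t b) (F := S.erase s)
        (fun x hx => by
          rw [hwx x fun e => hb (e ▸ (Finset.mem_erase.1 hx).2)]
          simp only [LinearMap.sub_apply, LinearMap.snd_apply, LinearMap.comp_apply, LinearMap.fst_apply]
          rw [hl x (Finset.mem_erase.1 hx).2 (Finset.mem_erase.1 hx).1, sub_self]) h5
      rw [hwb] at h6
      simp only [LinearMap.sub_apply, LinearMap.snd_apply, LinearMap.comp_apply, LinearMap.fst_apply, map_zero,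
        sub_zero] at h6
      exact one_ne_zero h6
    have h5 := Submodule.finrank_lt_finrank_of_lt h4
    unfold Pool.Agent.BW.rkV
    omega
  omega

end

variable {K : Type} [Field K] {X : Oracle} {E B S : List ℕ} {u u' : ℕ → ℕ → K} {R : Finset ℕ}
  {c : ℕ}

theorem rkM_ctr (h : Rp X E B u) (hS : S.Sublist E) {A : Finset ℕ} (hA : A ⊆ S.toFinset) :
    rkM u B S A = ctr (rkV K u) (dif B S).toFinset A := by
  obtain ⟨R, hR⟩ : ∃ R : Finset ℕ, R = (nor B S).toFinset := ⟨_, rfl⟩
  obtain ⟨C, hC⟩ : ∃ C : Finset ℕ, C = (dif B S).toFinset := ⟨_, rfl⟩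
  have mR : ∀ i, i ∈ R ↔ i ∈ B ∧ i ∈ S := by
    intro i
    rw [hR]
    simp [Pool.Agent.G4.nor]
  have mC : ∀ i, i ∈ C ↔ i ∈ B ∧ i ∉ S := by
    intro i
    rw [hC]
    simp [Pool.Agent.G4.dif]
  unfold rkM Pool.Agent.G4.ctr
  rw [← hR, ← hC]
  obtain ⟨π, hπ⟩ : ∃ π : (ℕ → K) →ₗ[K] (R → K), ∀ f i, π f i = f i :=
    ⟨LinearMap.funLeft K K (fun i : R => (i : ℕ)), fun f i => rfl⟩
  have hπu : ∀ s, π (u s) = cf u R s := by
    intro s
    funext i
    exact hπ (u s) i
  have e1 : Pool.Agent.BW.sp K (cf u R) A = Submodule.map π (Pool.Agent.BW.sp K u A) := by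
    rw [spDef3, spDef3, Submodule.map_span, ← Set.image_comp]
    congr 2
    funext s
    exact (hπu s).symm
  have e2 : Submodule.map π (Pool.Agent.BW.sp K u C) = ⊥ := by
    rw [eq_bot_iff, Submodule.map_le_iff_le_comap, spDef3, Submodule.span_le]
    rintro _ ⟨c, hc, rfl⟩
    obtain ⟨hcB, hcS⟩ := (mC c).1 hc
    show π (u c) ∈ (⊥ : Submodule K (R → K))
    rw [Submodule.mem_bot]
    funext i
    rw [hπ, h.unit c hcB, if_neg]
    · rfl
    · intro e
      exact hcS (e ▸ ((mR i).1 i.2).2)
  have e3 : Submodule.map π (Pool.Agent.BW.sp K u (C ∪ A)) = Submodule.map π (Pool.Agent.BW.sp K u A) := by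
    rw [Pool.Agent.BW.sp_union, Submodule.map_sup, e2, bot_sup_eq]
  have e4 : LinearMap.ker (π.domRestrict (Pool.Agent.BW.sp K u (C ∪ A))) =
      Submodule.comap (Pool.Agent.BW.sp K u (C ∪ A)).subtype (Pool.Agent.BW.sp K u C) := by
    ext x
    rw [LinearMap.mem_ker, LinearMap.domRestrict_apply, Submodule.mem_comap, Submodule.subtype_apply]
    constructor
    · intro hx
      have h1 : ∀ i, i ∉ B → (x : ℕ → K) i = 0 := by
        intro i hi
        have h2 := form_sp3 (l := LinearMap.proj i) u (F := C ∪ A) (fun s _ => h.sup s i hi) x.2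
        exact h2
      have h2 : ∀ i, i ∉ C → (x : ℕ → K) i = 0 := by
        intro i hi
        by_cases hB : i ∈ B
        · have h3 : i ∈ R := by
            rw [mR]
            refine ⟨hB, ?_⟩
            by_contra h4
            exact hi ((mC i).2 ⟨hB, h4⟩)
          have h4 := congrFun hx ⟨i, h3⟩
          rw [hπ] at h4
          exact h4
        · exact h1 i hB
      have h3 : (x : ℕ → K) = ∑ c ∈ C, (x : ℕ → K) c • u c := by
        funext i
        rw [Finset.sum_apply]
        have h4 : ∀ c ∈ C, ((x : ℕ → K) c • u c) i = if i = c then (x : ℕ → K) c else 0 := by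
          intro c hc
          rw [Pi.smul_apply, h.unit c ((mC c).1 hc).1, smul_eq_mul, mul_ite, mul_one, mul_zero]
        rw [Finset.sum_congr rfl h4, Finset.sum_ite_eq]
        by_cases hi : i ∈ C
        · rw [if_pos hi]
        · rw [if_neg hi, h2 i hi]
      rw [h3]
      exact Submodule.sum_mem _ fun c hc => Submodule.smul_mem _ _ (mem_sp3 u hc)
    · intro hx
      have h1 : π (x : ℕ → K) ∈ Submodule.map π (Pool.Agent.BW.sp K u C) := Submodule.mem_map_of_mem hx
      rw [e2, Submodule.mem_bot] at h1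
      exact h1
  have h1 := LinearMap.finrank_range_add_finrank_ker (π.domRestrict (Pool.Agent.BW.sp K u (C ∪ A)))
  rw [e4, LinearMap.range_domRestrict, e3, ← e1, (Submodule.comapSubtypeEquivOfLe
    (Pool.Agent.BW.sp_mono u (Finset.subset_union_left : C ⊆ C ∪ A))).finrank_eq] at h1
  unfold Pool.Agent.BW.rkV
  omega

theorem cf_insert (hc : c ∉ R) (hu : ∀ i, u c i = if i = c then 1 else 0) :
    ∃ Φ : (↥(insert c R : Finset ℕ) → K) ≃ₗ[K] (R → K) × K,
      ∀ s, Φ (cf u (insert c R) s) = cx (cf u R) (fun s => u s c) c s := by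
  classical
  refine ⟨{ toFun := fun f => (fun i => f ⟨i, Finset.mem_insert_of_mem i.2⟩, f ⟨c, Finset.mem_insert_self c R⟩)
            map_add' := fun f g => rfl
            map_smul' := fun x f => rfl
            invFun := fun g j => if h : (j : ℕ) = c then g.2 else
              g.1 ⟨j, (Finset.mem_insert.1 j.2).resolve_left h⟩
            left_inv := fun f => ?_
            right_inv := fun g => ?_ }, fun s => ?_⟩
  · funext j
    by_cases h : (j : ℕ) = c
    · show (if h : (j : ℕ) = c then f ⟨c, Finset.mem_insert_self c R⟩ else _) = f j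
      rw [dif_pos h]
      exact congrArg f (Subtype.ext h.symm)
    · show (if h : (j : ℕ) = c then _ else f ⟨j, _⟩) = f j
      rw [dif_neg h]
  · refine Prod.ext ?_ ?_
    · funext i
      show (if h : (i : ℕ) = c then g.2 else g.1 ⟨i, _⟩) = g.1 i
      have hic : (i : ℕ) ≠ c := fun e => hc (e ▸ i.2)
      rw [dif_neg hic]
    · show (if h : c = c then g.2 else _) = g.2
      rw [dif_pos rfl]
  · show ((fun i : R => u s i, u s c) : (R → K) × K) = cx (cf u R) (fun s => u s c) c s
    unfold cx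
    by_cases h : s = c
    · rw [if_pos h, h]
      refine Prod.ext ?_ ?_
      · funext i
        show u c i = 0
        have hic : (i : ℕ) ≠ c := fun e => hc (e ▸ i.2)
        rw [hu, if_neg hic]
      · show u c c = 1
        rw [hu, if_pos rfl]
    · rw [if_neg h]
      rfl

theorem cf_span {S : Finset ℕ} (hR : R ⊆ S) (hu : ∀ b ∈ R, ∀ i, u b i = if i = b then 1 else 0)
    (l : Dual K (R → K)) (hl : ∀ s ∈ S, l (cf u R s) = 0) : l = 0 := by
  classical
  refine LinearMap.pi_ext fun b x => ?_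
  have h1 : cf u R b = Pi.single b (1 : K) := by
    funext i
    show u b i = _
    rw [hu b b.2, Pi.single_apply]
    by_cases hi : i = b
    · rw [if_pos hi, if_pos (congrArg Subtype.val hi)]
    · rw [if_neg hi, if_neg fun e => hi (Subtype.ext e)]
  have h2 : (Pi.single b x : R → K) = x • Pi.single b (1 : K) := by
    rw [← Pi.single_smul, smul_eq_mul, mul_one]
  rw [h2, map_smul, ← h1, hl b (hR b.2), smul_zero, LinearMap.zero_apply]

end Pool.Agent.PM
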