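import Pool.Agent.PM.Q0

set_option autoImplicit false

/-!
# Module Q2: a pair, special case: circuits
-/

namespace Pool.Agent.PM

open Module

variable {K V : Type} [Field K] [AddCommGroup V] [Module K V] {w : ℕ → V} {S : Finset ℕ}
  {L Ls : Set (Finset ℕ × ℕ)} {Bs : Set (Finset ℕ)} {a b y f : ℕ} {t : ℕ → K}

/-- the linear form with the components `m` and `n` -/
private def fm (m : Dual K V) (n : K) : Dual K (V × K) :=
  m ∘ₗ LinearMap.fst K V K + n • LinearMap.snd K V K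

private theorem fm_apply (m : Dual K V) (n : K) (v : V) (x : K) : fm m n (v, x) = m v + n * x := by
  simp [fm]

omit [Module K V] in
private theorem cx_ne {s : ℕ} (hs : s ≠ b) : cx w t b s = (w s, t s) := by
  simp [cx, hs]

omit [Module K V] in
private theorem cx_self : cx w t b b = (0, 1) := by
  simp [cx]

private theorem fm_vals {P T : Finset ℕ} {m : Dual K V} {u : ℕ → K} (hP : P ⊆ insert b T)
    (hub : u b = 0) (hm : ∀ s ∈ T, m (w s) = u s) : ∀ s ∈ P, fm m 0 (cx w t b s) = u s := by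
  intro s hs
  by_cases hsb : s = b
  · rw [hsb, cx_self, fm_apply, map_zero, hub]; ring
  · rw [cx_ne hsb, fm_apply, hm s ((Finset.mem_insert.1 (hP hs)).resolve_left hsb)]; ring

private theorem up (h : PU K w S L Ls Bs a b y t) {u₁ u₂ : ℕ → K} (h1 : u₁ b = 0) (h2 : u₂ b = 0)
    {T : Finset ℕ} {x : ℕ} (hTx : (T, x) ∈ Ls) (hT : T ⊆ S) (hx : x ∈ S) (hxT : x ∉ T)
    (hB : IsB K w T) {l₁ l₂ : Dual K V} (h3 : ∀ s ∈ T, l₁ (w s) = u₁ s) (h4 : l₁ (w x) = u₁ x)
    (h5 : ∀ s ∈ T, l₂ (w s) = u₂ s) (h6 : l₂ (w x) ≠ u₂ x) :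
    ∃ T x, (T, x) ∈ exS y (coS b Ls) (coB b Ls Bs) ∧ T ⊆ insert b (insert y S) ∧
      x ∈ insert b (insert y S) ∧ x ∉ T ∧ IsB K (cx w t b) T ∧
      (∃ l : Dual K (V × K), (∀ s ∈ T, l (cx w t b s) = u₁ s) ∧ l (cx w t b x) = u₁ x) ∧
      ∃ l : Dual K (V × K), (∀ s ∈ T, l (cx w t b s) = u₂ s) ∧ l (cx w t b x) ≠ u₂ x := by
  have hbT : b ∉ T := fun hb => h.hb (hT hb)
  have hxb : x ≠ b := fun e => h.hb (e ▸ hx)
  refine ⟨insert b T, x, Or.inl ⟨T, x, hTx, rfl⟩,
    Finset.insert_subset_insert b (hT.trans (Finset.subset_insert _ _)),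
    Finset.mem_insert_of_mem (Finset.mem_insert_of_mem hx), ?_, hB.cx t hbT,
    ⟨fm l₁ 0, fm_vals (Finset.Subset.refl _) h1 h3, ?_⟩,
    ⟨fm l₂ 0, fm_vals (Finset.Subset.refl _) h2 h5, ?_⟩⟩
  · intro hm
    rcases Finset.mem_insert.1 hm with hm | hm
    · exact hxb hm
    · exact hxT hm
  · rw [cx_ne hxb, fm_apply, h4]; ring
  · rw [cx_ne hxb, fm_apply]
    intro e
    apply h6
    rw [← e]; ring

private theorem find (h : PU K w S L Ls Bs a b y t) {u : ℕ → K} (hub : u b = 0)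
    (hnl : ¬ Lin w S u) : ∃ P ∈ coB b Ls Bs, P ⊆ insert b S ∧ IsB K (cx w t b) P ∧
      ∃ F : Dual K (V × K), (∀ s ∈ P, F (cx w t b s) = u s) ∧ F (cx w t b y) = u y := by
  have key : ∀ T ∈ Bs, T ⊆ S → IsB K w T → ∀ m : Dual K V, (∀ s ∈ T, m (w s) = u s) →
      m (w y) = u y → ∃ P ∈ coB b Ls Bs, P ⊆ insert b S ∧ IsB K (cx w t b) P ∧
      ∃ F : Dual K (V × K), (∀ s ∈ P, F (cx w t b s) = u s) ∧ F (cx w t b y) = u y := by
    intro T hT hTS hB m hm hmy
    refine ⟨insert b T, Or.inl ⟨T, hT, rfl⟩, Finset.insert_subset_insert b hTS,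
      hB.cx t fun hb => h.hb (hTS hb), fm m 0, fm_vals (Finset.Subset.refl _) hub hm, ?_⟩
    rw [cx_ne h.hyb, fm_apply, hmy]; ring
  by_cases hd : Deg w S u (w y)
  · obtain ⟨f, hf, ⟨l₀, hl₀⟩, φ, hφ⟩ := hd
    have hfa : f ≠ a := by
      rintro rfl
      exact h.wya φ hφ
    have he : u f - l₀ (w f) ≠ 0 := by
      intro he
      apply hnl
      refine ⟨l₀, fun s hs => ?_⟩
      by_cases hsf : s = f
      · rw [hsf]; exact sub_eq_zero.1 he
      · exact hl₀ s hs hsf
    by_cases hde : u y - l₀ (w y) = φ * (u f - l₀ (w f))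
    · obtain ⟨T, hT, hTS, hB, hfT⟩ := (h.good.cx f hf).1
      obtain ⟨m, hm⟩ := hB.form u
      refine key T hT hTS hB m hm ?_
      have e1 : l₀ (w y) = φ * l₀ (w f) := by rw [hφ, map_smul, smul_eq_mul]
      have e2 : m (w y) = φ * u f := by rw [hφ, map_smul, smul_eq_mul, hm f hfT]
      rw [e2]
      rw [e1] at hde
      linear_combination -hde
    · obtain ⟨T, hT, _, hTS, hB, hfT, F, hF, hF1⟩ := h.circ (u := fun s => u s - l₀ (w s)) hf hfa he
        (fun s hs hsf => by rw [hl₀ s hs hsf, sub_self])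
        ((u y - l₀ (w y) - φ * (u f - l₀ (w f))) / t y)
      have hbT : b ∉ T := fun hb => h.hb (hTS hb)
      have hn : (u y - l₀ (w y) - φ * (u f - l₀ (w f))) / t y ≠ 0 :=
        div_ne_zero (sub_ne_zero.2 hde) h.ty
      have hfb : f ≠ b := fun e => h.hb (e ▸ hf)
      refine ⟨T, hT, hTS.trans (Finset.subset_insert _ _), hB, F + fm l₀ 0, ?_, ?_⟩
      · intro s hs
        have hsb : s ≠ b := fun e => hbT (e ▸ hs)
        rw [LinearMap.add_apply, hF s hs, cx_ne hsb, fm_apply]; ring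
      · have e1 := hF f (hfT hn)
        rw [cx_ne hfb, h.ts f hf hfa] at e1
        have e2 : (w y, t y) = φ • (w f, (0 : K)) + t y • ((0 : V), (1 : K)) := by
          ext
          · simp [hφ]
          · simp
        rw [LinearMap.add_apply, cx_ne h.hyb, fm_apply, e2, map_add, map_smul, map_smul, e1, hF1]
        simp only [smul_eq_mul]
        rw [mul_div_cancel₀ _ h.ty]
        ring
  · obtain ⟨T, hT, hTS, hB, m, hm, hmy⟩ := h.good.cb u (w y) h.wy hnl hd (u y)
    exact key T hT hTS hB m hm hmy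

private theorem core (h : PU K w S L Ls Bs a b y t) {u₁ u₂ : ℕ → K} (h1 : u₁ b = 0) (h2 : u₂ b = 0)
    (hI : Ind2 (cx w t b) (insert b (insert y S)) u₁ u₂) :
    ∃ T x, (T, x) ∈ exS y (coS b Ls) (coB b Ls Bs) ∧ T ⊆ insert b (insert y S) ∧
      x ∈ insert b (insert y S) ∧ x ∉ T ∧ IsB K (cx w t b) T ∧
      (∃ l : Dual K (V × K), (∀ s ∈ T, l (cx w t b s) = u₁ s) ∧ l (cx w t b x) = u₁ x) ∧
      ∃ l : Dual K (V × K), (∀ s ∈ T, l (cx w t b s) = u₂ s) ∧ l (cx w t b x) ≠ u₂ x := by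
  have hJ : ∀ (α β : K) (l : Dual K V), (∀ s ∈ S, α * u₁ s + β * u₂ s = l (w s)) →
      α * u₁ y + β * u₂ y = l (w y) → α = 0 ∧ β = 0 := by
    intro α β l hl hly
    refine hI α β ⟨fm l 0, fun s hs => ?_⟩
    refine (fm_vals (Finset.Subset.refl (insert b (insert y S))) (u := fun s =>
      α * u₁ s + β * u₂ s) ?_ ?_ s hs).symm
    · rw [h1, h2]; ring
    · intro x hx
      rcases Finset.mem_insert.1 hx with hx | hx
      · rw [hx]; exact hly.symm
      · exact (hl x hx).symm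
  by_cases hi : Ind2 w S u₁ u₂
  · obtain ⟨T, x, h3, h4, h5, h6, h7, ⟨l, h8, h9⟩, l', h10, h11⟩ := h.good.cs _ _ hi
    exact up h h1 h2 h3 h4 h5 h6 h7 h8 h9 h10 h11
  by_cases hl : Lin w S u₁
  · obtain ⟨l, hl⟩ := hl
    have hne : u₁ y - l (w y) ≠ 0 := by
      intro e
      have := (hJ 1 0 l (fun s hs => by rw [hl s hs]; ring)
        (by rw [sub_eq_zero.1 e]; ring)).1
      exact one_ne_zero this
    have hnl : ¬ Lin w S u₂ := by
      rintro ⟨l₂, hl₂⟩
      have := (hJ (u₂ y - l₂ (w y)) (-(u₁ y - l (w y)))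
        ((u₂ y - l₂ (w y)) • l - (u₁ y - l (w y)) • l₂) (fun s hs => by
          rw [hl s hs, hl₂ s hs, LinearMap.sub_apply, LinearMap.smul_apply, LinearMap.smul_apply,
            smul_eq_mul, smul_eq_mul]
          ring) (by
          rw [LinearMap.sub_apply, LinearMap.smul_apply, LinearMap.smul_apply,
            smul_eq_mul, smul_eq_mul]
          ring)).2
      exact hne (neg_eq_zero.1 this)
    obtain ⟨T, x, h3, h4, h5, h6, h7, l', h8, h9⟩ := nonlin_circ h.good.cs h.cos h.two hnl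
    exact up h h1 h2 h3 h4 h5 h6 h7 (fun s hs => (hl s (h4 hs)).symm) (hl x h5).symm h8 h9
  · have hc : ∃ (c : K) (l : Dual K V), ∀ s ∈ S, u₂ s = c * u₁ s + l (w s) := by
      unfold Ind2 at hi
      push Not at hi
      obtain ⟨α, β, ⟨l₀, hl₀⟩, hαβ⟩ := hi
      have hβ : β ≠ 0 := by
        intro hβ
        have hα : α ≠ 0 := fun hα => hαβ hα hβ
        apply hl
        refine ⟨α⁻¹ • l₀, fun s hs => ?_⟩
        have := hl₀ s hs
        simp only at this
        rw [LinearMap.smul_apply, smul_eq_mul, ← this, hβ]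
        field_simp
        ring
      refine ⟨-(β⁻¹ * α), β⁻¹ • l₀, fun s hs => ?_⟩
      have := hl₀ s hs
      simp only at this
      rw [LinearMap.smul_apply, smul_eq_mul, ← this]
      field_simp
      ring
    obtain ⟨c, l, hcl⟩ := hc
    have hney : u₂ y ≠ c * u₁ y + l (w y) := by
      intro e
      have := (hJ (-c) 1 l (fun s hs => by rw [hcl s hs]; ring) (by rw [e]; ring)).2
      exact one_ne_zero this
    obtain ⟨P, hP, hPS, hB, F, hF, hFy⟩ := find h h1 hl
    have hyP : y ∉ P := by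
      intro hy
      rcases Finset.mem_insert.1 (hPS hy) with hy | hy
      · exact h.hyb hy
      · exact h.hy hy
    refine ⟨P, y, Or.inr ⟨P, hP, rfl⟩,
      hPS.trans (Finset.insert_subset_insert b (Finset.subset_insert _ _)),
      Finset.mem_insert_of_mem (Finset.mem_insert_self _ _), hyP, hB, ⟨F, hF, hFy⟩,
      c • F + fm l 0, ?_, ?_⟩
    · intro s hs
      rw [LinearMap.add_apply, LinearMap.smul_apply, hF s hs, smul_eq_mul]
      by_cases hsb : s = b
      · rw [hsb, cx_self, fm_apply, map_zero, h1, h2]; ring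
      · rw [cx_ne hsb, fm_apply, hcl s ((Finset.mem_insert.1 (hPS hs)).resolve_left hsb)]; ring
    · rw [LinearMap.add_apply, LinearMap.smul_apply, hFy, smul_eq_mul, cx_ne h.hyb, fm_apply]
      intro e
      apply hney
      rw [← e]; ring

theorem PU.cs (h : PU K w S L Ls Bs a b y t) :
    CS K (cx w t b) (insert b (insert y S)) (exS y (coS b Ls) (coB b Ls Bs)) := by
  intro t₁ t₂ hI
  have hsnd : ∀ s, LinearMap.snd K V K (cx w t b s) = (cx w t b s).2 := fun s => rfl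
  have hbb : (cx w t b b).2 = (1 : K) := by rw [cx_self]
  obtain ⟨T, x, h1, h2, h3, h4, h5, ⟨l₁, h6, h7⟩, l₂, h8, h9⟩ := core h
    (u₁ := fun s => t₁ s - t₁ b * (cx w t b s).2) (u₂ := fun s => t₂ s - t₂ b * (cx w t b s).2)
    (by rw [hbb]; ring) (by rw [hbb]; ring) (by
      rintro α β ⟨l, hl⟩
      refine hI α β ⟨l + (α * t₁ b + β * t₂ b) • LinearMap.snd K V K, fun s hs => ?_⟩
      have := hl s hs
      simp only at this
      rw [LinearMap.add_apply, LinearMap.smul_apply, smul_eq_mul, hsnd, ← this]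
      ring)
  refine ⟨T, x, h1, h2, h3, h4, h5, ⟨l₁ + t₁ b • LinearMap.snd K V K, ?_, ?_⟩,
    l₂ + t₂ b • LinearMap.snd K V K, ?_, ?_⟩
  · intro s hs
    rw [LinearMap.add_apply, LinearMap.smul_apply, smul_eq_mul, hsnd, h6 s hs]
    ring
  · rw [LinearMap.add_apply, LinearMap.smul_apply, smul_eq_mul, hsnd, h7]
    ring
  · intro s hs
    rw [LinearMap.add_apply, LinearMap.smul_apply, smul_eq_mul, hsnd, h8 s hs]
    ring
  · rw [LinearMap.add_apply, LinearMap.smul_apply, smul_eq_mul, hsnd]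
    intro e
    apply h9
    rw [← e]
    ring

end Pool.Agent.PM
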