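import Pool.Agent.PM.Q0

set_option autoImplicit false

/-!
# Module Q3: a pair, special case: bases, first part

`u : ℕ → K` with `u b = 0`; `S' = insert b (insert y S)`, `w' = cx w t b`.

`PU.cb_v0`: `v' = (0, 1)`. Want a basis such that the form `F` with the values `u` has `F (0, 1) = k`.
If `Ind2 w S u t`: `PU.circ'`. Otherwise `u = d t + l₀` on `S` (`t` is not linear, `PU.nonlin`). Let
`ε = u y - l₀ (w y) - d t y`; `ε ≠ 0`, since otherwise `u` agrees on `S'` outside `b` with `(v, x) ↦ l₀ v + d x`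
and `(u, (0, 1))` is degenerate. If `k = d`: `PU.circ0`. Otherwise let `q = t y - ε / (k - d)`; `q ≠ t y`. By `CB`
for `(t, w y)` (`PU.nonlin`, `PU.nd`) there is `T ∈ Bs` such that the form `m` with the values `t` on `T` has
`m (w y) = q`. The form with the values `u` on `T` is `g = d m + l₀`, and `PU.yT` with `n = k`:
`k (t y - q) = u y - d q - l₀ (w y)` since `u y = ε + l₀ (w y) + d t y` and `(k - d) (t y - q) = ε`. `F (0, 1) = n`.

`PU.cb_lin`: `u = 0` on `S`, `u y ≠ 0`, `v' = (v₀, s₀)`, `v₀ ≠ 0`, nondegenerate.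
(a) `v₀` not a multiple of `w y`: `PU.exB` with `X = v₀`, `e = u y`, and `PU.bT`.
(b) `v₀ = φ w y`, `φ ≠ 0`. Then `s' := s₀ - φ t y ≠ 0`, because otherwise `v' = φ w' y` and `u` is zero
outside `y`: degenerate. If `k = φ u y`: `PU.exB` with `X = w a` (not a multiple of `w y`) and any value, `PU.bT`.
Otherwise `n := (k - φ u y) / s' ≠ 0`, `q := t y - u y / n ≠ t y`; `CB` for `(t, w y)`: `T ∈ Bs`, `m (w y) = q`;
`PU.yT` with `g = 0`: `n (t y - q) = u y`. `F v' = φ F (w' y) + s' F (0, 1) = φ u y + s' n = k`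
(`F (w' y) = u y`).
-/

namespace Pool.Agent.PM

open Module

variable {K V : Type} [Field K] [AddCommGroup V] [Module K V] {w : ℕ → V} {S : Finset ℕ}
  {L Ls : Set (Finset ℕ × ℕ)} {Bs : Set (Finset ℕ)} {a b y f : ℕ} {t : ℕ → K}

omit [Module K V] in
private theorem cx_ne3 {w : ℕ → V} {s : ℕ} (hs : s ≠ b) : cx w t b s = (w s, t s) := by
  simp [cx, hs]

omit [Module K V] in
private theorem cx_self3 {w : ℕ → V} : cx w t b b = (0, 1) := by
  simp [cx]

theorem PU.cb_v0 (h : PU K w S L Ls Bs a b y t) {u : ℕ → K} (hub : u b = 0)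
    (hd : ¬ Deg (cx w t b) (insert b (insert y S)) u ((0, 1) : V × K)) (k : K) :
    Hit (cx w t b) (insert b (insert y S)) (coB b (exS y Ls Bs) (Pool.Agent.PM.exB y L Bs)) u
      ((0, 1) : V × K) k := by
  have hsub : S ⊆ insert b (insert y S) :=
    (Finset.subset_insert _ _).trans (Finset.subset_insert _ _)
  by_cases hI : Ind2 w S u t
  · obtain ⟨T, h1, h2, h3, F, h4, h5⟩ := h.circ' hI k
    exact ⟨T, h1, h2.trans hsub, h3, F, h4, h5⟩
  · unfold Ind2 at hI
    push Not at hI
    obtain ⟨α, β, ⟨l, hl⟩, hαβ⟩ := hI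
    have hα : α ≠ 0 := by
      intro hα
      have hβ : β ≠ 0 := hαβ hα
      apply h.nonlin
      refine ⟨β⁻¹ • l, fun s hs => ?_⟩
      have e := hl s hs
      simp only at e
      rw [hα] at e
      rw [LinearMap.smul_apply, smul_eq_mul, ← e]
      field_simp
      ring
    obtain ⟨d, l₀, hu⟩ : ∃ (d : K) (l₀ : Dual K V), ∀ s ∈ S, u s = d * t s + l₀ (w s) := by
      refine ⟨-(β / α), α⁻¹ • l, fun s hs => ?_⟩
      have e := hl s hs
      simp only at e
      rw [LinearMap.smul_apply, smul_eq_mul, ← e]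
      field_simp
      ring
    have hε : u y - l₀ (w y) - d * t y ≠ 0 := by
      intro hε
      apply hd
      refine ⟨b, Finset.mem_insert_self _ _,
        ⟨l₀ ∘ₗ LinearMap.fst K V K + d • LinearMap.snd K V K, fun x hx hxb => ?_⟩, 1, ?_⟩
      · rw [cx_ne3 hxb]
        simp only [LinearMap.add_apply, LinearMap.comp_apply, LinearMap.fst_apply,
          LinearMap.smul_apply, LinearMap.snd_apply, smul_eq_mul]
        rcases Finset.mem_insert.1 hx with hx | hx
        · exact absurd hx hxb
        · rcases Finset.mem_insert.1 hx with hx | hx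
          · rw [hx]; linear_combination hε
          · rw [hu x hx]; ring
      · rw [cx_self3, one_smul]
    by_cases hkd : k = d
    · obtain ⟨T, h1, h2, h3, -, F, h4, h5⟩ := h.circ0 hu
      exact ⟨T, h1, h2.trans hsub, h3, F, h4, h5.trans hkd.symm⟩
    · have hkd' : k - d ≠ 0 := sub_ne_zero.2 hkd
      obtain ⟨T, hT, hTS, hB, m, hm, hmy⟩ := h.good.cb t (w y) h.wy h.nonlin (h.nd h.wya)
        (t y - (u y - l₀ (w y) - d * t y) / (k - d))
      have h0 : m (w y) ≠ t y := by
        rw [hmy]
        intro e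
        have e2 : (u y - l₀ (w y) - d * t y) / (k - d) = 0 := by linear_combination -e
        rcases div_eq_zero_iff.1 e2 with e3 | e3
        · exact hε e3
        · exact hkd' e3
      have hg : ∀ s ∈ T, (d • m + l₀) (w s) = u s := by
        intro s hs
        rw [LinearMap.add_apply, LinearMap.smul_apply, smul_eq_mul, hm s hs, hu s (hTS hs)]
      have hn : k * (t y - m (w y)) = u y - (d • m + l₀) (w y) := by
        rw [LinearMap.add_apply, LinearMap.smul_apply, smul_eq_mul, hmy]
        field_simp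
        ring
      obtain ⟨h1, h2, F, h3, h4⟩ := h.yT hT hTS hB hm hg hn h0
      refine ⟨insert y T, h1,
        (Finset.insert_subset_insert y hTS).trans (Finset.subset_insert _ _), h2, F, h3, ?_⟩
      rw [h4, map_zero, map_zero]
      ring

theorem PU.cb_lin (h : PU K w S L Ls Bs a b y t) {u : ℕ → K} (hub : u b = 0)
    (hu : ∀ s ∈ S, u s = 0) (huy : u y ≠ 0) {v₀ : V} {s₀ : K} (hv : v₀ ≠ 0)
    (hd : ¬ Deg (cx w t b) (insert b (insert y S)) u (v₀, s₀)) (k : K) :
    Hit (cx w t b) (insert b (insert y S)) (coB b (exS y Ls Bs) (Pool.Agent.PM.exB y L Bs)) u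
      (v₀, s₀) k := by
  by_cases hX : ∀ c : K, v₀ ≠ c • w y
  · obtain ⟨T₀, h1, h2, h3, m, h4, h5, h6⟩ := h.exB hX huy k
    refine h.bT h2 (Finset.insert_subset_insert y h1) h3 ?_ hub h6
    intro s hs
    rcases Finset.mem_insert.1 hs with hs | hs
    · rw [hs, h5]
    · rw [h4 s hs, hu s (h1 hs)]
  · push Not at hX
    obtain ⟨φ, hφ⟩ := hX
    have hφ0 : φ ≠ 0 := by
      rintro rfl
      exact hv (by rw [hφ, zero_smul])
    have hs' : s₀ - φ * t y ≠ 0 := by
      intro e
      apply hd
      refine ⟨y, Finset.mem_insert_of_mem (Finset.mem_insert_self _ _), ⟨0, fun x hx hxy => ?_⟩,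
        φ, ?_⟩
      · rw [LinearMap.zero_apply]
        rcases Finset.mem_insert.1 hx with hx | hx
        · rw [hx, hub]
        · rcases Finset.mem_insert.1 hx with hx | hx
          · exact absurd hx hxy
          · exact hu x hx
      · rw [cx_ne3 h.hyb, hφ, Prod.smul_mk, smul_eq_mul]
        congr 1
        linear_combination e
    by_cases hk : k = φ * u y
    · have hX' : ∀ c : K, w a ≠ c • w y := by
        intro c hc
        have hc0 : c ≠ 0 := by
          rintro rfl
          exact (h.sim a h.ha).1 (by rw [hc, zero_smul])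
        apply h.wya c⁻¹
        rw [hc, smul_smul, inv_mul_cancel₀ hc0, one_smul]
      obtain ⟨T₀, h1, h2, h3, m, h4, h5, h6⟩ := h.exB hX' huy 0
      refine h.bT h2 (Finset.insert_subset_insert y h1) h3 (m := m) ?_ hub ?_
      · intro s hs
        rcases Finset.mem_insert.1 hs with hs | hs
        · rw [hs, h5]
        · rw [h4 s hs, hu s (h1 hs)]
      · rw [hφ, map_smul, smul_eq_mul, h5, hk]
    · have hn0 : (k - φ * u y) / (s₀ - φ * t y) ≠ 0 := div_ne_zero (sub_ne_zero.2 hk) hs'
      have hn1 : (k - φ * u y) / (s₀ - φ * t y) * (s₀ - φ * t y) = k - φ * u y :=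
        div_mul_cancel₀ _ hs'
      generalize (k - φ * u y) / (s₀ - φ * t y) = n at hn0 hn1
      obtain ⟨T, hT, hTS, hB, m, hm, hmy⟩ := h.good.cb t (w y) h.wy h.nonlin (h.nd h.wya)
        (t y - u y / n)
      have hmy2 : n * (t y - m (w y)) = u y := by
        rw [hmy]
        field_simp
        ring
      have h0 : m (w y) ≠ t y := by
        intro e
        rw [e, sub_self, mul_zero] at hmy2
        exact huy hmy2.symm
      have hg : ∀ s ∈ T, (0 : Dual K V) (w s) = u s := by
        intro s hs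
        rw [LinearMap.zero_apply, hu s (hTS hs)]
      have hn : n * (t y - m (w y)) = u y - (0 : Dual K V) (w y) := by
        rw [LinearMap.zero_apply, hmy2, sub_zero]
      obtain ⟨h1, h2, F, h3, h4⟩ := h.yT hT hTS hB hm hg hn h0
      refine ⟨insert y T, h1,
        (Finset.insert_subset_insert y hTS).trans (Finset.subset_insert _ _), h2, F, h3, ?_⟩
      rw [h4, hφ, map_smul, map_smul, LinearMap.zero_apply, smul_eq_mul, smul_eq_mul]
      linear_combination hn1 + φ * hmy2

end Pool.Agent.PM
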