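import Pool.Agent.PM.Q0

set_option autoImplicit false

/-!
# Module Q4: a pair, special case: bases, second part
-/

namespace Pool.Agent.PM

open Module

variable {K V : Type} [Field K] [AddCommGroup V] [Module K V] {w : ℕ → V} {S : Finset ℕ}
  {L Ls : Set (Finset ℕ × ℕ)} {Bs : Set (Finset ℕ)} {a b y f : ℕ} {t : ℕ → K}

private theorem basic (h : PU K w S L Ls Bs a b y t) {u : ℕ → K} (hub : u b = 0) (hf : f ∈ S)
    (hu : ∀ s ∈ S, s ≠ f → u s = 0) {s₁ k : K} (hk : k = u f ∨ k = 0) :
    Hit (cx w t b) (insert b (insert y S)) (coB b (exS y Ls Bs) (Pool.Agent.PM.exB y L Bs)) u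
      (w f, s₁) k := by
  rcases hk with hk | hk
  · obtain ⟨T, hT, hTS, hB, hfT⟩ := (h.good.cx f hf).1
    obtain ⟨m, hm⟩ := hB.form u
    exact h.bT (Or.inl hT) (hTS.trans (Finset.subset_insert _ _)) hB hm hub (by rw [hm f hfT, hk])
  · obtain ⟨T, hT, hTS, hB, hfT⟩ := (h.good.cx f hf).2
    refine h.bT (m := 0) (Or.inl hT) (hTS.trans (Finset.subset_insert _ _)) hB ?_ hub
      (by rw [hk]; rfl)
    intro s hs
    rw [LinearMap.zero_apply, hu s (hTS hs) (fun e => hfT (e ▸ hs))]

private theorem split_eq (F : Dual K (V × K)) (v : V) (x z : K) :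
    F (v, x) = F (v, z) + (x - z) * F (0, 1) := by
  have h1 : ((v, x) : V × K) = (v, z) + (x - z) • (0, 1) := by
    ext
    · simp
    · simp
  rw [h1, map_add, map_smul, smul_eq_mul]

private theorem cx_f (h : PU K w S L Ls Bs a b y t) (hf : f ∈ S) :
    cx w t b f = (w f, t f) := by
  have : f ≠ b := fun e => h.hb (e ▸ hf)
  simp [cx, this]

private theorem sub_S (T : Finset ℕ) (hT : T ⊆ S) : T ⊆ insert b (insert y S) :=
  hT.trans ((Finset.subset_insert _ _).trans (Finset.subset_insert _ _))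

private theorem circ_case (h : PU K w S L Ls Bs a b y t) {u : ℕ → K} (hf : f ∈ S) (hfa : f ≠ a)
    (hu : ∀ s ∈ S, s ≠ f → u s = 0) (huf : u f ≠ 0) {s₁ k : K} (hs : s₁ - t f ≠ 0)
    (hk : k ≠ u f) :
    Hit (cx w t b) (insert b (insert y S)) (coB b (exS y Ls Bs) (Pool.Agent.PM.exB y L Bs)) u
      (w f, s₁) k := by
  obtain ⟨T, -, hT, hTS, hB, hfT, F, hF, hF1⟩ := h.circ hf hfa huf hu ((k - u f) / (s₁ - t f))
  have hn : (k - u f) / (s₁ - t f) ≠ 0 := div_ne_zero (sub_ne_zero.2 hk) hs
  refine ⟨T, hT, sub_S T hTS, hB, F, hF, ?_⟩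
  rw [split_eq F (w f) s₁ (t f), ← cx_f h hf, hF f (hfT hn), hF1, mul_div_cancel₀ _ hs]
  ring

theorem PU.cb_a (h : PU K w S L Ls Bs a b y t) {u : ℕ → K} (hub : u b = 0) (hf : f ∈ S)
    (hu : ∀ s ∈ S, s ≠ f → u s = 0) (huf : u f ≠ 0) (huy : u y = 0) {s₁ : K}
    (hd : ¬ Deg (cx w t b) (insert b (insert y S)) u (w f, s₁)) (k : K) :
    Hit (cx w t b) (insert b (insert y S)) (coB b (exS y Ls Bs) (Pool.Agent.PM.exB y L Bs)) u
      (w f, s₁) k := by
  by_cases hk1 : k = u f ∨ k = 0
  · exact basic h hub hf hu hk1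
  rw [not_or] at hk1
  obtain ⟨hk1, hk0⟩ := hk1
  have hs : s₁ - t f ≠ 0 := by
    intro hs
    apply hd
    refine ⟨f, Finset.mem_insert_of_mem (Finset.mem_insert_of_mem hf), ⟨0, ?_⟩, 1, ?_⟩
    · intro x hx hxf
      rw [LinearMap.zero_apply]
      rcases Finset.mem_insert.1 hx with hx | hx
      · rw [hx, hub]
      · rcases Finset.mem_insert.1 hx with hx | hx
        · rw [hx, huy]
        · exact hu x hx hxf
    · rw [cx_f h hf, one_smul, sub_eq_zero.1 hs]
  by_cases hfa : f = a
  · subst hfa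
    have hta := h.ta
    have hty := h.ty
    set d := u f / t f with hdd
    have hdt : d * t f = u f := div_mul_cancel₀ _ hta
    have hd0 : d ≠ 0 := div_ne_zero huf hta
    have hud : ∀ s ∈ S, u s = d * t s := by
      intro s hs'
      by_cases hsf : s = f
      · rw [hsf, hdt]
      · rw [hu s hs' hsf, h.ts s hs' hsf, mul_zero]
    by_cases hk2 : k = u f + (s₁ - t f) * d
    · obtain ⟨T, hT, hTS, hB, hfT, F, hF, hF1⟩ := h.circ0 (u := u) (d := d) (l := 0)
        (fun s hs' => by rw [hud s hs', LinearMap.zero_apply, add_zero])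
      refine ⟨T, hT, sub_S T hTS, hB, F, hF, ?_⟩
      rw [split_eq F (w f) s₁ (t f), ← cx_f h hf, hF f hfT, hF1, hk2]
    · set n := (k - u f) / (s₁ - t f) with hn
      have hns : n * (s₁ - t f) = k - u f := div_mul_cancel₀ _ hs
      have hn0 : n ≠ 0 := div_ne_zero (sub_ne_zero.2 hk1) hs
      have hnd : n - d ≠ 0 := by
        intro h1
        apply hk2
        rw [← sub_eq_zero.1 h1]
        linear_combination -hns
      set q := n * t y / (n - d) with hq
      have hqn : q * (n - d) = n * t y := div_mul_cancel₀ _ hnd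
      have hq0 : q ≠ 0 := div_ne_zero (mul_ne_zero hn0 hty) hnd
      have hqy : q ≠ t y := by
        intro h1
        rw [h1] at hqn
        have : t y * d = 0 := by linear_combination -hqn
        rcases mul_eq_zero.1 this with h2 | h2
        · exact hty h2
        · exact hd0 h2
      obtain ⟨T, hT, hTS, hB, m, hm, hmy⟩ := h.good.cb t (w y) h.wy h.nonlin (h.nd h.wya) q
      have hfT : f ∈ T := by
        by_contra hfT
        have h0 : m = 0 := hB.eq fun s hs' => by
          rw [hm s hs', LinearMap.zero_apply, h.ts s (hTS hs') (fun e => hfT (e ▸ hs'))]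
        apply hq0
        rw [← hmy, h0, LinearMap.zero_apply]
      obtain ⟨hT', hB', F, hF, hF2⟩ := h.yT hT hTS hB (m := m) (g := d • m) (u := u) (n := n) hm
        (fun s hs' => by rw [LinearMap.smul_apply, smul_eq_mul, hm s hs', hud s (hTS hs')])
        (by rw [LinearMap.smul_apply, smul_eq_mul, hmy, huy]; linear_combination -hqn)
        (by rw [hmy]; exact hqy)
      refine ⟨insert y T, hT', ?_, hB', F, hF, ?_⟩
      · exact (Finset.insert_subset_insert y hTS).trans (Finset.subset_insert _ _)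
      · rw [hF2, LinearMap.smul_apply, smul_eq_mul, hm f hfT]
        linear_combination hdt + hns
  · exact circ_case h hf hfa hu huf hs hk1

theorem PU.cb_b (h : PU K w S L Ls Bs a b y t) {u : ℕ → K} (hub : u b = 0) (hf : f ∈ S)
    (hu : ∀ s ∈ S, s ≠ f → u s = 0) (huf : u f ≠ 0) (huy : u y ≠ 0) {s₁ : K} (k : K) :
    Hit (cx w t b) (insert b (insert y S)) (coB b (exS y Ls Bs) (Pool.Agent.PM.exB y L Bs)) u
      (w f, s₁) k := by
  by_cases hk1 : k = u f ∨ k = 0
  · exact basic h hub hf hu hk1
  rw [not_or] at hk1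
  obtain ⟨hk1, hk0⟩ := hk1
  -- bases containing y and not f
  have key : ∀ T₀ : Finset ℕ, T₀ ⊆ S → insert y T₀ ∈ Pool.Agent.PM.exB y L Bs →
      IsB K w (insert y T₀) → ∀ m : Dual K V, (∀ s ∈ T₀, m (w s) = 0) → m (w y) = u y →
      m (w f) = k →
      Hit (cx w t b) (insert b (insert y S)) (coB b (exS y Ls Bs) (Pool.Agent.PM.exB y L Bs)) u
        (w f, s₁) k := by
    intro T₀ hT₀ hT hB m hm0 hmy hmf
    have hfT : f ∉ T₀ := by
      intro hfT
      apply hk0
      rw [← hmf, hm0 f hfT]
    refine h.bT hT (Finset.insert_subset_insert y hT₀) hB (m := m) ?_ hub hmf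
    intro s hs
    rcases Finset.mem_insert.1 hs with hs | hs
    · rw [hs, hmy]
    · rw [hm0 s hs, hu s (hT₀ hs) (fun e => hfT (e ▸ hs))]
  by_cases hfy : ∀ c : K, w f ≠ c • w y
  · obtain ⟨T₀, hT₀, hT, hB, m, hm0, hmy, hmf⟩ := h.exB hfy huy k
    exact key T₀ hT₀ hT hB m hm0 hmy hmf
  · push Not at hfy
    obtain ⟨c, hc⟩ := hfy
    have hc0 : c ≠ 0 := by
      rintro rfl
      rw [zero_smul] at hc
      exact (h.sim f hf).1 hc
    have hyf : w y = c⁻¹ • w f := by rw [hc, smul_smul, inv_mul_cancel₀ hc0, one_smul]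
    set ψ := c⁻¹ with hψ
    have hψ0 : ψ ≠ 0 := inv_ne_zero hc0
    have hfa : f ≠ a := by
      rintro rfl
      exact h.wya ψ hyf
    have htf : t f = 0 := h.ts f hf hfa
    by_cases hs1 : s₁ = 0
    · subst hs1
      have hty := h.ty
      by_cases hk2 : k = u y / ψ
      · have hay : ∀ c' : K, w a ≠ c' • w y := by
          intro c' hc'
          have hc'0 : c' ≠ 0 := by
            rintro rfl
            rw [zero_smul] at hc'
            exact (h.sim a h.ha).1 hc'
          apply h.wya c'⁻¹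
          rw [hc', smul_smul, inv_mul_cancel₀ hc'0, one_smul]
        obtain ⟨T₀, hT₀, hT, hB, m, hm0, hmy, -⟩ := h.exB hay huy 0
        refine key T₀ hT₀ hT hB m hm0 hmy ?_
        rw [hyf, map_smul, smul_eq_mul] at hmy
        rw [hk2, ← hmy, mul_div_cancel_left₀ _ hψ0]
      · have hden : k * ψ - u y ≠ 0 := by
          intro h1
          apply hk2
          rw [eq_div_iff hψ0]
          linear_combination h1
        set q := k * t y / (k * ψ - u y) with hq
        have hqd : q * (k * ψ - u y) = k * t y := div_mul_cancel₀ _ hden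
        have hq0 : q ≠ 0 := div_ne_zero (mul_ne_zero hk0 hty) hden
        have hty2 : t y - ψ * q ≠ 0 := by
          intro h1
          have h2 : u y * t y = 0 := by
            have h3 : t y * (k * ψ - u y) = ψ * (k * t y) := by
              rw [← hqd]
              linear_combination (k * ψ - u y) * h1
            linear_combination -h3
          rcases mul_eq_zero.1 h2 with h3 | h3
          · exact huy h3
          · exact hty h3
        obtain ⟨T, hT, hTS, hB, m, hm, hmf⟩ := h.good.cb t (w f) (h.sim f hf).1 h.nonlin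
          (h.nd fun c' => (h.sim f hf).2 a h.ha (fun e => hfa e.symm) c') q
        have hfT : f ∉ T := by
          intro hfT
          apply hq0
          rw [← hmf, hm f hfT, htf]
        have hmy : m (w y) = ψ * q := by rw [hyf, map_smul, smul_eq_mul, hmf]
        obtain ⟨hT', hB', F, hF, hF2⟩ := h.yT hT hTS hB (m := m) (g := 0) (u := u)
          (n := u y / (t y - ψ * q)) hm
          (fun s hs' => by
            rw [LinearMap.zero_apply, hu s (hTS hs') (fun e => hfT (e ▸ hs'))])
          (by rw [hmy, div_mul_cancel₀ _ hty2, LinearMap.zero_apply, sub_zero])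
          (by rw [hmy]; exact fun e => hty2 (by rw [e, sub_self]))
        refine ⟨insert y T, hT', ?_, hB', F, hF, ?_⟩
        · exact (Finset.insert_subset_insert y hTS).trans (Finset.subset_insert _ _)
        · rw [hF2, LinearMap.zero_apply, hmf, mul_zero, add_zero, zero_sub]
          have h4 : -(u y * q) = k * (t y - ψ * q) := by linear_combination hqd
          rw [div_mul_eq_mul_div, ← neg_div, h4, mul_div_cancel_right₀ _ hty2]
    · exact circ_case h hf hfa hu huf (by rw [htf, sub_zero]; exact hs1) hk1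

end Pool.Agent.PM
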