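import Pool.Agent.PM.Q1
import Pool.Agent.PM.Q2
import Pool.Agent.PM.Q3
import Pool.Agent.PM.Q4

set_option autoImplicit false

/-!
# Module Q5: a pair, special case: conclusion
-/

namespace Pool.Agent.PM

open Module

variable {K V : Type} [Field K] [AddCommGroup V] [Module K V] {w : ℕ → V} {S : Finset ℕ}
  {L Ls : Set (Finset ℕ × ℕ)} {Bs : Set (Finset ℕ)} {a b y f : ℕ} {t : ℕ → K}

private theorem lin_sub {u : ℕ → K} (l : Dual K V) (h : Lin w S (fun s => u s - l (w s))) :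
    Lin w S u := by
  obtain ⟨m, hm⟩ := h
  refine ⟨m + l, fun s hs => ?_⟩
  rw [LinearMap.add_apply, ← hm s hs]
  ring

private theorem deg_sub {u : ℕ → K} {v : V} (l : Dual K V)
    (h : Deg w S (fun s => u s - l (w s)) v) : Deg w S u v := by
  obtain ⟨s, hs, ⟨m, hm⟩, c, hc⟩ := h
  refine ⟨s, hs, ⟨m + l, fun x hx hxs => ?_⟩, c, hc⟩
  rw [LinearMap.add_apply, ← hm x hx hxs]
  ring

private theorem deg_smul {u : ℕ → K} {v : V} (d : K) (h : Deg w S u v) : Deg w S u (d • v) := by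
  obtain ⟨s, hs, hm, c, hc⟩ := h
  exact ⟨s, hs, hm, d * c, by rw [hc, smul_smul]⟩

omit [Module K V] in
private theorem cx_ne5 {s : ℕ} (hs : s ≠ b) : cx w t b s = (w s, t s) := by
  simp [cx, hs]

omit [Module K V] in
private theorem cx_self5 : cx w t b b = (0, 1) := by
  simp [cx]

private theorem core (h : PU K w S L Ls Bs a b y t) {u : ℕ → K} (hub : u b = 0) {v₀ : V} {s₀ : K}
    (hv : (v₀, s₀) ≠ (0 : V × K)) (hlin : ¬ Lin (cx w t b) (insert b (insert y S)) u)
    (hd : ¬ Deg (cx w t b) (insert b (insert y S)) u (v₀, s₀)) (k : K) :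
    Hit (cx w t b) (insert b (insert y S)) (coB b (exS y Ls Bs) (Pool.Agent.PM.exB y L Bs)) u
      (v₀, s₀) k := by
  by_cases hv0 : v₀ = 0
  · have hs0 : s₀ ≠ 0 := fun e => hv (by rw [hv0, e]; rfl)
    have e : ((v₀, s₀) : V × K) = s₀ • ((0, 1) : V × K) := by
      rw [Prod.smul_mk, smul_zero, smul_eq_mul, mul_one, hv0]
    rw [e]
    rw [e] at hd
    exact Hit.smul hs0 (h.cb_v0 hub (fun h1 => hd (deg_smul s₀ h1)) _)
  · by_cases hl : Lin w S u
    · obtain ⟨l₀, hl₀⟩ := hl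
      refine Hit.add (l₀ ∘ₗ LinearMap.fst K V K) ?_
      have e1 : ∀ s ∈ S, u s - (l₀ ∘ₗ LinearMap.fst K V K) (cx w t b s) = 0 := by
        intro s hs
        have hsb : s ≠ b := by
          rintro rfl
          exact h.hb hs
        rw [cx_ne5 hsb, hl₀ s hs]
        simp
      have e2 : u b - (l₀ ∘ₗ LinearMap.fst K V K) (cx w t b b) = 0 := by
        rw [cx_self5, hub]
        simp
      refine h.cb_lin e2 e1 ?_ hv0 (fun h1 => hd (deg_sub _ h1)) _
      intro e3
      apply hlin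
      refine lin_sub (l₀ ∘ₗ LinearMap.fst K V K) ⟨0, fun s hs => ?_⟩
      rw [LinearMap.zero_apply]
      rcases Finset.mem_insert.1 hs with rfl | hs
      · exact e2
      · rcases Finset.mem_insert.1 hs with rfl | hs
        · exact e3
        · exact e1 s hs
    · by_cases hdg : Deg w S u v₀
      · obtain ⟨f, hf, ⟨l₀, hl₀⟩, φ, hφ⟩ := hdg
        have hφ0 : φ ≠ 0 := by
          rintro rfl
          exact hv0 (by rw [hφ, zero_smul])
        refine Hit.add (l₀ ∘ₗ LinearMap.fst K V K) ?_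
        have e1 : ∀ s ∈ S, u s - (l₀ ∘ₗ LinearMap.fst K V K) (cx w t b s) = u s - l₀ (w s) := by
          intro s hs
          have hsb : s ≠ b := by
            rintro rfl
            exact h.hb hs
          rw [cx_ne5 hsb]
          simp
        have e2 : u b - (l₀ ∘ₗ LinearMap.fst K V K) (cx w t b b) = 0 := by
          rw [cx_self5, hub]
          simp
        have e3 : ∀ s ∈ S, s ≠ f → u s - (l₀ ∘ₗ LinearMap.fst K V K) (cx w t b s) = 0 := by
          intro s hs hsf
          rw [e1 s hs, hl₀ s hs hsf, sub_self]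
        have e4 : u f - (l₀ ∘ₗ LinearMap.fst K V K) (cx w t b f) ≠ 0 := by
          rw [e1 f hf]
          intro e4
          apply hl
          refine ⟨l₀, fun s hs => ?_⟩
          by_cases hsf : s = f
          · rw [hsf]
            exact sub_eq_zero.1 e4
          · exact hl₀ s hs hsf
        have e : ((v₀, s₀) : V × K) = φ • ((w f, s₀ / φ) : V × K) := by
          rw [Prod.smul_mk, smul_eq_mul, mul_div_cancel₀ _ hφ0, hφ]
        rw [e]
        rw [e] at hd
        refine Hit.smul hφ0 ?_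
        by_cases huy : u y - (l₀ ∘ₗ LinearMap.fst K V K) (cx w t b y) = 0
        · exact h.cb_a e2 hf e3 e4 huy (fun h1 => hd (deg_smul φ (deg_sub _ h1))) _
        · exact h.cb_b e2 hf e3 e4 huy _
      · obtain ⟨T, hT, hTS, hB, l, hl1, hl2⟩ := h.good.cb u v₀ hv0 hl hdg k
        exact h.bT (Or.inl hT) (hTS.trans (Finset.subset_insert _ _)) hB hl1 hub hl2

theorem PU.cb (h : PU K w S L Ls Bs a b y t) :
    CB K (cx w t b) (insert b (insert y S))
      (coB b (exS y Ls Bs) (Pool.Agent.PM.exB y L Bs)) := by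
  intro t₁ v hv hlin hd k
  obtain ⟨v₀, s₀⟩ := v
  refine Hit.add (t₁ b • LinearMap.snd K V K) ?_
  refine core h ?_ hv (fun h1 => hlin (lin_sub _ h1)) (fun h1 => hd (deg_sub _ h1)) _
  rw [cx_self5]
  simp

theorem PU.cx (h : PU K w S L Ls Bs a b y t) :
    CX K (Pool.Agent.PM.cx w t b) (insert b (insert y S))
      (coB b (exS y Ls Bs) (Pool.Agent.PM.exB y L Bs)) := by
  have hbT : ∀ T ∈ Pool.Agent.PM.exB y L Bs, T ⊆ insert y S → IsB K w T →
      insert b T ∈ coB b (exS y Ls Bs) (Pool.Agent.PM.exB y L Bs) ∧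
        insert b T ⊆ insert b (insert y S) ∧ IsB K (Pool.Agent.PM.cx w t b) (insert b T) := by
    intro T hT hTS hB
    have hb : b ∉ T := by
      intro hb
      rcases Finset.mem_insert.1 (hTS hb) with hb | hb
      · exact h.hyb hb.symm
      · exact h.hb hb
    exact ⟨Or.inl ⟨T, hT, rfl⟩, Finset.insert_subset_insert b hTS, hB.cx t hb⟩
  have hsub : S ⊆ insert y S := Finset.subset_insert _ _
  have hX : ∀ c : K, w a ≠ c • w y := by
    intro c hc
    have hc0 : c ≠ 0 := by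
      rintro rfl
      exact (h.sim a h.ha).1 (by rw [hc, zero_smul])
    apply h.wya c⁻¹
    rw [hc, smul_smul, inv_mul_cancel₀ hc0, one_smul]
  obtain ⟨T₁, hT₁, hT₁S, hB₁, _⟩ := (h.good.cx a h.ha).1
  obtain ⟨p1, p2, p3⟩ := hbT T₁ (Or.inl hT₁) (hT₁S.trans hsub) hB₁
  intro s hs
  rcases Finset.mem_insert.1 hs with rfl | hs
  · refine ⟨⟨_, p1, p2, p3, Finset.mem_insert_self _ _⟩, ?_⟩
    obtain ⟨T, h1, h2, h3, -, -⟩ := h.circ0 (u := t) (d := 1) (l := 0) fun s _ => by
      rw [one_mul, LinearMap.zero_apply, add_zero]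
    exact ⟨T, h1, (h2.trans hsub).trans (Finset.subset_insert _ _), h3, fun e => h.hb (h2 e)⟩
  · rcases Finset.mem_insert.1 hs with rfl | hs
    · refine ⟨?_, ⟨_, p1, p2, p3, ?_⟩⟩
      · obtain ⟨T₀, h1, h2, h3, -⟩ := h.exB hX (one_ne_zero (α := K)) 0
        obtain ⟨q1, q2, q3⟩ := hbT _ h2 (Finset.insert_subset_insert _ h1) h3
        exact ⟨_, q1, q2, q3, Finset.mem_insert_of_mem (Finset.mem_insert_self _ _)⟩
      · intro e
        rcases Finset.mem_insert.1 e with e | e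
        · exact h.hyb e
        · exact h.hy (hT₁S e)
    · have hsb : s ≠ b := fun e => h.hb (e ▸ hs)
      obtain ⟨⟨T, hT, hTS, hB, hsT⟩, ⟨T', hT', hTS', hB', hsT'⟩⟩ := h.good.cx s hs
      obtain ⟨q1, q2, q3⟩ := hbT T (Or.inl hT) (hTS.trans hsub) hB
      obtain ⟨r1, r2, r3⟩ := hbT T' (Or.inl hT') (hTS'.trans hsub) hB'
      refine ⟨⟨_, q1, q2, q3, Finset.mem_insert_of_mem hsT⟩, ⟨_, r1, r2, r3, ?_⟩⟩
      intro e
      rcases Finset.mem_insert.1 e with e | e
      · exact hsb e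
      · exact hsT' e

theorem PU.all (h : PU K w S L Ls Bs a b y t) :
    Good K (Pool.Agent.PM.cx w t b) (insert b (insert y S)) (coL b L (Pool.Agent.PM.exB y L Bs))
      (exS y (coS b Ls) (coB b Ls Bs)) (coB b (exS y Ls Bs) (Pool.Agent.PM.exB y L Bs)) :=
  ⟨h.ca, h.cs, h.cb, h.cx⟩

end Pool.Agent.PM
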