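import Pool.Agent.PM.L2
import Pool.Agent.PM.Q5

set_option autoImplicit false

/-!
# Module Q6: a pair, general case

Extension and coextension in one of the two orders, or the special case of Q5 after a linear equivalence.
-/

namespace Pool.Agent.PM

open Module

variable {K V : Type} [Field K] [AddCommGroup V] [Module K V] {w : ℕ → V} {S : Finset ℕ}
  {L Ls : Set (Finset ℕ × ℕ)} {Bs : Set (Finset ℕ)} {a b y f : ℕ} {t : ℕ → K}

omit [Module K V] in
private theorem q6_ne {s : ℕ} (hs : s ≠ b) : cx w t b s = (w s, t s) := by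
  simp [cx, hs]

omit [Module K V] in
private theorem q6_self : cx w t b b = (0, 1) := by
  simp [cx]

private theorem q6_cos (hc : Cos K w S) (h : S.Nonempty) {a' e' : ℕ} {m : Dual K V}
    (hm : ∀ s ∈ S, s ≠ a' → s ≠ e' → m (w s) = 0) : m = 0 := by
  obtain ⟨s₀, hs₀⟩ := h
  by_cases h1 : a' ∈ S <;> by_cases h2 : e' ∈ S
  · exact hc a' h1 e' h2 m hm
  · exact hc a' h1 a' h1 m fun s hs h3 _ => hm s hs h3 fun e => h2 (e ▸ hs)
  · exact hc e' h2 e' h2 m fun s hs h3 _ => hm s hs (fun e => h1 (e ▸ hs)) h3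
  · exact hc s₀ hs₀ s₀ hs₀ m fun s hs _ _ => hm s hs (fun e => h1 (e ▸ hs)) fun e => h2 (e ▸ hs)

private theorem q6_ca_mono {L' : Set (Finset ℕ × ℕ)} (h : L ⊆ L') (hL : CA K w S L) :
    CA K w S L' := by
  intro x v hx
  obtain ⟨T, z, h1, h2⟩ := hL x v hx
  exact ⟨T, z, h h1, h2⟩

private theorem q6_cs_mono {L' : Set (Finset ℕ × ℕ)} (h : L ⊆ L') (hL : CS K w S L) :
    CS K w S L' := by
  intro t t' ht
  obtain ⟨T, z, h1, h2⟩ := hL t t' ht
  exact ⟨T, z, h h1, h2⟩

private theorem q6_cb_mono {B' : Set (Finset ℕ)} (h : Bs ⊆ B') (hB : CB K w S Bs) :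
    CB K w S B' := by
  intro t v h1 h2 h3 k
  obtain ⟨T, h4, h5⟩ := hB t v h1 h2 h3 k
  exact ⟨T, h h4, h5⟩

private theorem q6_cx_mono {B' : Set (Finset ℕ)} (h : Bs ⊆ B') (hB : CX K w S Bs) :
    CX K w S B' := by
  intro s hs
  obtain ⟨⟨T, h1, h2⟩, T', h3, h4⟩ := hB s hs
  exact ⟨⟨T, h h1, h2⟩, T', h h3, h4⟩

/-- the linear equivalence `(v, x) ↦ (v, x - l v)` -/
private def q6_Phi (l : Dual K V) : (V × K) ≃ₗ[K] V × K where
  toFun p := (p.1, p.2 - l p.1)
  invFun p := (p.1, p.2 + l p.1)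
  map_add' p q := by
    rw [Prod.fst_add, Prod.snd_add, map_add, Prod.mk_add_mk]
    congr 1
    ring
  map_smul' c p := by
    rw [Prod.smul_fst, Prod.smul_snd, map_smul, RingHom.id_apply, Prod.smul_mk, smul_sub]
  left_inv p := by
    simp
  right_inv p := by
    simp

theorem pair_good (hG : Good K w S L Ls Bs) (hL : ∀ p ∈ L, p.1 ⊆ S ∧ p.2 ∈ p.1)
    (hLs : ∀ p ∈ Ls, p.1 ⊆ S) (hBs : ∀ T ∈ Bs, T ⊆ S) (hy : y ∉ S) (hb : b ∉ S) (hyb : y ≠ b)
    (hs : Sim K w S) (hc : Cos K w S) (h2 : 2 ≤ S.card)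
    (hs' : Sim K (cx w t b) (insert b (insert y S)))
    (hc' : Cos K (cx w t b) (insert b (insert y S))) (hnd : ¬ Deg w S t (w y)) :
    Good K (cx w t b) (insert b (insert y S)) (coL b L (exB y L Bs))
      (exS y (coS b Ls) (coB b Ls Bs)) (coB b (exS y Ls Bs) (exB y L Bs)) := by
  classical
  have hSne : S.Nonempty := Finset.card_pos.1 (by omega)
  have hwb : cx w t b b = (0, 1) := q6_self
  have hwy' : cx w t b y = (w y, t y) := q6_ne hyb
  have hbS' : b ∈ insert b (insert y S) := Finset.mem_insert_self _ _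
  have hyS' : y ∈ insert b (insert y S) :=
    Finset.mem_insert_of_mem (Finset.mem_insert_self _ _)
  have hSS' : ∀ s ∈ S, s ∈ insert b (insert y S) := fun s hs =>
    Finset.mem_insert_of_mem (Finset.mem_insert_of_mem hs)
  have hwy : w y ≠ 0 := by
    intro h0
    apply (hs' y hyS').2 b hbS' hyb.symm (t y)
    rw [hwb, hwy', h0, Prod.smul_mk, smul_zero, smul_eq_mul, mul_one]
  have hbT : ∀ T ⊆ S, b ∉ T := fun T hT hbT => hb (hT hbT)
  by_cases h1 : ∀ s ∈ S, ∀ c : K, w y ≠ c • w s
  · have hsim : Sim K w (insert y S) := by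
      intro a ha
      rcases Finset.mem_insert.1 ha with hay | haS
      · rw [hay]
        refine ⟨hwy, fun e he hea c => ?_⟩
        rcases Finset.mem_insert.1 he with hey | heS
        · exact absurd hey hea
        · exact h1 e heS c
      · refine ⟨(hs a haS).1, fun e he hea c => ?_⟩
        rcases Finset.mem_insert.1 he with hey | heS
        · intro h3
          rw [hey] at h3
          have hc0 : c ≠ 0 := by
            rintro rfl
            rw [zero_smul] at h3
            exact (hs a haS).1 h3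
          apply h1 a haS c⁻¹
          rw [h3, smul_smul, inv_mul_cancel₀ hc0, one_smul]
        · exact (hs a haS).2 e heS hea c
    have hG1 := ext_good hG hy hsim hc h2
    have hcos : Cos K w (insert y S) := by
      intro a _ e _ l hl
      exact q6_cos hc hSne fun s hs h3 h4 => hl s (Finset.mem_insert_of_mem hs) h3 h4
    have hby : b ∉ insert y S := by
      rw [Finset.mem_insert]
      rintro (h3 | h3)
      · exact hyb h3.symm
      · exact hb h3
    have hG2 := coext_good hG1 hby hc' hsim hcos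
      (h2.trans (Finset.card_le_card (Finset.subset_insert _ _)))
    refine ⟨hG2.ca, q6_cs_mono ?_ hG2.cs, hG2.cb, hG2.cx⟩
    rintro p ⟨T, x, h3, rfl⟩
    rcases h3 with h3 | ⟨T', h3, h4⟩
    · exact Or.inl ⟨T, x, h3, rfl⟩
    · rw [Prod.mk.injEq] at h4
      rw [h4.1, h4.2]
      exact Or.inr ⟨insert b T', Or.inl ⟨T', h3, rfl⟩, rfl⟩
  by_cases h3 : ∀ s ∈ S, ∀ l : Dual K V, ¬ ∀ x ∈ S, x ≠ s → t x = l (w x)
  · have hcos : Cos K (cx w t b) (insert b S) := by
      intro a' _ e' _ F hF
      obtain ⟨m, n, hmn⟩ := dual_prod F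
      have hS : ∀ s ∈ S, s ≠ a' → s ≠ e' → m (w s) + n * t s = 0 := by
        intro s hs h4 h5
        have h6 := hF s (Finset.mem_insert_of_mem hs) h4 h5
        have h7 : s ≠ b := fun e => hb (e ▸ hs)
        rwa [q6_ne h7, hmn] at h6
      by_cases hn : n = 0
      · have hm : m = 0 := q6_cos hc hSne fun s hs h4 h5 => by
          have h6 := hS s hs h4 h5
          rwa [hn, zero_mul, add_zero] at h6
        apply LinearMap.ext
        rintro ⟨v, x⟩
        rw [hmn, hm, hn, LinearMap.zero_apply, LinearMap.zero_apply, zero_mul, add_zero]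
      · exfalso
        have hb1 : b = a' ∨ b = e' := by
          by_contra hcon
          rw [not_or] at hcon
          have h6 := hF b (Finset.mem_insert_self _ _) hcon.1 hcon.2
          rw [hwb, hmn, map_zero, zero_add, mul_one] at h6
          exact hn h6
        obtain ⟨o, ho⟩ : ∃ o, ∀ s ∈ S, s ≠ o → t s = (-(n⁻¹) • m) (w s) := by
          have h6 : ∀ s, m (w s) + n * t s = 0 → t s = (-(n⁻¹) • m) (w s) := by
            intro s h7
            rw [LinearMap.smul_apply, smul_eq_mul]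
            have h8 : m (w s) = -(n * t s) := by linear_combination h7
            rw [h8]
            field_simp
          rcases hb1 with h7 | h7
          · exact ⟨e', fun s hs h8 => h6 s (hS s hs (fun e => hb (by rw [h7, ← e]; exact hs)) h8)⟩
          · exact ⟨a', fun s hs h8 => h6 s (hS s hs h8 (fun e => hb (by rw [h7, ← e]; exact hs)))⟩
        by_cases hoS : o ∈ S
        · exact h3 o hoS _ ho
        · obtain ⟨s, hs⟩ := hSne
          exact h3 s hs _ fun x hx _ => ho x hx fun e => hoS (e ▸ hx)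
    have hG1 := coext_good hG hb hcos hs hc h2
    have hyb' : y ∉ insert b S := by
      rw [Finset.mem_insert]
      rintro (h4 | h4)
      · exact hyb h4
      · exact hy h4
    have hsim : Sim K (cx w t b) (insert y (insert b S)) := by
      rw [Finset.insert_comm]
      exact hs'
    have hG2 := ext_good hG1 hyb' hsim hcos
      (h2.trans (Finset.card_le_card (Finset.subset_insert _ _)))
    rw [Finset.insert_comm y b S] at hG2
    have hsub : Pool.Agent.PM.exB y (coL b L Bs) (coB b Ls Bs) ⊆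
        coB b (exS y Ls Bs) (Pool.Agent.PM.exB y L Bs) := by
      rintro T' (h4 | ⟨T, z, h4, rfl⟩)
      · rcases h4 with ⟨T, h5, rfl⟩ | ⟨T, x, h5, rfl⟩
        · exact Or.inl ⟨T, Or.inl h5, rfl⟩
        · exact Or.inr ⟨T, x, Or.inl h5, rfl⟩
      · rcases h4 with ⟨T1, z1, h5, h6⟩ | ⟨T1, h5, h6⟩
        · rw [Prod.mk.injEq] at h6
          obtain ⟨rfl, rfl⟩ := h6
          refine Or.inl ⟨insert y (T1.erase z), Or.inr ⟨T1, z, h5, rfl⟩, ?_⟩
          have h7 : b ≠ z := fun e => hbT T1 (hL _ h5).1 (by rw [e]; exact (hL _ h5).2)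
          rw [Finset.erase_insert_of_ne h7, Finset.insert_comm]
        · rw [Prod.mk.injEq] at h6
          obtain ⟨rfl, rfl⟩ := h6
          refine Or.inr ⟨T1, y, Or.inr ⟨T1, h5, rfl⟩, ?_⟩
          rw [Finset.erase_insert (hbT T1 (hBs T1 h5))]
    refine ⟨q6_ca_mono ?_ hG2.ca, hG2.cs, q6_cb_mono hsub hG2.cb, q6_cx_mono hsub hG2.cx⟩
    rintro p (h4 | ⟨T, h4, rfl⟩)
    · exact Or.inl h4
    · exact Or.inr ⟨T, Or.inl h4, rfl⟩
  push Not at h1 h3
  obtain ⟨g, hg, φ, hφ⟩ := h1
  obtain ⟨a, ha, l, hl⟩ := h3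
  have hwya : ∀ c : K, w y ≠ c • w a := fun c hc0 => hnd ⟨a, ha, ⟨l, hl⟩, c, hc0⟩
  have hga : g ≠ a := by
    rintro rfl
    exact hwya φ hφ
  have hPU : PU K w S L Ls Bs a b y (fun s => t s - l (w s)) := by
    refine ⟨hG, hs, hc, h2, ha, hy, hb, hyb, ?_, ?_, ?_, hwy, hwya⟩
    · intro h4
      have h5 : LinearMap.snd K V K - l ∘ₗ LinearMap.fst K V K = 0 := by
        apply hc' b hbS' y hyS'
        intro s hs6 h6 h7
        rcases Finset.mem_insert.1 hs6 with h8 | h8
        · exact absurd h8 h6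
        rcases Finset.mem_insert.1 h8 with h9 | h9
        · exact absurd h9 h7
        rw [q6_ne h6]
        change t s - l (w s) = 0
        by_cases hsa : s = a
        · rw [hsa]
          exact h4
        · rw [hl s h9 hsa, sub_self]
      have h6 := LinearMap.congr_fun h5 ((0, 1) : V × K)
      have h7 : (1 : K) - l 0 = 0 := h6
      rw [map_zero, sub_zero] at h7
      exact one_ne_zero h7
    · intro s hs6 h6
      rw [hl s hs6 h6, sub_self]
    · intro h4
      have h5 : t y = l (w y) := sub_eq_zero.1 h4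
      apply (hs' y hyS').2 g (hSS' g hg) (fun e => hy (e ▸ hg)) φ
      have h7 : g ≠ b := fun e => hb (e ▸ hg)
      rw [hwy', q6_ne h7, hl g hg hga, h5, hφ, map_smul, Prod.smul_mk]
  have hall := hPU.all
  apply Good.of_equiv (q6_Phi l)
  have h4 : (fun s => q6_Phi l (cx w t b s)) = cx w (fun s => t s - l (w s)) b := by
    funext s
    by_cases hsb : s = b
    · rw [hsb, q6_self, q6_self]
      change ((0 : V), (1 : K) - l 0) = (0, 1)
      rw [map_zero, sub_zero]
    · rw [q6_ne hsb, q6_ne hsb]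
      rfl
  rw [h4]
  exact hall

end Pool.Agent.PM
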