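import Pool.Agent.PM.N1
import Pool.Agent.PM.N3
import Pool.Agent.PM.Q6

set_option autoImplicit false

/-!
# Module N7: the new lists are good: three kinds of steps, filtering
-/

namespace Pool.Agent.PM

open Module Pool.Agent.Helper22
open Pool.Agent.G4 (nor dif word prd IsRk Conn3 ctr)
open Pool.Agent.BW (rkX rkV RkS)

variable {K : Type} [Field K] {X : Oracle} {E B S : List ℕ} {u : ℕ → ℕ → K}
  {r : List ℕ × List ℕ} {t : Trip}

/-- `r` is a step from `S` -/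
def Rec (E B S : List ℕ) (r : List ℕ × List ℕ) : Prop :=
  (∃ y ∈ E, y ∉ B ∧ y ∉ S ∧ r = ([y], [])) ∨ (∃ b ∈ B, b ∉ S ∧ r = ([], [b])) ∨
    ∃ y ∈ E, ∃ b ∈ B, y ∉ B ∧ y ∉ S ∧ b ∉ S ∧ r = ([y], [b])

/-! ### the lists as sets -/

private theorem n7_mkL_lxS (y : ℕ) (Ls : Lst) (Bs : List (List ℕ)) :
    mkL (lxS [y] Ls Bs) = exS y (mkL Ls) (mkB Bs) := by
  ext p
  simp only [mkL, mkB, lxS, exS, List.flatMap_cons, List.flatMap_nil, List.append_nil,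
    Set.mem_ofPred_eq, Set.mem_union]
  constructor
  · rintro ⟨q, hq, rfl⟩
    rcases List.mem_append.1 hq with hq | hq
    · exact Or.inl ⟨q, hq, rfl⟩
    · obtain ⟨T, hT, rfl⟩ := List.mem_map.1 hq
      exact Or.inr ⟨T.toFinset, ⟨T, hT, rfl⟩, rfl⟩
  · rintro (⟨q, hq, rfl⟩ | ⟨_, ⟨T, hT, rfl⟩, rfl⟩)
    · exact ⟨q, List.mem_append_left _ hq, rfl⟩
    · exact ⟨(T, y), List.mem_append_right _ (List.mem_map.2 ⟨T, hT, rfl⟩), rfl⟩

private theorem n7_mkL_lxS' (Ls : Lst) (Bs : List (List ℕ)) : lxS [] Ls Bs = Ls := by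
  simp [lxS]

private theorem n7_mkB_lxB (y : ℕ) (L : Lst) (Bs : List (List ℕ)) :
    mkB (lxB [y] L Bs) = exB y (mkL L) (mkB Bs) := by
  have key : ∀ q : List ℕ × ℕ, (y :: q.1.filter fun t => !decide (t = q.2)).toFinset =
      insert y (q.1.toFinset.erase q.2) := by
    intro q
    ext x
    simp only [List.toFinset_cons, Finset.mem_insert, List.mem_toFinset, List.mem_filter,
      Finset.mem_erase, Bool.not_eq_true', decide_eq_false_iff_not]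
    tauto
  ext p
  simp only [mkL, mkB, lxB, exB, List.flatMap_cons, List.flatMap_nil, List.append_nil,
    Set.mem_ofPred_eq, Set.mem_union]
  constructor
  · rintro ⟨q, hq, rfl⟩
    rcases List.mem_append.1 hq with hq | hq
    · exact Or.inl ⟨q, hq, rfl⟩
    · obtain ⟨T, hT, rfl⟩ := List.mem_map.1 hq
      exact Or.inr ⟨T.1.toFinset, T.2, ⟨T, hT, rfl⟩, key T⟩
  · rintro (⟨q, hq, rfl⟩ | ⟨_, _, ⟨T, hT, h⟩, rfl⟩)
    · exact ⟨q, List.mem_append_left _ hq, rfl⟩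
    · rw [Prod.mk.injEq] at h
      refine ⟨_, List.mem_append_right _ (List.mem_map.2 ⟨T, hT, rfl⟩), ?_⟩
      rw [h.1, h.2, key T]

private theorem n7_lxB' (L : Lst) (Bs : List (List ℕ)) : lxB [] L Bs = Bs := by
  simp [lxB]

private theorem n7_mkL_lcL (b : ℕ) (L : Lst) (Bs : List (List ℕ)) :
    mkL (lcL [b] L Bs) = coL b (mkL L) (mkB Bs) := by
  ext p
  simp only [mkL, mkB, lcL, coL, List.flatMap_cons, List.flatMap_nil, List.append_nil,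
    Set.mem_ofPred_eq, Set.mem_union]
  constructor
  · rintro ⟨q, hq, rfl⟩
    rcases List.mem_append.1 hq with hq | hq
    · obtain ⟨q', hq', rfl⟩ := List.mem_map.1 hq
      refine Or.inl ⟨q'.1.toFinset, q'.2, ⟨q', hq', rfl⟩, ?_⟩
      simp
    · obtain ⟨T, hT, rfl⟩ := List.mem_map.1 hq
      refine Or.inr ⟨T.toFinset, ⟨T, hT, rfl⟩, ?_⟩
      simp
  · rintro (⟨_, _, ⟨q, hq, h⟩, rfl⟩ | ⟨_, ⟨T, hT, rfl⟩, rfl⟩)
    · rw [Prod.mk.injEq] at h
      refine ⟨_, List.mem_append_left _ (List.mem_map.2 ⟨q, hq, rfl⟩), ?_⟩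
      rw [h.1, h.2]
      simp
    · refine ⟨(b :: T, b), List.mem_append_right _ (List.mem_map.2 ⟨T, hT, rfl⟩), ?_⟩
      simp

private theorem n7_lcL' (L : Lst) (Bs : List (List ℕ)) : lcL [] L Bs = L := by
  simp [lcL]

private theorem n7_mkL_lcS (b : ℕ) (Ls : Lst) : mkL (lcS [b] Ls) = coS b (mkL Ls) := by
  ext p
  simp only [mkL, lcS, coS, Set.mem_ofPred_eq]
  constructor
  · rintro ⟨q, hq, rfl⟩
    obtain ⟨q', hq', rfl⟩ := List.mem_map.1 hq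
    refine ⟨q'.1.toFinset, q'.2, ⟨q', hq', rfl⟩, ?_⟩
    simp
  · rintro ⟨_, _, ⟨q, hq, h⟩, rfl⟩
    rw [Prod.mk.injEq] at h
    refine ⟨_, List.mem_map.2 ⟨q, hq, rfl⟩, ?_⟩
    rw [h.1, h.2]
    simp

private theorem n7_lcS' (Ls : Lst) : lcS [] Ls = Ls := by
  simp [lcS]

private theorem n7_mkB_lcB (b : ℕ) (Ls : Lst) (Bs : List (List ℕ)) :
    mkB (lcB [b] Ls Bs) = coB b (mkL Ls) (mkB Bs) := by
  ext p
  simp only [mkL, mkB, lcB, coB, List.flatMap_cons, List.flatMap_nil, List.append_nil,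
    Set.mem_ofPred_eq, Set.mem_union]
  constructor
  · rintro ⟨q, hq, rfl⟩
    rcases List.mem_append.1 hq with hq | hq
    · obtain ⟨T, hT, rfl⟩ := List.mem_map.1 hq
      refine Or.inl ⟨T.toFinset, ⟨T, hT, rfl⟩, ?_⟩
      simp
    · obtain ⟨T, hT, rfl⟩ := List.mem_map.1 hq
      refine Or.inr ⟨T.1.toFinset, T.2, ⟨T, hT, rfl⟩, ?_⟩
      simp
  · rintro (⟨_, ⟨T, hT, rfl⟩, rfl⟩ | ⟨_, _, ⟨T, hT, h⟩, rfl⟩)
    · refine ⟨_, List.mem_append_left _ (List.mem_map.2 ⟨T, hT, rfl⟩), ?_⟩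
      simp
    · rw [Prod.mk.injEq] at h
      refine ⟨_, List.mem_append_right _ (List.mem_map.2 ⟨T, hT, rfl⟩), ?_⟩
      rw [h.1, h.2]
      simp

private theorem n7_lcB' (Ls : Lst) (Bs : List (List ℕ)) : lcB [] Ls Bs = Bs := by
  simp [lcB]

/-! ### all elements of the lists -/

section mem

variable {Q : ℕ → Prop} {oy ob : List ℕ} {L Ls : Lst} {Bs : List (List ℕ)}

private theorem n7_q_lxS (hy : ∀ x ∈ oy, Q x) (h1 : ∀ p ∈ Ls, (∀ x ∈ p.1, Q x) ∧ Q p.2)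
    (h2 : ∀ T ∈ Bs, ∀ x ∈ T, Q x) : ∀ p ∈ lxS oy Ls Bs, (∀ x ∈ p.1, Q x) ∧ Q p.2 := by
  intro p hp
  rcases List.mem_append.1 hp with hp | hp
  · exact h1 p hp
  · obtain ⟨y, hy', hp⟩ := List.mem_flatMap.1 hp
    obtain ⟨T, hT, rfl⟩ := List.mem_map.1 hp
    exact ⟨h2 T hT, hy y hy'⟩

private theorem n7_q_lxB (hy : ∀ x ∈ oy, Q x) (h1 : ∀ p ∈ L, ∀ x ∈ p.1, Q x)
    (h2 : ∀ T ∈ Bs, ∀ x ∈ T, Q x) : ∀ T ∈ lxB oy L Bs, ∀ x ∈ T, Q x := by
  intro p hp x hx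
  rcases List.mem_append.1 hp with hp | hp
  · exact h2 p hp x hx
  · obtain ⟨y, hy', hp⟩ := List.mem_flatMap.1 hp
    obtain ⟨T, hT, rfl⟩ := List.mem_map.1 hp
    rcases List.mem_cons.1 hx with rfl | hx
    · exact hy _ hy'
    · exact h1 T hT x (List.mem_filter.1 hx).1

private theorem n7_q_lcL (hb : ∀ x ∈ ob, Q x) (h1 : ∀ p ∈ L, ∀ x ∈ p.1, Q x)
    (h2 : ∀ T ∈ Bs, ∀ x ∈ T, Q x) : ∀ p ∈ lcL ob L Bs, ∀ x ∈ p.1, Q x := by
  intro p hp x hx
  rcases List.mem_append.1 hp with hp | hp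
  · obtain ⟨q, hq, rfl⟩ := List.mem_map.1 hp
    rcases List.mem_append.1 hx with hx | hx
    · exact hb x hx
    · exact h1 q hq x hx
  · obtain ⟨b, hb', hp⟩ := List.mem_flatMap.1 hp
    obtain ⟨T, hT, rfl⟩ := List.mem_map.1 hp
    rcases List.mem_cons.1 hx with rfl | hx
    · exact hb _ hb'
    · exact h2 T hT x hx

private theorem n7_q_lcS (hb : ∀ x ∈ ob, Q x) (h1 : ∀ p ∈ Ls, (∀ x ∈ p.1, Q x) ∧ Q p.2) :
    ∀ p ∈ lcS ob Ls, (∀ x ∈ p.1, Q x) ∧ Q p.2 := by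
  intro p hp
  obtain ⟨q, hq, rfl⟩ := List.mem_map.1 hp
  refine ⟨fun x hx => ?_, (h1 q hq).2⟩
  rcases List.mem_append.1 hx with hx | hx
  · exact hb x hx
  · exact (h1 q hq).1 x hx

private theorem n7_q_lcB (hb : ∀ x ∈ ob, Q x) (h1 : ∀ p ∈ Ls, (∀ x ∈ p.1, Q x) ∧ Q p.2)
    (h2 : ∀ T ∈ Bs, ∀ x ∈ T, Q x) : ∀ T ∈ lcB ob Ls Bs, ∀ x ∈ T, Q x := by
  intro p hp x hx
  rcases List.mem_append.1 hp with hp | hp
  · obtain ⟨T, hT, rfl⟩ := List.mem_map.1 hp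
    rcases List.mem_append.1 hx with hx | hx
    · exact hb x hx
    · exact h2 T hT x hx
  · obtain ⟨b, hb', hp⟩ := List.mem_flatMap.1 hp
    obtain ⟨T, hT, rfl⟩ := List.mem_map.1 hp
    rcases List.mem_cons.1 hx with rfl | hx
    · exact (h1 T hT).2
    · exact (h1 T hT).1 x hx

private theorem n7_q_raw (hy : ∀ x ∈ oy, Q x) (hb : ∀ x ∈ ob, Q x)
    (h1 : ∀ p ∈ t.1, ∀ x ∈ p.1, Q x) (h2 : ∀ p ∈ t.2.1, (∀ x ∈ p.1, Q x) ∧ Q p.2)
    (h3 : ∀ T ∈ t.2.2, ∀ x ∈ T, Q x) :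
    (∀ p ∈ (rawT oy ob t).1, ∀ x ∈ p.1, Q x) ∧ (∀ p ∈ (rawT oy ob t).2.1, ∀ x ∈ p.1, Q x) ∧
      ∀ T ∈ (rawT oy ob t).2.2, ∀ x ∈ T, Q x := by
  refine ⟨n7_q_lcL hb h1 (n7_q_lxB hy h1 h3), fun p hp => ?_, ?_⟩
  · exact (n7_q_lxS hy (n7_q_lcS hb h2) (n7_q_lcB hb h2 h3) p hp).1
  · exact n7_q_lcB hb (n7_q_lxS hy h2 h3) (n7_q_lxB hy h1 h3)

end mem

/-! ### the ground sets -/

private theorem n7_mem_nor {S T : List ℕ} {e : ℕ} : e ∈ nor S T ↔ e ∈ S ∧ e ∈ T := by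
  simp [nor]

private theorem n7_new {r : List ℕ × List ℕ} (hS : S.Sublist E) (h1 : ∀ x ∈ r.1, x ∈ E)
    (h2 : ∀ x ∈ r.2, x ∈ E) {e : ℕ} :
    e ∈ nor E (S ++ (r.1 ++ r.2)) ↔ e ∈ S ∨ e ∈ r.1 ∨ e ∈ r.2 := by
  rw [n7_mem_nor, List.mem_append, List.mem_append]
  constructor
  · exact fun h => h.2
  · intro h
    refine ⟨?_, h⟩
    rcases h with h | h | h
    · exact hS.subset h
    · exact h1 e h
    · exact h2 e h

private theorem n7_rkV {V V' : Type} [AddCommGroup V] [Module K V] [AddCommGroup V'] [Module K V']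
    (Φ : V ≃ₗ[K] V') (w : ℕ → V) : rkV K (fun s => Φ (w s)) = rkV K w := by
  funext F
  unfold rkV
  congr 1
  have h : Pool.Agent.BW.sp K (fun s => Φ (w s)) F = (Pool.Agent.BW.sp K w F).map Φ.toLinearMap := by
    unfold Pool.Agent.BW.sp
    rw [Submodule.map_span]
    congr 1
    ext x
    simp
  rw [h]
  exact LinearEquiv.finrank_eq (Φ.submoduleMap _).symm

/-! ### the theorems -/

theorem raw_good (h : Rp X E B u) (hS : S.Sublist E) (hr : Rec E B S r)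
    (hG : TGood u B S t) (hc : Conn3 (rkM u B S) S.toFinset)
    (hc' : Conn3 (rkM u B (nor E (S ++ (r.1 ++ r.2)))) (nor E (S ++ (r.1 ++ r.2))).toFinset) :
    Good K (cf u (nor B (nor E (S ++ (r.1 ++ r.2)))).toFinset)
      (nor E (S ++ (r.1 ++ r.2))).toFinset (mkL (rawT r.1 r.2 t).1) (mkL (rawT r.1 r.2 t).2.1)
      (mkB (rawT r.1 r.2 t).2.2) ∧
    (∀ p ∈ (rawT r.1 r.2 t).1, ∀ x ∈ p.1, x ∈ nor E (S ++ (r.1 ++ r.2))) ∧
    (∀ p ∈ (rawT r.1 r.2 t).2.1, ∀ x ∈ p.1, x ∈ nor E (S ++ (r.1 ++ r.2))) ∧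
    (∀ T ∈ (rawT r.1 r.2 t).2.2, ∀ x ∈ T, x ∈ nor E (S ++ (r.1 ++ r.2))) := by
  classical
  obtain ⟨S', hS'⟩ : ∃ S', S' = nor E (S ++ (r.1 ++ r.2)) := ⟨_, rfl⟩
  have hr12 : (∀ x ∈ r.1, x ∈ E) ∧ ∀ x ∈ r.2, x ∈ E := by
    rcases hr with ⟨y, hy, -, -, rfl⟩ | ⟨b, hb, -, rfl⟩ | ⟨y, hy, b, hb, -, -, -, rfl⟩
    · refine ⟨fun x hx => ?_, fun x hx => ?_⟩
      · rw [List.mem_singleton.1 hx]
        exact hy
      · exact absurd hx List.not_mem_nil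
    · refine ⟨fun x hx => ?_, fun x hx => ?_⟩
      · exact absurd hx List.not_mem_nil
      · rw [List.mem_singleton.1 hx]
        exact h.BE b hb
    · refine ⟨fun x hx => ?_, fun x hx => ?_⟩
      · rw [List.mem_singleton.1 hx]
        exact hy
      · rw [List.mem_singleton.1 hx]
        exact h.BE b hb
  have hmem : ∀ e, e ∈ S' ↔ e ∈ S ∨ e ∈ r.1 ∨ e ∈ r.2 := fun e => by
    rw [hS']
    exact n7_new hS hr12.1 hr12.2
  rw [← hS'] at hc' ⊢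
  clear hS'
  have hcard : 2 ≤ S.toFinset.card := by
    have := hc.1
    omega
  have hR : (nor B S).toFinset ⊆ S.toFinset := by
    intro x hx
    rw [List.mem_toFinset] at hx ⊢
    exact (n7_mem_nor.1 hx).2
  have hR' : (nor B S').toFinset ⊆ S'.toFinset := by
    intro x hx
    rw [List.mem_toFinset] at hx ⊢
    exact (n7_mem_nor.1 hx).2
  have hsim : Sim K (cf u (nor B S).toFinset) S.toFinset ∧ Cos K (cf u (nor B S).toFinset) S.toFinset :=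
    conn_sim (fun l hl => cf_span hR (fun b hb => h.unit b (n7_mem_nor.1 (List.mem_toFinset.1 hb)).1)
      l hl) hc
  have hsim' : Sim K (cf u (nor B S').toFinset) S'.toFinset ∧
      Cos K (cf u (nor B S').toFinset) S'.toFinset :=
    conn_sim (fun l hl => cf_span hR' (fun b hb => h.unit b (n7_mem_nor.1 (List.mem_toFinset.1 hb)).1)
      l hl) hc'
  have hSS' : ∀ x ∈ S, x ∈ S' := fun x hx => (hmem x).2 (Or.inl hx)
  refine ⟨?_, n7_q_raw (Q := fun x => x ∈ S') (fun x hx => (hmem x).2 (Or.inr (Or.inl hx)))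
    (fun x hx => (hmem x).2 (Or.inr (Or.inr hx))) (fun p hp x hx => hSS' x ((hG.sL p hp).1.subset hx))
    (fun p hp => ⟨fun x hx => hSS' x ((hG.sS p hp).1.subset hx), hSS' _ (hG.sS p hp).2.1⟩)
    (fun T hT x hx => hSS' x ((hG.sB T hT).subset hx))⟩
  rcases hr with ⟨y, hy, hyB, hyS, rfl⟩ | ⟨b, hb, hbS, rfl⟩ | ⟨y, hy, b, hb, hyB, hyS, hbS, rfl⟩
  · have hm : ∀ e, e ∈ S' ↔ e ∈ S ∨ e = y := fun e => by
      rw [hmem e]
      simp
    have hnor : (nor B S').toFinset = (nor B S).toFinset := by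
      ext e
      rw [List.mem_toFinset, List.mem_toFinset, n7_mem_nor, n7_mem_nor, hm]
      constructor
      · rintro ⟨h1, h2 | rfl⟩
        · exact ⟨h1, h2⟩
        · exact absurd h1 hyB
      · exact fun h1 => ⟨h1.1, Or.inl h1.2⟩
    have hSS : S'.toFinset = insert y S.toFinset := by
      ext e
      rw [List.mem_toFinset, Finset.mem_insert, List.mem_toFinset, hm]
      tauto
    rw [hnor, hSS] at hsim' ⊢
    have hyS' : y ∉ S.toFinset := fun h1 => hyS (List.mem_toFinset.1 h1)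
    have key := ext_good hG.good hyS' hsim'.1 hsim.2 hcard
    change Good K _ _ (mkL (lcL [] t.1 (lxB [y] t.1 t.2.2)))
      (mkL (lxS [y] (lcS [] t.2.1) (lcB [] t.2.1 t.2.2)))
      (mkB (lcB [] (lxS [y] t.2.1 t.2.2) (lxB [y] t.1 t.2.2)))
    rw [n7_lcL', n7_lcS', n7_lcB', n7_lcB', n7_mkL_lxS, n7_mkB_lxB]
    exact key
  · have hm : ∀ e, e ∈ S' ↔ e ∈ S ∨ e = b := fun e => by
      rw [hmem e]
      simp
    have hnor : (nor B S').toFinset = insert b (nor B S).toFinset := by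
      ext e
      rw [List.mem_toFinset, Finset.mem_insert, List.mem_toFinset, n7_mem_nor, n7_mem_nor, hm]
      constructor
      · rintro ⟨h1, h2 | h2⟩
        · exact Or.inr ⟨h1, h2⟩
        · exact Or.inl h2
      · rintro (rfl | h1)
        · exact ⟨hb, Or.inr rfl⟩
        · exact ⟨h1.1, Or.inl h1.2⟩
    have hSS : S'.toFinset = insert b S.toFinset := by
      ext e
      rw [List.mem_toFinset, Finset.mem_insert, List.mem_toFinset, hm]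
      tauto
    rw [hnor, hSS] at hsim' ⊢
    have hbS' : b ∉ S.toFinset := fun h1 => hbS (List.mem_toFinset.1 h1)
    have hbR : b ∉ (nor B S).toFinset := fun h1 => hbS' (hR h1)
    obtain ⟨Φ, hΦ⟩ := cf_insert (u := u) hbR (h.unit b hb)
    have hw : (fun s => Φ (cf u (insert b (nor B S).toFinset) s)) =
        cx (cf u (nor B S).toFinset) (fun s => u s b) b := funext hΦ
    have hcos := (Cos.equiv Φ).2 hsim'.2
    rw [hw] at hcos
    have key := coext_good hG.good hbS' hcos hsim.1 hsim.2 hcard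
    rw [← hw] at key
    have key' := Good.of_equiv Φ key
    change Good K _ _ (mkL (lcL [b] t.1 (lxB [] t.1 t.2.2)))
      (mkL (lxS [] (lcS [b] t.2.1) (lcB [b] t.2.1 t.2.2)))
      (mkB (lcB [b] (lxS [] t.2.1 t.2.2) (lxB [] t.1 t.2.2)))
    rw [n7_lxB', n7_mkL_lxS', n7_mkL_lxS', n7_mkL_lcL, n7_mkL_lcS, n7_mkB_lcB]
    exact key'
  · have hm : ∀ e, e ∈ S' ↔ e ∈ S ∨ e = y ∨ e = b := fun e => by
      rw [hmem e]
      simp
    have hyb : y ≠ b := fun e => hyB (e ▸ hb)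
    have hnor : (nor B S').toFinset = insert b (nor B S).toFinset := by
      ext e
      rw [List.mem_toFinset, Finset.mem_insert, List.mem_toFinset, n7_mem_nor, n7_mem_nor, hm]
      constructor
      · rintro ⟨h1, h2 | h2 | h2⟩
        · exact Or.inr ⟨h1, h2⟩
        · exact absurd (h2 ▸ h1) hyB
        · exact Or.inl h2
      · rintro (rfl | h1)
        · exact ⟨hb, Or.inr (Or.inr rfl)⟩
        · exact ⟨h1.1, Or.inl h1.2⟩
    have hSS : S'.toFinset = insert b (insert y S.toFinset) := by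
      ext e
      rw [List.mem_toFinset, Finset.mem_insert, Finset.mem_insert, List.mem_toFinset, hm]
      tauto
    unfold rkM at hc'
    rw [hnor, hSS] at hsim' hc' ⊢
    have hyS' : y ∉ S.toFinset := fun h1 => hyS (List.mem_toFinset.1 h1)
    have hbS' : b ∉ S.toFinset := fun h1 => hbS (List.mem_toFinset.1 h1)
    have hbR : b ∉ (nor B S).toFinset := fun h1 => hbS' (hR h1)
    obtain ⟨Φ, hΦ⟩ := cf_insert (u := u) hbR (h.unit b hb)
    have hw : (fun s => Φ (cf u (insert b (nor B S).toFinset) s)) =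
        cx (cf u (nor B S).toFinset) (fun s => u s b) b := funext hΦ
    have hcos := (Cos.equiv Φ).2 hsim'.2
    have hsim2 := (Sim.equiv Φ).2 hsim'.1
    rw [← n7_rkV Φ] at hc'
    rw [hw] at hcos hsim2 hc'
    have hnd := conn_nd hbS' hyS' hyb (by have := hc.1; omega) hc'
    have hLs : ∀ p ∈ mkL t.1, p.1 ⊆ S.toFinset ∧ p.2 ∈ p.1 := by
      rintro _ ⟨q, hq, rfl⟩
      refine ⟨fun x hx => List.mem_toFinset.2 ((hG.sL q hq).1.subset (List.mem_toFinset.1 hx)),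
        List.mem_toFinset.2 (hG.sL q hq).2⟩
    have hSs : ∀ p ∈ mkL t.2.1, p.1 ⊆ S.toFinset := by
      rintro _ ⟨q, hq, rfl⟩
      exact fun x hx => List.mem_toFinset.2 ((hG.sS q hq).1.subset (List.mem_toFinset.1 hx))
    have hBs : ∀ T ∈ mkB t.2.2, T ⊆ S.toFinset := by
      rintro _ ⟨q, hq, rfl⟩
      exact fun x hx => List.mem_toFinset.2 ((hG.sB q hq).subset (List.mem_toFinset.1 hx))
    have key := pair_good hG.good hLs hSs hBs hyS' hbS' hyb hsim.1 hsim.2 hcard hsim2 hcos hnd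
    rw [← hw] at key
    have key' := Good.of_equiv Φ key
    change Good K _ _ (mkL (lcL [b] t.1 (lxB [y] t.1 t.2.2)))
      (mkL (lxS [y] (lcS [b] t.2.1) (lcB [b] t.2.1 t.2.2)))
      (mkB (lcB [b] (lxS [y] t.2.1 t.2.2) (lxB [y] t.1 t.2.2)))
    rw [n7_mkL_lcL, n7_mkL_lxS, n7_mkB_lcB, n7_mkB_lcB, n7_mkL_lcS, n7_mkL_lxS, n7_mkB_lxB]
    exact key'

private theorem n7_nor_fin {S T : List ℕ} (h : ∀ x ∈ T, x ∈ S) : (nor S T).toFinset = T.toFinset := by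
  ext e
  rw [List.mem_toFinset, List.mem_toFinset, n7_mem_nor]
  exact ⟨fun h1 => h1.2, fun h1 => ⟨h e h1, h1⟩⟩

private theorem n7_nor_sub (S T : List ℕ) : (nor S T).Sublist S := List.filter_sublist

theorem okT_good (h : Rp X E B u) {S' : List ℕ} (hS : S'.Sublist E)
    (hG : Good K (cf u (nor B S').toFinset) S'.toFinset (mkL t.1) (mkL t.2.1) (mkB t.2.2))
    (h1 : ∀ p ∈ t.1, ∀ x ∈ p.1, x ∈ S') (h2 : ∀ p ∈ t.2.1, ∀ x ∈ p.1, x ∈ S')
    (h3 : ∀ T ∈ t.2.2, ∀ x ∈ T, x ∈ S') :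
    TGood u B S' (okT X E B S' (norT S' t)) ∧ TBas u B S' (okT X E B S' (norT S' t)) := by
  classical
  have hisb : ∀ T : List ℕ, isb X E B S' (nor S' T) = true ↔
      IsB K (cf u (nor B S').toFinset) (nor S' T).toFinset := fun T =>
    h.isb_iff hS (n7_nor_sub S' T)
  have m1 : ∀ p, p ∈ (okT X E B S' (norT S' t)).1 ↔ ∃ q ∈ t.1, p = (nor S' q.1, q.2) ∧ q.2 ∈ nor S' q.1 ∧
      IsB K (cf u (nor B S').toFinset) (nor S' q.1).toFinset := by
    intro p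
    change p ∈ (t.1.map fun p => (nor S' p.1, p.2)).filter
      (fun p => decide (p.2 ∈ p.1) && isb X E B S' p.1) ↔ _
    rw [List.mem_filter, List.mem_map]
    constructor
    · rintro ⟨⟨q, hq, rfl⟩, h4⟩
      rw [Bool.and_eq_true, decide_eq_true_iff, hisb] at h4
      exact ⟨q, hq, rfl, h4.1, h4.2⟩
    · rintro ⟨q, hq, rfl, h4, h5⟩
      refine ⟨⟨q, hq, rfl⟩, ?_⟩
      rw [Bool.and_eq_true, decide_eq_true_iff, hisb]
      exact ⟨h4, h5⟩
  have m2 : ∀ p, p ∈ (okT X E B S' (norT S' t)).2.1 ↔ ∃ q ∈ t.2.1, p = (nor S' q.1, q.2) ∧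
      q.2 ∉ nor S' q.1 ∧ q.2 ∈ S' ∧ IsB K (cf u (nor B S').toFinset) (nor S' q.1).toFinset := by
    intro p
    change p ∈ (t.2.1.map fun p => (nor S' p.1, p.2)).filter
      (fun p => (!decide (p.2 ∈ p.1) && decide (p.2 ∈ S')) && isb X E B S' p.1) ↔ _
    rw [List.mem_filter, List.mem_map]
    constructor
    · rintro ⟨⟨q, hq, rfl⟩, h4⟩
      rw [Bool.and_eq_true, Bool.and_eq_true, Bool.not_eq_true', decide_eq_false_iff_not,
        decide_eq_true_iff, hisb] at h4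
      exact ⟨q, hq, rfl, h4.1.1, h4.1.2, h4.2⟩
    · rintro ⟨q, hq, rfl, h4, h5, h6⟩
      refine ⟨⟨q, hq, rfl⟩, ?_⟩
      rw [Bool.and_eq_true, Bool.and_eq_true, Bool.not_eq_true', decide_eq_false_iff_not,
        decide_eq_true_iff, hisb]
      exact ⟨⟨h4, h5⟩, h6⟩
  have m3 : ∀ p, p ∈ (okT X E B S' (norT S' t)).2.2 ↔ ∃ q ∈ t.2.2, p = nor S' q ∧
      IsB K (cf u (nor B S').toFinset) (nor S' q).toFinset := by
    intro p
    change p ∈ (t.2.2.map fun T => nor S' T).filter (fun T => isb X E B S' T) ↔ _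
    rw [List.mem_filter, List.mem_map]
    constructor
    · rintro ⟨⟨q, hq, rfl⟩, h4⟩
      rw [hisb] at h4
      exact ⟨q, hq, rfl, h4⟩
    · rintro ⟨q, hq, rfl, h4⟩
      exact ⟨⟨q, hq, rfl⟩, (hisb q).2 h4⟩
  -- items of the old lists that are bases are in the new lists
  have i1 : ∀ T z, (T, z) ∈ mkL t.1 → z ∈ T → IsB K (cf u (nor B S').toFinset) T →
      (T, z) ∈ mkL (okT X E B S' (norT S' t)).1 := by
    rintro T z ⟨q, hq, hqe⟩ hz hT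
    rw [Prod.mk.injEq] at hqe
    have e1 := n7_nor_fin (h1 q hq)
    rw [hqe.1] at hT hz
    refine ⟨(nor S' q.1, q.2), (m1 _).2 ⟨q, hq, rfl, ?_, ?_⟩, ?_⟩
    · rw [← List.mem_toFinset, e1, ← hqe.2]
      exact hz
    · rw [e1]
      exact hT
    · rw [e1, hqe.1, hqe.2]
  have i2 : ∀ T z, (T, z) ∈ mkL t.2.1 → z ∈ S'.toFinset → z ∉ T → IsB K (cf u (nor B S').toFinset) T →
      (T, z) ∈ mkL (okT X E B S' (norT S' t)).2.1 := by
    rintro T z ⟨q, hq, hqe⟩ hzS hz hT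
    rw [Prod.mk.injEq] at hqe
    have e1 := n7_nor_fin (h2 q hq)
    rw [hqe.1] at hT hz
    refine ⟨(nor S' q.1, q.2), (m2 _).2 ⟨q, hq, rfl, ?_, ?_, ?_⟩, ?_⟩
    · rw [← List.mem_toFinset, e1, ← hqe.2]
      exact hz
    · rw [← hqe.2]
      exact List.mem_toFinset.1 hzS
    · rw [e1]
      exact hT
    · rw [e1, hqe.1, hqe.2]
  have i3 : ∀ T, T ∈ mkB t.2.2 → IsB K (cf u (nor B S').toFinset) T →
      T ∈ mkB (okT X E B S' (norT S' t)).2.2 := by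
    rintro T ⟨q, hq, hqe⟩ hT
    have e1 := n7_nor_fin (h3 q hq)
    rw [hqe] at hT
    refine ⟨nor S' q, (m3 _).2 ⟨q, hq, rfl, ?_⟩, ?_⟩
    · rw [e1]
      exact hT
    · rw [e1, hqe]
  refine ⟨⟨⟨?_, ?_, ?_, ?_⟩, ?_, ?_, ?_⟩, ?_, ?_, ?_⟩
  · intro x y hxy
    obtain ⟨T, z, h4, h5, h6, h7, h8⟩ := hG.ca x y hxy
    exact ⟨T, z, i1 T z h4 h6 h7, h5, h6, h7, h8⟩
  · intro a b hab
    obtain ⟨T, z, h4, h5, h6, h7, h8, h9⟩ := hG.cs a b hab
    exact ⟨T, z, i2 T z h4 h6 h7 h8, h5, h6, h7, h8, h9⟩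
  · intro a v hv ha hd k
    obtain ⟨T, h4, h5, h6, h7⟩ := hG.cb a v hv ha hd k
    exact ⟨T, i3 T h4 h6, h5, h6, h7⟩
  · intro s hs
    obtain ⟨⟨T, h4, h5, h6, h7⟩, T', h4', h5', h6', h7'⟩ := hG.cx s hs
    exact ⟨⟨T, i3 T h4 h6, h5, h6, h7⟩, T', i3 T' h4' h6', h5', h6', h7'⟩
  · intro p hp
    obtain ⟨q, hq, rfl, h4, h5⟩ := (m1 p).1 hp
    exact ⟨n7_nor_sub _ _, h4⟩
  · intro p hp
    obtain ⟨q, hq, rfl, h4, h5, h6⟩ := (m2 p).1 hp
    exact ⟨n7_nor_sub _ _, h5, h4⟩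
  · intro p hp
    obtain ⟨q, hq, rfl, h4⟩ := (m3 p).1 hp
    exact n7_nor_sub _ _
  · intro p hp
    obtain ⟨q, hq, rfl, h4, h5⟩ := (m1 p).1 hp
    exact h5
  · intro p hp
    obtain ⟨q, hq, rfl, h4, h5, h6⟩ := (m2 p).1 hp
    exact h6
  · intro p hp
    obtain ⟨q, hq, rfl, h4⟩ := (m3 p).1 hp
    exact h4

end Pool.Agent.PM
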