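import Pool.Agent.PM.Bas

set_option autoImplicit false

/-!
# Module L1: extension by one element

`y ∉ S` is a new element, `w y ≠ 0` and `w y` is not parallel to an element of `S` (`Sim`).
`ind_one`: `1_f`, `1_g` (`f ≠ g`) are independent modulo the linear forms (`Cos`): a linear form that
agrees with `a 1_f + b 1_g` on `S` vanishes outside `{f, g}`, so it is zero.
`nonlin_circ`: for a nonlinear `t'` there is a circuit of `Ls` on which `t'` is not linear: among
`1_f, 1_g` (`f ≠ g` in `S`) at least one is independent of `t'` modulo the linear forms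
(if `a t' + b 1_f` and `a' t' + b' 1_g` are linear, nontrivially, then `a, a' ≠ 0` by `ind_one` -- or
`1_f` linear -- and `a' b 1_f - a b' 1_g` is linear, so `b = 0` and `t'` is linear). Apply `CS`.

`ext_cs`. Let `t, t'` be independent on `S + y`.
(i) `t, t'` independent on `S`: use `CS` for `S`.
(ii) `t` linear on `S`: `t = l` on `S`, `t y ≠ l (w y)`. If `t'` were linear on `S` as well then a
combination of `t`, `t'` is linear on `S + y` (subtract the linear parts, what remains are two multiples of
`1_y`), contradiction. So `t'` is nonlinear on `S`: `nonlin_circ` gives a circuit of `Ls` in `S` on which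
`t'` is not linear, and `t` is.
(iii) `t` not linear on `S`, and `t' = c t + l` on `S`. Then `t' y ≠ c t y + l (w y)` (otherwise dependent).
The pair `(t, w y)` is nondegenerate (`w y` is not parallel to an element of `S`), so by `CB` there is
`T ∈ Bs` such that the form `m` with values `t` on `T` has `m (w y) = t y`; so `t` is linear on `T + y`.
The form with the values `t'` on `T` is `c m + l`, its value at `y` is `c t y + l (w y) ≠ t' y`.

`ext_cb`. Let `t` be nonlinear on `S + y`, `v ≠ 0`, `(t, v)` nondegenerate on `S + y`, `k : K`.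
(i) `t` nonlinear on `S` and `(t, v)` nondegenerate on `S`: use `CB` for `S`.
(ii) `t = l` on `S`; put `d = t y - l (w y) ≠ 0`. `v` is not parallel to `w y` (nondegenerate with
`s = y`). Apply `CA` to `X = v - ((k - l v) / d) w y`, `Y = w y` (independent): `(T, z) ∈ L` with the form
`h`, `h X = 0`, `h Y ≠ 0`. `T' = T - z + y` is a basis (`IsB.exch`), the form with the values `t` on `T'` is
`l + (d / h (w y)) h` and its value at `v` is `l v + d (h v / h (w y)) = k`.
(iii) `t` nonlinear on `S`, degenerate: `f ∈ S`, `t = l` on `S - f`, `v = c w f`, `c ≠ 0`;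
`e := t f - l (w f) ≠ 0` and `d := t y - l (w y) ≠ 0` (otherwise degenerate on `S + y`). By `CX` there
is `T ∈ Bs` with `f ∈ T`: the form with values `t` on `T` is `l + e h_f`, value `l v + c e` at `v`; and
`T ∈ Bs` with `f ∉ T`: value `l v`. For other `k` put `k' = (k - l v) / c` (`k' ≠ 0`, `k' ≠ e`), apply `CA`
to `X = w f - (k' / d) w y`, `Y = w y`: `(T, z)`, `h (w y) ≠ 0`, `h (w f) = (k' / d) h (w y) ≠ 0`, so
`f ∉ T.erase z`, and `T' = T - z + y` does not contain `f`; the form with the values `t` on `T'` is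
`l + (d / h (w y)) h`, its value at `v = c w f` is `l v + c d h (w f) / h (w y) = l v + c k' = k`.

`ext_cx`: for `s ∈ S` clear (`Bs ⊆ exB`, for `s` use `CX`); for `s = y`: a basis of `Bs` avoids `y`; by
`CA` (take `Y = w y` and any `X` such that `X, Y` are independent; there is one: `w a` for `a ∈ S`) there
is `(T, z) ∈ L` with `h (w y) ≠ 0` and `T - z + y` is a basis containing `y`.
-/

namespace Pool.Agent.PM

open Module

variable {K V : Type} [Field K] [AddCommGroup V] [Module K V] {w : ℕ → V} {S : Finset ℕ}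
  {L Ls : Set (Finset ℕ × ℕ)} {Bs : Set (Finset ℕ)} {y f g : ℕ}

private theorem lin_comb {t t' : ℕ → K} (a b : K) (h : Lin w S t) (h' : Lin w S t') :
    Lin w S fun s => a * t s + b * t' s := by
  obtain ⟨l, hl⟩ := h
  obtain ⟨l', hl'⟩ := h'
  refine ⟨a • l + b • l', fun s hs => ?_⟩
  rw [LinearMap.add_apply, LinearMap.smul_apply, LinearMap.smul_apply, smul_eq_mul, smul_eq_mul,
    ← hl s hs, ← hl' s hs]

private theorem lin_congr {t t' : ℕ → K} (h : Lin w S t) (he : ∀ s, t' s = t s) : Lin w S t' := by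
  obtain ⟨l, hl⟩ := h
  exact ⟨l, fun s hs => (he s).trans (hl s hs)⟩

/-- two nonlinear functions which are dependent -/
private theorem not_ind {t t' : ℕ → K} (h : ¬ Ind2 w S t t') :
    ∃ a b : K, Lin w S (fun s => a * t s + b * t' s) ∧ ¬ (a = 0 ∧ b = 0) := by
  unfold Ind2 at h
  push Not at h
  obtain ⟨a, b, h1, h2⟩ := h
  exact ⟨a, b, h1, fun h3 => h2 h3.1 h3.2⟩

theorem ind_one (hc : Cos K w S) (hf : f ∈ S) (hg : g ∈ S) (hfg : f ≠ g) :
    Ind2 w S (fun s => if s = f then (1 : K) else 0) fun s => if s = g then (1 : K) else 0 := by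
  intro a b h
  obtain ⟨l, hl⟩ := h
  have h0 : l = 0 := by
    apply hc f hf g hg l
    intro s hs hsf hsg
    have h1 := hl s hs
    simp only [if_neg hsf, if_neg hsg, mul_zero, add_zero] at h1
    exact h1.symm
  have h1 := hl f hf
  have h2 := hl g hg
  simp only [h0, if_neg hfg, if_neg hfg.symm, mul_zero, add_zero, zero_add, mul_one, if_true,
    LinearMap.zero_apply] at h1 h2
  exact ⟨h1, h2⟩

theorem nonlin_circ (hs : CS K w S Ls) (hc : Cos K w S) (h2 : 2 ≤ S.card) {t' : ℕ → K}
    (ht : ¬ Lin w S t') : ∃ T x, (T, x) ∈ Ls ∧ T ⊆ S ∧ x ∈ S ∧ x ∉ T ∧ IsB K w T ∧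
      ∃ l : Dual K V, (∀ s ∈ T, l (w s) = t' s) ∧ l (w x) ≠ t' x := by
  obtain ⟨f, hf, g, hg, hfg⟩ := Finset.one_lt_card.1 (by omega : 1 < S.card)
  have hind := ind_one hc hf hg hfg
  have key : Ind2 w S (fun s => if s = f then (1 : K) else 0) t' ∨
      Ind2 w S (fun s => if s = g then (1 : K) else 0) t' := by
    by_contra hcon
    rw [not_or] at hcon
    obtain ⟨a, b, h1, h1n⟩ := not_ind hcon.1
    obtain ⟨a', b', h2, h2n⟩ := not_ind hcon.2
    have hb : b ≠ 0 := by
      intro hb
      have h3 : Lin w S (fun s => a * (if s = f then (1 : K) else 0) +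
          0 * (if s = g then (1 : K) else 0)) := lin_congr h1 fun s => by rw [hb]; ring
      exact h1n ⟨(hind a 0 h3).1, hb⟩
    have hb' : b' ≠ 0 := by
      intro hb
      have h3 : Lin w S (fun s => 0 * (if s = f then (1 : K) else 0) +
          a' * (if s = g then (1 : K) else 0)) := lin_congr h2 fun s => by rw [hb]; ring
      exact h2n ⟨(hind 0 a' h3).2, hb⟩
    have h3 := lin_comb b' (-b) h1 h2
    have h4 : Lin w S (fun s => (b' * a) * (if s = f then (1 : K) else 0) +
        (-(b * a')) * (if s = g then (1 : K) else 0)) := lin_congr h3 fun s => by ring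
    have h5 : a = 0 := by
      rcases mul_eq_zero.1 (hind _ _ h4).1 with h6 | h6
      · exact absurd h6 hb'
      · exact h6
    apply ht
    have h6 := lin_comb b⁻¹ 0 h1 h1
    refine lin_congr h6 fun s => ?_
    rw [h5]
    field_simp
    ring
  rcases key with h | h
  · obtain ⟨T, x, h1, h2, h3, h4, h5, -, h6⟩ := hs _ _ h
    exact ⟨T, x, h1, h2, h3, h4, h5, h6⟩
  · obtain ⟨T, x, h1, h2, h3, h4, h5, -, h6⟩ := hs _ _ h
    exact ⟨T, x, h1, h2, h3, h4, h5, h6⟩

theorem ext_cs (hG : Good K w S L Ls Bs) (hy : y ∉ S) (hs : Sim K w (insert y S))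
    (hc : Cos K w S) (h2 : 2 ≤ S.card) : CS K w (insert y S) (exS y Ls Bs) := by
  intro t t' hi
  by_cases h : Ind2 w S t t'
  · obtain ⟨T, x, h1, h3, h4, h5, h6, h7, h8⟩ := hG.cs t t' h
    exact ⟨T, x, Or.inl h1, h3.trans (Finset.subset_insert _ _), Finset.mem_insert_of_mem h4, h5, h6,
      h7, h8⟩
  obtain ⟨a, b, hab, habn⟩ := not_ind h
  by_cases ht : Lin w S t
  · obtain ⟨l, hl⟩ := ht
    have he : t y - l (w y) ≠ 0 := by
      intro he
      have h1 : Lin w (insert y S) (fun s => 1 * t s + 0 * t' s) := by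
        refine ⟨l, fun s hs => ?_⟩
        show 1 * t s + 0 * t' s = l (w s)
        rw [one_mul, zero_mul, add_zero]
        rcases Finset.mem_insert.1 hs with rfl | hs
        · exact sub_eq_zero.1 he
        · exact hl s hs
      exact one_ne_zero (hi 1 0 h1).1
    have ht' : ¬ Lin w S t' := by
      rintro ⟨l', hl'⟩
      have h1 : Lin w (insert y S) (fun s => (t' y - l' (w y)) * t s + (-(t y - l (w y))) * t' s) := by
        refine ⟨(t' y - l' (w y)) • l + (-(t y - l (w y))) • l', fun s hs => ?_⟩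
        rw [LinearMap.add_apply, LinearMap.smul_apply, LinearMap.smul_apply, smul_eq_mul, smul_eq_mul]
        rcases Finset.mem_insert.1 hs with rfl | hs
        · ring
        · show (t' y - l' (w y)) * t s + -(t y - l (w y)) * t' s = _
          rw [hl s hs, hl' s hs]
      have h3 := (hi _ _ h1).2
      exact he (neg_eq_zero.1 h3)
    obtain ⟨T, x, h1, h3, h4, h5, h6, h8⟩ := nonlin_circ hG.cs hc h2 ht'
    exact ⟨T, x, Or.inl h1, h3.trans (Finset.subset_insert _ _), Finset.mem_insert_of_mem h4, h5, h6,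
      ⟨l, fun s hs => (hl s (h3 hs)).symm, (hl x h4).symm⟩, h8⟩
  · have hb : b ≠ 0 := by
      intro hb
      have ha : a ≠ 0 := fun ha => habn ⟨ha, hb⟩
      apply ht
      have h1 := lin_comb a⁻¹ 0 hab hab
      refine lin_congr h1 fun s => ?_
      rw [hb]
      field_simp
      ring
    obtain ⟨l₀, hl₀⟩ := hab
    -- `t' = c t + l` on `S`
    obtain ⟨c, hc'⟩ : ∃ c : K, c = -(a / b) := ⟨_, rfl⟩
    obtain ⟨l, hl'⟩ : ∃ l : Dual K V, l = b⁻¹ • l₀ := ⟨_, rfl⟩
    have hl : ∀ s ∈ S, t' s = c * t s + l (w s) := by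
      intro s hs
      have h1 : a * t s + b * t' s = l₀ (w s) := hl₀ s hs
      rw [hl', LinearMap.smul_apply, smul_eq_mul, ← h1, hc']
      field_simp
      ring
    have hne : c * t y + l (w y) ≠ t' y := by
      intro he
      have h1 : Lin w (insert y S) (fun s => (-c) * t s + 1 * t' s) := by
        refine ⟨l, fun s hs => ?_⟩
        rcases Finset.mem_insert.1 hs with rfl | hs
        · show -c * t s + 1 * t' s = l (w s)
          rw [← he]
          ring
        · show -c * t s + 1 * t' s = l (w s)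
          rw [hl s hs]
          ring
      exact one_ne_zero (hi _ _ h1).2
    have hsy := hs y (Finset.mem_insert_self _ _)
    have hnd : ¬ Deg w S t (w y) := by
      rintro ⟨s, hs', -, c', hc'⟩
      have hsne : s ≠ y := fun e => hy (e ▸ hs')
      exact hsy.2 s (Finset.mem_insert_of_mem hs') hsne c' hc'
    obtain ⟨T, hT, hTS, hTB, m, hm, hmy⟩ := hG.cb t (w y) hsy.1 ht hnd (t y)
    refine ⟨T, y, Or.inr ⟨T, hT, rfl⟩, hTS.trans (Finset.subset_insert _ _),
      Finset.mem_insert_self _ _, fun h => hy (hTS h), hTB, ⟨m, hm, hmy⟩, c • m + l, ?_, ?_⟩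
    · intro s hs'
      rw [LinearMap.add_apply, LinearMap.smul_apply, smul_eq_mul, hm s hs', hl s (hTS hs')]
    · rw [LinearMap.add_apply, LinearMap.smul_apply, smul_eq_mul, hmy]
      exact hne

end Pool.Agent.PM
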