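import Pool.Agent.PM.N8
import Pool.Agent.PM.L1

set_option autoImplicit false

/-!
# Module N9: learning the rows
-/

namespace Pool.Agent.PM

open Module Pool.Agent.Helper22
open Pool.Agent.G4 (nor dif word prd IsRk Conn3 ctr)

variable {K : Type} [Field K] [DecidableEq K] {X : Oracle} {E B S : List ℕ} {u : ℕ → ℕ → K}
  {D : Mx K} {t : Trip} {els : List K} {c y : ℕ}

theorem lrR_spec (h : Rp X E B u) (hels : ∀ x : K, x ∈ els) (hS : S.Sublist E)
    (hD : ∀ s ∈ S, ∀ i ∈ nor B S, ent D s i = u s i) (hy : y ∈ S) (hyB : y ∉ B)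
    (hDc : ∀ s ∈ S, s ≠ y → ent D s c = u s c) (hG : TGood u B S t) (hb : TBas u B S t)
    (hcB : c ∈ B) (hcS : c ∉ S) (hcos : Cos K (cf u (nor B S).toFinset) S.toFinset)
    (h2 : 2 ≤ S.length) :
    ∃ m : K, m ≠ 0 ∧ lrR els X E B S D t.2.1 y c = m * u y c ∧
      ∀ s ∈ S, s ≠ y → m * u s c = u s c := by
  have hSn : S.Nodup := hS.nodup h.ndE
  have hRn : (nor B S).Nodup := h.ndB.filter _
  have hmR : ∀ i, i ∈ (nor B S).toFinset ↔ i ∈ B ∧ i ∈ S := by
    intro i
    rw [List.mem_toFinset, nor, List.mem_filter, decide_eq_true_eq]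
  have hcard : 2 ≤ S.toFinset.card := by rw [List.toFinset_card_of_nodup hSn]; exact h2
  -- the test for one circuit
  have htest : ∀ (x : K), ∀ p ∈ t.2.1, ∀ l l' : Dual K ((nor B S).toFinset → K),
      (∀ s ∈ p.1.toFinset, l (cf u (nor B S).toFinset s) = u s c) →
      (∀ s ∈ p.1.toFinset, l' (cf u (nor B S).toFinset s) = if s = y then x else u s c) →
      ((askS X E B S c p == !decide (dot (cir D (nor B S) S p.1 p.2)
        (S.map fun s => if s = y then x else ent D s c) = 0)) = true ↔
      (l (cf u (nor B S).toFinset p.2) ≠ u p.2 c ↔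
        l' (cf u (nor B S).toFinset p.2) ≠ if p.2 = y then x else u p.2 c)) := by
    intro x p hp l l' hl hl'
    obtain ⟨hps, hpS, hpn⟩ := hG.sS p hp
    have hpB := hb.bS p hp
    have e1 := h.askS hS hps hpS hpn hcB hcS hpB hl
    have e2 : (S.map fun s => if s = y then x else ent D s c) =
        S.map fun s => if s = y then x else u s c := by
      apply List.map_congr_left
      intro s hs
      by_cases hsy : s = y
      · rw [if_pos hsy, if_pos hsy]
      · rw [if_neg hsy, if_neg hsy, hDc s hs hsy]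
    have e3 := cir_dot hRn hSn hD (fun s hs => hps.subset hs) hpB hpS hpn
      (f := fun s => if s = y then x else u s c) hl'
    rw [e2, e3, beq_iff_eq, ← Bool.coe_iff_coe, e1]
    rw [Bool.not_eq_true', decide_eq_false_iff_not, sub_eq_zero]
  have hpass : (t.2.1.all fun p => askS X E B S c p ==
      !decide (dot (cir D (nor B S) S p.1 p.2)
        (S.map fun s => if s = y then u y c else ent D s c) = 0)) = true := by
    rw [List.all_eq_true]
    intro p hp
    obtain ⟨l, hl⟩ := (hb.bS p hp).form fun s => u s c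
    have e : ∀ s, (if s = y then u y c else u s c) = u s c := by
      intro s
      by_cases hsy : s = y
      · rw [if_pos hsy, hsy]
      · rw [if_neg hsy]
    refine (htest (u y c) p hp l l hl fun s hs => ?_).2 ?_
    · rw [e s]; exact hl s hs
    · rw [e p.2]
  have hx := pickK_spec (P := fun x => t.2.1.all fun p => askS X E B S c p ==
      !decide (dot (cir D (nor B S) S p.1 p.2)
        (S.map fun s => if s = y then x else ent D s c) = 0)) (hels (u y c)) hpass
  change (t.2.1.all fun p => askS X E B S c p ==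
      !decide (dot (cir D (nor B S) S p.1 p.2)
        (S.map fun s => if s = y then lrR els X E B S D t.2.1 y c else ent D s c) = 0)) = true at hx
  generalize lrR els X E B S D t.2.1 y c = x at hx ⊢
  rw [List.all_eq_true] at hx
  have hx' : ∀ p ∈ t.2.1, ∀ l l' : Dual K ((nor B S).toFinset → K),
      (∀ s ∈ p.1.toFinset, l (cf u (nor B S).toFinset s) = u s c) →
      (∀ s ∈ p.1.toFinset, l' (cf u (nor B S).toFinset s) = if s = y then x else u s c) →
      (l (cf u (nor B S).toFinset p.2) ≠ u p.2 c ↔
        l' (cf u (nor B S).toFinset p.2) ≠ if p.2 = y then x else u p.2 c) := by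
    intro p hp l l' hl hl'
    exact (htest x p hp l l' hl hl').1 (hx p hp)
  -- linear functions which vanish on the basis
  have hzero : ∀ l : Dual K ((nor B S).toFinset → K),
      (∀ s ∈ (nor B S).toFinset, l (cf u (nor B S).toFinset s) = 0) → l = 0 := by
    intro l hl
    exact cf_span (Finset.Subset.refl _) (fun b hb' i => h.unit b ((hmR b).1 hb').1 i) l hl
  have huc : ∀ s ∈ (nor B S).toFinset, u s c = 0 := by
    intro s hs
    have h1 := (hmR s).1 hs
    rw [h.unit s h1.1 c, if_neg]
    rintro rfl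
    exact hcS h1.2
  have hney : ∀ s ∈ (nor B S).toFinset, s ≠ y := by
    rintro s hs rfl
    exact hyB ((hmR s).1 hs).1
  -- the two rows are dependent
  have hdep : ¬ Ind2 (cf u (nor B S).toFinset) S.toFinset (fun s => if s = y then x else u s c)
      (fun s => u s c) := by
    intro hi
    obtain ⟨T, z, hTz, -, -, -, -, ⟨l', hl', hl'z⟩, l, hl, hlz⟩ := hG.good.cs _ _ hi
    obtain ⟨p, hp, hpe⟩ := hTz
    obtain ⟨rfl, rfl⟩ := Prod.mk.inj hpe
    have h1 := (hx' p hp l l' hl hl').1 hlz
    exact h1 hl'z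
  have hdep' : ∃ a b : K, ¬ (a = 0 ∧ b = 0) ∧ ∀ s ∈ S,
      a * (if s = y then x else u s c) + b * u s c = 0 := by
    unfold Ind2 at hdep
    push Not at hdep
    obtain ⟨a, b, ⟨l, hl⟩, hab⟩ := hdep
    refine ⟨a, b, fun h3 => hab h3.1 h3.2, ?_⟩
    have hl0 : l = 0 := by
      apply hzero
      intro s hs
      have h3 := hl s (List.mem_toFinset.2 ((hmR s).1 hs).2)
      rw [← h3]
      show a * (if s = y then x else u s c) + b * u s c = 0
      rw [if_neg (hney s hs), huc s hs, mul_zero, mul_zero, add_zero]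
    intro s hs
    have h3 := hl s (List.mem_toFinset.2 hs)
    rw [hl0] at h3
    exact h3
  obtain ⟨a, b, hab, hlin⟩ := hdep'
  by_cases hex : ∃ s ∈ S, s ≠ y ∧ u s c ≠ 0
  · obtain ⟨s, hs, hsy, hs0⟩ := hex
    have h3 := hlin s hs
    rw [if_neg hsy, ← add_mul] at h3
    have h4 : a + b = 0 := (mul_eq_zero.1 h3).resolve_right hs0
    have h5 : b = -a := (neg_eq_of_add_eq_zero_right h4).symm
    have ha : a ≠ 0 := by
      intro ha
      exact hab ⟨ha, by rw [h5, ha, neg_zero]⟩
    have h6 := hlin y hy
    rw [if_pos rfl, h5] at h6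
    have h7 : a * (x - u y c) = 0 := by linear_combination h6
    have h8 : x = u y c := sub_eq_zero.1 ((mul_eq_zero.1 h7).resolve_left ha)
    refine ⟨1, one_ne_zero, by rw [h8, one_mul], fun s _ _ => one_mul _⟩
  · push Not at hex
    -- nonzero multiples of the unit row at `y` are not linear
    have hnl : ∀ g : ℕ → K, (∀ s ∈ S, s ≠ y → g s = 0) → g y ≠ 0 →
        ∃ p ∈ t.2.1, ∃ l : Dual K ((nor B S).toFinset → K),
          (∀ s ∈ p.1.toFinset, l (cf u (nor B S).toFinset s) = g s) ∧
          l (cf u (nor B S).toFinset p.2) ≠ g p.2 := by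
      intro g hg hgy
      have hnlin : ¬ Lin (cf u (nor B S).toFinset) S.toFinset g := by
        rintro ⟨l, hl⟩
        have hl0 : l = 0 := by
          apply hzero
          intro s hs
          have hsS := ((hmR s).1 hs).2
          rw [← hl s (List.mem_toFinset.2 hsS)]
          exact hg s hsS (hney s hs)
        apply hgy
        rw [hl y (List.mem_toFinset.2 hy), hl0]
        rfl
      obtain ⟨T, z, hTz, -, -, -, -, l, hl, hlz⟩ := nonlin_circ hG.good.cs hcos hcard hnlin
      obtain ⟨p, hp, hpe⟩ := hTz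
      obtain ⟨rfl, rfl⟩ := Prod.mk.inj hpe
      exact ⟨p, hp, l, hl, hlz⟩
    have hmem : ∀ p ∈ t.2.1, ∀ s ∈ p.1.toFinset, s ∈ S := by
      intro p hp s hs
      exact (hG.sS p hp).1.subset (List.mem_toFinset.1 hs)
    by_cases hx0 : x = 0
    · have hu0 : u y c = 0 := by
        by_contra hne
        obtain ⟨p, hp, l, hl, hlz⟩ := hnl (fun s => u s c) hex hne
        have h3 := (hx' p hp l 0 hl ?_).1 hlz
        · apply h3
          rw [LinearMap.zero_apply]
          by_cases hpy : p.2 = y
          · rw [if_pos hpy, hx0]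
          · rw [if_neg hpy, hex _ (hG.sS p hp).2.1 hpy]
        · intro s hs
          rw [LinearMap.zero_apply]
          by_cases hpy : s = y
          · rw [if_pos hpy, hx0]
          · rw [if_neg hpy, hex _ (hmem p hp s hs) hpy]
      exact ⟨1, one_ne_zero, by rw [hx0, hu0, mul_zero], fun s _ _ => one_mul _⟩
    · have hu0 : u y c ≠ 0 := by
        intro hu0
        obtain ⟨p, hp, l', hl', hlz'⟩ := hnl (fun s => if s = y then x else u s c)
          (fun s hs hsy => by rw [if_neg hsy, hex s hs hsy]) (by rw [if_pos rfl]; exact hx0)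
        have hall : ∀ s ∈ S, u s c = 0 := by
          intro s hs
          by_cases hsy : s = y
          · rw [hsy, hu0]
          · exact hex s hs hsy
        have h3 := (hx' p hp 0 l' (fun s hs => ?_) hl').2 hlz'
        · apply h3
          rw [LinearMap.zero_apply, hall _ (hG.sS p hp).2.1]
        · rw [LinearMap.zero_apply, hall _ (hmem p hp s hs)]
      refine ⟨x / u y c, div_ne_zero hx0 hu0, ?_, ?_⟩
      · rw [div_mul_cancel₀ _ hu0]
      · intro s hs hsy
        rw [hex s hs hsy, mul_zero]

end Pool.Agent.PM
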