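import Pool.Agent.PM.N6
import Pool.Agent.PM.N7
import Pool.Agent.PM.N9

set_option autoImplicit false

/-!
# Module N10: one step of the reconstruction

`u` from `Inv` for `s`; `S = s.1`, `S' = nwS E s r`.
(1) `nwC`: if `r = ([y], [b])` then the corner is `u y b` (`crn_eq`): `cf u (nor B S) y ≠ 0`, the row `b` is not linear on `S`, and
the pair is nondegenerate, by `conn_sim`, `conn_nd` for `S'` (`w' = cx (cf u R) (row b) b`, `cf_insert`): `w' y` is not a multiple of
`w' b`; if the row `b` is `l ∘ w` on `S` then the form `(v, x) ↦ x - l v` vanishes on `S'` outside `y, b` (`Cos`). So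
`nwC` agrees with `u` on `S' × nor B S'` and where `D` did (`ent` of an appended list: the first entry with the key counts).
(2) `nwT`: `raw_good`, `okT_good`, `prT_good`: the new lists `t'` are `TGood`, `TBas` for `u`, `B`, `S'`.
(3) For `c ∈ B \ S'` let `μ c = m` of `lrR_spec` if `r.1 = [y]` (`c`, `y`), `1` otherwise; for `n ∈ E`, `n ∉ B`, `n ∉ S'` let `κ n = m` of
`lrC_spec` if `r.2 = [b]`, `1` otherwise; all other `κ`, `μ` are `1`. `u' y i = if y ∈ B then u y i else κ y * (μ i * u y i)`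
(`Rp.trans` with the identity). `u'` agrees with `u` on `S' × nor B S'`, so `TGood`, `TBas` hold for `u'` (`cf u' R' s = cf u R' s`
for `s ∈ S'`: a lemma that `Good`, `IsB` depend only on the values on `S'`, use the subset of `S'` in the
definitions). `u'` agrees with the new matrix: entries `(y, c)`, `(n, b)` by the choice of `κ`, `μ`; for `n ∉ S'`,
`i ∈ nor B S`: `κ n * u n i = u n i`; for `s ∈ S'`, `s ≠ y`, `c ∉ S'`: `μ c * u s c = u s c`; for `s ∈ B`: unit vectors.
`2 ≤ (nor B S').length`: otherwise the rank of `S'` is at most one (`Conn3.rank_two` for two elements of `S'`).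
-/

namespace Pool.Agent.PM

open Module Pool.Agent.Helper22
open Pool.Agent.G4 (nor dif word prd IsRk Conn3 ctr)
open Pool.Agent.BW (rkX rkV RkS)

variable {K : Type} [Field K] [DecidableEq K] [Fintype K] {X : Oracle} {E B : List ℕ}
  {s : St K} {r : List ℕ × List ℕ}

private theorem mem_nor1 {S T : List ℕ} {e : ℕ} : e ∈ nor S T ↔ e ∈ S ∧ e ∈ T := by
  simp [nor]

private theorem mem_dif1 {S T : List ℕ} {e : ℕ} : e ∈ dif S T ↔ e ∈ S ∧ e ∉ T := by
  simp [dif]

private theorem mem_prd1 {α β : Type} {l : List α} {m : List β} {p : α × β} :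
    p ∈ prd l m ↔ p.1 ∈ l ∧ p.2 ∈ m := by
  obtain ⟨a, b⟩ := p
  simp only [prd, List.mem_flatMap, List.mem_map, Prod.mk.injEq]
  constructor
  · rintro ⟨a', ha', b', hb', rfl, rfl⟩
    exact ⟨ha', hb'⟩
  · rintro ⟨h1, h2⟩
    exact ⟨a, h1, b, h2, rfl, rfl⟩

private theorem mem_nwS {x : ℕ} : x ∈ nwS E s r ↔ x ∈ E ∧ (x ∈ s.1 ∨ x ∈ r.1 ∨ x ∈ r.2) := by
  unfold nwS
  rw [mem_nor1, List.mem_append, List.mem_append]

private theorem isB_congr {V : Type} [AddCommGroup V] [Module K V] {w w' : ℕ → V} {T : Finset ℕ}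
    (h : ∀ s ∈ T, w s = w' s) (hB : IsB K w T) : IsB K w' T := by
  intro f
  obtain ⟨l, hl, hu⟩ := hB f
  refine ⟨l, fun s hs => by rw [← h s hs]; exact hl s hs, fun m hm => hu m fun s hs => ?_⟩
  rw [h s hs]
  exact hm s hs

private theorem lin_congr1 {V : Type} [AddCommGroup V] [Module K V] {w w' : ℕ → V} {S : Finset ℕ}
    (h : ∀ s ∈ S, w s = w' s) {t : ℕ → K} (hL : Lin w S t) : Lin w' S t := by
  obtain ⟨l, hl⟩ := hL
  exact ⟨l, fun s hs => by rw [← h s hs]; exact hl s hs⟩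

theorem Good.congr {V : Type} [AddCommGroup V] [Module K V] {w w' : ℕ → V} {S : Finset ℕ}
    {L Ls : Set (Finset ℕ × ℕ)} {Bs : Set (Finset ℕ)} (h : ∀ s ∈ S, w s = w' s)
    (hG : Good K w S L Ls Bs) : Good K w' S L Ls Bs := by
  have h' : ∀ s ∈ S, w' s = w s := fun s hs => (h s hs).symm
  refine ⟨?_, ?_, ?_, ?_⟩
  · intro x y hxy
    obtain ⟨T, z, h1, h2, h3, h4, l, h5, h6, h7⟩ := hG.ca x y hxy
    exact ⟨T, z, h1, h2, h3, isB_congr (fun s hs => h s (h2 hs)) h4, l,
      fun s hs => by rw [h' s (h2 hs)]; exact h5 s hs, h6, h7⟩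
  · intro t t' hi
    have hi' : Ind2 w S t t' := fun a b hab => hi a b (lin_congr1 h hab)
    obtain ⟨T, x, h1, h2, h3, h4, h5, ⟨l, h6, h7⟩, m, h8, h9⟩ := hG.cs t t' hi'
    refine ⟨T, x, h1, h2, h3, h4, isB_congr (fun s hs => h s (h2 hs)) h5,
      ⟨l, fun s hs => by rw [h' s (h2 hs)]; exact h6 s hs, by rw [h' x h3]; exact h7⟩, m,
      fun s hs => by rw [h' s (h2 hs)]; exact h8 s hs, by rw [h' x h3]; exact h9⟩
  · intro t v hv hl hd k
    have hl' : ¬ Lin w S t := fun h1 => hl (lin_congr1 h h1)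
    have hd' : ¬ Deg w S t v := by
      rintro ⟨a, ha, ⟨l, h1⟩, c, hc⟩
      exact hd ⟨a, ha, ⟨l, fun x hx hxa => by rw [h' x hx]; exact h1 x hx hxa⟩, c,
        by rw [h' a ha]; exact hc⟩
    obtain ⟨T, h1, h2, h3, l, h4, h5⟩ := hG.cb t v hv hl' hd' k
    exact ⟨T, h1, h2, isB_congr (fun s hs => h s (h2 hs)) h3, l,
      fun s hs => by rw [h' s (h2 hs)]; exact h4 s hs, h5⟩
  · intro a ha
    obtain ⟨⟨T, h1, h2, h3, h4⟩, T', h5, h6, h7, h8⟩ := hG.cx a ha
    exact ⟨⟨T, h1, h2, isB_congr (fun s hs => h s (h2 hs)) h3, h4⟩, T', h5, h6,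
      isB_congr (fun s hs => h s (h6 hs)) h7, h8⟩

private theorem ent_map_app {l : List (ℕ × ℕ)} {g : ℕ × ℕ → K} {D : Mx K} {y i : ℕ} :
    ent ((l.map fun p => (p, g p)) ++ D) y i = if (y, i) ∈ l then g (y, i) else ent D y i := by
  induction l with
  | nil => simp
  | cons a l ih =>
    unfold ent at ih ⊢
    rw [List.map_cons, List.cons_append, List.filter_cons]
    by_cases h : a = (y, i)
    · rw [h]
      simp
    · have h1 : ((decide (((a, g a) : (ℕ × ℕ) × K).1 = (y, i))) = true) = False := by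
        simpa using h
      rw [if_neg (by rw [h1]; exact id), ih]
      have h2 : ((y, i) ∈ a :: l) ↔ (y, i) ∈ l := by
        rw [List.mem_cons]
        constructor
        · rintro (h3 | h3)
          · exact absurd h3.symm h
          · exact h3
        · exact Or.inr
      by_cases h3 : (y, i) ∈ l
      · rw [if_pos h3, if_pos (h2.2 h3)]
      · rw [if_neg h3, if_neg (fun h4 => h3 (h2.1 h4))]

private theorem rkV_equiv {V V' : Type} [AddCommGroup V] [Module K V] [AddCommGroup V']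
    [Module K V'] (Φ : V ≃ₗ[K] V') {v : ℕ → V} {v' : ℕ → V'} (h : ∀ s, Φ (v s) = v' s)
    (A : Finset ℕ) : rkV K v' A = rkV K v A := by
  unfold rkV Pool.Agent.BW.sp
  have h1 : v' '' (A : Set ℕ) = (Φ : V →ₗ[K] V') '' (v '' (A : Set ℕ)) := by
    rw [Set.image_image]
    refine Set.image_congr fun s _ => (h s).symm
  rw [h1, Submodule.span_image]
  congr 1
  exact LinearEquiv.finrank_map_eq Φ _

private theorem rec_one (hr : Rec E B s.1 r) :
    (∀ y ∈ r.1, y ∈ E ∧ y ∉ B ∧ y ∉ s.1) ∧ (∀ b ∈ r.2, b ∈ B ∧ b ∉ s.1) ∧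
      (∀ y ∈ r.1, ∀ y' ∈ r.1, y = y') ∧ ∀ b ∈ r.2, ∀ b' ∈ r.2, b = b' := by
  rcases hr with ⟨y, hy, hyB, hyS, rfl⟩ | ⟨b, hb, hbS, rfl⟩ | ⟨y, hy, b, hb, hyB, hyS, hbS, rfl⟩
  · refine ⟨?_, ?_, ?_, ?_⟩
    · intro z hz
      rw [List.mem_singleton] at hz
      rw [hz]
      exact ⟨hy, hyB, hyS⟩
    · intro b hb
      exact absurd hb (List.not_mem_nil)
    · intro z hz z' hz'
      rw [List.mem_singleton] at hz hz'
      rw [hz, hz']
    · intro b hb
      exact absurd hb (List.not_mem_nil)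
  · refine ⟨?_, ?_, ?_, ?_⟩
    · intro b hb
      exact absurd hb (List.not_mem_nil)
    · intro z hz
      rw [List.mem_singleton] at hz
      rw [hz]
      exact ⟨hb, hbS⟩
    · intro b hb
      exact absurd hb (List.not_mem_nil)
    · intro z hz z' hz'
      rw [List.mem_singleton] at hz hz'
      rw [hz, hz']
  · refine ⟨?_, ?_, ?_, ?_⟩
    · intro z hz
      rw [List.mem_singleton] at hz
      rw [hz]
      exact ⟨hy, hyB, hyS⟩
    · intro z hz
      rw [List.mem_singleton] at hz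
      rw [hz]
      exact ⟨hb, hbS⟩
    · intro z hz z' hz'
      rw [List.mem_singleton] at hz hz'
      rw [hz, hz']
    · intro z hz z' hz'
      rw [List.mem_singleton] at hz hz'
      rw [hz, hz']

/-- the corner -/
private theorem corner_val {u : ℕ → ℕ → K} (h : Rp X E B u) (hS : s.1.Sublist E) {y b : ℕ}
    (hr : r = ([y], [b])) (hy : y ∈ E) (hb : b ∈ B) (hyB : y ∉ B) (hyS : y ∉ s.1)
    (hbS : b ∉ s.1) (hA : Agr E B s.1 u s.2.1) (hG : TGood u B s.1 s.2.2)
    (hbs : TBas u B s.1 s.2.2) (hc : Conn3 (rkM u B s.1) s.1.toFinset)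
    (hc' : Conn3 (rkM u B (nwS E s r)) (nwS E s r).toFinset) :
    crn (Finset.univ : Finset K).toList X E B s.1 s.2.1 s.2.2.2.2 y b = u y b := by
  have hSE : ∀ x ∈ s.1, x ∈ E := fun x hx => hS.subset hx
  have hbE := h.BE b hb
  have hyb : y ≠ b := fun e => hyB (e ▸ hb)
  have hR' : (nor B (nwS E s r)).toFinset = insert b (nor B s.1).toFinset := by
    ext x
    rw [Finset.mem_insert, List.mem_toFinset, List.mem_toFinset, mem_nor1, mem_nor1, mem_nwS, hr,
      List.mem_singleton, List.mem_singleton]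
    constructor
    · rintro ⟨h1, h2, h3 | h3 | h3⟩
      · exact Or.inr ⟨h1, h3⟩
      · exact absurd (h3 ▸ h1) hyB
      · exact Or.inl h3
    · rintro (h3 | ⟨h1, h2⟩)
      · exact ⟨h3 ▸ hb, h3 ▸ hbE, Or.inr (Or.inr h3)⟩
      · exact ⟨h1, h.BE x h1, Or.inl h2⟩
  have hS' : (nwS E s r).toFinset = insert b (insert y s.1.toFinset) := by
    ext x
    rw [Finset.mem_insert, Finset.mem_insert, List.mem_toFinset, List.mem_toFinset, mem_nwS, hr,
      List.mem_singleton, List.mem_singleton]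
    constructor
    · rintro ⟨h2, h3 | h3 | h3⟩
      · exact Or.inr (Or.inr h3)
      · exact Or.inr (Or.inl h3)
      · exact Or.inl h3
    · rintro (h3 | h3 | h3)
      · exact ⟨h3 ▸ hbE, Or.inr (Or.inr h3)⟩
      · exact ⟨h3 ▸ hy, Or.inr (Or.inl h3)⟩
      · exact ⟨hSE x h3, Or.inl h3⟩
  have hbR : b ∉ (nor B s.1).toFinset := by
    rw [List.mem_toFinset, mem_nor1]
    exact fun h1 => hbS h1.2
  obtain ⟨Φ, hΦ⟩ := cf_insert (K := K) (u := u) hbR (h.unit b hb)
  unfold rkM at hc'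
  rw [hR', hS'] at hc'
  have hR'S' : insert b (nor B s.1).toFinset ⊆ insert b (insert y s.1.toFinset) := by
    refine Finset.insert_subset_insert b fun x hx => Finset.mem_insert_of_mem ?_
    rw [List.mem_toFinset, mem_nor1] at hx
    exact List.mem_toFinset.2 hx.2
  have huR' : ∀ c ∈ insert b (nor B s.1).toFinset, ∀ i, u c i = if i = c then 1 else 0 := by
    intro c hc1 i
    rcases Finset.mem_insert.1 hc1 with rfl | hc2
    · exact h.unit _ hb i
    · rw [List.mem_toFinset, mem_nor1] at hc2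
      exact h.unit c hc2.1 i
  obtain ⟨hsim, hcos⟩ := conn_sim (fun l hl => cf_span hR'S' huR' l hl) hc'
  have hcx : Conn3 (rkV K (cx (cf u (nor B s.1).toFinset) (fun s => u s b) b))
      (insert b (insert y s.1.toFinset)) :=
    (Pool.Agent.G4.Conn3.congr fun A _ => (rkV_equiv Φ hΦ A).symm).1 hc'
  have hbS1 : b ∉ s.1.toFinset := fun h1 => hbS (List.mem_toFinset.1 h1)
  have hyS1 : y ∉ s.1.toFinset := fun h1 => hyS (List.mem_toFinset.1 h1)
  have h3 : 3 ≤ s.1.toFinset.card := by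
    have := hc.1
    omega
  have hnd := conn_nd hbS1 hyS1 hyb h3 hcx
  have hcfb : cf u (nor B s.1).toFinset b = 0 := by
    funext i
    show u b i = 0
    rw [h.unit b hb, if_neg]
    rintro e
    exact hbR (e ▸ i.2)
  refine crn_eq h (fun x => by simp) hS ?_ ?_ ?_ hG hbs hy hyB hyS hb hbS ?_ ?_ hnd
  · intro x hx i hi
    exact hA x (hSE x hx) i (mem_nor1.1 hi).1 (Or.inl (mem_nor1.1 hi).2)
  · intro x hx
    exact hA x (hSE x hx) b hb (Or.inr (Or.inl hx))
  · intro i hi
    exact hA y hy i (mem_nor1.1 hi).1 (Or.inl (mem_nor1.1 hi).2)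
  · intro h0
    refine (hsim y (Finset.mem_insert_of_mem (Finset.mem_insert_self _ _))).2 b
      (Finset.mem_insert_self _ _) hyb.symm (u y b) ?_
    funext i
    show u y i = u y b * u b i
    rcases Finset.mem_insert.1 i.2 with hi | hi
    · rw [hi, h.unit b hb, if_pos rfl, mul_one]
    · have h4 : u y i = 0 := congrFun h0 ⟨i, hi⟩
      rw [h4, h.unit b hb, if_neg, mul_zero]
      intro e
      exact hbR (e ▸ hi)
  · rintro ⟨l, hl⟩
    have h5 : (LinearMap.snd K ((nor B s.1).toFinset → K) K -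
        l ∘ₗ LinearMap.fst K ((nor B s.1).toFinset → K) K) ∘ₗ Φ.toLinearMap = 0 := by
      refine hcos y (Finset.mem_insert_of_mem (Finset.mem_insert_self _ _)) b
        (Finset.mem_insert_self _ _) _ fun x hx hxy hxb => ?_
      have h6 : x ∈ s.1.toFinset := by
        rcases Finset.mem_insert.1 hx with h7 | h7
        · exact absurd h7 hxb
        · rcases Finset.mem_insert.1 h7 with h8 | h8
          · exact absurd h8 hxy
          · exact h8
      show (Φ (cf u (insert b (nor B s.1).toFinset) x)).2 -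
        l (Φ (cf u (insert b (nor B s.1).toFinset) x)).1 = 0
      rw [hΦ, cx, if_neg hxb]
      show u x b - l (cf u (nor B s.1).toFinset x) = 0
      rw [← hl x h6, sub_self]
    have h6 : (Φ (cf u (insert b (nor B s.1).toFinset) b)).2 -
        l (Φ (cf u (insert b (nor B s.1).toFinset) b)).1 = 0 :=
      LinearMap.congr_fun h5 (cf u (insert b (nor B s.1).toFinset) b)
    rw [hΦ, cx, if_pos rfl] at h6
    have h7 : (1 : K) - l 0 = 0 := h6
    rw [map_zero, sub_zero] at h7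
    exact one_ne_zero h7

theorem corner_ok {u : ℕ → ℕ → K} (h : Rp X E B u) (hS : s.1.Sublist E)
    (hr : Rec E B s.1 r) (hA : Agr E B s.1 u s.2.1) (hG : TGood u B s.1 s.2.2)
    (hb : TBas u B s.1 s.2.2) (hc : Conn3 (rkM u B s.1) s.1.toFinset)
    (hc' : Conn3 (rkM u B (nwS E s r)) (nwS E s r).toFinset) :
    Agr E B s.1 u (nwC (Finset.univ : Finset K).toList X E B s r) ∧
      ∀ x ∈ nwS E s r, ∀ i ∈ nor B (nwS E s r),
        ent (nwC (Finset.univ : Finset K).toList X E B s r) x i = u x i := by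
  obtain ⟨r1, r2, -, -⟩ := rec_one hr
  have hent : ∀ x i, ent (nwC (Finset.univ : Finset K).toList X E B s r) x i =
      if (x, i) ∈ prd r.1 r.2 then
        crn (Finset.univ : Finset K).toList X E B s.1 s.2.1 s.2.2.2.2 x i else ent s.2.1 x i :=
    fun x i => ent_map_app (g := fun p => crn (Finset.univ : Finset K).toList X E B s.1 s.2.1
      s.2.2.2.2 p.1 p.2)
  constructor
  · intro x hx i hi h1
    rw [hent, if_neg, hA x hx i hi h1]
    intro h2
    rw [mem_prd1] at h2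
    obtain ⟨-, h3, h4⟩ := r1 x h2.1
    obtain ⟨-, h5⟩ := r2 i h2.2
    rcases h1 with h1 | h1 | h1
    · exact h5 h1
    · exact h4 h1
    · exact h3 h1
  · intro x hx i hi
    rw [hent]
    rw [mem_nor1] at hi
    obtain ⟨hiB, hi⟩ := hi
    rw [mem_nwS] at hx hi
    by_cases h2 : (x, i) ∈ prd r.1 r.2
    · rw [if_pos h2]
      rw [mem_prd1] at h2
      obtain ⟨h2a, h2b⟩ := h2
      have h3 : r = ([x], [i]) := by
        rcases hr with ⟨y, hy, hyB, hyS, rfl⟩ | ⟨b, hb, hbS, rfl⟩ |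
          ⟨y, hy, b, hb, hyB, hyS, hbS, rfl⟩
        · exact absurd h2b (List.not_mem_nil)
        · exact absurd h2a (List.not_mem_nil)
        · have h4 : x = y := List.mem_singleton.1 h2a
          have h5 : i = b := List.mem_singleton.1 h2b
          rw [h4, h5]
      obtain ⟨h4, h5, h6⟩ := r1 x h2a
      obtain ⟨h7, h8⟩ := r2 i h2b
      exact corner_val h hS h3 h4 h7 h5 h6 h8 hA hG hb hc hc'
    · rw [if_neg h2]
      apply hA x hx.1 i hiB
      rcases hi.2 with h3 | h3 | h3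
      · exact Or.inl h3
      · exact absurd hiB (r1 i h3).2.1
      · rcases hx.2 with h4 | h4 | h4
        · exact Or.inr (Or.inl h4)
        · exact absurd (mem_prd1.2 ⟨h4, h3⟩) h2
        · exact Or.inr (Or.inr (r2 x h4).1)

private theorem row_ex {u : ℕ → ℕ → K} (h : Rp X E B u) {S : List ℕ} (hS : S.Sublist E) {D : Mx K}
    {t : Trip} {l1 : List ℕ} (hl1 : ∀ y ∈ l1, y ∈ S ∧ y ∉ B) (hl2 : ∀ y ∈ l1, ∀ y' ∈ l1, y = y')
    (hD : ∀ x ∈ S, ∀ i ∈ nor B S, ent D x i = u x i)
    (hDc : ∀ c ∈ B, c ∉ S → ∀ x ∈ S, x ∉ l1 → ent D x c = u x c) (hG : TGood u B S t)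
    (hb : TBas u B S t) (hcos : Cos K (cf u (nor B S).toFinset) S.toFinset)
    (h2 : 2 ≤ S.length) (c : ℕ) :
    ∃ m : K, m ≠ 0 ∧ ((c ∈ S ∨ c ∉ B) → m = 1) ∧ (c ∈ B → c ∉ S →
      (∀ y ∈ l1, lrR (Finset.univ : Finset K).toList X E B S D t.2.1 y c = m * u y c) ∧
        ∀ x ∈ S, x ∉ l1 → m * u x c = u x c) := by
  by_cases h1 : c ∈ B ∧ c ∉ S
  · obtain ⟨hcB, hcS⟩ := h1
    by_cases h3 : ∃ y, y ∈ l1
    · obtain ⟨y, hy⟩ := h3
      obtain ⟨m, hm, hm1, hm2⟩ := lrR_spec (els := (Finset.univ : Finset K).toList) h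
        (fun x => by simp) hS hD (hl1 y hy).1 (hl1 y hy).2
        (fun x hx hxy => hDc c hcB hcS x hx fun hxl => hxy (hl2 x hxl y hy)) hG hb hcB hcS hcos h2
      refine ⟨m, hm, ?_, fun _ _ => ⟨fun y' hy' => ?_, fun x hx hxl => ?_⟩⟩
      · rintro (h4 | h4)
        · exact absurd h4 hcS
        · exact absurd hcB h4
      · rw [hl2 y' hy' y hy]
        exact hm1
      · exact hm2 x hx fun e => hxl (e ▸ hy)
    · refine ⟨1, one_ne_zero, fun _ => rfl, fun _ _ => ⟨fun y' hy' => absurd ⟨y', hy'⟩ h3, ?_⟩⟩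
      intro x _ _
      rw [one_mul]
  · refine ⟨1, one_ne_zero, fun _ => rfl, fun h3 h4 => absurd ⟨h3, h4⟩ h1⟩

private theorem col_ex {u : ℕ → ℕ → K} (h : Rp X E B u) {S : List ℕ} (hS : S.Sublist E) {D : Mx K}
    {t : Trip} {l2 : List ℕ} (hl1 : ∀ b ∈ l2, b ∈ nor B S) (hl2 : ∀ y ∈ l2, ∀ y' ∈ l2, y = y')
    (hD : ∀ x ∈ S, ∀ i ∈ nor B S, ent D x i = u x i)
    (hDn : ∀ n ∈ E, n ∉ B → n ∉ S → ∀ i ∈ nor B S, i ∉ l2 → ent D n i = u n i)
    (hG : TGood u B S t) (hb : TBas u B S t) (hR2 : 2 ≤ (nor B S).length) (n : ℕ) :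
    ∃ m : K, m ≠ 0 ∧ ((n ∈ S ∨ n ∈ B ∨ n ∉ E) → m = 1) ∧ (n ∈ E → n ∉ B → n ∉ S →
      (∀ b ∈ l2, lrC (Finset.univ : Finset K).toList X E B S D t.1 n b = m * u n b) ∧
        ∀ i ∈ nor B S, i ∉ l2 → m * u n i = u n i) := by
  by_cases h1 : n ∈ E ∧ n ∉ B ∧ n ∉ S
  · obtain ⟨hnE, hnB, hnS⟩ := h1
    by_cases h3 : ∃ b, b ∈ l2
    · obtain ⟨b, hbl⟩ := h3
      obtain ⟨m, hm, hm1, hm2⟩ := lrC_spec (els := (Finset.univ : Finset K).toList) h
        (fun x => by simp) hS hD (hl1 b hbl)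
        (fun i hi hib => hDn n hnE hnB hnS i hi fun hil => hib (hl2 i hil b hbl)) hG hb hnE hnB hnS
        hR2
      refine ⟨m, hm, ?_, fun _ _ _ => ⟨fun b' hb' => ?_, fun i hi hil => ?_⟩⟩
      · rintro (h4 | h4 | h4)
        · exact absurd h4 hnS
        · exact absurd h4 hnB
        · exact absurd hnE h4
      · rw [hl2 b' hb' b hbl]
        exact hm1
      · exact hm2 i hi fun e => hil (e ▸ hbl)
    · refine ⟨1, one_ne_zero, fun _ => rfl, fun _ _ _ => ⟨fun y' hy' => absurd ⟨y', hy'⟩ h3, ?_⟩⟩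
      intro x _ _
      rw [one_mul]
  · refine ⟨1, one_ne_zero, fun _ => rfl, fun h3 h4 h5 => absurd ⟨h3, h4, h5⟩ h1⟩

private theorem two_le {u : ℕ → ℕ → K} {S : List ℕ} (hc : Conn3 (rkM u B S) S.toFinset) :
    2 ≤ (nor B S).length := by
  have h1 : 1 < S.toFinset.card := by
    have := hc.1
    omega
  obtain ⟨a, ha, b, hb, hab⟩ := Finset.one_lt_card.1 h1
  have hr : IsRk (rkM u B S) := Pool.Agent.BW.isRk_rkV _
  have h2 := hc.rank_two hr ha hb hab
  have h3 : rkM u B S {a, b} ≤ ((nor B S).toFinset.card : ℤ) := by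
    unfold rkM rkV
    have h4 := Submodule.finrank_le (Pool.Agent.BW.sp K (cf u (nor B S).toFinset) {a, b})
    rw [Module.finrank_pi, Fintype.card_coe] at h4
    exact_mod_cast h4
  have h4 := List.toFinset_card_le (nor B S)
  rw [h2] at h3
  have h5 : 2 ≤ (nor B S).toFinset.card := by exact_mod_cast h3
  omega

theorem step_inv (hI : Inv X E B s) (hr : Rec E B s.1 r)
    (hc : ∀ u : ℕ → ℕ → K, Rp X E B u → Conn3 (rkM u B s.1) s.1.toFinset)
    (hc' : ∀ u : ℕ → ℕ → K, Rp X E B u →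
      Conn3 (rkM u B (nwS E s r)) (nwS E s r).toFinset) :
    Inv X E B (stepB (Finset.univ : Finset K).toList (Fintype.card K - 1) X E B s r) := by
  obtain ⟨hsub, u, h, hA, hG, hb⟩ := hI
  obtain ⟨r1, r2, r3, r4⟩ := rec_one hr
  have hS' : (nwS E s r).Sublist E := List.filter_sublist
  have hSE : ∀ x ∈ s.1, x ∈ E := fun x hx => hsub.subset hx
  have hcu := hc u h
  have hcu' := hc' u h
  obtain ⟨hA', hDC⟩ := corner_ok h hsub hr hA hG hb hcu hcu'
  set D' := nwC (Finset.univ : Finset K).toList X E B s r with hD'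
  obtain ⟨g1, g2, g3, g4⟩ := raw_good h hsub hr hG hcu hcu'
  obtain ⟨g5, g6⟩ := okT_good h hS' g1 g2 g3 g4
  obtain ⟨g7, g8⟩ := prT_good h.ndB (h.ndE.sublist hS') hDC g5 g6
  set S' := nwS E s r with hS'd
  have ht' : prT (Fintype.card K - 1) D' (nor B S') S' (okT X E B S' (norT S' (rawT r.1 r.2 s.2.2))) =
      nwT (Fintype.card K - 1) X E B S' D' s.2.2 r := rfl
  have g7' : TGood u B S' (nwT (Fintype.card K - 1) X E B S' D' s.2.2 r) := g7
  have g8' : TBas u B S' (nwT (Fintype.card K - 1) X E B S' D' s.2.2 r) := g8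
  set t' := nwT (Fintype.card K - 1) X E B S' D' s.2.2 r with ht'd
  have hmem : ∀ x, x ∈ S' ↔ x ∈ E ∧ (x ∈ s.1 ∨ x ∈ r.1 ∨ x ∈ r.2) := fun x => mem_nwS
  have hRsub : (nor B S').toFinset ⊆ S'.toFinset := by
    intro x hx
    rw [List.mem_toFinset, mem_nor1] at hx
    exact List.mem_toFinset.2 hx.2
  have hRu : ∀ c ∈ (nor B S').toFinset, ∀ i, u c i = if i = c then 1 else 0 := by
    intro c hc1 i
    rw [List.mem_toFinset, mem_nor1] at hc1
    exact h.unit c hc1.1 i
  obtain ⟨-, hcos⟩ := conn_sim (fun l hl => cf_span hRsub hRu l hl) hcu'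
  have hlen : 2 ≤ S'.length := by
    have h1 := hcu'.1
    have h2 := List.toFinset_card_le S'
    omega
  have hμ := row_ex (t := t') h hS' (l1 := r.1)
    (fun y hy => ⟨(hmem y).2 ⟨(r1 y hy).1, Or.inr (Or.inl hy)⟩, (r1 y hy).2.1⟩) r3 hDC
    (fun c hcB hcS x hx hxl => by
      obtain ⟨hxE, hx2⟩ := (hmem x).1 hx
      refine hA' x hxE c hcB ?_
      rcases hx2 with h3 | h3 | h3
      · exact Or.inr (Or.inl h3)
      · exact absurd h3 hxl
      · exact Or.inr (Or.inr (r2 x h3).1)) g7' g8' hcos hlen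
  have hκ := col_ex (t := t') h hS' (l2 := r.2)
    (fun b hb => mem_nor1.2 ⟨(r2 b hb).1, (hmem b).2 ⟨h.BE b (r2 b hb).1, Or.inr (Or.inr hb)⟩⟩) r4 hDC
    (fun n hn hnB hnS i hi hil => by
      rw [mem_nor1] at hi
      obtain ⟨hiE, hi2⟩ := (hmem i).1 hi.2
      refine hA' n hn i hi.1 ?_
      rcases hi2 with h3 | h3 | h3
      · exact Or.inl h3
      · exact absurd hi.1 (r1 i h3).2.1
      · exact absurd h3 hil) g7' g8' (two_le hcu')
  choose μ m1 m2 m3 using hμ
  choose κ k1 k2 k3 using hκ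
  have hu' := h.trans (RingEquiv.refl K) m1 k1
  set u' : ℕ → ℕ → K := fun y i => if y ∈ B then u y i else κ y * (μ i * (RingEquiv.refl K) (u y i))
    with hu'd
  have hu1 : ∀ x i, x ∉ B → u' x i = κ x * (μ i * u x i) := by
    intro x i hx
    show (if x ∈ B then u x i else κ x * (μ i * (RingEquiv.refl K) (u x i))) = _
    rw [if_neg hx]
    rfl
  have hu2 : ∀ x i, x ∈ B → u' x i = u x i := by
    intro x i hx
    show (if x ∈ B then u x i else κ x * (μ i * (RingEquiv.refl K) (u x i))) = _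
    rw [if_pos hx]
  have hagr : ∀ x ∈ S', ∀ i ∈ S', u' x i = u x i := by
    intro x hx i hi
    by_cases hxB : x ∈ B
    · exact hu2 x i hxB
    · rw [hu1 x i hxB, k2 x (Or.inl hx), m2 i (Or.inl hi), one_mul, one_mul]
  have hcf : ∀ x ∈ S'.toFinset, cf u (nor B S').toFinset x = cf u' (nor B S').toFinset x := by
    intro x hx
    funext i
    show u x i = u' x i
    rw [hagr x (List.mem_toFinset.1 hx) i (List.mem_toFinset.1 (hRsub i.2))]
  refine ⟨hS', u', hu', ?_, ?_, ?_⟩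
  · show Agr E B S' u' (nwD (Finset.univ : Finset K).toList X E B S' D' t' r)
    intro x hx i hi hxi
    have hent : ent (nwD (Finset.univ : Finset K).toList X E B S' D' t' r) x i =
        if (x, i) ∈ prd r.1 (dif B S') then
          lrR (Finset.univ : Finset K).toList X E B S' D' t'.2.1 x i
        else if (x, i) ∈ prd (dif E (B ++ S')) r.2 then
          lrC (Finset.univ : Finset K).toList X E B S' D' t'.1 x i else ent D' x i := by
      unfold nwD
      rw [ent_map_app (g := fun p => lrR (Finset.univ : Finset K).toList X E B S' D' t'.2.1 p.1 p.2),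
        ent_map_app (g := fun p => lrC (Finset.univ : Finset K).toList X E B S' D' t'.1 p.1 p.2)]
    rw [hent]
    by_cases h1 : (x, i) ∈ prd r.1 (dif B S')
    · rw [if_pos h1]
      rw [mem_prd1, mem_dif1] at h1
      obtain ⟨h1, h2, h3⟩ := h1
      have hxS : x ∈ S' := (hmem x).2 ⟨hx, Or.inr (Or.inl h1)⟩
      rw [(m3 i h2 h3).1 x h1, hu1 x i (r1 x h1).2.1, k2 x (Or.inl hxS), one_mul]
    · rw [if_neg h1]
      by_cases h4 : (x, i) ∈ prd (dif E (B ++ S')) r.2
      · rw [if_pos h4]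
        rw [mem_prd1, mem_dif1, List.mem_append] at h4
        obtain ⟨⟨h4, h5⟩, h6⟩ := h4
        have hxB : x ∉ B := fun h7 => h5 (Or.inl h7)
        have hxS : x ∉ S' := fun h7 => h5 (Or.inr h7)
        have hiS : i ∈ S' := (hmem i).2 ⟨h.BE i hi, Or.inr (Or.inr h6)⟩
        rw [(k3 x hx hxB hxS).1 i h6, hu1 x i hxB, m2 i (Or.inl hiS), one_mul]
      · rw [if_neg h4]
        by_cases hxB : x ∈ B
        · rw [hu2 x i hxB]
          exact hA' x hx i hi (Or.inr (Or.inr hxB))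
        · by_cases hxS : x ∈ S'
          · by_cases hiS : i ∈ S'
            · rw [hagr x hxS i hiS]
              exact hDC x hxS i (mem_nor1.2 ⟨hi, hiS⟩)
            · have h5 : x ∉ r.1 := fun h6 => h1 (mem_prd1.2 ⟨h6, mem_dif1.2 ⟨hi, hiS⟩⟩)
              have h6 : x ∈ s.1 := by
                rcases ((hmem x).1 hxS).2 with h7 | h7 | h7
                · exact h7
                · exact absurd h7 h5
                · exact absurd (r2 x h7).1 hxB
              rw [hA' x hx i hi (Or.inr (Or.inl h6)), hu1 x i hxB, k2 x (Or.inl hxS), one_mul,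
                (m3 i hi hiS).2 x hxS h5]
          · have hiS : i ∈ S' := by
              rcases hxi with h5 | h5 | h5
              · exact h5
              · exact absurd h5 hxS
              · exact absurd h5 hxB
            have h5 : i ∉ r.2 := by
              intro h6
              refine h4 (mem_prd1.2 ⟨mem_dif1.2 ⟨hx, ?_⟩, h6⟩)
              rw [List.mem_append]
              rintro (h7 | h7)
              · exact hxB h7
              · exact hxS h7
            have h6 : i ∈ s.1 := by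
              rcases ((hmem i).1 hiS).2 with h7 | h7 | h7
              · exact h7
              · exact absurd hi (r1 i h7).2.1
              · exact absurd h7 h5
            rw [hA' x hx i hi (Or.inl h6), hu1 x i hxB, m2 i (Or.inl hiS), one_mul,
              (k3 x hx hxB hxS).2 i (mem_nor1.2 ⟨hi, hiS⟩) h5]
  · show TGood u' B S' t'
    exact ⟨g7'.good.congr hcf, g7'.sL, g7'.sS, g7'.sB⟩
  · show TBas u' B S' t'
    refine ⟨fun p hp => isB_congr (fun x hx => hcf x ?_) (g8'.bL p hp),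
      fun p hp => isB_congr (fun x hx => hcf x ?_) (g8'.bS p hp),
      fun T hT => isB_congr (fun x hx => hcf x ?_) (g8'.bB T hT)⟩
    · exact List.mem_toFinset.2 ((g7'.sL p hp).1.subset (List.mem_toFinset.1 hx))
    · exact List.mem_toFinset.2 ((g7'.sS p hp).1.subset (List.mem_toFinset.1 hx))
    · exact List.mem_toFinset.2 ((g7'.sB T hT).subset (List.mem_toFinset.1 hx))

end Pool.Agent.PM
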