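import Mathlib

set_option autoImplicit false

/-!
# Configurations of vectors, bases, circuits, and the three properties of lists

`w : ℕ → V` is a family of vectors, `S` the ground set. A function `t : ℕ → K` on `S` is a row of a
one-element coextension, a vector `v : V` a column of a one-element extension.
-/

namespace Pool.Agent.PM

open Module

section

variable {K V : Type} [Field K] [AddCommGroup V] [Module K V]

/-- `T` is a basis: every function on `T` extends to exactly one linear form -/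
def IsB (K : Type) {V : Type} [Field K] [AddCommGroup V] [Module K V] (w : ℕ → V)
    (T : Finset ℕ) : Prop := ∀ f : ℕ → K, ∃! l : Dual K V, ∀ s ∈ T, l (w s) = f s

/-- `t` is linear on `S` -/
def Lin (w : ℕ → V) (S : Finset ℕ) (t : ℕ → K) : Prop := ∃ l : Dual K V, ∀ s ∈ S, t s = l (w s)

/-- `t`, `t'` are independent modulo the linear forms -/
def Ind2 (w : ℕ → V) (S : Finset ℕ) (t t' : ℕ → K) : Prop :=
  ∀ a b : K, Lin w S (fun s => a * t s + b * t' s) → a = 0 ∧ b = 0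

/-- the pair `(t, v)` is degenerate: `t` is linear off an element parallel to `v` -/
def Deg (w : ℕ → V) (S : Finset ℕ) (t : ℕ → K) (v : V) : Prop :=
  ∃ s ∈ S, (∃ l : Dual K V, ∀ x ∈ S, x ≠ s → t x = l (w x)) ∧ ∃ c : K, v = c • w s

/-- the marked bases `(T, z)` of `L` separate the vectors -/
def CA (K : Type) {V : Type} [Field K] [AddCommGroup V] [Module K V] (w : ℕ → V) (S : Finset ℕ)
    (L : Set (Finset ℕ × ℕ)) : Prop :=
  ∀ x y : V, (∀ a b : K, a • x + b • y = 0 → a = 0 ∧ b = 0) →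
    ∃ T z, (T, z) ∈ L ∧ T ⊆ S ∧ z ∈ T ∧ IsB K w T ∧
      ∃ l : Dual K V, (∀ s ∈ T, l (w s) = if s = z then 1 else 0) ∧ l x = 0 ∧ l y ≠ 0

/-- the circuits `(T, x)` (the circuit of `T + x` that contains `x`) of `L` separate the rows -/
def CS (K : Type) {V : Type} [Field K] [AddCommGroup V] [Module K V] (w : ℕ → V) (S : Finset ℕ)
    (L : Set (Finset ℕ × ℕ)) : Prop :=
  ∀ t t' : ℕ → K, Ind2 w S t t' →
    ∃ T x, (T, x) ∈ L ∧ T ⊆ S ∧ x ∈ S ∧ x ∉ T ∧ IsB K w T ∧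
      (∃ l : Dual K V, (∀ s ∈ T, l (w s) = t s) ∧ l (w x) = t x) ∧
      ∃ l : Dual K V, (∀ s ∈ T, l (w s) = t' s) ∧ l (w x) ≠ t' x

/-- the bases of `L` separate the corners -/
def CB (K : Type) {V : Type} [Field K] [AddCommGroup V] [Module K V] (w : ℕ → V) (S : Finset ℕ)
    (L : Set (Finset ℕ)) : Prop :=
  ∀ (t : ℕ → K) (v : V), v ≠ 0 → ¬ Lin w S t → ¬ Deg w S t v → ∀ k : K,
    ∃ T ∈ L, T ⊆ S ∧ IsB K w T ∧ ∃ l : Dual K V, (∀ s ∈ T, l (w s) = t s) ∧ l v = k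

/-- every element is in a basis of `L`, and is avoided by a basis of `L` -/
def CX (K : Type) {V : Type} [Field K] [AddCommGroup V] [Module K V] (w : ℕ → V) (S : Finset ℕ)
    (L : Set (Finset ℕ)) : Prop :=
  ∀ s ∈ S, (∃ T ∈ L, T ⊆ S ∧ IsB K w T ∧ s ∈ T) ∧ ∃ T ∈ L, T ⊆ S ∧ IsB K w T ∧ s ∉ T

/-- all properties -/
structure Good (K : Type) {V : Type} [Field K] [AddCommGroup V] [Module K V] (w : ℕ → V)
    (S : Finset ℕ) (L Ls : Set (Finset ℕ × ℕ)) (Bs : Set (Finset ℕ)) : Prop where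
  ca : CA K w S L
  cs : CS K w S Ls
  cb : CB K w S Bs
  cx : CX K w S Bs

/-- no zero vectors, no parallel vectors -/
def Sim (K : Type) {V : Type} [Field K] [AddCommGroup V] [Module K V] (w : ℕ → V)
    (S : Finset ℕ) : Prop :=
  ∀ a ∈ S, w a ≠ 0 ∧ ∀ b ∈ S, b ≠ a → ∀ c : K, w a ≠ c • w b

/-- no linear form vanishes outside two elements -/
def Cos (K : Type) {V : Type} [Field K] [AddCommGroup V] [Module K V] (w : ℕ → V)
    (S : Finset ℕ) : Prop :=
  ∀ a ∈ S, ∀ b ∈ S, ∀ l : Dual K V, (∀ s ∈ S, s ≠ a → s ≠ b → l (w s) = 0) → l = 0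

/-- the coextension by `c` with the row `t` -/
def cx (w : ℕ → V) (t : ℕ → K) (c : ℕ) : ℕ → V × K := fun s => if s = c then (0, 1) else (w s, t s)

end

/-! ## The update of the lists -/

/-- circuits of the extension by `y` -/
def exS (y : ℕ) (Ls : Set (Finset ℕ × ℕ)) (Bs : Set (Finset ℕ)) : Set (Finset ℕ × ℕ) :=
  Ls ∪ {p | ∃ T ∈ Bs, p = (T, y)}

/-- bases of the extension by `y` -/
def exB (y : ℕ) (L : Set (Finset ℕ × ℕ)) (Bs : Set (Finset ℕ)) : Set (Finset ℕ) :=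
  Bs ∪ {T' | ∃ T z, (T, z) ∈ L ∧ T' = insert y (T.erase z)}

/-- marked bases of the coextension by `c` -/
def coL (c : ℕ) (L : Set (Finset ℕ × ℕ)) (Bs : Set (Finset ℕ)) : Set (Finset ℕ × ℕ) :=
  {p | ∃ T z, (T, z) ∈ L ∧ p = (insert c T, z)} ∪ {p | ∃ T ∈ Bs, p = (insert c T, c)}

/-- circuits of the coextension by `c` -/
def coS (c : ℕ) (Ls : Set (Finset ℕ × ℕ)) : Set (Finset ℕ × ℕ) :=
  {p | ∃ T x, (T, x) ∈ Ls ∧ p = (insert c T, x)}

/-- bases of the coextension by `c` -/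
def coB (c : ℕ) (Ls : Set (Finset ℕ × ℕ)) (Bs : Set (Finset ℕ)) : Set (Finset ℕ) :=
  {T' | ∃ T ∈ Bs, T' = insert c T} ∪ {T' | ∃ T x, (T, x) ∈ Ls ∧ T' = insert x T}

end Pool.Agent.PM
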