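import Pool.Agent.PM.Alg
import Pool.Agent.PM.Cfg

set_option autoImplicit false

/-!
# Representations, configurations of minors, states: definitions
-/

namespace Pool.Agent.PM

open Pool.Agent.Helper22
open Pool.Agent.G4 (nor dif word prd)

variable {K : Type} [Field K]

/-- the vectors `u y` (coordinates `u y i`, `i ∈ B`) represent the matroid on `E` with the independence
oracle `X`, with respect to the basis `B` -/
structure Rp (X : Oracle) (E B : List ℕ) (u : ℕ → ℕ → K) : Prop where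
  ndE : E.Nodup
  ndB : B.Nodup
  BE : ∀ b ∈ B, b ∈ E
  sup : ∀ y i, i ∉ B → u y i = 0
  unit : ∀ b ∈ B, ∀ i, u b i = if i = b then 1 else 0
  orc : ∀ T : List ℕ, (∀ t ∈ T, t ∈ E) →
    (X (word E T) = true ↔ LinearIndependent K fun t : T.toFinset => u t)

/-- the configuration of the coordinates `R` -/
def cf (u : ℕ → ℕ → K) (R : Finset ℕ) : ℕ → (R → K) := fun y i => u y i

/-- the marked bases (circuits) of a list -/
def mkL (l : Lst) : Set (Finset ℕ × ℕ) := {p | ∃ q ∈ l, p = (q.1.toFinset, q.2)}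

/-- the bases of a list -/
def mkB (l : List (List ℕ)) : Set (Finset ℕ) := {T | ∃ q ∈ l, T = q.toFinset}

/-- the properties of the lists `t` of the minor on `S` -/
structure TGood (u : ℕ → ℕ → K) (B S : List ℕ) (t : Trip) : Prop where
  good : Good K (cf u (nor B S).toFinset) S.toFinset (mkL t.1) (mkL t.2.1) (mkB t.2.2)
  sL : ∀ p ∈ t.1, p.1.Sublist S ∧ p.2 ∈ p.1
  sS : ∀ p ∈ t.2.1, p.1.Sublist S ∧ p.2 ∈ S ∧ p.2 ∉ p.1
  sB : ∀ T ∈ t.2.2, T.Sublist S

/-- all items of the lists are bases -/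
structure TBas (u : ℕ → ℕ → K) (B S : List ℕ) (t : Trip) : Prop where
  bL : ∀ p ∈ t.1, IsB K (cf u (nor B S).toFinset) p.1.toFinset
  bS : ∀ p ∈ t.2.1, IsB K (cf u (nor B S).toFinset) p.1.toFinset
  bB : ∀ T ∈ t.2.2, IsB K (cf u (nor B S).toFinset) T.toFinset

variable [DecidableEq K]

/-- the matrix `D` agrees with `u` in the rows and columns of the minor on `S`, and in the columns of `B` -/
def Agr (E B S : List ℕ) (u : ℕ → ℕ → K) (D : Mx K) : Prop :=
  ∀ y ∈ E, ∀ i ∈ B, (i ∈ S ∨ y ∈ S ∨ y ∈ B) → ent D y i = u y i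

/-- a correct state -/
structure Inv (X : Oracle) (E B : List ℕ) (s : St K) : Prop where
  sub : s.1.Sublist E
  ex : ∃ u : ℕ → ℕ → K, Rp X E B u ∧ Agr E B s.1 u s.2.1 ∧ TGood u B s.1 s.2.2 ∧
    TBas u B s.1 s.2.2

/-- rank function of the minor on `S` -/
noncomputable def rkM (u : ℕ → ℕ → K) (B S : List ℕ) : Finset ℕ → ℤ :=
  Pool.Agent.BW.rkV K (cf u (nor B S).toFinset)

end Pool.Agent.PM
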