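import Pool.Agent.PM.A2
import Pool.Agent.PM.Rep
import Pool.Agent.PM.Bas

set_option autoImplicit false

/-!
# Module N4: computed forms and circuits
-/

namespace Pool.Agent.PM

open Module Pool.Agent.Helper22
open Pool.Agent.G4 (nor dif word prd)

variable {K : Type} [Field K] [DecidableEq K] {R S T : List ℕ} {u : ℕ → ℕ → K} {D : Mx K}
  {x z : ℕ}

omit [DecidableEq K] in
/-- the coordinates of a linear form -/
private def hco (l : Dual K (R.toFinset → K)) (i : ℕ) : K :=
  if hi : i ∈ R.toFinset then l (fun j => if (⟨i, hi⟩ : R.toFinset) = j then 1 else 0) else 0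

omit [DecidableEq K] in
private theorem hco_sum (l : Dual K (R.toFinset → K)) (f : ℕ → K) :
    ∑ i ∈ R.toFinset, hco l i * f i = l fun i => f i := by
  rw [LinearMap.pi_apply_eq_sum_univ l (fun i => f i), ← Finset.sum_coe_sort]
  refine Finset.sum_congr rfl fun i _ => ?_
  unfold hco
  rw [dif_pos i.2, smul_eq_mul, mul_comm]

private theorem fv_eq (hR : R.Nodup) (hD : ∀ t ∈ T, ∀ i ∈ R, ent D t i = u t i)
    (hT : IsB K (cf u R.toFinset) T.toFinset) {l : Dual K (R.toFinset → K)}
    (hl : ∀ s ∈ T.toFinset, l (cf u R.toFinset s) = if s = z then 1 else 0) :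
    fv D R T z = R.map (hco l) := by
  unfold fv
  have hdot : ∀ t ∈ T, ∀ g : ℕ → K, dot (vec D R t) (R.map g) =
      ∑ i ∈ R.toFinset, g i * u t i := by
    intro t ht g
    unfold vec
    rw [dot_map_map R hR]
    refine Finset.sum_congr rfl fun i hi => ?_
    rw [hD t ht i (List.mem_toFinset.1 hi), mul_comm]
  refine solve_eq R hR _ ?_ (hco l) ?_ ?_
  · intro p hp
    obtain ⟨t, _, rfl⟩ := List.mem_map.1 hp
    simp [vec]
  · intro p hp
    obtain ⟨t, ht, rfl⟩ := List.mem_map.1 hp
    change dot (vec D R t) (R.map (hco l)) = if t = z then 1 else 0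
    rw [hdot t ht, hco_sum l (u t), ← hl t (List.mem_toFinset.2 ht)]
    rfl
  · intro g hg i hi
    have hm : (∑ i : R.toFinset, g i • (LinearMap.proj i : (R.toFinset → K) →ₗ[K] K)) = 0 := by
      refine hT.eq fun t ht => ?_
      have h1 := hg (vec D R t, if t = z then 1 else 0)
        (List.mem_map.2 ⟨t, List.mem_toFinset.1 ht, rfl⟩)
      change dot (vec D R t) (R.map g) = 0 at h1
      rw [hdot t (List.mem_toFinset.1 ht)] at h1
      rw [LinearMap.zero_apply, LinearMap.sum_apply, ← h1]
      exact Finset.sum_coe_sort R.toFinset (fun i => g i * u t i)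
    have h2 := LinearMap.congr_fun hm (Pi.single (⟨i, List.mem_toFinset.2 hi⟩ : R.toFinset) 1)
    rw [LinearMap.zero_apply, LinearMap.sum_apply,
      Finset.sum_eq_single (⟨i, List.mem_toFinset.2 hi⟩ : R.toFinset)] at h2
    · rw [LinearMap.smul_apply, LinearMap.proj_apply, Pi.single_eq_same, smul_eq_mul,
        mul_one] at h2
      exact h2
    · intro j _ hj
      rw [LinearMap.smul_apply, LinearMap.proj_apply, Pi.single_eq_of_ne hj, smul_zero]
    · intro h
      exact absurd (Finset.mem_univ _) h

omit [DecidableEq K] in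
private theorem form_sum (hT : IsB K (cf u R.toFinset) T.toFinset)
    {F : ℕ → Dual K (R.toFinset → K)}
    (hF : ∀ s, ∀ t ∈ T.toFinset, F s (cf u R.toFinset t) = if t = s then 1 else 0)
    {f : ℕ → K} {l : Dual K (R.toFinset → K)}
    (hl : ∀ s ∈ T.toFinset, l (cf u R.toFinset s) = f s) (v : R.toFinset → K) :
    l v = ∑ s ∈ T.toFinset, f s * F s v := by
  have h1 : l = ∑ s ∈ T.toFinset, f s • F s := by
    refine hT.eq fun t ht => ?_
    rw [hl t ht, LinearMap.sum_apply, Finset.sum_eq_single t]
    · rw [LinearMap.smul_apply, hF t t ht, if_pos rfl, smul_eq_mul, mul_one]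
    · intro s _ hs
      rw [LinearMap.smul_apply, hF s t ht, if_neg hs.symm, smul_zero]
    · intro h
      exact absurd ht h
  rw [h1, LinearMap.sum_apply]
  rfl

private theorem dot_flatMap {A B : ℕ → List K} (hAB : ∀ s, (A s).length = (B s).length) :
    ∀ S : List ℕ, S.Nodup →
      dot (S.flatMap A) (S.flatMap B) = ∑ s ∈ S.toFinset, dot (A s) (B s) := by
  intro S
  induction S with
  | nil => intro _; simp [dot_nil]
  | cons a S ih =>
    intro hS
    rw [List.nodup_cons] at hS
    rw [List.flatMap_cons, List.flatMap_cons, dot_append (hAB a), ih hS.2, List.toFinset_cons,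
      Finset.sum_insert (fun h => hS.1 (List.mem_toFinset.1 h))]

theorem fv_length (D : Mx K) (R T : List ℕ) (z : ℕ) : (fv D R T z).length = R.length := by
  simp [fv, solve, units]

theorem cir_length (D : Mx K) (R S T : List ℕ) (x : ℕ) : (cir D R S T x).length = S.length := by
  simp [cir]

theorem qv_length (D : Mx K) (R S T : List ℕ) : (qv D R S T).length = (prd S R).length := by
  unfold qv prd
  rw [List.length_flatMap, List.length_flatMap]
  congr 1
  refine List.map_congr_left fun s _ => ?_
  split
  · rw [fv_length, List.length_map]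
  · rw [List.length_map, List.length_map]

theorem fv_dot (hR : R.Nodup) (hD : ∀ t ∈ T, ∀ i ∈ R, ent D t i = u t i)
    (hT : IsB K (cf u R.toFinset) T.toFinset) {l : Dual K (R.toFinset → K)}
    (hl : ∀ s ∈ T.toFinset, l (cf u R.toFinset s) = if s = z then 1 else 0) (f : ℕ → K) :
    dot (fv D R T z) (R.map f) = l fun i => f i := by
  rw [fv_eq hR hD hT hl, dot_map_map R hR, hco_sum]

theorem cir_dot (hR : R.Nodup) (hS : S.Nodup) (hD : ∀ t ∈ S, ∀ i ∈ R, ent D t i = u t i)
    (hTS : ∀ t ∈ T, t ∈ S) (hT : IsB K (cf u R.toFinset) T.toFinset) (hx : x ∈ S) (hxT : x ∉ T)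
    {f : ℕ → K} {l : Dual K (R.toFinset → K)}
    (hl : ∀ s ∈ T.toFinset, l (cf u R.toFinset s) = f s) :
    dot (cir D R S T x) (S.map f) = l (cf u R.toFinset x) - f x := by
  choose F hF using fun s => hT.form (fun t => if t = s then 1 else 0)
  have hDT : ∀ t ∈ T, ∀ i ∈ R, ent D t i = u t i := fun t ht => hD t (hTS t ht)
  have hc : cir D R S T x = S.map fun s => if s = x then -1 else
      if s ∈ T then F s (cf u R.toFinset x) else 0 := by
    unfold cir
    refine List.map_congr_left fun s _ => ?_
    by_cases h1 : s = x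
    · rw [if_pos h1, if_pos h1]
    · rw [if_neg h1, if_neg h1]
      by_cases h2 : s ∈ T
      · rw [if_pos h2, if_pos h2]
        have h3 : vec D R x = R.map (u x) := List.map_congr_left fun i hi => hD x hx i hi
        rw [h3, fv_dot hR hDT hT (hF s)]
        rfl
      · rw [if_neg h2, if_neg h2]
  rw [hc, dot_map_map S hS, form_sum hT hF hl]
  have he : ∀ s ∈ S.toFinset, (if s = x then (-1 : K) else
      if s ∈ T then F s (cf u R.toFinset x) else 0) * f s =
      (if s = x then -f x else 0) +
        (if s ∈ T.toFinset then f s * F s (cf u R.toFinset x) else 0) := by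
    intro s _
    by_cases h1 : s = x
    · subst h1
      rw [if_pos rfl, if_pos rfl, if_neg (fun h => hxT (List.mem_toFinset.1 h))]
      ring
    · rw [if_neg h1, if_neg h1]
      by_cases h2 : s ∈ T
      · rw [if_pos h2, if_pos (List.mem_toFinset.2 h2)]
        ring
      · rw [if_neg h2, if_neg (fun h => h2 (List.mem_toFinset.1 h))]
        ring
  rw [Finset.sum_congr rfl he, Finset.sum_add_distrib, Finset.sum_ite_eq',
    if_pos (List.mem_toFinset.2 hx), Finset.sum_ite_mem]
  have hi : S.toFinset ∩ T.toFinset = T.toFinset := by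
    refine Finset.inter_eq_right.2 fun t ht => ?_
    rw [List.mem_toFinset] at ht ⊢
    exact hTS t ht
  rw [hi]
  ring

theorem qv_dot (hR : R.Nodup) (hS : S.Nodup) (hD : ∀ t ∈ S, ∀ i ∈ R, ent D t i = u t i)
    (hTS : ∀ t ∈ T, t ∈ S) (hT : IsB K (cf u R.toFinset) T.toFinset)
    {f : ℕ → K} {l : Dual K (R.toFinset → K)}
    (hl : ∀ s ∈ T.toFinset, l (cf u R.toFinset s) = f s) (g : ℕ → K) :
    dot (qv D R S T) ((prd S R).map fun p => f p.1 * g p.2) = l fun i => g i := by
  choose F hF using fun s => hT.form (fun t => if t = s then 1 else 0)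
  have hDT : ∀ t ∈ T, ∀ i ∈ R, ent D t i = u t i := fun t ht => hD t (hTS t ht)
  have hp : ((prd S R).map fun p => f p.1 * g p.2) =
      S.flatMap fun s => R.map fun i => f s * g i := by
    unfold prd
    rw [List.map_flatMap]
    congr 1
    funext s
    rw [List.map_map]
    rfl
  rw [hp]
  unfold qv
  rw [dot_flatMap _ S hS, form_sum hT hF hl]
  · have he : ∀ s ∈ S.toFinset, dot (if s ∈ T then fv D R T s else R.map fun _ => 0)
        (R.map fun i => f s * g i) =
        if s ∈ T.toFinset then f s * F s (fun i => g i) else 0 := by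
      intro s _
      by_cases h2 : s ∈ T
      · rw [if_pos h2, if_pos (List.mem_toFinset.2 h2), fv_dot hR hDT hT (hF s)]
        have h3 : (fun i : R.toFinset => f s * g i) = f s • fun i : R.toFinset => g i := by
          funext i
          rfl
        rw [h3, map_smul, smul_eq_mul]
      · rw [if_neg h2, if_neg (fun h => h2 (List.mem_toFinset.1 h)), dot_map_map R hR]
        exact Finset.sum_eq_zero fun i _ => zero_mul _
    rw [Finset.sum_congr rfl he, Finset.sum_ite_mem]
    have hi : S.toFinset ∩ T.toFinset = T.toFinset := by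
      refine Finset.inter_eq_right.2 fun t ht => ?_
      rw [List.mem_toFinset] at ht ⊢
      exact hTS t ht
    rw [hi]
  · intro s
    split
    · rw [fv_length, List.length_map]
    · rw [List.length_map, List.length_map]

end Pool.Agent.PM
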