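import Pool.Agent.PM.P3

set_option autoImplicit false
set_option linter.unusedSectionVars false

/-!
# Module P4: the projective plane: corners
-/

namespace Pool.Agent.PM

open Module

variable {K V : Type} [Field K] [AddCommGroup V] [Module K V] {w : ℕ → V} {S : Finset ℕ}
  [Fintype K] [DecidableEq K]

private theorem fin_dual (h : Plane K w S) : Finite (Dual K V) := by
  have h1 : Module.Finite K V := Module.finite_of_finrank_pos (by rw [h.dim]; norm_num)
  exact Module.finite_of_finite K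

/-- forms vanishing at three points not on a line -/
private theorem form3 (h : Plane K w S) {a b c : ℕ} (ha : a ∈ S) (hb : b ∈ S) (hab : a ≠ b)
    {n n' : Dual K V} (hna : n (w a) = 0) (hnb : n (w b) = 0) (hnc : n (w c) ≠ 0)
    (h1 : n' (w a) = 0) (h2 : n' (w b) = 0) (h3 : n' (w c) = 0) : n' = 0 := by
  have hB : IsB K w {a, b, c} := by
    refine h.isB fun α β γ h0 => ?_
    have h4 := congrArg n h0
    simp only [map_add, map_smul, hna, hnb, smul_eq_mul, mul_zero, zero_add, map_zero] at h4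
    have hγ : γ = 0 := (mul_eq_zero.1 h4).resolve_right hnc
    rw [hγ, zero_smul, add_zero] at h0
    obtain ⟨h5, h6⟩ := h.indep ha hb hab α β h0
    exact ⟨h5, h6, hγ⟩
  refine hB.eq fun s hs => ?_
  simp only [Finset.mem_insert, Finset.mem_singleton] at hs
  rcases hs with rfl | rfl | rfl <;> simp [h1, h2, h3]

/-- a form killing the points of a plane vanishes on the kernel -/
private theorem ker_zero (h : Plane K w S) {m l : Dual K V} (hl : ∀ s ∈ S, m (w s) = 0 → l (w s) = 0)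
    {v₀ : V} (hm : m v₀ = 1) (hv : l v₀ = 0) : l = 0 := by
  have h1 : ∀ v, m v = 0 → l v = 0 := by
    intro v hv
    by_cases h0 : v = 0
    · rw [h0, map_zero]
    obtain ⟨s, hs, c, hc⟩ := h.full v h0
    have hc0 : c ≠ 0 := by
      rintro rfl
      exact h0 (by rw [hc, zero_smul])
    rw [hc, map_smul, smul_eq_mul] at hv
    rw [hc, map_smul, hl s hs ((mul_eq_zero.1 hv).resolve_left hc0), smul_zero]
  ext v
  have h2 := h1 (v - m v • v₀) (by rw [map_sub, map_smul, hm, smul_eq_mul, mul_one, sub_self])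
  rw [map_sub, map_smul, hv, smul_zero, sub_zero] at h2
  exact h2

/-- first part: `t` is linear on the lines not through `v₀` -/
theorem plane_cb1 (h : Plane K w S) {t : ℕ → K} {v₀ : V} (hv : v₀ ≠ 0)
    (hno : ∀ T ⊆ S, IsB K w T → ∀ l : Dual K V, (∀ s ∈ T, l (w s) = t s) → l v₀ ≠ 0)
    {m : Dual K V} (hm : m v₀ ≠ 0) :
    ∃ l : Dual K V, ∀ s ∈ S, m (w s) = 0 → t s = l (w s) := by
  classical
  have hfin := fin_dual h
  have := Fintype.ofFinite (Dual K V)
  obtain ⟨q, hq⟩ : ∃ q, q = Fintype.card K := ⟨_, rfl⟩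
  have hq2 : 2 ≤ q := by
    rw [hq]
    exact Fintype.one_lt_card
  obtain ⟨s₀, hs₀, c₀, hc₀⟩ := h.full v₀ hv
  have hc0 : c₀ ≠ 0 := by
    rintro rfl
    exact hv (by rw [hc₀, zero_smul])
  let A : Finset (Dual K V) := Finset.univ.filter fun l => l v₀ = 0
  let X : Dual K V → Finset ℕ := fun l => S.filter fun s => t s = l (w s)
  have hAcard : A.card = q ^ 2 := by
    have h1 := cnt_form h.dim hv (0 : K)
    rw [Nat.card_eq_fintype_card, Fintype.card_subtype] at h1
    rw [hq, ← h1]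
  have hAs₀ : ∀ l ∈ A, l (w s₀) = 0 := by
    intro l hl
    have h1 : l v₀ = 0 := (Finset.mem_filter.1 hl).2
    rw [hc₀, map_smul, smul_eq_mul] at h1
    exact (mul_eq_zero.1 h1).resolve_left hc0
  -- the sets `X l` are contained in lines
  have hline : ∀ l ∈ A, ∃ l' : Dual K V, l' ≠ 0 ∧ ∀ s ∈ X l, l' (w s) = 0 := by
    intro l hl
    by_contra hcon
    push Not at hcon
    obtain ⟨T, hT, hB⟩ := h.basis_sub (X := X l) (Finset.filter_subset _ _) (by
      intro l' hl'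
      by_contra hne
      obtain ⟨s, hs, hs'⟩ := hcon l' hne
      exact hs' (hl' s hs))
    refine hno T (hT.trans (Finset.filter_subset _ _)) hB l (fun s hs => ?_) (Finset.mem_filter.1 hl).2
    exact (Finset.mem_filter.1 (hT hs)).2.symm
  have hle : ∀ l ∈ A, (X l).card ≤ q + 1 := by
    intro l hl
    obtain ⟨l', hl', hX⟩ := hline l hl
    rw [hq, ← h.line hl']
    refine Finset.card_le_card fun s hs => ?_
    exact Finset.mem_filter.2 ⟨(Finset.mem_filter.1 hs).1, hX s hs⟩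
  -- double counting
  have hdc : ∑ l ∈ A, (X l).card = ∑ s ∈ S, (A.filter fun l => t s = l (w s)).card :=
    Finset.sum_card_bipartiteAbove_eq_sum_card_bipartiteBelow fun (l : Dual K V) s => t s = l (w s)
  have hcol : ∀ s ∈ S.erase s₀, (A.filter fun l => t s = l (w s)).card = q := by
    intro s hs
    obtain ⟨hne, hsS⟩ := Finset.mem_erase.1 hs
    have h1 := cnt_form2 h.dim (v₀ := v₀) (v := w s) (by
      intro a b hab
      rw [hc₀, smul_smul] at hab
      obtain ⟨h2, h3⟩ := h.indep hs₀ hsS (Ne.symm hne) (a * c₀) b hab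
      exact ⟨(mul_eq_zero.1 h2).resolve_right hc0, h3⟩) (t s)
    rw [Nat.card_eq_fintype_card, Fintype.card_subtype] at h1
    rw [hq, ← h1]
    congr 1
    ext l
    simp only [A, Finset.mem_filter, Finset.mem_univ, true_and]
    exact and_congr_right fun _ => eq_comm
  have hScard := h.card
  rw [← hq] at hScard
  have hsum : ∑ l ∈ A, (X l).card = (q ^ 2 + q) * q + (A.filter fun l => t s₀ = l (w s₀)).card := by
    rw [hdc, ← Finset.sum_erase_add _ _ hs₀, Finset.sum_congr rfl hcol, Finset.sum_const,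
      Finset.card_erase_of_mem hs₀, hScard, smul_eq_mul]
    rfl
  have hub : ∑ l ∈ A, (X l).card ≤ q ^ 2 * (q + 1) := by
    calc ∑ l ∈ A, (X l).card ≤ ∑ _l ∈ A, (q + 1) := Finset.sum_le_sum hle
      _ = q ^ 2 * (q + 1) := by rw [Finset.sum_const, smul_eq_mul, hAcard]
  have he : (A.filter fun l => t s₀ = l (w s₀)).card = 0 := by
    have h1 : (q ^ 2 + q) * q = q ^ 2 * (q + 1) := by ring
    omega
  have hts₀ : t s₀ ≠ 0 := by
    intro h0
    have h1 : (0 : Dual K V) ∈ A.filter fun l => t s₀ = l (w s₀) := by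
      rw [Finset.mem_filter, h0]
      exact ⟨Finset.mem_filter.2 ⟨Finset.mem_univ _, rfl⟩, rfl⟩
    rw [Finset.card_eq_zero] at he
    rw [he] at h1
    exact absurd h1 (Finset.notMem_empty _)
  have heq : ∀ l ∈ A, (X l).card = q + 1 := by
    refine (Finset.sum_eq_sum_iff_of_le hle).1 ?_
    rw [hsum, he, Finset.sum_const, smul_eq_mul, hAcard]
    ring
  -- the forms of the lines
  have hm' : ∀ l ∈ A, ∃ m' : Dual K V, m' v₀ = 1 ∧ X l = S.filter fun s => m' (w s) = 0 := by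
    intro l hl
    obtain ⟨l', hl', hX⟩ := hline l hl
    have h1 : X l = S.filter fun s => l' (w s) = 0 := by
      refine Finset.eq_of_subset_of_card_le (fun s hs => ?_) ?_
      · exact Finset.mem_filter.2 ⟨(Finset.mem_filter.1 hs).1, hX s hs⟩
      · rw [heq l hl, hq]
        exact (h.line hl').le
    have h2 : l' (w s₀) ≠ 0 := by
      intro h0
      have h3 : s₀ ∈ X l := by
        rw [h1]
        exact Finset.mem_filter.2 ⟨hs₀, h0⟩
      have h4 := (Finset.mem_filter.1 h3).2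
      rw [hAs₀ l hl] at h4
      exact hts₀ h4
    have h3 : l' v₀ ≠ 0 := by
      rw [hc₀, map_smul, smul_eq_mul]
      exact mul_ne_zero hc0 h2
    refine ⟨(l' v₀)⁻¹ • l', ?_, ?_⟩
    · rw [LinearMap.smul_apply, smul_eq_mul, inv_mul_cancel₀ h3]
    · rw [h1]
      refine Finset.filter_congr fun s _ => ?_
      rw [LinearMap.smul_apply, smul_eq_mul, mul_eq_zero]
      exact ⟨fun h => Or.inr h, fun h => h.resolve_left (inv_ne_zero h3)⟩
  choose! F hF1 hF2 using hm'
  have hsurj : ∀ m' ∈ (Finset.univ.filter fun m' : Dual K V => m' v₀ = 1), ∃ l ∈ A, F l = m' := by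
    have hinj : Set.InjOn F A := by
      intro l₁ h₁ l₂ h₂ h12
      have e1 := hF2 l₁ h₁
      have e2 := hF2 l₂ h₂
      rw [h12, ← e2] at e1
      have h4 : l₁ - l₂ = 0 := by
        refine ker_zero h (m := F l₂) (v₀ := v₀) (fun s hs hms => ?_) (hF1 l₂ h₂) ?_
        · have h5 : s ∈ X l₂ := by
            rw [e2]
            exact Finset.mem_filter.2 ⟨hs, hms⟩
          have h6 := h5
          rw [← e1] at h6
          rw [LinearMap.sub_apply, ← (Finset.mem_filter.1 h5).2, ← (Finset.mem_filter.1 h6).2, sub_self]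
        · rw [LinearMap.sub_apply, (Finset.mem_filter.1 h₁).2, (Finset.mem_filter.1 h₂).2, sub_self]
      exact sub_eq_zero.1 h4
    have hBcard : (Finset.univ.filter fun m' : Dual K V => m' v₀ = 1).card = q ^ 2 := by
      have h1 := cnt_form h.dim hv (1 : K)
      rw [Nat.card_eq_fintype_card, Fintype.card_subtype] at h1
      rw [hq, ← h1]
    have himg : A.image F = Finset.univ.filter fun m' : Dual K V => m' v₀ = 1 := by
      refine Finset.eq_of_subset_of_card_le (fun m' hm' => ?_) ?_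
      · obtain ⟨l, hl, rfl⟩ := Finset.mem_image.1 hm'
        exact Finset.mem_filter.2 ⟨Finset.mem_univ _, hF1 l hl⟩
      · rw [Finset.card_image_of_injOn hinj, hAcard, hBcard]
    intro m' hm'
    rw [← himg] at hm'
    exact Finset.mem_image.1 hm'
  obtain ⟨l, hl, hFl⟩ := hsurj ((m v₀)⁻¹ • m) (Finset.mem_filter.2 ⟨Finset.mem_univ _, by
    rw [LinearMap.smul_apply, smul_eq_mul, inv_mul_cancel₀ hm]⟩)
  refine ⟨l, fun s hs hms => ?_⟩
  have h1 : s ∈ X l := by
    rw [hF2 l hl, hFl]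
    exact Finset.mem_filter.2 ⟨hs, by rw [LinearMap.smul_apply, hms, smul_zero]⟩
  exact (Finset.mem_filter.1 h1).2

/-- second part -/
theorem plane_cb2 (h : Plane K w S) {t : ℕ → K} {s₀ : ℕ} (hs : s₀ ∈ S)
    (hlin : ∀ m : Dual K V, m (w s₀) ≠ 0 →
      ∃ l : Dual K V, ∀ s ∈ S, m (w s) = 0 → t s = l (w s)) :
    ∃ l : Dual K V, ∀ s ∈ S, s ≠ s₀ → t s = l (w s) := by
  classical
  obtain ⟨q, hq⟩ : ∃ q, q = Fintype.card K := ⟨_, rfl⟩
  have hq2 : 2 ≤ q := by
    rw [hq]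
    exact Fintype.one_lt_card
  have hScard := h.card
  rw [← hq] at hScard
  obtain ⟨m₁, hm₁⟩ : ∃ m₁ : Dual K V, m₁ (w s₀) ≠ 0 := by
    by_contra hcon
    push Not at hcon
    exact (h.sim s₀ hs).1 ((Module.forall_dual_apply_eq_zero_iff K _).1 hcon)
  have hm₁0 : m₁ ≠ 0 := by
    rintro rfl
    exact hm₁ rfl
  obtain ⟨l₁, hl₁⟩ := hlin m₁ hm₁
  -- points off two lines
  have hoff : ∀ n : Dual K V, n ≠ 0 → ∃ s ∈ S, m₁ (w s) ≠ 0 ∧ n (w s) ≠ 0 := by
    intro n hn
    by_contra hcon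
    push Not at hcon
    have h1 : S ⊆ (S.filter fun s => m₁ (w s) = 0) ∪ (S.filter fun s => n (w s) = 0) := by
      intro s hs
      by_cases h0 : m₁ (w s) = 0
      · exact Finset.mem_union_left _ (Finset.mem_filter.2 ⟨hs, h0⟩)
      · exact Finset.mem_union_right _ (Finset.mem_filter.2 ⟨hs, hcon s hs h0⟩)
    have h2 := (Finset.card_le_card h1).trans (Finset.card_union_le _ _)
    rw [h.line hm₁0, h.line hn, ← hq, hScard] at h2
    nlinarith
  obtain ⟨s₁, hs₁, hms₁, hne₁⟩ : ∃ s₁ ∈ S, m₁ (w s₁) ≠ 0 ∧ s₁ ≠ s₀ := by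
    obtain ⟨n, hn, hn1, -⟩ := h.form2 (w s₀) (w s₀)
    obtain ⟨s₁, h1, h2, h3⟩ := hoff n hn
    refine ⟨s₁, h1, h2, ?_⟩
    rintro rfl
    exact h3 hn1
  obtain ⟨c, hc⟩ : ∃ c, c = (t s₁ - l₁ (w s₁)) / m₁ (w s₁) := ⟨_, rfl⟩
  have hcs₁ : t s₁ - l₁ (w s₁) = c * m₁ (w s₁) := by
    rw [hc, div_mul_cancel₀ _ hms₁]
  -- propagation along lines not through `s₀`
  have hprop : ∀ s ∈ S, ∀ s' ∈ S, m₁ (w s') ≠ 0 → t s' - l₁ (w s') = c * m₁ (w s') →
      ∀ n : Dual K V, n (w s) = 0 → n (w s') = 0 → n (w s₀) ≠ 0 →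
      t s - l₁ (w s) = c * m₁ (w s) := by
    intro s hsS s' hs' hm' hc' n hn1 hn2 hn3
    obtain ⟨l₂, hl₂⟩ := hlin n hn3
    have hp : (l₂ - l₁) (m₁ (w s') • w s - m₁ (w s) • w s') = 0 := by
      by_cases hp0 : m₁ (w s') • w s - m₁ (w s) • w s' = 0
      · rw [hp0, map_zero]
      obtain ⟨x, hx, γ, hγ⟩ := h.full _ hp0
      have hγ0 : γ ≠ 0 := by
        rintro rfl
        exact hp0 (by rw [hγ, zero_smul])
      have h1 : m₁ (w x) = 0 := by
        have h2 := congrArg m₁ hγ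
        rw [map_sub, map_smul, map_smul, map_smul, smul_eq_mul, smul_eq_mul, smul_eq_mul] at h2
        have h3 : γ * m₁ (w x) = 0 := by rw [← h2]; ring
        exact (mul_eq_zero.1 h3).resolve_left hγ0
      have h1' : n (w x) = 0 := by
        have h2 := congrArg n hγ
        rw [map_sub, map_smul, map_smul, map_smul, hn1, hn2, smul_eq_mul, smul_eq_mul,
          smul_eq_mul] at h2
        have h3 : γ * n (w x) = 0 := by rw [← h2]; ring
        exact (mul_eq_zero.1 h3).resolve_left hγ0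
      rw [hγ, map_smul, LinearMap.sub_apply, ← hl₂ x hx h1', ← hl₁ x hx h1, sub_self, smul_zero]
    rw [map_sub, map_smul, map_smul, LinearMap.sub_apply, LinearMap.sub_apply,
      ← hl₂ s hsS hn1, ← hl₂ s' hs' hn2, hc', smul_eq_mul, smul_eq_mul] at hp
    apply mul_left_cancel₀ hm'
    linear_combination hp
  refine ⟨l₁ + c • m₁, fun s hsS hne => ?_⟩
  have key : t s - l₁ (w s) = c * m₁ (w s) := by
    obtain ⟨n, hn, hn1, hn2⟩ := h.form2 (w s) (w s₁)
    by_cases hn3 : n (w s₀) = 0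
    · obtain ⟨s₂, hs₂, hms₂, hns₂⟩ := hoff n hn
      have h2 : t s₂ - l₁ (w s₂) = c * m₁ (w s₂) := by
        obtain ⟨n', hn', hn1', hn2'⟩ := h.form2 (w s₂) (w s₁)
        refine hprop s₂ hs₂ s₁ hs₁ hms₁ hcs₁ n' hn1' hn2' fun h0 => hn' ?_
        exact form3 h hs₁ hs hne₁ hn2 hn3 hns₂ hn2' h0 hn1'
      obtain ⟨n', hn', hn1', hn2'⟩ := h.form2 (w s) (w s₂)
      refine hprop s hsS s₂ hs₂ hms₂ h2 n' hn1' hn2' fun h0 => hn' ?_
      exact form3 h hsS hs hne hn1 hn3 hns₂ hn1' h0 hn2'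
    · exact hprop s hsS s₁ hs₁ hms₁ hcs₁ n hn1 hn2 hn3
  rw [LinearMap.add_apply, LinearMap.smul_apply, smul_eq_mul]
  linear_combination key

theorem plane_cb (h : Plane K w S) {Bs : Set (Finset ℕ)}
    (hB : ∀ T, T ⊆ S → IsB K w T → T ∈ Bs) : CB K w S Bs := by
  intro t v hv _ hdeg k
  by_contra hcon
  push Not at hcon
  obtain ⟨l₀, hl₀⟩ : ∃ l₀ : Dual K V, l₀ v = k := by
    obtain ⟨m, hm⟩ : ∃ m : Dual K V, m v ≠ 0 := by
      by_contra hcon
      push Not at hcon
      exact hv ((Module.forall_dual_apply_eq_zero_iff K _).1 hcon)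
    exact ⟨(k / m v) • m, by rw [LinearMap.smul_apply, smul_eq_mul, div_mul_cancel₀ _ hm]⟩
  obtain ⟨s₀, hs₀, c₀, hc₀⟩ := h.full v hv
  have hc0 : c₀ ≠ 0 := by
    rintro rfl
    exact hv (by rw [hc₀, zero_smul])
  have hno : ∀ T ⊆ S, IsB K w T → ∀ l : Dual K V,
      (∀ s ∈ T, l (w s) = (fun s => t s - l₀ (w s)) s) → l v ≠ 0 := by
    intro T hT hBT l hl h0
    refine hcon T (hB T hT hBT) hT hBT (l + l₀) (fun s hs => ?_) ?_
    · rw [LinearMap.add_apply, hl s hs]
      ring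
    · rw [LinearMap.add_apply, h0, hl₀, zero_add]
  obtain ⟨l, hl⟩ := plane_cb2 h (t := fun s => t s - l₀ (w s)) hs₀ fun m hm =>
    plane_cb1 h hv hno (m := m) (by
      rw [hc₀, map_smul, smul_eq_mul]
      exact mul_ne_zero hc0 hm)
  refine hdeg ⟨s₀, hs₀, ⟨l + l₀, fun x hx hne => ?_⟩, c₀, hc₀⟩
  have h1 := hl x hx hne
  rw [LinearMap.add_apply]
  linear_combination h1

theorem plane_good (h : Plane K w S) {L Ls : Set (Finset ℕ × ℕ)} {Bs : Set (Finset ℕ)}
    (hL : ∀ T z, T ⊆ S → z ∈ T → IsB K w T → (T, z) ∈ L)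
    (hLs : ∀ T x, T ⊆ S → x ∈ S → x ∉ T → IsB K w T → (T, x) ∈ Ls)
    (hB : ∀ T, T ⊆ S → IsB K w T → T ∈ Bs) : Good K w S L Ls Bs :=
  ⟨plane_ca h hL, plane_cs h hLs, plane_cb h hB, plane_cx h hB⟩

end Pool.Agent.PM
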