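import Pool.Agent.PM.N1
import Pool.Agent.PM.N4
import Pool.Agent.PM.P4
import Pool.Agent.PM.L1

set_option autoImplicit false

/-!
# Module T2: lists of the plane, rows of the plane
-/

namespace Pool.Agent.PM

open Module Pool.Agent.Helper22
open Pool.Agent.G4 (nor dif word prd IsRk Conn3 ctr)
open Pool.Agent.AM (lists)

variable {K : Type} [Field K] [DecidableEq K] [Fintype K] {X : Oracle} {E B S : List ℕ}
  {u : ℕ → ℕ → K} {D : Mx K} {c : ℕ}

private theorem t2_nor {S T : List ℕ} {e : ℕ} : e ∈ nor S T ↔ e ∈ S ∧ e ∈ T := by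
  simp [nor]

private theorem t2_prd {α β : Type} {l : List α} {m : List β} {p : α × β} :
    p ∈ prd l m ↔ p.1 ∈ l ∧ p.2 ∈ m := by
  obtain ⟨a, b⟩ := p
  simp [prd]

private theorem t2_sub (S T : List ℕ) : (nor S T).Sublist S := List.filter_sublist

private theorem t2_tri {T : List ℕ} (hT : T ∈ triS S) : T.Sublist S := by
  unfold triS at hT
  obtain ⟨p, -, rfl⟩ := List.mem_map.1 hT
  exact t2_sub _ _

omit [DecidableEq K] [Fintype K] in
private theorem t2_ex (h : Rp X E B u) (h3 : (nor B S).length = 3) {T : Finset ℕ}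
    (hT : T ⊆ S.toFinset) (hB : IsB K (cf u (nor B S).toFinset) T) :
    ∃ q ∈ triS S, q.toFinset = T := by
  have h1 := ((isB_iff _ _).1 hB).2
  have h2 : (nor B S).toFinset.card = 3 := by
    have h4 : (nor B S).Nodup := h.ndB.filter _
    rw [List.toFinset_card_of_nodup h4, h3]
  rw [h2] at h1
  obtain ⟨x, y, z, -, -, -, rfl⟩ := Finset.card_eq_three.1 h1
  have hx : x ∈ S := List.mem_toFinset.1 (hT (by simp))
  have hy : y ∈ S := List.mem_toFinset.1 (hT (by simp))
  have hz : z ∈ S := List.mem_toFinset.1 (hT (by simp))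
  refine ⟨nor S [x, y, z], ?_, ?_⟩
  · unfold triS
    refine List.mem_map.2 ⟨(x, (y, z)), ?_, rfl⟩
    rw [t2_prd, t2_prd]
    exact ⟨hx, hy, hz⟩
  · ext e
    rw [List.mem_toFinset, t2_nor]
    simp only [List.mem_cons, List.not_mem_nil, or_false, Finset.mem_insert,
      Finset.mem_singleton]
    constructor
    · exact fun h => h.2
    · intro h
      refine ⟨?_, h⟩
      rcases h with rfl | rfl | rfl <;> assumption

theorem bsT_good (h : Rp X E B u) (hS : S.Sublist E) (h3 : (nor B S).length = 3)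
    (hp : Plane K (cf u (nor B S).toFinset) S.toFinset) :
    TGood u B S (bsT X E B S) ∧ TBas u B S (bsT X E B S) := by
  have m1 : ∀ p : List ℕ × ℕ, p ∈ (bsT X E B S).1 ↔
      (p.1 ∈ triS S ∧ p.2 ∈ S) ∧ p.2 ∈ p.1 ∧ isb X E B S p.1 = true := by
    intro p
    show p ∈ List.filter _ (prd (triS S) S) ↔ _
    rw [List.mem_filter, t2_prd, Bool.and_eq_true, decide_eq_true_eq]
  have m2 : ∀ p : List ℕ × ℕ, p ∈ (bsT X E B S).2.1 ↔
      (p.1 ∈ triS S ∧ p.2 ∈ S) ∧ (p.2 ∉ p.1 ∧ p.2 ∈ S) ∧ isb X E B S p.1 = true := by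
    intro p
    show p ∈ List.filter _ (prd (triS S) S) ↔ _
    rw [List.mem_filter, t2_prd, Bool.and_eq_true, Bool.and_eq_true, decide_eq_true_eq,
      Bool.not_eq_true', decide_eq_false_iff_not]
  have m3 : ∀ T : List ℕ, T ∈ (bsT X E B S).2.2 ↔ T ∈ triS S ∧ isb X E B S T = true := by
    intro T
    show T ∈ List.filter _ (triS S) ↔ _
    rw [List.mem_filter]
  refine ⟨⟨plane_good hp ?_ ?_ ?_, ?_, ?_, ?_⟩, ?_, ?_, ?_⟩
  · intro T z hT hz hB
    obtain ⟨q, hq, rfl⟩ := t2_ex h h3 hT hB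
    exact ⟨(q, z), (m1 _).2 ⟨⟨hq, List.mem_toFinset.1 (hT hz)⟩, List.mem_toFinset.1 hz,
      (h.isb_iff hS (t2_tri hq)).2 hB⟩, rfl⟩
  · intro T x hT hx hxT hB
    obtain ⟨q, hq, rfl⟩ := t2_ex h h3 hT hB
    have hxS := List.mem_toFinset.1 hx
    exact ⟨(q, x), (m2 _).2 ⟨⟨hq, hxS⟩, ⟨fun h => hxT (List.mem_toFinset.2 h), hxS⟩,
      (h.isb_iff hS (t2_tri hq)).2 hB⟩, rfl⟩
  · intro T hT hB
    obtain ⟨q, hq, rfl⟩ := t2_ex h h3 hT hB
    exact ⟨q, (m3 _).2 ⟨hq, (h.isb_iff hS (t2_tri hq)).2 hB⟩, rfl⟩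
  · intro p hp
    obtain ⟨⟨h1, -⟩, h2, -⟩ := (m1 p).1 hp
    exact ⟨t2_tri h1, h2⟩
  · intro p hp
    obtain ⟨⟨h1, -⟩, ⟨h2, h4⟩, -⟩ := (m2 p).1 hp
    exact ⟨t2_tri h1, h4, h2⟩
  · intro T hT
    exact t2_tri ((m3 T).1 hT).1
  · intro p hp
    obtain ⟨⟨h1, -⟩, -, h2⟩ := (m1 p).1 hp
    exact (h.isb_iff hS (t2_tri h1)).1 h2
  · intro p hp
    obtain ⟨⟨h1, -⟩, -, h2⟩ := (m2 p).1 hp
    exact (h.isb_iff hS (t2_tri h1)).1 h2
  · intro T hT
    obtain ⟨h1, h2⟩ := (m3 T).1 hT
    exact (h.isb_iff hS (t2_tri h1)).1 h2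

theorem mem_lists {β : Type} (P : List β) (n : ℕ) (l : List β) :
    l ∈ lists P n ↔ l.length = n ∧ ∀ x ∈ l, x ∈ P := by
  induction n generalizing l with
  | zero =>
    unfold lists
    rw [List.mem_singleton, List.length_eq_zero_iff]
    constructor
    · rintro rfl
      simp
    · exact fun h => h.1
  | succ n ih =>
    unfold lists
    simp only [List.mem_flatMap, List.mem_map]
    constructor
    · rintro ⟨p, hp, l', hl', rfl⟩
      obtain ⟨h1, h2⟩ := (ih l').1 hl'
      refine ⟨by rw [List.length_cons, h1], fun x hx => ?_⟩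
      rcases List.mem_cons.1 hx with rfl | hx
      · exact hp
      · exact h2 x hx
    · rintro ⟨h1, h2⟩
      rcases l with _ | ⟨a, l'⟩
      · simp at h1
      · refine ⟨a, h2 a List.mem_cons_self, l', (ih l').2 ⟨?_, fun x hx =>
          h2 x (List.mem_cons_of_mem _ hx)⟩, rfl⟩
        rw [List.length_cons] at h1
        omega

theorem plane_cos {V : Type} [AddCommGroup V] [Module K V] {w : ℕ → V} {S : Finset ℕ}
    (hp : Plane K w S) : Cos K w S := by
  intro a ha b hb l hl
  by_contra hne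
  have hq : 1 < Fintype.card K := Fintype.one_lt_card
  have h1 := hp.line hne
  have h2 : (S.erase a).erase b ⊆ S.filter fun s => l (w s) = 0 := by
    intro s hs
    obtain ⟨h3, h4⟩ := Finset.mem_erase.1 hs
    obtain ⟨h5, h6⟩ := Finset.mem_erase.1 h4
    exact Finset.mem_filter.2 ⟨h6, hl s h6 h5 h3⟩
  have h3 := Finset.card_le_card h2
  have h4 : S.card ≤ ((S.erase a).erase b).card + 2 := by
    have h5 := Finset.pred_card_le_card_erase (s := S) (a := a)
    have h6 := Finset.pred_card_le_card_erase (s := S.erase a) (a := b)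
    omega
  rw [h1] at h3
  rw [hp.card] at h4
  have h5 : 2 * Fintype.card K ≤ Fintype.card K ^ 2 := by
    rw [sq]
    exact Nat.mul_le_mul_right _ hq
  omega

/-- the function `f` is linear on the circuit `p` -/
private def LO (u : ℕ → ℕ → K) (R : Finset ℕ) (f : ℕ → K) (p : List ℕ × ℕ) : Prop :=
  ∃ l : Dual K (R → K), (∀ s ∈ p.1.toFinset, l (cf u R s) = f s) ∧ l (cf u R p.2) = f p.2

omit [DecidableEq K] [Fintype K] in
private theorem LO_iff {R : Finset ℕ} {f : ℕ → K} {p : List ℕ × ℕ}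
    (hT : IsB K (cf u R) p.1.toFinset) {l : Dual K (R → K)}
    (hl : ∀ s ∈ p.1.toFinset, l (cf u R s) = f s) : LO u R f p ↔ l (cf u R p.2) = f p.2 := by
  constructor
  · rintro ⟨l', h1, h2⟩
    have h3 : l = l' := hT.eq fun s hs => by rw [hl s hs, h1 s hs]
    rw [h3]
    exact h2
  · exact fun h => ⟨l, hl, h⟩

omit [DecidableEq K] [Fintype K] in
private theorem t2_span (h : Rp X E B u) {l : Dual K ((nor B S).toFinset → K)}
    (hl : ∀ b ∈ nor B S, l (cf u (nor B S).toFinset b) = 0) : l = 0 := by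
  refine LinearMap.pi_ext fun i x => ?_
  have h1 : Pi.single i x = x • cf u (nor B S).toFinset i := by
    funext j
    have h2 := h.unit i (t2_nor.1 (List.mem_toFinset.1 i.2)).1 j
    rw [Pi.smul_apply, Pi.single_apply]
    show _ = x • u i j
    rw [h2]
    by_cases hj : j = i
    · rw [if_pos hj, if_pos (congrArg Subtype.val hj), smul_eq_mul, mul_one]
    · rw [if_neg hj, if_neg (fun h => hj (Subtype.ext h)), smul_eq_mul, mul_zero]
  rw [h1, map_smul, hl i (List.mem_toFinset.1 i.2), smul_zero, LinearMap.zero_apply]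

omit [DecidableEq K] [Fintype K] in
private theorem t2_zero (h : Rp X E B u) {t : Trip} (hG : TGood u B S t)
    (hcos : Cos K (cf u (nor B S).toFinset) S.toFinset) (h2 : 2 ≤ S.toFinset.card)
    {f g : ℕ → K} (hf : ∀ b ∈ nor B S, f b = 0)
    (hfg : ∀ p ∈ t.2.1, LO u (nor B S).toFinset f p ↔ LO u (nor B S).toFinset g p)
    (hg : ∀ s ∈ S, g s = 0) : ∀ s ∈ S, f s = 0 := by
  have hlin : Lin (cf u (nor B S).toFinset) S.toFinset f := by
    by_contra hn
    obtain ⟨T, x, ⟨q, hq, hqe⟩, h3, h4, h5, h6, l, hl, hlx⟩ := nonlin_circ hG.good.cs hcos h2 hn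
    rw [Prod.mk.injEq] at hqe
    obtain ⟨rfl, rfl⟩ := hqe
    have h7 : LO u (nor B S).toFinset g q := by
      refine ⟨0, fun s hs => ?_, ?_⟩
      · rw [LinearMap.zero_apply, hg s (List.mem_toFinset.1 (h3 hs))]
      · rw [LinearMap.zero_apply, hg _ (List.mem_toFinset.1 h4)]
    exact hlx ((LO_iff h6 hl).1 ((hfg q hq).2 h7))
  obtain ⟨l, hl⟩ := hlin
  have h0 : l = 0 := t2_span h fun b hb => by
    rw [← hl b (List.mem_toFinset.2 (t2_nor.1 hb).2), hf b hb]
  intro s hs
  rw [hl s (List.mem_toFinset.2 hs), h0, LinearMap.zero_apply]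

omit [DecidableEq K] [Fintype K] in
private theorem t2_map {S : List ℕ} (hS : S.Nodup) {v : List K}
    (hv : v.length = S.length) : ∃ f : ℕ → K, v = S.map f := by
  induction S generalizing v with
  | nil =>
    rw [List.length_nil, List.length_eq_zero_iff] at hv
    exact ⟨fun _ => 0, by rw [hv]; rfl⟩
  | cons a S ih =>
    rcases v with _ | ⟨x, v⟩
    · simp at hv
    · rw [List.nodup_cons] at hS
      obtain ⟨f, hf⟩ := ih hS.2 (v := v) (by simpa using hv)
      refine ⟨fun s => if s = a then x else f s, ?_⟩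
      rw [List.map_cons, if_pos rfl, hf]
      congr 1
      refine List.map_congr_left fun s hs => ?_
      rw [if_neg]
      rintro rfl
      exact hS.1 hs

theorem rwC_spec (h : Rp X E B u) (hS : S.Sublist E)
    (hl : S.length = Fintype.card K ^ 2 + Fintype.card K + 1)
    (hp : Plane K (cf u (nor B S).toFinset) S.toFinset)
    (hD : ∀ s ∈ S, ∀ i ∈ nor B S, ent D s i = u s i) {t : Trip} (hG : TGood u B S t)
    (hb : TBas u B S t) (hc : c ∈ B) (hcS : c ∉ S) :
    ∃ m : K, m ≠ 0 ∧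
      rwC (lists (Finset.univ : Finset K).toList (Fintype.card K ^ 2 + Fintype.card K + 1))
        X E B S D t.2.1 c = S.map fun s => m * u s c := by
  have hSn : S.Nodup := h.ndE.sublist hS
  have hRn : (nor B S).Nodup := h.ndB.filter _
  have hcos := plane_cos hp
  have hq : 1 < Fintype.card K := Fintype.one_lt_card
  have h2 : 2 ≤ S.toFinset.card := by
    rw [hp.card]
    omega
  -- the test
  have hdot : ∀ f : ℕ → K, ∀ p ∈ t.2.1,
      dot (cir D (nor B S) S p.1 p.2) (S.map f) = 0 ↔ LO u (nor B S).toFinset f p := by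
    intro f p hpt
    obtain ⟨h3, h4, h5⟩ := hG.sS p hpt
    have hT := hb.bS p hpt
    obtain ⟨l, hl⟩ := hT.form f
    rw [cir_dot hRn hSn hD (fun x hx => h3.subset hx) hT h4 h5 hl, sub_eq_zero, LO_iff hT hl]
  have hask : ∀ p ∈ t.2.1, askS X E B S c p = true ↔ ¬ LO u (nor B S).toFinset (fun s => u s c) p := by
    intro p hpt
    obtain ⟨h3, h4, h5⟩ := hG.sS p hpt
    have hT := hb.bS p hpt
    obtain ⟨l, hl⟩ := hT.form fun s => u s c
    rw [h.askS hS h3 h4 h5 hc hcS hT hl, LO_iff hT hl]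
  have hP : ∀ f : ℕ → K, (((S.zip (S.map f)).all fun p => !decide (p.1 ∈ B) || decide (p.2 = 0)) &&
      t.2.1.all fun p => askS X E B S c p ==
        !decide (dot (cir D (nor B S) S p.1 p.2) (S.map f) = 0)) = true ↔
      (∀ b ∈ nor B S, f b = 0) ∧ ∀ p ∈ t.2.1, LO u (nor B S).toFinset f p ↔
        LO u (nor B S).toFinset (fun s => u s c) p := by
    intro f
    rw [Bool.and_eq_true, List.all_eq_true, List.all_eq_true]
    refine and_congr ?_ ?_
    · have hz : S.zip (S.map f) = S.map fun s => (s, f s) := by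
        clear hS hl hp hD hG hb hcS hSn hRn hcos h2 hdot hask
        induction S with
        | nil => rfl
        | cons a S ih => rw [List.map_cons, List.zip_cons_cons, ih, List.map_cons]
      rw [hz]
      constructor
      · intro h3 b hbn
        obtain ⟨h4, h5⟩ := t2_nor.1 hbn
        have h6 := h3 (b, f b) (List.mem_map.2 ⟨b, h5, rfl⟩)
        simpa [h4] using h6
      · intro h3 x hx
        obtain ⟨s, hs, rfl⟩ := List.mem_map.1 hx
        by_cases hsB : s ∈ B
        · simp [h3 s (t2_nor.2 ⟨hsB, hs⟩)]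
        · simp [hsB]
    · refine forall_congr' fun p => forall_congr' fun hpt => ?_
      rw [← hdot f p hpt]
      have h3 := hask p hpt
      by_cases h4 : dot (cir D (nor B S) S p.1 p.2) (S.map f) = 0
      · rw [decide_eq_true h4]
        by_cases h5 : LO u (nor B S).toFinset (fun s => u s c) p
        · have h6 : askS X E B S c p = false := by
            rw [← Bool.not_eq_true, h3]
            exact fun h => h h5
          simp [h4, h5, h6]
        · have h6 := h3.2 h5
          simp [h4, h5, h6]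
      · rw [decide_eq_false h4]
        by_cases h5 : LO u (nor B S).toFinset (fun s => u s c) p
        · have h6 : askS X E B S c p = false := by
            rw [← Bool.not_eq_true, h3]
            exact fun h => h h5
          simp [h4, h5, h6]
        · have h6 := h3.2 h5
          simp [h4, h5, h6]
  have hu0 : ∀ b ∈ nor B S, u b c = 0 := by
    intro b hbn
    obtain ⟨h4, h5⟩ := t2_nor.1 hbn
    rw [h.unit b h4, if_neg]
    rintro rfl
    exact hcS h5
  -- the result
  have hex : ∃ f : ℕ → K, rwC (lists (Finset.univ : Finset K).toList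
      (Fintype.card K ^ 2 + Fintype.card K + 1)) X E B S D t.2.1 c = S.map f ∧
      (∀ b ∈ nor B S, f b = 0) ∧ ∀ p ∈ t.2.1, LO u (nor B S).toFinset f p ↔
        LO u (nor B S).toFinset (fun s => u s c) p := by
    obtain ⟨Q, hQ⟩ : ∃ Q : List K → Bool, Q = fun v =>
      ((S.zip v).all fun p => !decide (p.1 ∈ B) || decide (p.2 = 0)) &&
      t.2.1.all fun p => askS X E B S c p ==
        !decide (dot (cir D (nor B S) S p.1 p.2) v = 0) := ⟨_, rfl⟩
    have hr : rwC (lists (Finset.univ : Finset K).toList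
      (Fintype.card K ^ 2 + Fintype.card K + 1)) X E B S D t.2.1 c =
      ((lists (Finset.univ : Finset K).toList
        (Fintype.card K ^ 2 + Fintype.card K + 1)).filter Q).headD [] := by
      rw [hQ]
      rfl
    have hQf : ∀ f : ℕ → K, Q (S.map f) = true ↔ (∀ b ∈ nor B S, f b = 0) ∧
        ∀ p ∈ t.2.1, LO u (nor B S).toFinset f p ↔
        LO u (nor B S).toFinset (fun s => u s c) p := by
      intro f
      rw [hQ]
      exact hP f
    have hmem : (S.map fun s => u s c) ∈ (lists (Finset.univ : Finset K).toList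
        (Fintype.card K ^ 2 + Fintype.card K + 1)).filter Q := by
      rw [List.mem_filter]
      refine ⟨(mem_lists _ _ _).2 ⟨by rw [List.length_map, hl], fun x _ => by simp⟩, ?_⟩
      exact (hQf _).2 ⟨hu0, fun p _ => Iff.rfl⟩
    obtain ⟨v, vs, hvs⟩ := List.exists_cons_of_ne_nil (List.ne_nil_of_mem hmem)
    have hv : v ∈ (lists (Finset.univ : Finset K).toList
        (Fintype.card K ^ 2 + Fintype.card K + 1)).filter Q := by
      rw [hvs]
      exact List.mem_cons_self
    obtain ⟨h3, h4⟩ := List.mem_filter.1 hv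
    obtain ⟨f, rfl⟩ := t2_map hSn (v := v) (by rw [((mem_lists _ _ _).1 h3).1, hl])
    refine ⟨f, ?_, (hQf f).1 h4⟩
    rw [hr, hvs]
    rfl
  obtain ⟨f, hf, hf0, hfp⟩ := hex
  rw [hf]
  have hind : ¬ Ind2 (cf u (nor B S).toFinset) S.toFinset f (fun s => u s c) := by
    intro hi
    obtain ⟨T, x, ⟨q, hq, hqe⟩, h3, h4, h5, h6, ⟨l, hl, hlx⟩, l', hl', hlx'⟩ := hG.good.cs _ _ hi
    rw [Prod.mk.injEq] at hqe
    obtain ⟨rfl, rfl⟩ := hqe
    exact hlx' ((LO_iff (f := fun s => u s c) h6 hl').1 ((hfp q hq).1 ⟨l, hl, hlx⟩))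
  unfold Ind2 at hind
  push Not at hind
  obtain ⟨a, b, ⟨l, hl0⟩, hab⟩ := hind
  have hl1 : ∀ s ∈ S, a * f s + b * u s c = l (cf u (nor B S).toFinset s) :=
    fun s hs => hl0 s (List.mem_toFinset.2 hs)
  have hl00 : l = 0 := t2_span h fun s hs => by
    rw [← hl1 s (t2_nor.1 hs).2, hf0 s hs, hu0 s hs]
    ring
  have hrel : ∀ s ∈ S, a * f s + b * u s c = 0 := by
    intro s hs
    rw [hl1 s hs, hl00, LinearMap.zero_apply]
  by_cases hz : ∀ s ∈ S, u s c = 0
  · have h3 := t2_zero h hG hcos h2 hf0 hfp hz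
    refine ⟨1, one_ne_zero, List.map_congr_left fun s hs => ?_⟩
    rw [h3 s hs, hz s hs, mul_zero]
  · push Not at hz
    obtain ⟨s₁, hs₁, hus₁⟩ := hz
    have ha : a ≠ 0 := by
      intro ha
      have h3 := hrel s₁ hs₁
      rw [ha, zero_mul, zero_add] at h3
      exact hab ha ((mul_eq_zero.1 h3).resolve_right hus₁)
    have hb0 : b ≠ 0 := by
      intro hb0
      have h3 : ∀ s ∈ S, f s = 0 := by
        intro s hs
        have h4 := hrel s hs
        rw [hb0, zero_mul, add_zero] at h4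
        exact (mul_eq_zero.1 h4).resolve_left ha
      exact hus₁ (t2_zero h hG hcos h2 hu0 (fun p hp => (hfp p hp).symm) h3 s₁ hs₁)
    refine ⟨-(b / a), neg_ne_zero.2 (div_ne_zero hb0 ha), List.map_congr_left fun s hs => ?_⟩
    have h4 := hrel s hs
    field_simp
    linear_combination h4

end Pool.Agent.PM
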