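import Pool.Agent.PM.T1
import Pool.Agent.PM.T2
import Pool.Agent.PM.N3
import Pool.Agent.PM.N10

set_option autoImplicit false

/-!
# Module T3: the first state is correct
-/

namespace Pool.Agent.PM

open Module Pool.Agent.Helper22
open Pool.Agent.G4 (nor dif word prd IsRk Conn3 ctr)
open Pool.Agent.BW (rkX rkV RkS cod dcd)
open Pool.Agent.AM (prmQ cht1 trip lists)

variable {K : Type} [Field K] [DecidableEq K] [Fintype K] {X : Oracle} {E B A S : List ℕ}
  {a b c : ℕ} (e : Fin (Fintype.card K) ≃ K)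

private theorem t3_mem_dif {A C : List ℕ} {x : ℕ} : x ∈ dif A C ↔ x ∈ A ∧ x ∉ C := by
  unfold dif
  rw [List.mem_filter]
  simp

private theorem t3_mem_nor {A C : List ℕ} {x : ℕ} : x ∈ nor A C ↔ x ∈ A ∧ x ∈ C := by
  unfold nor
  rw [List.mem_filter]
  simp

omit [Fintype K] in
private theorem t3_filter_nil {D : Mx K} {y i : ℕ} (h : ∀ v, ((y, i), v) ∉ D) :
    (D.filter fun p => decide (p.1 = (y, i))) = [] := by
  rw [List.filter_eq_nil_iff]
  intro p hp hpe
  have h2 : p.1 = (y, i) := of_decide_eq_true hpe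
  have h3 : p = ((y, i), p.2) := by rw [← h2]
  rw [h3] at hp
  exact h _ hp

omit [Fintype K] in
private theorem t3_skip {D D' : Mx K} {y i : ℕ} (h : ∀ v, ((y, i), v) ∉ D) :
    ent (D ++ D') y i = ent D' y i := by
  unfold ent
  rw [List.filter_append, t3_filter_nil h, List.nil_append]

omit [Fintype K] in
private theorem t3_val {D D' : Mx K} {y i : ℕ} {v : K} (h1 : ((y, i), v) ∈ D)
    (h2 : ∀ v', ((y, i), v') ∈ D → v' = v) : ent (D ++ D') y i = v := by
  unfold ent
  rw [List.filter_append]
  have h3 : ((y, i), v) ∈ D.filter fun p => decide (p.1 = (y, i)) :=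
    List.mem_filter.2 ⟨h1, by simp⟩
  rcases hl : D.filter fun p => decide (p.1 = (y, i)) with _ | ⟨p, l⟩
  · rw [hl] at h3
    exact absurd h3 List.not_mem_nil
  · have h4 : p ∈ D.filter fun p => decide (p.1 = (y, i)) := by
      rw [hl]
      exact List.mem_cons_self
    obtain ⟨h5, h6⟩ := List.mem_filter.1 h4
    have h7 : p.1 = (y, i) := of_decide_eq_true h6
    have h8 : p = ((y, i), p.2) := by rw [← h7]
    rw [h8] at h5
    rw [hl]
    exact h2 p.2 h5

private theorem t3_zip {α : Type} {S : List ℕ} {f : ℕ → α} {p : ℕ × α}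
    (h : p ∈ S.zip (S.map f)) : p.1 ∈ S ∧ p.2 = f p.1 := by
  induction S with
  | nil => exact absurd h (by simp)
  | cons a l ih =>
    rw [List.map_cons, List.zip_cons_cons] at h
    rcases List.mem_cons.1 h with rfl | h
    · exact ⟨List.mem_cons_self, rfl⟩
    · exact ⟨List.mem_cons_of_mem _ (ih h).1, (ih h).2⟩

private theorem t3_zip' {α : Type} {S : List ℕ} {f : ℕ → α} {x : ℕ} (h : x ∈ S) :
    (x, f x) ∈ S.zip (S.map f) := by
  induction S with
  | nil => exact absurd h List.not_mem_nil
  | cons a l ih =>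
    rw [List.map_cons, List.zip_cons_cons]
    rcases List.mem_cons.1 h with rfl | h
    · exact List.mem_cons_self
    · exact List.mem_cons_of_mem _ (ih h)

omit [DecidableEq K] in
private theorem t3_plane {u : ℕ → ℕ → K} (h : Rp X E B u) (h3 : (nor B S).length = 3)
    (hS : S.Sublist E) (hl : S.length = Fintype.card K ^ 2 + Fintype.card K + 1)
    (hc : Conn3 (rkM u B S) S.toFinset) :
    Plane K (cf u (nor B S).toFinset) S.toFinset := by
  classical
  have hSn : S.Nodup := h.ndE.sublist hS
  have hNn : (nor B S).Nodup := h.ndB.sublist List.filter_sublist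
  refine plane_of_card ?_ (conn_sim (fun l hl => cf_span (R := (nor B S).toFinset)
    (S := S.toFinset) ?_ ?_ l hl) hc).1 ?_
  · rw [finrank_fintype_fun_eq_card, Fintype.card_coe, List.toFinset_card_of_nodup hNn, h3]
  · intro x hx
    exact List.mem_toFinset.2 (t3_mem_nor.1 (List.mem_toFinset.1 hx)).2
  · intro b hb
    exact h.unit b (t3_mem_nor.1 (List.mem_toFinset.1 hb)).1
  · rw [List.toFinset_card_of_nodup hSn, hl]

theorem bsSt_inv (hex : ∃ u : ℕ → ℕ → K, Rp X E B u) (hB : B = a :: b :: c :: A)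
    (hn : nor B S = [a, b, c]) (hS : S.Sublist E)
    (hl : S.length = Fintype.card K ^ 2 + Fintype.card K + 1)
    (hc : ∀ u : ℕ → ℕ → K, Rp X E B u → Conn3 (rkM u B S) S.toFinset) :
    Inv X E B (bsSt
      (lists (Finset.univ : Finset K).toList (Fintype.card K ^ 2 + Fintype.card K + 1))
      (dcd e) (prmQ e) X E B S) := by
  obtain ⟨u₀, h₀⟩ := hex
  have h3 : (nor B S).length = 3 := by rw [hn]; rfl
  have hf : Pool.Agent.AM.Full E u₀ a b c :=
    full_of_plane h₀ hB hS hn (t3_plane h₀ h3 hS hl (hc u₀ h₀))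
  obtain ⟨u, h, hD⟩ := chart_ok e h₀ hB hf
  have hp := t3_plane h h3 hS hl (hc u h)
  obtain ⟨hG, hb⟩ := bsT_good h hS h3 hp
  have hrow : ∀ c', ∃ m : K, m ≠ 0 ∧ (c' ∈ S → m = 1) ∧ (c' ∈ B → c' ∉ S →
      rwC (lists (Finset.univ : Finset K).toList (Fintype.card K ^ 2 + Fintype.card K + 1))
        X E B S (bsC (dcd e) (prmQ e) X E B (cht1 (prmQ e) (fun T => rkX X E T) B E (trip B)))
        (bsT X E B S).2.1 c' = S.map fun s => m * u s c') := by
    intro c'
    by_cases hc1 : c' ∈ B ∧ c' ∉ S
    · obtain ⟨m, hm, hm2⟩ := rwC_spec h hS hl hp (D := bsC (dcd e) (prmQ e) X E B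
        (cht1 (prmQ e) (fun T => rkX X E T) B E (trip B))) (fun s hs i hi => by
          rw [hn] at hi
          exact hD s (hS.subset hs) i hi) hG hb hc1.1 hc1.2
      exact ⟨m, hm, fun hh => absurd hh hc1.2, fun _ _ => hm2⟩
    · exact ⟨1, one_ne_zero, fun _ => rfl, fun hh1 hh2 => absurd ⟨hh1, hh2⟩ hc1⟩
  choose μ hμ hμS hμr using hrow
  have h2 := h.trans (RingEquiv.refl K) hμ (κ := fun _ => 1) (fun _ => one_ne_zero)
  have hp2 := t3_plane h2 h3 hS hl (hc _ h2)
  obtain ⟨hG2, hb2⟩ := bsT_good h2 hS h3 hp2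
  refine ⟨hS, _, h2, ?_, hG2, hb2⟩
  intro y hy i hi hor
  show ent (bsD (lists (Finset.univ : Finset K).toList (Fintype.card K ^ 2 + Fintype.card K + 1))
    X E B S (bsC (dcd e) (prmQ e) X E B (cht1 (prmQ e) (fun T => rkX X E T) B E (trip B)))
    (bsT X E B S).2.1) y i = if y ∈ B then u y i else 1 * (μ i * (RingEquiv.refl K) (u y i))
  unfold bsD
  by_cases hiS : i ∈ S
  · have hii : i ∈ [a, b, c] := by
      rw [← hn]
      exact t3_mem_nor.2 ⟨hi, hiS⟩
    rw [t3_skip, t3_skip, hD y hy i hii, hμS i hiS, RingEquiv.refl_apply, one_mul, one_mul, ite_self]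
    · intro v hv
      obtain ⟨c', hc', he⟩ := List.mem_map.1 hv
      have h5 := (Prod.mk.inj (Prod.mk.inj he).1).2
      rw [← h5] at hiS
      exact (t3_mem_dif.1 hc').2 hiS
    · intro v hv
      obtain ⟨c', hc', he⟩ := List.mem_flatMap.1 hv
      obtain ⟨p, _, he⟩ := List.mem_map.1 he
      have h5 := (Prod.mk.inj (Prod.mk.inj he).1).2
      rw [← h5] at hiS
      exact (t3_mem_dif.1 hc').2 hiS
  · have hnii : i ∉ [a, b, c] := by
      rw [← hn, t3_mem_nor]
      exact fun hh => hiS hh.2
    by_cases hyS : y ∈ S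
    · have hval : ent (((dif B S).flatMap fun c => (S.zip (rwC
          (lists (Finset.univ : Finset K).toList (Fintype.card K ^ 2 + Fintype.card K + 1))
          X E B S (bsC (dcd e) (prmQ e) X E B (cht1 (prmQ e) (fun T => rkX X E T) B E (trip B)))
          (bsT X E B S).2.1 c)).map fun p => ((p.1, c), p.2)) ++
          (((dif B S).map fun c => ((c, c), (1 : K))) ++
          bsC (dcd e) (prmQ e) X E B (cht1 (prmQ e) (fun T => rkX X E T) B E (trip B)))) y i =
          μ i * u y i := by
        apply t3_val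
        · refine List.mem_flatMap.2 ⟨i, t3_mem_dif.2 ⟨hi, hiS⟩, List.mem_map.2
            ⟨(y, μ i * u y i), ?_, rfl⟩⟩
          rw [hμr i hi hiS]
          exact t3_zip' (f := fun s => μ i * u s i) hyS
        · intro v hv
          obtain ⟨c', hc', he⟩ := List.mem_flatMap.1 hv
          obtain ⟨p, hp1, he⟩ := List.mem_map.1 he
          have h5 := (Prod.mk.inj (Prod.mk.inj he).1).2
          have h6 := (Prod.mk.inj (Prod.mk.inj he).1).1
          have h7 := (Prod.mk.inj he).2
          subst h5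
          rw [hμr c' hi hiS] at hp1
          rw [← h7, (t3_zip hp1).2, h6]
      rw [hval]
      by_cases hyB : y ∈ B
      · rw [if_pos hyB]
        have h5 : u y i = 0 := by
          rw [h.unit y hyB i, if_neg]
          rintro rfl
          exact hiS hyS
        rw [h5, mul_zero]
      · rw [if_neg hyB, RingEquiv.refl_apply, one_mul]
    · have hyB : y ∈ B := by
        rcases hor with hh | hh | hh
        · exact absurd hh hiS
        · exact absurd hh hyS
        · exact hh
      rw [if_pos hyB, t3_skip, h.unit y hyB i]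
      · by_cases hiy : i = y
        · subst hiy
          rw [if_pos rfl]
          apply t3_val
          · exact List.mem_map.2 ⟨i, t3_mem_dif.2 ⟨hi, hiS⟩, rfl⟩
          · intro v hv
            obtain ⟨c', _, he⟩ := List.mem_map.1 hv
            exact (Prod.mk.inj he).2.symm
        · rw [if_neg hiy, t3_skip]
          · exact bsC_other e hB hnii _
          · intro v hv
            obtain ⟨c', _, he⟩ := List.mem_map.1 hv
            have h5 := (Prod.mk.inj (Prod.mk.inj he).1).2
            have h6 := (Prod.mk.inj (Prod.mk.inj he).1).1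
            exact hiy (h5.symm.trans h6)
      · intro v hv
        obtain ⟨c', _, he⟩ := List.mem_flatMap.1 hv
        obtain ⟨p, hp1, he⟩ := List.mem_map.1 he
        have h6 := (Prod.mk.inj (Prod.mk.inj he).1).1
        rw [← h6] at hyS
        exact hyS (List.of_mem_zip hp1).1

end Pool.Agent.PM
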