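import Pool.Agent.PM.CD
import Pool.Agent.PM.N10
import Pool.Agent.PM.T3

set_option autoImplicit false

/-!
# Module C5: existence of coordinates; all steps of the reconstruction

* `exists_rp`: as `exists_srep` in `Pool/Agent/AM/SrE.lean`: the vectors `v b`, `b ∈ B`, are linearly independent and span the `v y`,
`y ∈ E`; `u y i` is the coordinate of `v y` (`if y ∈ B then (if i = y then 1 else 0) else ...`, zero for `y ∉ E` and `i ∉ B`). The
linear map `(x : ℕ → K) ↦ ∑ b ∈ B, x b • v b` is injective on functions supported on `B` and maps `u y` to `v y`, so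
independence is the same. (`Orf` and `rkV`: the family `v t`, `t ∈ T`, is independent iff its span has dimension
`|T|`.)
* `orf_eq`: both are computed by `rkX` (`greedy_rk`).
* `fold_inv`: induction on `os`: `step_inv`; `Conn3 (rkM u B S) S` for every `u`: `rkM_ctr`, `orf_eq` (`Rp.orf`), `Conn3.congr`. The ground set of
`stepB .. s o` is `nor E (s.1 ++ (o.1 ++ o.2))` by definition.
-/

namespace Pool.Agent.PM

open Finset Pool.Agent.Helper22
open Pool.Agent.G4 (nor dif word prd IsRk Conn3 ctr lam dualR)
open Pool.Agent.BW (rkX rkD RkS rkV)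

variable {K : Type} [Field K] {X : Oracle} {E B S : List ℕ} {r r' : Finset ℕ → ℤ}

private theorem c5_li {V : Type} [AddCommGroup V] [Module K V] (v : ℕ → V) (T : Finset ℕ) :
    LinearIndependent K (fun t : T => v t) ↔ rkV K v T = (T.card : ℤ) := by
  rw [linearIndependent_iff_card_eq_finrank_span, Fintype.card_coe]
  have e1 : Set.range (fun t : T => v t) = v '' (T : Set ℕ) := by
    ext x
    constructor
    · rintro ⟨t, rfl⟩
      exact ⟨t, t.2, rfl⟩
    · rintro ⟨t, ht, rfl⟩
      exact ⟨⟨t, ht⟩, rfl⟩
  rw [e1]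
  unfold Pool.Agent.BW.rkV Pool.Agent.BW.sp Set.finrank
  constructor
  · intro h
    rw [← h]
  · intro h
    exact_mod_cast h.symm

theorem exists_rp {V : Type} [AddCommGroup V] [Module K V] {v : ℕ → V} (hE : E.Nodup)
    (hn : B.Nodup) (hB : ∀ b ∈ B, b ∈ E) (hX : Orf X E (rkV K v))
    (hi : rkV K v B.toFinset = (B.toFinset.card : ℤ))
    (hs : rkV K v B.toFinset = rkV K v E.toFinset) : ∃ u : ℕ → ℕ → K, Rp X E B u := by
  classical
  have hli := (c5_li v B.toFinset).2 hi
  have hspan : ∀ y ∈ E, v y ∈ Submodule.span K (v '' (B.toFinset : Set ℕ)) := by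
    intro y hy
    have h1 : Submodule.span K (v '' (B.toFinset : Set ℕ)) =
        Submodule.span K (v '' (E.toFinset : Set ℕ)) := by
      have : FiniteDimensional K (Submodule.span K (v '' (E.toFinset : Set ℕ))) :=
        FiniteDimensional.span_of_finite K ((E.toFinset.finite_toSet).image v)
      refine Submodule.eq_of_le_of_finrank_eq (Submodule.span_mono (Set.image_mono ?_)) ?_
      · intro b hb
        have := hB b (by simpa using hb)
        simpa using this
      · have h2 : (Module.finrank K (Submodule.span K (v '' (B.toFinset : Set ℕ))) : ℤ) =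
            (Module.finrank K (Submodule.span K (v '' (E.toFinset : Set ℕ))) : ℤ) := hs
        exact_mod_cast h2
    rw [h1]
    exact Submodule.subset_span ⟨y, by simpa using hy, rfl⟩
  have hco : ∀ y ∈ E, ∃ c : ℕ → K, ∑ b ∈ B.toFinset, c b • v b = v y := by
    intro y hy
    have h1 := hspan y hy
    rw [Submodule.mem_span_image_finset_iff_exists_fun] at h1
    obtain ⟨c, hc⟩ := h1
    refine ⟨fun b => if h : b ∈ B.toFinset then c ⟨b, h⟩ else 0, ?_⟩
    rw [← hc, ← Finset.sum_attach B.toFinset, Finset.univ_eq_attach]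
    refine Finset.sum_congr rfl fun b _ => ?_
    simp only [b.2, dif_pos]
  choose c hc using hco
  set u : ℕ → ℕ → K := fun y i => if y ∈ B then (if i = y then 1 else 0) else
    if hy : y ∈ E then (if i ∈ B then c y hy i else 0) else 0 with hu
  have huB : ∀ b ∈ B, ∀ i, u b i = if i = b then 1 else 0 := by
    intro b hb i
    rw [hu]
    simp only [hb, if_true]
  have hsup : ∀ y i, i ∉ B → u y i = 0 := by
    intro y i hi
    rw [hu]
    by_cases hy : y ∈ B
    · have hne : i ≠ y := by
        rintro rfl
        exact hi hy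
      simp only [hy, if_true, hne, if_false]
    · simp only [hy, if_false, hi]
      split_ifs <;> rfl
  -- the linear map
  let L : (ℕ → K) →ₗ[K] V :=
    { toFun := fun x => ∑ b ∈ B.toFinset, x b • v b
      map_add' := by
        intro x y
        rw [← Finset.sum_add_distrib]
        refine Finset.sum_congr rfl fun b _ => ?_
        rw [Pi.add_apply, add_smul]
      map_smul' := by
        intro k x
        rw [RingHom.id_apply, Finset.smul_sum]
        refine Finset.sum_congr rfl fun b _ => ?_
        rw [Pi.smul_apply, smul_eq_mul, mul_smul] }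
  have hLdef : ∀ x, L x = ∑ b ∈ B.toFinset, x b • v b := fun _ => rfl
  have hL : ∀ y ∈ E, L (u y) = v y := by
    intro y hy
    rw [hLdef]
    by_cases hyB : y ∈ B
    · rw [Finset.sum_eq_single_of_mem y (List.mem_toFinset.2 hyB)]
      · rw [huB y hyB, if_pos rfl, one_smul]
      · intro b _ hb
        rw [huB y hyB, if_neg hb, zero_smul]
    · rw [← hc y hy]
      refine Finset.sum_congr rfl fun b hb => ?_
      have h1 : u y b = c y hy b := by
        rw [hu]
        simp only [hyB, if_false, hy, dif_pos, List.mem_toFinset.1 hb, if_true]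
      rw [h1]
  have hinj : ∀ x : ℕ → K, (∀ i, i ∉ B → x i = 0) → L x = 0 → x = 0 := by
    intro x hx h0
    rw [hLdef] at h0
    have h1 := Fintype.linearIndependent_iff.1 hli (fun b => x b) (by
      rw [← h0]
      exact (Finset.sum_coe_sort B.toFinset (fun b => x b • v b)))
    funext i
    by_cases hi : i ∈ B
    · exact h1 ⟨i, List.mem_toFinset.2 hi⟩
    · exact hx i hi
  refine ⟨u, hE, hn, hB, hsup, huB, fun T hT => ?_⟩
  rw [hX T hT, ← c5_li]
  have e1 : (fun t : T.toFinset => v t) = L ∘ fun t : T.toFinset => u t := by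
    funext t
    exact (hL t (hT t (List.mem_toFinset.1 t.2))).symm
  rw [e1]
  constructor
  · exact LinearIndependent.of_comp L
  · intro h
    refine h.map ?_
    rw [Submodule.disjoint_def]
    intro x hx h0
    refine hinj x ?_ h0
    clear h0
    induction hx using Submodule.span_induction with
    | mem x hx =>
      obtain ⟨t, rfl⟩ := hx
      exact hsup t
    | zero => intro i _; rfl
    | add x y _ _ hx hy =>
      intro i hi
      rw [Pi.add_apply, hx i hi, hy i hi, add_zero]
    | smul c x _ hx =>
      intro i hi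
      rw [Pi.smul_apply, hx i hi, smul_zero]

private theorem c5_basis {r : Finset ℕ → ℤ} (hr : IsRk r) (A : Finset ℕ) :
    ∃ I ⊆ A, r I = (I.card : ℤ) ∧ r A = (I.card : ℤ) := by
  induction A using Finset.induction_on with
  | empty => exact ⟨∅, subset_rfl, by rw [hr.empty]; simp, by rw [hr.empty]; simp⟩
  | insert a A ha ih =>
    obtain ⟨I, hI, h1, h2⟩ := ih
    have haI : a ∉ I := fun h => ha (hI h)
    have h3 := hr.unit I a
    have h4 := hr.mono I a
    by_cases h5 : r (insert a I) = r I
    · refine ⟨I, hI.trans (Finset.subset_insert _ _), h1, ?_⟩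
      have h6 := hr.sub A (insert a I)
      have h7 : A ∪ insert a I = insert a A := by
        rw [Finset.union_insert, Finset.union_eq_left.2 hI]
      have h8 : r I ≤ r (A ∩ insert a I) :=
        hr.mono' (Finset.subset_inter hI (Finset.subset_insert _ _))
      have h9 := hr.mono A a
      rw [h7] at h6
      omega
    · refine ⟨insert a I, Finset.insert_subset_insert _ hI, ?_, ?_⟩
      · rw [Finset.card_insert_of_notMem haI]
        push_cast
        omega
      · rw [Finset.card_insert_of_notMem haI]
        have h6 := hr.unit A a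
        have h7 : r (insert a I) ≤ r (insert a A) := hr.mono' (Finset.insert_subset_insert _ hI)
        push_cast
        omega

private theorem c5_le {r r' : Finset ℕ → ℤ} (hr : IsRk r) (hr' : IsRk r') (hX : Orf X E r)
    (hX' : Orf X E r') {A : Finset ℕ} (hA : A ⊆ E.toFinset) : r A ≤ r' A := by
  obtain ⟨I, hI, h1, h2⟩ := c5_basis hr A
  have h3 : ∀ t ∈ I.toList, t ∈ E := by
    intro t ht
    rw [Finset.mem_toList] at ht
    exact List.mem_toFinset.1 (hA (hI ht))
  have h4 := hX I.toList h3
  have h5 := hX' I.toList h3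
  rw [Finset.toList_toFinset] at h4 h5
  have h6 := h5.1 (h4.2 h1)
  have h7 := hr'.mono' hI
  omega

theorem orf_eq (hr : IsRk r) (hr' : IsRk r') (hX : Orf X E r) (hX' : Orf X E r')
    {A : Finset ℕ} (hA : A ⊆ E.toFinset) : r A = r' A :=
  le_antisymm (c5_le hr hr' hX hX' hA) (c5_le hr' hr hX' hX hA)

theorem Lad.sub {os : List (List ℕ × List ℕ)} (h : Lad r E B S os) : S.Sublist E := by
  rcases os with _ | ⟨o, os⟩
  · rw [h.1]
  · exact h.1.1

theorem Lad.conn {os : List (List ℕ × List ℕ)} (h : Lad r E B S os) :
    Conn3 (ctr r (dif B S).toFinset) S.toFinset := by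
  rcases os with _ | ⟨o, os⟩
  · exact h.2
  · exact h.1.2.2

private theorem c5_conn (hr : IsRk r) (hX : Orf X E r) (hB : ∀ b ∈ B, b ∈ E) (hS : S.Sublist E)
    (hc : Conn3 (ctr r (dif B S).toFinset) S.toFinset) {u : ℕ → ℕ → K} (hu : Rp X E B u) :
    Conn3 (rkM u B S) S.toFinset := by
  refine (Pool.Agent.G4.Conn3.congr fun A hA => ?_).1 hc
  rw [rkM_ctr hu hS hA]
  have hC : (dif B S).toFinset ⊆ E.toFinset := by
    intro x hx
    rw [List.mem_toFinset] at hx ⊢
    unfold Pool.Agent.G4.dif at hx
    exact hB x (List.mem_filter.1 hx).1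
  have hA' : A ⊆ E.toFinset := by
    intro x hx
    have h1 := hA hx
    rw [List.mem_toFinset] at h1 ⊢
    exact hS.subset h1
  unfold Pool.Agent.G4.ctr
  rw [orf_eq hr (Pool.Agent.BW.isRk_rkV _) hX hu.orf (Finset.union_subset hC hA'),
    orf_eq hr (Pool.Agent.BW.isRk_rkV _) hX hu.orf hC]

theorem fold_inv [DecidableEq K] [Fintype K] (hr : IsRk r) (hX : Orf X E r) (hB : ∀ b ∈ B, b ∈ E)
    (os : List (List ℕ × List ℕ)) {s : St K} (hI : Inv X E B s) (hL : Lad r E B s.1 os) :
    Inv X E B (os.foldl
      (stepB (Finset.univ : Finset K).toList (Fintype.card K - 1) X E B) s) ∧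
    (os.foldl (stepB (Finset.univ : Finset K).toList (Fintype.card K - 1) X E B) s).1 = E := by
  induction os generalizing s with
  | nil => exact ⟨hI, hL.1⟩
  | cons o os ih =>
    have h1 : (stepB (Finset.univ : Finset K).toList (Fintype.card K - 1) X E B s o).1 =
        nor E (s.1 ++ (o.1 ++ o.2)) := rfl
    have h2 : Lad r E B (stepB (Finset.univ : Finset K).toList (Fintype.card K - 1) X E B s o).1 os := by
      rw [h1]
      exact hL.2
    have h3 : Lad r E B (nwS E s o) os := hL.2
    refine ih (step_inv hI hL.1.2.1 ?_ ?_) h2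
    · intro u hu
      exact c5_conn hr hX hB hI.sub hL.1.2.2 hu
    · intro u hu
      exact c5_conn hr hX hB h3.sub h3.conn hu

end Pool.Agent.PM
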