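import Pool.Agent.PM.C4
import Pool.Agent.PM.C5
import Pool.Agent.AM.Main

set_option autoImplicit false

/-!
# Module C6: correctness of the algorithm for vectors

* `run_spec`: the chain, the basis, the first state, all steps; the last state has the ground set `E`.
* `out_spec`: the columns of the output matrix are the vectors `u j`, restricted to `B`.
-/

namespace Pool.Agent.PM

open Finset Pool.Agent.Helper22
open Pool.Agent.G4 (nor dif word prd IsRk Conn3 ctr lam dualR)
open Pool.Agent.BW (rkX rkD RkS rkV cod dcd)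
open Pool.Agent.AM (prmQ lists outM)

variable {K V : Type} [Field K] [DecidableEq K] [Fintype K] [AddCommGroup V] [Module K V]
  {X : Oracle} {E C : List ℕ} {v : ℕ → V} (e : Fin (Fintype.card K) ≃ K)

theorem run_spec (hX : Orf X E (rkV K v)) (hE : E.Nodup) (h3 : Conn3 (rkV K v) E.toFinset)
    (hC : C.Sublist E) (hL : Lb (Fintype.card K) (rkV K v) E.toFinset C.toFinset) :
    ∃ u : ℕ → ℕ → K,
      Rp X E (basW X E (chain (Fintype.card K ^ 2 + Fintype.card K + 1) X E C)) u ∧
      ∀ y ∈ E, ∀ i ∈ basW X E (chain (Fintype.card K ^ 2 + Fintype.card K + 1) X E C),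
        ent (runS ((Finset.univ : Finset K).toList)
          (lists ((Finset.univ : Finset K).toList) (Fintype.card K ^ 2 + Fintype.card K + 1))
          (dcd e) (prmQ e) (Fintype.card K - 1) X E
          (basW X E (chain (Fintype.card K ^ 2 + Fintype.card K + 1) X E C))
          (chain (Fintype.card K ^ 2 + Fintype.card K + 1) X E C)).2.1 y i = u y i := by
  have hr := Pool.Agent.BW.isRk_rkV (K := K) v
  have hq : 2 ≤ Fintype.card K := Fintype.one_lt_card
  obtain ⟨hI, hl⟩ := chain_inv hr hX hE hq (qb_rkV v) h3 hC hL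
  obtain ⟨a, b, c, hB, hn, hBn, hBE, hBi, hBs, hlad⟩ := basis_spec hr hX hE hI hl
  have hex := exists_rp hE hBn hBE hX hBi hBs
  have hc : ∀ u : ℕ → ℕ → K,
      Rp X E (basW X E (chain (Fintype.card K ^ 2 + Fintype.card K + 1) X E C)) u →
      Conn3 (rkM u (basW X E (chain (Fintype.card K ^ 2 + Fintype.card K + 1) X E C))
        (chain (Fintype.card K ^ 2 + Fintype.card K + 1) X E C).1)
        (chain (Fintype.card K ^ 2 + Fintype.card K + 1) X E C).1.toFinset := by
    intro u hu
    have hru := Pool.Agent.BW.isRk_rkV (K := K) u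
    refine (Pool.Agent.G4.Conn3.congr fun A hA => ?_).2 hlad.conn
    rw [rkM_ctr hu hI.sub hA]
    unfold ctr
    have h1 : (dif (basW X E (chain (Fintype.card K ^ 2 + Fintype.card K + 1) X E C))
        (chain (Fintype.card K ^ 2 + Fintype.card K + 1) X E C).1).toFinset ⊆ E.toFinset := by
      intro x hx
      rw [List.mem_toFinset] at hx ⊢
      exact hBE x (List.mem_of_mem_filter hx)
    have h2 : A ⊆ E.toFinset := by
      intro x hx
      have h3 := hA hx
      rw [List.mem_toFinset] at h3 ⊢
      exact hI.sub.subset h3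
    rw [orf_eq hru hr hu.orf hX (Finset.union_subset h1 h2), orf_eq hru hr hu.orf hX h1]
  have h0 := bsSt_inv e hex hB hn hI.sub hl hc
  obtain ⟨hInv, hEq⟩ := fold_inv hr hX hBE
    (chain (Fintype.card K ^ 2 + Fintype.card K + 1) X E C).2.2.2 h0 hlad
  obtain ⟨u, hu, hA, _, _⟩ := hInv.ex
  refine ⟨u, hu, fun y hy i hi => ?_⟩
  rw [hEq] at hA
  exact hA y hy i hi (Or.inl (hBE i hi))

omit [DecidableEq K] in
/-- the entries of the output matrix -/
private theorem out_entry {n : ℕ} {B : List ℕ} {u : ℕ → ℕ → K} {s : St K}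
    (hs : ∀ y ∈ List.range n, ∀ i ∈ B, ent s.2.1 y i = u y i)
    (l : Fin (outS (cod e) (List.range n) B s).length) (j : Fin n) (hl : (l : ℕ) < B.length) :
    outM K e n (outS (cod e) (List.range n) B s) l j = u j (B[(l : ℕ)]) := by
  have h0 : (j : ℕ) < n := j.2
  have h1 : ((outS (cod e) (List.range n) B s).get l).getD (j : ℕ) 0 =
      cod e (u j (B[(l : ℕ)])) := by
    unfold outS
    rw [List.get_eq_getElem, List.getElem_map, List.getD_eq_getElem _ _ (by
      rw [List.length_map, List.length_range]; exact h0), List.getElem_map, List.getElem_range,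
      hs _ (List.mem_range.2 h0) _ (List.getElem_mem hl)]
  unfold outM
  have h2 : ((outS (cod e) (List.range n) B s).get l).getD (j : ℕ) 0 < Fintype.card K := by
    rw [h1]
    exact Pool.Agent.BW.cod_lt e _
  rw [dif_pos h2]
  have h3 : (⟨_, h2⟩ : Fin (Fintype.card K)) = e.symm (u j (B[(l : ℕ)])) := Fin.ext h1
  rw [h3, e.apply_symm_apply]

omit [DecidableEq K] [Fintype K] in
private theorem orc_fin {n : ℕ} {B : List ℕ} {u : ℕ → ℕ → K} (h : Rp X (List.range n) B u)
    (J : Finset (Fin n)) : X (List.ofFn fun i => decide (i ∈ J)) = true ↔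
      LinearIndependent K fun j : J => u (j : Fin n) := by
  obtain ⟨T, hT⟩ : ∃ T : List ℕ, T = J.toList.map fun i : Fin n => (i : ℕ) := ⟨_, rfl⟩
  have hm : ∀ i : Fin n, (i : ℕ) ∈ T ↔ i ∈ J := by
    intro i
    rw [hT, List.mem_map]
    constructor
    · rintro ⟨k, hk, hki⟩
      rw [← Fin.ext hki]
      exact Finset.mem_toList.1 hk
    · intro hi
      exact ⟨i, Finset.mem_toList.2 hi, rfl⟩
  have hn : ∀ t ∈ T, t < n := by
    intro t ht
    rw [hT, List.mem_map] at ht
    obtain ⟨k, _, rfl⟩ := ht
    exact k.2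
  have hw : word (List.range n) T = List.ofFn fun i : Fin n => decide (i ∈ J) := by
    apply List.ext_getElem
    · simp [word]
    · intro k h1 h2
      unfold word
      rw [List.length_ofFn] at h2
      rw [List.getElem_map, List.getElem_range, List.getElem_ofFn]
      exact decide_eq_decide.2 (hm ⟨k, h2⟩)
  rw [← hw, h.orc T fun t ht => List.mem_range.2 (hn t ht)]
  have hb : Function.Bijective fun j : J =>
      (⟨((j : Fin n) : ℕ), List.mem_toFinset.2 ((hm j).2 j.2)⟩ : T.toFinset) := by
    constructor
    · intro a b hab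
      have h1 := congrArg Subtype.val hab
      exact Subtype.ext (Fin.ext h1)
    · rintro ⟨t, ht⟩
      have h1 := List.mem_toFinset.1 ht
      exact ⟨⟨⟨t, hn t h1⟩, (hm ⟨t, hn t h1⟩).1 h1⟩, rfl⟩
  exact (linearIndependent_equiv (Equiv.ofBijective _ hb)).symm

theorem out_spec {n : ℕ} {B : List ℕ} {u : ℕ → ℕ → K} (h : Rp X (List.range n) B u) {s : St K}
    (hs : ∀ y ∈ List.range n, ∀ i ∈ B, ent s.2.1 y i = u y i) :
    (∀ R ∈ outS (cod e) (List.range n) B s, R.length = n ∧ ∀ c ∈ R, c < Fintype.card K) ∧
    ∀ J : Finset (Fin n), X (List.ofFn fun i => decide (i ∈ J)) = true ↔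
      LinearIndependent K fun j : J => fun i =>
        outM K e n (outS (cod e) (List.range n) B s) i j := by
  have hlen : (outS (cod e) (List.range n) B s).length = B.length := List.length_map _
  constructor
  · intro r hrr
    obtain ⟨i, hi, rfl⟩ := List.mem_map.1 hrr
    refine ⟨by rw [List.length_map, List.length_range], fun c hc => ?_⟩
    obtain ⟨y, _, rfl⟩ := List.mem_map.1 hc
    exact Pool.Agent.BW.cod_lt e _
  · intro J
    rw [orc_fin h J, Fintype.linearIndependent_iff, Fintype.linearIndependent_iff]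
    constructor
    · intro hA g hg
      refine hA g ?_
      funext i
      rw [Finset.sum_apply]
      by_cases hi : i ∈ B
      · obtain ⟨l, hl, hli⟩ := List.getElem_of_mem hi
        have h2 := congrFun hg ⟨l, by rw [hlen]; exact hl⟩
        rw [Finset.sum_apply] at h2
        refine Eq.trans (Finset.sum_congr rfl fun j _ => ?_) h2
        rw [Pi.smul_apply, Pi.smul_apply, out_entry e hs _ (j : Fin n) hl]
        congr 2
        exact hli.symm
      · apply Finset.sum_eq_zero
        intro j _
        rw [Pi.smul_apply, h.sup _ i hi, smul_zero]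
    · intro hA g hg
      refine hA g ?_
      funext l
      rw [Finset.sum_apply]
      have hl : (l : ℕ) < B.length := by rw [← hlen]; exact l.2
      have h2 := congrFun hg (B[(l : ℕ)])
      rw [Finset.sum_apply] at h2
      refine Eq.trans (Finset.sum_congr rfl fun j _ => ?_) h2
      rw [Pi.smul_apply, Pi.smul_apply, out_entry e hs _ (j : Fin n) hl]

end Pool.Agent.PM
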