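import Pool.Agent.PM.Rep
import Pool.Agent.AM.SrT

set_option autoImplicit false

/-!
# Module N2: representations: scaling, automorphisms, rank functions
-/

namespace Pool.Agent.PM

open Module Pool.Agent.Helper22
open Pool.Agent.G4 (nor dif word prd IsRk)
open Pool.Agent.BW (rkX rkV RkS)
open Pool.Agent.AM (SRep)

variable {K : Type} [Field K] {X : Oracle} {E B S T : List ℕ} {u u' : ℕ → ℕ → K}

private noncomputable def n2Phi (σ : K ≃+* K) {d : ℕ → K} (hd : ∀ i, d i ≠ 0) :
    (ℕ → K) ≃+ (ℕ → K) where
  toFun x i := d i * σ (x i)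
  invFun y i := σ.symm ((d i)⁻¹ * y i)
  left_inv x := by
    funext i
    simp [hd i]
  right_inv y := by
    funext i
    simp [hd i]
  map_add' x y := by
    funext i
    simp [mul_add]

theorem Rp.trans (h : Rp X E B u) (σ : K ≃+* K) {d κ : ℕ → K} (hd : ∀ i, d i ≠ 0)
    (hκ : ∀ y, κ y ≠ 0) :
    Rp X E B fun y i => if y ∈ B then u y i else κ y * (d i * σ (u y i)) := by
  refine ⟨h.ndE, h.ndB, h.BE, ?_, ?_, ?_⟩
  · intro y i hi
    by_cases hy : y ∈ B
    · simp only [if_pos hy]
      exact h.sup y i hi
    · simp only [if_neg hy, h.sup y i hi, map_zero, mul_zero]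
  · intro b hb i
    simp only [if_pos hb]
    exact h.unit b hb i
  · intro T hT
    rw [h.orc T hT]
    have hc : ∀ y, (if y ∈ B then (d y)⁻¹ else κ y) ≠ 0 := by
      intro y
      by_cases hy : y ∈ B
      · rw [if_pos hy]; exact inv_ne_zero (hd y)
      · rw [if_neg hy]; exact hκ y
    have e1 : (fun t : T.toFinset => fun i => if (t : ℕ) ∈ B then u t i else κ t * (d i * σ (u t i))) =
        (fun t : T.toFinset => Units.mk0 _ (hc t)) • ((n2Phi σ hd) ∘ fun t : T.toFinset => u t) := by
      funext t i
      show _ = (if (t : ℕ) ∈ B then (d t)⁻¹ else κ t) * (d i * σ (u t i))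
      by_cases ht : (t : ℕ) ∈ B
      · rw [if_pos ht, if_pos ht, h.unit t ht i]
        by_cases hi : i = t
        · rw [if_pos hi, map_one, mul_one, hi, inv_mul_cancel₀ (hd t)]
        · rw [if_neg hi, map_zero, mul_zero, mul_zero]
      · rw [if_neg ht, if_neg ht]
    rw [e1, LinearIndependent.units_smul_iff]
    constructor
    · intro h1
      refine h1.map_of_injective_injective (R' := K) σ.symm (n2Phi σ hd).toAddMonoidHom ?_ ?_ ?_
      · intro r hr
        exact (map_eq_zero_iff σ.symm σ.symm.injective).1 hr
      · intro m hm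
        exact (map_eq_zero_iff (n2Phi σ hd) (n2Phi σ hd).injective).1 hm
      · intro r m
        funext i
        show d i * σ ((σ.symm r) * m i) = r * (d i * σ (m i))
        rw [map_mul, RingEquiv.apply_symm_apply]
        ring
    · intro h1
      have h2 := h1.map_of_injective_injective (R' := K) σ (n2Phi σ hd).symm.toAddMonoidHom ?_ ?_ ?_
      · have e2 : ((n2Phi σ hd).symm.toAddMonoidHom : (ℕ → K) → (ℕ → K)) ∘
            ((n2Phi σ hd) ∘ fun t : T.toFinset => u t) = fun t : T.toFinset => u t := by
          funext t
          exact (n2Phi σ hd).symm_apply_apply (u t)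
        rw [e2] at h2
        exact h2
      · intro r hr
        exact (map_eq_zero_iff σ σ.injective).1 hr
      · intro m hm
        exact (map_eq_zero_iff (n2Phi σ hd).symm (n2Phi σ hd).symm.injective).1 hm
      · intro r m
        funext i
        show σ.symm ((d i)⁻¹ * (σ r * m i)) = r * σ.symm ((d i)⁻¹ * m i)
        rw [mul_left_comm, map_mul, RingEquiv.symm_apply_apply]

/-- the oracle answers the question whether a set is independent for the rank function `r` -/
def Orf (X : Oracle) (E : List ℕ) (r : Finset ℕ → ℤ) : Prop :=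
  ∀ T : List ℕ, (∀ t ∈ T, t ∈ E) → (X (word E T) = true ↔ r T.toFinset = (T.toFinset.card : ℤ))

private theorem n2_fold {r : Finset ℕ → ℤ} (hr : IsRk r) (hX : Orf X E r) (l : List ℕ) :
    ∀ I : List ℕ, (∀ t ∈ I ++ l, t ∈ E) → (I ++ l).Nodup → r I.toFinset = (I.length : ℤ) →
      ((l.foldl (fun I e => if X (word E (I ++ [e])) then I ++ [e] else I) I).length : ℤ) =
        r (I ++ l).toFinset := by
  induction l with
  | nil =>
    intro I _ _ h
    rw [List.append_nil, h]
    rfl
  | cons e l ih =>
    intro I h1 h2 h3
    rw [List.foldl_cons]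
    have e1 : I ++ e :: l = (I ++ [e]) ++ l := by rw [List.append_assoc]; rfl
    have h4 : (I ++ [e]).Nodup := by
      rw [e1] at h2
      exact (List.nodup_append.1 h2).1
    have h5 : ∀ t ∈ I ++ [e], t ∈ E := by
      intro t ht
      apply h1
      rw [e1]
      exact List.mem_append_left _ ht
    have h6 := hX (I ++ [e]) h5
    rw [List.toFinset_card_of_nodup h4] at h6
    by_cases hc : X (word E (I ++ [e])) = true
    · rw [if_pos hc, e1]
      apply ih
      · rw [← e1]; exact h1
      · rw [← e1]; exact h2
      · exact h6.1 hc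
    · rw [if_neg hc]
      have h7 : r (I ++ [e]).toFinset ≠ ((I ++ [e]).length : ℤ) := fun h => hc (h6.2 h)
      have h8 : (I ++ [e]).toFinset = insert e I.toFinset := by
        rw [List.toFinset_append]
        ext x
        simp only [Finset.mem_union, Finset.mem_insert, List.mem_toFinset, List.mem_singleton]
        tauto
      rw [h8, List.length_append, List.length_singleton] at h7
      push_cast at h7
      have h9 := hr.unit I.toFinset e
      have h10 := hr.mono I.toFinset e
      have h11 : r (insert e I.toFinset) = r I.toFinset := by omega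
      have hne : e ∉ (I ++ l).toFinset := by
        rw [List.mem_toFinset, List.mem_append]
        have h12 := h2
        rw [List.nodup_append] at h12
        rintro (h13 | h13)
        · exact h12.2.2 e h13 e (List.mem_cons_self) rfl
        · exact (List.nodup_cons.1 h12.2.1).1 h13
      have h14 : r (I ++ e :: l).toFinset = r (I ++ l).toFinset := by
        have h15 := hr.submod (A := I.toFinset) (B := (I ++ l).toFinset) (X := {e}) (by
          intro x hx
          rw [List.mem_toFinset] at hx ⊢
          exact List.mem_append_left _ hx) (by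
          rw [Finset.disjoint_singleton_left]
          exact hne)
        have e2 : I.toFinset ∪ {e} = insert e I.toFinset := by
          rw [Finset.union_comm, Finset.insert_eq]
        have e3 : (I ++ l).toFinset ∪ {e} = (I ++ e :: l).toFinset := by
          ext x
          simp only [Finset.mem_union, List.mem_toFinset, List.mem_append, Finset.mem_singleton, List.mem_cons]
          tauto
        rw [e2, e3, h11] at h15
        have h16 := hr.mono' (A := (I ++ l).toFinset) (B := (I ++ e :: l).toFinset) (by
          rw [← e3]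
          exact Finset.subset_union_left)
        omega
      rw [ih I (fun t ht => h1 t (by
        rcases List.mem_append.1 ht with h | h
        · exact List.mem_append_left _ h
        · exact List.mem_append_right _ (List.mem_cons_of_mem _ h))) (by
          exact h2.sublist (List.Sublist.append_left (List.sublist_cons_self e l) I)) h3, h14]

theorem greedy_rk {r : Finset ℕ → ℤ} (hE : E.Nodup) (hr : IsRk r) (hX : Orf X E r) :
    RkS (fun T => rkX X E T) E r := by
  intro T hT
  have h1 : (nor E T).toFinset = T.toFinset := by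
    rw [Pool.Agent.BW.toF_nor]
    apply Finset.inter_eq_right.2
    intro x hx
    rw [List.mem_toFinset] at hx ⊢
    exact hT x hx
  have h2 := n2_fold hr hX (nor E T) [] (fun t ht => by
      rw [List.nil_append] at ht
      exact (Pool.Agent.BW.mem_nor.1 ht).1) (by
      rw [List.nil_append]
      exact (Pool.Agent.BW.nor_sub (T := T)).nodup hE) (by simpa using hr.empty)
  rw [List.nil_append, h1] at h2
  exact h2

theorem Rp.orf (h : Rp X E B u) : Orf X E (rkV K u) := by
  intro T hT
  rw [h.orc T hT, linearIndependent_iff_card_eq_finrank_span, Fintype.card_coe]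
  have e1 : Set.range (fun t : T.toFinset => u t) = u '' (T.toFinset : Set ℕ) := by
    ext x
    constructor
    · rintro ⟨t, rfl⟩
      exact ⟨t, t.2, rfl⟩
    · rintro ⟨t, ht, rfl⟩
      exact ⟨⟨t, ht⟩, rfl⟩
  rw [e1]
  unfold rkV
  rw [Nat.cast_inj]
  constructor
  · intro h1
    exact h1.symm
  · intro h1
    exact h1.symm

theorem Rp.rks (h : Rp X E B u) : RkS (fun T => rkX X E T) E (rkV K u) := by
  exact greedy_rk h.ndE (Pool.Agent.BW.isRk_rkV u) h.orf

theorem Rp.srep (h : Rp X E B u) : SRep (fun T => rkX X E T) E B u := by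
  refine ⟨h.ndB, h.BE, h.sup, ?_, ?_, ?_⟩
  · intro b hb i hi
    rw [h.unit b hb i, if_neg hi]
  · intro b hb
    rw [h.unit b hb b, if_pos rfl]
    exact one_ne_zero
  · intro T hT
    have h1 := h.rks T hT
    have e1 : {x : ℕ → K | ∃ t ∈ T, u t = x} = u '' (T.toFinset : Set ℕ) := by
      ext x
      constructor
      · rintro ⟨t, ht, rfl⟩
        exact ⟨t, List.mem_toFinset.2 ht, rfl⟩
      · rintro ⟨t, ht, rfl⟩
        exact ⟨t, List.mem_toFinset.1 ht, rfl⟩
    unfold Pool.Agent.AM.rkU
    rw [e1]
    exact Nat.cast_inj.1 h1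

theorem Rp.rk_eq (h : Rp X E B u) (h' : Rp X E B u') {A : Finset ℕ} (hA : A ⊆ E.toFinset) :
    rkV K u A = rkV K u' A := by
  have h1 : ∀ t ∈ A.toList, t ∈ E := fun t ht => List.mem_toFinset.1 (hA (Finset.mem_toList.1 ht))
  have h2 := h.rks A.toList h1
  have h3 := h'.rks A.toList h1
  rw [Finset.toList_toFinset] at h2 h3
  rw [← h2, ← h3]

end Pool.Agent.PM
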