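import Pool.Agent.PM.Stmt
import Pool.Agent.PM.N2
import Pool.Agent.PM.RA
import Pool.Agent.BW.Grdy
import Pool.Agent.BW.MatR
import Pool.Agent.BW.Orc

set_option autoImplicit false

/-!
# Module C7: from matroids to rank functions
-/

namespace Pool.Agent.PM

open Finset Pool.Agent.Helper22
open Pool.Agent.G4 (nor dif word prd IsRk Conn3 ctr lam dualR)
open Pool.Agent.BW (rkX rkD RkS rkV crk)
open Pool.Agent.AM (IsRep IsOracle RepM HasPoints)

variable {K : Type} [Field K] {m n q : ℕ} {M : Matroid (Fin n)} {A : Matrix (Fin m) (Fin n) K}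
  {X : Oracle}

/-- the columns of the matrix -/
def colV (A : Matrix (Fin m) (Fin n) K) (y : ℕ) : Fin m → K :=
  if h : y < n then fun i => A i ⟨y, h⟩ else 0

theorem crk_colV (A : Matrix (Fin m) (Fin n) K) (F : Finset ℕ) :
    crk A F = rkV K (colV A) F := by
  have h : Submodule.span K {w : Fin m → K | ∃ j : Fin n, (j : ℕ) ∈ F ∧ (fun i => A i j) = w} =
      Submodule.span K (colV A '' (F : Set ℕ)) := by
    refine le_antisymm (Submodule.span_mono ?_) (Submodule.span_le.2 ?_)
    · rintro _ ⟨j, hj, rfl⟩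
      refine ⟨j, hj, ?_⟩
      unfold colV
      rw [dif_pos j.2]
    · rintro _ ⟨y, hy, rfl⟩
      by_cases h : y < n
      · refine Submodule.subset_span ⟨⟨y, h⟩, hy, ?_⟩
        unfold colV
        rw [dif_pos h]
      · have hz : colV A y = 0 := by
          unfold colV
          rw [dif_neg h]
        rw [hz]
        exact Submodule.zero_mem _
  unfold crk rkV Pool.Agent.BW.sp
  rw [h]

private theorem c7_nonneg (A : Matrix (Fin m) (Fin n) K) (F : Finset ℕ) :
    0 ≤ rkV K (colV A) F := by
  rw [← crk_colV]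
  exact Pool.Agent.BW.crk_nonneg A F

private theorem c7_eRk (hA : IsRep M A) (J : Finset (Fin n)) :
    M.eRk (J : Set (Fin n)) =
      ((rkV K (colV A) (J.image fun j : Fin n => (j : ℕ))).toNat : ℕ∞) := by
  rw [← crk_colV]
  exact Pool.Agent.BW.eRk_eq A hA J

private theorem c7_ind (hA : IsRep M A) (J : Finset (Fin n)) :
    M.Indep (J : Set (Fin n)) ↔
      rkV K (colV A) (J.image fun j : Fin n => (j : ℕ)) = (J.card : ℤ) := by
  rw [← crk_colV]
  exact (hA J).trans (Pool.Agent.BW.indep_iff_crk A J)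

/-- the elements whose numbers are in `F` -/
private def c7_J (n : ℕ) (F : Finset ℕ) : Finset (Fin n) := univ.filter fun i => (i : ℕ) ∈ F

private theorem c7_image {F : Finset ℕ} (hF : ∀ t ∈ F, t < n) :
    (c7_J n F).image (fun j : Fin n => (j : ℕ)) = F := by
  ext x
  rw [mem_image]
  constructor
  · rintro ⟨j, hj, rfl⟩
    exact (mem_filter.1 hj).2
  · intro hx
    exact ⟨⟨x, hF x hx⟩, mem_filter.2 ⟨mem_univ _, hx⟩, rfl⟩

private theorem c7_card {F : Finset ℕ} (hF : ∀ t ∈ F, t < n) : (c7_J n F).card = F.card := by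
  rw [← card_image_of_injective (c7_J n F) Fin.val_injective, c7_image hF]

private theorem c7_rng (n : ℕ) : (List.range n).toFinset = range n := by
  ext x
  rw [List.mem_toFinset, List.mem_range, mem_range]

theorem orf_of (hA : IsRep M A) (hX : IsOracle X M) :
    Orf X (List.range n) (rkV K (colV A)) := by
  intro T hT
  have hF : ∀ t ∈ T.toFinset, t < n := fun t ht => List.mem_range.1 (hT t (List.mem_toFinset.1 ht))
  have h1 : word (List.range n) T = List.ofFn fun i : Fin n => decide (i ∈ c7_J n T.toFinset) := by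
    unfold word
    apply List.ext_getElem
    · rw [List.length_map, List.length_range, List.length_ofFn]
    · intro i h h'
      rw [List.getElem_map, List.getElem_range, List.getElem_ofFn]
      simp [c7_J]
  rw [h1, hX, c7_ind hA, c7_image hF, c7_card hF]

theorem conn_of (hA : IsRep M A) (h3 : ThreeConnected M) (hn : 4 ≤ n) :
    Conn3 (rkV K (colV A)) (List.range n).toFinset := by
  have hR := Pool.Agent.BW.isRk_rkV (K := K) (colV A)
  have huniv : M.eRk Set.univ = ((rkV K (colV A) (range n)).toNat : ℕ∞) := by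
    rw [← Finset.coe_univ, c7_eRk hA, Pool.Agent.BW.image_univ']
  rw [c7_rng]
  refine ⟨by rw [card_range]; exact hn, fun Y hY h1 h2 => ?_⟩
  have hF : ∀ t ∈ Y, t < n := fun t ht => mem_range.1 (hY ht)
  have hJ := c7_image hF
  have hJc : (c7_J n Y)ᶜ.image (fun j : Fin n => (j : ℕ)) = range n \ Y := by
    rw [← Pool.Agent.BW.compl_image, hJ]
  have e1 : (c7_J n Y).card = Y.card := c7_card hF
  have e2 : ((c7_J n Y)ᶜ).card = (range n \ Y).card := by
    rw [← card_image_of_injective ((c7_J n Y)ᶜ) Fin.val_injective, hJc]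
  have n1 := c7_nonneg A Y
  have n2 := c7_nonneg A (range n \ Y)
  have n3 := c7_nonneg A (range n)
  have key : ∀ k : ℕ, 1 ≤ k → k ≤ 2 → k ≤ Y.card → k ≤ (range n \ Y).card →
      (k : ℤ) ≤ lam (rkV K (colV A)) (range n) Y := by
    intro k hk1 hk2 hk3 hk4
    have h := h3 (c7_J n Y) k hk1 hk2 (by rw [e1]; exact hk3) (by rw [e2]; exact hk4)
    rw [huniv, ← Finset.coe_compl, c7_eRk hA, c7_eRk hA, hJ, hJc, ← Nat.cast_add, ← Nat.cast_add,
      Nat.cast_le] at h
    unfold Pool.Agent.G4.lam
    omega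
  refine ⟨?_, fun g1 g2 => ?_⟩
  · exact_mod_cast key 1 (le_refl 1) (by norm_num) (card_pos.2 h1) (card_pos.2 h2)
  · exact_mod_cast key 2 (by norm_num) (le_refl 2) g1 g2

private theorem c7_zip (C : Finset (Fin n)) :
    (List.range n).zip (List.ofFn fun i : Fin n => decide (i ∈ C)) =
      List.ofFn fun i : Fin n => ((i : ℕ), decide (i ∈ C)) := by
  apply List.ext_getElem
  · rw [List.length_zip, List.length_range, List.length_ofFn, List.length_ofFn, Nat.min_self]
  · intro i h h'
    rw [List.getElem_zip, List.getElem_range, List.getElem_ofFn, List.getElem_ofFn]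

private theorem c7_set (C : Finset (Fin n)) :
    (setW (List.ofFn fun i : Fin n => decide (i ∈ C))).Sublist (List.range n) ∧
      (setW (List.ofFn fun i : Fin n => decide (i ∈ C))).toFinset =
        C.image fun j : Fin n => (j : ℕ) := by
  unfold setW
  rw [List.length_ofFn, c7_zip]
  constructor
  · have h1 : (List.ofFn fun i : Fin n => ((i : ℕ), decide (i ∈ C))).map (fun p => p.1) =
        List.range n := by
      apply List.ext_getElem
      · rw [List.length_map, List.length_range, List.length_ofFn]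
      · intro i h h'
        rw [List.getElem_map, List.getElem_ofFn, List.getElem_range]
    have h2 : (((List.ofFn fun i : Fin n => ((i : ℕ), decide (i ∈ C))).filter
        fun p => p.2).map fun p => p.1).Sublist
        ((List.ofFn fun i : Fin n => ((i : ℕ), decide (i ∈ C))).map (fun p => p.1)) :=
      List.Sublist.map _ List.filter_sublist
    rw [h1] at h2
    exact h2
  · ext x
    rw [List.mem_toFinset, List.mem_map, mem_image]
    constructor
    · rintro ⟨p, hp, rfl⟩
      rw [List.mem_filter] at hp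
      obtain ⟨i, hi⟩ := (List.mem_ofFn' _ _).1 hp.1
      have h1 := hp.2
      rw [← hi] at h1 ⊢
      exact ⟨i, of_decide_eq_true h1, rfl⟩
    · rintro ⟨i, hi, rfl⟩
      refine ⟨((i : ℕ), decide (i ∈ C)), ?_, rfl⟩
      rw [List.mem_filter]
      refine ⟨(List.mem_ofFn' _ _).2 ⟨i, rfl⟩, ?_⟩
      exact decide_eq_true hi

theorem lb_of (hE : M.E = Set.univ) (hA : IsRep M A) (hX : IsOracle X M) (hq : 2 ≤ q)
    (C : Finset (Fin n)) (h1 : (M.contract (C : Set (Fin n))).eRank = 3)
    (h2 : HasPoints M (C : Set (Fin n)) (q ^ 2 + q + 1)) :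
    Lb q (rkV K (colV A)) (List.range n).toFinset
      (labW X (List.range n) (List.ofFn fun i => decide (i ∈ C))).toFinset ∧
    (labW X (List.range n) (List.ofFn fun i => decide (i ∈ C))).Sublist (List.range n) ∧
    4 ≤ n := by
  classical
  have _ := hE
  obtain ⟨R, hRd⟩ : ∃ R, R = rkV K (colV A) := ⟨_, rfl⟩
  have hR : IsRk R := by
    rw [hRd]
    exact Pool.Agent.BW.isRk_rkV (colV A)
  have hnn : ∀ F, 0 ≤ R F := by
    rw [hRd]
    exact c7_nonneg A
  have heRk : ∀ J : Finset (Fin n), M.eRk (J : Set (Fin n)) =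
      ((R (J.image fun j : Fin n => (j : ℕ))).toNat : ℕ∞) := by
    rw [hRd]
    exact c7_eRk hA
  have hind : ∀ J : Finset (Fin n), M.Indep (J : Set (Fin n)) ↔
      R (J.image fun j : Fin n => (j : ℕ)) = (J.card : ℤ) := by
    rw [hRd]
    exact c7_ind hA
  have horf : Orf X (List.range n) R := by
    rw [hRd]
    exact orf_of hA hX
  rw [← hRd, c7_rng]
  obtain ⟨hsub, hset⟩ := c7_set C
  obtain ⟨Y, hY⟩ : ∃ Y, Y = setW (List.ofFn fun i : Fin n => decide (i ∈ C)) := ⟨_, rfl⟩
  obtain ⟨L, hL⟩ : ∃ L, L = labW X (List.range n) (List.ofFn fun i => decide (i ∈ C)) := ⟨_, rfl⟩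
  rw [← hY] at hsub hset
  rw [← hL]
  have hRks := greedy_rk List.nodup_range hR horf
  obtain ⟨g1, g2, g3, -⟩ := Pool.Agent.BW.grdy_spec hR hRks (Y := Y) (C := []) hsub.subset
    (hsub.nodup List.nodup_range) (List.nil_subset _)
  have hL' : Pool.Agent.BW.grdy (fun T => rkX X (List.range n) T) Y [] = L := by
    rw [hL, hY]
    rfl
  rw [hL'] at g1 g2 g3
  rw [List.toFinset_nil, empty_union] at g2 g3
  rw [empty_union, hset] at g3
  rw [hR.empty, zero_add] at g2
  have hLr : L.Sublist (List.range n) := g1.trans hsub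
  have hLn : L.Nodup := hLr.nodup List.nodup_range
  rw [← List.toFinset_card_of_nodup hLn] at g2
  have hLF : ∀ t ∈ L.toFinset, t < n := fun t ht =>
    List.mem_range.1 (hLr.subset (List.mem_toFinset.1 ht))
  obtain ⟨I, hI⟩ : ∃ I, I = c7_J n L.toFinset := ⟨_, rfl⟩
  have hIim : I.image (fun j : Fin n => (j : ℕ)) = L.toFinset := by
    rw [hI]
    exact c7_image hLF
  have hIcard : I.card = L.toFinset.card := by
    rw [hI]
    exact c7_card hLF
  have hIC : I ⊆ C := by
    intro i hi
    have h3 : (i : ℕ) ∈ L.toFinset := by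
      rw [← hIim]
      exact mem_image_of_mem _ hi
    have h4 : (i : ℕ) ∈ Y.toFinset := List.mem_toFinset.2 (g1.subset (List.mem_toFinset.1 h3))
    rw [hset, mem_image] at h4
    obtain ⟨j, hj, hji⟩ := h4
    rw [← Fin.ext hji]
    exact hj
  have hIind : M.Indep (I : Set (Fin n)) := by
    rw [hind, hIim, g2, hIcard]
  have hIC' : (I : Set (Fin n)) ⊆ (C : Set (Fin n)) := Finset.coe_subset.2 hIC
  have hCI : M.eRk (C : Set (Fin n)) = M.eRk (I : Set (Fin n)) := by
    rw [heRk, heRk, hIim, g3]
  have hbas : M.IsBasis' (I : Set (Fin n)) (C : Set (Fin n)) :=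
    hIind.isBasis'_of_eRk_ge I.finite_toSet hIC' hCI.le
  have hcI := fun J : Set (Fin n) => hbas.contract_indep_iff (J := J)
  -- the rank
  have huniv : M.eRk Set.univ = ((R (range n)).toNat : ℕ∞) := by
    rw [← Finset.coe_univ, heRk, Pool.Agent.BW.image_univ']
  have hIenc : (I : Set (Fin n)).encard = (L.toFinset.card : ℕ∞) := by
    rw [Set.encard_coe_eq_coe_finsetCard, hIcard]
  have hlow : (L.toFinset.card : ℕ∞) + 3 ≤ M.eRk Set.univ := by
    obtain ⟨B, hB⟩ := (M.contract (C : Set (Fin n))).exists_isBase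
    have h3 := (hcI B).1 hB.indep
    have h4 : B.encard = 3 := by
      rw [hB.encard_eq_eRank, h1]
    have h5 : Disjoint B (I : Set (Fin n)) := (h3.2.mono_left hIC').symm
    have h6 := h3.1.encard_le_eRk_of_subset (Set.subset_univ _)
    rw [Set.encard_union_eq h5, h4, hIenc, add_comm] at h6
    exact h6
  have hupp : M.eRk Set.univ ≤ (L.toFinset.card : ℕ∞) + 3 := by
    obtain ⟨B, hB, hIB⟩ := hIind.exists_isBase_superset
    have h3 : (B \ (I : Set (Fin n))) ∪ (I : Set (Fin n)) = B := Set.sdiff_union_of_subset hIB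
    have h4 : Disjoint (C : Set (Fin n)) (B \ (I : Set (Fin n))) := by
      rw [Set.disjoint_left]
      rintro x hxC ⟨hxB, hxI⟩
      have h5 : M.Indep (insert x (I : Set (Fin n))) :=
        hB.indep.subset (Set.insert_subset hxB hIB)
      have h6 := h5.encard_le_eRk_of_subset (Set.insert_subset hxC hIC')
      rw [Set.encard_insert_of_notMem hxI, hCI, hIind.eRk_eq_encard, hIenc] at h6
      have h7 : L.toFinset.card + 1 ≤ L.toFinset.card := by exact_mod_cast h6
      omega
    have h5 : (M.contract (C : Set (Fin n))).Indep (B \ (I : Set (Fin n))) :=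
      (hcI _).2 ⟨by rw [h3]; exact hB.indep, h4⟩
    have h6 := h5.encard_le_eRank
    rw [h1] at h6
    have h7 := Set.encard_sdiff_add_encard_of_subset hIB
    rw [Matroid.eRk_univ_eq, ← hB.encard_eq_eRank, ← h7, hIenc, add_comm]
    exact add_le_add_right h6 _
  have hS : R (range n) = (L.toFinset.card : ℤ) + 3 := by
    have h3 := le_antisymm hupp hlow
    rw [huniv] at h3
    have h4 : (R (range n)).toNat = L.toFinset.card + 3 := by exact_mod_cast h3
    have h5 := hnn (range n)
    omega
  -- the points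
  obtain ⟨T, hTc, hT⟩ := h2
  have hq2 : 7 ≤ q ^ 2 + q + 1 := by nlinarith
  have hTC : ∀ x ∈ T, x ∉ C := by
    intro x hx hxC
    obtain ⟨y, hy, hyx⟩ := exists_mem_ne (by omega : 1 < T.card) x
    have h3 := ((hcI _).1 (hT x hx y hy hyx.symm)).2
    exact Set.disjoint_left.1 h3 hxC (Set.mem_insert x {y})
  have hTimc : (T.image fun j : Fin n => (j : ℕ)).card = q ^ 2 + q + 1 := by
    rw [card_image_of_injective T Fin.val_injective, hTc]
  have hTr : (T.image fun j : Fin n => (j : ℕ)) ⊆ range n := by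
    intro x hx
    obtain ⟨j, -, rfl⟩ := mem_image.1 hx
    exact mem_range.2 j.2
  refine ⟨⟨fun x hx => mem_range.2 (hLF x hx), g2, hS, T.image fun j : Fin n => (j : ℕ), ?_,
    hTimc, ?_⟩, hLr, ?_⟩
  · intro x hx
    refine mem_sdiff.2 ⟨hTr hx, fun hxL => ?_⟩
    obtain ⟨j, hj, rfl⟩ := mem_image.1 hx
    rw [← hIim, mem_image] at hxL
    obtain ⟨i, hi, hij⟩ := hxL
    have h3 : i = j := Fin.ext hij
    rw [h3] at hi
    exact hTC j hj (hIC hi)
  · intro a ha b hb hab
    obtain ⟨x, hx, rfl⟩ := mem_image.1 ha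
    obtain ⟨y, hy, rfl⟩ := mem_image.1 hb
    have hxy : x ≠ y := fun h => hab (by rw [h])
    have h3 := ((hcI _).1 (hT x hx y hy hxy)).1
    have h4 : ({x, y} : Set (Fin n)) ∪ (I : Set (Fin n)) =
        ((I ∪ {x, y} : Finset (Fin n)) : Set (Fin n)) := by
      rw [Finset.coe_union, Finset.coe_pair, Set.union_comm]
    rw [h4, hind, image_union, hIim] at h3
    have h5 : (({x, y} : Finset (Fin n)).image fun j : Fin n => (j : ℕ)) = {(x : ℕ), (y : ℕ)} := by
      rw [image_insert, image_singleton]
    have h6 : (I ∪ {x, y}).card = I.card + 2 := by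
      rw [card_union_of_disjoint, card_pair hxy]
      rw [disjoint_left]
      intro z hz hz'
      rw [mem_insert, mem_singleton] at hz'
      rcases hz' with h | h
      · rw [h] at hz
        exact hTC x hx (hIC hz)
      · rw [h] at hz
        exact hTC y hy (hIC hz)
    rw [h5, h6, hIcard] at h3
    unfold Pool.Agent.G4.ctr
    rw [h3, g2]
    push_cast
    ring
  · have h3 := card_le_card hTr
    rw [hTimc, card_range] at h3
    omega

end Pool.Agent.PM
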