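import Pool.Agent.PM.C6
import Pool.Agent.PM.C7

set_option autoImplicit false

/-!
# Module C8: correctness of the algorithm

`run_spec` with `v = colV A`, `E = range n` (`(List.ofFn _).length = n`), label `labW ..` (`lb_of`, `orf_of`, `conn_of`); `out_spec`.
-/

namespace Pool.Agent.PM

open Finset Pool.Agent.Helper22
open Pool.Agent.AM (IsRep IsOracle RepM HasPoints outM)

theorem alg_correct {K : Type} [Field K] [Fintype K] [DecidableEq K]
    (e : Fin (Fintype.card K) ≃ K) {n : ℕ} {M : Matroid (Fin n)} {X : Oracle}
    (hM : M ∈ RepM K n) (hX : IsOracle X M) (h3 : ThreeConnected M) (C : Finset (Fin n))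
    (h1 : (M.contract (C : Set (Fin n))).eRank = 3)
    (h2 : HasPoints M (C : Set (Fin n)) (Fintype.card K ^ 2 + Fintype.card K + 1)) :
    (∀ r ∈ algP e X (List.ofFn fun i => decide (i ∈ C)),
      r.length = n ∧ ∀ c ∈ r, c < Fintype.card K) ∧
    IsRep M (outM K e n (algP e X (List.ofFn fun i => decide (i ∈ C)))) := by
  obtain ⟨hE, m, A, hA⟩ := hM
  have hq : 2 ≤ Fintype.card K := Fintype.one_lt_card
  obtain ⟨hL, hsub, hn⟩ := lb_of hE hA hX hq C h1 h2
  obtain ⟨u, hu, hent⟩ := run_spec e (orf_of hA hX) List.nodup_range (conn_of hA h3 hn) hsub hL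
  obtain ⟨h4, h5⟩ := out_spec e hu hent
  have hlen : (List.ofFn fun i : Fin n => decide (i ∈ C)).length = n := List.length_ofFn
  have halg : algP e X (List.ofFn fun i : Fin n => decide (i ∈ C)) =
      outS (Pool.Agent.BW.cod e) (List.range n)
        (basW X (List.range n) (chain (Fintype.card K ^ 2 + Fintype.card K + 1) X (List.range n)
          (labW X (List.range n) (List.ofFn fun i : Fin n => decide (i ∈ C)))))
        (runS ((Finset.univ : Finset K).toList)
          (Pool.Agent.AM.lists ((Finset.univ : Finset K).toList)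
            (Fintype.card K ^ 2 + Fintype.card K + 1))
          (Pool.Agent.BW.dcd e) (Pool.Agent.AM.prmQ e) (Fintype.card K - 1) X (List.range n)
          (basW X (List.range n) (chain (Fintype.card K ^ 2 + Fintype.card K + 1) X (List.range n)
            (labW X (List.range n) (List.ofFn fun i : Fin n => decide (i ∈ C)))))
          (chain (Fintype.card K ^ 2 + Fintype.card K + 1) X (List.range n)
            (labW X (List.range n) (List.ofFn fun i : Fin n => decide (i ∈ C))))) := by
    unfold algP chW
    rw [hlen]
  rw [halg]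
  exact ⟨h4, fun J => (hX J).symm.trans (h5 J)⟩

end Pool.Agent.PM
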