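import Pool.Agent.PM.L1

set_option autoImplicit false

/-!
# Module L2: extension by one element, bases

See the header of L1 for the proofs (`ext_cb`, `ext_cx`). `Good` for `S + y`: `CA` does not change
(`V` is the same).
-/

namespace Pool.Agent.PM

open Module

variable {K V : Type} [Field K] [AddCommGroup V] [Module K V] {w : ℕ → V} {S : Finset ℕ}
  {L Ls : Set (Finset ℕ × ℕ)} {Bs : Set (Finset ℕ)} {y f g : ℕ}

/-- `x - c y` and `y` are independent if `x` is not a multiple of `y` -/
private theorem ind_aux {x y : V} (hy : y ≠ 0) (hxy : ∀ c : K, x ≠ c • y) (c : K) :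
    ∀ a b : K, a • (x - c • y) + b • y = 0 → a = 0 ∧ b = 0 := by
  intro a b h
  have ha : a = 0 := by
    by_contra ha
    apply hxy (c - a⁻¹ * b)
    have h1 : a⁻¹ • (a • (x - c • y) + b • y) = 0 := by rw [h, smul_zero]
    rw [smul_add, smul_smul, inv_mul_cancel₀ ha, one_smul, smul_smul] at h1
    rw [sub_smul]
    have h2 : x - c • y = -((a⁻¹ * b) • y) := eq_neg_of_add_eq_zero_left h1
    rw [sub_eq_iff_eq_add] at h2
    rw [h2]
    abel
  refine ⟨ha, ?_⟩
  rw [ha, zero_smul, zero_add] at h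
  exact (smul_eq_zero.1 h).resolve_right hy

theorem ext_cb (hG : Good K w S L Ls Bs) (hy : y ∉ S) (hs : Sim K w (insert y S)) :
    CB K w (insert y S) (exB y L Bs) := by
  intro t v hv ht hnd k
  have hsy := hs y (Finset.mem_insert_self _ _)
  by_cases htS : Lin w S t
  · obtain ⟨l, hl⟩ := htS
    have hd : t y - l (w y) ≠ 0 := by
      intro he
      apply ht
      refine ⟨l, fun s hs => ?_⟩
      rcases Finset.mem_insert.1 hs with rfl | hs
      · exact sub_eq_zero.1 he
      · exact hl s hs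
    have hvy : ∀ c : K, v ≠ c • w y := by
      intro c hc
      apply hnd
      refine ⟨y, Finset.mem_insert_self _ _, ⟨l, fun x hx hxy => ?_⟩, c, hc⟩
      exact hl x (Finset.mem_of_mem_insert_of_ne hx hxy)
    obtain ⟨T, z, h1, h2, h3, h4, h, h5, h6, h7⟩ := hG.ca (v - ((k - l v) / (t y - l (w y))) • w y) (w y)
      (ind_aux hsy.1 hvy _)
    have hyT : y ∉ T := fun h => hy (h2 h)
    rw [map_sub, map_smul, smul_eq_mul] at h6
    refine ⟨insert y (T.erase z), Or.inr ⟨T, z, h1, rfl⟩,
      Finset.insert_subset_insert _ ((Finset.erase_subset _ _).trans h2), h4.exch h3 hyT h5 h7,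
      l + ((t y - l (w y)) / h (w y)) • h, ?_, ?_⟩
    · intro s hs'
      rw [LinearMap.add_apply, LinearMap.smul_apply, smul_eq_mul]
      rcases Finset.mem_insert.1 hs' with rfl | hs'
      · rw [div_mul_cancel₀ _ h7]
        ring
      · rw [h5 s (Finset.mem_of_mem_erase hs'), if_neg (Finset.ne_of_mem_erase hs'), mul_zero, add_zero,
          hl s (h2 (Finset.mem_of_mem_erase hs'))]
    · rw [LinearMap.add_apply, LinearMap.smul_apply, smul_eq_mul, sub_eq_zero.1 h6]
      field_simp
      ring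
  by_cases hdS : Deg w S t v
  · obtain ⟨f, hf, ⟨l, hl⟩, c, hc⟩ := hdS
    have hc0 : c ≠ 0 := by
      intro h
      rw [h, zero_smul] at hc
      exact hv hc
    have hfy : f ≠ y := fun e => hy (e ▸ hf)
    have hd : t y - l (w y) ≠ 0 := by
      intro he
      apply hnd
      refine ⟨f, Finset.mem_insert_of_mem hf, ⟨l, fun x hx hxf => ?_⟩, c, hc⟩
      rcases Finset.mem_insert.1 hx with rfl | hx
      · exact sub_eq_zero.1 he
      · exact hl x hx hxf
    by_cases hk1 : k = l v
    · obtain ⟨T, hT, hTS, hTB, hfT⟩ := (hG.cx f hf).2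
      refine ⟨T, Or.inl hT, hTS.trans (Finset.subset_insert _ _), hTB, l, fun s hs' => ?_, hk1.symm⟩
      exact (hl s (hTS hs') (fun e => hfT (e ▸ hs'))).symm
    by_cases hk2 : k = l v + c * (t f - l (w f))
    · obtain ⟨T, hT, hTS, hTB, hfT⟩ := (hG.cx f hf).1
      obtain ⟨h, hh⟩ := hTB.form fun s => if s = f then (1 : K) else 0
      refine ⟨T, Or.inl hT, hTS.trans (Finset.subset_insert _ _), hTB, l + (t f - l (w f)) • h,
        fun s hs' => ?_, ?_⟩
      · rw [LinearMap.add_apply, LinearMap.smul_apply, smul_eq_mul, hh s hs']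
        by_cases e : s = f
        · rw [if_pos e, e]
          ring
        · rw [if_neg e, mul_zero, add_zero, hl s (hTS hs') e]
      · rw [LinearMap.add_apply, LinearMap.smul_apply, smul_eq_mul, hk2]
        have h1 : h v = c := by
          rw [hc, map_smul, hh f hfT, if_pos rfl, smul_eq_mul, mul_one]
        rw [h1]
        ring
    · have hfs := hs f (Finset.mem_insert_of_mem hf)
      have hfpar : ∀ c' : K, w f ≠ c' • w y := hfs.2 y (Finset.mem_insert_self _ _) hfy.symm
      obtain ⟨T, z, h1, h2, h3, h4, h, h5, h6, h7⟩ := hG.ca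
        (w f - (((k - l v) / c) / (t y - l (w y))) • w y) (w y) (ind_aux hsy.1 hfpar _)
      have hyT : y ∉ T := fun h => hy (h2 h)
      rw [map_sub, map_smul, smul_eq_mul] at h6
      have h8 : h (w f) = (((k - l v) / c) / (t y - l (w y))) * h (w y) := sub_eq_zero.1 h6
      have hkl : k - l v ≠ 0 := sub_ne_zero.2 hk1
      have h9 : h (w f) ≠ 0 := by
        rw [h8]
        exact mul_ne_zero (div_ne_zero (div_ne_zero hkl hc0) hd) h7
      have hfT : ∀ s ∈ T.erase z, s ≠ f := by
        rintro s hs' rfl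
        apply h9
        rw [h5 s (Finset.mem_of_mem_erase hs'), if_neg (Finset.ne_of_mem_erase hs')]
      refine ⟨insert y (T.erase z), Or.inr ⟨T, z, h1, rfl⟩,
        Finset.insert_subset_insert _ ((Finset.erase_subset _ _).trans h2), h4.exch h3 hyT h5 h7,
        l + ((t y - l (w y)) / h (w y)) • h, ?_, ?_⟩
      · intro s hs'
        rw [LinearMap.add_apply, LinearMap.smul_apply, smul_eq_mul]
        rcases Finset.mem_insert.1 hs' with rfl | hs'
        · rw [div_mul_cancel₀ _ h7]
          ring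
        · rw [h5 s (Finset.mem_of_mem_erase hs'), if_neg (Finset.ne_of_mem_erase hs'), mul_zero,
            add_zero, hl s (h2 (Finset.mem_of_mem_erase hs')) (hfT s hs')]
      · have h10 : h v = c * h (w f) := by
          rw [hc, map_smul, smul_eq_mul]
        rw [LinearMap.add_apply, LinearMap.smul_apply, smul_eq_mul, h10, h8]
        field_simp
        ring
  · obtain ⟨T, hT, hTS, hTB, m, hm, hmv⟩ := hG.cb t v hv htS hdS k
    exact ⟨T, Or.inl hT, hTS.trans (Finset.subset_insert _ _), hTB, m, hm, hmv⟩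

theorem ext_cx (hG : Good K w S L Ls Bs) (hy : y ∉ S) (hs : Sim K w (insert y S))
    (h1 : S.Nonempty) : CX K w (insert y S) (exB y L Bs) := by
  have hsy := hs y (Finset.mem_insert_self _ _)
  intro s hs'
  rcases Finset.mem_insert.1 hs' with rfl | hsS
  · obtain ⟨a, ha⟩ := h1
    have hay : s ≠ a := fun e => hy (e ▸ ha)
    have has := hs a (Finset.mem_insert_of_mem ha)
    have hpar : ∀ c : K, w a ≠ c • w s := has.2 s (Finset.mem_insert_self _ _) hay
    obtain ⟨T, z, h1, h2, h3, h4, h, h5, h6, h7⟩ := hG.ca (w a - (0 : K) • w s) (w s)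
      (ind_aux hsy.1 hpar _)
    refine ⟨⟨insert s (T.erase z), Or.inr ⟨T, z, h1, rfl⟩,
      Finset.insert_subset_insert _ ((Finset.erase_subset _ _).trans h2),
      h4.exch h3 (fun h => hy (h2 h)) h5 h7, Finset.mem_insert_self _ _⟩, ?_⟩
    obtain ⟨T', hT', hTS, hTB, -⟩ := (hG.cx a ha).1
    exact ⟨T', Or.inl hT', hTS.trans (Finset.subset_insert _ _), hTB, fun h => hy (hTS h)⟩
  · obtain ⟨⟨T, hT, hTS, hTB, h2⟩, T', hT', hTS', hTB', h2'⟩ := hG.cx s hsS
    exact ⟨⟨T, Or.inl hT, hTS.trans (Finset.subset_insert _ _), hTB, h2⟩,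
      T', Or.inl hT', hTS'.trans (Finset.subset_insert _ _), hTB', h2'⟩

theorem ext_good (hG : Good K w S L Ls Bs) (hy : y ∉ S) (hs : Sim K w (insert y S))
    (hc : Cos K w S) (h2 : 2 ≤ S.card) :
    Good K w (insert y S) L (exS y Ls Bs) (exB y L Bs) where
  ca x v h := by
    obtain ⟨T, z, h1, h2, h3⟩ := hG.ca x v h
    exact ⟨T, z, h1, h2.trans (Finset.subset_insert _ _), h3⟩
  cs := ext_cs hG hy hs hc h2
  cb := ext_cb hG hy hs
  cx := ext_cx hG hy hs (Finset.card_pos.1 (by omega))

end Pool.Agent.PM
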