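import Pool.Agent.PM.L1

set_option autoImplicit false

/-!
# Module L3: coextension by one element

`w' = cx w t c`: `w' s = (w s, t s)` for `s ∈ S`, `w' c = (0, 1)`, `S' = insert c S`.
`cos_off`: `t` is not linear off one element: if `t x = l (w x)` for `x ∈ S`, `x ≠ s` then the linear
form `(v, x) ↦ x - l v` vanishes on `S'` outside `{s, c}`, so it is zero (`Cos`), but its value at
`(0, 1)` is one. In particular `t` is not linear (`S` is nonempty), and `ind_t`: `1_f`, `t` are
independent modulo the linear forms (if `a 1_f + b t` is linear: `b = 0` by `cos_off`, and `a = 0` by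
`ind_one`-like argument with `Cos K w S`: a linear form that vanishes outside `f` is zero).

`coext_ca`. `X = (v₁, a)`, `Y = (v₂, b)` independent.
(i) `v₁, v₂` independent: `(T, z) ∈ L` by `CA`, `(insert c T, z)` is a marked basis (`IsB.cx`) with form
`h' (v, x) = h v`.
(ii) `v₁ = 0`: then `v₂ ≠ 0`; choose `(T, z) ∈ L` with `h v₂ ≠ 0` (`CA` for `v₂` and a vector independent
of it; there is one: `w a` or `w b`, `a ≠ b` in `S` (`Sim K w S`)); again `h'`.
(iii) `v₁ ≠ 0`, `v₂ = d v₁`: then `Y - d X = (0, b')` with `b' ≠ 0`. Use `(insert c T, c)`, `T ∈ Bs`: its form is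
`h' (v, x) = x - m v` where `m` has the values `t` on `T`. Want `m v₁ = a` (then `h' X = 0`,
`h' Y = h' (0, b') = b' ≠ 0`): `CB` for `(t, v₁)`, which is nondegenerate by `cos_off`.

`coext_cs`. Let `t₁, t₂` be independent on `S'` (modulo linear forms on `V × K`). Subtract the
linear forms `t₁ c • snd`, `t₂ c • snd`: `u_i s = t_i s - t_i c * t s` for `s ∈ S`. `u₁, u₂` are independent
on `S` modulo linear forms on `V` (if `a u₁ + b u₂ = l` on `S` then `a t₁ + b t₂` agrees on `S'` with the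
form `(v, x) ↦ l v + (a t₁ c + b t₂ c) x`). `CS` gives `(T, x) ∈ Ls`, `u₁` linear on `T + x`, `u₂` not; the form
with the values `t_i` on `insert c T` is `(v, x) ↦ m_i v + t_i c * x` where `m_i` has the values `u_i` on `T`.
-/

namespace Pool.Agent.PM

open Module

variable {K V : Type} [Field K] [AddCommGroup V] [Module K V] {w : ℕ → V} {S : Finset ℕ}
  {L Ls : Set (Finset ℕ × ℕ)} {Bs : Set (Finset ℕ)} {c f : ℕ} {t : ℕ → K}

/-- the linear form with the components `m` and `n` -/
private def gm (m : Dual K V) (n : K) : Dual K (V × K) :=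
  m ∘ₗ LinearMap.fst K V K + n • LinearMap.snd K V K

private theorem gm_apply (m : Dual K V) (n : K) (v : V) (x : K) : gm m n (v, x) = m v + n * x := by
  simp [gm]

omit [Module K V] in
private theorem cx_neL {s : ℕ} (hs : s ≠ c) : cx w t c s = (w s, t s) := by
  simp [cx, hs]

omit [Module K V] in
private theorem cx_selfL : cx w t c c = (0, 1) := by
  simp [cx]

theorem cos_off (hc : c ∉ S) (h : Cos K (cx w t c) (insert c S)) {s : ℕ} (hs : s ∈ S)
    (l : Dual K V) (hl : ∀ x ∈ S, x ≠ s → t x = l (w x)) : False := by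
  have h0 : gm (-l) 1 = 0 := h s (Finset.mem_insert_of_mem hs) c (Finset.mem_insert_self _ _) _
    fun x hx hxs hxc => by
      rcases Finset.mem_insert.1 hx with hx | hx
      · exact absurd hx hxc
      · rw [cx_neL hxc, gm_apply, LinearMap.neg_apply, hl x hx hxs]
        ring
  have h1 : gm (-l) 1 (0, 1) = 0 := by rw [h0, LinearMap.zero_apply]
  rw [gm_apply, map_zero] at h1
  simp at h1

theorem ind_t (hc : c ∉ S) (h : Cos K (cx w t c) (insert c S)) (hw : Cos K w S) (hf : f ∈ S) :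
    Ind2 w S (fun s => if s = f then (1 : K) else 0) t := by
  rintro α β ⟨l, hl⟩
  have hβ : β = 0 := by
    by_contra hβ
    refine cos_off hc h hf (β⁻¹ • l) fun x hx hxf => ?_
    have e := hl x hx
    simp only [if_neg hxf] at e
    rw [LinearMap.smul_apply, smul_eq_mul, ← e]
    field_simp
    ring
  refine ⟨?_, hβ⟩
  have h0 : l = 0 := hw f hf f hf l fun s hs hsf _ => by
    rw [← hl s hs]
    simp only [if_neg hsf]
    rw [hβ]; ring
  have e := hl f hf
  rw [h0, LinearMap.zero_apply] at e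
  simp only [if_true] at e
  rw [hβ] at e
  linear_combination e

private theorem ca_aux (hc : c ∉ S) {T : Finset ℕ} {z : ℕ} (h1 : (T, z) ∈ L) (h2 : T ⊆ S)
    (h3 : z ∈ T) (h4 : IsB K w T) {l : Dual K V} (h5 : ∀ s ∈ T, l (w s) = if s = z then 1 else 0)
    {v₁ v₂ : V} (h6 : l v₁ = 0) (h7 : l v₂ ≠ 0) (a₁ a₂ : K) :
    ∃ T' z', (T', z') ∈ coL c L Bs ∧ T' ⊆ insert c S ∧ z' ∈ T' ∧ IsB K (cx w t c) T' ∧
      ∃ l' : Dual K (V × K), (∀ s ∈ T', l' (cx w t c s) = if s = z' then 1 else 0) ∧
        l' (v₁, a₁) = 0 ∧ l' (v₂, a₂) ≠ 0 := by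
  have hcT : c ∉ T := fun hh => hc (h2 hh)
  refine ⟨insert c T, z, Or.inl ⟨T, z, h1, rfl⟩, Finset.insert_subset_insert c h2,
    Finset.mem_insert_of_mem h3, h4.cx t hcT, gm l 0, ?_, ?_, ?_⟩
  · intro s hs
    rcases Finset.mem_insert.1 hs with hs | hs
    · have hcz : c ≠ z := fun e => hcT (e ▸ h3)
      rw [hs, cx_selfL, gm_apply, map_zero, if_neg hcz]; ring
    · have hsc : s ≠ c := by
        intro e
        rw [e] at hs
        exact hcT hs
      rw [cx_neL hsc, gm_apply, h5 s hs]; ring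
  · rw [gm_apply, h6]; ring
  · rw [gm_apply, zero_mul, add_zero]
    exact h7

/-- a vector independent of a nonzero vector -/
private theorem ex_ind (hs : Sim K w S) (h2 : 2 ≤ S.card) {v : V} (hv : v ≠ 0) :
    ∃ x : V, ∀ a b : K, a • x + b • v = 0 → a = 0 ∧ b = 0 := by
  obtain ⟨p, hp, q, hq, hpq⟩ := Finset.one_lt_card.1 (show 1 < S.card by omega)
  have key : ∀ x : V, (∀ a : K, x ≠ a • v) → ∀ a b : K, a • x + b • v = 0 → a = 0 ∧ b = 0 := by
    intro x hx a b hab
    have ha : a = 0 := by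
      by_contra ha
      apply hx (-(a⁻¹ * b))
      have e : a⁻¹ • (a • x + b • v) = 0 := by rw [hab, smul_zero]
      rw [smul_add, smul_smul, smul_smul, inv_mul_cancel₀ ha, one_smul] at e
      rw [neg_smul]
      exact eq_neg_of_add_eq_zero_left e
    refine ⟨ha, ?_⟩
    rw [ha, zero_smul, zero_add] at hab
    rcases smul_eq_zero.1 hab with h | h
    · exact h
    · exact absurd h hv
  by_cases h1 : ∀ a : K, w p ≠ a • v
  · exact ⟨w p, key _ h1⟩
  · by_cases h3 : ∀ a : K, w q ≠ a • v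
    · exact ⟨w q, key _ h3⟩
    · exfalso
      push Not at h1 h3
      obtain ⟨a, ha⟩ := h1
      obtain ⟨b, hb⟩ := h3
      have hb0 : b ≠ 0 := by
        rintro rfl
        exact (hs q hq).1 (by rw [hb, zero_smul])
      apply (hs p hp).2 q hq hpq.symm (a * b⁻¹)
      rw [ha, hb, smul_smul, mul_assoc, inv_mul_cancel₀ hb0, mul_one]

theorem coext_ca (hG : Good K w S L Ls Bs) (hc : c ∉ S) (h : Cos K (cx w t c) (insert c S))
    (hs : Sim K w S) (h2 : 2 ≤ S.card) : CA K (cx w t c) (insert c S) (coL c L Bs) := by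
  rintro ⟨v₁, a₁⟩ ⟨v₂, a₂⟩ hI
  by_cases hv : ∀ a b : K, a • v₁ + b • v₂ = 0 → a = 0 ∧ b = 0
  · obtain ⟨T, z, h3, h4, h5, h6, l, h7, h8, h9⟩ := hG.ca v₁ v₂ hv
    exact ca_aux hc h3 h4 h5 h6 h7 h8 h9 a₁ a₂
  by_cases hv1 : v₁ = 0
  · have hv2 : v₂ ≠ 0 := by
      intro hv2
      have e1 := hI a₂ (-a₁) (by
        rw [hv1, hv2]
        ext
        · simp
        · simp only [Prod.smul_mk, smul_eq_mul, Prod.mk_add_mk, Prod.snd_zero]
          ring)
      have e2 := hI 1 0 (by
        have ha1 : a₁ = 0 := neg_eq_zero.1 e1.2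
        rw [hv1, ha1]
        simp)
      exact one_ne_zero e2.1
    obtain ⟨x, hx⟩ := ex_ind hs h2 hv2
    obtain ⟨T, z, h3, h4, h5, h6, l, h7, h8, h9⟩ := hG.ca x v₂ hx
    exact ca_aux hc h3 h4 h5 h6 h7 (by rw [hv1, map_zero]) h9 a₁ a₂
  · obtain ⟨d, hd⟩ : ∃ d : K, v₂ = d • v₁ := by
      push Not at hv
      obtain ⟨a, b, hab, hne⟩ := hv
      have hb : b ≠ 0 := by
        intro hb
        rw [hb, zero_smul, add_zero] at hab
        rcases smul_eq_zero.1 hab with ha | ha
        · exact hne ha hb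
        · exact hv1 ha
      refine ⟨-(b⁻¹ * a), ?_⟩
      have e : b⁻¹ • (a • v₁ + b • v₂) = 0 := by rw [hab, smul_zero]
      rw [smul_add, smul_smul, smul_smul, inv_mul_cancel₀ hb, one_smul] at e
      rw [neg_smul]
      exact eq_neg_of_add_eq_zero_right e
    have hne : a₂ - d * a₁ ≠ 0 := by
      intro e
      have e1 := hI (-d) 1 (by
        rw [hd]
        ext
        · simp
        · simp only [Prod.smul_mk, smul_eq_mul, Prod.mk_add_mk, Prod.snd_zero]
          linear_combination e)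
      exact one_ne_zero e1.2
    obtain ⟨s₀, hs₀⟩ : S.Nonempty := Finset.card_pos.1 (by omega)
    obtain ⟨T, hT, hTS, hB, m, hm, hmv⟩ := hG.cb t v₁ hv1
      (by
        rintro ⟨l, hl⟩
        exact cos_off hc h hs₀ l fun x hx _ => hl x hx)
      (by
        rintro ⟨s, hs', ⟨l, hl⟩, -⟩
        exact cos_off hc h hs' l hl) a₁
    have hcT : c ∉ T := fun hh => hc (hTS hh)
    refine ⟨insert c T, c, Or.inr ⟨T, hT, rfl⟩, Finset.insert_subset_insert c hTS,
      Finset.mem_insert_self _ _, hB.cx t hcT, gm (-m) 1, ?_, ?_, ?_⟩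
    · intro s hs'
      rcases Finset.mem_insert.1 hs' with hs' | hs'
      · rw [hs', cx_selfL, gm_apply, map_zero, if_pos rfl]; ring
      · have hsc : s ≠ c := by
          intro e
          rw [e] at hs'
          exact hcT hs'
        rw [cx_neL hsc, gm_apply, LinearMap.neg_apply, hm s hs', if_neg hsc]; ring
    · rw [gm_apply, LinearMap.neg_apply, hmv]; ring
    · rw [gm_apply, LinearMap.neg_apply, hd, map_smul, smul_eq_mul, hmv]
      intro e
      apply hne
      linear_combination e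

theorem coext_cs (hG : Good K w S L Ls Bs) (hc : c ∉ S) :
    CS K (cx w t c) (insert c S) (coS c Ls) := by
  intro t₁ t₂ hI
  have hI' : Ind2 w S (fun s => t₁ s - t₁ c * t s) (fun s => t₂ s - t₂ c * t s) := by
    rintro α β ⟨l, hl⟩
    refine hI α β ⟨gm l (α * t₁ c + β * t₂ c), fun x hx => ?_⟩
    rcases Finset.mem_insert.1 hx with hx | hx
    · rw [hx, cx_selfL, gm_apply, map_zero]; ring
    · have hxc : x ≠ c := fun e => hc (e ▸ hx)
      rw [cx_neL hxc, gm_apply, ← hl x hx]; ring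
  obtain ⟨T, x, h1, h2, h3, h4, h5, ⟨l, h6, h7⟩, l', h8, h9⟩ := hG.cs _ _ hI'
  have hcT : c ∉ T := fun hh => hc (h2 hh)
  have hxc : x ≠ c := fun e => hc (e ▸ h3)
  refine ⟨insert c T, x, ⟨T, x, h1, rfl⟩, Finset.insert_subset_insert c h2,
    Finset.mem_insert_of_mem h3, ?_, h5.cx t hcT, ⟨gm l (t₁ c), ?_, ?_⟩, gm l' (t₂ c), ?_, ?_⟩
  · intro hx
    rcases Finset.mem_insert.1 hx with hx | hx
    · exact hxc hx
    · exact h4 hx
  · intro s hs
    rcases Finset.mem_insert.1 hs with hs | hs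
    · rw [hs, cx_selfL, gm_apply, map_zero]; ring
    · have hsc : s ≠ c := by
        intro e
        rw [e] at hs
        exact hcT hs
      rw [cx_neL hsc, gm_apply, h6 s hs]; ring
  · rw [cx_neL hxc, gm_apply, h7]; ring
  · intro s hs
    rcases Finset.mem_insert.1 hs with hs | hs
    · rw [hs, cx_selfL, gm_apply, map_zero]; ring
    · have hsc : s ≠ c := by
        intro e
        rw [e] at hs
        exact hcT hs
      rw [cx_neL hsc, gm_apply, h8 s hs]; ring
  · rw [cx_neL hxc, gm_apply]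
    intro e
    apply h9
    linear_combination e

end Pool.Agent.PM
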