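import Pool.Agent.PM.L3

set_option autoImplicit false

/-!
# Module L4: coextension by one element, bases
-/

namespace Pool.Agent.PM

open Module

variable {K V : Type} [Field K] [AddCommGroup V] [Module K V] {w : ℕ → V} {S : Finset ℕ}
  {L Ls : Set (Finset ℕ × ℕ)} {Bs : Set (Finset ℕ)} {c f : ℕ} {t : ℕ → K}

/-- the form `m v + n x` -/
private def frm (m : Dual K V) (n : K) : Dual K (V × K) :=
  m.comp (LinearMap.fst K V K) + n • LinearMap.snd K V K

private theorem frm_apply (m : Dual K V) (n : K) (v : V × K) : frm m n v = m v.1 + n * v.2 := by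
  simp [frm]

private theorem frm_c (m : Dual K V) (n : K) : frm m n (cx w t c c) = n := by
  simp [frm_apply, cx]

private theorem frm_s (m : Dual K V) (n : K) {s : ℕ} (h : s ≠ c) :
    frm m n (cx w t c s) = m (w s) + n * t s := by
  simp [frm_apply, cx, h]

private theorem of_c (hc : c ∉ S) {t₁ : ℕ → K} {v : V × K} {k : K} {T : Finset ℕ} (hT : T ∈ Bs)
    (hTS : T ⊆ S) (hB : IsB K w T) (m : Dual K V) (hm : ∀ s ∈ T, m (w s) = t₁ s - t₁ c * t s)
    (hk : m v.1 + t₁ c * v.2 = k) :
    ∃ T ∈ coB c Ls Bs, T ⊆ insert c S ∧ IsB K (cx w t c) T ∧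
      ∃ l : Dual K (V × K), (∀ s ∈ T, l (cx w t c s) = t₁ s) ∧ l v = k := by
  have hcT : c ∉ T := fun h => hc (hTS h)
  refine ⟨insert c T, Or.inl ⟨T, hT, rfl⟩, Finset.insert_subset_insert c hTS, hB.cx t hcT,
    frm m (t₁ c), ?_, ?_⟩
  · intro s hs
    rcases Finset.mem_insert.1 hs with rfl | hs
    · exact frm_c _ _
    · have : s ≠ c := fun h => hcT (h ▸ hs)
      rw [frm_s _ _ this, hm s hs]
      ring
  · rw [frm_apply, hk]

private theorem of_x (hc : c ∉ S) {t₁ : ℕ → K} {v : V × K} {k : K} {T : Finset ℕ} {x : ℕ}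
    (hT : (T, x) ∈ Ls) (hTS : T ⊆ S) (hxS : x ∈ S) (hxT : x ∉ T) (hB : IsB K w T) {l₂ : Dual K V}
    (h2 : ∀ s ∈ T, l₂ (w s) = t s) (h2x : l₂ (w x) ≠ t x) (m : Dual K V) (n : K)
    (hm : ∀ s ∈ insert x T, m (w s) + n * t s = t₁ s)
    (hk : m v.1 + n * v.2 = k) :
    ∃ T ∈ coB c Ls Bs, T ⊆ insert c S ∧ IsB K (cx w t c) T ∧
      ∃ l : Dual K (V × K), (∀ s ∈ T, l (cx w t c s) = t₁ s) ∧ l v = k := by
  have hcT : c ∉ T := fun h => hc (hTS h)
  have hcx : c ≠ x := fun h => hc (h ▸ hxS)
  refine ⟨insert x T, Or.inr ⟨T, x, hT, rfl⟩, ?_, hB.cx_ins hxT hcT hcx h2 h2x,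
    frm m n, ?_, ?_⟩
  · intro s hs
    rcases Finset.mem_insert.1 hs with rfl | hs
    · exact Finset.mem_insert_of_mem hxS
    · exact Finset.mem_insert_of_mem (hTS hs)
  · intro s hs
    have : s ≠ c := by
      rintro rfl
      rcases Finset.mem_insert.1 hs with h | h
      · exact hcx h
      · exact hcT h
    rw [frm_s _ _ this, hm s hs]
  · rw [frm_apply, hk]

theorem coext_cb (hG : Good K w S L Ls Bs) (hc : c ∉ S) (h : Cos K (cx w t c) (insert c S))
    (hs : Sim K w S) (hw : Cos K w S) (h2 : 2 ≤ S.card) :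
    CB K (cx w t c) (insert c S) (coB c Ls Bs) := by
  intro t₁ v hv hlin hdeg k
  have hne : S.Nonempty := Finset.card_pos.1 (by omega)
  -- `u = t₁ - t₁ c t` is not linear
  have hu : ¬ Lin w S (fun s => t₁ s - t₁ c * t s) := by
    rintro ⟨l, hl⟩
    refine hlin ⟨frm l (t₁ c), fun s hs => ?_⟩
    rcases Finset.mem_insert.1 hs with rfl | hs
    · exact (frm_c _ _).symm
    · have : s ≠ c := fun h => hc (h ▸ hs)
      have h1 := hl s hs
      rw [frm_s _ _ this, ← h1]
      ring
  by_cases hv0 : v.1 = 0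
  · -- `v = (0, a)`
    have ha : v.2 ≠ 0 := fun h0 => hv (Prod.ext hv0 h0)
    have hi : Ind2 w S (fun s => (t₁ s - t₁ c * t s) - (k - t₁ c * v.2) / v.2 * t s) t := by
      rintro a b ⟨l, hl⟩
      by_cases ha0 : a = 0
      · refine ⟨ha0, ?_⟩
        by_contra hb
        obtain ⟨s, hs⟩ := hne
        refine cos_off hc h hs (b⁻¹ • l) fun x hx _ => ?_
        have h1 := hl x hx
        rw [LinearMap.smul_apply, smul_eq_mul, ← h1, ha0]
        field_simp
        ring
      · exfalso
        refine hdeg ⟨c, Finset.mem_insert_self _ _, ⟨frm (a⁻¹ • l)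
          (t₁ c + (k - t₁ c * v.2) / v.2 - a⁻¹ * b), fun x hx hxc => ?_⟩, v.2, ?_⟩
        · have hxS : x ∈ S := (Finset.mem_insert.1 hx).resolve_left hxc
          have h1 := hl x hxS
          rw [frm_s _ _ hxc, LinearMap.smul_apply, smul_eq_mul, ← h1]
          field_simp
          ring
        · refine Prod.ext ?_ ?_
          · simp [cx, hv0]
          · simp [cx]
    obtain ⟨T, x, hT, hTS, hxS, hxT, hB, ⟨l₁, h11, h1x⟩, l₂, h21, h2x⟩ := hG.cs _ _ hi
    refine of_x hc hT hTS hxS hxT hB h21 h2x l₁ (t₁ c + (k - t₁ c * v.2) / v.2) ?_ ?_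
    · intro s hs
      have h3 : l₁ (w s) = (t₁ s - t₁ c * t s) - (k - t₁ c * v.2) / v.2 * t s := by
        rcases Finset.mem_insert.1 hs with rfl | hs
        · exact h1x
        · exact h11 s hs
      rw [h3]
      ring
    · rw [hv0, map_zero]
      field_simp
      ring
  · by_cases hd : Deg w S (fun s => t₁ s - t₁ c * t s) v.1
    · obtain ⟨f, hf, ⟨l₀, hl₀⟩, φ, hφ⟩ := hd
      have hfc : f ≠ c := fun h => hc (h ▸ hf)
      have he : (t₁ f - t₁ c * t f) - l₀ (w f) ≠ 0 := by
        intro he
        refine hu ⟨l₀, fun s hs => ?_⟩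
        by_cases hsf : s = f
        · rw [hsf]
          exact sub_eq_zero.1 he
        · exact hl₀ s hs hsf
      have hα : v.2 - φ * t f ≠ 0 := by
        intro hα
        refine hdeg ⟨f, Finset.mem_insert_of_mem hf, ⟨frm l₀ (t₁ c), fun x hx hxf => ?_⟩, φ, ?_⟩
        · rcases Finset.mem_insert.1 hx with rfl | hx
          · exact (frm_c _ _).symm
          · have : x ≠ c := fun h => hc (h ▸ hx)
            have h1 := hl₀ x hx hxf
            rw [frm_s _ _ this, ← h1]
            ring
        · refine Prod.ext ?_ ?_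
          · simp [cx, hfc, hφ]
          · simp only [cx, if_neg hfc, Prod.smul_snd, smul_eq_mul]
            exact sub_eq_zero.1 hα
      obtain ⟨e, hee⟩ : ∃ e, e = (t₁ f - t₁ c * t f) - l₀ (w f) := ⟨_, rfl⟩
      rw [← hee] at he
      have hu2 : ∀ s ∈ S, t₁ s - t₁ c * t s = l₀ (w s) + e * (if s = f then 1 else 0) := by
        intro s hs
        by_cases hsf : s = f
        · rw [hsf, if_pos rfl, hee]
          ring
        · rw [if_neg hsf, mul_zero, add_zero]
          exact hl₀ s hs hsf
      obtain ⟨k', hk'⟩ : ∃ k', k' = k - l₀ v.1 - t₁ c * v.2 := ⟨_, rfl⟩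
      by_cases hk : k' = φ * e
      · obtain ⟨⟨T, hT, hTS, hB, hfT⟩, _⟩ := hG.cx f hf
        obtain ⟨m, hm⟩ := hB.form fun s => if s = f then (1 : K) else 0
        refine of_c hc hT hTS hB (l₀ + e • m) (fun s hs => ?_) ?_
        · rw [hu2 s (hTS hs), LinearMap.add_apply, LinearMap.smul_apply, smul_eq_mul, hm s hs]
        · have h3 : m v.1 = φ := by
            rw [hφ, map_smul, hm f hfT, if_pos rfl, smul_eq_mul, mul_one]
          rw [LinearMap.add_apply, LinearMap.smul_apply, smul_eq_mul, h3]
          have h4 : k = k' + l₀ v.1 + t₁ c * v.2 := by rw [hk']; ring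
          rw [h4, hk]
          ring
      · have hkn : k' - φ * e ≠ 0 := sub_ne_zero.2 hk
        obtain ⟨α, hαe⟩ : ∃ α, α = v.2 - φ * t f := ⟨_, rfl⟩
        rw [← hαe] at hα
        have hi : Ind2 w S (fun s => α * e * (if s = f then 1 else 0) - (k' - φ * e) * t s) t := by
          rintro A B ⟨l, hl⟩
          have h3 := ind_t hc h hw hf (A * α * e) (B - A * (k' - φ * e)) ⟨l, fun s hs => by
            rw [← hl s hs]
            ring⟩
          have hA : A = 0 := by
            have h4 := h3.1
            rcases mul_eq_zero.1 h4 with h5 | h5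
            · exact (mul_eq_zero.1 h5).resolve_right hα
            · exact absurd h5 he
          refine ⟨hA, ?_⟩
          have h5 := h3.2
          rw [hA, zero_mul, sub_zero] at h5
          exact h5
        obtain ⟨T, x, hT, hTS, hxS, hxT, hB, ⟨l₁, h11, h1x⟩, l₂, h21, h2x⟩ := hG.cs _ _ hi
        have h12 : ∀ s ∈ insert x T,
            l₁ (w s) = α * e * (if s = f then 1 else 0) - (k' - φ * e) * t s := by
          intro s hs
          rcases Finset.mem_insert.1 hs with rfl | hs
          · exact h1x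
          · exact h11 s hs
        have hfT : f ∈ insert x T := by
          by_contra hfT
          have h4 : ∀ s ∈ insert x T, (-(k' - φ * e)⁻¹ • l₁) (w s) = t s := by
            intro s hs
            have hsf : s ≠ f := fun h => hfT (h ▸ hs)
            rw [LinearMap.smul_apply, smul_eq_mul, h12 s hs, if_neg hsf]
            field_simp
            ring
          have h5 : -(k' - φ * e)⁻¹ • l₁ = l₂ := hB.eq fun s hs => by
            rw [h4 s (Finset.mem_insert_of_mem hs), h21 s hs]
          apply h2x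
          rw [← h5]
          exact h4 x (Finset.mem_insert_self _ _)
        have h6 : ∀ s ∈ insert x T, (α⁻¹ • l₁) (w s) + (k' - φ * e) / α * t s =
            e * (if s = f then 1 else 0) := by
          intro s hs
          rw [LinearMap.smul_apply, smul_eq_mul, h12 s hs]
          field_simp
          ring
        have hTS' : ∀ s ∈ insert x T, s ∈ S := by
          intro s hs
          rcases Finset.mem_insert.1 hs with rfl | hs
          · exact hxS
          · exact hTS hs
        refine of_x hc hT hTS hxS hxT hB h21 h2x (l₀ + α⁻¹ • l₁) (t₁ c + (k' - φ * e) / α) ?_ ?_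
        · intro s hs
          have h7 := h6 s hs
          have h8 := hu2 s (hTS' s hs)
          rw [LinearMap.add_apply]
          linear_combination h7 - h8
        · have h7 := h6 f hfT
          rw [if_pos rfl, mul_one] at h7
          have h9 : (α⁻¹ • l₁) v.1 = φ * (α⁻¹ • l₁) (w f) := by
            rw [hφ, map_smul, smul_eq_mul]
          have h10 : v.2 = φ * t f + α := by rw [hαe]; ring
          have h11 : (k' - φ * e) / α * α = k' - φ * e := div_mul_cancel₀ _ hα
          rw [LinearMap.add_apply, h9]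
          have h12 : k = k' + l₀ v.1 + t₁ c * v.2 := by rw [hk']; ring
          rw [h12, h10]
          linear_combination φ * h7 + h11
    · obtain ⟨T, hT, hTS, hB, m, hm, hmv⟩ := hG.cb _ v.1 hv0 hu hd (k - t₁ c * v.2)
      exact of_c hc hT hTS hB m hm (by rw [hmv]; ring)

end Pool.Agent.PM
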