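import Pool.Agent.PM.Rep
import Pool.Agent.PM.Bas

set_option autoImplicit false

/-!
# Module N1: questions to the oracle in minors
-/

namespace Pool.Agent.PM

open Module Pool.Agent.Helper22
open Pool.Agent.G4 (nor dif word prd)

variable {K : Type} [Field K] {X : Oracle} {E B S T : List ℕ} {u : ℕ → ℕ → K} {b c n x y z : ℕ}

theorem word_congr {T T' : List ℕ} (h : ∀ x ∈ E, x ∈ T ↔ x ∈ T') : word E T = word E T' := by
  unfold word
  apply List.map_congr_left
  intro x hx
  exact decide_eq_decide.2 (h x hx)

private theorem li_iff {V : Type} [AddCommGroup V] [Module K V] (v : ℕ → V) (S : Finset ℕ) :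
    (LinearIndependent K fun t : S => v t) ↔
      ∀ g : ℕ → K, ∑ t ∈ S, g t • v t = 0 → ∀ t ∈ S, g t = 0 :=
  linearIndepOn_finset_iff (R := K) (s := S) (v := v)

theorem isB_iff (R T : Finset ℕ) :
    IsB K (cf u R) T ↔ (LinearIndependent K fun t : T => cf u R t) ∧ T.card = R.card := by
  classical
  have hR : finrank K (R → K) = R.card := by
    rw [finrank_fintype_fun_eq_card, Fintype.card_coe]
  constructor
  · intro h
    constructor
    · rw [li_iff]
      intro g hg t ht
      obtain ⟨l, hl⟩ := h.form fun s => if s = t then 1 else 0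
      have h1 := congrArg l hg
      rw [map_sum, map_zero] at h1
      rw [Finset.sum_congr rfl fun s hs => by
        rw [map_smul, hl s hs, smul_eq_mul, mul_ite, mul_one, mul_zero]] at h1
      rw [Finset.sum_ite_eq' T t g, if_pos ht] at h1
      exact h1
    · let ev : Dual K (R → K) →ₗ[K] (T → K) := LinearMap.pi fun t => LinearMap.applyₗ (cf u R t)
      have hev : ∀ l t, ev l t = l (cf u R t) := fun l t => rfl
      have hb : Function.Bijective ev := by
        constructor
        · intro l m hlm
          exact h.eq fun s hs => congrFun hlm ⟨s, hs⟩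
        · intro f
          obtain ⟨l, hl⟩ := h.form fun s => if hs : s ∈ T then f ⟨s, hs⟩ else 0
          refine ⟨l, ?_⟩
          funext t
          rw [hev, hl t t.2]
          simp
      have h1 := (LinearEquiv.ofBijective ev hb).finrank_eq
      rw [Subspace.dual_finrank_eq, hR, finrank_fintype_fun_eq_card, Fintype.card_coe] at h1
      exact h1.symm
  · rintro ⟨h1, h2⟩ f
    have hsp : Submodule.span K (Set.range fun t : T => cf u R t) = ⊤ :=
      h1.span_eq_top_of_card_eq_finrank' (by rw [Fintype.card_coe, hR, h2])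
    let bs : Basis T K (R → K) := Basis.mk h1 hsp.ge
    have hbs : ∀ t, bs t = cf u R t := fun t => by
      show Basis.mk h1 hsp.ge t = _
      rw [Basis.mk_apply]
    refine ⟨bs.constr K fun t => f t, ?_, ?_⟩
    · intro s hs
      have h3 : cf u R s = bs ⟨s, hs⟩ := (hbs ⟨s, hs⟩).symm
      show (bs.constr K fun t => f t) (cf u R s) = f s
      rw [h3, Basis.constr_basis]
    · intro l hl
      apply bs.ext
      intro t
      rw [Basis.constr_basis, hbs]
      exact hl t t.2

private theorem mem_dif {A C : List ℕ} {x : ℕ} : x ∈ dif A C ↔ x ∈ A ∧ x ∉ C := by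
  unfold dif
  rw [List.mem_filter]
  simp

private theorem mem_nor {A C : List ℕ} {x : ℕ} : x ∈ nor A C ↔ x ∈ A ∧ x ∈ C := by
  unfold nor
  rw [List.mem_filter]
  simp

theorem Rp.ask (h : Rp X E B u) {R J : List ℕ} (hR : ∀ x ∈ R, x ∈ B) (hJ : ∀ j ∈ J, j ∈ E)
    (hd : ∀ j ∈ J, j ∈ B → j ∈ R) :
    X (word E (dif B R ++ J)) = true ↔
      LinearIndependent K fun j : J.toFinset => cf u R.toFinset j := by
  classical
  have hE : ∀ t ∈ dif B R ++ J, t ∈ E := by
    intro t ht
    rcases List.mem_append.1 ht with ht | ht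
    · exact h.BE t (mem_dif.1 ht).1
    · exact hJ t ht
  rw [h.orc _ hE, List.toFinset_append, li_iff, li_iff]
  have hdis : Disjoint (dif B R).toFinset J.toFinset := by
    rw [Finset.disjoint_left]
    intro t h1 h2
    rw [List.mem_toFinset] at h1 h2
    exact (mem_dif.1 h1).2 (hd t h2 (mem_dif.1 h1).1)
  -- coordinates of the sum over the unit vectors
  have hC : ∀ (g : ℕ → K) (i : ℕ), (∑ t ∈ (dif B R).toFinset, g t • u t) i =
      if i ∈ (dif B R).toFinset then g i else 0 := by
    intro g i
    rw [Finset.sum_apply]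
    rw [Finset.sum_congr rfl fun t ht => by
      rw [Pi.smul_apply, h.unit t (mem_dif.1 (List.mem_toFinset.1 ht)).1 i, smul_eq_mul,
        mul_ite, mul_one, mul_zero]]
    rw [Finset.sum_ite_eq]
  constructor
  · intro h1 g hg
    have hg' : ∀ i ∈ R, ∑ t ∈ J.toFinset, g t * u t i = 0 := by
      intro i hi
      have h2 := congrFun hg ⟨i, List.mem_toFinset.2 hi⟩
      rw [Finset.sum_apply] at h2
      exact h2
    have h2 := h1 (fun t => if t ∈ J.toFinset then g t else -∑ j ∈ J.toFinset, g j * u j t) (by
      rw [Finset.sum_union hdis]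
      funext i
      rw [Pi.add_apply, hC, Finset.sum_apply, Pi.zero_apply]
      have h3 : ∑ t ∈ J.toFinset, ((if t ∈ J.toFinset then g t else
          -∑ j ∈ J.toFinset, g j * u j t) • u t) i = ∑ t ∈ J.toFinset, g t * u t i := by
        refine Finset.sum_congr rfl fun t ht => ?_
        rw [if_pos ht]
        rfl
      rw [h3]
      by_cases hi : i ∈ (dif B R).toFinset
      · rw [if_pos hi, if_neg fun hj => (Finset.disjoint_left.1 hdis) hi hj, neg_add_cancel]
      · rw [if_neg hi, zero_add]
        by_cases hiR : i ∈ R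
        · exact hg' i hiR
        · have hiB : i ∉ B := fun hiB => hi (List.mem_toFinset.2 (mem_dif.2 ⟨hiB, hiR⟩))
          refine Finset.sum_eq_zero fun t _ => ?_
          rw [h.sup t i hiB, mul_zero])
    intro t ht
    have h3 := h2 t (Finset.mem_union_right _ ht)
    rwa [if_pos ht] at h3
  · intro h1 g hg
    rw [Finset.sum_union hdis] at hg
    have hJ0 : ∀ t ∈ J.toFinset, g t = 0 := by
      apply h1
      funext i
      have h2 := congrFun hg i
      have hi : (i : ℕ) ∈ R := List.mem_toFinset.1 i.2
      rw [Pi.add_apply, hC, if_neg fun hc => (mem_dif.1 (List.mem_toFinset.1 hc)).2 hi,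
        zero_add, Finset.sum_apply, Pi.zero_apply] at h2
      rw [Finset.sum_apply, Pi.zero_apply]
      exact h2
    intro t ht
    rcases Finset.mem_union.1 ht with ht | ht
    · have h2 := congrFun hg t
      rw [Pi.add_apply, hC, if_pos ht, Finset.sum_apply, Pi.zero_apply,
        Finset.sum_eq_zero fun j hj => by rw [hJ0 j hj, zero_smul]; rfl, add_zero] at h2
      exact h2
    · exact hJ0 t ht

private theorem dif_nor (B S : List ℕ) : dif B (nor B S) = dif B S := by
  unfold dif
  apply List.filter_congr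
  intro x hx
  congr 1
  apply decide_eq_decide.2
  rw [mem_nor]
  exact ⟨fun h => h.2, fun h => ⟨hx, h⟩⟩

theorem Rp.isb_iff (h : Rp X E B u) (hS : S.Sublist E) (hT : T.Sublist S) :
    isb X E B S T = true ↔ IsB K (cf u (nor B S).toFinset) T.toFinset := by
  have hTn : T.Nodup := (h.ndE.sublist hS).sublist hT
  have hNn : (nor B S).Nodup := h.ndB.sublist List.filter_sublist
  unfold isb
  rw [Bool.and_eq_true, decide_eq_true_iff, ← dif_nor B S, h.ask (fun x hx => (mem_nor.1 hx).1)
    (fun j hj => hS.subset (hT.subset hj)) (fun j hj hB => mem_nor.2 ⟨hB, hT.subset hj⟩), isB_iff,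
    List.toFinset_card_of_nodup hTn, List.toFinset_card_of_nodup hNn]
  constructor
  · rintro ⟨h1, h2⟩
    refine ⟨h2, le_antisymm ?_ h1⟩
    have h3 := h2.fintype_card_le_finrank
    rw [Fintype.card_coe, finrank_fintype_fun_eq_card, Fintype.card_coe,
      List.toFinset_card_of_nodup hTn, List.toFinset_card_of_nodup hNn] at h3
    exact h3
  · rintro ⟨h1, h2⟩
    exact ⟨h2.ge, h1⟩

/-- adding an element and a coordinate -/
private theorem ins_iff {R T : Finset ℕ} {x c : ℕ} (hx : x ∉ T) (hB : IsB K (cf u R) T)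
    {l : Dual K (R → K)} (hl : ∀ s ∈ T, l (cf u R s) = u s c) :
    (LinearIndependent K fun j : (insert x T : Finset ℕ) => cf u (insert c R) j) ↔
      l (cf u R x) ≠ u x c := by
  rw [li_iff]
  constructor
  · intro h1 he
    obtain ⟨a, ha, hxa⟩ := hB.coord (cf u R x)
    have h2 := h1 (fun s => if s = x then -1 else a s) (by
      rw [Finset.sum_insert hx, if_pos rfl, Finset.sum_congr rfl fun s hs => by
        rw [if_neg fun e : s = x => hx (e ▸ hs)]]
      funext i
      rw [Pi.add_apply, Finset.sum_apply, Pi.zero_apply, Pi.smul_apply, smul_eq_mul, neg_one_mul,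
        neg_add_eq_zero]
      rcases Finset.mem_insert.1 i.2 with hi | hi
      · have h3 := congrArg l hxa
        rw [he, map_sum, Finset.sum_congr rfl fun s hs => by rw [map_smul, hl s hs]] at h3
        show u x i = ∑ s ∈ T, (a s • cf u (insert c R) s) i
        rw [hi, h3]
        refine Finset.sum_congr rfl fun s _ => ?_
        show a s * u s c = a s * u s (i : ℕ)
        rw [hi]
      · have h3 := congrFun hxa ⟨i, hi⟩
        rw [Finset.sum_apply] at h3
        exact h3) x (Finset.mem_insert_self _ _)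
    simp only [if_true] at h2
    exact one_ne_zero (neg_eq_zero.1 h2)
  · intro hne g hg
    rw [Finset.sum_insert hx] at hg
    have hR : g x • cf u R x + ∑ s ∈ T, g s • cf u R s = 0 := by
      funext i
      have h3 := congrFun hg ⟨i, Finset.mem_insert_of_mem i.2⟩
      rw [Pi.add_apply, Finset.sum_apply] at h3
      rw [Pi.add_apply, Finset.sum_apply]
      exact h3
    have hcc : g x * u x c + ∑ s ∈ T, g s * u s c = 0 := by
      have h3 := congrFun hg ⟨c, Finset.mem_insert_self _ _⟩
      rw [Pi.add_apply, Finset.sum_apply] at h3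
      exact h3
    have h4 := congrArg l hR
    rw [map_add, map_smul, map_sum, map_zero, Finset.sum_congr rfl fun s hs => by
      rw [map_smul, hl s hs, smul_eq_mul], smul_eq_mul] at h4
    have h5 : g x * (l (cf u R x) - u x c) = 0 := by linear_combination h4 - hcc
    have hgx : g x = 0 := (mul_eq_zero.1 h5).resolve_right (sub_ne_zero.2 hne)
    rw [hgx, zero_smul, zero_add] at hR
    have h6 := (li_iff _ _).1 ((isB_iff R T).1 hB).1 g hR
    intro t ht
    rcases Finset.mem_insert.1 ht with rfl | ht
    · exact hgx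
    · exact h6 t ht

private theorem ask_ins (h : Rp X E B u) (hS : S.Sublist E) (hT : T.Sublist S) (hx : x ∈ E)
    (hxB : x ∈ B → x ∈ S) (hxT : x ∉ T) (hc : c ∈ B)
    (hTB : IsB K (cf u (nor B S).toFinset) T.toFinset) {l : Dual K ((nor B S).toFinset → K)}
    (hl : ∀ s ∈ T.toFinset, l (cf u (nor B S).toFinset s) = u s c) :
    X (word E (dif (dif B S) [c] ++ x :: T)) = true ↔
      l (cf u (nor B S).toFinset x) ≠ u x c := by
  have e1 : word E (dif (dif B S) [c] ++ x :: T) = word E (dif B (nor B S ++ [c]) ++ x :: T) := by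
    apply word_congr
    intro t _
    rw [List.mem_append, List.mem_append, mem_dif, mem_dif, mem_dif, List.mem_append, mem_nor,
      List.mem_singleton]
    tauto
  have e2 : (nor B S ++ [c]).toFinset = insert c (nor B S).toFinset := by
    ext t
    simp only [List.mem_toFinset, List.mem_append, List.mem_singleton, Finset.mem_insert]
    tauto
  rw [e1, h.ask (R := nor B S ++ [c]) (J := x :: T) ?_ ?_ ?_]
  · rw [e2, List.toFinset_cons]
    exact ins_iff (fun hm => hxT (List.mem_toFinset.1 hm)) hTB hl
  · intro t ht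
    rcases List.mem_append.1 ht with ht | ht
    · exact (mem_nor.1 ht).1
    · rw [List.mem_singleton.1 ht]
      exact hc
  · intro t ht
    rcases List.mem_cons.1 ht with rfl | ht
    · exact hx
    · exact hS.subset (hT.subset ht)
  · intro t ht htB
    rw [List.mem_append, mem_nor]
    rcases List.mem_cons.1 ht with rfl | ht
    · exact Or.inl ⟨htB, hxB htB⟩
    · exact Or.inl ⟨htB, hT.subset ht⟩

theorem Rp.askS (h : Rp X E B u) (hS : S.Sublist E) {p : List ℕ × ℕ} (hp : p.1.Sublist S)
    (hx : p.2 ∈ S) (hxp : p.2 ∉ p.1) (hc : c ∈ B) (hcS : c ∉ S)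
    (hT : IsB K (cf u (nor B S).toFinset) p.1.toFinset)
    {l : Dual K ((nor B S).toFinset → K)}
    (hl : ∀ s ∈ p.1.toFinset, l (cf u (nor B S).toFinset s) = u s c) :
    Pool.Agent.PM.askS X E B S c p = true ↔ l (cf u (nor B S).toFinset p.2) ≠ u p.2 c :=
  ask_ins h hS hp (hS.subset hx) (fun _ => hx) hxp hc hT hl

theorem Rp.askL (h : Rp X E B u) (hS : S.Sublist E) {p : List ℕ × ℕ} (hp : p.1.Sublist S)
    (hz : p.2 ∈ p.1) (hn : n ∈ E) (hnB : n ∉ B) (hnS : n ∉ S)
    (hT : IsB K (cf u (nor B S).toFinset) p.1.toFinset)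
    {l : Dual K ((nor B S).toFinset → K)}
    (hl : ∀ s ∈ p.1.toFinset, l (cf u (nor B S).toFinset s) = if s = p.2 then 1 else 0) :
    Pool.Agent.PM.askL X E B S n p = true ↔ l (cf u (nor B S).toFinset n) ≠ 0 := by
  have hnT : n ∉ p.1.toFinset := fun hm => hnS (hp.subset (List.mem_toFinset.1 hm))
  have hzT : p.2 ∈ p.1.toFinset := List.mem_toFinset.2 hz
  have hJ : ∀ t, t ∈ (p.1.filter fun t => !decide (t = p.2)) ↔ t ∈ p.1 ∧ t ≠ p.2 := by
    intro t
    rw [List.mem_filter]
    simp
  unfold Pool.Agent.PM.askL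
  rw [← dif_nor B S, h.ask (R := nor B S)
    (J := n :: p.1.filter fun t => !decide (t = p.2)) (fun x hx => (mem_nor.1 hx).1) ?_ ?_]
  · have e2 : (n :: p.1.filter fun t => !decide (t = p.2)).toFinset =
        insert n (p.1.toFinset.erase p.2) := by
      rw [List.toFinset_cons]
      congr 1
      ext t
      rw [List.mem_toFinset, hJ, Finset.mem_erase, List.mem_toFinset]
      tauto
    rw [e2]
    constructor
    · intro h1 he
      rw [li_iff] at h1
      obtain ⟨a, _, hna⟩ := hT.coord (cf u (nor B S).toFinset n)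
      have h3 := congrArg l hna
      rw [he, map_sum, Finset.sum_congr rfl fun s hs => by
        rw [map_smul, hl s hs, smul_eq_mul, mul_ite, mul_one, mul_zero],
        Finset.sum_ite_eq' _ _ a, if_pos hzT] at h3
      have hne : n ∉ p.1.toFinset.erase p.2 := fun hm => hnT (Finset.mem_of_mem_erase hm)
      have h2 := h1 (fun s => if s = n then -1 else a s) (by
        rw [Finset.sum_insert hne, if_pos rfl, Finset.sum_congr rfl fun s hs => by
          rw [if_neg fun e : s = n => hne (e ▸ hs)]]
        rw [← Finset.add_sum_erase _ _ hzT, ← h3, zero_smul, zero_add] at hna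
        rw [hna, neg_one_smul, neg_add_cancel]) n (Finset.mem_insert_self _ _)
      simp only [if_true] at h2
      exact one_ne_zero (neg_eq_zero.1 h2)
    · intro hne
      exact ((isB_iff _ _).1 (hT.exch hzT hnT hl hne)).1
  · intro t ht
    rcases List.mem_cons.1 ht with rfl | ht
    · exact hn
    · exact hS.subset (hp.subset ((hJ t).1 ht).1)
  · intro t ht htB
    rcases List.mem_cons.1 ht with rfl | ht
    · exact absurd htB hnB
    · exact mem_nor.2 ⟨htB, hp.subset ((hJ t).1 ht).1⟩

theorem Rp.askC (h : Rp X E B u) (hS : S.Sublist E) (hT : T.Sublist S) (hy : y ∈ E) (hyB : y ∉ B)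
    (hyS : y ∉ S) (hb : b ∈ B) (hbS : b ∉ S) (hTB : IsB K (cf u (nor B S).toFinset) T.toFinset)
    {l : Dual K ((nor B S).toFinset → K)}
    (hl : ∀ s ∈ T.toFinset, l (cf u (nor B S).toFinset s) = u s b) :
    X (word E (dif (dif B S) [b] ++ y :: T)) = true ↔
      l (cf u (nor B S).toFinset y) ≠ u y b :=
  ask_ins h hS hT hy (fun hh => absurd hh hyB) (fun hh => hyS (hT.subset hh)) hb hTB hl

end Pool.Agent.PM
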