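import Pool.Agent.PM.A3
import Pool.Agent.PM.N4

set_option autoImplicit false

/-!
# Module N5: pruning preserves the properties of the lists

`q = Fintype.card K`, `d = q - 1 ≥ 1`; `a ^ (q - 1)` is `1` for `a ≠ 0`, `0` for `a = 0`. The pruned list is
contained in the list (`prune_sub`), so the items are as before.
* `CA`: the function `v ↦ (dot v F) ^ (q - 1) * ...` of the forms which is not zero iff `l x = 0`, `l y ≠ 0`.
* `CS`: the same for circuits.
* `CB`, `CX`: see N6.
-/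

namespace Pool.Agent.PM

open Module Pool.Agent.Helper22
open Pool.Agent.G4 (nor dif word prd)

variable {K : Type} [Field K] [DecidableEq K] [Fintype K] {B S : List ℕ} {u : ℕ → ℕ → K}
  {D : Mx K} {t : Trip}

omit [DecidableEq K] in
private theorem one_le_card5 : 1 ≤ Fintype.card K - 1 := by
  have h := Fintype.one_lt_card (α := K)
  omega

omit [DecidableEq K] [Fintype K] in
private theorem ext_fun5 {R : List ℕ} (v : R.toFinset → K) :
    ∃ g : ℕ → K, (fun i : R.toFinset => g i) = v := by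
  refine ⟨fun i => if h : i ∈ R.toFinset then v ⟨i, h⟩ else 0, ?_⟩
  funext i
  obtain ⟨i, hi⟩ := i
  simp only [hi, dite_true]

/-- the function that is not zero iff the first dot product is zero and the second one is not -/
private def tst (F G : List K) (v : List K) : K :=
  (dot v G + 0) ^ (Fintype.card K - 1) +
    (-1 : K) * ((dot v F + 0) ^ (Fintype.card K - 1) * (dot v G + 0) ^ (Fintype.card K - 1))

private theorem tst_pol {m : ℕ} {F G : List K} (hF : F.length = m) (hG : G.length = m) :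
    Pol m (Fintype.card K - 1 + (Fintype.card K - 1)) (tst F G) := by
  have h1 : Pol m (Fintype.card K - 1) fun v : List K => (dot v G + 0) ^ (Fintype.card K - 1) :=
    Pol.pow hG 0
  exact Pol.add (Pol.mono h1 (Nat.le_add_right _ _)) (Pol.smul (Pol.pow2 hF hG 0 0) (-1))

private theorem tst_ne {F G v : List K} : tst F G v ≠ 0 ↔ dot v F = 0 ∧ dot v G ≠ 0 := by
  have h6 : Fintype.card K - 1 ≠ 0 := by
    have := one_le_card5 (K := K)
    omega
  unfold tst
  rw [add_zero, add_zero]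
  by_cases hG : dot v G = 0
  · rw [hG, zero_pow h6]
    simp
  · rw [FiniteField.pow_card_sub_one_eq_one _ hG]
    by_cases hF : dot v F = 0
    · rw [hF, zero_pow h6]
      simp [hG]
    · rw [FiniteField.pow_card_sub_one_eq_one _ hF]
      simp [hF]

theorem prT_ca (hB : B.Nodup) (hD : ∀ s ∈ S, ∀ i ∈ nor B S, ent D s i = u s i)
    (hG : TGood u B S t) (hb : TBas u B S t) :
    CA K (cf u (nor B S).toFinset) S.toFinset
      (mkL (prT (Fintype.card K - 1) D (nor B S) S t).1) := by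
  intro x y hxy
  have hR : (nor B S).Nodup := hB.filter _
  obtain ⟨T, z, ⟨p, hp, hpe⟩, _, _, _, l, hl, hlx, hly⟩ := hG.good.ca x y hxy
  obtain ⟨f, hf⟩ := ext_fun5 x
  obtain ⟨g, hg⟩ := ext_fun5 y
  have e1 : T = p.1.toFinset := congrArg Prod.fst hpe
  have e2 : z = p.2 := congrArg Prod.snd hpe
  subst e1
  subst e2
  have hdot : ∀ q ∈ t.1, ∀ l' : Dual K ((nor B S).toFinset → K),
      (∀ s ∈ q.1.toFinset, l' (cf u (nor B S).toFinset s) = if s = q.2 then 1 else 0) →
      dot (fv D (nor B S) q.1 q.2) ((nor B S).map f) = l' x ∧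
        dot (fv D (nor B S) q.1 q.2) ((nor B S).map g) = l' y := by
    intro q hq l' hl'
    have hDq : ∀ t' ∈ q.1, ∀ i ∈ nor B S, ent D t' i = u t' i := fun t' ht' i hi =>
      hD t' ((hG.sL q hq).1.subset ht') i hi
    exact ⟨by rw [fv_dot hR hDq (hb.bL q hq) hl' f, hf],
      by rw [fv_dot hR hDq (hb.bL q hq) hl' g, hg]⟩
  have hpol := tst_pol (K := K) (F := (nor B S).map f) (G := (nor B S).map g)
    (m := (nor B S).length) (List.length_map _) (List.length_map _)
  have h0 : tst ((nor B S).map f) ((nor B S).map g) (fv D (nor B S) p.1 p.2) ≠ 0 := by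
    obtain ⟨h1, h2⟩ := hdot p hp l hl
    rw [tst_ne, h1, h2]
    exact ⟨hlx, hly⟩
  obtain ⟨q, h1, h2⟩ := prune_pol t.1 (fun p => fv D (nor B S) p.1 p.2)
    ((nor B S).map fun _ => (0 : K)) (List.length_map _) (fun p _ => fv_length D _ _ _) hpol hp h0
  have h3 : q ∈ t.1 := prune_sub _ _ _ h1
  obtain ⟨l', hl'⟩ := (hb.bL q h3).form (K := K) fun s => if s = q.2 then (1 : K) else 0
  obtain ⟨h4, h5⟩ := hdot q h3 l' hl'
  rw [tst_ne, h4, h5] at h2
  exact ⟨q.1.toFinset, q.2, ⟨q, h1, rfl⟩,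
    fun i hi => List.mem_toFinset.2 ((hG.sL q h3).1.subset (List.mem_toFinset.1 hi)),
    List.mem_toFinset.2 (hG.sL q h3).2, hb.bL q h3, l', hl', h2.1, h2.2⟩

theorem prT_cs (hB : B.Nodup) (hS : S.Nodup) (hD : ∀ s ∈ S, ∀ i ∈ nor B S, ent D s i = u s i)
    (hG : TGood u B S t) (hb : TBas u B S t) :
    CS K (cf u (nor B S).toFinset) S.toFinset
      (mkL (prT (Fintype.card K - 1) D (nor B S) S t).2.1) := by
  intro f g hfg
  have hR : (nor B S).Nodup := hB.filter _
  obtain ⟨T, z, ⟨p, hp, hpe⟩, _, _, _, _, ⟨l, hl, hlx⟩, m, hm, hmx⟩ := hG.good.cs f g hfg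
  have e1 : T = p.1.toFinset := congrArg Prod.fst hpe
  have e2 : z = p.2 := congrArg Prod.snd hpe
  subst e1
  subst e2
  have hdot : ∀ q ∈ t.2.1, ∀ (f' : ℕ → K) (l' : Dual K ((nor B S).toFinset → K)),
      (∀ s ∈ q.1.toFinset, l' (cf u (nor B S).toFinset s) = f' s) →
      dot (cir D (nor B S) S q.1 q.2) (S.map f') = l' (cf u (nor B S).toFinset q.2) - f' q.2 := by
    intro q hq f' l' hl'
    exact cir_dot hR hS hD (fun i hi => (hG.sS q hq).1.subset hi) (hb.bS q hq) (hG.sS q hq).2.1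
      (hG.sS q hq).2.2 hl'
  have hpol := tst_pol (K := K) (F := S.map f) (G := S.map g) (m := S.length)
    (List.length_map _) (List.length_map _)
  have h0 : tst (S.map f) (S.map g) (cir D (nor B S) S p.1 p.2) ≠ 0 := by
    rw [tst_ne, hdot p hp f l hl, hdot p hp g m hm, hlx, sub_self]
    exact ⟨rfl, sub_ne_zero.2 hmx⟩
  obtain ⟨q, h1, h2⟩ := prune_pol t.2.1 (fun p => cir D (nor B S) S p.1 p.2)
    (S.map fun _ => (0 : K)) (List.length_map _) (fun p _ => cir_length D _ _ _ _) hpol hp h0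
  have h3 : q ∈ t.2.1 := prune_sub _ _ _ h1
  obtain ⟨l', hl'⟩ := (hb.bS q h3).form f
  obtain ⟨m', hm'⟩ := (hb.bS q h3).form g
  rw [tst_ne, hdot q h3 f l' hl', hdot q h3 g m' hm'] at h2
  exact ⟨q.1.toFinset, q.2, ⟨q, h1, rfl⟩,
    fun i hi => List.mem_toFinset.2 ((hG.sS q h3).1.subset (List.mem_toFinset.1 hi)),
    List.mem_toFinset.2 (hG.sS q h3).2.1, fun hi => (hG.sS q h3).2.2 (List.mem_toFinset.1 hi),
    hb.bS q h3, ⟨l', hl', sub_eq_zero.1 h2.1⟩, m', hm', sub_ne_zero.1 h2.2⟩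

end Pool.Agent.PM
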