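import Pool.Agent.PM.N5

set_option autoImplicit false

/-!
# Module N6: pruning preserves the properties of the lists, second part

See the header of N5.
-/

namespace Pool.Agent.PM

open Module Pool.Agent.Helper22
open Pool.Agent.G4 (nor dif word prd)

variable {K : Type} [Field K] [DecidableEq K] [Fintype K] {B S : List ℕ} {u : ℕ → ℕ → K}
  {D : Mx K} {t : Trip}

omit [DecidableEq K] in
private theorem one_le_card : 1 ≤ Fintype.card K - 1 := by
  have h := Fintype.one_lt_card (α := K)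
  omega

omit [DecidableEq K] [Fintype K] in
private theorem ext_fun {R : List ℕ} (v : R.toFinset → K) : ∃ g : ℕ → K, (fun i : R.toFinset => g i) = v := by
  refine ⟨fun i => if h : i ∈ R.toFinset then v ⟨i, h⟩ else 0, ?_⟩
  funext i
  obtain ⟨i, hi⟩ := i
  simp only [hi, dite_true]

/-- the pruned list of bases: if a function of the vectors does not vanish at an item of the list, it
does not vanish at an item of the pruned list -/
private theorem bs_prune (hb : TBas u B S t) {g : List K → K}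
    (hg : Pol (prd S (nor B S)).length (Fintype.card K - 1) g) {T : List ℕ} (hT : T ∈ t.2.2)
    (h0 : g (qv D (nor B S) S T) ≠ 0) :
    ∃ T' ∈ (prT (Fintype.card K - 1) D (nor B S) S t).2.2, T' ∈ t.2.2 ∧
      IsB K (cf u (nor B S).toFinset) T'.toFinset ∧ g (qv D (nor B S) S T') ≠ 0 := by
  obtain ⟨T', h1, h2⟩ := prune_pol t.2.2 (fun T => qv D (nor B S) S T)
    ((prd S (nor B S)).map fun _ => (0 : K)) (List.length_map _) (fun T _ => qv_length D _ _ T)
    hg hT h0
  have h3 : T' ∈ t.2.2 := prune_sub _ _ _ h1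
  exact ⟨T', h1, h3, hb.bB T' h3, h2⟩

theorem prT_cb (hB : B.Nodup) (hS : S.Nodup) (hD : ∀ s ∈ S, ∀ i ∈ nor B S, ent D s i = u s i)
    (hG : TGood u B S t) (hb : TBas u B S t) :
    CB K (cf u (nor B S).toFinset) S.toFinset
      (mkB (prT (Fintype.card K - 1) D (nor B S) S t).2.2) := by
  intro f v hv hlin hdeg k
  have hR : (nor B S).Nodup := hB.filter _
  obtain ⟨_, ⟨T, hT, rfl⟩, _, _, l, hl, hlv⟩ := hG.good.cb f v hv hlin hdeg k
  obtain ⟨g, hgv⟩ := ext_fun v
  have hlen : ((prd S (nor B S)).map fun p => f p.1 * g p.2).length = (prd S (nor B S)).length :=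
    List.length_map _
  have hdot : ∀ T' ∈ t.2.2, ∀ l' : Dual K ((nor B S).toFinset → K),
      (∀ s ∈ T'.toFinset, l' (cf u (nor B S).toFinset s) = f s) →
      dot (qv D (nor B S) S T') ((prd S (nor B S)).map fun p => f p.1 * g p.2) = l' v := by
    intro T' hT' l' hl'
    rw [qv_dot hR hS hD (fun x hx => (hG.sB T' hT').subset hx) (hb.bB T' hT') hl' g, hgv]
  have hpol : Pol (prd S (nor B S)).length (Fintype.card K - 1) fun x =>
      (-1 : K) * (dot x ((prd S (nor B S)).map fun p => f p.1 * g p.2) + -k) ^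
        (Fintype.card K - 1) + 1 :=
    Pol.add (Pol.smul (Pol.pow hlen (-k)) (-1)) (Pol.const 1)
  obtain ⟨T', h1, h2, h3, h4⟩ := bs_prune (D := D) hb hpol hT (by
    have h5 := hdot T hT l hl
    rw [hlv] at h5
    have h6 : Fintype.card K - 1 ≠ 0 := by
      have := one_le_card (K := K)
      omega
    simp only [h5, add_neg_cancel]
    rw [zero_pow h6]
    simp)
  refine ⟨T'.toFinset, ⟨T', h1, rfl⟩, ?_, h3, ?_⟩
  · intro x hx
    exact List.mem_toFinset.2 ((hG.sB T' h2).subset (List.mem_toFinset.1 hx))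
  · obtain ⟨l', hl'⟩ := h3.form f
    refine ⟨l', hl', ?_⟩
    by_contra h5
    apply h4
    have h6 := hdot T' h2 l' hl'
    have h7 : l' v + -k ≠ 0 := by
      intro h8
      exact h5 (by linear_combination h8)
    simp only [h6]
    rw [FiniteField.pow_card_sub_one_eq_one _ h7]
    ring

theorem prT_cx (hB : B.Nodup) (hS : S.Nodup) (hD : ∀ s ∈ S, ∀ i ∈ nor B S, ent D s i = u s i)
    (hG : TGood u B S t) (hb : TBas u B S t) :
    CX K (cf u (nor B S).toFinset) S.toFinset
      (mkB (prT (Fintype.card K - 1) D (nor B S) S t).2.2) := by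
  intro s hs
  have hR : (nor B S).Nodup := hB.filter _
  have hsub : ∀ T' ∈ t.2.2, T'.toFinset ⊆ S.toFinset := fun T' hT' x hx =>
    List.mem_toFinset.2 ((hG.sB T' hT').subset (List.mem_toFinset.1 hx))
  obtain ⟨f, hf⟩ : ∃ f : ℕ → K, f = fun x => if x = s then 1 else 0 := ⟨_, rfl⟩
  have hlen : ((prd S (nor B S)).map fun p => f p.1 * u s p.2).length =
      (prd S (nor B S)).length := List.length_map _
  have hin : ∀ T' ∈ t.2.2, s ∈ T' →
      dot (qv D (nor B S) S T') ((prd S (nor B S)).map fun p => f p.1 * u s p.2) = 1 := by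
    intro T' hT' hsT
    obtain ⟨l', hl'⟩ := (hb.bB T' hT').form f
    rw [qv_dot hR hS hD (fun x hx => (hG.sB T' hT').subset hx) (hb.bB T' hT') hl' (u s)]
    have h1 := hl' s (List.mem_toFinset.2 hsT)
    rw [hf] at h1
    simp only [if_true] at h1
    exact h1
  have hout : ∀ T' ∈ t.2.2, s ∉ T' →
      dot (qv D (nor B S) S T') ((prd S (nor B S)).map fun p => f p.1 * u s p.2) = 0 := by
    intro T' hT' hsT
    have h1 : ∀ x ∈ T'.toFinset, (0 : Dual K ((nor B S).toFinset → K))
        (cf u (nor B S).toFinset x) = f x := by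
      intro x hx
      rw [hf, LinearMap.zero_apply]
      have h2 : x ≠ s := fun e => hsT (e ▸ List.mem_toFinset.1 hx)
      exact (if_neg h2).symm
    rw [qv_dot hR hS hD (fun x hx => (hG.sB T' hT').subset hx) (hb.bB T' hT') h1 (u s)]
    exact LinearMap.zero_apply _
  have hlin : Pol (prd S (nor B S)).length (Fintype.card K - 1) fun x =>
      dot x ((prd S (nor B S)).map fun p => f p.1 * u s p.2) := by
    have h1 : Pol (prd S (nor B S)).length 1 fun x =>
        (dot x ((prd S (nor B S)).map fun p => f p.1 * u s p.2) + 0) ^ 1 := Pol.pow hlen 0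
    have h2 : (fun x : List K => (dot x ((prd S (nor B S)).map fun p => f p.1 * u s p.2) + 0) ^ 1)
        = fun x => dot x ((prd S (nor B S)).map fun p => f p.1 * u s p.2) := by
      funext x
      rw [add_zero, pow_one]
    rw [h2] at h1
    exact Pol.mono h1 one_le_card
  have hlin2 : Pol (prd S (nor B S)).length (Fintype.card K - 1) fun x =>
      (-1 : K) * dot x ((prd S (nor B S)).map fun p => f p.1 * u s p.2) + 1 :=
    Pol.add (Pol.smul hlin (-1)) (Pol.const 1)
  obtain ⟨⟨_, ⟨T, hT, rfl⟩, _, _, hsT⟩, ⟨_, ⟨U, hU, rfl⟩, _, _, hsU⟩⟩ := hG.good.cx s hs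
  rw [List.mem_toFinset] at hsT hsU
  constructor
  · obtain ⟨T', h1, h2, h3, h4⟩ := bs_prune (D := D) hb hlin hT (by
      simp only [hin T hT hsT]
      exact one_ne_zero)
    refine ⟨T'.toFinset, ⟨T', h1, rfl⟩, hsub T' h2, h3, List.mem_toFinset.2 ?_⟩
    by_contra h5
    exact h4 (hout T' h2 h5)
  · obtain ⟨T', h1, h2, h3, h4⟩ := bs_prune (D := D) hb hlin2 hU (by
      simp only [hout U hU hsU]
      simp)
    refine ⟨T'.toFinset, ⟨T', h1, rfl⟩, hsub T' h2, h3, fun h5 => ?_⟩
    apply h4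
    simp only [hin T' h2 (List.mem_toFinset.1 h5)]
    ring

theorem prT_good (hB : B.Nodup) (hS : S.Nodup) (hD : ∀ s ∈ S, ∀ i ∈ nor B S, ent D s i = u s i)
    (hG : TGood u B S t) (hb : TBas u B S t) :
    TGood u B S (prT (Fintype.card K - 1) D (nor B S) S t) ∧
      TBas u B S (prT (Fintype.card K - 1) D (nor B S) S t) := by
  have h1 : ∀ p ∈ (prT (Fintype.card K - 1) D (nor B S) S t).1, p ∈ t.1 := fun p hp =>
    prune_sub t.1 (fun p => fv D (nor B S) p.1 p.2) _ hp
  have h2 : ∀ p ∈ (prT (Fintype.card K - 1) D (nor B S) S t).2.1, p ∈ t.2.1 := fun p hp =>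
    prune_sub t.2.1 (fun p => cir D (nor B S) S p.1 p.2) _ hp
  have h3 : ∀ p ∈ (prT (Fintype.card K - 1) D (nor B S) S t).2.2, p ∈ t.2.2 := fun p hp =>
    prune_sub t.2.2 (fun T => qv D (nor B S) S T) _ hp
  refine ⟨⟨⟨prT_ca hB hD hG hb, prT_cs hB hS hD hG hb, prT_cb hB hS hD hG hb,
    prT_cx hB hS hD hG hb⟩, fun p hp => hG.sL p (h1 p hp), fun p hp => hG.sS p (h2 p hp),
    fun p hp => hG.sB p (h3 p hp)⟩, ⟨fun p hp => hb.bL p (h1 p hp), fun p hp => hb.bS p (h2 p hp),
    fun p hp => hb.bB p (h3 p hp)⟩⟩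

end Pool.Agent.PM
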