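import Pool.Agent.PM.N1
import Pool.Agent.PM.N3
import Pool.Agent.PM.N4

set_option autoImplicit false

/-!
# Module N8: learning the corner, and the columns

`els` contains all elements of the field.
-/

namespace Pool.Agent.PM

open Module Pool.Agent.Helper22
open Pool.Agent.G4 (nor dif word prd IsRk Conn3 ctr)

variable {K : Type} [Field K] [DecidableEq K] {X : Oracle} {E B S : List ℕ} {u : ℕ → ℕ → K}
  {D : Mx K} {t : Trip} {els : List K} {b n y : ℕ}

theorem pickK_spec {P : K → Bool} {x : K} (hx : x ∈ els) (h : P x = true) :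
    P (pickK els P) = true := by
  unfold pickK
  have h1 : x ∈ els.filter P := List.mem_filter.2 ⟨hx, h⟩
  obtain ⟨y, l, hl⟩ := List.exists_cons_of_ne_nil (List.ne_nil_of_mem h1)
  have h2 : y ∈ els.filter P := by
    rw [hl]
    exact List.mem_cons_self
  rw [hl]
  exact (List.mem_filter.1 h2).2

omit [Field K] [DecidableEq K] in
private theorem beq_not (b : Bool) (c : Prop) [Decidable c] :
    (b == !decide c) = true ↔ (b = true ↔ ¬ c) := by
  cases b <;> by_cases hc : c <;> simp [hc]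

omit [DecidableEq K] in
private theorem nor_nodup (h : Rp X E B u) : (nor B S).Nodup := by
  unfold nor
  exact h.ndB.filter _

private theorem crn_test (h : Rp X E B u) (hS : S.Sublist E)
    (hD : ∀ s ∈ S, ∀ i ∈ nor B S, ent D s i = u s i) (hDb : ∀ s ∈ S, ent D s b = u s b)
    (hDy : ∀ i ∈ nor B S, ent D y i = u y i)
    (hy : y ∈ E) (hyB : y ∉ B) (hyS : y ∉ S) (hbB : b ∈ B) (hbS : b ∉ S) {T : List ℕ}
    (hTS : T.Sublist S) (hT : IsB K (cf u (nor B S).toFinset) T.toFinset)
    {l : Dual K ((nor B S).toFinset → K)}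
    (hl : ∀ s ∈ T.toFinset, l (cf u (nor B S).toFinset s) = u s b) (k : K) :
    (X (word E (dif (dif B S) [b] ++ y :: T)) ==
      !decide (dot (qv D (nor B S) S T) ((prd S (nor B S)).map fun p => ent D p.1 b * ent D y p.2) = k))
      = true ↔ (l (cf u (nor B S).toFinset y) ≠ u y b ↔ l (cf u (nor B S).toFinset y) ≠ k) := by
  have h1 : dot (qv D (nor B S) S T)
      ((prd S (nor B S)).map fun p => ent D p.1 b * ent D y p.2) =
      l (cf u (nor B S).toFinset y) := by
    rw [qv_dot (nor_nodup h) (hS.nodup h.ndE) hD (fun t ht => hTS.subset ht) hT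
      (f := fun s => ent D s b) (l := l) (fun s hs => by
        rw [hl s hs]
        exact (hDb s (hTS.subset (List.mem_toFinset.1 hs))).symm) (fun i => ent D y i)]
    congr 1
    funext i
    exact hDy i (List.mem_toFinset.1 i.2)
  rw [beq_not, h1, h.askC hS hTS hy hyB hyS hbB hbS hT hl]

theorem crn_eq (h : Rp X E B u) (hels : ∀ x : K, x ∈ els) (hS : S.Sublist E)
    (hD : ∀ s ∈ S, ∀ i ∈ nor B S, ent D s i = u s i) (hDb : ∀ s ∈ S, ent D s b = u s b)
    (hDy : ∀ i ∈ nor B S, ent D y i = u y i) (hG : TGood u B S t) (hb : TBas u B S t)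
    (hy : y ∈ E) (hyB : y ∉ B) (hyS : y ∉ S) (hbB : b ∈ B) (hbS : b ∉ S)
    (hy0 : cf u (nor B S).toFinset y ≠ 0)
    (hlin : ¬ Lin (cf u (nor B S).toFinset) S.toFinset fun s => u s b)
    (hnd : ¬ Deg (cf u (nor B S).toFinset) S.toFinset (fun s => u s b)
      (cf u (nor B S).toFinset y)) :
    crn els X E B S D t.2.2 y b = u y b := by
  have hform : ∀ T ∈ t.2.2, ∃ l : Dual K ((nor B S).toFinset → K),
      ∀ s ∈ T.toFinset, l (cf u (nor B S).toFinset s) = u s b := fun T hT =>
    (hb.bB T hT).form fun s => u s b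
  have hP := pickK_spec (els := els) (P := fun k => t.2.2.all fun T =>
    X (word E (dif (dif B S) [b] ++ y :: T)) == !decide (dot (qv D (nor B S) S T)
      ((prd S (nor B S)).map fun p => ent D p.1 b * ent D y p.2) = k)) (hels (u y b)) (by
      rw [List.all_eq_true]
      intro T hT
      obtain ⟨l, hl⟩ := hform T hT
      exact (crn_test h hS hD hDb hDy hy hyB hyS hbB hbS (hG.sB T hT) (hb.bB T hT) hl _).2
        Iff.rfl)
  rw [List.all_eq_true] at hP
  obtain ⟨T, ⟨q, hq, rfl⟩, -, hTB, l, hl, hly⟩ :=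
    hG.good.cb (fun s => u s b) (cf u (nor B S).toFinset y) hy0 hlin hnd (u y b)
  have h1 := (crn_test h hS hD hDb hDy hy hyB hyS hbB hbS (hG.sB q hq) hTB hl _).1 (hP q hq)
  by_contra hne
  exact h1.2 (fun h2 => hne (h2.symm.trans hly)) hly

omit [DecidableEq K] in
private theorem indep_exists {R : Finset ℕ} (hR : 2 ≤ R.card) {v : R → K} (hv : v ≠ 0) :
    ∃ v' : R → K, ∀ a c : K, a • v' + c • v = 0 → a = 0 ∧ c = 0 := by
  obtain ⟨i, hi⟩ := Function.ne_iff.1 hv
  obtain ⟨j, hj⟩ := Fintype.exists_ne_of_one_lt_card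
    (by rw [Fintype.card_coe]; omega : 1 < Fintype.card R) i
  refine ⟨Pi.single j 1, fun a c h => ?_⟩
  have h1 := congrFun h i
  rw [Pi.add_apply, Pi.smul_apply, Pi.smul_apply, Pi.single_eq_of_ne hj.symm, smul_zero, zero_add,
    smul_eq_mul, Pi.zero_apply] at h1
  have hc : c = 0 := (mul_eq_zero.1 h1).resolve_right hi
  have h2 := congrFun h j
  rw [Pi.add_apply, Pi.smul_apply, Pi.smul_apply, Pi.single_eq_same, hc, zero_smul, add_zero,
    smul_eq_mul, mul_one, Pi.zero_apply] at h2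
  exact ⟨h2, hc⟩

omit [DecidableEq K] in
private theorem prop_of_test {R S : Finset ℕ} {w : ℕ → (R → K)} {L : Set (Finset ℕ × ℕ)}
    (hR : 2 ≤ R.card) (hCA : CA K w S L) (f g : R → K)
    (ht : ∀ T z, (T, z) ∈ L → ∀ l : Dual K (R → K),
      (∀ s ∈ T, l (w s) = if s = z then 1 else 0) → (l g ≠ 0 ↔ l f ≠ 0)) :
    ∃ m : K, m ≠ 0 ∧ f = m • g := by
  have key : ∀ v : R → K, v ≠ 0 → ∃ T z, (T, z) ∈ L ∧ ∃ l : Dual K (R → K),
      (∀ s ∈ T, l (w s) = if s = z then 1 else 0) ∧ l v ≠ 0 := by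
    intro v hv
    obtain ⟨v', hv'⟩ := indep_exists hR hv
    obtain ⟨T, z, h1, -, -, -, l, h2, -, h4⟩ := hCA v' v hv'
    exact ⟨T, z, h1, l, h2, h4⟩
  by_cases hg : g = 0
  · have hf : f = 0 := by
      by_contra hf
      obtain ⟨T, z, h1, l, h2, h3⟩ := key f hf
      have h4 := (ht T z h1 l h2).2 h3
      rw [hg, map_zero] at h4
      exact h4 rfl
    exact ⟨1, one_ne_zero, by rw [hf, hg, smul_zero]⟩
  · have hf : f ≠ 0 := by
      intro hf
      obtain ⟨T, z, h1, l, h2, h3⟩ := key g hg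
      have h4 := (ht T z h1 l h2).1 h3
      rw [hf, map_zero] at h4
      exact h4 rfl
    have hdep : ¬ ∀ a b : K, a • f + b • g = 0 → a = 0 ∧ b = 0 := by
      intro h
      obtain ⟨T, z, h1, -, -, -, l, h2, h3, h4⟩ := hCA f g h
      exact ((ht T z h1 l h2).1 h4) h3
    push Not at hdep
    obtain ⟨a, b, hab, h0⟩ := hdep
    have ha : a ≠ 0 := by
      intro ha
      rw [ha, zero_smul, zero_add] at hab
      exact h0 ha ((smul_eq_zero.1 hab).resolve_right hg)
    have hb : b ≠ 0 := by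
      intro hb
      rw [hb, zero_smul, add_zero] at hab
      exact ha ((smul_eq_zero.1 hab).resolve_right hf)
    refine ⟨-(a⁻¹ * b), neg_ne_zero.2 (mul_ne_zero (inv_ne_zero ha) hb), ?_⟩
    have h5 : a • f = -(b • g) := eq_neg_of_add_eq_zero_left hab
    calc f = a⁻¹ • (a • f) := (inv_smul_smul₀ ha f).symm
      _ = -(a⁻¹ * b) • g := by rw [h5, smul_neg, smul_smul, neg_smul]

theorem lrC_spec (h : Rp X E B u) (hels : ∀ x : K, x ∈ els) (hS : S.Sublist E)
    (hD : ∀ s ∈ S, ∀ i ∈ nor B S, ent D s i = u s i) (hb : b ∈ nor B S)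
    (hDn : ∀ i ∈ nor B S, i ≠ b → ent D n i = u n i) (hG : TGood u B S t) (hb' : TBas u B S t)
    (hn : n ∈ E) (hnB : n ∉ B) (hnS : n ∉ S) (hR2 : 2 ≤ (nor B S).length) :
    ∃ m : K, m ≠ 0 ∧ lrC els X E B S D t.1 n b = m * u n b ∧
      ∀ i ∈ nor B S, i ≠ b → m * u n i = u n i := by
  have hnd := nor_nodup (S := S) h
  have htest : ∀ p ∈ t.1, ∀ l : Dual K ((nor B S).toFinset → K),
      (∀ s ∈ p.1.toFinset, l (cf u (nor B S).toFinset s) = if s = p.2 then 1 else 0) → ∀ x : K,
      ((askL X E B S n p == !decide (dot (fv D (nor B S) p.1 p.2)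
        ((nor B S).map fun i => if i = b then x else ent D n i) = 0)) = true ↔
        (l (cf u (nor B S).toFinset n) ≠ 0 ↔
          l (fun i => if (i : ℕ) = b then x else ent D n i) ≠ 0)) := by
    intro p hp l hl x
    obtain ⟨h1, h2⟩ := hG.sL p hp
    have h3 := hb'.bL p hp
    rw [beq_not, h.askL hS h1 h2 hn hnB hnS h3 hl,
      fv_dot hnd (fun s hs i hi => hD s (h1.subset hs) i hi) h3 hl
        (fun i => if i = b then x else ent D n i)]
  have hP := pickK_spec (els := els) (P := fun x => t.1.all fun p => askL X E B S n p ==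
    !decide (dot (fv D (nor B S) p.1 p.2)
      ((nor B S).map fun i => if i = b then x else ent D n i) = 0)) (hels (u n b)) (by
      rw [List.all_eq_true]
      intro p hp
      obtain ⟨l, hl⟩ := (hb'.bL p hp).form fun s => if s = p.2 then 1 else 0
      refine (htest p hp l hl _).2 ?_
      have e : (fun i : (nor B S).toFinset => if (i : ℕ) = b then u n b else ent D n i) =
          cf u (nor B S).toFinset n := by
        funext i
        by_cases hi : (i : ℕ) = b
        · rw [if_pos hi]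
          show u n b = u n i
          rw [hi]
        · rw [if_neg hi]
          exact hDn i (List.mem_toFinset.1 i.2) hi
      rw [e])
  rw [List.all_eq_true] at hP
  have hx : lrC els X E B S D t.1 n b = pickK els fun x => t.1.all fun p =>
    askL X E B S n p == !decide (dot (fv D (nor B S) p.1 p.2)
      ((nor B S).map fun i => if i = b then x else ent D n i) = 0) := rfl
  rw [← hx] at hP
  obtain ⟨x, hx'⟩ : ∃ x, x = lrC els X E B S D t.1 n b := ⟨_, rfl⟩
  rw [← hx'] at hP ⊢
  obtain ⟨m, hm, hfm⟩ := prop_of_test (R := (nor B S).toFinset) (S := S.toFinset)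
    (w := cf u (nor B S).toFinset) (L := mkL t.1)
    (by rw [List.toFinset_card_of_nodup hnd]; exact hR2) hG.good.ca
    (fun i => if (i : ℕ) = b then x else ent D n i) (cf u (nor B S).toFinset n) (by
      rintro T z ⟨p, hp, hpe⟩ l hl
      obtain ⟨rfl, rfl⟩ := Prod.mk.injEq _ _ _ _ ▸ hpe
      exact (htest p hp l hl x).1 (hP p hp))
  refine ⟨m, hm, ?_, fun i hi hib => ?_⟩
  · have h1 := congrFun hfm ⟨b, List.mem_toFinset.2 hb⟩
    rw [Pi.smul_apply, smul_eq_mul] at h1
    simp only [if_true] at h1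
    exact h1
  · have h1 := congrFun hfm ⟨i, List.mem_toFinset.2 hi⟩
    rw [Pi.smul_apply, smul_eq_mul] at h1
    simp only [if_neg hib] at h1
    rw [hDn i hi hib] at h1
    exact h1.symm

end Pool.Agent.PM
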