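import Pool.Agent.PM.Bas

set_option autoImplicit false

/-!
# Module P0: projective planes: definitions and counting

`V` has dimension three, every nonzero vector is a multiple of exactly one of the vectors `w s`, `s ∈ S`;
`q = Fintype.card K`.

* `Plane.isB`: three elements whose vectors are linearly independent form a basis
(`basisOfLinearIndependentOfCardEqFinrank` or: a linear independent family of three vectors spans; the
dual of `V` has dimension three; `Basis.constr`).
* `cnt_form`: number of linear forms with `l v = r` is `q ^ 2` for `v ≠ 0`; with `l v₀ = 0` and `l v = r`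
it is `q` for independent `v₀, v`. (Extend to a basis of `V`; `Dual K V ≃ (Fin 3 → K)`; or: fibres of a
surjective linear map onto `K` (`K × K`) all have the same number of elements, `Module.card_fintype`,
`card (Dual K V) = q ^ 3`.)
* `Plane.line`: a nonzero linear form `l` vanishes at exactly `q + 1` elements of `S` (the kernel has
`q ^ 2` vectors, so `q ^ 2 - 1` nonzero vectors, each is a multiple of exactly one `w s` with `l (w s) = 0`, and
each `w s` has `q - 1` nonzero multiples), `Plane.card`: `S.card = q ^ 2 + q + 1` (`q ^ 3 - 1` nonzero vectors).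
* `Plane.form2`: for `a ≠ b` in `S` there is a nonzero linear form vanishing at `w a`, `w b` (unique up to
scaling); two different elements of `S` are linearly independent.
-/

namespace Pool.Agent.PM

open Module

/-- the vectors `w s`, `s ∈ S` are the points of a projective plane -/
structure Plane (K : Type) {V : Type} [Field K] [AddCommGroup V] [Module K V] (w : ℕ → V)
    (S : Finset ℕ) : Prop where
  dim : Module.finrank K V = 3
  sim : Sim K w S
  full : ∀ v : V, v ≠ 0 → ∃ s ∈ S, ∃ c : K, v = c • w s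

variable {K V : Type} [Field K] [AddCommGroup V] [Module K V] {w : ℕ → V} {T S : Finset ℕ}
  {x y z c : ℕ}

private theorem p0_fin (h3 : Module.finrank K V = 3) : Module.Finite K V :=
  Module.finite_of_finrank_pos (by rw [h3]; norm_num)

theorem Plane.isB (h : Plane K w S) {a b c : ℕ}
    (hi : ∀ α β γ : K, α • w a + β • w b + γ • w c = 0 → α = 0 ∧ β = 0 ∧ γ = 0) :
    IsB K w {a, b, c} := by
  have hab : a ≠ b := by
    rintro rfl
    have h1 := (hi 1 (-1) 0 (by simp)).1
    exact one_ne_zero h1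
  have hac : a ≠ c := by
    rintro rfl
    have h1 := (hi 1 0 (-1) (by simp)).1
    exact one_ne_zero h1
  have hbc : b ≠ c := by
    rintro rfl
    have h1 := (hi 0 1 (-1) (by simp)).2.1
    exact one_ne_zero h1
  have hfin := p0_fin h.dim
  have hli : LinearIndependent K ![w a, w b, w c] := by
    rw [Fintype.linearIndependent_iff]
    intro g hg
    rw [Fin.sum_univ_three] at hg
    have h1 := hi (g 0) (g 1) (g 2) (by simpa using hg)
    intro i
    fin_cases i
    · exact h1.1
    · exact h1.2.1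
    · exact h1.2.2
  have hcard : Fintype.card (Fin 3) = Module.finrank K V := by
    rw [h.dim, Fintype.card_fin]
  let B := basisOfLinearIndependentOfCardEqFinrank hli hcard
  have hB : ⇑B = ![w a, w b, w c] := coe_basisOfLinearIndependentOfCardEqFinrank hli hcard
  have hB0 : B 0 = w a := by rw [hB]; rfl
  have hB1 : B 1 = w b := by rw [hB]; rfl
  have hB2 : B 2 = w c := by rw [hB]; rfl
  intro f
  refine ⟨B.constr K ![f a, f b, f c], ?_, ?_⟩
  · intro s hs
    rw [Finset.mem_insert, Finset.mem_insert, Finset.mem_singleton] at hs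
    rcases hs with rfl | rfl | rfl
    · rw [← hB0, B.constr_basis]; rfl
    · rw [← hB1, B.constr_basis]; rfl
    · rw [← hB2, B.constr_basis]; rfl
  · intro l hl
    refine B.ext (fun i => ?_)
    rw [B.constr_basis]
    fin_cases i
    · change l (B 0) = f a
      rw [hB0]; exact hl a (by simp)
    · change l (B 1) = f b
      rw [hB1]; exact hl b (by simp)
    · change l (B 2) = f c
      rw [hB2]; exact hl c (by simp)

theorem Plane.indep (h : Plane K w S) {a b : ℕ} (ha : a ∈ S) (hb : b ∈ S) (hab : a ≠ b)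
    (α β : K) (h0 : α • w a + β • w b = 0) : α = 0 ∧ β = 0 := by
  have h1 : α = 0 := by
    by_contra hα
    refine (h.sim a ha).2 b hb hab.symm (-(α⁻¹ * β)) ?_
    have h2 : α • w a = -(β • w b) := eq_neg_of_add_eq_zero_left h0
    have h3 : w a = α⁻¹ • (α • w a) := by rw [smul_smul, inv_mul_cancel₀ hα, one_smul]
    rw [h3, h2, smul_neg, smul_smul, neg_smul]
  refine ⟨h1, ?_⟩
  rw [h1, zero_smul, zero_add] at h0
  exact (smul_eq_zero.1 h0).resolve_right (h.sim b hb).1

/-- a basis contained in a set that is not contained in a line -/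
theorem Plane.basis_sub (h : Plane K w S) {X : Finset ℕ} (hX : X ⊆ S)
    (hl : ∀ l : Dual K V, (∀ s ∈ X, l (w s) = 0) → l = 0) : ∃ T ⊆ X, IsB K w T := by
  classical
  have hfin := p0_fin h.dim
  have hspan : Submodule.span K (w '' (X : Set ℕ)) = ⊤ := by
    by_contra hne
    obtain ⟨f, hf, hf'⟩ := Submodule.exists_dual_map_eq_bot_of_lt_top (lt_top_iff_ne_top.2 hne)
      inferInstance
    refine hf (hl f (fun s hs => ?_))
    have h1 : f (w s) ∈ (Submodule.span K (w '' (X : Set ℕ))).map f :=
      Submodule.mem_map_of_mem (Submodule.subset_span ⟨s, hs, rfl⟩)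
    rw [hf'] at h1
    exact (Submodule.mem_bot K).1 h1
  obtain ⟨b, hb, hbs, hbl⟩ := exists_linearIndependent K (w '' (X : Set ℕ))
  rw [hspan] at hbs
  have hinj : ∀ s ∈ X, ∀ s' ∈ X, w s = w s' → s = s' := by
    intro s hs s' hs' he
    by_contra hne
    refine (h.sim s (hX hs)).2 s' (hX hs') (Ne.symm hne) 1 ?_
    rw [one_smul, he]
  have hsp : ⊤ ≤ Submodule.span K (Set.range ((↑) : b → V)) := by
    rw [Subtype.range_coe, hbs]
  let B := Basis.mk hbl hsp
  choose! g hg1 hg2 using (fun v (hv : v ∈ b) => hb hv : ∀ v ∈ b, ∃ s, s ∈ (X : Set ℕ) ∧ w s = v)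
  refine ⟨X.filter (fun s => w s ∈ b), Finset.filter_subset _ _, ?_⟩
  intro f
  refine ⟨B.constr K (fun v : b => f (g v)), ?_, ?_⟩
  · intro s hs
    obtain ⟨hs1, hs2⟩ := Finset.mem_filter.1 hs
    have h1 : w s = B ⟨w s, hs2⟩ := by rw [Basis.mk_apply]
    have h2 : B.constr K (fun v : b => f (g v)) (w s) = f (g (w s)) := by
      conv_lhs => rw [h1]
      rw [B.constr_basis]
    have h3 : g (w s) = s := hinj _ (hg1 _ hs2) _ hs1 (hg2 _ hs2)
    exact h2.trans (by rw [h3])
  · intro l hl'
    refine B.ext (fun v => ?_)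
    rw [B.constr_basis, Basis.mk_apply]
    have h1 := hl' (g v) (Finset.mem_filter.2 ⟨hg1 _ v.2, by rw [hg2 _ v.2]; exact v.2⟩)
    rw [hg2 _ v.2] at h1
    exact h1

theorem Plane.form2 (h : Plane K w S) (u v : V) :
    ∃ l : Dual K V, l ≠ 0 ∧ l u = 0 ∧ l v = 0 := by
  have hfin := p0_fin h.dim
  have hlt : Submodule.span K {u, v} < ⊤ := by
    rw [lt_top_iff_ne_top]
    intro he
    have h1 : Module.finrank K (Submodule.span K {u, v}) ≤ 2 := by
      classical
      have h2 := finrank_span_finset_le_card (R := K) ({u, v} : Finset V)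
      rw [Finset.coe_insert, Finset.coe_singleton] at h2
      exact h2.trans Finset.card_le_two
    rw [he, finrank_top, h.dim] at h1
    omega
  obtain ⟨f, hf, hf'⟩ := Submodule.exists_dual_map_eq_bot_of_lt_top hlt inferInstance
  have key : ∀ x ∈ Submodule.span K {u, v}, f x = 0 := by
    intro x hx
    have h1 : f x ∈ (Submodule.span K {u, v}).map f := Submodule.mem_map_of_mem hx
    rw [hf'] at h1
    exact (Submodule.mem_bot K).1 h1
  exact ⟨f, hf, key u (Submodule.subset_span (by simp)), key v (Submodule.subset_span (by simp))⟩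

variable [Fintype K] [DecidableEq K]

private theorem p0_card {W : Type} [AddCommGroup W] [Module K W] [Module.Finite K W] :
    Nat.card W = Fintype.card K ^ Module.finrank K W := by
  have h1 : Finite W := Module.finite_of_finite K
  have h2 : Fintype W := Fintype.ofFinite W
  rw [Nat.card_eq_fintype_card, Module.card_eq_pow_finrank (K := K)]

private theorem p0_fibre {W M : Type} [AddCommGroup W] [Module K W] [Module.Finite K W]
    [AddCommGroup M] [Module K M] (φ : W →ₗ[K] M) (l₀ : W) :
    Nat.card {l : W // φ l = φ l₀} = Fintype.card K ^ Module.finrank K (LinearMap.ker φ) := by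
  rw [← p0_card]
  refine Nat.card_congr
    { toFun := fun l => ⟨l.1 - l₀, by rw [LinearMap.mem_ker, map_sub, l.2, sub_self]⟩
      invFun := fun l => ⟨l.1 + l₀, by rw [map_add, LinearMap.mem_ker.1 l.2, zero_add]⟩
      left_inv := fun l => Subtype.ext (sub_add_cancel _ _)
      right_inv := fun l => Subtype.ext (add_sub_cancel_right _ _) }

private theorem p0_sep (h3 : Module.finrank K V = 3) {v₀ v : V}
    (hi : ∀ a b : K, a • v₀ + b • v = 0 → a = 0 ∧ b = 0) (r : K) :
    ∃ l : Dual K V, l v₀ = 0 ∧ l v = r := by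
  have hfin := p0_fin h3
  have hn : v ∉ Submodule.span K {v₀} := by
    intro hv
    obtain ⟨c, hc⟩ := Submodule.mem_span_singleton.1 hv
    have h1 := (hi c (-1) (by rw [hc, neg_smul, one_smul, add_neg_cancel])).2
    exact one_ne_zero (neg_eq_zero.1 h1)
  obtain ⟨f, hf, hf'⟩ := Submodule.exists_dual_map_eq_bot_of_notMem hn inferInstance
  have h2 : f v₀ = 0 := by
    have h1 : f v₀ ∈ (Submodule.span K {v₀}).map f :=
      Submodule.mem_map_of_mem (Submodule.mem_span_singleton_self v₀)
    rw [hf'] at h1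
    exact (Submodule.mem_bot K).1 h1
  refine ⟨(r * (f v)⁻¹) • f, ?_, ?_⟩
  · rw [LinearMap.smul_apply, h2, smul_zero]
  · rw [LinearMap.smul_apply, smul_eq_mul, mul_assoc, inv_mul_cancel₀ hf, mul_one]

theorem cnt_form (h3 : Module.finrank K V = 3) {v : V} (hv : v ≠ 0) (r : K) :
    Nat.card {l : Dual K V // l v = r} = Fintype.card K ^ 2 := by
  have hfin := p0_fin h3
  have hsurj : ∀ r : K, ∃ l : Dual K V, l v = r := by
    intro r
    have hn : v ∉ (⊥ : Submodule K V) := fun h => hv ((Submodule.mem_bot K).1 h)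
    obtain ⟨f, hf, -⟩ := Submodule.exists_dual_map_eq_bot_of_notMem hn inferInstance
    refine ⟨(r * (f v)⁻¹) • f, ?_⟩
    rw [LinearMap.smul_apply, smul_eq_mul, mul_assoc, inv_mul_cancel₀ hf, mul_one]
  let φ : Dual K V →ₗ[K] K := Dual.eval K V v
  obtain ⟨l₀, hl₀⟩ := hsurj r
  have h1 := p0_fibre φ l₀
  have h2 : φ l₀ = r := hl₀
  rw [h2] at h1
  have h4 : Module.finrank K (LinearMap.range φ) = 1 := by
    have h5 : LinearMap.range φ = ⊤ := LinearMap.range_eq_top.2 (fun r => hsurj r)
    rw [h5, finrank_top, Module.finrank_self]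
  have h6 := LinearMap.finrank_range_add_finrank_ker φ
  rw [Subspace.dual_finrank_eq, h3, h4] at h6
  have h7 : Module.finrank K (LinearMap.ker φ) = 2 := by omega
  rw [h7] at h1
  exact h1

theorem cnt_form2 (h3 : Module.finrank K V = 3) {v₀ v : V}
    (hi : ∀ a b : K, a • v₀ + b • v = 0 → a = 0 ∧ b = 0) (r : K) :
    Nat.card {l : Dual K V // l v₀ = 0 ∧ l v = r} = Fintype.card K := by
  have hfin := p0_fin h3
  let φ : Dual K V →ₗ[K] K × K := (Dual.eval K V v₀).prod (Dual.eval K V v)
  have hφ : ∀ l, φ l = (l v₀, l v) := fun l => rfl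
  obtain ⟨l₀, hl₀, hl₀'⟩ := p0_sep h3 hi r
  have h1 := p0_fibre φ l₀
  have h4 : Module.finrank K (LinearMap.range φ) = 2 := by
    have h5 : LinearMap.range φ = ⊤ := by
      refine LinearMap.range_eq_top.2 ?_
      rintro ⟨x, y⟩
      obtain ⟨l₁, h5, h6⟩ := p0_sep h3 hi y
      obtain ⟨l₂, h7, h8⟩ := p0_sep h3 (v₀ := v) (v := v₀)
        (fun a b hab => (hi b a (by rw [add_comm]; exact hab)).symm) x
      refine ⟨l₁ + l₂, ?_⟩
      rw [hφ, LinearMap.add_apply, LinearMap.add_apply, h5, h6, h7, h8, zero_add, add_zero]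
    rw [h5, finrank_top, Module.finrank_prod, Module.finrank_self]
  have h6 := LinearMap.finrank_range_add_finrank_ker φ
  rw [Subspace.dual_finrank_eq, h3, h4] at h6
  have h7 : Module.finrank K (LinearMap.ker φ) = 1 := by omega
  rw [h7, pow_one] at h1
  rw [← h1]
  refine Nat.card_congr (Equiv.subtypeEquivRight (fun l => ?_))
  rw [hφ, hφ, hl₀, hl₀', Prod.mk.injEq]

/-- the number of points of a subspace -/
private theorem p0_sub (h : Plane K w S) (U : Submodule K V) (T : Finset ℕ)
    (hT : ∀ s, s ∈ T ↔ s ∈ S ∧ w s ∈ U) :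
    T.card * (Fintype.card K - 1) = Fintype.card K ^ Module.finrank K U - 1 := by
  classical
  have hfin := p0_fin h.dim
  have hU : Finite U := Module.finite_of_finite K
  have hU' : Fintype U := Fintype.ofFinite U
  have h1 : Fintype.card {v : U | v ≠ 0} = Fintype.card U - 1 := Set.card_ne_eq 0
  have h2 : Fintype.card U = Fintype.card K ^ Module.finrank K U :=
    Module.card_eq_pow_finrank (K := K)
  rw [← h2, ← h1, ← Fintype.card_units, ← Fintype.card_coe T, ← Fintype.card_prod]
  let F : T × Kˣ → {v : U | v ≠ 0} := fun p =>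
    ⟨⟨(p.2 : K) • w p.1, U.smul_mem _ ((hT p.1).1 p.1.2).2⟩, fun h0 => by
      have h3 : (p.2 : K) • w p.1 = 0 := congrArg Subtype.val h0
      rcases smul_eq_zero.1 h3 with h4 | h4
      · exact p.2.ne_zero h4
      · exact (h.sim p.1 ((hT p.1).1 p.1.2).1).1 h4⟩
  refine Fintype.card_of_bijective (f := F) ⟨?_, ?_⟩
  · rintro ⟨s, c⟩ ⟨s', c'⟩ he
    have h3 : (c : K) • w s = (c' : K) • w s' :=
      congrArg (fun z : {v : U | v ≠ 0} => ((z : U) : V)) he
    have h4 : (s : ℕ) = s' := by
      by_contra hne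
      refine (h.sim s ((hT s).1 s.2).1).2 s' ((hT s').1 s'.2).1 (Ne.symm hne)
        ((c : K)⁻¹ * c') ?_
      rw [mul_smul, ← h3, smul_smul, inv_mul_cancel₀ c.ne_zero, one_smul]
    have h5 : s = s' := Subtype.ext h4
    subst h5
    have h6 : ((c : K) - c') • w s = 0 := by rw [sub_smul, h3, sub_self]
    have h7 : (c : K) - c' = 0 :=
      (smul_eq_zero.1 h6).resolve_right (h.sim s ((hT s).1 s.2).1).1
    have h8 : c = c' := Units.ext (sub_eq_zero.1 h7)
    rw [h8]
  · rintro ⟨⟨v, hvU⟩, hv⟩
    have hv' : v ≠ 0 := fun h0 => hv (Subtype.ext h0)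
    obtain ⟨s, hs, c, hc⟩ := h.full v hv'
    have hc0 : c ≠ 0 := by
      rintro rfl
      rw [zero_smul] at hc
      exact hv' hc
    have hsU : w s ∈ U := by
      have h3 : w s = c⁻¹ • v := by rw [hc, smul_smul, inv_mul_cancel₀ hc0, one_smul]
      rw [h3]
      exact U.smul_mem _ hvU
    refine ⟨(⟨s, (hT s).2 ⟨hs, hsU⟩⟩, Units.mk0 c hc0), ?_⟩
    apply Subtype.ext
    apply Subtype.ext
    exact hc.symm

theorem Plane.card (h : Plane K w S) : S.card = Fintype.card K ^ 2 + Fintype.card K + 1 := by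
  have h1 := p0_sub h ⊤ S (fun s => ⟨fun hs => ⟨hs, Submodule.mem_top⟩, fun hs => hs.1⟩)
  rw [finrank_top, h.dim] at h1
  have hq : 1 < Fintype.card K := Fintype.one_lt_card
  obtain ⟨m, hm⟩ : ∃ m, Fintype.card K = m + 2 := ⟨Fintype.card K - 2, by omega⟩
  rw [hm] at h1 ⊢
  have h2 : (m + 2) ^ 3 - 1 = ((m + 2) ^ 2 + (m + 2) + 1) * (m + 2 - 1) := by
    have h3 : m + 2 - 1 = m + 1 := by omega
    rw [h3]
    have h4 : (m + 2) ^ 3 = ((m + 2) ^ 2 + (m + 2) + 1) * (m + 1) + 1 := by ring
    rw [h4]
    exact Nat.add_sub_cancel _ _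
  rw [h2] at h1
  exact Nat.eq_of_mul_eq_mul_right (by omega) h1

theorem Plane.line (h : Plane K w S) {l : Dual K V} (hl : l ≠ 0) :
    (S.filter fun s => l (w s) = 0).card = Fintype.card K + 1 := by
  have hfin := p0_fin h.dim
  have h1 := p0_sub h (LinearMap.ker l) (S.filter fun s => l (w s) = 0)
    (fun s => by rw [Finset.mem_filter, LinearMap.mem_ker])
  have h6 := LinearMap.finrank_range_add_finrank_ker l
  have h4 : Module.finrank K (LinearMap.range l) = 1 := by
    have h5 : LinearMap.range l = ⊤ := by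
      refine LinearMap.range_eq_top.2 ?_
      obtain ⟨v, hv⟩ : ∃ v, l v ≠ 0 := by
        by_contra hne
        push Not at hne
        exact hl (LinearMap.ext hne)
      intro r
      refine ⟨(r * (l v)⁻¹) • v, ?_⟩
      rw [map_smul, smul_eq_mul, mul_assoc, inv_mul_cancel₀ hv, mul_one]
    rw [h5, finrank_top, Module.finrank_self]
  rw [h.dim, h4] at h6
  have h7 : Module.finrank K (LinearMap.ker l) = 2 := by omega
  rw [h7] at h1
  have hq : 1 < Fintype.card K := Fintype.one_lt_card
  obtain ⟨m, hm⟩ : ∃ m, Fintype.card K = m + 2 := ⟨Fintype.card K - 2, by omega⟩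
  rw [hm] at h1 ⊢
  have h2 : (m + 2) ^ 2 - 1 = ((m + 2) + 1) * (m + 2 - 1) := by
    have h3 : m + 2 - 1 = m + 1 := by omega
    rw [h3]
    have h4 : (m + 2) ^ 2 = ((m + 2) + 1) * (m + 1) + 1 := by ring
    rw [h4]
    exact Nat.add_sub_cancel _ _
  rw [h2] at h1
  exact Nat.eq_of_mul_eq_mul_right (by omega) h1

end Pool.Agent.PM
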