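import Pool.Agent.PM.P0

set_option autoImplicit false

/-!
# Module P1: the projective plane: marked bases, and averaging
-/

namespace Pool.Agent.PM

open Module

variable {K V : Type} [Field K] [AddCommGroup V] [Module K V] {w : ℕ → V} {S : Finset ℕ}
  [Fintype K] [DecidableEq K]

omit [Fintype K] [DecidableEq K] in
private theorem third (h : Plane K w S) {a z : ℕ} (ha : a ∈ S) (hz : z ∈ S) (haz : a ≠ z) :
    ∃ b ∈ S, IsB K w {a, b, z} := by
  obtain ⟨l, hl, hla, hlz⟩ := h.form2 (w a) (w z)
  obtain ⟨v, hv⟩ : ∃ v, l v ≠ 0 := by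
    by_contra hn
    push Not at hn
    exact hl (LinearMap.ext fun v => by rw [hn v, LinearMap.zero_apply])
  have hv0 : v ≠ 0 := by
    rintro rfl
    exact hv (map_zero l)
  obtain ⟨b, hb, c, hc⟩ := h.full v hv0
  have hlb : l (w b) ≠ 0 := by
    intro e
    apply hv
    rw [hc, map_smul, e, smul_zero]
  refine ⟨b, hb, h.isB fun α β γ h0 => ?_⟩
  have h1 := congrArg l h0
  rw [map_add, map_add, map_smul, map_smul, map_smul, map_zero, hla, hlz, smul_zero, smul_zero,
    zero_add, add_zero, smul_eq_mul] at h1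
  have hβ : β = 0 := (mul_eq_zero.1 h1).resolve_right hlb
  rw [hβ, zero_smul, add_zero] at h0
  obtain ⟨h2, h3⟩ := h.indep ha hz haz α γ h0
  exact ⟨h2, hβ, h3⟩

omit [Fintype K] [DecidableEq K] in
private theorem second (h : Plane K w S) (s : ℕ) : ∃ z ∈ S, s ≠ z := by
  obtain ⟨l, hl, hls, _⟩ := h.form2 (w s) (w s)
  obtain ⟨v, hv⟩ : ∃ v, l v ≠ 0 := by
    by_contra hn
    push Not at hn
    exact hl (LinearMap.ext fun v => by rw [hn v, LinearMap.zero_apply])
  have hv0 : v ≠ 0 := by
    rintro rfl
    exact hv (map_zero l)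
  obtain ⟨b, hb, c, hc⟩ := h.full v hv0
  refine ⟨b, hb, ?_⟩
  rintro rfl
  apply hv
  rw [hc, map_smul, hls, smul_zero]

theorem plane_ca (h : Plane K w S) {L : Set (Finset ℕ × ℕ)}
    (hL : ∀ T z, T ⊆ S → z ∈ T → IsB K w T → (T, z) ∈ L) : CA K w S L := by
  intro x y hxy
  have hx : x ≠ 0 := by
    rintro rfl
    exact one_ne_zero (hxy 1 0 (by simp)).1
  have hy : y ≠ 0 := by
    rintro rfl
    exact one_ne_zero (hxy 0 1 (by simp)).2
  obtain ⟨a, ha, c, hc⟩ := h.full x hx
  obtain ⟨z, hz, d, hd⟩ := h.full y hy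
  have hd0 : d ≠ 0 := by
    rintro rfl
    exact hy (by rw [hd, zero_smul])
  have haz : a ≠ z := by
    rintro rfl
    have := (hxy d (-c) (by rw [hc, hd, smul_smul, smul_smul, ← add_smul, neg_mul, mul_comm d c,
      add_neg_cancel, zero_smul])).1
    exact hd0 this
  obtain ⟨b, hb, hB⟩ := third h ha hz haz
  have hT : ({a, b, z} : Finset ℕ) ⊆ S := by
    intro s hs
    simp only [Finset.mem_insert, Finset.mem_singleton] at hs
    rcases hs with rfl | rfl | rfl
    · exact ha
    · exact hb
    · exact hz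
  have hzT : z ∈ ({a, b, z} : Finset ℕ) := by simp
  have haT : a ∈ ({a, b, z} : Finset ℕ) := by simp
  obtain ⟨l, hl⟩ := hB.form fun s => if s = z then (1 : K) else 0
  refine ⟨{a, b, z}, z, hL _ _ hT hzT hB, hT, hzT, hB, l, hl, ?_, ?_⟩
  · rw [hc, map_smul, hl a haT, if_neg haz, smul_zero]
  · rw [hd, map_smul, hl z hzT, if_pos rfl, smul_eq_mul, mul_one]
    exact hd0

theorem plane_cx (h : Plane K w S) {Bs : Set (Finset ℕ)}
    (hB : ∀ T, T ⊆ S → IsB K w T → T ∈ Bs) : CX K w S Bs := by
  intro s hs
  obtain ⟨z, hz, hsz⟩ := second h s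
  constructor
  · obtain ⟨b, hb, hb2⟩ := third h hs hz hsz
    have hT : ({s, b, z} : Finset ℕ) ⊆ S := by
      intro x hx
      simp only [Finset.mem_insert, Finset.mem_singleton] at hx
      rcases hx with rfl | rfl | rfl
      · exact hs
      · exact hb
      · exact hz
    exact ⟨_, hB _ hT hb2, hT, hb2, by simp⟩
  · obtain ⟨T, hT, hTB⟩ := h.basis_sub (X := S.erase s) (Finset.erase_subset _ _) (by
      intro l hl
      by_contra hl0
      obtain ⟨v, hv⟩ : ∃ v, l v ≠ 0 := by
        by_contra hn
        push Not at hn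
        exact hl0 (LinearMap.ext fun v => by rw [hn v, LinearMap.zero_apply])
      have hv0 : v ≠ 0 := by
        rintro rfl
        exact hv (map_zero l)
      obtain ⟨x, hx, c, hc⟩ := h.full v hv0
      have hxs : x = s := by
        by_contra hxs
        apply hv
        rw [hc, map_smul, hl x (Finset.mem_erase.2 ⟨hxs, hx⟩), smul_zero]
      have hls : l (w s) ≠ 0 := by
        intro e
        apply hv
        rw [hc, map_smul, hxs, e, smul_zero]
      have hlz : l (w z) = 0 := hl z (Finset.mem_erase.2 ⟨hsz.symm, hz⟩)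
      have hu0 : w s + w z ≠ 0 := by
        intro e
        have := (h.indep hs hz hsz 1 1 (by rw [one_smul, one_smul, e])).1
        exact one_ne_zero this
      obtain ⟨p, hp, d, hd⟩ := h.full _ hu0
      have hps : p ≠ s := by
        rintro rfl
        have := (h.indep hs hz hsz (1 - d) 1 (by
          rw [sub_smul, one_smul, one_smul, ← hd]; abel)).2
        exact one_ne_zero this
      have h1 := congrArg l hd
      rw [map_add, map_smul, hl p (Finset.mem_erase.2 ⟨hps, hp⟩), hlz, add_zero, smul_zero] at h1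
      exact hls h1)
    refine ⟨T, hB T (hT.trans (Finset.erase_subset _ _)) hTB, hT.trans (Finset.erase_subset _ _),
      hTB, fun hsT => ?_⟩
    exact (Finset.mem_erase.1 (hT hsT)).1 rfl

theorem plane_avg (h : Plane K w S) (f : ℕ → K) :
    ∃ l : Dual K V, Fintype.card K + 2 ≤ (S.filter fun s => f s = l (w s)).card := by
  classical
  by_contra hn
  push Not at hn
  have hfin : Module.Finite K V := Module.finite_of_finrank_pos (by rw [h.dim]; norm_num)
  have hf2 : Finite (Dual K V) := Module.finite_of_finite K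
  have : Fintype (Dual K V) := Fintype.ofFinite _
  have hcard : Fintype.card (Dual K V) = Fintype.card K ^ 3 := by
    rw [Module.card_eq_pow_finrank (K := K), Subspace.dual_finrank_eq, h.dim]
  have h1 : ∑ l : Dual K V, (S.filter fun s => f s = l (w s)).card =
      ∑ s ∈ S, Fintype.card K ^ 2 := by
    simp_rw [Finset.card_filter]
    rw [Finset.sum_comm]
    refine Finset.sum_congr rfl fun s hs => ?_
    rw [← cnt_form h.dim (h.sim s hs).1 (f s), Nat.card_eq_fintype_card, Fintype.card_subtype,
      Finset.card_filter]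
    refine Finset.sum_congr rfl fun l _ => ?_
    by_cases e : f s = l (w s)
    · rw [if_pos e, if_pos e.symm]
    · rw [if_neg e, if_neg fun e' => e e'.symm]
  have h2 : ∑ l : Dual K V, (S.filter fun s => f s = l (w s)).card ≤
      ∑ _l : Dual K V, (Fintype.card K + 1) :=
    Finset.sum_le_sum fun l _ => Nat.lt_succ_iff.1 (hn l)
  rw [h1, Finset.sum_const, Finset.sum_const, Finset.card_univ, hcard, h.card, smul_eq_mul,
    smul_eq_mul] at h2
  have hq : 0 < Fintype.card K := Fintype.card_pos
  have h3 : 0 < Fintype.card K ^ 2 := by positivity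
  nlinarith [h2, h3]

end Pool.Agent.PM
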