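import Pool.Agent.PM.P0

set_option autoImplicit false

/-!
# Module P2: the projective plane: two rows, lines with many zeros

`H`: if `f` is linear on `T + x` (`T` a basis) then so is `g`. `X = {s ∈ S | f s = 0}`, and `g` is zero on `X`.
Let `z, z' ∈ S` with `f z ≠ 0`, `f z' ≠ 0`, `g z * f z' ≠ g z' * f z`; let `l ≠ 0` vanish at `w z, w z'`
(the line `zz'`). Then at most `q` elements of `X` are not on the line.

Proof: a linear form on the plane gives an injection of these elements into `K`.
-/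

namespace Pool.Agent.PM

open Module

variable {K V : Type} [Field K] [AddCommGroup V] [Module K V] {w : ℕ → V} {S : Finset ℕ}
  [Fintype K] [DecidableEq K]

/-- `g` is linear on the circuits on which `f` is linear -/
def Fol (K : Type) {V : Type} [Field K] [AddCommGroup V] [Module K V] (w : ℕ → V) (S : Finset ℕ)
    (f g : ℕ → K) : Prop :=
  ∀ T x, T ⊆ S → x ∈ S → x ∉ T → IsB K w T →
    (∃ l : Dual K V, (∀ s ∈ T, l (w s) = f s) ∧ l (w x) = f x) →
    ∃ l : Dual K V, (∀ s ∈ T, l (w s) = g s) ∧ l (w x) = g x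

omit [Fintype K] [DecidableEq K] in
/-- the auxiliary linear form -/
private theorem po_form (h : Plane K w S) {f : ℕ → K} {z z' : ℕ} (hz : z ∈ S) (hz' : z' ∈ S)
    (hzz : z ≠ z') (hfz' : f z' ≠ 0) {l : Dual K V} (hl : l ≠ 0)
    (hlz : l (w z) = 0) (hlz' : l (w z') = 0) :
    ∃ m : Dual K V, ∀ v : V, l v = 0 → m v = 0 → ∃ c : K, v = c • (f z' • w z - f z • w z') := by
  classical
  obtain ⟨v, hv⟩ : ∃ v, l v ≠ 0 := by
    by_contra hcon
    push Not at hcon
    exact hl (LinearMap.ext hcon)
  have hv0 : v ≠ 0 := fun e => hv (by rw [e, map_zero])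
  obtain ⟨s, hs, c, hc⟩ := h.full v hv0
  have hls : l (w s) ≠ 0 := fun e => hv (by rw [hc, map_smul, e, smul_zero])
  have hzs : z ≠ s := fun e => hls (by rw [← e]; exact hlz)
  have hzs' : z' ≠ s := fun e => hls (by rw [← e]; exact hlz')
  have hB : IsB K w {z, z', s} := by
    apply h.isB
    intro α β γ h0
    have h1 : γ = 0 := by
      have h2 := congrArg l h0
      rw [map_add, map_add, map_smul, map_smul, map_smul, hlz, hlz', map_zero, smul_zero, smul_zero,
        zero_add, zero_add, smul_eq_mul] at h2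
      exact (mul_eq_zero.1 h2).resolve_right hls
    rw [h1, zero_smul, add_zero] at h0
    obtain ⟨h2, h3⟩ := h.indep hz hz' hzz α β h0
    exact ⟨h2, h3, h1⟩
  obtain ⟨m, hm⟩ := hB.form (fun y => if y = s then 0 else f y)
  have hmz : m (w z) = f z := by
    rw [hm z (by simp), if_neg hzs]
  have hmz' : m (w z') = f z' := by
    rw [hm z' (by simp), if_neg hzs']
  refine ⟨m, fun v hlv hmv => ?_⟩
  obtain ⟨a, -, ha⟩ := hB.coord v
  have e1 : v = a z • w z + a z' • w z' + a s • w s := by
    rw [ha, Finset.sum_insert (by simp [hzz, hzs]), Finset.sum_insert (by simp [hzs']),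
      Finset.sum_singleton, add_assoc]
  have e2 : a s = 0 := by
    rw [e1, map_add, map_add, map_smul, map_smul, map_smul, hlz, hlz', smul_zero, smul_zero, zero_add,
      zero_add, smul_eq_mul] at hlv
    exact (mul_eq_zero.1 hlv).resolve_right hls
  rw [e2, zero_smul, add_zero] at e1
  rw [e1, map_add, map_smul, map_smul, hmz, hmz', smul_eq_mul, smul_eq_mul] at hmv
  refine ⟨a z / f z', ?_⟩
  have e3 : a z' = -(a z / f z' * f z) := by
    field_simp
    linear_combination hmv
  rw [e1, e3, smul_sub, smul_smul, smul_smul, div_mul_cancel₀ _ hfz', neg_smul, sub_eq_add_neg]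

theorem plane_off (h : Plane K w S) {f g : ℕ → K} (H : Fol K w S f g)
    (hg : ∀ s ∈ S, f s = 0 → g s = 0) {z z' : ℕ} (hz : z ∈ S) (hz' : z' ∈ S) (hfz : f z ≠ 0)
    (hfz' : f z' ≠ 0) (hne : g z * f z' ≠ g z' * f z) {l : Dual K V} (hl : l ≠ 0)
    (hlz : l (w z) = 0) (hlz' : l (w z') = 0) :
    (S.filter fun s => f s = 0 ∧ l (w s) ≠ 0).card ≤ Fintype.card K := by
  classical
  have hzz : z ≠ z' := by
    rintro rfl
    exact hne rfl
  obtain ⟨m, hm⟩ := po_form h hz hz' hzz hfz' hl hlz hlz'
  rw [← Finset.card_univ]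
  refine Finset.card_le_card_of_injOn (fun s => m (w s) / l (w s))
    (fun s _ => Finset.mem_coe.2 (Finset.mem_univ _)) ?_
  intro x hx x' hx' hxx
  rw [Finset.mem_coe, Finset.mem_filter] at hx hx'
  obtain ⟨hxS, hfx, hlx⟩ := hx
  obtain ⟨hxS', hfx', hlx'⟩ := hx'
  by_contra hne'
  have hxx' : m (w x) / l (w x) = m (w x') / l (w x') := hxx
  obtain ⟨c, hc⟩ := hm ((l (w x))⁻¹ • w x - (l (w x'))⁻¹ • w x')
    (by rw [map_sub, map_smul, map_smul, smul_eq_mul, smul_eq_mul, inv_mul_cancel₀ hlx,
      inv_mul_cancel₀ hlx', sub_self])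
    (by rw [map_sub, map_smul, map_smul, smul_eq_mul, smul_eq_mul, inv_mul_eq_div, inv_mul_eq_div, hxx',
      sub_self])
  have hc0 : c ≠ 0 := by
    intro e
    rw [e, zero_smul, sub_eq_add_neg, ← neg_smul] at hc
    exact inv_ne_zero hlx (h.indep hxS hxS' hne' _ _ hc).1
  have hwx' : w x' = (l (w x') * (l (w x))⁻¹) • w x - (l (w x') * c) • (f z' • w z - f z • w z') := by
    have e1 : (l (w x'))⁻¹ • w x' = (l (w x))⁻¹ • w x - c • (f z' • w z - f z • w z') := by
      rw [← hc]
      abel
    have e2 := congrArg (fun v => l (w x') • v) e1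
    simp only [smul_sub, smul_smul, mul_inv_cancel₀ hlx', one_smul] at e2
    refine e2.trans ?_
    simp only [smul_sub, smul_smul, mul_assoc]
  have hB : IsB K w {z, z', x} := by
    apply h.isB
    intro α β γ h0
    have h1 : γ = 0 := by
      have h2 := congrArg l h0
      rw [map_add, map_add, map_smul, map_smul, map_smul, hlz, hlz', map_zero, smul_zero, smul_zero,
        zero_add, zero_add, smul_eq_mul] at h2
      exact (mul_eq_zero.1 h2).resolve_right hlx
    rw [h1, zero_smul, add_zero] at h0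
    obtain ⟨h2, h3⟩ := h.indep hz hz' hzz α β h0
    exact ⟨h2, h3, h1⟩
  have hT : ({z, z', x} : Finset ℕ) ⊆ S := by
    intro s hs
    simp only [Finset.mem_insert, Finset.mem_singleton] at hs
    rcases hs with rfl | rfl | rfl <;> assumption
  have hx'T : x' ∉ ({z, z', x} : Finset ℕ) := by
    simp only [Finset.mem_insert, Finset.mem_singleton, not_or]
    refine ⟨?_, ?_, fun e => hne' e.symm⟩
    · rintro rfl
      exact hfz hfx'
    · rintro rfl
      exact hfz' hfx'
  obtain ⟨n, hn⟩ := hB.form f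
  have hval : ∀ k : Dual K V, k (w x') = (l (w x') * (l (w x))⁻¹) * k (w x) -
      (l (w x') * c) * (f z' * k (w z) - f z * k (w z')) := by
    intro k
    conv_lhs => rw [hwx']
    simp only [map_sub, map_smul, smul_eq_mul]
  obtain ⟨n', hn', hn''⟩ := H {z, z', x} x' hT hxS' hx'T hB ⟨n, hn, by
    rw [hval, hn x (by simp), hn z (by simp), hn z' (by simp), hfx, hfx']
    ring⟩
  rw [hval, hn' x (by simp), hn' z (by simp), hn' z' (by simp), hg x hxS hfx, hg x' hxS' hfx', mul_zero,
    zero_sub, neg_eq_zero] at hn''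
  rcases mul_eq_zero.1 hn'' with e | e
  · exact mul_ne_zero hlx' hc0 e
  · exact hne (by linear_combination e)

end Pool.Agent.PM
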