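import Pool.Agent.PM.P1
import Pool.Agent.PM.P2

set_option autoImplicit false

/-!
# Module P3: the projective plane: two rows
-/

namespace Pool.Agent.PM

open Module

variable {K V : Type} [Field K] [AddCommGroup V] [Module K V] {w : ℕ → V} {S : Finset ℕ}
  [Fintype K] [DecidableEq K]

private theorem p3_on (h : Plane K w S) {f g : ℕ → K} (H : Fol K w S f g)
    (hg : ∀ s ∈ S, f s = 0 → g s = 0) {z z' : ℕ} (hz : z ∈ S) (hz' : z' ∈ S) (hfz : f z ≠ 0)
    (hfz' : f z' ≠ 0) (hne : g z * f z' ≠ g z' * f z) {l : Dual K V} (hl : l ≠ 0)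
    (hlz : l (w z) = 0) (hlz' : l (w z') = 0) :
    (S.filter fun s => f s = 0).card ≤
      ((S.filter fun s => f s = 0).filter fun s => l (w s) = 0).card + Fintype.card K := by
  have h1 := plane_off h H hg hz hz' hfz hfz' hne hl hlz hlz'
  have h2 := Finset.card_filter_add_card_filter_not (s := S.filter fun s => f s = 0)
    (fun s => l (w s) = 0)
  have h3 : (S.filter fun s => f s = 0).filter (fun s => ¬ l (w s) = 0) =
      S.filter fun s => f s = 0 ∧ l (w s) ≠ 0 := by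
    rw [Finset.filter_filter]
  rw [h3] at h2
  omega

omit [Fintype K] [DecidableEq K] in
private theorem p3_col (h : Plane K w S) {z x z' : ℕ} (hz : z ∈ S) (hx : x ∈ S) (hzx : z ≠ x)
    {lx l : Dual K V} (h1 : lx (w z) = 0) (h2 : lx (w x) = 0) (hl : l ≠ 0) (h3 : l (w z) = 0)
    (h4 : l (w x) = 0) (h5 : l (w z') = 0) : lx (w z') = 0 := by
  by_contra hne
  have hb : IsB K w {z, x, z'} := by
    refine h.isB fun α β γ h0 => ?_
    have h6 := congrArg lx h0
    rw [map_add, map_add, map_smul, map_smul, map_smul, h1, h2, smul_zero, smul_zero, zero_add,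
      zero_add, map_zero, smul_eq_mul] at h6
    have h7 : γ = 0 := (mul_eq_zero.1 h6).resolve_right hne
    rw [h7, zero_smul, add_zero] at h0
    obtain ⟨ha, hb⟩ := h.indep hz hx hzx α β h0
    exact ⟨ha, hb, h7⟩
  apply hl
  refine hb.eq fun s hs => ?_
  rw [LinearMap.zero_apply]
  simp only [Finset.mem_insert, Finset.mem_singleton] at hs
  rcases hs with rfl | rfl | rfl
  · exact h3
  · exact h4
  · exact h5

private theorem p3_claim (h : Plane K w S) {f g : ℕ → K} (H : Fol K w S f g)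
    (hg : ∀ s ∈ S, f s = 0 → g s = 0) {κ : ℕ}
    (hX : (S.filter fun s => f s = 0).card = Fintype.card K + κ)
    {z z₀ : ℕ} (hz : z ∈ S) (hfz : f z ≠ 0) (hz₀ : z₀ ∈ S) (hfz₀ : f z₀ ≠ 0)
    (hne : g z * f z₀ ≠ g z₀ * f z) : κ ≤ Fintype.card K ∧
      ((S.filter fun s => f s ≠ 0).filter fun s => g z * f s ≠ g s * f z).card * κ ≤
        (Fintype.card K + κ) * (Fintype.card K - κ) := by
  classical
  obtain ⟨X, hXd⟩ : ∃ X, X = S.filter fun s => f s = 0 := ⟨_, rfl⟩
  obtain ⟨B, hBd⟩ : ∃ B, B = (S.filter fun s => f s ≠ 0).filter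
    fun s => g z * f s ≠ g s * f z := ⟨_, rfl⟩
  have memX : ∀ s, s ∈ X ↔ s ∈ S ∧ f s = 0 := fun s => by rw [hXd, Finset.mem_filter]
  have memB : ∀ s, s ∈ B ↔ (s ∈ S ∧ f s ≠ 0) ∧ g z * f s ≠ g s * f z := fun s => by
    rw [hBd, Finset.mem_filter, Finset.mem_filter]
  have hon : ∀ z' ∈ B, ∀ l : Dual K V, l ≠ 0 → l (w z) = 0 → l (w z') = 0 →
      κ ≤ (X.filter fun s => l (w s) = 0).card := by
    intro z' hz' l hl h1 h2
    obtain ⟨⟨h3, h4⟩, h5⟩ := (memB z').1 hz'
    have h6 := p3_on h H hg hz h3 hfz h4 h5 hl h1 h2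
    rw [hX, ← hXd] at h6
    omega
  have hzB : z ∉ B := fun hh => ((memB z).1 hh).2 rfl
  -- the number of elements of a line through `z` and `z'`
  have hline : ∀ z' ∈ B, ∀ l : Dual K V, l ≠ 0 → l (w z) = 0 → l (w z') = 0 →
      ∀ C : Finset ℕ, C ⊆ B → (∀ s ∈ C, l (w s) = 0) → C.card + κ ≤ Fintype.card K := by
    intro z' hz' l hl h1 h2 C hC hCl
    have h3 := hon z' hz' l hl h1 h2
    have h4 : Disjoint C (X.filter fun s => l (w s) = 0) := by
      rw [Finset.disjoint_left]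
      intro s hs hs'
      exact ((memB s).1 (hC hs)).1.2 ((memX s).1 (Finset.mem_filter.1 hs').1).2
    have h5 : z ∉ C ∪ X.filter fun s => l (w s) = 0 := by
      rw [Finset.mem_union, not_or]
      refine ⟨fun hh => hzB (hC hh), fun hh => hfz ?_⟩
      exact ((memX z).1 (Finset.mem_filter.1 hh).1).2
    have h6 : insert z (C ∪ X.filter fun s => l (w s) = 0) ⊆
        S.filter fun s => l (w s) = 0 := by
      intro s hs
      rw [Finset.mem_insert, Finset.mem_union] at hs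
      rw [Finset.mem_filter]
      rcases hs with rfl | hs | hs
      · exact ⟨hz, h1⟩
      · exact ⟨((memB s).1 (hC hs)).1.1, hCl s hs⟩
      · exact ⟨((memX s).1 (Finset.mem_filter.1 hs).1).1, (Finset.mem_filter.1 hs).2⟩
    have h7 := Finset.card_le_card h6
    rw [Finset.card_insert_of_notMem h5, Finset.card_union_of_disjoint h4, h.line hl] at h7
    omega
  have hz₀B : z₀ ∈ B := (memB z₀).2 ⟨⟨hz₀, hfz₀⟩, hne⟩
  have hκq : κ ≤ Fintype.card K := by
    obtain ⟨l, hl, h1, h2⟩ := h.form2 (w z) (w z₀)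
    have h3 := hline z₀ hz₀B l hl h1 h2 ∅ (Finset.empty_subset _) (fun s hs => by
      exact absurd hs (Finset.notMem_empty s))
    rw [Finset.card_empty] at h3
    omega
  refine ⟨hκq, ?_⟩
  rw [← hBd, ← hX, ← hXd]
  refine Finset.card_mul_le_card_mul (fun z' x => ∃ l : Dual K V, l ≠ 0 ∧ l (w z) = 0 ∧
    l (w z') = 0 ∧ l (w x) = 0) ?_ ?_
  · intro z' hz'
    obtain ⟨l, hl, h1, h2⟩ := h.form2 (w z) (w z')
    refine (hon z' hz' l hl h1 h2).trans (Finset.card_le_card ?_)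
    intro s hs
    rw [Finset.mem_filter] at hs
    rw [Finset.mem_bipartiteAbove]
    exact ⟨hs.1, l, hl, h1, h2, hs.2⟩
  · intro x hx
    obtain ⟨hxS, hfx⟩ := (memX x).1 hx
    rcases (B.bipartiteBelow (fun z' x => ∃ l : Dual K V, l ≠ 0 ∧ l (w z) = 0 ∧
      l (w z') = 0 ∧ l (w x) = 0) x).eq_empty_or_nonempty with he | ⟨z', hz'⟩
    · rw [he, Finset.card_empty]
      exact Nat.zero_le _
    · rw [Finset.mem_bipartiteBelow] at hz'
      obtain ⟨hz'B, l, hl, h1, h2, h3⟩ := hz'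
      have hzx : z ≠ x := fun hh => hfz (by rw [hh]; exact hfx)
      have h4 := hline z' hz'B l hl h1 h2 (B.bipartiteBelow (fun z' x => ∃ l : Dual K V, l ≠ 0 ∧
        l (w z) = 0 ∧ l (w z') = 0 ∧ l (w x) = 0) x) (Finset.filter_subset _ _) (fun s hs => by
          rw [Finset.mem_bipartiteBelow] at hs
          obtain ⟨-, l', hl', h5, h6, h7⟩ := hs
          exact p3_col h hz hxS hzx h1 h3 hl' h5 h7 h6)
      omega

theorem plane_prop (h : Plane K w S) {f g : ℕ → K} (H : Fol K w S f g)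
    (hX : Fintype.card K + 2 ≤ (S.filter fun s => f s = 0).card)
    (hg : ∀ s ∈ S, f s = 0 → g s = 0) : ∃ c : K, ∀ s ∈ S, g s = c * f s := by
  classical
  by_contra hcon
  obtain ⟨κ, hκ⟩ := Nat.exists_eq_add_of_le
    (show Fintype.card K ≤ (S.filter fun s => f s = 0).card by omega)
  have hκ2 : 2 ≤ κ := by omega
  -- two elements
  have h1 : ∃ z ∈ S, f z ≠ 0 := by
    by_contra h2
    apply hcon
    refine ⟨0, fun s hs => ?_⟩
    have h3 : f s = 0 := by
      by_contra h4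
      exact h2 ⟨s, hs, h4⟩
    rw [hg s hs h3, zero_mul]
  obtain ⟨z₁, hz₁, hf₁⟩ := h1
  have h2 : ∃ z ∈ S, f z ≠ 0 ∧ g z₁ * f z ≠ g z * f z₁ := by
    by_contra h3
    apply hcon
    refine ⟨g z₁ / f z₁, fun s hs => ?_⟩
    by_cases h4 : f s = 0
    · rw [hg s hs h4, h4, mul_zero]
    · have h5 : g z₁ * f s = g s * f z₁ := by
        by_contra h6
        exact h3 ⟨s, hs, h4, h6⟩
      rw [div_mul_eq_mul_div, h5, mul_div_cancel_right₀ _ hf₁]
  obtain ⟨z₂, hz₂, hf₂, h12⟩ := h2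
  obtain ⟨hq, hc1⟩ := p3_claim h H hg hκ hz₁ hf₁ hz₂ hf₂ h12
  obtain ⟨-, hc2⟩ := p3_claim h H hg hκ hz₂ hf₂ hz₁ hf₁ h12.symm
  -- the two sets cover
  have h3 : (S.filter fun s => f s ≠ 0) ⊆
      ((S.filter fun s => f s ≠ 0).filter fun s => g z₁ * f s ≠ g s * f z₁) ∪
      ((S.filter fun s => f s ≠ 0).filter fun s => g z₂ * f s ≠ g s * f z₂) := by
    intro s hs
    by_contra h4
    rw [Finset.mem_union, not_or] at h4
    have h5 : g z₁ * f s = g s * f z₁ := by
      by_contra h6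
      exact h4.1 (Finset.mem_filter.2 ⟨hs, h6⟩)
    have h6 : g z₂ * f s = g s * f z₂ := by
      by_contra h7
      exact h4.2 (Finset.mem_filter.2 ⟨hs, h7⟩)
    have hfs : f s ≠ 0 := (Finset.mem_filter.1 hs).2
    apply h12
    have h7 : (g z₁ * f z₂) * f s = (g z₂ * f z₁) * f s := by
      calc (g z₁ * f z₂) * f s = (g z₁ * f s) * f z₂ := by ring
        _ = (g s * f z₁) * f z₂ := by rw [h5]
        _ = (g s * f z₂) * f z₁ := by ring
        _ = (g z₂ * f s) * f z₁ := by rw [h6]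
        _ = (g z₂ * f z₁) * f s := by ring
    exact mul_right_cancel₀ hfs h7
  have h4 := (Finset.card_le_card h3).trans (Finset.card_union_le _ _)
  have h5 := Finset.card_filter_add_card_filter_not (s := S) (fun s => f s = 0)
  rw [h.card, hκ] at h5
  obtain ⟨n₁, hn₁⟩ : ∃ n, n = ((S.filter fun s => f s ≠ 0).filter
    fun s => g z₁ * f s ≠ g s * f z₁).card := ⟨_, rfl⟩
  obtain ⟨n₂, hn₂⟩ : ∃ n, n = ((S.filter fun s => f s ≠ 0).filter
    fun s => g z₂ * f s ≠ g s * f z₂).card := ⟨_, rfl⟩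
  obtain ⟨n, hn⟩ : ∃ n, n = (S.filter fun s => f s ≠ 0).card := ⟨_, rfl⟩
  rw [← hn₁] at hc1 h4
  rw [← hn₂] at hc2 h4
  rw [← hn] at h4
  have h5' : Fintype.card K + κ + n = Fintype.card K ^ 2 + Fintype.card K + 1 := by
    rw [hn]
    exact h5
  obtain ⟨d, hd⟩ := Nat.exists_eq_add_of_le hq
  have hd' : Fintype.card K - κ = d := by omega
  rw [hd'] at hc1 hc2
  rw [hd] at hc1 hc2 h5'
  have h6 : (κ + d) ^ 2 + 1 ≤ n₁ + n₂ + κ := by
    have h7 : κ + n = (κ + d) ^ 2 + 1 := by omega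
    omega
  have h7 : κ * ((κ + d) ^ 2 + 1) ≤ κ * (n₁ + n₂ + κ) := Nat.mul_le_mul_left _ h6
  have h8 : κ * (n₁ + n₂ + κ) ≤ 2 * ((κ + d + κ) * d) + κ * κ := by
    have h9 : κ * (n₁ + n₂ + κ) = n₁ * κ + n₂ * κ + κ * κ := by ring
    omega
  obtain ⟨e, he⟩ := Nat.exists_eq_add_of_le hκ2
  rw [he] at h7 h8
  have h9 := h7.trans h8
  nlinarith [Nat.zero_le (e * d), Nat.zero_le (e * e), Nat.zero_le (e * d * d),
    Nat.zero_le (e * e * d), Nat.zero_le (e * e * e)]

theorem plane_cs (h : Plane K w S) {Ls : Set (Finset ℕ × ℕ)}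
    (hL : ∀ T x, T ⊆ S → x ∈ S → x ∉ T → IsB K w T → (T, x) ∈ Ls) : CS K w S Ls := by
  classical
  intro t t' hind
  by_contra hno
  have HF : Fol K w S t t' := by
    intro T x hT hx hxT hB hl
    obtain ⟨l', hl'⟩ := hB.form t'
    refine ⟨l', hl', ?_⟩
    by_contra hne
    exact hno ⟨T, x, hL T x hT hx hxT hB, hT, hx, hxT, hB, hl, l', hl', hne⟩
  obtain ⟨l₀, hl₀⟩ := plane_avg h t
  obtain ⟨T, hTX, hTB⟩ := h.basis_sub (X := S.filter fun s => t s = l₀ (w s))
    (Finset.filter_subset _ _) (fun l hl => by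
      by_contra hne
      have h1 : (S.filter fun s => t s = l₀ (w s)) ⊆ S.filter fun s => l (w s) = 0 := by
        intro s hs
        exact Finset.mem_filter.2 ⟨(Finset.mem_filter.1 hs).1, hl s hs⟩
      have h2 := Finset.card_le_card h1
      rw [h.line hne] at h2
      omega)
  obtain ⟨l₁, hl₁⟩ := hTB.form t'
  have hTS : T ⊆ S := hTX.trans (Finset.filter_subset _ _)
  have hTt : ∀ s ∈ T, t s = l₀ (w s) := fun s hs => (Finset.mem_filter.1 (hTX hs)).2
  have HG : Fol K w S (fun s => t s - l₀ (w s)) (fun s => t' s - l₁ (w s)) := by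
    rintro T' x hT' hx hxT' hB ⟨l, h1, h2⟩
    obtain ⟨l', h3, h4⟩ := HF T' x hT' hx hxT' hB ⟨l + l₀, fun s hs => by
      rw [LinearMap.add_apply, h1 s hs]
      ring, by
      rw [LinearMap.add_apply, h2]
      ring⟩
    refine ⟨l' - l₁, fun s hs => ?_, ?_⟩
    · rw [LinearMap.sub_apply, h3 s hs]
    · rw [LinearMap.sub_apply, h4]
  have hg : ∀ s ∈ S, (fun s => t s - l₀ (w s)) s = 0 → (fun s => t' s - l₁ (w s)) s = 0 := by
    intro s hs h1
    have h1' : t s - l₀ (w s) = 0 := h1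
    show t' s - l₁ (w s) = 0
    by_cases hsT : s ∈ T
    · rw [hl₁ s hsT, sub_self]
    · obtain ⟨l, h2, h3⟩ := HG T s hTS hs hsT hTB ⟨0, fun a ha => by
        show (0 : K) = t a - l₀ (w a)
        rw [hTt a ha, sub_self], by
        show (0 : K) = t s - l₀ (w s)
        exact h1'.symm⟩
      have h4 : l = 0 := by
        refine hTB.eq fun a ha => ?_
        rw [h2 a ha, LinearMap.zero_apply]
        show t' a - l₁ (w a) = 0
        rw [hl₁ a ha, sub_self]
      have h5 : l (w s) = t' s - l₁ (w s) := h3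
      rw [h4, LinearMap.zero_apply] at h5
      exact h5.symm
  have hX : Fintype.card K + 2 ≤ (S.filter fun s => (fun s => t s - l₀ (w s)) s = 0).card := by
    refine hl₀.trans (Finset.card_le_card ?_)
    intro s hs
    rw [Finset.mem_filter] at hs ⊢
    refine ⟨hs.1, ?_⟩
    show t s - l₀ (w s) = 0
    rw [hs.2, sub_self]
  obtain ⟨c, hc⟩ := plane_prop h HG hX hg
  have h6 := hind (-c) 1 ⟨l₁ - c • l₀, fun s hs => by
    have h7 : t' s - l₁ (w s) = c * (t s - l₀ (w s)) := hc s hs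
    show -c * t s + 1 * t' s = _
    rw [LinearMap.sub_apply, LinearMap.smul_apply, smul_eq_mul]
    linear_combination h7⟩
  exact one_ne_zero h6.2

end Pool.Agent.PM
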