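import Pool.Agent.PM.L5

set_option autoImplicit false

/-!
# Module Q0: a pair (extension and coextension), special case: definitions and basic lemmas

`w' = cx w t b` on `S' = insert b (insert y S)`: `w' s = (w s, t s)`, `w' b = (0, 1)`. In the special case
`t` is zero on `S` except at `a ∈ S`; `t a ≠ 0`, `t y ≠ 0`, `w y` is not a multiple of `w a`.
Abbreviations: for a basis `T ⊆ S` and `x ∉ T` and a function `g`: `δ g = g x - m (w x)` where `m` is the form
with the values `g` on `T` (`δ` is linear; `g` is linear on `T + x` iff `δ g = 0`; if `g` is zero on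
`T + x` then `δ g = 0`).

* `pu_nd`: `(t, v)` is nondegenerate if `v` is not a multiple of `w a` (if `t = l` off `s`, `v = c w s`: for
`s ≠ a`, `1_a` and `1_s` would be dependent modulo the linear forms (`ind_one`), so `s = a`), and `t` is not
linear on `S` (`Cos`).
* `pu_lsx`: for a circuit `(T, x) ∈ Ls` and functions: if `δ t ≠ 0` then `insert x T` is a basis for `w'`, it is in
`coB b (exS y Ls Bs) (exB y L Bs)` and in `coB b Ls Bs`, and if `δ u = n δ t` then the form `F` on `V × K`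
with the values `u` on `insert x T` has `F (0, 1) = n`. (`F (v, x') = (g - n l) v + n x'`, `g`, `l` the forms with
the values `u`, `t` on `T`.)
`pu_circ`: the circuits needed: for `f ∈ S`, `f ≠ a`, `θ : K` there is a circuit in `Ls` with `δ 1_a ≠ 0`,
`δ 1_f = θ δ 1_a` (`CS` for `1_f - θ 1_a`, `1_a`, `ind_one`), in terms of `u = e 1_f` (on `S`) and `t`: for
`e ≠ 0` and every `n` there is `(T, x) ∈ Ls` such that the form `F` with the values `u` on the basis `insert x T`
has `F (0, 1) = n`, and if `n ≠ 0` then `f ∈ insert x T` (otherwise `δ 1_f = 0`).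
* `pu_yT`: for `T ∈ Bs`, `T ⊆ S` a basis, `m` the form with the values `t` on `T`, `m (w y) ≠ t y`: then
`insert y T` is a basis for `w'`, it is in `coB b (exS y Ls Bs) (exB y L Bs)`, and if `g` is the form with the
values `u` on `T`, the form `F` with the values `u` on `insert y T` is
`F (v, x') = (g - n m) v + n x'`, `n = (u y - g (w y)) / (t y - m (w y))` (`IsB.cx_ins`).
* `pu_bT`: for `T ∈ exB y L Bs` a basis for `w` (`b ∉ T`): `insert b T` is a basis for `w'`, and if `u b = 0`, `m` the form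
with the values `u` on `T`, then `F (v, x') = m v` has the values `u` on `insert b T`.
* `pu_exB`: for `X : V` not a multiple of `w y`, `e ≠ 0`, and every `k : K` there is `(T, z) ∈ L` with the form
`h`, `h (w y) ≠ 0`, `e * h X = k * h (w y)`; `T' = insert y (T.erase z) ∈ exB y L Bs` is a basis and the form
`m = (e / h (w y)) h` has `m X = k`, `m (w y) = e`, `m (w s) = 0` for `s ∈ T.erase z` (`CA` for `X - (k / e) w y`
and `w y`).
-/

namespace Pool.Agent.PM

open Module

variable {K V : Type} [Field K] [AddCommGroup V] [Module K V] {w : ℕ → V} {S : Finset ℕ}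
  {L Ls : Set (Finset ℕ × ℕ)} {Bs : Set (Finset ℕ)} {a b y f : ℕ} {t : ℕ → K}

/-- the special case of a pair -/
structure PU (K : Type) {V : Type} [Field K] [AddCommGroup V] [Module K V] (w : ℕ → V)
    (S : Finset ℕ) (L Ls : Set (Finset ℕ × ℕ)) (Bs : Set (Finset ℕ)) (a b y : ℕ) (t : ℕ → K) :
    Prop where
  good : Good K w S L Ls Bs
  sim : Sim K w S
  cos : Cos K w S
  two : 2 ≤ S.card
  ha : a ∈ S
  hy : y ∉ S
  hb : b ∉ S
  hyb : y ≠ b
  ta : t a ≠ 0
  ts : ∀ s ∈ S, s ≠ a → t s = 0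
  ty : t y ≠ 0
  wy : w y ≠ 0
  wya : ∀ c : K, w y ≠ c • w a

/-- some basis of `Bs` gives the value `k` -/
def Hit (w : ℕ → V) (S : Finset ℕ) (Bs : Set (Finset ℕ)) (u : ℕ → K) (v : V) (k : K) : Prop :=
  ∃ T ∈ Bs, T ⊆ S ∧ IsB K w T ∧ ∃ l : Dual K V, (∀ s ∈ T, l (w s) = u s) ∧ l v = k

theorem Hit.add {u : ℕ → K} {v : V} {k : K} (l : Dual K V)
    (h : Hit w S Bs (fun s => u s - l (w s)) v (k - l v)) : Hit w S Bs u v k := by
  obtain ⟨T, h1, h2, h3, m, h4, h5⟩ := h
  refine ⟨T, h1, h2, h3, m + l, fun s hs => ?_, ?_⟩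
  · rw [LinearMap.add_apply, h4 s hs]
    ring
  · rw [LinearMap.add_apply, h5]
    ring

theorem Hit.smul {u : ℕ → K} {v : V} {k c : K} (hc : c ≠ 0) (h : Hit w S Bs u v (k / c)) :
    Hit w S Bs u (c • v) k := by
  obtain ⟨T, h1, h2, h3, m, h4, h5⟩ := h
  refine ⟨T, h1, h2, h3, m, h4, ?_⟩
  rw [map_smul, h5, smul_eq_mul]
  field_simp

theorem PU.nonlin (h : PU K w S L Ls Bs a b y t) : ¬ Lin w S t := by
  rintro ⟨l, hl⟩
  have h0 : l = 0 := h.cos a h.ha a h.ha l fun s hs hsa _ => by rw [← hl s hs, h.ts s hs hsa]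
  apply h.ta
  rw [hl a h.ha, h0, LinearMap.zero_apply]

theorem PU.nd (h : PU K w S L Ls Bs a b y t) {v : V} (hv : ∀ c : K, v ≠ c • w a) :
    ¬ Deg w S t v := by
  rintro ⟨s, hs, ⟨l, hl⟩, c, hc⟩
  by_cases hsa : s = a
  · rw [hsa] at hc
    exact hv c hc
  · have h0 : l = 0 := h.cos s hs a h.ha l fun x hx hxs hxa => by
      rw [← hl x hx hxs, h.ts x hx hxa]
    apply h.ta
    rw [hl a h.ha (fun e => hsa e.symm), h0, LinearMap.zero_apply]

/-- the linear form with the components `m` and `n` -/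
private def fm (m : Dual K V) (n : K) : Dual K (V × K) :=
  m ∘ₗ LinearMap.fst K V K + n • LinearMap.snd K V K

private theorem fm_apply (m : Dual K V) (n : K) (v : V) (x : K) : fm m n (v, x) = m v + n * x := by
  simp [fm]

omit [Module K V] in
private theorem cx_ne {s : ℕ} (hs : s ≠ b) : cx w t b s = (w s, t s) := by
  simp [cx, hs]

omit [Module K V] in
private theorem cx_self : cx w t b b = (0, 1) := by
  simp [cx]

private theorem circ_gen (h : PU K w S L Ls Bs a b y t) {u : ℕ → K} {n : K}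
    (hI : Ind2 w S (fun s => u s - n * t s) t) :
    ∃ T x, (T, x) ∈ Ls ∧ insert x T ⊆ S ∧ IsB K (cx w t b) (insert x T) ∧
      ∃ F : Dual K (V × K), (∀ s ∈ insert x T, F (cx w t b s) = u s) ∧ F (0, 1) = n := by
  obtain ⟨T, x, h1, h2, h3, h4, h5, ⟨l, h6, h7⟩, l', h8, h9⟩ := h.good.cs _ _ hI
  have hbT : b ∉ T := fun hb => h.hb (h2 hb)
  have hbx : b ≠ x := fun e => h.hb (e ▸ h3)
  refine ⟨T, x, h1, Finset.insert_subset h3 h2, h5.cx_ins h4 hbT hbx h8 h9, fm l n, ?_, ?_⟩
  · intro s hs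
    have hsb : s ≠ b := by
      rintro rfl
      exact h.hb ((Finset.insert_subset h3 h2) hs)
    rw [cx_ne hsb, fm_apply]
    rcases Finset.mem_insert.1 hs with hs | hs
    · rw [hs, h7]; ring
    · rw [h6 s hs]; ring
  · rw [fm_apply, map_zero]; ring

/-- bases `insert x T`, `(T, x) ∈ Ls`: for `u = e 1_f` on `S`, `f ≠ a` -/
theorem PU.circ (h : PU K w S L Ls Bs a b y t) {u : ℕ → K} (hf : f ∈ S) (hfa : f ≠ a)
    (hu : u f ≠ 0) (hu0 : ∀ s ∈ S, s ≠ f → u s = 0) (n : K) :
    ∃ T ∈ coB b Ls Bs, T ∈ coB b (exS y Ls Bs) (exB y L Bs) ∧ T ⊆ S ∧ IsB K (cx w t b) T ∧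
      (n ≠ 0 → f ∈ T) ∧
      ∃ F : Dual K (V × K), (∀ s ∈ T, F (cx w t b s) = u s) ∧ F (0, 1) = n := by
  have hI : Ind2 w S (fun s => u s - n * t s) t := by
    rintro α β ⟨l, hl⟩
    have h0 : l = 0 := h.cos f hf a h.ha l fun s hs hsf hsa => by
      rw [← hl s hs]
      simp only
      rw [hu0 s hs hsf, h.ts s hs hsa]; ring
    have e1 := hl f hf
    have e2 := hl a h.ha
    rw [h0, LinearMap.zero_apply] at e1 e2
    simp only at e1 e2
    rw [h.ts f hf hfa] at e1
    rw [hu0 a h.ha (fun e => hfa e.symm)] at e2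
    have hα : α = 0 := by
      have : α * u f = 0 := by linear_combination e1
      rcases mul_eq_zero.1 this with h5 | h5
      · exact h5
      · exact absurd h5 hu
    refine ⟨hα, ?_⟩
    rw [hα] at e2
    have : β * t a = 0 := by linear_combination e2
    rcases mul_eq_zero.1 this with h5 | h5
    · exact h5
    · exact absurd h5 h.ta
  obtain ⟨T, x, h1, h2, h3, F, h4, h5⟩ := circ_gen h hI
  refine ⟨insert x T, Or.inr ⟨T, x, h1, rfl⟩, Or.inr ⟨T, x, Or.inl h1, rfl⟩, h2, h3, ?_, F, h4,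
    h5⟩
  intro hn
  by_contra hfT
  have h0 : F = 0 := h3.eq fun s hs => by
    rw [h4 s hs, LinearMap.zero_apply, hu0 s (h2 hs) fun e => hfT (e ▸ hs)]
  apply hn
  rw [← h5, h0, LinearMap.zero_apply]

/-- bases `insert x T`, `(T, x) ∈ Ls`: for general `u`, not a multiple of `t` -/
theorem PU.circ' (h : PU K w S L Ls Bs a b y t) {u : ℕ → K} (hu : Ind2 w S u t) (n : K) :
    ∃ T ∈ coB b (exS y Ls Bs) (exB y L Bs), T ⊆ S ∧ IsB K (cx w t b) T ∧
      ∃ F : Dual K (V × K), (∀ s ∈ T, F (cx w t b s) = u s) ∧ F (0, 1) = n := by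
  have hI : Ind2 w S (fun s => u s - n * t s) t := by
    rintro α β ⟨l, hl⟩
    have h1 := hu α (β - α * n) ⟨l, fun s hs => by
      rw [← hl s hs]
      ring⟩
    refine ⟨h1.1, ?_⟩
    have h2 := h1.2
    rw [h1.1] at h2
    linear_combination h2
  obtain ⟨T, x, h1, h2, h3, F, h4, h5⟩ := circ_gen h hI
  exact ⟨insert x T, Or.inr ⟨T, x, Or.inl h1, rfl⟩, h2, h3, F, h4, h5⟩

/-- bases `insert x T`, `(T, x) ∈ Ls`: for `u` equal to `d * t` up to a linear form -/
theorem PU.circ0 (h : PU K w S L Ls Bs a b y t) {u : ℕ → K} {d : K} {l : Dual K V}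
    (hu : ∀ s ∈ S, u s = d * t s + l (w s)) :
    ∃ T ∈ coB b (exS y Ls Bs) (exB y L Bs), T ⊆ S ∧ IsB K (cx w t b) T ∧ a ∈ T ∧
      ∃ F : Dual K (V × K), (∀ s ∈ T, F (cx w t b s) = u s) ∧ F (0, 1) = d := by
  obtain ⟨T, x, h1, h2, h3, h4, h5, l', h8, h9⟩ := nonlin_circ h.good.cs h.cos h.two h.nonlin
  have hbT : b ∉ T := fun hb => h.hb (h2 hb)
  have hbx : b ≠ x := fun e => h.hb (e ▸ h3)
  refine ⟨insert x T, Or.inr ⟨T, x, Or.inl h1, rfl⟩, Finset.insert_subset h3 h2,
    h5.cx_ins h4 hbT hbx h8 h9, ?_, fm l d, ?_, ?_⟩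
  · by_contra haT
    have hxa : x ≠ a := fun e => haT (e ▸ Finset.mem_insert_self _ _)
    have h0 : l' = 0 := h5.eq fun s hs => by
      rw [h8 s hs, LinearMap.zero_apply,
        h.ts s (h2 hs) fun e => haT (e ▸ Finset.mem_insert_of_mem hs)]
    apply h9
    rw [h0, LinearMap.zero_apply, h.ts x h3 hxa]
  · intro s hs
    have hsS : s ∈ S := (Finset.insert_subset h3 h2) hs
    have hsb : s ≠ b := by
      rintro rfl
      exact h.hb hsS
    rw [cx_ne hsb, fm_apply, hu s hsS]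
    ring
  · rw [fm_apply, map_zero]; ring

/-- bases `insert y T`, `T ∈ Bs` -/
theorem PU.yT (h : PU K w S L Ls Bs a b y t) {T : Finset ℕ} (hT : T ∈ Bs) (hTS : T ⊆ S)
    (hB : IsB K w T) {m g : Dual K V} {u : ℕ → K} (hm : ∀ s ∈ T, m (w s) = t s)
    (hg : ∀ s ∈ T, g (w s) = u s) {n : K} (hn : n * (t y - m (w y)) = u y - g (w y))
    (h0 : m (w y) ≠ t y) :
    insert y T ∈ coB b (exS y Ls Bs) (exB y L Bs) ∧ IsB K (cx w t b) (insert y T) ∧
      ∃ F : Dual K (V × K), (∀ s ∈ insert y T, F (cx w t b s) = u s) ∧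
        ∀ v x, F (v, x) = g v - n * m v + n * x := by
  have hbT : b ∉ T := fun hb => h.hb (hTS hb)
  have hyT : y ∉ T := fun hy => h.hy (hTS hy)
  refine ⟨Or.inr ⟨T, y, Or.inr ⟨T, hT, rfl⟩, rfl⟩, hB.cx_ins hyT hbT h.hyb.symm hm h0,
    fm (g - n • m) n, ?_, ?_⟩
  · intro s hs
    rcases Finset.mem_insert.1 hs with hs | hs
    · rw [hs, cx_ne h.hyb, fm_apply, LinearMap.sub_apply, LinearMap.smul_apply, smul_eq_mul]
      linear_combination hn
    · have hsb : s ≠ b := by
        rintro rfl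
        exact hbT hs
      rw [cx_ne hsb, fm_apply, LinearMap.sub_apply, LinearMap.smul_apply, smul_eq_mul, hg s hs,
        hm s hs]
      ring
  · intro v x
    rw [fm_apply, LinearMap.sub_apply, LinearMap.smul_apply, smul_eq_mul]

/-- bases `insert b T`, `T ∈ exB y L Bs` -/
theorem PU.bT (h : PU K w S L Ls Bs a b y t) {T : Finset ℕ} (hT : T ∈ exB y L Bs)
    (hTS : T ⊆ insert y S) (hB : IsB K w T) {m : Dual K V} {u : ℕ → K}
    (hm : ∀ s ∈ T, m (w s) = u s) (hub : u b = 0) {v : V} {x k : K} (hk : m v = k) :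
    Hit (cx w t b) (insert b (insert y S)) (coB b (exS y Ls Bs) (exB y L Bs)) u (v, x) k := by
  have hbT : b ∉ T := by
    intro hb
    rcases Finset.mem_insert.1 (hTS hb) with hb | hb
    · exact h.hyb hb.symm
    · exact h.hb hb
  refine ⟨insert b T, Or.inl ⟨T, hT, rfl⟩, Finset.insert_subset_insert b hTS, hB.cx t hbT,
    fm m 0, ?_, ?_⟩
  · intro s hs
    rcases Finset.mem_insert.1 hs with hs | hs
    · rw [hs, cx_self, fm_apply, map_zero, hub]; ring
    · have hsb : s ≠ b := by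
        intro e
        rw [e] at hs
        exact hbT hs
      rw [cx_ne hsb, fm_apply, hm s hs]; ring
  · rw [fm_apply, hk]; ring

/-- bases `insert y (T.erase z)`, `(T, z) ∈ L` -/
theorem PU.exB (h : PU K w S L Ls Bs a b y t) {X : V} (hX : ∀ c : K, X ≠ c • w y) {e : K}
    (he : e ≠ 0) (k : K) :
    ∃ T₀ ⊆ S, insert y T₀ ∈ Pool.Agent.PM.exB y L Bs ∧ IsB K w (insert y T₀) ∧
      ∃ m : Dual K V, (∀ s ∈ T₀, m (w s) = 0) ∧ m (w y) = e ∧ m X = k := by
  have hI : ∀ α β : K, α • (X - (k / e) • w y) + β • w y = 0 → α = 0 ∧ β = 0 := by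
    intro α β h1
    have hα : α = 0 := by
      by_contra hα
      apply hX (k / e - α⁻¹ * β)
      have h2 : α⁻¹ • (α • (X - (k / e) • w y) + β • w y) = 0 := by rw [h1, smul_zero]
      rw [smul_add, smul_smul, smul_smul, inv_mul_cancel₀ hα, one_smul] at h2
      rw [sub_smul]
      have h3 : X = (k / e) • w y - (α⁻¹ * β) • w y +
          (X - (k / e) • w y + (α⁻¹ * β) • w y) := by abel
      rw [h2, add_zero] at h3
      exact h3
    refine ⟨hα, ?_⟩
    rw [hα, zero_smul, zero_add] at h1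
    rcases smul_eq_zero.1 h1 with h2 | h2
    · exact h2
    · exact absurd h2 h.wy
  obtain ⟨T, z, h1, h2, h3, h4, l, h5, h6, h7⟩ := h.good.ca _ _ hI
  have hyT : y ∉ T := fun hy => h.hy (h2 hy)
  refine ⟨T.erase z, (Finset.erase_subset _ _).trans h2, Or.inr ⟨T, z, h1, rfl⟩,
    h4.exch h3 hyT h5 h7, (e / l (w y)) • l, ?_, ?_, ?_⟩
  · intro s hs
    rw [LinearMap.smul_apply, h5 s (Finset.mem_of_mem_erase hs),
      if_neg (Finset.ne_of_mem_erase hs), smul_zero]
  · rw [LinearMap.smul_apply, smul_eq_mul, div_mul_cancel₀ _ h7]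
  · rw [map_sub, map_smul, smul_eq_mul] at h6
    have h8 : l X = k / e * l (w y) := by linear_combination h6
    rw [LinearMap.smul_apply, smul_eq_mul, h8]
    field_simp

end Pool.Agent.PM
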