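import Pool.Agent.PM.Q0

set_option autoImplicit false

/-!
# Module Q1: a pair, special case: marked bases

The marked bases of the pair separate the vectors of `V × K`.
-/

namespace Pool.Agent.PM

open Module

variable {K V : Type} [Field K] [AddCommGroup V] [Module K V] {w : ℕ → V} {S : Finset ℕ}
  {L Ls : Set (Finset ℕ × ℕ)} {Bs : Set (Finset ℕ)} {a b y f : ℕ} {t : ℕ → K}

/-- the linear form with the components `m` and `n` -/
private def fq (m : Dual K V) (n : K) : Dual K (V × K) :=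
  m ∘ₗ LinearMap.fst K V K + n • LinearMap.snd K V K

private theorem fq_apply (m : Dual K V) (n : K) (v : V) (x : K) : fq m n (v, x) = m v + n * x := by
  simp [fq]

omit [Module K V] in
private theorem cq_ne {s : ℕ} (hs : s ≠ b) : cx w t b s = (w s, t s) := by
  simp [cx, hs]

omit [Module K V] in
private theorem cq_self : cx w t b b = (0, 1) := by
  simp [cx]

private theorem liftA (h : PU K w S L Ls Bs a b y t) {T : Finset ℕ} {z : ℕ} (hT : (T, z) ∈ L)
    (hTS : T ⊆ S) (hz : z ∈ T) (hB : IsB K w T) {m : Dual K V}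
    (hm : ∀ s ∈ T, m (w s) = if s = z then 1 else 0) {X Y : V × K} (hX : m X.1 = 0)
    (hY : m Y.1 ≠ 0) :
    ∃ T z, (T, z) ∈ coL b L (Pool.Agent.PM.exB y L Bs) ∧ T ⊆ insert b (insert y S) ∧ z ∈ T ∧
      IsB K (cx w t b) T ∧ ∃ l : Dual K (V × K),
        (∀ s ∈ T, l (cx w t b s) = if s = z then 1 else 0) ∧ l X = 0 ∧ l Y ≠ 0 := by
  have hbT : b ∉ T := fun hb => h.hb (hTS hb)
  refine ⟨insert b T, z, Or.inl ⟨T, z, hT, rfl⟩,
    Finset.insert_subset_insert b (hTS.trans (Finset.subset_insert y S)),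
    Finset.mem_insert_of_mem hz, hB.cx t hbT, fq m 0, ?_, ?_, ?_⟩
  · intro s hs
    rcases Finset.mem_insert.1 hs with hs | hs
    · have hbz : b ≠ z := fun e => hbT (e ▸ hz)
      rw [hs, cq_self, fq_apply, map_zero, if_neg hbz]
      ring
    · have hsb : s ≠ b := by
        intro e
        rw [e] at hs
        exact hbT hs
      rw [cq_ne hsb, fq_apply, hm s hs]
      ring
  · obtain ⟨v, x⟩ := X
    rw [fq_apply, zero_mul, add_zero]
    exact hX
  · obtain ⟨v, x⟩ := Y
    rw [fq_apply, zero_mul, add_zero]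
    exact hY

private theorem liftB (h : PU K w S L Ls Bs a b y t) {T : Finset ℕ}
    (hT : T ∈ Pool.Agent.PM.exB y L Bs) (hTS : T ⊆ insert y S) (hB : IsB K w T) {m : Dual K V}
    (hm : ∀ s ∈ T, m (w s) = t s) {v₁ v₂ : V} {c₁ c₂ d : K} (hv : v₂ = d • v₁)
    (h1 : m v₁ = c₁) (h2 : c₂ ≠ d * c₁) :
    ∃ T z, (T, z) ∈ coL b L (Pool.Agent.PM.exB y L Bs) ∧ T ⊆ insert b (insert y S) ∧ z ∈ T ∧
      IsB K (cx w t b) T ∧ ∃ l : Dual K (V × K),
        (∀ s ∈ T, l (cx w t b s) = if s = z then 1 else 0) ∧ l (v₁, c₁) = 0 ∧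
          l (v₂, c₂) ≠ 0 := by
  have hbT : b ∉ T := by
    intro hb
    rcases Finset.mem_insert.1 (hTS hb) with hb | hb
    · exact h.hyb hb.symm
    · exact h.hb hb
  refine ⟨insert b T, b, Or.inr ⟨T, hT, rfl⟩, Finset.insert_subset_insert b hTS,
    Finset.mem_insert_self _ _, hB.cx t hbT, fq (-m) 1, ?_, ?_, ?_⟩
  · intro s hs
    rcases Finset.mem_insert.1 hs with hs | hs
    · rw [hs, cq_self, fq_apply, map_zero, if_pos rfl]
      ring
    · have hsb : s ≠ b := by
        intro e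
        rw [e] at hs
        exact hbT hs
      rw [cq_ne hsb, fq_apply, if_neg hsb, LinearMap.neg_apply, hm s hs]
      ring
  · rw [fq_apply, LinearMap.neg_apply, h1]
    ring
  · rw [fq_apply, LinearMap.neg_apply, hv, map_smul, h1, smul_eq_mul]
    intro h3
    apply h2
    linear_combination h3

private theorem exists_indep (h : PU K w S L Ls Bs a b y t) {v : V} (hv : v ≠ 0) :
    ∃ x : V, ∀ α β : K, α • x + β • v = 0 → α = 0 ∧ β = 0 := by
  obtain ⟨g, hg, hga⟩ := Finset.exists_mem_ne (Nat.lt_of_lt_of_le Nat.one_lt_two h.two) a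
  -- one of `w a`, `w g` is not a multiple of `v`
  have key : ∀ x : V, (∀ c : K, x ≠ c • v) → ∀ α β : K, α • x + β • v = 0 → α = 0 ∧ β = 0 := by
    intro x hx α β hab
    have hα : α = 0 := by
      by_contra hα
      apply hx (-(α⁻¹ * β))
      have h2 : α⁻¹ • (α • x + β • v) = 0 := by rw [hab, smul_zero]
      rw [smul_add, smul_smul, smul_smul, inv_mul_cancel₀ hα, one_smul] at h2
      rw [neg_smul]
      exact eq_neg_of_add_eq_zero_left h2
    refine ⟨hα, ?_⟩
    rw [hα, zero_smul, zero_add] at hab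
    rcases smul_eq_zero.1 hab with h3 | h3
    · exact h3
    · exact absurd h3 hv
  by_cases h1 : ∀ c : K, w a ≠ c • v
  · exact ⟨w a, key _ h1⟩
  · push Not at h1
    obtain ⟨c, hc⟩ := h1
    refine ⟨w g, key _ fun c' hc' => ?_⟩
    have hc0 : c ≠ 0 := by
      rintro rfl
      rw [zero_smul] at hc
      exact (h.sim a h.ha).1 hc
    apply (h.sim g hg).2 a h.ha (Ne.symm hga) (c' * c⁻¹)
    rw [hc, hc', smul_smul, mul_assoc, inv_mul_cancel₀ hc0, mul_one]

theorem PU.ca (h : PU K w S L Ls Bs a b y t) :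
    CA K (cx w t b) (insert b (insert y S)) (coL b L (Pool.Agent.PM.exB y L Bs)) := by
  rintro ⟨v₁, c₁⟩ ⟨v₂, c₂⟩ hI
  have hI' : ∀ α β : K, α • v₁ + β • v₂ = 0 → α * c₁ + β * c₂ = 0 → α = 0 ∧ β = 0 := by
    intro α β h1 h2
    refine hI α β ?_
    rw [Prod.smul_mk, Prod.smul_mk, Prod.mk_add_mk, h1, smul_eq_mul, smul_eq_mul, h2]
    rfl
  by_cases hv1 : v₁ = 0
  · -- the first vector is `(0, c₁)`
    have hv2 : v₂ ≠ 0 := by
      intro hv2
      have h3 := hI' c₂ (-c₁) (by rw [hv1, hv2, smul_zero, smul_zero, add_zero]) (by ring)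
      have h4 := hI' 1 0 (by rw [hv1, smul_zero, zero_smul, add_zero]) (by
        rw [neg_eq_zero.1 h3.2]; ring)
      exact one_ne_zero h4.1
    obtain ⟨x, hx⟩ := exists_indep h hv2
    obtain ⟨T, z, h1, h2, h3, h4, l, h5, _, h7⟩ := h.good.ca _ _ hx
    refine liftA h h1 h2 h3 h4 h5 ?_ h7
    show l v₁ = 0
    rw [hv1, map_zero]
  by_cases hd : ∃ d : K, v₂ = d • v₁
  · obtain ⟨d, hd⟩ := hd
    have h2 : c₂ ≠ d * c₁ := by
      intro h3
      have h4 := hI' (-d) 1 (by rw [hd, neg_smul, one_smul, neg_add_cancel]) (by rw [h3]; ring)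
      exact one_ne_zero h4.2
    by_cases hva : ∀ c : K, v₁ ≠ c • w a
    · obtain ⟨T, h3, h4, h5, l, h6, h7⟩ := h.good.cb t v₁ hv1 h.nonlin (h.nd hva) c₁
      exact liftB h (Or.inl h3) (h4.trans (Finset.subset_insert y S)) h5 h6 hd h7 h2
    · push Not at hva
      obtain ⟨φ, hφ⟩ := hva
      have hφ0 : φ ≠ 0 := by
        rintro rfl
        rw [zero_smul] at hφ
        exact hv1 hφ
      by_cases hk1 : c₁ = φ * t a
      · obtain ⟨T, h3, h4, h5, h6⟩ := (h.good.cx a h.ha).1
        obtain ⟨m, hm⟩ := h5.form t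
        refine liftB h (Or.inl h3) (h4.trans (Finset.subset_insert y S)) h5 hm hd ?_ h2
        rw [hφ, map_smul, hm a h6, smul_eq_mul, hk1]
      by_cases hk0 : c₁ = 0
      · obtain ⟨T, h3, h4, h5, h6⟩ := (h.good.cx a h.ha).2
        refine liftB h (Or.inl h3) (h4.trans (Finset.subset_insert y S)) h5 (m := 0) ?_ hd ?_ h2
        · intro s hs
          rw [LinearMap.zero_apply, h.ts s (h4 hs) fun e => h6 (e ▸ hs)]
        · rw [LinearMap.zero_apply, hk0]
      · have hX : ∀ c : K, w a ≠ c • w y := by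
          intro c hc
          have hc0 : c ≠ 0 := by
            rintro rfl
            rw [zero_smul] at hc
            exact (h.sim a h.ha).1 hc
          apply h.wya c⁻¹
          rw [hc, smul_smul, inv_mul_cancel₀ hc0, one_smul]
        obtain ⟨T₀, h3, h4, h5, m, h6, h7, h8⟩ := h.exB hX h.ty (c₁ / φ)
        refine liftB h h4 (Finset.insert_subset_insert y h3) h5 (m := m) ?_ hd ?_ h2
        · intro s hs
          rcases Finset.mem_insert.1 hs with hs | hs
          · rw [hs, h7]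
          · have hsa : s ≠ a := by
              rintro rfl
              have h9 := h6 s hs
              rw [h8, div_eq_zero_iff] at h9
              rcases h9 with h9 | h9
              · exact hk0 h9
              · exact hφ0 h9
            rw [h6 s hs, h.ts s (h3 hs) hsa]
        · rw [hφ, map_smul, h8, smul_eq_mul, mul_div_cancel₀ _ hφ0]
  · -- independent vectors
    have hI2 : ∀ α β : K, α • v₁ + β • v₂ = 0 → α = 0 ∧ β = 0 := by
      intro α β hab
      have hβ : β = 0 := by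
        by_contra hβ
        apply hd
        refine ⟨-(β⁻¹ * α), ?_⟩
        have h2 : β⁻¹ • (α • v₁ + β • v₂) = 0 := by rw [hab, smul_zero]
        rw [smul_add, smul_smul, smul_smul, inv_mul_cancel₀ hβ, one_smul] at h2
        rw [neg_smul]
        exact eq_neg_of_add_eq_zero_right h2
      refine ⟨?_, hβ⟩
      rw [hβ, zero_smul, add_zero] at hab
      rcases smul_eq_zero.1 hab with h3 | h3
      · exact h3
      · exact absurd h3 hv1
    obtain ⟨T, z, h1, h2, h3, h4, l, h5, h6, h7⟩ := h.good.ca _ _ hI2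
    exact liftA h h1 h2 h3 h4 h5 h6 h7

end Pool.Agent.PM
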