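import Pool.Agent.PM.RA

set_option autoImplicit false

/-!
# Module RB: a label and a 2-separation: the side; deletion
-/

namespace Pool.Agent.PM

open Finset
open Pool.Agent.G4 (IsRk ctr lam dualR Conn3)

variable {q : ℕ} {r r' : Finset ℕ → ℤ} {S S' X Y Z A B C D : Finset ℕ} {a b x y e : ℕ}

theorem lb_side (hr : IsRk r) (hq : 2 ≤ q) (hQ : Qb q r) (hL : Lb q r S C) (hX : X ⊆ S)
    (h1 : lam r S X ≤ 1) :
    (r (C ∪ (S \ X)) ≤ C.card + 1 ∧ r (C ∪ X) = r S) ∨
      (r (C ∪ X) ≤ C.card + 1 ∧ r (C ∪ (S \ X)) = r S) := by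
  obtain ⟨hCS, hCc, hS3, Z, hZ, hZc, hZ2⟩ := hL
  have hZS : Z ⊆ S := hZ.trans sdiff_subset
  have a1 : r (C ∪ X) ≤ r X + ((C \ X).card : ℤ) := by
    have h2 := hr.union_le X (C \ X)
    have h3 : X ∪ C \ X = C ∪ X := by rw [union_sdiff_self_eq_union, union_comm]
    rwa [h3] at h2
  have a2 : r (C ∪ (S \ X)) ≤ r (S \ X) + ((C ∩ X).card : ℤ) := by
    have h2 := hr.union_le (S \ X) (C ∩ X)
    have h3 : C ∪ (S \ X) ⊆ (S \ X) ∪ (C ∩ X) := by
      intro z hz
      have h4 := @hCS z
      simp only [mem_union, mem_sdiff, mem_inter] at hz ⊢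
      tauto
    exact (hr.mono' h3).trans h2
  have a3 : (C \ X).card + (C ∩ X).card = C.card := card_sdiff_add_card_inter C X
  have a4 : r (C ∪ X) ≤ r S := hr.mono' (union_subset hCS hX)
  have a5 : r (C ∪ (S \ X)) ≤ r S := hr.mono' (union_subset hCS sdiff_subset)
  have a6 := hr.sub (C ∪ X) (C ∪ (S \ X))
  have a7 : r S ≤ r (C ∪ X ∪ (C ∪ (S \ X))) := hr.mono' (by
    intro z hz
    simp only [mem_union, mem_sdiff]
    tauto)
  have a8 : r C ≤ r ((C ∪ X) ∩ (C ∪ (S \ X))) := hr.mono' (by
    intro z hz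
    simp only [mem_union, mem_sdiff, mem_inter]
    tauto)
  have a9 : ¬ (r (C ∪ X) ≤ C.card + 2 ∧ r (C ∪ (S \ X)) ≤ C.card + 2) := by
    rintro ⟨b1, b2⟩
    have b3 : ctr r C (Z ∩ X) ≤ 2 := by
      have b4 : r (C ∪ (Z ∩ X)) ≤ r (C ∪ X) :=
        hr.mono' (union_subset_union_right inter_subset_right)
      unfold Pool.Agent.G4.ctr
      linarith
    have b5 : ctr r C (Z \ X) ≤ 2 := by
      have b4 : r (C ∪ (Z \ X)) ≤ r (C ∪ (S \ X)) :=
        hr.mono' (union_subset_union_right (sdiff_subset_sdiff hZS subset_rfl))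
      unfold Pool.Agent.G4.ctr
      linarith
    have b6 := (hQ C (Z ∩ X) fun a ha b hb hab =>
      hZ2 a (mem_inter.1 ha).1 b (mem_inter.1 hb).1 hab).1 b3
    have b7 := (hQ C (Z \ X) fun a ha b hb hab =>
      hZ2 a (mem_sdiff.1 ha).1 b (mem_sdiff.1 hb).1 hab).1 b5
    have b8 : (Z \ X).card + (Z ∩ X).card = Z.card := card_sdiff_add_card_inter Z X
    nlinarith
  unfold lam at h1
  by_cases c1 : r (C ∪ X) ≤ C.card + 2
  · have c2 : ¬ r (C ∪ (S \ X)) ≤ C.card + 2 := fun c2 => a9 ⟨c1, c2⟩
    right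
    constructor <;> omega
  · left
    constructor <;> omega

private theorem ind_sub (hr : IsRk r) (h : r C = C.card) (hA : A ⊆ C) : r A = A.card := by
  have h1 := hr.union_le A (C \ A)
  rw [union_sdiff_of_subset hA] at h1
  have h2 := card_sdiff_add_card_eq_card hA
  have h3 := hr.le_card A
  omega

private theorem clo (hr : IsRk r) (h : ∀ x ∈ A, r (insert x C) = r C) : r (C ∪ A) = r C := by
  induction A using Finset.induction_on with
  | empty => rw [union_empty]
  | insert a A ha ih =>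
    have h1 := ih fun x hx => h x (mem_insert_of_mem hx)
    have h2 := h a (mem_insert_self _ _)
    have h3 := hr.sub (C ∪ A) (insert a C)
    have h4 : r C ≤ r ((C ∪ A) ∩ insert a C) := hr.mono' fun z hz =>
      mem_inter.2 ⟨mem_union_left _ hz, mem_insert_of_mem hz⟩
    have h5 : C ∪ A ∪ insert a C = C ∪ insert a A := by
      ext z
      simp only [mem_union, mem_insert]
      tauto
    rw [h5] at h3
    have h6 : r C ≤ r (C ∪ insert a A) := hr.mono' subset_union_left
    omega

private theorem exi (hr : IsRk r) (h : r C < r (C ∪ A)) : ∃ x ∈ A, r (insert x C) = r C + 1 := by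
  by_contra hcon
  push Not at hcon
  have h1 := clo hr (A := A) (C := C) fun x hx => by
    have h2 := hcon x hx
    have h3 := hr.mono C x
    have h4 := hr.unit C x
    omega
  omega

private theorem span (hr : IsRk r) (hAB : A ⊆ B) (h : r A = r B) (W : Finset ℕ) :
    r (A ∪ W) = r (B ∪ W) := by
  have h1 := hr.sub (A ∪ W) B
  have h2 : r A ≤ r ((A ∪ W) ∩ B) := hr.mono' fun z hz =>
    mem_inter.2 ⟨mem_union_left _ hz, hAB hz⟩
  have h3 : r (B ∪ W) ≤ r (A ∪ W ∪ B) := hr.mono' (by
    intro z hz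
    simp only [mem_union] at hz ⊢
    tauto)
  have h4 : r (A ∪ W) ≤ r (B ∪ W) := hr.mono' (union_subset_union_left hAB)
  omega

private theorem skew (hr : IsRk r) {P W : Finset ℕ} (hW : W ⊆ X) (h : r X + P.card ≤ r (X ∪ P)) :
    r (W ∪ P) = r W + P.card := by
  have h1 := hr.union_le W P
  have h2 := hr.sub (W ∪ P) X
  have h3 : r (X ∪ P) ≤ r (W ∪ P ∪ X) := hr.mono' (by
    intro z hz
    simp only [mem_union] at hz ⊢
    tauto)
  have h4 : r W ≤ r ((W ∪ P) ∩ X) := hr.mono' fun z hz =>
    mem_inter.2 ⟨mem_union_left _ hz, hW hz⟩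
  omega

private theorem two_le (hr : IsRk r) {u v : ℕ} : r (C ∪ {u, v}) ≤ r C + 2 := by
  have h1 := hr.union_le C {u, v}
  have h2 : ({u, v} : Finset ℕ).card ≤ 2 := card_le_two
  omega

private theorem fin_step (hr : IsRk r) (hL : Lb q r (X ∪ Y) C) (hd : Disjoint X Y)
    (hSe : r ((X ∪ Y).erase y) = r (X ∪ Y)) (hY : r (C ∪ Y) ≤ C.card + 1)
    (f2 : r (Y.erase y) = r Y) (hy : y ∈ Y) (hyC : y ∈ C) {g : ℕ} (hg : g ∈ Y) (hgy : g ≠ y)
    (hgC : g ∉ C) (hCX : ∀ A ⊆ X, r (insert g (C.erase y) ∪ A) = r (C ∪ A)) :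
    Lb q r ((X ∪ Y).erase y) (insert g (C.erase y)) := by
  obtain ⟨hCS, hCc, hS3, Z, hZ, hZc, hZ2⟩ := hL
  have hyX : y ∉ X := disjoint_right.1 hd hy
  have hgX : g ∉ X := disjoint_right.1 hd hg
  have hcard : (insert g (C.erase y)).card = C.card := by
    rw [card_insert_of_notMem fun h => hgC (mem_of_mem_erase h), card_erase_add_one hyC]
  have hC' : insert g (C.erase y) ⊆ (X ∪ Y).erase y := by
    intro z hz
    rcases mem_insert.1 hz with rfl | hz
    · exact mem_erase.2 ⟨hgy, mem_union_right _ hg⟩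
    · exact mem_erase.2 ⟨(mem_erase.1 hz).1, hCS (mem_erase.1 hz).2⟩
  have hrC' : r (insert g (C.erase y)) = C.card := by
    have h1 := hCX ∅ (empty_subset _)
    rw [union_empty, union_empty] at h1
    rw [h1, hCc]
  have hXC : ∀ z ∈ X, z ∉ C → z ∈ (X ∪ Y).erase y \ insert g (C.erase y) := by
    intro z hz hzC
    rw [mem_sdiff, mem_erase, mem_insert, mem_erase, mem_union]
    refine ⟨⟨fun h => hyX (h ▸ hz), Or.inl hz⟩, ?_⟩
    rintro (h | h)
    · exact hgX (h ▸ hz)
    · exact hzC h.2
  refine ⟨hC', by rw [hrC', hcard], by rw [hSe, hS3, hcard], ?_⟩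
  by_cases hq0 : q = 0
  · -- one element
    subst hq0
    have h1 : ((X ∪ Y).erase y \ insert g (C.erase y)).Nonempty := by
      rw [nonempty_iff_ne_empty]
      intro h
      have h2 : (X ∪ Y).erase y ⊆ insert g (C.erase y) := sdiff_eq_empty_iff_subset.1 h
      have h3 := hr.mono' h2
      omega
    obtain ⟨z, hz⟩ := h1
    refine ⟨{z}, singleton_subset_iff.2 hz, by simp, fun a ha b hb hab => ?_⟩
    rw [mem_singleton] at ha hb
    exact absurd (ha.trans hb.symm) hab
  have hZ1 : 1 < Z.card := by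
    have : 1 ≤ q := Nat.one_le_iff_ne_zero.2 hq0
    nlinarith
  have key2 : ∀ a ∈ Z, a ∈ X → ∀ b ∈ Z, b ∈ X → a ≠ b →
      ctr r (insert g (C.erase y)) {a, b} = 2 := by
    intro a ha haX b hb hbX hab
    have h1 := hCX {a, b} (insert_subset haX (singleton_subset_iff.2 hbX))
    have h2 := hZ2 a ha b hb hab
    unfold Pool.Agent.G4.ctr at h2 ⊢
    omega
  by_cases hZY : ∃ s ∈ Z, s ∈ Y
  · obtain ⟨s, hs, hsY⟩ := hZY
    have huniq : ∀ u ∈ Z, u ≠ s → u ∈ X := by
      intro u hu hus
      by_contra huX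
      have huY : u ∈ Y := by
        have h1 := (mem_sdiff.1 (hZ hu)).1
        rcases mem_union.1 h1 with h | h
        · exact absurd h huX
        · exact h
      have h1 := hZ2 u hu s hs hus
      have h2 : r (C ∪ {u, s}) ≤ r (C ∪ Y) := hr.mono' (union_subset_union_right
        (insert_subset huY (singleton_subset_iff.2 hsY)))
      unfold Pool.Agent.G4.ctr at h1
      omega
    obtain ⟨b, hb, hbs⟩ := exists_mem_ne hZ1 s
    have g1 : (C.card : ℤ) + 1 ≤ r (C ∪ Y) := by
      have h1 := hZ2 b hb s hs hbs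
      have h2 : r (C ∪ {b, s}) ≤ r (C ∪ {s}) + 1 := by
        have h3 := hr.unit (C ∪ {s}) b
        have h4 : insert b (C ∪ {s}) = C ∪ {b, s} := by
          ext z
          simp only [mem_union, mem_insert, mem_singleton]
          tauto
        rwa [h4] at h3
      have h3 : r (C ∪ {s}) ≤ r (C ∪ Y) := hr.mono' (union_subset_union_right
        (singleton_subset_iff.2 hsY))
      unfold Pool.Agent.G4.ctr at h1
      omega
    have g2 : insert g (C.erase y) ∪ Y = C ∪ Y := by
      ext z
      simp only [mem_union, mem_insert, mem_erase]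
      constructor
      · rintro ((rfl | h) | h)
        · exact Or.inr hg
        · exact Or.inl h.2
        · exact Or.inr h
      · rintro (h | h)
        · by_cases hzy : z = y
          · right
            rw [hzy]
            exact hy
          · exact Or.inl (Or.inr ⟨hzy, h⟩)
        · exact Or.inr h
    have g3 : r (Y.erase y ∪ insert g (C.erase y)) = r (Y ∪ insert g (C.erase y)) :=
      span hr (erase_subset y Y) f2 _
    rw [union_comm Y, g2, union_comm] at g3
    obtain ⟨s', hs', hrs'⟩ := exi hr (C := insert g (C.erase y)) (A := Y.erase y) (by omega)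
    have hs'Y : s' ∈ Y := mem_of_mem_erase hs'
    have hs'y : s' ≠ y := (mem_erase.1 hs').1
    have hs'X : s' ∉ X := disjoint_right.1 hd hs'Y
    have hs'C : s' ∉ insert g (C.erase y) := by
      intro h
      rw [insert_eq_of_mem h] at hrs'
      omega
    have key1 : ∀ u ∈ Z, u ≠ s → ctr r (insert g (C.erase y)) {s', u} = 2 := by
      intro u hu hus
      have h1 := hZ2 u hu s hs hus
      have h2 : r (insert s' (insert g (C.erase y)) ∪ {u}) =
          r (insert g (C.erase y) ∪ Y ∪ {u}) := by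
        refine span hr ?_ ?_ _
        · exact insert_subset (mem_union_right _ hs'Y) subset_union_left
        · rw [g2]
          omega
      have h3 : insert s' (insert g (C.erase y)) ∪ {u} = insert g (C.erase y) ∪ {s', u} := by
        ext z
        simp only [mem_union, mem_insert, mem_singleton]
        tauto
      rw [h3, g2] at h2
      have h4 : r (C ∪ {u, s}) ≤ r (C ∪ Y ∪ {u}) := hr.mono' (by
        intro z hz
        simp only [mem_union, mem_insert, mem_singleton] at hz ⊢
        rcases hz with h | h | h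
        · exact Or.inl (Or.inl h)
        · exact Or.inr h
        · exact Or.inl (Or.inr (h ▸ hsY)))
      have h5 := two_le hr (C := insert g (C.erase y)) (u := s') (v := u)
      unfold Pool.Agent.G4.ctr at h1 ⊢
      omega
    refine ⟨insert s' (Z.erase s), ?_, ?_, ?_⟩
    · intro z hz
      rcases mem_insert.1 hz with rfl | hz
      · exact mem_sdiff.2 ⟨mem_erase.2 ⟨hs'y, mem_union_right _ hs'Y⟩, hs'C⟩
      · have h1 := mem_erase.1 hz
        exact hXC z (huniq z h1.2 h1.1) (mem_sdiff.1 (hZ h1.2)).2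
    · rw [card_insert_of_notMem, card_erase_add_one hs, hZc]
      intro h
      have h1 := mem_erase.1 h
      exact hs'X (huniq s' h1.2 h1.1)
    · intro a ha b hb hab
      rcases mem_insert.1 ha with rfl | ha
      · rcases mem_insert.1 hb with rfl | hb
        · exact absurd rfl hab
        · have h1 := mem_erase.1 hb
          exact key1 b h1.2 h1.1
      · have h1 := mem_erase.1 ha
        rcases mem_insert.1 hb with rfl | hb
        · rw [pair_comm]
          exact key1 a h1.2 h1.1
        · have h2 := mem_erase.1 hb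
          exact key2 a h1.2 (huniq a h1.2 h1.1) b h2.2 (huniq b h2.2 h2.1) hab
  · push Not at hZY
    have hZX : ∀ u ∈ Z, u ∈ X := by
      intro u hu
      have h1 := (mem_sdiff.1 (hZ hu)).1
      rcases mem_union.1 h1 with h | h
      · exact h
      · exact absurd h (hZY u hu)
    exact ⟨Z, fun z hz => hXC z (hZX z hz) (mem_sdiff.1 (hZ hz)).2, hZc,
      fun a ha b hb hab => key2 a ha (hZX a ha) b hb (hZX b hb) hab⟩

theorem lb_keep_del (hr : IsRk r) (hL : Lb q r (X ∪ Y) C) (hd : Disjoint X Y) (hXn : X.Nonempty)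
    (hconn : ∀ A ⊆ X ∪ Y, A.Nonempty → ((X ∪ Y) \ A).Nonempty → 1 ≤ lam r (X ∪ Y) A)
    (h1 : lam r (X ∪ Y) X ≤ 1) (hY : r (C ∪ Y) ≤ C.card + 1) (hX : r (C ∪ X) = r (X ∪ Y))
    (hy : y ∈ Y) (h2 : 1 ≤ lam r ((X ∪ Y).erase y) X) :
    ∃ C', Lb q r ((X ∪ Y).erase y) C' ∧ (C' = C ∨ ∃ g ∈ X ∪ Y, C' = insert g (C.erase y)) := by
  obtain ⟨hCS, hCc, hS3, -⟩ := id hL
  have hyX : y ∉ X := disjoint_right.1 hd hy
  have hyS : y ∈ X ∪ Y := mem_union_right _ hy
  have e1 : (X ∪ Y) \ X = Y := union_sdiff_cancel_left hd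
  have e2 : (X ∪ Y).erase y \ X = Y.erase y := by
    ext z
    have h3 : z ∈ Y → z ∉ X := fun h => disjoint_right.1 hd h
    simp only [mem_sdiff, mem_erase, mem_union]
    tauto
  have hSe : r ((X ∪ Y).erase y) = r (X ∪ Y) := by
    have h3 : r ((X ∪ Y).erase y) ≤ r (X ∪ Y) := hr.mono' (erase_subset _ _)
    obtain ⟨x, hx⟩ := hXn
    have h4 := hconn {y} (singleton_subset_iff.2 hyS) (singleton_nonempty y) ⟨x, by
      rw [mem_sdiff, mem_singleton]
      exact ⟨mem_union_left _ hx, fun h => hyX (h ▸ hx)⟩⟩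
    have h5 := hr.le_card {y}
    rw [card_singleton] at h5
    unfold lam at h4
    rw [sdiff_singleton_eq_erase] at h4
    push_cast at h5
    omega
  have hl := hconn X subset_union_left hXn (by rw [e1]; exact ⟨y, hy⟩)
  have f3 : r (Y.erase y) ≤ r Y := hr.mono' (erase_subset _ _)
  unfold lam at h1 h2 hl
  rw [e1] at h1 hl
  rw [e2, hSe] at h2
  have f1 : r X + r Y = r (X ∪ Y) + 1 := by omega
  have f2 : r (Y.erase y) = r Y := by omega
  by_cases hyC : y ∈ C
  · -- `y ∈ C`
    have hyP : y ∈ C ∩ Y := mem_inter.2 ⟨hyC, hy⟩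
    have hPc : r (C ∩ Y) = (C ∩ Y).card := ind_sub hr hCc inter_subset_left
    have hDc : ((C ∩ Y).erase y).card + 1 = (C ∩ Y).card := card_erase_add_one hyP
    have hD : r ((C ∩ Y).erase y) = ((C ∩ Y).erase y).card :=
      ind_sub hr hPc (erase_subset _ _)
    have hCu : C ∪ X = X ∪ (C ∩ Y) := by
      ext z
      have h3 := @hCS z
      simp only [mem_union, mem_inter] at h3 ⊢
      tauto
    have g1 : r (X ∪ Y) ≤ r X + (C ∩ Y).card := by
      have h3 := hr.union_le X (C ∩ Y)
      rw [← hX, hCu]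
      exact h3
    have g2 : r (C ∩ Y) ≤ r Y := hr.mono' inter_subset_right
    have eC : ∀ A, C ∪ A = (C ∩ Y) ∪ ((C ∩ X) ∪ A) := by
      intro A
      ext z
      have h3 := @hCS z
      simp only [mem_union, mem_inter] at h3 ⊢
      tauto
    have eC' : ∀ g A, insert g (C.erase y) ∪ A =
        insert g ((C ∩ Y).erase y) ∪ ((C ∩ X) ∪ A) := by
      intro g A
      ext z
      have h3 := @hCS z
      have h4 : z = y → z ∉ X := fun h => h ▸ hyX
      simp only [mem_union, mem_inter, mem_insert, mem_erase] at h3 ⊢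
      tauto
    by_cases hcase : r Y = (C ∩ Y).card
    · -- `C ∩ Y` spans `Y`
      obtain ⟨g, hg, hrg⟩ := exi hr (C := (C ∩ Y).erase y) (A := Y.erase y) (by
        have h3 : r (Y.erase y) ≤ r ((C ∩ Y).erase y ∪ Y.erase y) :=
          hr.mono' subset_union_right
        omega)
      have hgY : g ∈ Y := mem_of_mem_erase hg
      have hgy : g ≠ y := (mem_erase.1 hg).1
      have hgC : g ∉ C := by
        intro h
        rw [insert_eq_of_mem (mem_erase.2 ⟨hgy, mem_inter.2 ⟨h, hgY⟩⟩)] at hrg
        omega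
      refine ⟨_, fin_step hr hL hd hSe hY f2 hy hyC hgY hgy hgC fun A _ => ?_,
        Or.inr ⟨g, mem_union_right _ hgY, rfl⟩⟩
      rw [eC A, eC' g A]
      rw [span hr (A := insert g ((C ∩ Y).erase y)) (B := Y) ?_ (by omega),
        span hr (A := C ∩ Y) (B := Y) inter_subset_right (by omega)]
      exact insert_subset hgY ((erase_subset _ _).trans inter_subset_right)
    · -- `C ∩ Y` is skew to `X`
      have hk : r Y = (C ∩ Y).card + 1 := by omega
      have hXk : r X + (C ∩ Y).card = r (X ∪ Y) := by omega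
      have hXD : r (X ∪ (C ∩ Y).erase y) ≤ r X + ((C ∩ Y).erase y).card := hr.union_le _ _
      have hsub : (X ∪ Y).erase y ⊆ X ∪ (C ∩ Y).erase y ∪ Y.erase y := by
        intro z hz
        simp only [mem_union, mem_erase] at hz ⊢
        tauto
      have h3 := hr.mono' hsub
      obtain ⟨g, hg, hrg⟩ := exi hr (C := X ∪ (C ∩ Y).erase y) (A := Y.erase y) (by omega)
      have hgY : g ∈ Y := mem_of_mem_erase hg
      have hgy : g ≠ y := (mem_erase.1 hg).1
      have hgC : g ∉ C := by
        intro h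
        rw [insert_eq_of_mem (mem_union_right _
          (mem_erase.2 ⟨hgy, mem_inter.2 ⟨h, hgY⟩⟩))] at hrg
        omega
      have hQc : (insert g ((C ∩ Y).erase y)).card = (C ∩ Y).card := by
        rw [card_insert_of_notMem, hDc]
        intro h
        exact hgC (mem_inter.1 (mem_of_mem_erase h)).1
      have hXP : r X + (C ∩ Y).card ≤ r (X ∪ (C ∩ Y)) := by
        rw [← hCu, hX, hXk]
      have hXQ : r X + (insert g ((C ∩ Y).erase y)).card ≤
          r (X ∪ insert g ((C ∩ Y).erase y)) := by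
        have h4 : r (X ∪ (C ∩ Y)) ≤ r (X ∪ (C ∩ Y).erase y) + 1 := by
          have h5 := hr.unit (X ∪ (C ∩ Y).erase y) y
          rwa [← union_insert, insert_erase hyP] at h5
        rw [union_insert, hQc]
        omega
      refine ⟨_, fin_step hr hL hd hSe hY f2 hy hyC hgY hgy hgC fun A hA => ?_,
        Or.inr ⟨g, mem_union_right _ hgY, rfl⟩⟩
      have hW : (C ∩ X) ∪ A ⊆ X := union_subset inter_subset_right hA
      rw [eC A, eC' g A, union_comm (insert g ((C ∩ Y).erase y)), union_comm (C ∩ Y),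
        skew hr hW hXQ, skew hr hW hXP, hQc]
  · by_cases hyc : r (insert y C) = r C
    · exact ⟨C, hL.loop hr hyC hyc, Or.inl rfl⟩
    · have h3 := hr.mono C y
      have h4 : r (insert y C) ≤ r (C ∪ Y) := hr.mono' (insert_subset (mem_union_right _ hy)
        subset_union_left)
      have h5 : r (Y.erase y ∪ C) = r (Y ∪ C) := span hr (erase_subset _ _) f2 C
      rw [union_comm, union_comm Y] at h5
      obtain ⟨x, hx, hrx⟩ := exi hr (C := C) (A := Y.erase y) (by omega)
      have hxY : x ∈ Y := mem_of_mem_erase hx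
      have hxy : x ≠ y := (mem_erase.1 hx).1
      have hxC : x ∉ C := by
        intro h
        rw [insert_eq_of_mem h] at hrx
        omega
      have h6 : r (insert y (insert x C)) ≤ r (C ∪ Y) := hr.mono' (insert_subset
        (mem_union_right _ hy) (insert_subset (mem_union_right _ hxY) subset_union_left))
      have h7 := hr.mono (insert x C) y
      exact ⟨C, hL.par hr hyC (mem_union_right _ hxY) hxC hxy hrx (by omega), Or.inl rfl⟩

end Pool.Agent.PM
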