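import Pool.Agent.PM.RA
import Pool.Agent.G4.R3

set_option autoImplicit false

/-!
# Module RE: cosimplification; coextension of a 3-connected matroid
-/

namespace Pool.Agent.PM

open Finset
open Pool.Agent.G4 (IsRk ctr lam dualR Conn3 lam_compl ctr_ctr ctr_empty)

variable {q : ℕ} {r r' : Finset ℕ → ℤ} {S S' T R X Y Z A B C D Q : Finset ℕ} {a b x y e : ℕ}

/-- the element `b` is a coloop of `F ∪ {b}` for `F ⊆ S \ {a, b}` -/
private theorem re_step1 (hr : IsRk r) {a b : ℕ} {F : Finset ℕ} (hab : a ≠ b) (hb : b ∈ S)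
    (h1 : r (S \ {a, b}) < r S) (h2 : r (S.erase a) = r S) (hF : F ⊆ S \ {a, b}) :
    r (insert b F) = r F + 1 := by
  have h3 := hr.unit F b
  have hd : Disjoint ({b} : Finset ℕ) (S \ {a, b}) := by
    rw [Finset.disjoint_singleton_left]
    simp
  have h4 := hr.submod hF hd
  have h5 : (S \ {a, b}) ∪ {b} = S.erase a := by
    ext x
    simp only [Finset.mem_union, Finset.mem_sdiff, Finset.mem_insert, Finset.mem_singleton,
      Finset.mem_erase]
    constructor
    · rintro (⟨h6, h7⟩ | rfl)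
      · exact ⟨fun h8 => h7 (Or.inl h8), h6⟩
      · exact ⟨fun h8 => hab h8.symm, hb⟩
    · rintro ⟨h6, h7⟩
      by_cases h8 : x = b
      · exact Or.inr h8
      · exact Or.inl ⟨h7, fun h9 => h9.elim h6 h8⟩
  have h6 : F ∪ {b} = insert b F := by
    rw [Finset.union_comm, ← Finset.insert_eq]
  rw [h5, h2, h6] at h4
  omega

/-- the elements of series pairs are independent over sets that avoid the partners -/
theorem rkQ (hr : IsRk r) {p : ℕ → ℕ} (hRT : R ⊆ T)
    (hp : ∀ b ∈ R, p b ∈ T \ R ∧ r (T \ {p b, b}) < r T ∧ r (T.erase (p b)) = r T)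
    {F R₀ : Finset ℕ} (hR₀ : R₀ ⊆ R) (hF : F ⊆ T) (hd : ∀ b ∈ R₀, b ∉ F ∧ p b ∉ F) :
    r (F ∪ R₀) = r F + (R₀.card : ℤ) := by
  induction R₀ using Finset.induction_on with
  | empty => simp
  | insert b R₁ hb ih =>
    have h1 := ih (fun x hx => hR₀ (Finset.mem_insert_of_mem hx))
      (fun x hx => hd x (Finset.mem_insert_of_mem hx))
    have hbR : b ∈ R := hR₀ (Finset.mem_insert_self _ _)
    obtain ⟨k1, k2, k3⟩ := hp b hbR
    rw [Finset.mem_sdiff] at k1
    have hab : p b ≠ b := fun h => k1.2 (by rw [h]; exact hbR)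
    obtain ⟨hbF, hpF⟩ := hd b (Finset.mem_insert_self _ _)
    have h2 : F ∪ R₁ ⊆ T \ {p b, b} := by
      intro x hx
      rw [Finset.mem_sdiff, Finset.mem_insert, Finset.mem_singleton]
      rcases Finset.mem_union.1 hx with hx | hx
      · refine ⟨hF hx, ?_⟩
        rintro (rfl | rfl)
        · exact hpF hx
        · exact hbF hx
      · have hxR : x ∈ R := hR₀ (Finset.mem_insert_of_mem hx)
        refine ⟨hRT hxR, ?_⟩
        rintro (rfl | rfl)
        · exact k1.2 hxR
        · exact hb hx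
    have h3 := re_step1 hr hab (hRT hbR) k2 k3 h2
    have h4 : F ∪ insert b R₁ = insert b (F ∪ R₁) := by
      rw [Finset.union_insert]
    rw [h4, h3, h1, Finset.card_insert_of_notMem hb]
    push_cast
    ring

/-- connectivity of `T \ R` in the contraction of the elements `R` of series pairs -/
theorem lamQ (hr : IsRk r) {p : ℕ → ℕ} (hRT : R ⊆ T)
    (hp : ∀ b ∈ R, p b ∈ T \ R ∧ r (T \ {p b, b}) < r T ∧ r (T.erase (p b)) = r T)
    (hX : X ⊆ T \ R) :
    lam (ctr r R) (T \ R) X = lam r T (X ∪ R.filter fun b => p b ∈ X) ∧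
    T \ (X ∪ R.filter fun b => p b ∈ X) =
      ((T \ R) \ X) ∪ R.filter fun b => p b ∈ (T \ R) \ X := by
  have hX1 : ∀ x ∈ X, x ∈ T ∧ x ∉ R := fun x hx => Finset.mem_sdiff.1 (hX hx)
  have hpR : ∀ b ∈ R, p b ∈ T ∧ p b ∉ R := fun b hb => Finset.mem_sdiff.1 (hp b hb).1
  have hcomp : T \ (X ∪ R.filter fun b => p b ∈ X) =
      ((T \ R) \ X) ∪ R.filter fun b => p b ∈ (T \ R) \ X := by
    ext x
    simp only [Finset.mem_union, Finset.mem_sdiff, Finset.mem_filter]
    constructor
    · rintro ⟨h1, h2⟩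
      by_cases hxR : x ∈ R
      · right
        exact ⟨hxR, hpR x hxR, fun h3 => h2 (Or.inr ⟨hxR, h3⟩)⟩
      · left
        exact ⟨⟨h1, hxR⟩, fun h3 => h2 (Or.inl h3)⟩
    · rintro (⟨⟨h1, h2⟩, h3⟩ | ⟨h1, ⟨h2, h3⟩, h4⟩)
      · exact ⟨h1, fun h5 => h5.elim h3 (fun h6 => h2 h6.1)⟩
      · exact ⟨hRT h1, fun h5 => h5.elim (fun h6 => (hX1 x h6).2 h1) (fun h6 => h4 h6.2)⟩
  refine ⟨?_, hcomp⟩
  have hR : r R = (R.card : ℤ) := by
    have h1 := rkQ hr hRT hp (F := ∅) (R₀ := R) (Finset.Subset.refl R) (Finset.empty_subset _)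
      (fun b _ => ⟨Finset.notMem_empty _, Finset.notMem_empty _⟩)
    rw [Finset.empty_union, hr.empty, zero_add] at h1
    exact h1
  -- the set `X ∪ R`
  have e1 : r (X ∪ R) = r (X ∪ R.filter fun b => p b ∈ X) + ((R.filter fun b => p b ∉ X).card : ℤ) := by
    have h1 : X ∪ R = (X ∪ R.filter fun b => p b ∈ X) ∪ R.filter fun b => p b ∉ X := by
      rw [Finset.union_assoc, Finset.filter_union_filter_not_eq]
    rw [h1]
    refine rkQ hr hRT hp (Finset.filter_subset _ _) ?_ ?_
    · intro x hx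
      rcases Finset.mem_union.1 hx with hx | hx
      · exact (hX1 x hx).1
      · exact hRT (Finset.mem_filter.1 hx).1
    · intro b hb
      obtain ⟨hb1, hb2⟩ := Finset.mem_filter.1 hb
      constructor
      · intro h3
        rcases Finset.mem_union.1 h3 with h3 | h3
        · exact (hX1 b h3).2 hb1
        · exact hb2 (Finset.mem_filter.1 h3).2
      · intro h3
        rcases Finset.mem_union.1 h3 with h3 | h3
        · exact hb2 h3
        · exact (hpR b hb1).2 (Finset.mem_filter.1 h3).1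
  have e2 : r (((T \ R) \ X) ∪ R) = r (((T \ R) \ X) ∪ R.filter fun b => p b ∈ (T \ R) \ X) +
      ((R.filter fun b => p b ∉ (T \ R) \ X).card : ℤ) := by
    have h1 : ((T \ R) \ X) ∪ R = (((T \ R) \ X) ∪ R.filter fun b => p b ∈ (T \ R) \ X) ∪
        R.filter fun b => p b ∉ (T \ R) \ X := by
      rw [Finset.union_assoc, Finset.filter_union_filter_not_eq]
    rw [h1]
    refine rkQ hr hRT hp (Finset.filter_subset _ _) ?_ ?_
    · intro x hx
      rcases Finset.mem_union.1 hx with hx | hx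
      · exact (Finset.mem_sdiff.1 (Finset.mem_sdiff.1 hx).1).1
      · exact hRT (Finset.mem_filter.1 hx).1
    · intro b hb
      obtain ⟨hb1, hb2⟩ := Finset.mem_filter.1 hb
      constructor
      · intro h3
        rcases Finset.mem_union.1 h3 with h3 | h3
        · exact (Finset.mem_sdiff.1 (Finset.mem_sdiff.1 h3).1).2 hb1
        · exact hb2 (Finset.mem_filter.1 h3).2
      · intro h3
        rcases Finset.mem_union.1 h3 with h3 | h3
        · exact hb2 h3
        · exact (hpR b hb1).2 (Finset.mem_filter.1 h3).1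
  have e3 : (R.filter fun b => p b ∉ (T \ R) \ X) = R.filter fun b => p b ∈ X := by
    ext x
    simp only [Finset.mem_filter, Finset.mem_sdiff]
    constructor
    · rintro ⟨h1, h2⟩
      refine ⟨h1, ?_⟩
      by_contra h3
      exact h2 ⟨hpR x h1, h3⟩
    · rintro ⟨h1, h2⟩
      exact ⟨h1, fun h3 => h3.2 h2⟩
  have e4 : ((R.filter fun b => p b ∈ X).card : ℤ) + ((R.filter fun b => p b ∉ X).card : ℤ) = R.card := by
    exact_mod_cast Finset.card_filter_add_card_filter_not (s := R) (fun b => p b ∈ X)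
  have e5 : R ∪ (T \ R) = T := Finset.union_sdiff_of_subset hRT
  rw [e3] at e2
  simp only [lam, ctr]
  rw [hcomp, e5, Finset.union_comm R X, Finset.union_comm R ((T \ R) \ X), e1, e2, hR]
  linarith

/-- two elements outside `R` are not a pair of connectivity one -/
private theorem re_step4 {X Z : Finset ℕ}
    (hm : ∀ a ∈ T, ∀ b ∈ T, a ≠ b → lam r T {a, b} ≤ 1 → a ∈ R ∨ b ∈ R) (hX : X ⊆ T \ R)
    (h2 : 2 ≤ X.card) (hZ : X ⊆ Z) (hZc : Z.card ≤ 2) (hl : lam r T Z ≤ 1) : False := by
  have h1 : X = Z := Finset.eq_of_subset_of_card_le hZ (by omega)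
  subst h1
  have h3 : X.card = 2 := le_antisymm hZc h2
  obtain ⟨u, w, huw, rfl⟩ := Finset.card_eq_two.1 h3
  have hu := Finset.mem_sdiff.1 (hX (Finset.mem_insert_self u {w}))
  have hw := Finset.mem_sdiff.1 (hX (Finset.mem_insert_of_mem (Finset.mem_singleton_self w)))
  rcases hm u hu.1 w hw.1 huw hl with h | h
  · exact hu.2 h
  · exact hw.2 h

theorem co_conn (hr : IsRk r) (hS : Conn3 r S) (hy : y ∈ S)
    (hno : ∀ X ⊆ S.erase y, lam r (S.erase y) X ≤ 1 → X.card ≤ 2 ∨ (S.erase y \ X).card ≤ 2)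
    (hR : R ⊆ S.erase y)
    (hp : ∀ b ∈ R, ∃ a ∈ S.erase y, a ∉ R ∧ lam r (S.erase y) {a, b} ≤ 1)
    (hm : ∀ a ∈ S.erase y, ∀ b ∈ S.erase y, a ≠ b → lam r (S.erase y) {a, b} ≤ 1 → a ∈ R ∨ b ∈ R)
    (h4 : 4 ≤ (S.erase y \ R).card) : Conn3 (ctr r R) (S.erase y \ R) := by
  have hyy : r (S.erase y) = r S := by
    have h1 := hS.corank hr hy hy
    have h2 : S \ {y, y} = S.erase y := by
      rw [Finset.pair_eq_singleton, Finset.sdiff_singleton_eq_erase]
    rwa [h2] at h1
  have hex : ∀ b, ∃ a, b ∈ R → a ∈ S.erase y \ R ∧ r (S.erase y \ {a, b}) < r (S.erase y) ∧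
      r ((S.erase y).erase a) = r (S.erase y) := by
    intro b
    by_cases hb : b ∈ R
    · obtain ⟨a, ha, haR, hl⟩ := hp b hb
      have hab : a ≠ b := fun h => haR (by rw [h]; exact hb)
      have haS : a ∈ S := (Finset.mem_erase.1 ha).2
      have hbS : b ∈ S := (Finset.mem_erase.1 (hR hb)).2
      refine ⟨a, fun _ => ⟨Finset.mem_sdiff.2 ⟨ha, haR⟩, ?_, ?_⟩⟩
      · have h1 := hS.rank_two hr haS hbS hab
        unfold lam at hl
        omega
      · have h1 := hS.corank hr hy haS
        have h2 : S \ {y, a} = (S.erase y).erase a := by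
          ext z
          simp only [Finset.mem_sdiff, Finset.mem_insert, Finset.mem_singleton, Finset.mem_erase]
          tauto
        rw [← h2, h1, hyy]
    · exact ⟨0, fun h => absurd h hb⟩
  choose p hp' using hex
  refine ⟨h4, ?_⟩
  intro X hX hXn hYn
  obtain ⟨h1, h2⟩ := lamQ hr hR hp' hX
  rw [h1]
  have hsub : X ∪ (R.filter fun b => p b ∈ X) ⊆ S.erase y := by
    intro x hx
    rcases Finset.mem_union.1 hx with hx | hx
    · exact (Finset.mem_sdiff.1 (hX hx)).1
    · exact hR (Finset.mem_filter.1 hx).1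
  refine ⟨?_, ?_⟩
  · refine hS.conn_erase hr hy hsub (hXn.mono Finset.subset_union_left) ?_
    rw [h2]
    exact hYn.mono Finset.subset_union_left
  · intro hX2 hY2
    by_contra h3
    have h4 : lam r (S.erase y) (X ∪ R.filter fun b => p b ∈ X) ≤ 1 := by omega
    rcases hno _ hsub h4 with h5 | h5
    · exact re_step4 hm hX hX2 Finset.subset_union_left h5 h4
    · rw [← lam_compl hsub, h2] at h4
      rw [h2] at h5
      exact re_step4 hm Finset.sdiff_subset hY2 Finset.subset_union_left h5 h4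

theorem conn3_of_ctr (hr : IsRk r) (hx : x ∈ S) (h1 : r {x} = 1)
    (hc : ∀ s ∈ S, r (S \ {x, s}) = r S) (hC : Conn3 (ctr r {x}) (S.erase x)) : Conn3 r S := by
  have key : ∀ X ⊆ S, x ∈ X → (S \ X).Nonempty →
      1 ≤ lam r S X ∧ (2 ≤ X.card → 2 ≤ (S \ X).card → 2 ≤ lam r S X) := by
    intro X hX hxX hY
    have hX' : X.erase x ⊆ S.erase x := Finset.erase_subset_erase x hX
    have e1 : S.erase x \ X.erase x = S \ X := by
      ext z
      simp only [Finset.mem_sdiff, Finset.mem_erase]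
      constructor
      · rintro ⟨⟨h2, h3⟩, h4⟩
        exact ⟨h3, fun h5 => h4 ⟨h2, h5⟩⟩
      · rintro ⟨h2, h3⟩
        exact ⟨⟨fun h4 => h3 (by rw [h4]; exact hxX), h2⟩, fun h4 => h3 h4.2⟩
    have e2 : ctr r {x} (X.erase x) = r X - 1 := by
      unfold Pool.Agent.G4.ctr
      rw [← Finset.insert_eq, Finset.insert_erase hxX, h1]
    have e3 : ctr r {x} (S.erase x) = r S - 1 := by
      unfold Pool.Agent.G4.ctr
      rw [← Finset.insert_eq, Finset.insert_erase hx, h1]
    have e4 : ctr r {x} (S \ X) ≤ r (S \ X) := by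
      unfold Pool.Agent.G4.ctr
      rw [← Finset.insert_eq, h1]
      have := hr.unit (S \ X) x
      omega
    have e5 : lam (ctr r {x}) (S.erase x) (X.erase x) ≤ lam r S X := by
      unfold lam
      rw [e1, e2, e3]
      omega
    rcases Nat.lt_or_ge (X.erase x).card 1 with h2 | h2
    · have h3 : X.erase x = ∅ := Finset.card_eq_zero.1 (by omega)
      have h4 : X = {x} := by
        rw [← Finset.insert_erase hxX, h3]
        rfl
      have h5 := hc x hx
      rw [Finset.pair_eq_singleton] at h5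
      have h6 : lam r S X = 1 := by
        unfold lam
        rw [h4, h1, h5]
        omega
      refine ⟨h6.ge, fun h7 => ?_⟩
      rw [h4, Finset.card_singleton] at h7
      omega
    · have h3 : (X.erase x).Nonempty := Finset.card_pos.1 (by omega)
      have h4 := hC.2 (X.erase x) hX' h3 (by rw [e1]; exact hY)
      rw [e1] at h4
      refine ⟨h4.1.trans e5, fun h5 h6 => ?_⟩
      rcases Nat.lt_or_ge (X.erase x).card 2 with h7 | h7
      · obtain ⟨s, hs⟩ := Finset.card_eq_one.1 (show (X.erase x).card = 1 by omega)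
        have hsX : s ∈ X.erase x := by rw [hs]; exact Finset.mem_singleton_self s
        have hsS : s ∈ S.erase x := hX' hsX
        have h8 : X = {x, s} := by
          rw [← Finset.insert_erase hxX, hs]
        have h9 := Conn3.rank_one (hr.ctr {x}) hC hsS
        unfold Pool.Agent.G4.ctr at h9
        rw [← Finset.insert_eq, h1] at h9
        have h10 := hc s (Finset.mem_erase.1 hsS).2
        unfold lam
        rw [h8, h10]
        omega
      · exact (h4.2 h7 h6).trans e5
  refine ⟨?_, fun X hX hXn hYn => ?_⟩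
  · have h2 := hC.1
    have h3 := Finset.card_le_card (Finset.erase_subset x S)
    omega
  · by_cases hxX : x ∈ X
    · exact key X hX hxX hYn
    · have h2 := key (S \ X) Finset.sdiff_subset (Finset.mem_sdiff.2 ⟨hx, hxX⟩)
        (by rw [Finset.sdiff_sdiff_eq_self hX]; exact hXn)
      rw [lam_compl hX, Finset.sdiff_sdiff_eq_self hX] at h2
      exact ⟨h2.1, fun h3 h4 => h2.2 h4 h3⟩

private theorem re_ctrs (Q : Finset ℕ) : ∀ (r : Finset ℕ → ℤ) (S : Finset ℕ), IsRk r → Q ⊆ S →
    r Q = Q.card → (∀ s ∈ S, ∀ s' ∈ S, r (S \ {s, s'}) = r S) → Conn3 (ctr r Q) (S \ Q) →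
    Conn3 r S := by
  induction Q using Finset.induction_on with
  | empty =>
    intro r S hr _ _ _ hC
    rw [Finset.sdiff_empty] at hC
    exact (Conn3.congr fun X _ => ctr_empty hr X).1 hC
  | insert x Q hxQ ih =>
    intro r S hr hQ h1 hc hC
    have hx : x ∈ S := hQ (Finset.mem_insert_self _ _)
    have hQS : Q ⊆ S.erase x := by
      intro z hz
      exact Finset.mem_erase.2 ⟨fun h => hxQ (by rw [← h]; exact hz),
        hQ (Finset.mem_insert_of_mem hz)⟩
    have hcard : ((insert x Q).card : ℤ) = Q.card + 1 := by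
      rw [Finset.card_insert_of_notMem hxQ]
      push_cast
      ring
    have hx1 : r {x} = 1 := by
      have h2 := hr.union_le {x} Q
      rw [← Finset.insert_eq, h1, hcard] at h2
      have h3 := hr.le_card {x}
      rw [Finset.card_singleton] at h3
      push_cast at h3
      omega
    refine conn3_of_ctr hr hx hx1 (fun s hs => hc x hx s hs) ?_
    refine ih (ctr r {x}) (S.erase x) (hr.ctr {x}) hQS ?_ ?_ ?_
    · unfold Pool.Agent.G4.ctr
      rw [← Finset.insert_eq, h1, hcard, hx1]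
      omega
    · intro s hs s' hs'
      have hs1 := Finset.mem_erase.1 hs
      have hs2 := Finset.mem_erase.1 hs'
      unfold Pool.Agent.G4.ctr
      have e1 : {x} ∪ (S.erase x \ {s, s'}) = S \ {s, s'} := by
        ext z
        simp only [Finset.mem_union, Finset.mem_singleton, Finset.mem_sdiff, Finset.mem_erase,
          Finset.mem_insert]
        constructor
        · rintro (rfl | ⟨⟨_, h3⟩, h4⟩)
          · refine ⟨hx, ?_⟩
            rintro (h5 | h5)
            · exact hs1.1 h5.symm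
            · exact hs2.1 h5.symm
          · exact ⟨h3, h4⟩
        · rintro ⟨h3, h4⟩
          by_cases h5 : z = x
          · exact Or.inl h5
          · exact Or.inr ⟨⟨h5, h3⟩, h4⟩
      have e2 : {x} ∪ S.erase x = S := by
        rw [← Finset.insert_eq, Finset.insert_erase hx]
      rw [e1, e2, hc s hs1.2 s' hs2.2]
    · have e1 : S.erase x \ Q = S \ insert x Q := by
        ext z
        simp only [Finset.mem_sdiff, Finset.mem_erase, Finset.mem_insert]
        tauto
      rw [e1]
      refine (Conn3.congr fun X _ => ?_).2 hC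
      rw [ctr_ctr, ← Finset.insert_eq]

theorem conn3_of_ctrs (hr : IsRk r) (hQ : Q ⊆ S) (h1 : r Q = Q.card)
    (hc : ∀ s ∈ S, ∀ s' ∈ S, r (S \ {s, s'}) = r S) (hC : Conn3 (ctr r Q) (S \ Q)) :
    Conn3 r S :=
  re_ctrs Q r S hr hQ h1 hc hC

end Pool.Agent.PM
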