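import Pool.Agent.PM.RE

set_option autoImplicit false

/-!
# Module RF: contraction of all series pairs but one

`T = S.erase y`. `{a, b}` is a pair of connectivity one in `T`; `Q ⊆ T` avoids `a`, `b`; every `c ∈ Q` has a
partner `p c ∈ T`, not in `Q` and not in `{a, b}`; every pair of connectivity one different from `{a, b}` meets `Q`; the pairs are disjoint (`hdis`).
`y` is not in the closure of `Q ∪ {a, b}`. Then the contraction of `Q` (in `S`, with `y`) is 3-connected.

Proof: `lamQ`, `rkQ`, and the 3-connectivity of the matroid on `S`.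
-/

namespace Pool.Agent.PM

open Finset
open Pool.Agent.G4 (IsRk ctr lam dualR Conn3)

variable {r : Finset ℕ → ℤ} {S Q : Finset ℕ} {a b y : ℕ}

theorem conn3_part (hr : IsRk r) (hS : Conn3 r S) (h8 : 8 ≤ S.card) (hy : y ∈ S)
    (hno : ∀ X ⊆ S.erase y, lam r (S.erase y) X ≤ 1 → X.card ≤ 2 ∨ (S.erase y \ X).card ≤ 2)
    (hdis : ∀ c ∈ S.erase y, ∀ d ∈ S.erase y, ∀ e ∈ S.erase y, c ≠ d → d ≠ e → c ≠ e →
      ¬ (lam r (S.erase y) {c, d} ≤ 1 ∧ lam r (S.erase y) {d, e} ≤ 1))
    (ha : a ∈ S.erase y) (hb : b ∈ S.erase y) (hab : a ≠ b)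
    (hl : lam r (S.erase y) {a, b} ≤ 1) (hQ : Q ⊆ S.erase y) (haQ : a ∉ Q) (hbQ : b ∉ Q)
    (hp : ∀ c ∈ Q, ∃ d ∈ S.erase y, d ∉ Q ∧ d ≠ a ∧ d ≠ b ∧ lam r (S.erase y) {d, c} ≤ 1)
    (hm : ∀ c ∈ S.erase y, ∀ d ∈ S.erase y, c ≠ d → lam r (S.erase y) {c, d} ≤ 1 →
      c ∈ Q ∨ d ∈ Q ∨ (c = a ∧ d = b) ∨ (c = b ∧ d = a))
    (hcl : r (insert y (Q ∪ {a, b})) = r (Q ∪ {a, b}) + 1) : Conn3 (ctr r Q) (S \ Q) := by
  classical
  obtain ⟨T, hT⟩ : ∃ T, T = S.erase y := ⟨_, rfl⟩
  rw [← hT] at hno hdis ha hb hl hQ hp hm
  have hTS : T ⊆ S := by rw [hT]; exact erase_subset _ _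
  have hyT : y ∉ T := by rw [hT]; exact notMem_erase y S
  have hyQ : y ∉ Q := fun h => hyT (hQ h)
  have hQS : Q ⊆ S := hQ.trans hTS
  have haS : a ∈ S := hTS ha
  have hbS : b ∈ S := hTS hb
  have hya : y ≠ a := fun e => hyT (by rw [e]; exact ha)
  have hyb : y ≠ b := fun e => hyT (by rw [e]; exact hb)
  -- ranks
  have hrT : r T = r S := by
    have h1 := Conn3.corank hr hS hy hy
    have h2 : S \ {y, y} = T := by
      rw [hT]
      ext x
      simp only [mem_sdiff, mem_insert, mem_singleton, or_self, mem_erase]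
      tauto
    rw [h2] at h1
    exact h1
  have hlow : ∀ c ∈ T, ∀ d ∈ T, c ≠ d → lam r T {c, d} ≤ 1 → r (T \ {c, d}) < r T := by
    intro c hc d hd hcd h1
    have h2 := hS.rank_two hr (hTS hc) (hTS hd) hcd
    unfold lam at h1
    omega
  have hpex : ∀ c, ∃ d, c ∈ Q → d ∈ T ∧ d ∉ Q ∧ d ≠ a ∧ d ≠ b ∧ lam r T {d, c} ≤ 1 := by
    intro c
    by_cases hc : c ∈ Q
    · obtain ⟨d, hd⟩ := hp c hc
      exact ⟨d, fun _ => hd⟩
    · exact ⟨0, fun h => absurd h hc⟩
  choose p hp' using hpex
  have hpc : ∀ c ∈ Q, p c ≠ c := fun c hc e => (hp' c hc).2.1 (by rw [e]; exact hc)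
  have hpQ : ∀ c ∈ Q, p c ∈ T \ Q ∧ r (T \ {p c, c}) < r T ∧ r (T.erase (p c)) = r T := by
    intro c hc
    obtain ⟨h1, h2, -, -, h5⟩ := hp' c hc
    refine ⟨mem_sdiff.2 ⟨h1, h2⟩, hlow _ h1 _ (hQ hc) (hpc c hc) h5, ?_⟩
    have h6 := Conn3.corank hr hS hy (hTS h1)
    have h7 : S \ {y, p c} = T.erase (p c) := by
      rw [hT]
      ext x
      simp only [mem_sdiff, mem_insert, mem_singleton, mem_erase]
      tauto
    rw [h7] at h6
    rw [h6, hrT]
  have hpinj : ∀ c ∈ Q, ∀ c' ∈ Q, p c = p c' → c = c' := by
    intro c hc c' hc' e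
    by_contra hne
    have h1 := (hp' c hc).2.2.2.2
    have h2 := (hp' c' hc').2.2.2.2
    rw [← e] at h2
    rw [pair_comm] at h1
    exact hdis c (hQ hc) (p c) (hp' c hc).1 c' (hQ hc') (hpc c hc).symm
      (by rw [e]; exact hpc c' hc') hne ⟨h1, h2⟩
  have hrQ : r Q = (Q.card : ℤ) := by
    have h1 := rkQ hr hQ hpQ (F := ∅) (R₀ := Q) subset_rfl (empty_subset _)
      (fun b _ => ⟨notMem_empty _, notMem_empty _⟩)
    rw [empty_union, hr.empty, zero_add] at h1
    exact h1
  have hrQab : r (Q ∪ {a, b}) = (Q.card : ℤ) + 2 := by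
    have h1 := rkQ hr hQ hpQ (F := {a, b}) (R₀ := Q) subset_rfl
      (insert_subset ha (singleton_subset_iff.2 hb)) (fun c hc => by
        simp only [mem_insert, mem_singleton, not_or]
        refine ⟨⟨?_, ?_⟩, (hp' c hc).2.2.1, (hp' c hc).2.2.2.1⟩
        · rintro rfl
          exact haQ hc
        · rintro rfl
          exact hbQ hc)
    rw [union_comm, h1, hS.rank_two hr haS hbS hab]
    ring
  -- `y` is not in the closure of subsets of `Q ∪ {a, b}`
  have hcl' : ∀ A : Finset ℕ, A ⊆ Q ∪ {a, b} → r A + 1 ≤ r (A ∪ {y}) := by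
    intro A hA
    have h1 : Disjoint ({y} : Finset ℕ) (Q ∪ {a, b}) := by
      rw [disjoint_singleton_left]
      simp only [mem_union, mem_insert, mem_singleton, not_or]
      exact ⟨hyQ, hya, hyb⟩
    have h2 := hr.submod hA h1
    have h3 : (Q ∪ {a, b}) ∪ {y} = insert y (Q ∪ {a, b}) := by
      rw [union_comm]
      rfl
    rw [h3, hcl] at h2
    omega
  have hSQ : Q ∪ (S \ Q) = S := union_sdiff_of_subset hQS
  have hlam : ∀ X, lam (ctr r Q) (S \ Q) X =
      r (Q ∪ X) + r (Q ∪ ((S \ Q) \ X)) - r S - (Q.card : ℤ) := by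
    intro X
    unfold lam ctr
    rw [hSQ, hrQ]
    omega
  have hrk' := hr.ctr Q
  have hTQ : (S \ Q).erase y = T \ Q := by
    rw [hT]
    ext x
    simp only [mem_sdiff, mem_erase]
    tauto
  have hyS' : y ∈ S \ Q := mem_sdiff.2 ⟨hy, hyQ⟩
  -- the main part
  have main : ∀ X ⊆ T \ Q, X.Nonempty → 1 ≤ lam (ctr r Q) (S \ Q) X ∧
      (2 ≤ X.card → 2 ≤ ((S \ Q) \ X).card → 2 ≤ lam (ctr r Q) (S \ Q) X) := by
    intro X hX hXn
    have hXT : X ⊆ T := hX.trans sdiff_subset
    have hyX : y ∉ X := fun h => hyT (hXT h)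
    obtain ⟨hL1, hL2⟩ := lamQ hr hQ hpQ hX
    have hL3 := (Pool.Agent.G4.lam_erase hrk' hyS' (X := X) (by rw [hTQ]; exact hX)).1
    rw [hTQ, hL1] at hL3
    have hsub : X ∪ (Q.filter fun b => p b ∈ X) ⊆ T :=
      union_subset hXT ((filter_subset _ _).trans hQ)
    have hY : (S \ Q) \ X = insert y ((T \ Q) \ X) := by
      rw [hT]
      ext x
      simp only [mem_sdiff, mem_insert, mem_erase]
      constructor
      · rintro ⟨⟨h1, h2⟩, h3⟩
        by_cases h4 : x = y
        · exact Or.inl h4
        · exact Or.inr ⟨⟨⟨h4, h1⟩, h2⟩, h3⟩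
      · rintro (rfl | ⟨⟨⟨h1, h2⟩, h3⟩, h4⟩)
        · exact ⟨⟨hy, hyQ⟩, hyX⟩
        · exact ⟨⟨h2, h3⟩, h4⟩
    have hyTQX : y ∉ (T \ Q) \ X := fun h => hyT (mem_sdiff.1 (mem_sdiff.1 h).1).1
    constructor
    · by_cases hE : (T \ Q) \ X = ∅
      · rw [hlam, hY, hE]
        have h1 : Q ∪ X = T := by
          ext x
          rw [mem_union]
          constructor
          · rintro (h2 | h2)
            · exact hQ h2
            · exact hXT h2
          · intro h2
            by_contra h3
            rw [not_or] at h3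
            exact notMem_empty x (by rw [← hE]; exact mem_sdiff.2 ⟨mem_sdiff.2 ⟨h2, h3.1⟩, h3.2⟩)
        have h2 := hcl' Q subset_union_left
        have h3 : Q ∪ insert y ∅ = Q ∪ {y} := by rw [insert_empty_eq]
        rw [h1, h3, hrT]
        omega
      · have h1 : 1 ≤ lam r T (X ∪ Q.filter fun b => p b ∈ X) := by
          rw [hT]
          rw [hT] at hsub hL2 hE
          refine Conn3.conn_erase hr hS hy hsub (hXn.mono subset_union_left) ?_
          rw [hL2]
          exact (nonempty_iff_ne_empty.2 hE).mono subset_union_left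
        omega
    · intro hX2 hY2
      by_contra hcon
      have hle : lam (ctr r Q) (S \ Q) X ≤ 1 := by omega
      rw [hY, card_insert_of_notMem hyTQX] at hY2
      by_cases h1c : ((T \ Q) \ X).card = 1
      · obtain ⟨z, hz⟩ := card_eq_one.1 h1c
        have hzm : z ∈ (T \ Q) \ X := by rw [hz]; exact mem_singleton_self z
        obtain ⟨hzTQ, hzX⟩ := mem_sdiff.1 hzm
        obtain ⟨hzT, hzQ⟩ := mem_sdiff.1 hzTQ
        have hyz : y ≠ z := fun e => hyT (by rw [e]; exact hzT)
        have e1 : Q ∪ X = S \ {y, z} := by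
          ext x
          rw [mem_union, mem_sdiff, mem_insert, mem_singleton, not_or]
          constructor
          · rintro (h2 | h2)
            · exact ⟨hQS h2, fun e => hyQ (by rw [← e]; exact h2), fun e => hzQ (by rw [← e]; exact h2)⟩
            · exact ⟨hTS (hXT h2), fun e => hyX (by rw [← e]; exact h2),
                fun e => hzX (by rw [← e]; exact h2)⟩
          · rintro ⟨h2, h3, h4⟩
            by_contra h5
            rw [not_or] at h5
            have h6 : x ∈ (T \ Q) \ X := mem_sdiff.2 ⟨mem_sdiff.2 ⟨by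
              rw [hT]
              exact mem_erase.2 ⟨h3, h2⟩, h5.1⟩, h5.2⟩
            rw [hz, mem_singleton] at h6
            exact h4 h6
        rw [hlam, hY, hz, e1, Conn3.corank hr hS hy (hTS hzT)] at hle
        -- the rank of `Q + z`
        have hrz : r (Q ∪ {z}) = (Q.card : ℤ) + 1 := by
          by_cases hzp : ∃ c ∈ Q, p c = z
          · obtain ⟨c, hc, hcz⟩ := hzp
            have hcz' : c ≠ z := fun e => hzQ (by rw [← e]; exact hc)
            have h2 := rkQ hr hQ hpQ (F := {c, z}) (R₀ := Q.erase c) (erase_subset _ _)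
              (insert_subset (hQ hc) (singleton_subset_iff.2 hzT)) (fun d hd => by
                obtain ⟨hd1, hd2⟩ := mem_erase.1 hd
                simp only [mem_insert, mem_singleton, not_or]
                refine ⟨⟨hd1, fun e => hzQ (by rw [← e]; exact hd2)⟩, ?_, ?_⟩
                · intro e
                  exact (hp' d hd2).2.1 (by rw [e]; exact hc)
                · intro e
                  exact hd1 (hpinj d hd2 c hc (by rw [e, hcz])))
            have h3 : ({c, z} : Finset ℕ) ∪ Q.erase c = Q ∪ {z} := by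
              ext x
              simp only [mem_union, mem_insert, mem_singleton, mem_erase]
              constructor
              · rintro ((rfl | h4) | ⟨-, h4⟩)
                · exact Or.inl hc
                · exact Or.inr h4
                · exact Or.inl h4
              · rintro (h4 | h4)
                · by_cases h5 : x = c
                  · exact Or.inl (Or.inl h5)
                  · exact Or.inr ⟨h5, h4⟩
                · exact Or.inl (Or.inr h4)
            rw [h3, hS.rank_two hr (hQS hc) (hTS hzT) hcz', card_erase_of_mem hc] at h2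
            have h4 : 0 < Q.card := card_pos.2 ⟨c, hc⟩
            rw [h2]
            push_cast [Nat.cast_sub (show 1 ≤ Q.card from h4)]
            ring
          · have h2 := rkQ hr hQ hpQ (F := {z}) (R₀ := Q) subset_rfl (singleton_subset_iff.2 hzT)
              (fun d hd => by
                rw [mem_singleton, mem_singleton]
                exact ⟨fun e => hzQ (by rw [← e]; exact hd), fun e => hzp ⟨d, hd, e⟩⟩)
            rw [union_comm, h2, hS.rank_one hr (hTS hzT)]
            ring
        have e2 : Q ∪ {y, z} = (Q ∪ {z}) ∪ {y} := by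
          ext x
          simp only [mem_union, mem_insert, mem_singleton]
          tauto
        have e3 : Q ∪ insert y {z} = (Q ∪ {z}) ∪ {y} := e2
        rw [e3] at hle
        by_cases hzab : z = a ∨ z = b
        · have h2 : Q ∪ {z} ⊆ Q ∪ {a, b} := by
            apply union_subset_union subset_rfl
            rw [singleton_subset_iff, mem_insert, mem_singleton]
            exact hzab
          have h3 := hcl' _ h2
          rw [hrz] at h3
          omega
        · rw [not_or] at hzab
          have h2 : Q ∪ {z} ⊆ T \ {a, b} := by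
            intro x hx
            rw [mem_union, mem_singleton] at hx
            rw [mem_sdiff, mem_insert, mem_singleton, not_or]
            rcases hx with hx | rfl
            · refine ⟨hQ hx, ?_, ?_⟩
              · rintro rfl
                exact haQ hx
              · rintro rfl
                exact hbQ hx
            · exact ⟨hzT, hzab.1, hzab.2⟩
          have h3 : Disjoint ({y} : Finset ℕ) (T \ {a, b}) := by
            rw [disjoint_singleton_left]
            exact fun h => hyT (mem_sdiff.1 h).1
          have h4 := hr.submod h2 h3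
          have h5 : T \ {a, b} ∪ {y} = S \ {a, b} := by
            rw [hT]
            ext x
            simp only [mem_union, mem_sdiff, mem_erase, mem_insert, mem_singleton, not_or]
            constructor
            · rintro (⟨⟨h6, h7⟩, h8⟩ | rfl)
              · exact ⟨h7, h8⟩
              · exact ⟨hy, hya, hyb⟩
            · rintro ⟨h6, h7⟩
              by_cases h8 : x = y
              · exact Or.inr h8
              · exact Or.inl ⟨⟨h8, h6⟩, h7⟩
          rw [h5, Conn3.corank hr hS haS hbS, hrz] at h4
          have h6 := hlow a ha b hb hab hl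
          rw [hrT] at h6
          omega
      · have h2c : 2 ≤ ((T \ Q) \ X).card := by omega
        have hle2 : lam r T (X ∪ Q.filter fun b => p b ∈ X) ≤ 1 := by omega
        -- a pair outside `Q` of connectivity one is `{a, b}`
        have hpair : ∀ W Z : Finset ℕ, W ⊆ T \ Q → 2 ≤ W.card → W ⊆ Z → Z.card ≤ 2 → lam r T Z ≤ 1 →
            W = {a, b} := by
          intro W Z hW hW2 hWZ hZ2 hlZ
          have h2 : W = Z := eq_of_subset_of_card_le hWZ (by omega)
          subst h2
          obtain ⟨u, v, huv, rfl⟩ := card_eq_two.1 (le_antisymm hZ2 hW2)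
          have hu := mem_sdiff.1 (hW (mem_insert_self u {v}))
          have hv := mem_sdiff.1 (hW (mem_insert_of_mem (mem_singleton_self v)))
          rcases hm u hu.1 v hv.1 huv hlZ with h3 | h3 | ⟨h3, h4⟩ | ⟨h3, h4⟩
          · exact absurd h3 hu.2
          · exact absurd h3 hv.2
          · rw [h3, h4]
          · rw [h3, h4, pair_comm]
        rcases hno _ hsub hle2 with h3 | h3
        · have h4 := hpair X _ hX hX2 subset_union_left h3 hle2
          have h5 : Q ∪ ((S \ Q) \ X) = S \ {a, b} := by
            rw [h4]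
            ext x
            simp only [mem_union, mem_sdiff, mem_insert, mem_singleton, not_or]
            constructor
            · rintro (h6 | ⟨⟨h6, h7⟩, h8⟩)
              · refine ⟨hQS h6, ?_, ?_⟩
                · rintro rfl
                  exact haQ h6
                · rintro rfl
                  exact hbQ h6
              · exact ⟨h6, h8⟩
            · rintro ⟨h6, h7⟩
              by_cases h8 : x ∈ Q
              · exact Or.inl h8
              · exact Or.inr ⟨⟨h6, h8⟩, h7⟩
          rw [hlam, h5, h4, Conn3.corank hr hS haS hbS, hrQab] at hle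
          omega
        · have h4 : lam r T (T \ (X ∪ Q.filter fun b => p b ∈ X)) ≤ 1 := by
            rw [Pool.Agent.G4.lam_compl hsub]
            exact hle2
          rw [hL2] at h3 h4
          have h5 := hpair _ _ sdiff_subset h2c subset_union_left h3 h4
          have h6 : Q ∪ X = T \ {a, b} := by
            rw [← h5]
            ext x
            simp only [mem_union, mem_sdiff]
            constructor
            · rintro (h7 | h7)
              · exact ⟨hQ h7, fun h8 => h8.1.2 h7⟩
              · exact ⟨hXT h7, fun h8 => h8.2 h7⟩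
            · rintro ⟨h7, h8⟩
              by_contra h9
              rw [not_or] at h9
              exact h8 ⟨⟨h7, h9.1⟩, h9.2⟩
          have h7 : Q ∪ ((S \ Q) \ X) = insert y (Q ∪ {a, b}) := by
            rw [hY, h5, union_insert]
          have h8 : 1 ≤ lam r T {a, b} := by
            rw [hT]
            rw [hT] at ha hb
            refine Conn3.conn_erase hr hS hy (insert_subset ha (singleton_subset_iff.2 hb))
              ⟨a, mem_insert_self _ _⟩ ?_
            rw [← card_pos, card_sdiff_of_subset (insert_subset ha (singleton_subset_iff.2 hb)),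
              card_pair hab, card_erase_of_mem hy]
            omega
          unfold lam at h8
          rw [hS.rank_two hr haS hbS hab, hrT] at h8
          rw [hlam, h6, h7, hcl, hrQab] at hle
          omega
  refine ⟨?_, ?_⟩
  · -- the number of elements
    have h1 : Q.image p ∪ {a, b} ⊆ T \ Q := by
      intro x hx
      rw [mem_union, mem_image, mem_insert, mem_singleton] at hx
      rcases hx with ⟨c, hc, rfl⟩ | rfl | rfl
      · exact (hpQ c hc).1
      · exact mem_sdiff.2 ⟨ha, haQ⟩
      · exact mem_sdiff.2 ⟨hb, hbQ⟩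
    have h2 : Disjoint (Q.image p) {a, b} := by
      rw [disjoint_left]
      intro x hx hx'
      rw [mem_image] at hx
      obtain ⟨c, hc, rfl⟩ := hx
      rw [mem_insert, mem_singleton] at hx'
      rcases hx' with h3 | h3
      · exact (hp' c hc).2.2.1 h3
      · exact (hp' c hc).2.2.2.1 h3
    have h3 := card_le_card h1
    rw [card_union_of_disjoint h2, card_pair hab, card_image_of_injOn (fun c hc c' hc' e =>
      hpinj c (mem_coe.1 hc) c' (mem_coe.1 hc') e)] at h3
    have h4 : (T \ Q).card + Q.card = T.card := card_sdiff_add_card_eq_card hQ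
    have h5 : (S \ Q).card + Q.card = S.card := card_sdiff_add_card_eq_card hQS
    have h6 : T.card = S.card - 1 := by
      rw [hT, card_erase_of_mem hy]
    omega
  · intro X hX hXn hYn
    by_cases hyX : y ∈ X
    · have h1 : (S \ Q) \ X ⊆ T \ Q := by
        intro x hx
        obtain ⟨h2, h3⟩ := mem_sdiff.1 hx
        obtain ⟨h4, h5⟩ := mem_sdiff.1 h2
        refine mem_sdiff.2 ⟨?_, h5⟩
        rw [hT]
        exact mem_erase.2 ⟨fun e => h3 (by rw [e]; exact hyX), h4⟩
      obtain ⟨h2, h3⟩ := main _ h1 hYn
      rw [Pool.Agent.G4.lam_compl hX] at h2 h3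
      rw [Finset.sdiff_sdiff_eq_self hX] at h3
      exact ⟨h2, fun h4 h5 => h3 h5 h4⟩
    · have h1 : X ⊆ T \ Q := by
        intro x hx
        obtain ⟨h4, h5⟩ := mem_sdiff.1 (hX hx)
        refine mem_sdiff.2 ⟨?_, h5⟩
        rw [hT]
        exact mem_erase.2 ⟨fun e => hyX (by rw [← e]; exact hx), h4⟩
      exact main X h1 hXn

end Pool.Agent.PM
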