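import Pool.Agent.PM.RF

set_option autoImplicit false

/-!
# Module RG: deletion of an element without large 2-separations
-/

namespace Pool.Agent.PM

open Finset
open Pool.Agent.G4 (IsRk ctr lam dualR Conn3)

variable {r : Finset ℕ → ℤ} {S : Finset ℕ} {y e : ℕ}

private theorem rg_indep (hr : IsRk r) {A B : Finset ℕ} (hAB : A ⊆ B) (h : r B = (B.card : ℤ)) :
    r A = (A.card : ℤ) := by
  have h1 := hr.union_le A (B \ A)
  rw [union_sdiff_of_subset hAB] at h1
  have h2 := hr.le_card A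
  have h3 := card_sdiff_add_card_eq_card hAB
  omega

private theorem rg_final (hr : IsRk r) (hS : Conn3 r S) {Q : Finset ℕ} {x : ℕ} (hQS : Q ⊆ S)
    (hx : x ∈ Q) (hQ : r Q = (Q.card : ℤ)) (hC : Conn3 (ctr r Q) (S \ Q)) :
    Conn3 (ctr r {x}) (S.erase x) := by
  have hxS : x ∈ S := hQS hx
  have h1 : r {x} = 1 := hS.rank_one hr hxS
  have e1 : ({x} : Finset ℕ) ∪ Q.erase x = Q := by
    rw [← insert_eq, insert_erase hx]
  refine conn3_of_ctrs (hr.ctr {x}) (erase_subset_erase x hQS) ?_ ?_ ?_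
  · unfold Pool.Agent.G4.ctr
    rw [e1, h1, hQ, card_erase_of_mem hx]
    have : 0 < Q.card := card_pos.2 ⟨x, hx⟩
    omega
  · intro s hs s' hs'
    unfold Pool.Agent.G4.ctr
    have e2 : ({x} : Finset ℕ) ∪ (S.erase x \ {s, s'}) = S \ {s, s'} := by
      ext z
      simp only [mem_union, mem_singleton, mem_sdiff, mem_erase, mem_insert]
      constructor
      · rintro (rfl | ⟨⟨h2, h3⟩, h4⟩)
        · refine ⟨hxS, ?_⟩
          rintro (rfl | rfl)
          · exact (mem_erase.1 hs).1 rfl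
          · exact (mem_erase.1 hs').1 rfl
        · exact ⟨h3, h4⟩
      · rintro ⟨h2, h3⟩
        by_cases h4 : z = x
        · exact Or.inl h4
        · exact Or.inr ⟨⟨h4, h2⟩, h3⟩
    have e3 : ({x} : Finset ℕ) ∪ S.erase x = S := by
      rw [← insert_eq, insert_erase hxS]
    rw [e2, e3, hS.corank hr (mem_of_mem_erase hs) (mem_of_mem_erase hs')]
  · have e4 : S.erase x \ Q.erase x = S \ Q := by
      ext z
      simp only [mem_sdiff, mem_erase]
      constructor
      · rintro ⟨⟨h2, h3⟩, h4⟩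
        exact ⟨h3, fun h5 => h4 ⟨h2, h5⟩⟩
      · rintro ⟨h2, h3⟩
        have h4 : z ≠ x := by
          rintro rfl
          exact h3 hx
        exact ⟨⟨h4, h2⟩, fun h5 => h3 h5.2⟩
    rw [e4]
    refine (Pool.Agent.G4.Conn3.congr fun X hX => ?_).2 hC
    rw [Pool.Agent.G4.ctr_ctr, e1]

private theorem rg_clos (hr : IsRk r) (hS : Conn3 r S) (hy : y ∈ S) {A : Finset ℕ} {a b : ℕ}
    (hA : A ⊆ S.erase y) (haS : a ∈ S.erase y) (hbS : b ∈ S.erase y) (hab : a ≠ b)
    (ha : a ∉ A) (hb : b ∉ A) (hl : r (S.erase y \ {a, b}) < r S)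
    (hi : r (insert a (insert b A)) = (A.card : ℤ) + 2) :
    r (insert y (insert b A)) = r (insert b A) + 1 ∨
      r (insert y (insert a A)) = r (insert a A) + 1 := by
  have hc : (insert a (insert b A)).card = A.card + 2 := by
    rw [card_insert_of_notMem, card_insert_of_notMem hb]
    rw [mem_insert]
    rintro (h | h)
    · exact hab h
    · exact ha h
  have hi' : r (insert a (insert b A)) = ((insert a (insert b A)).card : ℤ) := by
    rw [hi, hc]
    push_cast
    ring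
  have rA : r A = (A.card : ℤ) :=
    rg_indep hr ((subset_insert b A).trans (subset_insert a _)) hi'
  have rb : r (insert b A) = (A.card : ℤ) + 1 := by
    rw [rg_indep hr (subset_insert a _) hi', card_insert_of_notMem hb]
    push_cast
    ring
  have ra : r (insert a A) = (A.card : ℤ) + 1 := by
    rw [rg_indep hr (insert_subset_insert a (subset_insert b A)) hi', card_insert_of_notMem ha]
    push_cast
    ring
  have hAB : A ⊆ S.erase y \ {a, b} := by
    intro z hz
    rw [mem_sdiff, mem_insert, mem_singleton]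
    refine ⟨hA hz, ?_⟩
    rintro (rfl | rfl)
    · exact ha hz
    · exact hb hz
  have hd : Disjoint ({y} : Finset ℕ) (S.erase y \ {a, b}) := by
    rw [disjoint_singleton_left]
    simp
  have h1 := hr.submod hAB hd
  have e1 : (S.erase y \ {a, b}) ∪ {y} = S \ {a, b} := by
    ext z
    simp only [mem_union, mem_sdiff, mem_erase, mem_insert, mem_singleton]
    constructor
    · rintro (⟨⟨h2, h3⟩, h4⟩ | rfl)
      · exact ⟨h3, h4⟩
      · refine ⟨hy, ?_⟩
        rintro (rfl | rfl)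
        · exact (mem_erase.1 haS).1 rfl
        · exact (mem_erase.1 hbS).1 rfl
    · rintro ⟨h2, h3⟩
      by_cases h4 : z = y
      · exact Or.inr h4
      · exact Or.inl ⟨⟨h4, h2⟩, h3⟩
  have e2 : A ∪ {y} = insert y A := by
    rw [union_comm, ← insert_eq]
  rw [e1, e2, hS.corank hr (mem_of_mem_erase haS) (mem_of_mem_erase hbS)] at h1
  by_contra hcon
  push Not at hcon
  obtain ⟨c1, c2⟩ := hcon
  have u1 := hr.unit (insert b A) y
  have u2 := hr.unit (insert a A) y
  have h3 := hr.sub (insert y (insert b A)) (insert y (insert a A))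
  have h4 : r (insert a (insert b A)) ≤ r (insert y (insert b A) ∪ insert y (insert a A)) := by
    apply hr.mono'
    intro z hz
    simp only [mem_union, mem_insert] at hz ⊢
    tauto
  have h5 : r (insert y A) ≤ r (insert y (insert b A) ∩ insert y (insert a A)) := by
    apply hr.mono'
    intro z hz
    simp only [mem_inter, mem_insert] at hz ⊢
    tauto
  omega

theorem del_cases (hr : IsRk r) (hS : Conn3 r S) (h8 : 8 ≤ S.card) (hy : y ∈ S)
    (hno : ∀ X ⊆ S.erase y, lam r (S.erase y) X ≤ 1 → X.card ≤ 2 ∨ (S.erase y \ X).card ≤ 2) :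
    Conn3 r (S.erase y) ∨ ∃ a ∈ S.erase y, ∃ b ∈ S.erase y, a ≠ b ∧
      lam r (S.erase y) {a, b} ≤ 1 ∧
      (Conn3 (ctr r {a}) (S.erase a) ∨ Conn3 (ctr r {a}) ((S.erase y).erase a)) := by
  classical
  by_cases htr : ∃ a ∈ S.erase y, ∃ b ∈ S.erase y, ∃ c ∈ S.erase y, a ≠ b ∧ b ≠ c ∧ a ≠ c ∧
      lam r (S.erase y) {a, b} ≤ 1 ∧ lam r (S.erase y) {b, c} ≤ 1
  · obtain ⟨a, ha, b, hb, c, hc, hab, hbc, hac, h1, h2⟩ := htr
    exact Or.inr ⟨a, ha, b, hb, hab, h1, Or.inl
      (Pool.Agent.G4.conn3_ctr_of_triple hr hS (by omega) hy ha hb hc hab hbc hac h1 h2)⟩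
  have hdis : ∀ c ∈ S.erase y, ∀ d ∈ S.erase y, ∀ e ∈ S.erase y, c ≠ d → d ≠ e → c ≠ e →
      ¬ (lam r (S.erase y) {c, d} ≤ 1 ∧ lam r (S.erase y) {d, e} ≤ 1) := by
    intro c hc d hd e he h1 h2 h3 h4
    exact htr ⟨c, hc, d, hd, e, he, h1, h2, h3, h4.1, h4.2⟩
  clear htr
  have hTc : (S.erase y).card = S.card - 1 := card_erase_of_mem hy
  have hmS : ∀ z ∈ S.erase y, z ∈ S := fun z hz => mem_of_mem_erase hz
  -- the set of the larger elements
  obtain ⟨R, hRdef⟩ : ∃ R, R = (S.erase y).filter fun b => ∃ a ∈ S.erase y, a < b ∧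
      lam r (S.erase y) {a, b} ≤ 1 := ⟨_, rfl⟩
  have hRm : ∀ b, b ∈ R ↔ b ∈ S.erase y ∧ ∃ a ∈ S.erase y, a < b ∧
      lam r (S.erase y) {a, b} ≤ 1 := by
    intro b
    rw [hRdef, mem_filter]
  clear hRdef
  have hRT : R ⊆ S.erase y := fun b hb => ((hRm b).1 hb).1
  have hpex : ∀ b, ∃ a, b ∈ R → a ∈ S.erase y ∧ a < b ∧ lam r (S.erase y) {a, b} ≤ 1 := by
    intro b
    by_cases hb : b ∈ R
    · obtain ⟨a, h1, h2, h3⟩ := ((hRm b).1 hb).2
      exact ⟨a, fun _ => ⟨h1, h2, h3⟩⟩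
    · exact ⟨0, fun h => absurd h hb⟩
  choose p hp using hpex
  have hp1 : ∀ b ∈ R, p b ∉ R := by
    intro b hb hc
    obtain ⟨h1, h2, h3⟩ := hp b hb
    obtain ⟨h4, h5, h6⟩ := hp (p b) hc
    exact hdis (p (p b)) h4 (p b) h1 b (hRT hb) (by omega) (by omega) (by omega) ⟨h6, h3⟩
  have hinj : ∀ b ∈ R, ∀ b' ∈ R, p b = p b' → b = b' := by
    intro b hb b' hb' h
    by_contra hne
    obtain ⟨h1, h2, h3⟩ := hp b hb
    obtain ⟨h4, h5, h6⟩ := hp b' hb'
    rw [← h] at h6 h5
    refine hdis b (hRT hb) (p b) h1 b' (hRT hb') (by omega) (by omega) hne ⟨?_, h6⟩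
    rw [pair_comm]
    exact h3
  have hm : ∀ a ∈ S.erase y, ∀ b ∈ S.erase y, a ≠ b → lam r (S.erase y) {a, b} ≤ 1 →
      a ∈ R ∨ b ∈ R := by
    intro a ha b hb hab h1
    rcases lt_or_gt_of_ne hab with h | h
    · exact Or.inr ((hRm b).2 ⟨hb, a, ha, h, h1⟩)
    · refine Or.inl ((hRm a).2 ⟨ha, b, hb, h, ?_⟩)
      rw [pair_comm]
      exact h1
  have huniq : ∀ c ∈ S.erase y, ∀ d ∈ R, c ≠ d → lam r (S.erase y) {c, d} ≤ 1 → c = p d := by
    intro c hc d hd hcd h1
    by_contra hne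
    obtain ⟨h2, h3, h4⟩ := hp d hd
    refine hdis c hc d (hRT hd) (p d) h2 hcd (by omega) hne ⟨h1, ?_⟩
    rw [pair_comm]
    exact h4
  have hcard : R.card ≤ (S.erase y \ R).card := by
    refine card_le_card_of_injOn p ?_ ?_
    · intro b hb
      have hb' : b ∈ R := hb
      show p b ∈ S.erase y \ R
      exact mem_sdiff.2 ⟨(hp b hb').1, hp1 b hb'⟩
    · intro b hb b' hb' h
      exact hinj b hb b' hb' h
  have hcard2 := card_sdiff_add_card_eq_card hRT
  have h4 : 4 ≤ (S.erase y \ R).card := by omega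
  have hP : Conn3 (ctr r R) (S.erase y \ R) := by
    refine co_conn hr hS hy hno hRT ?_ hm h4
    intro b hb
    exact ⟨p b, (hp b hb).1, hp1 b hb, (hp b hb).2.2⟩
  rcases R.eq_empty_or_nonempty with rfl | ⟨b₂, hb₂⟩
  · left
    rw [sdiff_empty] at hP
    exact (Pool.Agent.G4.Conn3.congr fun X _ => Pool.Agent.G4.ctr_empty hr X).1 hP
  right
  obtain ⟨hp2, hp2', hp2''⟩ := hp b₂ hb₂
  by_cases hR1 : R = {b₂}
  · refine ⟨b₂, hRT hb₂, p b₂, hp2, by omega, ?_, Or.inr ?_⟩
    · rw [pair_comm]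
      exact hp2''
    · rw [hR1, sdiff_singleton_eq_erase] at hP
      exact hP
  obtain ⟨b₁, hb₁, hb12⟩ : ∃ b₁ ∈ R, b₁ ≠ b₂ := by
    by_contra hcon
    push Not at hcon
    exact hR1 (eq_singleton_iff_unique_mem.2 ⟨hb₂, hcon⟩)
  obtain ⟨hp3, hp3', hp3''⟩ := hp b₁ hb₁
  have ha12 : p b₁ ≠ p b₂ := fun h => hb12 (hinj b₁ hb₁ b₂ hb₂ h)
  have ha1R := hp1 b₁ hb₁
  have ha2R := hp1 b₂ hb₂
  -- ranks
  have hrT : r (S.erase y) = r S := by
    have h1 := hS.corank hr hy hy
    rwa [pair_eq_singleton, sdiff_singleton_eq_erase] at h1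
  have hser1 : ∀ b ∈ R, r (S.erase y \ {p b, b}) < r (S.erase y) := by
    intro b hb
    obtain ⟨h1, h2, h3⟩ := hp b hb
    have h5 := hS.rank_two hr (hmS _ h1) (hmS _ (hRT hb)) (by omega : p b ≠ b)
    unfold lam at h3
    omega
  have hser : ∀ b ∈ R, p b ∈ S.erase y \ R ∧ r (S.erase y \ {p b, b}) < r (S.erase y) ∧
      r ((S.erase y).erase (p b)) = r (S.erase y) := by
    intro b hb
    obtain ⟨h1, h2, h3⟩ := hp b hb
    refine ⟨mem_sdiff.2 ⟨h1, hp1 b hb⟩, hser1 b hb, ?_⟩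
    have e1 : (S.erase y).erase (p b) = S \ {y, p b} := by
      ext z
      simp only [mem_erase, mem_sdiff, mem_insert, mem_singleton]
      tauto
    rw [e1, hrT]
    exact hS.corank hr hy (hmS _ h1)
  have hrR : r R = (R.card : ℤ) := by
    have h1 := rkQ hr hRT hser (F := ∅) (R₀ := R) subset_rfl (empty_subset _)
      (fun b _ => ⟨notMem_empty _, notMem_empty _⟩)
    rw [empty_union, hr.empty, zero_add] at h1
    exact h1
  have hR2 : r (R ∪ {p b₁, p b₂}) = (R.card : ℤ) + 2 := by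
    have h1 := hP.rank_two (hr.ctr R) (mem_sdiff.2 ⟨hp3, ha1R⟩) (mem_sdiff.2 ⟨hp2, ha2R⟩) ha12
    unfold Pool.Agent.G4.ctr at h1
    omega
  have hRc : (R ∪ {p b₁, p b₂}).card = R.card + 2 := by
    rw [card_union_of_disjoint, card_pair ha12]
    rw [disjoint_right]
    intro z hz
    rw [mem_insert, mem_singleton] at hz
    rcases hz with rfl | rfl
    · exact ha1R
    · exact ha2R
  have hR3 : r (R ∪ {p b₁, p b₂}) = ((R ∪ {p b₁, p b₂}).card : ℤ) := by
    rw [hR2, hRc]
    push_cast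
    ring
  -- the common conclusion
  have key : ∀ (Q : Finset ℕ) (x : ℕ), x ∈ Q → Q ⊆ S.erase y → p b₁ ∉ Q → b₁ ∉ Q →
      Q ⊆ R ∪ {p b₁, p b₂} →
      (∀ c ∈ Q, ∃ d ∈ S.erase y, d ∉ Q ∧ d ≠ p b₁ ∧ d ≠ b₁ ∧ lam r (S.erase y) {d, c} ≤ 1) →
      (∀ c ∈ S.erase y, ∀ d ∈ R, c ≠ d → lam r (S.erase y) {c, d} ≤ 1 →
        c ∈ Q ∨ d ∈ Q ∨ (c = p b₁ ∧ d = b₁)) →
      r (insert y (Q ∪ {p b₁, b₁})) = r (Q ∪ {p b₁, b₁}) + 1 →
      Conn3 (ctr r {x}) (S.erase x) := by
    intro Q x hx hQT h1 h2 hQR h3 h5 h6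
    have hC : Conn3 (ctr r Q) (S \ Q) := by
      refine conn3_part hr hS h8 hy hno hdis hp3 (hRT hb₁) (by omega) hp3'' hQT h1 h2 h3 ?_ h6
      intro c hc d hd hcd hl
      rcases hm c hc d hd hcd hl with hcR | hdR
      · have hl' : lam r (S.erase y) {d, c} ≤ 1 := by
          rw [pair_comm]
          exact hl
        rcases h5 d hd c hcR (Ne.symm hcd) hl' with h7 | h7 | ⟨h7, h8'⟩
        · exact Or.inr (Or.inl h7)
        · exact Or.inl h7
        · exact Or.inr (Or.inr (Or.inr ⟨h8', h7⟩))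
      · rcases h5 c hc d hdR hcd hl with h7 | h7 | h7
        · exact Or.inl h7
        · exact Or.inr (Or.inl h7)
        · exact Or.inr (Or.inr (Or.inl h7))
    exact rg_final hr hS (fun z hz => hmS z (hQT hz)) hx (rg_indep hr hQR hR3) hC
  -- the set `A`
  obtain ⟨A, hA⟩ : ∃ A : Finset ℕ, A = ((R.erase b₁).erase b₂) ∪ {p b₁, b₁} := ⟨_, rfl⟩
  have hAm : ∀ z, z ∈ A ↔ (z ≠ b₂ ∧ z ≠ b₁ ∧ z ∈ R) ∨ z = p b₁ ∨ z = b₁ := by
    intro z
    rw [hA]
    simp only [mem_union, mem_erase, mem_insert, mem_singleton]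
  have hne1 : p b₁ ≠ b₁ := by omega
  have hne2 : p b₂ ≠ b₂ := by omega
  have hne3 : p b₁ ≠ b₂ := fun h => ha1R (by rw [h]; exact hb₂)
  have hne4 : p b₂ ≠ b₁ := fun h => ha2R (by rw [h]; exact hb₁)
  have hAc : A.card = R.card := by
    have h1 : ((R.erase b₁).erase b₂).card = R.card - 1 - 1 := by
      rw [card_erase_of_mem (mem_erase.2 ⟨hb12.symm, hb₂⟩), card_erase_of_mem hb₁]
    have h2 : 2 ≤ R.card := by
      have h3 : ({b₁, b₂} : Finset ℕ) ⊆ R := by
        intro z hz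
        rw [mem_insert, mem_singleton] at hz
        rcases hz with rfl | rfl
        · exact hb₁
        · exact hb₂
      have h5 := card_le_card h3
      rw [card_pair hb12] at h5
      exact h5
    rw [hA, card_union_of_disjoint, card_pair hne1, h1]
    · omega
    · rw [disjoint_right]
      intro z hz
      rw [mem_insert, mem_singleton] at hz
      rw [mem_erase, mem_erase]
      rcases hz with rfl | rfl
      · exact fun h => ha1R h.2.2
      · exact fun h => h.2.1 rfl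
  have hAT : A ⊆ S.erase y := by
    intro z hz
    rcases (hAm z).1 hz with h1 | rfl | rfl
    · exact hRT h1.2.2
    · exact hp3
    · exact hRT hb₁
  have ha2A : p b₂ ∉ A := by
    rw [hAm]
    rintro (h1 | h1 | h1)
    · exact ha2R h1.2.2
    · exact ha12 h1.symm
    · exact hne4 h1
  have hb2A : b₂ ∉ A := by
    rw [hAm]
    rintro (h1 | h1 | h1)
    · exact h1.1 rfl
    · exact hne3 h1.symm
    · exact hb12 h1.symm
  have hAall : insert (p b₂) (insert b₂ A) = R ∪ {p b₁, p b₂} := by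
    ext z
    rw [mem_insert, mem_insert, hAm, mem_union, mem_insert, mem_singleton]
    constructor
    · rintro (rfl | rfl | ⟨h1, h2, h3⟩ | rfl | rfl)
      · exact Or.inr (Or.inr rfl)
      · exact Or.inl hb₂
      · exact Or.inl h3
      · exact Or.inr (Or.inl rfl)
      · exact Or.inl hb₁
    · rintro (h1 | rfl | rfl)
      · by_cases h2 : z = b₂
        · exact Or.inr (Or.inl h2)
        · by_cases h3 : z = b₁
          · exact Or.inr (Or.inr (Or.inr (Or.inr h3)))
          · exact Or.inr (Or.inr (Or.inl ⟨h2, h3, h1⟩))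
      · exact Or.inr (Or.inr (Or.inr (Or.inl rfl)))
      · exact Or.inl rfl
  have hclos := rg_clos hr hS hy hAT hp2 (hRT hb₂) hne2 ha2A hb2A
    (by rw [← hrT]; exact hser1 b₂ hb₂) (by rw [hAall, hR2, hAc])
  rcases hclos with hcl | hcl
  · -- `Q = R.erase b₁`, `x = b₂`
    have eQ : (R.erase b₁) ∪ {p b₁, b₁} = insert b₂ A := by
      ext z
      rw [mem_insert, hAm, mem_union, mem_erase, mem_insert, mem_singleton]
      constructor
      · rintro (⟨h1, h2⟩ | h1 | h1)
        · by_cases h3 : z = b₂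
          · exact Or.inl h3
          · exact Or.inr (Or.inl ⟨h3, h1, h2⟩)
        · exact Or.inr (Or.inr (Or.inl h1))
        · exact Or.inr (Or.inr (Or.inr h1))
      · rintro (rfl | ⟨h1, h2, h3⟩ | h1 | h1)
        · exact Or.inl ⟨hb12.symm, hb₂⟩
        · exact Or.inl ⟨h2, h3⟩
        · exact Or.inr (Or.inl h1)
        · exact Or.inr (Or.inr h1)
    refine ⟨b₂, hRT hb₂, p b₂, hp2, hne2.symm, ?_, Or.inl ?_⟩
    · rw [pair_comm]
      exact hp2''
    · refine key (R.erase b₁) b₂ (mem_erase.2 ⟨hb12.symm, hb₂⟩)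
        ((erase_subset _ _).trans hRT) (fun h => ha1R (mem_of_mem_erase h))
        (notMem_erase _ _) ((erase_subset _ _).trans subset_union_left) ?_ ?_ ?_
      · intro c hc
        obtain ⟨hc1, hc2⟩ := mem_erase.1 hc
        refine ⟨p c, (hp c hc2).1, fun h => hp1 c hc2 (mem_of_mem_erase h), ?_, ?_,
          (hp c hc2).2.2⟩
        · exact fun h => hc1 (hinj c hc2 b₁ hb₁ h)
        · exact fun h => hp1 c hc2 (by rw [h]; exact hb₁)
      · intro c hc d hd hcd hl
        by_cases h1 : d = b₁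
        · subst h1
          exact Or.inr (Or.inr ⟨huniq c hc d hd hcd hl, rfl⟩)
        · exact Or.inr (Or.inl (mem_erase.2 ⟨h1, hd⟩))
      · rw [eQ]
        exact hcl
  · -- `Q = insert (p b₂) ((R.erase b₁).erase b₂)`, `x = p b₂`
    have eQ : insert (p b₂) ((R.erase b₁).erase b₂) ∪ {p b₁, b₁} = insert (p b₂) A := by
      rw [hA, insert_union]
    have hQm : ∀ z, z ∈ insert (p b₂) ((R.erase b₁).erase b₂) ↔
        z = p b₂ ∨ (z ≠ b₂ ∧ z ≠ b₁ ∧ z ∈ R) := by
      intro z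
      rw [mem_insert, mem_erase, mem_erase]
    refine ⟨p b₂, hp2, b₂, hRT hb₂, hne2, hp2'', Or.inl ?_⟩
    refine key (insert (p b₂) ((R.erase b₁).erase b₂)) (p b₂) (mem_insert_self _ _) ?_ ?_ ?_ ?_
      ?_ ?_ ?_
    · intro z hz
      rcases (hQm z).1 hz with rfl | h1
      · exact hp2
      · exact hRT h1.2.2
    · rw [hQm]
      rintro (h1 | h1)
      · exact ha12 h1
      · exact ha1R h1.2.2
    · rw [hQm]
      rintro (h1 | h1)
      · exact hne4 h1.symm
      · exact h1.2.1 rfl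
    · intro z hz
      rcases (hQm z).1 hz with rfl | h1
      · exact mem_union_right _ (by simp)
      · exact mem_union_left _ h1.2.2
    · intro c hc
      rcases (hQm c).1 hc with rfl | ⟨h1, h2, h3⟩
      · refine ⟨b₂, hRT hb₂, ?_, hne3.symm, hb12.symm, ?_⟩
        · rw [hQm]
          rintro (h1 | h1)
          · exact hne2 h1.symm
          · exact h1.1 rfl
        · rw [pair_comm]
          exact hp2''
      · refine ⟨p c, (hp c h3).1, ?_, ?_, ?_, (hp c h3).2.2⟩
        · rw [hQm]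
          rintro (h5 | h5)
          · exact h1 (hinj c h3 b₂ hb₂ h5)
          · exact hp1 c h3 h5.2.2
        · exact fun h => h2 (hinj c h3 b₁ hb₁ h)
        · exact fun h => hp1 c h3 (by rw [h]; exact hb₁)
    · intro c hc d hd hcd hl
      by_cases h1 : d = b₁
      · subst h1
        exact Or.inr (Or.inr ⟨huniq c hc d hd hcd hl, rfl⟩)
      · by_cases h2 : d = b₂
        · subst h2
          refine Or.inl ?_
          rw [huniq c hc d hd hcd hl]
          exact mem_insert_self _ _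
        · exact Or.inr (Or.inl ((hQm d).2 (Or.inr ⟨h2, h1, hd⟩)))
    · rw [eQ]
      exact hcl

end Pool.Agent.PM
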