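import Pool.Agent.AM.Stmt

set_option autoImplicit false

/-!
# Definitions for the statement of `MP_c023e2_lc.PlaneMinor`
-/

namespace Pool.Agent.PM

/-- `M` is 3-connected: no partition of the ground set is a 1-separation or a 2-separation -/
def ThreeConnected {n : ℕ} (M : Matroid (Fin n)) : Prop :=
  ∀ (J : Finset (Fin n)) (k : ℕ), 1 ≤ k → k ≤ 2 → k ≤ J.card → k ≤ Jᶜ.card →
    M.eRk Set.univ + (k : ℕ∞) ≤ M.eRk (J : Set (Fin n)) + M.eRk ((J : Set (Fin n))ᶜ)

end Pool.Agent.PM
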