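import Pool.Agent.PM.N1
import Pool.Agent.PM.N2
import Pool.Agent.PM.P4
import Pool.Agent.AM.Chts1
import Pool.Agent.AM.PtsF

set_option autoImplicit false

/-!
# Module T1: the plane at the start, and its chart
-/

namespace Pool.Agent.PM

open Module Pool.Agent.Helper22
open Pool.Agent.G4 (nor dif word prd IsRk Conn3 ctr)
open Pool.Agent.BW (rkX rkV RkS cod dcd)
open Pool.Agent.AM (prmQ cht1 trip Full SRep)

section

variable {K V : Type} [Field K] [Fintype K] [AddCommGroup V] [Module K V] {w : ℕ → V}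
  {S : Finset ℕ}

theorem plane_of_card (h3 : Module.finrank K V = 3) (hs : Sim K w S)
    (hc : Fintype.card K ^ 2 + Fintype.card K + 1 ≤ S.card) : Plane K w S := by
  classical
  refine ⟨h3, hs, fun v hv => ?_⟩
  have hfin : Module.Finite K V := Module.finite_of_finrank_pos (by rw [h3]; norm_num)
  have hf2 : Finite V := Module.finite_of_finite K
  have : Fintype V := Fintype.ofFinite _
  have hcard : Fintype.card V = Fintype.card K ^ 3 := by
    rw [Module.card_eq_pow_finrank (K := K), h3]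
  let I : Finset V := (S ×ˢ (Finset.univ : Finset Kˣ)).image fun p => (p.2 : K) • w p.1
  have hI : I ⊆ Finset.univ.erase 0 := by
    intro x hx
    obtain ⟨p, hp, rfl⟩ := Finset.mem_image.1 hx
    refine Finset.mem_erase.2 ⟨?_, Finset.mem_univ _⟩
    exact smul_ne_zero p.2.ne_zero (hs p.1 (Finset.mem_product.1 hp).1).1
  have hIc : I.card = S.card * (Fintype.card K - 1) := by
    rw [Finset.card_image_of_injOn, Finset.card_product, Finset.card_univ, Fintype.card_units]
    rintro ⟨s, c⟩ hp ⟨s', c'⟩ hp' he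
    have h1 := (Finset.mem_product.1 (Finset.mem_coe.1 hp)).1
    have h2 := (Finset.mem_product.1 (Finset.mem_coe.1 hp')).1
    simp only at he h1 h2
    have hss : s = s' := by
      by_contra hne
      apply (hs s h1).2 s' h2 (fun e => hne e.symm) ((c : K)⁻¹ * (c' : K))
      rw [mul_smul, ← he, smul_smul, inv_mul_cancel₀ c.ne_zero, one_smul]
    subst hss
    have h4 : ((c : K) - (c' : K)) • w s = 0 := by rw [sub_smul, he, sub_self]
    have h5 := (smul_eq_zero.1 h4).resolve_right (hs s h1).1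
    have h6 : c = c' := Units.ext (sub_eq_zero.1 h5)
    rw [h6]
  have hq : 1 ≤ Fintype.card K := Fintype.card_pos
  have hle : (Finset.univ.erase (0 : V)).card ≤ I.card := by
    rw [hIc, Finset.card_erase_of_mem (Finset.mem_univ _), Finset.card_univ, hcard]
    obtain ⟨m, hm⟩ := Nat.exists_eq_add_of_le hq
    rw [hm] at hc ⊢
    have e1 : 1 + m - 1 = m := by omega
    rw [e1]
    have e2 : (1 + m) ^ 3 - 1 = ((1 + m) ^ 2 + (1 + m) + 1) * m := by
      have : (1 + m) ^ 3 = ((1 + m) ^ 2 + (1 + m) + 1) * m + 1 := by ring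
      rw [this, Nat.add_sub_cancel]
    rw [e2]
    exact Nat.mul_le_mul_right m hc
  have hEq := Finset.eq_of_subset_of_card_le hI hle
  have hvI : v ∈ I := by
    rw [hEq]
    exact Finset.mem_erase.2 ⟨hv, Finset.mem_univ _⟩
  obtain ⟨p, hp, hpv⟩ := Finset.mem_image.1 hvI
  exact ⟨p.1, (Finset.mem_product.1 hp).1, p.2, hpv.symm⟩

end

variable {K : Type} [Field K] [DecidableEq K] [Fintype K] {X : Oracle} {E B A : List ℕ}
  {u : ℕ → ℕ → K} {a b c i y : ℕ} (e : Fin (Fintype.card K) ≃ K)

omit [Fintype K] in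
private theorem ent_val {D : Mx K} {y i : ℕ} {v : K} (h1 : ((y, i), v) ∈ D)
    (h2 : ∀ v', ((y, i), v') ∈ D → v' = v) : ent D y i = v := by
  unfold ent
  have h3 : ((y, i), v) ∈ D.filter fun p => decide (p.1 = (y, i)) :=
    List.mem_filter.2 ⟨h1, by simp⟩
  rcases hl : D.filter fun p => decide (p.1 = (y, i)) with _ | ⟨p, l⟩
  · rw [hl] at h3
    exact absurd h3 List.not_mem_nil
  · have h4 : p ∈ D.filter fun p => decide (p.1 = (y, i)) := by
      rw [hl]
      exact List.mem_cons_self
    obtain ⟨h5, h6⟩ := List.mem_filter.1 h4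
    have h7 : p.1 = (y, i) := of_decide_eq_true h6
    have h8 : p = ((y, i), p.2) := by rw [← h7]
    rw [h8] at h5
    rw [hl]
    exact h2 p.2 h5

omit [Fintype K] in
private theorem ent_zero {D : Mx K} {y i : ℕ} (h : ∀ v, ((y, i), v) ∉ D) : ent D y i = 0 := by
  unfold ent
  have h1 : (D.filter fun p => decide (p.1 = (y, i))) = [] := by
    rw [List.filter_eq_nil_iff]
    intro p hp hpe
    have h2 : p.1 = (y, i) := of_decide_eq_true hpe
    have h3 : p = ((y, i), p.2) := by rw [← h2]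
    rw [h3] at hp
    exact h _ hp
  rw [h1]
  rfl

private theorem mem_bsC {dc : ℕ → K} {P : Pool.Agent.AM.Prm} {X : Oracle} {E : List ℕ} {a b c : ℕ} {A : List ℕ}
    {Z : List (ℕ × Pool.Agent.AM.Tri)} {y i : ℕ} {v : K} :
    ((y, i), v) ∈ bsC dc P X E (a :: b :: c :: A) Z ↔ y ∈ E ∧
      ((i = a ∧ v = dc (Pool.Agent.AM.chv P (fun T => rkX X E T) (a :: b :: c :: A) [a, b, c] Z y).1) ∨
      (i = b ∧ v = dc (Pool.Agent.AM.chv P (fun T => rkX X E T) (a :: b :: c :: A) [a, b, c] Z y).2.1) ∨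
      (i = c ∧ v = dc (Pool.Agent.AM.chv P (fun T => rkX X E T) (a :: b :: c :: A) [a, b, c] Z y).2.2)) := by
  unfold bsC
  rw [List.mem_flatMap]
  constructor
  · rintro ⟨z, hz, hm⟩
    simp only [List.mem_cons, List.not_mem_nil, or_false, Prod.mk.injEq, List.headD_cons,
      List.tail_cons, trip] at hm
    rcases hm with ⟨⟨rfl, h2⟩, h3⟩ | ⟨⟨rfl, h2⟩, h3⟩ | ⟨⟨rfl, h2⟩, h3⟩
    · exact ⟨hz, Or.inl ⟨h2, h3⟩⟩
    · exact ⟨hz, Or.inr (Or.inl ⟨h2, h3⟩)⟩
    · exact ⟨hz, Or.inr (Or.inr ⟨h2, h3⟩)⟩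
  · rintro ⟨hy, h⟩
    refine ⟨y, hy, ?_⟩
    simp only [List.mem_cons, List.not_mem_nil, or_false, Prod.mk.injEq, List.headD_cons,
      List.tail_cons, trip, true_and]
    exact h

theorem chart_ok (h : Rp X E B u) (hB : B = a :: b :: c :: A)
    (hf : Full E u a b c) :
    ∃ u' : ℕ → ℕ → K, Rp X E B u' ∧ ∀ y ∈ E, ∀ i ∈ [a, b, c],
      ent (bsC (dcd e) (prmQ e) X E B (cht1 (prmQ e) (fun T => rkX X E T) B E (trip B))) y i =
        u' y i := by
  subst hB
  have hnd := h.ndB
  have hab : a ≠ b := by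
    rintro rfl
    simp at hnd
  have hac : a ≠ c := by
    rintro rfl
    simp at hnd
  have hbc : b ≠ c := by
    rintro rfl
    simp at hnd
  have ha : a ∈ a :: b :: c :: A := by simp
  have hb : b ∈ a :: b :: c :: A := by simp
  have hc : c ∈ a :: b :: c :: A := by simp
  obtain ⟨σ, d, hd, hch⟩ := Pool.Agent.AM.chts_one e h.srep ha hb hc hab hac hbc hf
  have hch2 : ∀ y, ∃ κ : K, κ ≠ 0 ∧ (y ∈ E →
      ∃ x : Fin 3 → K, Pool.Agent.AM.chv (prmQ e) (fun T => rkX X E T) (a :: b :: c :: A) [a, b, c]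
        (cht1 (prmQ e) (fun T => rkX X E T) (a :: b :: c :: A) E [a, b, c]) y =
          Pool.Agent.AM.cod3 e x ∧ (x ≠ 0 → Pool.Agent.AM.Nrm x) ∧
        x = κ • Pool.Agent.AM.v3 (fun y i => d i * σ (u y i)) a b c y) := by
    intro y
    by_cases hy : y ∈ E
    · obtain ⟨x, h1, h2, κ, h3, h4⟩ := hch y hy
      exact ⟨κ, h3, fun _ => ⟨x, h1, h2, h4⟩⟩
    · exact ⟨1, one_ne_zero, fun h1 => absurd h1 hy⟩
  choose κ hκ hx using hch2
  refine ⟨_, h.trans σ hd hκ, ?_⟩
  intro y hy i hi
  obtain ⟨x, hx1, hx2, hx3⟩ := hx y hy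
  have x0 : x 0 = κ y * (d a * σ (u y a)) := by rw [hx3]; rfl
  have x1 : x 1 = κ y * (d b * σ (u y b)) := by rw [hx3]; rfl
  have x2 : x 2 = κ y * (d c * σ (u y c)) := by rw [hx3]; rfl
  have htrip : trip (a :: b :: c :: A) = [a, b, c] := rfl
  rw [htrip]
  -- the values of the entries
  have ea : ent (bsC (dcd e) (prmQ e) X E (a :: b :: c :: A)
      (cht1 (prmQ e) (fun T => rkX X E T) (a :: b :: c :: A) E [a, b, c])) y a = x 0 := by
    apply ent_val
    · refine mem_bsC.2 ⟨hy, Or.inl ⟨rfl, ?_⟩⟩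
      rw [hx1]
      exact (Pool.Agent.BW.dcd_cod e (x 0)).symm
    · intro v' hv'
      obtain ⟨_, h2⟩ := mem_bsC.1 hv'
      rcases h2 with ⟨_, h2⟩ | ⟨h2, _⟩ | ⟨h2, _⟩
      · rw [h2, hx1]
        exact Pool.Agent.BW.dcd_cod e (x 0)
      · exact absurd h2 hab
      · exact absurd h2 hac
  have eb : ent (bsC (dcd e) (prmQ e) X E (a :: b :: c :: A)
      (cht1 (prmQ e) (fun T => rkX X E T) (a :: b :: c :: A) E [a, b, c])) y b = x 1 := by
    apply ent_val
    · refine mem_bsC.2 ⟨hy, Or.inr (Or.inl ⟨rfl, ?_⟩)⟩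
      rw [hx1]
      exact (Pool.Agent.BW.dcd_cod e (x 1)).symm
    · intro v' hv'
      obtain ⟨_, h2⟩ := mem_bsC.1 hv'
      rcases h2 with ⟨h2, _⟩ | ⟨_, h2⟩ | ⟨h2, _⟩
      · exact absurd h2.symm hab
      · rw [h2, hx1]
        exact Pool.Agent.BW.dcd_cod e (x 1)
      · exact absurd h2 hbc
  have ec : ent (bsC (dcd e) (prmQ e) X E (a :: b :: c :: A)
      (cht1 (prmQ e) (fun T => rkX X E T) (a :: b :: c :: A) E [a, b, c])) y c = x 2 := by
    apply ent_val
    · refine mem_bsC.2 ⟨hy, Or.inr (Or.inr ⟨rfl, ?_⟩)⟩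
      rw [hx1]
      exact (Pool.Agent.BW.dcd_cod e (x 2)).symm
    · intro v' hv'
      obtain ⟨_, h2⟩ := mem_bsC.1 hv'
      rcases h2 with ⟨h2, _⟩ | ⟨h2, _⟩ | ⟨_, h2⟩
      · exact absurd h2.symm hac
      · exact absurd h2.symm hbc
      · rw [h2, hx1]
        exact Pool.Agent.BW.dcd_cod e (x 2)
  by_cases hyB : y ∈ a :: b :: c :: A
  · -- elements of the basis
    rw [if_pos hyB]
    have hu : ∀ i, u y i = if i = y then 1 else 0 := h.unit y hyB
    have hval : x 0 = u y a ∧ x 1 = u y b ∧ x 2 = u y c := by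
      by_cases hya : y = a
      · have u1 : u y a = 1 := by rw [hu, if_pos hya.symm]
        have u2 : u y b = 0 := by rw [hu, if_neg]; rw [hya]; exact hab.symm
        have u3 : u y c = 0 := by rw [hu, if_neg]; rw [hya]; exact hac.symm
        rw [u1, map_one, mul_one] at x0
        rw [u2, map_zero, mul_zero, mul_zero] at x1
        rw [u3, map_zero, mul_zero, mul_zero] at x2
        have hx0 : x 0 ≠ 0 := by
          rw [x0]
          exact mul_ne_zero (hκ y) (hd a)
        have hxn : x ≠ 0 := fun hh => hx0 (by rw [hh]; rfl)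
        rw [u1, u2, u3]
        refine ⟨?_, x1, x2⟩
        rcases hx2 hxn with h5 | ⟨h5, _⟩ | ⟨h5, _⟩
        · exact h5
        · exact absurd h5 hx0
        · exact absurd h5 hx0
      · by_cases hyb : y = b
        · have u1 : u y a = 0 := by rw [hu, if_neg]; rw [hyb]; exact hab
          have u2 : u y b = 1 := by rw [hu, if_pos hyb.symm]
          have u3 : u y c = 0 := by rw [hu, if_neg]; rw [hyb]; exact hbc.symm
          rw [u1, map_zero, mul_zero, mul_zero] at x0
          rw [u2, map_one, mul_one] at x1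
          rw [u3, map_zero, mul_zero, mul_zero] at x2
          have hx0 : x 1 ≠ 0 := by
            rw [x1]
            exact mul_ne_zero (hκ y) (hd b)
          have hxn : x ≠ 0 := fun hh => hx0 (by rw [hh]; rfl)
          rw [u1, u2, u3]
          refine ⟨x0, ?_, x2⟩
          rcases hx2 hxn with h5 | ⟨_, h5⟩ | ⟨_, h5, _⟩
          · rw [x0] at h5
            exact absurd h5 zero_ne_one
          · exact h5
          · exact absurd h5 hx0
        · by_cases hyc : y = c
          · have u1 : u y a = 0 := by rw [hu, if_neg]; rw [hyc]; exact hac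
            have u2 : u y b = 0 := by rw [hu, if_neg]; rw [hyc]; exact hbc
            have u3 : u y c = 1 := by rw [hu, if_pos hyc.symm]
            rw [u1, map_zero, mul_zero, mul_zero] at x0
            rw [u2, map_zero, mul_zero, mul_zero] at x1
            rw [u3, map_one, mul_one] at x2
            have hx0 : x 2 ≠ 0 := by
              rw [x2]
              exact mul_ne_zero (hκ y) (hd c)
            have hxn : x ≠ 0 := fun hh => hx0 (by rw [hh]; rfl)
            rw [u1, u2, u3]
            refine ⟨x0, x1, ?_⟩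
            rcases hx2 hxn with h5 | ⟨_, h5⟩ | ⟨_, _, h5⟩
            · rw [x0] at h5
              exact absurd h5 zero_ne_one
            · rw [x1] at h5
              exact absurd h5 zero_ne_one
            · exact h5
          · have u1 : u y a = 0 := by rw [hu, if_neg]; exact fun hh => hya hh.symm
            have u2 : u y b = 0 := by rw [hu, if_neg]; exact fun hh => hyb hh.symm
            have u3 : u y c = 0 := by rw [hu, if_neg]; exact fun hh => hyc hh.symm
            rw [u1, map_zero, mul_zero, mul_zero] at x0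
            rw [u2, map_zero, mul_zero, mul_zero] at x1
            rw [u3, map_zero, mul_zero, mul_zero] at x2
            rw [u1, u2, u3]
            exact ⟨x0, x1, x2⟩
    simp only [List.mem_cons, List.not_mem_nil, or_false] at hi
    rcases hi with rfl | rfl | rfl
    · rw [ea, hval.1]
    · rw [eb, hval.2.1]
    · rw [ec, hval.2.2]
  · rw [if_neg hyB]
    simp only [List.mem_cons, List.not_mem_nil, or_false] at hi
    rcases hi with rfl | rfl | rfl
    · rw [ea, x0]
    · rw [eb, x1]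
    · rw [ec, x2]

theorem bsC_other (hB : B = a :: b :: c :: A) (hi : i ∉ [a, b, c]) (Z : List (ℕ × AM.Tri)) :
    ent (bsC (dcd e) (prmQ e) X E B Z) y i = 0 := by
  subst hB
  simp only [List.mem_cons, List.not_mem_nil, or_false, not_or] at hi
  apply ent_zero
  intro v hv
  obtain ⟨_, h2⟩ := mem_bsC.1 hv
  rcases h2 with ⟨h2, _⟩ | ⟨h2, _⟩ | ⟨h2, _⟩
  · exact hi.1 h2
  · exact hi.2.1 h2
  · exact hi.2.2 h2

/-- a plane as a configuration is full in the sense of AM -/
theorem full_of_plane (h : Rp X E B u) (hB : B = a :: b :: c :: A) {S : List ℕ}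
    (hS : S.Sublist E) (hn : nor B S = [a, b, c])
    (hp : Plane K (cf u (nor B S).toFinset) S.toFinset) : Full E u a b c := by
  intro z hz
  rw [hn] at hp
  have hnd := h.ndB
  rw [hB] at hnd
  have hab : a ≠ b := by
    rintro rfl
    simp at hnd
  have hac : a ≠ c := by
    rintro rfl
    simp at hnd
  have hbc : b ≠ c := by
    rintro rfl
    simp at hnd
  have ma : a ∈ [a, b, c].toFinset := by simp
  have mb : b ∈ [a, b, c].toFinset := by simp
  have mc : c ∈ [a, b, c].toFinset := by simp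
  obtain ⟨s, hs, t, ht⟩ := hp.full
    (fun i : [a, b, c].toFinset => if (i : ℕ) = a then z 0 else if (i : ℕ) = b then z 1 else z 2) (by
      intro h0
      apply hz
      have e1 := congrFun h0 ⟨a, ma⟩
      have e2 := congrFun h0 ⟨b, mb⟩
      have e3 := congrFun h0 ⟨c, mc⟩
      simp only [if_true, Pi.zero_apply] at e1
      simp only [if_neg hab.symm, if_true, Pi.zero_apply] at e2
      simp only [if_neg hac.symm, if_neg hbc.symm, Pi.zero_apply] at e3
      funext j
      fin_cases j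
      · exact e1
      · exact e2
      · exact e3)
  have e1 := congrFun ht ⟨a, ma⟩
  have e2 := congrFun ht ⟨b, mb⟩
  have e3 := congrFun ht ⟨c, mc⟩
  simp only [if_true, Pi.smul_apply, smul_eq_mul, cf] at e1
  simp only [if_neg hab.symm, if_true, Pi.smul_apply, smul_eq_mul, cf] at e2
  simp only [if_neg hac.symm, if_neg hbc.symm, Pi.smul_apply, smul_eq_mul, cf] at e3
  have ht0 : t ≠ 0 := by
    rintro rfl
    apply hz
    rw [zero_mul] at e1 e2 e3
    funext j
    fin_cases j
    · exact e1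
    · exact e2
    · exact e3
  refine ⟨s, hS.subset (List.mem_toFinset.1 hs), t⁻¹, inv_ne_zero ht0, ?_⟩
  funext j
  fin_cases j
  · show u s a = t⁻¹ * z 0
    rw [e1, ← mul_assoc, inv_mul_cancel₀ ht0, one_mul]
  · show u s b = t⁻¹ * z 1
    rw [e2, ← mul_assoc, inv_mul_cancel₀ ht0, one_mul]
  · show u s c = t⁻¹ * z 2
    rw [e3, ← mul_assoc, inv_mul_cancel₀ ht0, one_mul]

end Pool.Agent.PM
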