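import Pool.Agent.PM.Alg
import Pool.Agent.G4.UPLin
import Pool.Agent.BW.UT

set_option autoImplicit false

/-!
# Module U1: the linear algebra over a finite field is polynomial

Port of `Pool/Agent/G4/UPLin.lean` (there `K = F4`). `fp_fun`: `BW.fp_table` with `S = Set.univ` (`Set.toFinite`); the operations are
tables: `fp_op` for `g : K → K → K` (`(fp_table ..).comp (hf.pair hg)`). There is `κ` with `sz a ≤ κ` for all `a : K`
(`Set.toFinite`/`Finite.bddAbove_range`), so `sz l ≤ l.length * (2 * κ + 1)` (`sz_le_length_mul`) and the length of a vector does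
not increase in `red`; this gives the bounds needed for `FP.foldA`.
`fp_ft`: induction on `d`.
-/

namespace Pool.Agent.PM

open Turing Function N487b59b3 N68a2faeb Pool.Agent.Helper22 Pool.Agent.Helper49.Cons
open Pool.Agent.Helper6.WB

section

variable {K : Type} [Field K] [DecidableEq K] [Finite K] [N487b59b3 K]
  {α β ι : Type} [N487b59b3 α] [N487b59b3 β] [N487b59b3 ι]

instance inhK (K : Type) [Field K] : Inhabited K := ⟨0⟩

theorem fp_fun [Inhabited β] (g : K → β) {f : α → K} (hf : FP f) : FP fun x => g (f x) := by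
  have h : FP g := Pool.Agent.BW.fp_table Set.univ Set.finite_univ g default fun x hx => absurd trivial hx
  exact h.comp hf

theorem fp_op (g : K → K → K) {f f' : α → K} (hf : FP f) (hf' : FP f') :
    FP fun x => g (f x) (f' x) := by
  have h : FP fun p : K × K => g p.1 p.2 :=
    Pool.Agent.BW.fp_table Set.univ Set.finite_univ (fun p : K × K => g p.1 p.2) 0 fun x hx => absurd trivial hx
  exact h.comp (hf.pair hf')

@[fun_prop]
theorem fp_addK {f g : α → K} (hf : FP f) (hg : FP g) : FP fun x => f x + g x :=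
  fp_op (fun a b => a + b) hf hg

@[fun_prop]
theorem fp_mulK {f g : α → K} (hf : FP f) (hg : FP g) : FP fun x => f x * g x :=
  fp_op (fun a b => a * b) hf hg

@[fun_prop]
theorem fp_subK {f g : α → K} (hf : FP f) (hg : FP g) : FP fun x => f x - g x :=
  fp_op (fun a b => a - b) hf hg

@[fun_prop]
theorem fp_negK {f : α → K} (hf : FP f) : FP fun x => -f x := fp_fun (fun a => -a) hf

@[fun_prop]
theorem fp_invK {f : α → K} (hf : FP f) : FP fun x => (f x)⁻¹ := fp_fun (fun a => a⁻¹) hf

theorem exists_szK (K : Type) [Finite K] [N487b59b3 K] : ∃ κ : ℕ, ∀ a : K, sz a ≤ κ := by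
  obtain ⟨κ, hκ⟩ := (Set.finite_range fun a : K => sz a).bddAbove
  exact ⟨κ, fun a => hκ ⟨a, rfl⟩⟩

private theorem u1_vec {κ : ℕ} (hκ : ∀ a : K, sz a ≤ κ) (p : List K × K) {n : ℕ} (hn : p.1.length ≤ n) :
    sz p ≤ 2 * (n * (2 * κ + 1)) + 1 + κ := by
  obtain ⟨l, a⟩ := p
  rw [sz_pair]
  have h1 : sz l ≤ l.length * (2 * κ + 1) := Pool.Agent.G4.sz_le_length_mul fun b _ => hκ b
  have h2 := Nat.mul_le_mul_right (2 * κ + 1) hn
  have h3 := hκ a
  have h4 : l.length * (2 * κ + 1) ≤ n * (2 * κ + 1) := h2
  omega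

private theorem u1_len (p : List K × K) : p.1.length ≤ sz p := by
  obtain ⟨l, a⟩ := p
  rw [sz_pair]
  have h1 : l.length ≤ sz l := length_le_sz l
  show l.length ≤ _
  omega

@[fun_prop]
theorem fp_dot {u v : α → List K} (hu : FP u) (hv : FP v) : FP fun x => dot (u x) (v x) := by
  obtain ⟨κ, hκ⟩ := exists_szK K
  have h1 : FP fun x => List.zipWith (fun a b => a * b) (u x) (v x) := by fun_prop
  refine Pool.Agent.G4.FP.foldA (g := fun (_ : α) (s a : K) => s + a) (by fun_prop) (B := fun _ => κ)
    (by fun_prop) h1 (FP.const 0) fun a i _ => hκ _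

@[fun_prop]
theorem fp_axpy {c : α → K} {u v : α → List K} (hc : FP c) (hu : FP u) (hv : FP v) :
    FP fun x => axpy (c x) (u x) (v x) := by
  unfold axpy; fun_prop

@[fun_prop]
theorem fp_lead {u v : α → List K} (hu : FP u) (hv : FP v) : FP fun x => lead (u x) (v x) := by
  unfold lead; fun_prop

@[fun_prop]
private theorem u1_red {p q : α → List K × K} (hp : FP p) (hq : FP q) :
    FP fun x => red (p x) (q x) := by
  unfold red; fun_prop

omit [Finite K] [N487b59b3 K] in
private theorem red_len (p q : List K × K) : (red p q).1.length ≤ p.1.length := by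
  simp only [red, axpy, List.length_zipWith]
  exact min_le_right _ _

omit [Finite K] [N487b59b3 K] in
private theorem foldl_red_len (E : List (List K × K)) (p : List K × K) :
    (E.foldl red p).1.length ≤ p.1.length := by
  induction E generalizing p with
  | nil => exact le_rfl
  | cons q E ih => exact (ih _).trans (red_len _ _)

@[fun_prop]
theorem fp_reduce {E : α → List (List K × K)} {p : α → List K × K} (hE : FP E) (hp : FP p) :
    FP fun x => reduce (E x) (p x) := by
  obtain ⟨κ, hκ⟩ := exists_szK K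
  have h1 : FP fun q : (List (List K × K)) × (List K × K) => reduce q.1 q.2 := by
    refine Pool.Agent.G4.FP.foldA (g := fun (_ : (List (List K × K)) × (List K × K)) s q => red s q)
      (by fun_prop) (B := fun n => 2 * (n * (2 * κ + 1)) + 1 + κ) (by fun_prop) FP.fst FP.snd fun a i _ => ?_
    have h1 := foldl_red_len (a.1.take i) a.2
    have h2 : sz a.2 ≤ sz a := by
      obtain ⟨a, b⟩ := a
      rw [sz_pair a b]; show sz b ≤ _; omega
    exact u1_vec hκ _ (h1.trans ((u1_len a.2).trans h2))
  exact h1.comp (hE.pair hp)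

@[fun_prop]
theorem fp_nrm {p : α → List K × K} (hp : FP p) : FP fun x => nrm (p x) := by
  unfold nrm; fun_prop

private theorem u1_nr {κ : ℕ} (hκ : ∀ a : K, sz a ≤ κ) (E : List (List K × K)) (p : List K × K) {n : ℕ}
    (hn : p.1.length ≤ n) : sz (nrm (reduce E p)) ≤ 2 * (n * (2 * κ + 1)) + 1 + κ := by
  refine u1_vec hκ _ ?_
  have h1 : (nrm (reduce E p)).1.length = (reduce E p).1.length := by simp [nrm]
  rw [h1]
  exact (foldl_red_len E p).trans hn

@[fun_prop]
private theorem u1_addE {E : α → List (List K × K)} {p : α → List K × K} (hE : FP E) (hp : FP p) :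
    FP fun x => addE (E x) (p x) := by
  unfold addE; fun_prop

private theorem u1_sz_addE {κ : ℕ} (hκ : ∀ a : K, sz a ≤ κ) (E : List (List K × K)) (p : List K × K) {n : ℕ}
    (hn : sz p ≤ n) : sz (addE E p) ≤ sz E + (2 * (2 * (n * (2 * κ + 1)) + 1 + κ) + 1) := by
  unfold addE
  split
  · omega
  · rw [sz_append, sz_cons, sz_nil]
    have := u1_nr hκ E p ((u1_len p).trans hn)
    omega

@[fun_prop]
theorem fp_units {I : α → List ℕ} (hI : FP I) : FP fun x => units K (I x) := by
  unfold units; fun_prop

@[fun_prop]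
theorem fp_foldAddE {l : α → List (List K × K)} (hl : FP l) :
    FP fun x => (l x).foldl addE [] := by
  obtain ⟨κ, hκ⟩ := exists_szK K
  have h1 : FP fun l : List (List K × K) => l.foldl addE [] := by
    refine Pool.Agent.G4.FP.foldA (g := fun (_ : List (List K × K)) s q => addE s q) (by fun_prop)
      (B := fun n => n * (2 * (2 * (n * (2 * κ + 1)) + 1 + κ) + 1)) (by fun_prop) FP.id (FP.const [])
      fun a i hi => ?_
    have h2 := Pool.Agent.G4.foldl_take_ind
      (P := fun i s => sz s ≤ i * (2 * (2 * (sz a * (2 * κ + 1)) + 1 + κ) + 1)) (g := addE) (l := a)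
      (x := []) (by simp) (by
        intro i s b hb hs
        have h3 := u1_sz_addE hκ s b (sz_mem_le hb)
        have h5 : (i + 1) * (2 * (2 * (sz a * (2 * κ + 1)) + 1 + κ) + 1) =
          i * (2 * (2 * (sz a * (2 * κ + 1)) + 1 + κ) + 1) +
            (2 * (2 * (sz a * (2 * κ + 1)) + 1 + κ) + 1) := by ring
        rw [h5]
        exact h3.trans (Nat.add_le_add_right hs _)) i hi
    exact h2.trans (Nat.mul_le_mul_right _ (hi.trans (length_le_sz a)))
  exact h1.comp hl

@[fun_prop]
theorem fp_solve {I : α → List ℕ} {l : α → List (List K × K)} (hI : FP I) (hl : FP l) :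
    FP fun x => solve (I x) (l x) := by
  unfold solve; fun_prop

@[fun_prop]
private theorem u1_pruneStep {s : α → List (List K × K) × List ι} {p : α → ι × List K} (hs : FP s)
    (hp : FP p) : FP fun x => pruneStep (s x) (p x) := by
  unfold pruneStep; fun_prop

private theorem u1_sz_pruneStep {κ : ℕ} (hκ : ∀ a : K, sz a ≤ κ) (s : List (List K × K) × List ι)
    (p : ι × List K) {n : ℕ} (hn : sz p ≤ n) :
    sz (pruneStep s p) ≤ sz s + (2 * (2 * (2 * (n * (2 * κ + 1)) + 1 + κ) + 1) + 2 * n + 1) := by
  obtain ⟨s, t⟩ := s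
  obtain ⟨a, l⟩ := p
  have h0 : 2 * sz a + 1 + sz l ≤ n := by rwa [sz_pair] at hn
  unfold pruneStep
  split
  · omega
  · have h1 : ((l, (0 : K)) : List K × K).1.length ≤ n := by
      have := length_le_sz l
      show l.length ≤ n
      omega
    have h2 := u1_nr hκ s (l, 0) h1
    simp only [sz_append, sz_cons, sz_nil, sz_pair] at h2 ⊢
    omega

@[fun_prop]
theorem fp_prune [Inhabited ι] {l : α → List (ι × List K)} (hl : FP l) :
    FP fun x => prune (l x) := by
  obtain ⟨κ, hκ⟩ := exists_szK K
  have h1 : FP fun l : List (ι × List K) => l.foldl pruneStep ([], []) := by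
    refine Pool.Agent.G4.FP.foldA (g := fun (_ : List (ι × List K)) s q => pruneStep s q) (by fun_prop)
      (B := fun n => 1 + n * (2 * (2 * (2 * (n * (2 * κ + 1)) + 1 + κ) + 1) + 2 * n + 1)) (by fun_prop) FP.id
      (FP.const ([], [])) fun a i hi => ?_
    have h2 := Pool.Agent.G4.foldl_take_ind
      (P := fun i s => sz s ≤ 1 + i * (2 * (2 * (2 * (sz a * (2 * κ + 1)) + 1 + κ) + 1) + 2 * sz a + 1))
      (g := pruneStep) (l := a) (x := ([], [])) (by simp) (by
        intro i s b hb hs
        have h3 := u1_sz_pruneStep hκ s b (sz_mem_le hb)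
        have h5 : (i + 1) * (2 * (2 * (2 * (sz a * (2 * κ + 1)) + 1 + κ) + 1) + 2 * sz a + 1) =
          i * (2 * (2 * (2 * (sz a * (2 * κ + 1)) + 1 + κ) + 1) + 2 * sz a + 1) +
            (2 * (2 * (2 * (sz a * (2 * κ + 1)) + 1 + κ) + 1) + 2 * sz a + 1) := by ring
        rw [h5, ← Nat.add_assoc]
        exact h3.trans (Nat.add_le_add_right hs _)) i hi
    have h3 := Nat.mul_le_mul_right (2 * (2 * (2 * (sz a * (2 * κ + 1)) + 1 + κ) + 1) + 2 * sz a + 1)
      (hi.trans (length_le_sz a))
    exact h2.trans (Nat.add_le_add_left h3 _)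
  exact (h1.comp hl).snd'

theorem prune_sublist {ι : Type} (l : List (ι × List K)) :
    (prune l).Sublist (l.map fun p => p.1) := by
  have key : ∀ (l : List (ι × List K)) (s : List (List K × K) × List ι),
      ∃ m : List ι, m.Sublist (l.map fun p => p.1) ∧ (l.foldl pruneStep s).2 = s.2 ++ m := by
    intro l
    induction l with
    | nil => intro s; exact ⟨[], List.Sublist.slnil, by simp⟩
    | cons p l ih =>
      intro s
      rw [List.foldl_cons]
      obtain ⟨m, h1, h2⟩ := ih (pruneStep s p)
      rw [h2]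
      unfold pruneStep
      split
      · exact ⟨m, h1.cons _, rfl⟩
      · exact ⟨p.1 :: m, h1.cons_cons _, by simp⟩
  obtain ⟨m, h1, h2⟩ := key l ([], [])
  rw [prune, h2, List.nil_append]
  exact h1

@[fun_prop]
theorem fp_ft (d : ℕ) {v : α → List K} (hv : FP v) : FP fun x => ft d (v x) := by
  induction d with
  | zero => exact FP.const [1]
  | succ d ih =>
    have h : FP fun x => (1 :: v x).flatMap fun a => (ft d (v x)).map fun b => a * b := by
      have h1 : FP fun q : List K × List K => (1 :: q.1).flatMap fun a => q.2.map fun b => a * b := by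
        fun_prop
      exact h1.comp (hv.pair ih)
    exact h

end

end Pool.Agent.PM
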