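import Pool.Agent.PM.U1
import Pool.Agent.G4.UPTab

set_option autoImplicit false

/-!
# Module U2: matrices and lists of bases
-/

namespace Pool.Agent.PM

open Turing Function N487b59b3 N68a2faeb Pool.Agent.Helper22 Pool.Agent.Helper49.Cons
open Pool.Agent.Helper6.WB

section

variable {K : Type} [Field K] [DecidableEq K] [Finite K] [N487b59b3 K]
  {α : Type} [N487b59b3 α]

@[fun_prop]
theorem fp_ent {D : α → Mx K} {y i : α → ℕ} (hD : FP D) (hy : FP y) (hi : FP i) :
    FP fun x => ent (D x) (y x) (i x) := by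
  unfold ent; fun_prop

@[fun_prop]
theorem fp_vec {D : α → Mx K} {R : α → List ℕ} {y : α → ℕ} (hD : FP D) (hR : FP R) (hy : FP y) :
    FP fun x => vec (D x) (R x) (y x) := by
  unfold vec; fun_prop

@[fun_prop]
theorem fp_fv {D : α → Mx K} {R T : α → List ℕ} {z : α → ℕ} (hD : FP D) (hR : FP R) (hT : FP T)
    (hz : FP z) : FP fun x => fv (D x) (R x) (T x) (z x) := by
  unfold fv; fun_prop

@[fun_prop]
theorem fp_cir {D : α → Mx K} {R S T : α → List ℕ} {z : α → ℕ} (hD : FP D) (hR : FP R)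
    (hS : FP S) (hT : FP T) (hz : FP z) : FP fun x => cir (D x) (R x) (S x) (T x) (z x) := by
  unfold cir; fun_prop

@[fun_prop]
theorem fp_qv {D : α → Mx K} {R S T : α → List ℕ} (hD : FP D) (hR : FP R)
    (hS : FP S) (hT : FP T) : FP fun x => qv (D x) (R x) (S x) (T x) := by
  unfold qv; fun_prop

@[fun_prop]
theorem fp_rawT {oy ob : α → List ℕ} {t : α → Trip} (hy : FP oy) (hb : FP ob) (ht : FP t) :
    FP fun x => rawT (oy x) (ob x) (t x) := by
  unfold rawT lcL lcS lcB lxS lxB; fun_prop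

@[fun_prop]
theorem fp_norT {S : α → List ℕ} {t : α → Trip} (hS : FP S) (ht : FP t) :
    FP fun x => norT (S x) (t x) := by
  unfold norT; fun_prop

@[fun_prop]
theorem fp_prT (d : ℕ) {D : α → Mx K} {R S : α → List ℕ} {t : α → Trip} (hD : FP D)
    (hR : FP R) (hS : FP S) (ht : FP t) : FP fun x => prT d (D x) (R x) (S x) (t x) := by
  unfold prT; fun_prop

end

end Pool.Agent.PM
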