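import Pool.Agent.PM.U2
import Pool.Agent.AM.U2

set_option autoImplicit false

/-!
# Module U3: questions, filters, learning entries

`UP.ask'`, `UP.filterA`, `UP.all_ctx`, `UP.fp2`, `UP.of_FP (by fun_prop)`; compare `Pool/Agent/AM/U1.lean`, `Pool/Agent/AM/U2.lean` (there also the Boolean
`==`). `up_pickK`: `UP.filterA` for the constant list `els`.
-/

namespace Pool.Agent.PM

open Turing Function N487b59b3 N68a2faeb Pool.Agent.Helper22 Pool.Agent.Helper49.Cons
open Pool.Agent.Helper6.WB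
open Pool.Agent.G4 (nor dif word prd UP)

section

variable {K : Type} [Field K] [DecidableEq K] [Finite K] [N487b59b3 K]
  {α : Type} [N487b59b3 α] {E B S T : Oracle → α → List ℕ} {t : Oracle → α → Trip}
  {p : Oracle → α → List ℕ × ℕ} {c n y b : Oracle → α → ℕ} {D : Oracle → α → Mx K}
  {L : Oracle → α → Lst} {Bs : Oracle → α → List (List ℕ)}

theorem up_isb (hE : UP E) (hB : UP B) (hS : UP S) (hT : UP T) :
    UP fun X x => isb X (E X x) (B X x) (S X x) (T X x) := by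
  have h1 : FP fun q : List ℕ × (List ℕ × List ℕ) => decide ((nor q.1 q.2.1).length ≤ q.2.2.length) :=
    FP.length_le (by fun_prop) (by fun_prop)
  have h2 := (hB.pair (hS.pair hT)).fp h1
  have h3 : FP fun q : List ℕ × (List ℕ × (List ℕ × List ℕ)) => word q.1 (dif q.2.1 q.2.2.1 ++ q.2.2.2) := by
    fun_prop
  exact UP.and h2 (((hE.pair (hB.pair (hS.pair hT))).fp h3).ask')

theorem up_okT (hE : UP E) (hB : UP B) (hS : UP S) (ht : UP t) :
    UP fun X x => okT X (E X x) (B X x) (S X x) (t X x) := by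
  have hE1 : UP fun X (q : α × (List ℕ × ℕ)) => E X q.1 := hE.pre (by fun_prop)
  have hB1 : UP fun X (q : α × (List ℕ × ℕ)) => B X q.1 := hB.pre (by fun_prop)
  have hS1 : UP fun X (q : α × (List ℕ × ℕ)) => S X q.1 := hS.pre (by fun_prop)
  have h1 : UP fun X (q : α × (List ℕ × ℕ)) => isb X (E X q.1) (B X q.1) (S X q.1) q.2.1 :=
    up_isb hE1 hB1 hS1 (UP.of_FP (f := fun q : α × (List ℕ × ℕ) => q.2.1) (by fun_prop))
  have h2 : UP fun X x => (t X x).1.filter fun p => decide (p.2 ∈ p.1) && isb X (E X x) (B X x) (S X x) p.1 := by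
    refine UP.filterA (h := fun X x (p : List ℕ × ℕ) => decide (p.2 ∈ p.1) && isb X (E X x) (B X x) (S X x) p.1)
      ?_ ht.fst'
    exact UP.and (UP.of_FP (f := fun q : α × (List ℕ × ℕ) => decide (q.2.2 ∈ q.2.1)) (by fun_prop)) h1
  have h3 : UP fun X x => (t X x).2.1.filter fun p => (!decide (p.2 ∈ p.1) && decide (p.2 ∈ S X x)) &&
      isb X (E X x) (B X x) (S X x) p.1 := by
    refine UP.filterA (h := fun X x (p : List ℕ × ℕ) => (!decide (p.2 ∈ p.1) && decide (p.2 ∈ S X x)) &&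
      isb X (E X x) (B X x) (S X x) p.1) ?_ ht.snd'.fst'
    refine UP.and ?_ h1
    refine UP.fp2 (h := fun (a : List ℕ × ℕ) (b : List ℕ) => !decide (a.2 ∈ a.1) && decide (a.2 ∈ b)) (by fun_prop)
      (UP.of_FP (f := fun q : α × (List ℕ × ℕ) => q.2) (by fun_prop)) hS1
  have h4 : UP fun X x => (t X x).2.2.filter fun T => isb X (E X x) (B X x) (S X x) T := by
    refine UP.filterA (h := fun X x (T : List ℕ) => isb X (E X x) (B X x) (S X x) T) ?_ ht.snd'.snd'
    exact up_isb (E := fun X (q : α × List ℕ) => E X q.1) (B := fun X q => B X q.1) (S := fun X q => S X q.1)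
      (T := fun _ q => q.2) (hE.pre (by fun_prop)) (hB.pre (by fun_prop)) (hS.pre (by fun_prop))
      (UP.of_FP (by fun_prop))
  exact h2.pair (h3.pair h4)

theorem up_pickK (els : List K) {P : Oracle → α → K → Bool}
    (hP : UP fun X (q : α × K) => P X q.1 q.2) : UP fun X x => pickK els (P X x) := by
  have h1 := (UP.filterA (h := P) hP (UP.const els)).fp (g := fun l : List K => l.headD 0) (by fun_prop)
  exact h1

theorem up_askS (hE : UP E) (hB : UP B) (hS : UP S) (hc : UP c) (hp : UP p) :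
    UP fun X x => askS X (E X x) (B X x) (S X x) (c X x) (p X x) := by
  have h3 : FP fun q : List ℕ × (List ℕ × (List ℕ × (ℕ × (List ℕ × ℕ)))) =>
      word q.1 (dif (dif q.2.1 q.2.2.1) [q.2.2.2.1] ++ q.2.2.2.2.2 :: q.2.2.2.2.1) := by
    fun_prop
  exact ((hE.pair (hB.pair (hS.pair (hc.pair hp)))).fp h3).ask'

theorem up_askL (hE : UP E) (hB : UP B) (hS : UP S) (hn : UP n) (hp : UP p) :
    UP fun X x => askL X (E X x) (B X x) (S X x) (n X x) (p X x) := by
  have h3 : FP fun q : List ℕ × (List ℕ × (List ℕ × (ℕ × (List ℕ × ℕ)))) =>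
      word q.1 (dif q.2.1 q.2.2.1 ++ q.2.2.2.1 :: q.2.2.2.2.1.filter fun t => !decide (t = q.2.2.2.2.2)) := by
    fun_prop
  exact ((hE.pair (hB.pair (hS.pair (hn.pair hp)))).fp h3).ask'

theorem up_lrR (els : List K) (hE : UP E) (hB : UP B) (hS : UP S) (hD : UP D) (hL : UP L)
    (hy : UP y) (hc : UP c) :
    UP fun X x => lrR els X (E X x) (B X x) (S X x) (D X x) (L X x) (y X x) (c X x) := by
  have hE1 : UP fun X (w : (α × K) × (List ℕ × ℕ)) => E X w.1.1 := hE.pre (by fun_prop)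
  have hB1 : UP fun X (w : (α × K) × (List ℕ × ℕ)) => B X w.1.1 := hB.pre (by fun_prop)
  have hS1 : UP fun X (w : (α × K) × (List ℕ × ℕ)) => S X w.1.1 := hS.pre (by fun_prop)
  have hD1 : UP fun X (w : (α × K) × (List ℕ × ℕ)) => D X w.1.1 := hD.pre (by fun_prop)
  have hy1 : UP fun X (w : (α × K) × (List ℕ × ℕ)) => y X w.1.1 := hy.pre (by fun_prop)
  have hc1 : UP fun X (w : (α × K) × (List ℕ × ℕ)) => c X w.1.1 := hc.pre (by fun_prop)
  have hx1 : UP fun _ (w : (α × K) × (List ℕ × ℕ)) => w.1.2 := UP.of_FP (by fun_prop)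
  have hp1 : UP fun _ (w : (α × K) × (List ℕ × ℕ)) => w.2 := UP.of_FP (by fun_prop)
  have h3 : FP fun q : Mx K × (List ℕ × (List ℕ × (ℕ × (ℕ × (K × (List ℕ × ℕ)))))) =>
      !decide (dot (cir q.1 (nor q.2.1 q.2.2.1) q.2.2.1 q.2.2.2.2.2.2.1 q.2.2.2.2.2.2.2)
        (q.2.2.1.map fun s => if s = q.2.2.2.1 then q.2.2.2.2.2.1 else ent q.1 s q.2.2.2.2.1) = 0) := by
    fun_prop
  have h4 := (hD1.pair (hB1.pair (hS1.pair (hy1.pair (hc1.pair (hx1.pair hp1)))))).fp h3
  refine up_pickK els (P := fun X x k => (L X x).all fun p => askS X (E X x) (B X x) (S X x) (c X x) p ==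
    !decide (dot (cir (D X x) (nor (B X x) (S X x)) (S X x) p.1 p.2)
      ((S X x).map fun s => if s = y X x then k else ent (D X x) s (c X x)) = 0)) ?_
  exact UP.all_ctx (P := fun X (w : α × K) (p : List ℕ × ℕ) =>
    askS X (E X w.1) (B X w.1) (S X w.1) (c X w.1) p ==
    !decide (dot (cir (D X w.1) (nor (B X w.1) (S X w.1)) (S X w.1) p.1 p.2)
      ((S X w.1).map fun s => if s = y X w.1 then w.2 else ent (D X w.1) s (c X w.1)) = 0))
    (UP.fp2 (h := fun a b : Bool => a == b) (by fun_prop) (up_askS hE1 hB1 hS1 hc1 hp1) h4)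
    (c := fun _ w => w) (l := fun X w => L X w.1) UP.id (hL.pre (by fun_prop))

theorem up_lrC (els : List K) (hE : UP E) (hB : UP B) (hS : UP S) (hD : UP D) (hL : UP L)
    (hn : UP n) (hb : UP b) :
    UP fun X x => lrC els X (E X x) (B X x) (S X x) (D X x) (L X x) (n X x) (b X x) := by
  have hE1 : UP fun X (w : (α × K) × (List ℕ × ℕ)) => E X w.1.1 := hE.pre (by fun_prop)
  have hB1 : UP fun X (w : (α × K) × (List ℕ × ℕ)) => B X w.1.1 := hB.pre (by fun_prop)
  have hS1 : UP fun X (w : (α × K) × (List ℕ × ℕ)) => S X w.1.1 := hS.pre (by fun_prop)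
  have hD1 : UP fun X (w : (α × K) × (List ℕ × ℕ)) => D X w.1.1 := hD.pre (by fun_prop)
  have hn1 : UP fun X (w : (α × K) × (List ℕ × ℕ)) => n X w.1.1 := hn.pre (by fun_prop)
  have hb1 : UP fun X (w : (α × K) × (List ℕ × ℕ)) => b X w.1.1 := hb.pre (by fun_prop)
  have hx1 : UP fun _ (w : (α × K) × (List ℕ × ℕ)) => w.1.2 := UP.of_FP (by fun_prop)
  have hp1 : UP fun _ (w : (α × K) × (List ℕ × ℕ)) => w.2 := UP.of_FP (by fun_prop)
  have h3 : FP fun q : Mx K × (List ℕ × (List ℕ × (ℕ × (ℕ × (K × (List ℕ × ℕ)))))) =>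
      !decide (dot (fv q.1 (nor q.2.1 q.2.2.1) q.2.2.2.2.2.2.1 q.2.2.2.2.2.2.2)
        ((nor q.2.1 q.2.2.1).map fun i => if i = q.2.2.2.2.1 then q.2.2.2.2.2.1 else ent q.1 q.2.2.2.1 i) = 0) := by
    fun_prop
  have h4 := (hD1.pair (hB1.pair (hS1.pair (hn1.pair (hb1.pair (hx1.pair hp1)))))).fp h3
  refine up_pickK els (P := fun X x k => (L X x).all fun p => askL X (E X x) (B X x) (S X x) (n X x) p ==
    !decide (dot (fv (D X x) (nor (B X x) (S X x)) p.1 p.2)
      ((nor (B X x) (S X x)).map fun i => if i = b X x then k else ent (D X x) (n X x) i) = 0)) ?_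
  exact UP.all_ctx (P := fun X (w : α × K) (p : List ℕ × ℕ) =>
    askL X (E X w.1) (B X w.1) (S X w.1) (n X w.1) p ==
    !decide (dot (fv (D X w.1) (nor (B X w.1) (S X w.1)) p.1 p.2)
      ((nor (B X w.1) (S X w.1)).map fun i => if i = b X w.1 then w.2 else ent (D X w.1) (n X w.1) i) = 0))
    (UP.fp2 (h := fun a b : Bool => a == b) (by fun_prop) (up_askL hE1 hB1 hS1 hn1 hp1) h4)
    (c := fun _ w => w) (l := fun X w => L X w.1) UP.id (hL.pre (by fun_prop))

theorem up_crn (els : List K) (hE : UP E) (hB : UP B) (hS : UP S) (hD : UP D) (hBs : UP Bs)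
    (hy : UP y) (hb : UP b) :
    UP fun X x => crn els X (E X x) (B X x) (S X x) (D X x) (Bs X x) (y X x) (b X x) := by
  have hE1 : UP fun X (w : (α × K) × (List ℕ)) => E X w.1.1 := hE.pre (by fun_prop)
  have hB1 : UP fun X (w : (α × K) × (List ℕ)) => B X w.1.1 := hB.pre (by fun_prop)
  have hS1 : UP fun X (w : (α × K) × (List ℕ)) => S X w.1.1 := hS.pre (by fun_prop)
  have hD1 : UP fun X (w : (α × K) × (List ℕ)) => D X w.1.1 := hD.pre (by fun_prop)
  have hy1 : UP fun X (w : (α × K) × (List ℕ)) => y X w.1.1 := hy.pre (by fun_prop)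
  have hb1 : UP fun X (w : (α × K) × (List ℕ)) => b X w.1.1 := hb.pre (by fun_prop)
  have hx1 : UP fun _ (w : (α × K) × (List ℕ)) => w.1.2 := UP.of_FP (by fun_prop)
  have hp1 : UP fun _ (w : (α × K) × (List ℕ)) => w.2 := UP.of_FP (by fun_prop)
  have h2 : FP fun q : List ℕ × (List ℕ × (List ℕ × (ℕ × (ℕ × List ℕ)))) =>
      word q.1 (dif (dif q.2.1 q.2.2.1) [q.2.2.2.1] ++ q.2.2.2.2.1 :: q.2.2.2.2.2) := by
    fun_prop
  have h3 : FP fun q : Mx K × (List ℕ × (List ℕ × (ℕ × (ℕ × (K × List ℕ))))) =>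
      !decide (dot (qv q.1 (nor q.2.1 q.2.2.1) q.2.2.1 q.2.2.2.2.2.2)
        ((prd q.2.2.1 (nor q.2.1 q.2.2.1)).map fun p => ent q.1 p.1 q.2.2.2.2.1 * ent q.1 q.2.2.2.1 p.2) =
          q.2.2.2.2.2.1) := by
    fun_prop
  have h4 := (hD1.pair (hB1.pair (hS1.pair (hy1.pair (hb1.pair (hx1.pair hp1)))))).fp h3
  have h5 := ((hE1.pair (hB1.pair (hS1.pair (hb1.pair (hy1.pair hp1))))).fp h2).ask'
  refine up_pickK els (P := fun X x k => (Bs X x).all fun T =>
    X (word (E X x) (dif (dif (B X x) (S X x)) [b X x] ++ y X x :: T)) ==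
    !decide (dot (qv (D X x) (nor (B X x) (S X x)) (S X x) T)
      ((prd (S X x) (nor (B X x) (S X x))).map fun p => ent (D X x) p.1 (b X x) * ent (D X x) (y X x) p.2) = k)) ?_
  exact UP.all_ctx (P := fun X (w : α × K) (T : List ℕ) =>
    X (word (E X w.1) (dif (dif (B X w.1) (S X w.1)) [b X w.1] ++ y X w.1 :: T)) ==
    !decide (dot (qv (D X w.1) (nor (B X w.1) (S X w.1)) (S X w.1) T)
      ((prd (S X w.1) (nor (B X w.1) (S X w.1))).map fun p =>
        ent (D X w.1) p.1 (b X w.1) * ent (D X w.1) (y X w.1) p.2) = w.2))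
    (UP.fp2 (h := fun a b : Bool => a == b) (by fun_prop) h5 h4)
    (c := fun _ w => w) (l := fun X w => Bs X w.1) UP.id (hBs.pre (by fun_prop))

end

end Pool.Agent.PM
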