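import Pool.Agent.PM.U3

set_option autoImplicit false

/-!
# Module U4: one step of the reconstruction is polynomial
-/

namespace Pool.Agent.PM

open Turing Function N487b59b3 N68a2faeb Pool.Agent.Helper22 Pool.Agent.Helper49.Cons
open Pool.Agent.Helper6.WB
open Pool.Agent.G4 (nor dif word prd UP)

section

variable {K : Type} [Field K] [DecidableEq K] [Finite K] [N487b59b3 K]
  {α : Type} [N487b59b3 α] {E B S : Oracle → α → List ℕ} {t : Oracle → α → Trip}
  {D : Oracle → α → Mx K} {s : Oracle → α → St K} {r : Oracle → α → List ℕ × List ℕ}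

theorem up_nwC (els : List K) (hE : UP E) (hB : UP B) (hs : UP s) (hr : UP r) :
    UP fun X x => nwC els X (E X x) (B X x) (s X x) (r X x) := by
  have h0 : UP fun X x => prd (r X x).1 (r X x).2 :=
    hr.fp (g := fun q : List ℕ × List ℕ => prd q.1 q.2) (by fun_prop)
  have hs' : UP fun X (q : α × (ℕ × ℕ)) => s X q.1 := hs.pre (by fun_prop)
  have h1 : UP fun X (q : α × (ℕ × ℕ)) => crn els X (E X q.1) (B X q.1) (s X q.1).1
      (s X q.1).2.1 (s X q.1).2.2.2.2 q.2.1 q.2.2 :=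
    up_crn els (E := fun X (q : α × (ℕ × ℕ)) => E X q.1) (B := fun X q => B X q.1)
      (S := fun X q => (s X q.1).1) (D := fun X q => (s X q.1).2.1)
      (Bs := fun X q => (s X q.1).2.2.2.2) (y := fun _ q => q.2.1) (b := fun _ q => q.2.2)
      (hE.pre (by fun_prop)) (hB.pre (by fun_prop)) hs'.fst' hs'.snd'.fst'
      hs'.snd'.snd'.snd'.snd' (UP.of_FP (by fun_prop)) (UP.of_FP (by fun_prop))
  have h2 : UP fun X x => (prd (r X x).1 (r X x).2).map fun p : ℕ × ℕ =>
      (p, crn els X (E X x) (B X x) (s X x).1 (s X x).2.1 (s X x).2.2.2.2 p.1 p.2) :=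
    UP.mapA (h := fun X (x : α) (p : ℕ × ℕ) =>
      (p, crn els X (E X x) (B X x) (s X x).1 (s X x).2.1 (s X x).2.2.2.2 p.1 p.2))
      (UP.pair (UP.of_FP (by fun_prop)) h1) h0
  exact UP.fp2 (h := fun u v : Mx K => u ++ v) (by fun_prop) h2 hs.snd'.fst'

theorem up_nwT (d : ℕ) (hE : UP E) (hB : UP B) (hS : UP S) (hD : UP D) (ht : UP t) (hr : UP r) :
    UP fun X x => nwT d X (E X x) (B X x) (S X x) (D X x) (t X x) (r X x) := by
  have h0 : UP fun X x => rawT (r X x).1 (r X x).2 (t X x) :=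
    UP.fp2 (h := fun (q : List ℕ × List ℕ) (t : Trip) => rawT q.1 q.2 t) (by fun_prop) hr ht
  have h1 : UP fun X x => norT (S X x) (rawT (r X x).1 (r X x).2 (t X x)) :=
    UP.fp2 (h := fun (u : List ℕ) (t : Trip) => norT u t) (by fun_prop) hS h0
  have h2 : UP fun X x => okT X (E X x) (B X x) (S X x)
      (norT (S X x) (rawT (r X x).1 (r X x).2 (t X x))) := up_okT hE hB hS h1
  have h3 : UP fun X x => nor (B X x) (S X x) :=
    UP.fp2 (h := fun u v : List ℕ => nor u v) (by fun_prop) hB hS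
  have h4 : FP fun q : (Mx K × List ℕ) × (List ℕ × Trip) => prT d q.1.1 q.1.2 q.2.1 q.2.2 := by
    fun_prop
  exact ((hD.pair h3).pair (hS.pair h2)).fp h4

theorem up_nwD (els : List K) (hE : UP E) (hB : UP B) (hS : UP S) (hD : UP D) (ht : UP t)
    (hr : UP r) :
    UP fun X x => nwD els X (E X x) (B X x) (S X x) (D X x) (t X x) (r X x) := by
  have g0 : UP fun X x => prd (r X x).1 (dif (B X x) (S X x)) :=
    (hr.pair (hB.pair hS)).fp (g := fun q : (List ℕ × List ℕ) × (List ℕ × List ℕ) =>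
      prd q.1.1 (dif q.2.1 q.2.2)) (by fun_prop)
  have g1 : UP fun X x => prd (dif (E X x) (B X x ++ S X x)) (r X x).2 :=
    (hr.pair (hE.pair (hB.pair hS))).fp
      (g := fun q : (List ℕ × List ℕ) × (List ℕ × (List ℕ × List ℕ)) =>
      prd (dif q.2.1 (q.2.2.1 ++ q.2.2.2)) q.1.2) (by fun_prop)
  have hE' : UP fun X (q : α × (ℕ × ℕ)) => E X q.1 := hE.pre (by fun_prop)
  have hB' : UP fun X (q : α × (ℕ × ℕ)) => B X q.1 := hB.pre (by fun_prop)
  have hS' : UP fun X (q : α × (ℕ × ℕ)) => S X q.1 := hS.pre (by fun_prop)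
  have hD' : UP fun X (q : α × (ℕ × ℕ)) => D X q.1 := hD.pre (by fun_prop)
  have ht' : UP fun X (q : α × (ℕ × ℕ)) => t X q.1 := ht.pre (by fun_prop)
  have h1 : UP fun X (q : α × (ℕ × ℕ)) => lrR els X (E X q.1) (B X q.1) (S X q.1) (D X q.1)
      (t X q.1).2.1 q.2.1 q.2.2 :=
    up_lrR els (E := fun X (q : α × (ℕ × ℕ)) => E X q.1) (B := fun X q => B X q.1)
      (S := fun X q => S X q.1) (D := fun X q => D X q.1) (L := fun X q => (t X q.1).2.1)
      (y := fun _ q => q.2.1) (c := fun _ q => q.2.2) hE' hB' hS' hD' ht'.snd'.fst'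
      (UP.of_FP (by fun_prop)) (UP.of_FP (by fun_prop))
  have h2 : UP fun X (q : α × (ℕ × ℕ)) => lrC els X (E X q.1) (B X q.1) (S X q.1) (D X q.1)
      (t X q.1).1 q.2.1 q.2.2 :=
    up_lrC els (E := fun X (q : α × (ℕ × ℕ)) => E X q.1) (B := fun X q => B X q.1)
      (S := fun X q => S X q.1) (D := fun X q => D X q.1) (L := fun X q => (t X q.1).1)
      (n := fun _ q => q.2.1) (b := fun _ q => q.2.2) hE' hB' hS' hD' ht'.fst'
      (UP.of_FP (by fun_prop)) (UP.of_FP (by fun_prop))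
  have h3 : UP fun X x => (prd (r X x).1 (dif (B X x) (S X x))).map fun p : ℕ × ℕ =>
      (p, lrR els X (E X x) (B X x) (S X x) (D X x) (t X x).2.1 p.1 p.2) :=
    UP.mapA (h := fun X (x : α) (p : ℕ × ℕ) =>
      (p, lrR els X (E X x) (B X x) (S X x) (D X x) (t X x).2.1 p.1 p.2))
      (UP.pair (UP.of_FP (by fun_prop)) h1) g0
  have h4 : UP fun X x => (prd (dif (E X x) (B X x ++ S X x)) (r X x).2).map fun p : ℕ × ℕ =>
      (p, lrC els X (E X x) (B X x) (S X x) (D X x) (t X x).1 p.1 p.2) :=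
    UP.mapA (h := fun X (x : α) (p : ℕ × ℕ) =>
      (p, lrC els X (E X x) (B X x) (S X x) (D X x) (t X x).1 p.1 p.2))
      (UP.pair (UP.of_FP (by fun_prop)) h2) g1
  have h5 := UP.fp2 (h := fun u v : Mx K => u ++ v) (by fun_prop) h3
    (UP.fp2 (h := fun u v : Mx K => u ++ v) (by fun_prop) h4 hD)
  exact h5

theorem up_stepB (els : List K) (d : ℕ) (hE : UP E) (hB : UP B) (hs : UP s) (hr : UP r) :
    UP fun X x => stepB els d X (E X x) (B X x) (s X x) (r X x) := by
  have hS : UP fun X x => nwS (E X x) (s X x) (r X x) :=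
    (hE.pair (hs.pair hr)).fp (g := fun q : List ℕ × (St K × (List ℕ × List ℕ)) =>
      nor q.1 (q.2.1.1 ++ (q.2.2.1 ++ q.2.2.2))) (by fun_prop)
  have hC : UP fun X x => nwC els X (E X x) (B X x) (s X x) (r X x) := up_nwC els hE hB hs hr
  have hT : UP fun X x => nwT d X (E X x) (B X x) (nwS (E X x) (s X x) (r X x))
      (nwC els X (E X x) (B X x) (s X x) (r X x)) (s X x).2.2 (r X x) :=
    up_nwT d hE hB hS hC hs.snd'.snd' hr
  have hD : UP fun X x => nwD els X (E X x) (B X x) (nwS (E X x) (s X x) (r X x))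
      (nwC els X (E X x) (B X x) (s X x) (r X x))
      (nwT d X (E X x) (B X x) (nwS (E X x) (s X x) (r X x))
        (nwC els X (E X x) (B X x) (s X x) (r X x)) (s X x).2.2 (r X x)) (r X x) :=
    up_nwD els hE hB hS hC hT hr
  exact hS.pair (hD.pair hT)

end

end Pool.Agent.PM
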