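import Pool.Agent.PM.U3
import Pool.Agent.AM.U3

set_option autoImplicit false

/-!
# Module U5: the first state is computed in polynomial time

`vecs`, `dc`, `P` are constants. `AM.up_chv`, `AM.up_cht1`; `dc` is polynomial by assumption. `bsC`: `UP.flatMap_ctx` with lists of three
elements; `rwC`: `UP.filterA` over the constant list `vecs`; `bsD`: flatMap over `dif B S`, map over `zip`.
-/

namespace Pool.Agent.PM

open Turing Function N487b59b3 N68a2faeb Pool.Agent.Helper22 Pool.Agent.Helper49.Cons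
open Pool.Agent.Helper6.WB
open Pool.Agent.G4 (nor dif word prd UP)
open Pool.Agent.AM (Prm Tri)

private theorem u5_fst {α β γ : Type} [N487b59b3 α] [N487b59b3 β] [N487b59b3 γ]
    {f : Oracle → α → β} (hf : UP f) : UP fun X (p : α × γ) => f X p.1 :=
  hf.pre (f := fun p : α × γ => p.1) (by fun_prop)

private theorem u5_trip : FP fun B : List ℕ => Pool.Agent.AM.trip B := by
  unfold Pool.Agent.AM.trip
  fun_prop

section

variable {K : Type} [Field K] [DecidableEq K] [Finite K] [N487b59b3 K]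
  {α : Type} [N487b59b3 α] {E B S : Oracle → α → List ℕ} {c : Oracle → α → ℕ}
  {D : Oracle → α → Mx K} {L : Oracle → α → Lst} {Z : Oracle → α → List (ℕ × Tri)}

theorem up_bsT (hE : UP E) (hB : UP B) (hS : UP S) :
    UP fun X x => bsT X (E X x) (B X x) (S X x) := by
  have h1 : FP fun S : List ℕ => triS S := by
    unfold triS
    fun_prop
  have h2 : UP fun X x => ((prd (triS (S X x)) (S X x),
      (prd (triS (S X x)) (S X x), triS (S X x))) : Trip) :=
    hS.fp (g := fun S : List ℕ => ((prd (triS S) S, (prd (triS S) S, triS S)) : Trip))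
      (by fun_prop)
  exact up_okT hE hB hS h2

theorem up_bsC {dc : ℕ → K} (hdc : FP dc) (P : Prm) (hE : UP E) (hB : UP B) (hZ : UP Z) :
    UP fun X x => bsC dc P X (E X x) (B X x) (Z X x) := by
  have hB1 : UP fun X (p : α × ℕ) => B X p.1 := u5_fst hB
  have h1 : UP fun X (p : α × ℕ) => Pool.Agent.AM.chv P
      (fun T => Pool.Agent.BW.rkX X (E X p.1) T) (B X p.1) (Pool.Agent.AM.trip (B X p.1))
      (Z X p.1) p.2 :=
    Pool.Agent.AM.up_chv P (u5_fst hE) hB1 (hB1.fp u5_trip) (u5_fst hZ) UP.snd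
  have hd1 : FP fun q : (ℕ × List ℕ) × Tri => dc q.2.1 := hdc.comp (by fun_prop)
  have hd2 : FP fun q : (ℕ × List ℕ) × Tri => dc q.2.2.1 := hdc.comp (by fun_prop)
  have hd3 : FP fun q : (ℕ × List ℕ) × Tri => dc q.2.2.2 := hdc.comp (by fun_prop)
  have h2 : FP fun q : (ℕ × List ℕ) × Tri => ([((q.1.1, q.1.2.headD 0), dc q.2.1),
      ((q.1.1, q.1.2.tail.headD 0), dc q.2.2.1),
      ((q.1.1, q.1.2.tail.tail.headD 0), dc q.2.2.2)] : Mx K) := by
    fun_prop
  exact UP.flatMap_ctx (h := fun X (x : α) (y : ℕ) =>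
    [((y, (B X x).headD 0), dc (Pool.Agent.AM.chv P (fun T => Pool.Agent.BW.rkX X (E X x) T)
      (B X x) (Pool.Agent.AM.trip (B X x)) (Z X x) y).1),
    ((y, (B X x).tail.headD 0), dc (Pool.Agent.AM.chv P
      (fun T => Pool.Agent.BW.rkX X (E X x) T)
      (B X x) (Pool.Agent.AM.trip (B X x)) (Z X x) y).2.1),
    ((y, (B X x).tail.tail.headD 0), dc (Pool.Agent.AM.chv P
      (fun T => Pool.Agent.BW.rkX X (E X x) T)
      (B X x) (Pool.Agent.AM.trip (B X x)) (Z X x) y).2.2)])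
    (((UP.snd.pair hB1).pair h1).fp h2) UP.id hE

theorem up_rwC (vecs : List (List K)) (hE : UP E) (hB : UP B) (hS : UP S) (hD : UP D) (hL : UP L)
    (hc : UP c) :
    UP fun X x => rwC vecs X (E X x) (B X x) (S X x) (D X x) (L X x) (c X x) := by
  have hB1 : UP fun X (q : α × List K) => B X q.1 := u5_fst hB
  have hS1 : UP fun X (q : α × List K) => S X q.1 := u5_fst hS
  have h1 : UP fun X (q : α × List K) =>
      ((S X q.1).zip q.2).all fun p => !decide (p.1 ∈ B X q.1) || decide (p.2 = 0) :=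
    (hS1.pair (hB1.pair UP.snd)).fp (g := fun s : List ℕ × (List ℕ × List K) =>
      (s.1.zip s.2.2).all fun p => !decide (p.1 ∈ s.2.1) || decide (p.2 = 0)) (by fun_prop)
  have hg : FP fun s : (Mx K × (List ℕ × List ℕ)) × (List K × (List ℕ × ℕ)) =>
      !decide (dot (cir s.1.1 (nor s.1.2.1 s.1.2.2) s.1.2.2 s.2.2.1 s.2.2.2) s.2.1 = 0) := by
    fun_prop
  have h2 : UP fun X (w : (α × List K) × (List ℕ × ℕ)) =>
      !decide (dot (cir (D X w.1.1) (nor (B X w.1.1) (S X w.1.1)) (S X w.1.1) w.2.1 w.2.2)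
        w.1.2 = 0) :=
    UP.fp (g := fun s : (Mx K × (List ℕ × List ℕ)) × (List K × (List ℕ × ℕ)) =>
      !decide (dot (cir s.1.1 (nor s.1.2.1 s.1.2.2) s.1.2.2 s.2.2.1 s.2.2.2) s.2.1 = 0)) hg
      (((u5_fst (u5_fst hD)).pair ((u5_fst hB1).pair (u5_fst hS1))).pair
        ((u5_fst UP.snd).pair UP.snd))
  have h3 : UP fun X (w : (α × List K) × (List ℕ × ℕ)) =>
      askS X (E X w.1.1) (B X w.1.1) (S X w.1.1) (c X w.1.1) w.2 :=
    up_askS (u5_fst (u5_fst hE)) (u5_fst hB1) (u5_fst hS1) (u5_fst (u5_fst hc)) UP.snd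
  have h4 : UP fun X (q : α × List K) => (L X q.1).all fun p =>
      askS X (E X q.1) (B X q.1) (S X q.1) (c X q.1) p ==
        !decide (dot (cir (D X q.1) (nor (B X q.1) (S X q.1)) (S X q.1) p.1 p.2) q.2 = 0) :=
    UP.all_ctx (P := fun X (q : α × List K) (p : List ℕ × ℕ) =>
      askS X (E X q.1) (B X q.1) (S X q.1) (c X q.1) p ==
        !decide (dot (cir (D X q.1) (nor (B X q.1) (S X q.1)) (S X q.1) p.1 p.2) q.2 = 0))
      (UP.fp2 (h := fun a b : Bool => a == b) (by fun_prop) h3 h2) UP.id (u5_fst hL)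
  have h5 := UP.filterA (h := fun X (x : α) (v : List K) =>
    (((S X x).zip v).all fun p => !decide (p.1 ∈ B X x) || decide (p.2 = 0)) &&
      (L X x).all fun p => askS X (E X x) (B X x) (S X x) (c X x) p ==
        !decide (dot (cir (D X x) (nor (B X x) (S X x)) (S X x) p.1 p.2) v = 0))
    (UP.and h1 h4) (UP.const vecs)
  exact h5.fp (g := fun l : List (List K) => l.headD []) (by fun_prop)

theorem up_bsD (vecs : List (List K)) (hE : UP E) (hB : UP B) (hS : UP S) (hD : UP D)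
    (hL : UP L) : UP fun X x => bsD vecs X (E X x) (B X x) (S X x) (D X x) (L X x) := by
  have h1 : UP fun X (q : α × ℕ) => rwC vecs X (E X q.1) (B X q.1) (S X q.1) (D X q.1) (L X q.1)
      q.2 :=
    up_rwC vecs (u5_fst hE) (u5_fst hB) (u5_fst hS) (u5_fst hD) (u5_fst hL) UP.snd
  have hg : FP fun s : List ℕ × (List K × ℕ) =>
      ((s.1.zip s.2.1).map fun p => ((p.1, s.2.2), p.2) : Mx K) := by
    fun_prop
  have h2 : UP fun X (q : α × ℕ) => (((S X q.1).zip (rwC vecs X (E X q.1) (B X q.1) (S X q.1)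
      (D X q.1) (L X q.1) q.2)).map fun p => ((p.1, q.2), p.2) : Mx K) :=
    ((u5_fst hS).pair (h1.pair UP.snd)).fp hg
  have hd : UP fun X x => dif (B X x) (S X x) :=
    UP.fp2 (h := fun u v : List ℕ => dif u v) (by fun_prop) hB hS
  have h3 := UP.flatMap_ctx (h := fun X (x : α) (c : ℕ) =>
    (((S X x).zip (rwC vecs X (E X x) (B X x) (S X x) (D X x) (L X x) c)).map fun p =>
      ((p.1, c), p.2) : Mx K)) h2 UP.id hd
  have hg2 : FP fun s : List ℕ × Mx K => ((s.1.map fun c => ((c, c), (1 : K))) ++ s.2 : Mx K) := by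
    fun_prop
  have h4 : UP fun X x => (((dif (B X x) (S X x)).map fun c => ((c, c), (1 : K))) ++ D X x :
      Mx K) := (hd.pair hD).fp hg2
  exact UP.fp2 (h := fun u v : Mx K => u ++ v) (by fun_prop) h3 h4

theorem up_bsSt (vecs : List (List K)) {dc : ℕ → K} (hdc : FP dc) (P : Prm) (hE : UP E)
    (hB : UP B) (hS : UP S) : UP fun X x => bsSt vecs dc P X (E X x) (B X x) (S X x) := by
  have h1 := up_bsT hE hB hS
  exact hS.pair ((up_bsD vecs hE hB hS
    (up_bsC hdc P hE hB (Pool.Agent.AM.up_cht1 P hE hB (hB.fp u5_trip))) h1.snd'.fst').pair h1)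

end

end Pool.Agent.PM
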