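import Pool.Agent.PM.Alg
import Pool.Agent.AM.U2
import Pool.Agent.BW.UD

set_option autoImplicit false

/-!
# Module U6: procedures with a modified oracle; tests in minors

* `UP.subst`: let `M` be the procedure of `f`. The list of the first `n` answers for the oracle `Y = fun w => g X (c X x) w` is obtained by
iteration of `l ↦ g X (c, M.query (b, l)) :: l` from `[]`, `|M.clock b|` times: `UP.iterA` (size of the list of bits after `i` steps:
`3 * i`, `(M.clock b).length ≤` bound of `M.clock` at `sz b`), then `M.out (b, _)`. (First prove it for `c`, `b` the components of the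
input `γ × β`, then compose.)
* `up_moQ`: `mo X E A S w` is one question.
* `up_mcut`: `BW.up_cutZ`, `BW.up_lamL` with `E := S`. `up_cn3`, `up_labB`: `UP.all_ctx` over `prd ..`; comparison of numbers: see `AM.up_cr1`;
`AM.up_pts` with `E := S`, `B := C`, `T := []`.
* `up_cn3M`, `up_labM`: `UP.subst` with `g` from `up_moQ`, `c = (E, (A, S'))`.
-/

namespace Pool.Agent.PM

open Turing Function N487b59b3 N68a2faeb Pool.Agent.Helper22 Pool.Agent.Helper49.Cons
open Pool.Agent.Helper6.WB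
open Pool.Agent.G4 (nor dif word prd UP)

section

variable {α β γ δ : Type} [N487b59b3 α] [N487b59b3 β] [N487b59b3 γ] [N487b59b3 δ]

private theorem u6_iter (M : OracleProc β δ) (Y : Oracle) (b : β) (n : ℕ) :
    (fun l : List Bool => Y (M.query (b, l)) :: l)^[n] [] = M.answers Y b n := by
  induction n with
  | zero => rfl
  | succ n ih =>
    rw [Function.iterate_succ_apply', ih]
    rfl

theorem UP.subst {f : Oracle → β → δ} (hf : UP f) {g : Oracle → γ × List Bool → Bool} (hg : UP g)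
    {c : Oracle → α → γ} {b : Oracle → α → β} (hc : UP c) (hb : UP b) :
    UP fun X x => f (fun w => g X (c X x, w)) (b X x) := by
  obtain ⟨M, hM⟩ := hf
  have hMc : FP M.clock := (isPolyTime_iff _).1 M.clock_poly
  have hMq : FP M.query := (isPolyTime_iff _).1 M.query_poly
  have hMo : FP M.out := (isPolyTime_iff _).1 M.out_poly
  obtain ⟨B0, hB0, hB0m, hB0le⟩ := hMc.bound
  have h1 : UP fun X (p : (γ × β) × List Bool) => g X (p.1.1, M.query (p.1.2, p.2)) :: p.2 := by
    have h2 : UP fun X (p : (γ × β) × List Bool) => g X (p.1.1, M.query (p.1.2, p.2)) :=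
      hg.pre (f := fun p : (γ × β) × List Bool => (p.1.1, M.query (p.1.2, p.2)))
        (FP.fst.fst'.pair (hMq.comp (FP.fst.snd'.pair FP.snd)))
    exact UP.fp2 (h := fun (a : Bool) (l : List Bool) => a :: l) (by fun_prop) h2 UP.snd
  have h2 : UP fun X (p : γ × β) =>
      (fun l : List Bool => g X (p.1, M.query (p.2, l)) :: l)^[(M.clock p.2).length] [] :=
    UP.iterA (f := fun X (p : γ × β) (l : List Bool) => g X (p.1, M.query (p.2, l)) :: l) h1
      (B := fun n => 3 * B0 n) (by fun_prop) (l := fun _ p => M.clock p.2) (x := fun _ _ => [])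
      (UP.of_FP (hMc.comp FP.snd)) (UP.const []) (by
        intro X p i hi
        have h3 : ((fun l : List Bool => g X (p.1, M.query (p.2, l)) :: l)^[i] []).length = i :=
          Pool.Agent.G4.iterate_ind (P := fun i (s : List Bool) => s.length = i) rfl
            (fun i s hs => by
              show (_ :: s).length = i + 1
              rw [List.length_cons, hs]) i
        have h4 := hB0le p.2
        have h5 : sz p.2 ≤ sz p := by
          obtain ⟨u, v⟩ := p
          rw [sz_pair]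
          show sz v ≤ _
          omega
        have h6 := hB0m h5
        have h7 := length_le_sz (M.clock p.2)
        show sz ((fun l : List Bool => g X (p.1, M.query (p.2, l)) :: l)^[i] []) ≤ 3 * B0 (sz p)
        rw [sz_bits, h3]
        have h8 : i ≤ (M.clock p.2).length := hi
        omega)
  have h3 : UP fun X (p : γ × β) => M.out (p.2,
      (fun l : List Bool => g X (p.1, M.query (p.2, l)) :: l)^[(M.clock p.2).length] []) :=
    UP.fp (g := M.out) hMo (UP.snd.pair h2)
  refine (h3.comp (hc.pair hb)).congr fun X x => ?_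
  dsimp only
  rw [u6_iter M (fun w => g X (c X x, w)), ← hM]
  rfl

variable {E A S S' C : Oracle → α → List ℕ}

theorem up_moQ : UP fun X (q : (List ℕ × (List ℕ × List ℕ)) × List Bool) =>
    mo X q.1.1 q.1.2.1 q.1.2.2 q.2 := by
  unfold mo
  exact UP.ask' (UP.of_FP (by fun_prop))

theorem up_mcut (hS : UP S) (hA : UP A) (hC : UP C) :
    UP fun X x => mcut X (S X x) (A X x) (C X x) := by
  unfold mcut
  exact Pool.Agent.BW.up_lamL hS (Pool.Agent.BW.up_cutZ hS hA hC)

private theorem u6_ge (k : ℕ) {f : Oracle → α → ℕ} (hf : UP f) :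
    UP fun X x => decide (k ≤ f X x) :=
  UP.fp2 (h := fun a b : ℕ => decide (a ≤ b)) (Pool.Agent.Helper47.TR.FP.natLe FP.fst FP.snd)
    (UP.const k) hf

private theorem u6_a (hS : UP S) : UP fun X (q : α × (ℕ × ℕ)) =>
    mcut X (S X q.1) [q.2.1] [q.2.2] := by
  have h1 : UP fun X (q : α × (ℕ × ℕ)) => S X q.1 := hS.pre FP.fst
  have h2 : UP fun (_ : Oracle) (q : α × (ℕ × ℕ)) => [q.2.1] :=
    UP.of_FP (f := fun q : α × (ℕ × ℕ) => [q.2.1]) (by fun_prop)
  have h3 : UP fun (_ : Oracle) (q : α × (ℕ × ℕ)) => [q.2.2] :=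
    UP.of_FP (f := fun q : α × (ℕ × ℕ) => [q.2.2]) (by fun_prop)
  exact up_mcut h1 h2 h3

private theorem u6_b (hS : UP S) : UP fun X (q : α × (ℕ × ℕ)) => decide (q.2.1 = q.2.2) ||
      decide (1 ≤ mcut X (S X q.1) [q.2.1] [q.2.2]) :=
  UP.or (UP.of_FP (f := fun q : α × (ℕ × ℕ) => decide (q.2.1 = q.2.2)) (by fun_prop))
      (u6_ge 1 (u6_a hS))

private theorem u6_c (hS : UP S) : UP fun X (q : α × ((ℕ × ℕ) × (ℕ × ℕ))) =>
    mcut X (S X q.1) [q.2.1.1, q.2.1.2] [q.2.2.1, q.2.2.2] := by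
  have h1 : UP fun X (q : α × ((ℕ × ℕ) × (ℕ × ℕ))) => S X q.1 := hS.pre FP.fst
  have h2 : UP fun (_ : Oracle) (q : α × ((ℕ × ℕ) × (ℕ × ℕ))) => [q.2.1.1, q.2.1.2] :=
    UP.of_FP (f := fun q : α × ((ℕ × ℕ) × (ℕ × ℕ)) => [q.2.1.1, q.2.1.2]) (by fun_prop)
  have h3 : UP fun (_ : Oracle) (q : α × ((ℕ × ℕ) × (ℕ × ℕ))) => [q.2.2.1, q.2.2.2] :=
    UP.of_FP (f := fun q : α × ((ℕ × ℕ) × (ℕ × ℕ)) => [q.2.2.1, q.2.2.2]) (by fun_prop)
  exact up_mcut h1 h2 h3

private theorem u6_d (hS : UP S) : UP fun X (q : α × ((ℕ × ℕ) × (ℕ × ℕ))) =>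
      (decide (q.2.1.1 = q.2.1.2) ||
      (decide (q.2.2.1 = q.2.2.2) || (decide (q.2.1.1 ∈ [q.2.2.1, q.2.2.2]) ||
        decide (q.2.1.2 ∈ [q.2.2.1, q.2.2.2])))) ||
      decide (2 ≤ mcut X (S X q.1) [q.2.1.1, q.2.1.2] [q.2.2.1, q.2.2.2]) :=
  UP.or (UP.of_FP (f := fun q : α × ((ℕ × ℕ) × (ℕ × ℕ)) => (decide (q.2.1.1 = q.2.1.2) ||
      (decide (q.2.2.1 = q.2.2.2) || (decide (q.2.1.1 ∈ [q.2.2.1, q.2.2.2]) ||
        decide (q.2.1.2 ∈ [q.2.2.1, q.2.2.2]))))) (by fun_prop))
      (u6_ge 2 (u6_c hS))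

theorem up_cn3 (hS : UP S) : UP fun X x => cn3 X (S X x) := by
  have h1 : UP fun X x => decide (4 ≤ (S X x).length) :=
    hS.fp (g := fun l : List ℕ => decide (4 ≤ l.length)) (by fun_prop)
  have hp : UP fun X x => prd (S X x) (S X x) :=
    hS.fp (g := fun l : List ℕ => prd l l) (by fun_prop)
  have hpp : UP fun X x => prd (prd (S X x) (S X x)) (prd (S X x) (S X x)) :=
    hS.fp (g := fun l : List ℕ => prd (prd l l) (prd l l)) (by fun_prop)
  have h2 := UP.all_ctx (P := fun X (x : α) (p : ℕ × ℕ) => decide (p.1 = p.2) ||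
      decide (1 ≤ mcut X (S X x) [p.1] [p.2])) (u6_b hS) UP.id hp
  have h3 := UP.all_ctx (P := fun X (x : α) (p : (ℕ × ℕ) × (ℕ × ℕ)) => (decide (p.1.1 = p.1.2) ||
      (decide (p.2.1 = p.2.2) || (decide (p.1.1 ∈ [p.2.1, p.2.2]) ||
        decide (p.1.2 ∈ [p.2.1, p.2.2])))) ||
      decide (2 ≤ mcut X (S X x) [p.1.1, p.1.2] [p.2.1, p.2.2])) (u6_d hS) UP.id hpp
  exact (h1.and (h2.and h3)).congr fun X x => rfl

theorem up_labB (N : ℕ) (hS : UP S) (hC : UP C) : UP fun X x => labB N X (S X x) (C X x) := by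
  unfold labB
  have hl : UP fun X x => (C X x).length := hC.fp (g := fun l : List ℕ => l.length) (by fun_prop)
  have h1 : UP fun X x => decide (Pool.Agent.BW.rkX X (S X x) (C X x) = (C X x).length) :=
    UP.fp2 (h := fun a b : ℕ => decide (a = b)) (by fun_prop) (Pool.Agent.BW.up_rkX hS hC) hl
  have h2 : UP fun X x => decide (Pool.Agent.BW.rkX X (S X x) (S X x) = (C X x).length + 3) :=
    UP.fp2 (h := fun a b : ℕ => decide (a = b + 3)) (by fun_prop) (Pool.Agent.BW.up_rkX hS hS) hl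
  have h3 : UP fun X x => decide (N ≤ (Pool.Agent.AM.pts (fun T => Pool.Agent.BW.rkX X (S X x) T)
      (C X x) (S X x) []).length) :=
    (Pool.Agent.AM.up_pts (E := S) (B := C) (T := fun _ _ => []) hS hC (UP.const [])).fp
      (g := fun l : List ℕ => decide (N ≤ l.length)) (by fun_prop)
  exact h1.and (h2.and h3)

theorem up_cn3M (hE : UP E) (hA : UP A) (hS' : UP S') (hS : UP S) :
    UP fun X x => cn3 (mo X (E X x) (A X x) (S' X x)) (S X x) :=
  UP.subst (f := fun X (s : List ℕ) => cn3 X s) (up_cn3 UP.id) up_moQ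
    (c := fun X x => (E X x, (A X x, S' X x))) (b := S) (hE.pair (hA.pair hS')) hS

theorem up_labM (N : ℕ) (hE : UP E) (hA : UP A) (hS' : UP S') (hS : UP S) (hC : UP C) :
    UP fun X x => labB N (mo X (E X x) (A X x) (S' X x)) (S X x) (C X x) :=
  UP.subst (f := fun X (p : List ℕ × List ℕ) => labB N X p.1 p.2)
    (up_labB N (S := fun _ (p : List ℕ × List ℕ) => p.1) (C := fun _ p => p.2) UP.fst UP.snd)
    up_moQ (c := fun X x => (E X x, (A X x, S' X x))) (b := fun X x => (S X x, C X x))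
    (hE.pair (hA.pair hS')) (hS.pair hC)

end

end Pool.Agent.PM
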