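import Pool.Agent.PM.U6

set_option autoImplicit false

/-!
# Module U7: the chain is computed in polynomial time

* `fp_ops`, `fp_two`, `fp_lcs`: `unfold`, `fun_prop`.
* `up_cds`: `UP.filterA`, `UP.flatMap_ctx`, `UP.map_ctx` with `up_cn3M`, `up_labM` (contexts: the input and the operation `o`).
* `up_chStep`: `UP.ite`, head of the list.
* `ch_bound`: invariants after `i` steps from `(E, ([], (C, [])))`, for every oracle and all lists: the ground set is a sublist of `E`;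
`sz A ≤ i * (2 * sz E + 1)`; `sz C ≤ sz C₀ + sz E` (the new label is `nor S' _`); `sz recs ≤ i * (20 * sz E + 20)` (each operation is `([y], [])`, `([], [b])`
or `([y], [b])`, with `y, b` in the ground set).
* `up_chain`: `UP.iterA` with `l = E`.
-/

namespace Pool.Agent.PM

open Turing Function N487b59b3 N68a2faeb Pool.Agent.Helper22 Pool.Agent.Helper49.Cons
open Pool.Agent.Helper6.WB
open Pool.Agent.G4 (nor dif word prd UP)

section

variable {α : Type} [N487b59b3 α] {E C : Oracle → α → List ℕ} {s : Oracle → α → Ch}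

@[fun_prop]
theorem fp_ops {S : α → List ℕ} (hS : FP S) : FP fun x => ops (S x) := by
  unfold ops
  fun_prop

@[fun_prop]
theorem fp_two {S : α → List ℕ} (hS : FP S) : FP fun x => two (S x) := by
  unfold two
  fun_prop

@[fun_prop]
theorem fp_lcs {S S' C : α → List ℕ} (hS : FP S) (hS' : FP S') (hC : FP C) :
    FP fun x => lcs (S x) (S' x) (C x) := by
  unfold lcs
  fun_prop

private theorem up_cds0 (N : ℕ) : UP fun X (q : List ℕ × Ch) => cds N X q.1 q.2 := by
  have h1 : UP fun X (q : List ℕ × Ch) => (ops q.2.1).filter fun o =>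
      cn3 (mo X q.1 (q.2.2.1 ++ o.2) (dif q.2.1 (o.1 ++ o.2))) (dif q.2.1 (o.1 ++ o.2)) :=
    Pool.Agent.G4.UP.filterA (h := fun X (q : List ℕ × Ch) (o : List ℕ × List ℕ) =>
      cn3 (mo X q.1 (q.2.2.1 ++ o.2) (dif q.2.1 (o.1 ++ o.2))) (dif q.2.1 (o.1 ++ o.2)))
      (up_cn3M (E := fun _ (w : (List ℕ × Ch) × (List ℕ × List ℕ)) => w.1.1)
        (A := fun _ w => w.1.2.2.1 ++ w.2.2) (S' := fun _ w => dif w.1.2.1 (w.2.1 ++ w.2.2))
        (S := fun _ w => dif w.1.2.1 (w.2.1 ++ w.2.2))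
        (Pool.Agent.G4.UP.of_FP (by fun_prop)) (Pool.Agent.G4.UP.of_FP (by fun_prop))
        (Pool.Agent.G4.UP.of_FP (by fun_prop)) (Pool.Agent.G4.UP.of_FP (by fun_prop)))
      (Pool.Agent.G4.UP.of_FP (by fun_prop))
  have h2 : UP fun X (w : (List ℕ × Ch) × (List ℕ × List ℕ)) =>
      ((lcs w.1.2.1 (dif w.1.2.1 (w.2.1 ++ w.2.2)) w.1.2.2.2.1).filter fun C =>
        labB N (mo X w.1.1 (w.1.2.2.1 ++ w.2.2) (dif w.1.2.1 (w.2.1 ++ w.2.2)))
          (dif w.1.2.1 (w.2.1 ++ w.2.2)) C).map fun C => (w.2, C) := by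
    refine Pool.Agent.G4.UP.mapA (h := fun X (w : (List ℕ × Ch) × (List ℕ × List ℕ))
      (C : List ℕ) => (w.2, C)) (Pool.Agent.G4.UP.of_FP (by fun_prop)) ?_
    exact Pool.Agent.G4.UP.filterA (h := fun X (w : (List ℕ × Ch) × (List ℕ × List ℕ))
      (C : List ℕ) => labB N (mo X w.1.1 (w.1.2.2.1 ++ w.2.2) (dif w.1.2.1 (w.2.1 ++ w.2.2)))
          (dif w.1.2.1 (w.2.1 ++ w.2.2)) C)
      (up_labM N (E := fun _ (v : ((List ℕ × Ch) × (List ℕ × List ℕ)) × List ℕ) => v.1.1.1)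
        (A := fun _ v => v.1.1.2.2.1 ++ v.1.2.2)
        (S' := fun _ v => dif v.1.1.2.1 (v.1.2.1 ++ v.1.2.2))
        (S := fun _ v => dif v.1.1.2.1 (v.1.2.1 ++ v.1.2.2)) (C := fun _ v => v.2)
        (Pool.Agent.G4.UP.of_FP (by fun_prop)) (Pool.Agent.G4.UP.of_FP (by fun_prop))
        (Pool.Agent.G4.UP.of_FP (by fun_prop)) (Pool.Agent.G4.UP.of_FP (by fun_prop))
        (Pool.Agent.G4.UP.of_FP (by fun_prop)))
      (Pool.Agent.G4.UP.of_FP (by fun_prop))
  exact Pool.Agent.G4.UP.flatMap_ctx (h := fun X (q : List ℕ × Ch) (o : List ℕ × List ℕ) =>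
    ((lcs q.2.1 (dif q.2.1 (o.1 ++ o.2)) q.2.2.2.1).filter fun C =>
        labB N (mo X q.1 (q.2.2.1 ++ o.2) (dif q.2.1 (o.1 ++ o.2)))
          (dif q.2.1 (o.1 ++ o.2)) C).map fun C => (o, C)) h2 Pool.Agent.G4.UP.id h1

theorem up_cds (N : ℕ) (hE : UP E) (hs : UP s) : UP fun X x => cds N X (E X x) (s X x) :=
  Pool.Agent.G4.UP.comp2 (h := fun X e t => cds N X e t) (up_cds0 N) hE hs

private theorem up_chStep0 (N : ℕ) : UP fun X (q : List ℕ × Ch) => chStep N X q.1 q.2 := by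
  have h1 : FP fun w : (List ℕ × Ch) × List ((List ℕ × List ℕ) × List ℕ) =>
      if w.2.isEmpty then w.1.2 else
        ((dif w.1.2.1 ((w.2.headD (([], []), [])).1.1 ++ (w.2.headD (([], []), [])).1.2),
          (w.1.2.2.1 ++ (w.2.headD (([], []), [])).1.2,
            ((w.2.headD (([], []), [])).2,
              (w.2.headD (([], []), [])).1 :: w.1.2.2.2.2))) : Ch) := by
    fun_prop
  exact Pool.Agent.G4.UP.fp h1 (Pool.Agent.G4.UP.pair Pool.Agent.G4.UP.id (up_cds0 N))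

theorem up_chStep (N : ℕ) (hE : UP E) (hs : UP s) :
    UP fun X x => chStep N X (E X x) (s X x) :=
  Pool.Agent.G4.UP.comp2 (h := fun X e t => chStep N X e t) (up_chStep0 N) hE hs

private theorem headD_mem7 {β : Type} {l : List β} (h : ¬ l.isEmpty = true) (d : β) :
    l.headD d ∈ l := by
  cases l with
  | nil => exact absurd rfl h
  | cons a l => exact List.mem_cons_self

private theorem mem_prd7 {β γ : Type} {l : List β} {m : List γ} {p : β × γ} (h : p ∈ prd l m) :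
    p.1 ∈ l ∧ p.2 ∈ m := by
  unfold prd at h
  rw [List.mem_flatMap] at h
  obtain ⟨a, ha, h1⟩ := h
  rw [List.mem_map] at h1
  obtain ⟨b, hb, rfl⟩ := h1
  exact ⟨ha, hb⟩

private theorem sz_ops7 {S : List ℕ} {o : List ℕ × List ℕ} (h : o ∈ ops S) :
    sz o.1 ≤ sz S ∧ sz o.2 ≤ sz S := by
  have h1 : ∀ y ∈ S, sz [y] ≤ sz S := by
    intro y hy
    rw [sz_cons, sz_nil]
    exact Pool.Agent.G4.sz_le_of_mem hy
  unfold ops at h
  rw [List.mem_append, List.mem_append, List.mem_map, List.mem_map, List.mem_map] at h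
  rcases h with ⟨y, hy, rfl⟩ | ⟨b, hb, rfl⟩ | ⟨p, hp, rfl⟩
  · exact ⟨h1 y hy, by rw [sz_nil]; exact Nat.zero_le _⟩
  · exact ⟨by rw [sz_nil]; exact Nat.zero_le _, h1 b hb⟩
  · obtain ⟨h2, h3⟩ := mem_prd7 (List.mem_filter.1 hp).1
    exact ⟨h1 _ h2, h1 _ h3⟩

private theorem cds_mem7 {N : ℕ} {X : Oracle} {E : List ℕ} {s : Ch}
    {c : (List ℕ × List ℕ) × List ℕ} (h : c ∈ cds N X E s) :
    (sz c.1.1 ≤ sz s.1 ∧ sz c.1.2 ≤ sz s.1) ∧ sz c.2 ≤ sz s.1 := by
  unfold cds at h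
  rw [List.mem_flatMap] at h
  obtain ⟨o, ho, h1⟩ := h
  rw [List.mem_map] at h1
  obtain ⟨C, hC, rfl⟩ := h1
  refine ⟨sz_ops7 (List.mem_filter.1 ho).1, ?_⟩
  have h2 := (List.mem_filter.1 hC).1
  unfold lcs at h2
  rw [List.mem_map] at h2
  obtain ⟨p, _, rfl⟩ := h2
  exact Pool.Agent.G4.sz_sublist ((List.filter_sublist).trans List.filter_sublist)

theorem ch_bound (N : ℕ) (X : Oracle) (E C : List ℕ) (i : ℕ) :
    sz ((chStep N X E)^[i] (E, ([], (C, [])))) ≤
      100 + 100 * (sz E + sz C) + i * (100 * sz E + 100) := by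
  have key : (sz ((chStep N X E)^[i] (E, ([], (C, [])))).1 ≤ sz E ∧
      sz ((chStep N X E)^[i] (E, ([], (C, [])))).2.1 ≤ i * sz E) ∧
      (sz ((chStep N X E)^[i] (E, ([], (C, [])))).2.2.1 ≤ sz C + sz E ∧
      sz ((chStep N X E)^[i] (E, ([], (C, [])))).2.2.2 ≤ i * (6 * sz E + 3)) := by
    induction i with
    | zero => simp
    | succ i ih =>
      obtain ⟨⟨h1, h2⟩, h3, h4⟩ := ih
      rw [Function.iterate_succ_apply']
      set s := (chStep N X E)^[i] (E, ([], (C, []))) with hs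
      have e1 : (i + 1) * sz E = i * sz E + sz E := by ring
      have e2 : (i + 1) * (6 * sz E + 3) = i * (6 * sz E + 3) + (6 * sz E + 3) := by ring
      unfold chStep
      split
      · exact ⟨⟨h1, by omega⟩, h3, by omega⟩
      · rename_i hc
        have h5 := headD_mem7 hc (([], []), [])
        set c := (cds N X E s).headD (([], []), []) with hcd
        obtain ⟨⟨h6, h7⟩, h8⟩ := cds_mem7 h5
        dsimp only
        refine ⟨⟨?_, ?_⟩, ?_, ?_⟩
        · have h9 : sz (dif s.1 (c.1.1 ++ c.1.2)) ≤ sz s.1 :=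
            Pool.Agent.G4.sz_sublist List.filter_sublist
          omega
        · rw [sz_append]
          omega
        · omega
        · rw [sz_cons]
          have h9 : sz c.1 = 2 * sz c.1.1 + 1 + sz c.1.2 := sz_pair _ _
          omega
  obtain ⟨⟨h1, h2⟩, h3, h4⟩ := key
  generalize (chStep N X E)^[i] (E, ([], (C, []))) = s at *
  obtain ⟨a, b, c, d⟩ := s
  dsimp only at h1 h2 h3 h4
  simp only [sz_pair]
  have e1 : i * (100 * sz E + 100) = 100 * (i * sz E) + 100 * i := by ring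
  have e2 : i * (6 * sz E + 3) = 6 * (i * sz E) + 3 * i := by ring
  rw [e1]
  rw [e2] at h4
  generalize i * sz E = u at *
  omega

theorem up_chain (N : ℕ) (hE : UP E) (hC : UP C) :
    UP fun X x => chain N X (E X x) (C X x) := by
  have h0 : UP fun X (q : List ℕ × List ℕ) => chain N X q.1 q.2 := by
    refine Pool.Agent.G4.UP.iterA (f := fun X (q : List ℕ × List ℕ) t => chStep N X q.1 t)
      (l := fun _ q => q.1) (x := fun _ q => ((q.1, ([], (q.2, []))) : Ch))
      ((up_chStep0 N).pre (f := fun w : (List ℕ × List ℕ) × Ch => (w.1.1, w.2)) (by fun_prop))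
      (B := fun n => 100 + 100 * (n + n) + n * (100 * n + 100)) (by fun_prop)
      (Pool.Agent.G4.UP.of_FP (by fun_prop)) (Pool.Agent.G4.UP.of_FP (by fun_prop))
      fun X q i hi => ?_
    refine (ch_bound N X q.1 q.2 i).trans ?_
    have h1 : sz q = 2 * sz q.1 + 1 + sz q.2 := sz_pair _ _
    have h2 := length_le_sz q.1
    have h3 : i * (100 * sz q.1 + 100) ≤ sz q * (100 * sz q + 100) :=
      Nat.mul_le_mul (by omega) (by omega)
    omega
  exact Pool.Agent.G4.UP.comp2 (h := fun X e t => chain N X e t) h0 hE hC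

end

end Pool.Agent.PM
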