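import Pool.Agent.PM.U4

set_option autoImplicit false

/-!
# Module U8: sizes of the states of the reconstruction; all steps

* `prT_size`: each of the three lists has at most `(ft (d + d) _).length` members (`take`), which are members of the given lists
(`prune_sublist`); `length_ft`: `(ft d v).length = (v.length + 1) ^ d`.
* `okT (norT S t)`: first components are `nor S _`, so their size is at most `sz S`; the second component is a member of `S` (or of a
sublist of `S`), so its size is at most `sz S`.
* `stepB_size`: `nwS E s r` is a sublist of `E`; the new matrix is the old one with at most `|r.1| |r.2| + |r.1| |B| + |E| |r.2|` new entries in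
front, each of size at most `8 * (sz E + sz B + sz r) + κ + 10` or so.
The polynomial bounds need not be these: any statement of the form below with explicit monotone polynomials is fine
(`PB`, see `Pool/Agent/G4/UPBuild.lean`).
* `up_fold`: `UP.foldA` with `l = s.2.2.2`-type list `os`, `hsz` from `foldl_take_ind` with the invariant: `sz (matrix) ≤ M₀ + i * P`, lists bounded by `Q` (or
by the size of the initial state), ground set a sublist of `E` or the initial one; `P`, `Q` polynomials in `sz a`.
-/

namespace Pool.Agent.PM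

open Turing Function N487b59b3 N68a2faeb Pool.Agent.Helper22 Pool.Agent.Helper49.Cons
open Pool.Agent.Helper6.WB
open Pool.Agent.G4 (nor dif word prd UP)

section

variable {K : Type} [Field K] [DecidableEq K] [Finite K] [N487b59b3 K]

theorem length_ft (d : ℕ) (v : List K) : (ft d v).length = (v.length + 1) ^ d := by
  induction d with
  | zero => simp [ft]
  | succ d ih =>
    have h : ∀ l : List K, (l.flatMap fun a => (ft d v).map fun b => a * b).length =
        l.length * (v.length + 1) ^ d := by
      intro l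
      induction l with
      | nil => simp
      | cons a l ihl =>
        rw [List.flatMap_cons, List.length_append, ihl, List.length_map, ih, List.length_cons]
        ring
    rw [ft, h, List.length_cons, pow_succ]
    ring

private theorem u8_length_prd {α β : Type} (l : List α) (m : List β) :
    (prd l m).length = l.length * m.length := by
  unfold prd
  induction l with
  | nil => simp
  | cons a l ih =>
    rw [List.flatMap_cons, List.length_append, ih, List.length_map, List.length_cons]
    ring

private theorem u8_mem_prd {α β : Type} {l : List α} {m : List β} {p : α × β} (h : p ∈ prd l m) :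
    p.1 ∈ l ∧ p.2 ∈ m := by
  unfold prd at h
  rw [List.mem_flatMap] at h
  obtain ⟨a, ha, h⟩ := h
  rw [List.mem_map] at h
  obtain ⟨b, hb, rfl⟩ := h
  exact ⟨ha, hb⟩

private theorem u8_pow {f : ℕ → ℕ} (hf : PB f) (k : ℕ) : PB fun n => f n ^ k := by
  induction k with
  | zero => simpa using PB.const 1
  | succ k ih =>
    simp only [pow_succ]
    exact ih.mul hf

private theorem u8_sz_nor (S T : List ℕ) : sz (nor S T) ≤ sz S :=
  Pool.Agent.G4.sz_sublist List.filter_sublist

private theorem u8_sz_dif (S T : List ℕ) : sz (dif S T) ≤ sz S :=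
  Pool.Agent.G4.sz_sublist List.filter_sublist

private theorem u8_sz_mem {β : Type} [N487b59b3 β] {l : List β} {b : β} (h : b ∈ l) :
    sz b ≤ sz l := sz_mem_le h

/-- a pruned list -/
private theorem u8_prune {ι : Type} [N487b59b3 ι] (l : List ι) (vc : ι → List K) (n C : ℕ)
    (hC : ∀ b ∈ l, sz b ≤ C) :
    sz ((prune (l.map fun b => (b, vc b))).take n) ≤ n * (2 * C + 1) := by
  have h1 := prune_sublist (K := K) (l.map fun b => (b, vc b))
  rw [List.map_map] at h1
  have h2 : (fun p : ι × List K => p.1) ∘ (fun b => (b, vc b)) = _root_.id := rfl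
  have h3 : (prune (l.map fun b => (b, vc b))).Sublist l := by
    rw [h2, List.map_id] at h1
    exact h1
  refine (Pool.Agent.G4.sz_le_length_mul (C := C) ?_).trans (Nat.mul_le_mul_right _ ?_)
  · intro b hb
    exact hC b (h3.subset (List.mem_of_mem_take hb))
  · rw [List.length_take]
    exact min_le_left _ _

/-- the size of the lists does not depend on the old lists -/
theorem nwT_size (K : Type) [Field K] [DecidableEq K] [Finite K] [N487b59b3 K] (d : ℕ) :
    ∃ Q : ℕ → ℕ, PB Q ∧ Monotone Q ∧ ∀ (X : Oracle) (E B S : List ℕ) (D : Mx K) (t : Trip)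
      (r : List ℕ × List ℕ), sz (nwT d X E B S D t r) ≤ Q (sz S + sz B) := by
  refine ⟨fun n => 2 * ((n + 1) ^ (d + d) * (2 * (3 * n + 1) + 1)) + 1 +
    (2 * ((n + 1) ^ (d + d) * (2 * (3 * n + 1) + 1)) + 1 + (n * n + 1) ^ d * (2 * n + 1)),
    ?_, ?_, ?_⟩
  · have h1 : PB fun n => (n + 1) ^ (d + d) := u8_pow (by fun_prop) _
    have h2 : PB fun n => (n * n + 1) ^ d := u8_pow (by fun_prop) _
    fun_prop
  · intro a b h
    dsimp only
    gcongr
  · intro X E B S D t r
    have hS : ∀ T, sz (nor S T) ≤ sz S := u8_sz_nor S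
    have hBl : (nor B S).length ≤ sz B :=
      (List.length_filter_le _ _).trans (length_le_sz _)
    have hSl : S.length ≤ sz S := length_le_sz _
    unfold nwT
    generalize rawT r.1 r.2 t = t'
    unfold prT
    rw [sz_pair, sz_pair]
    have e1 : ∀ p ∈ (okT X E B S (norT S t')).1, sz p ≤ 3 * sz S + 1 := by
      intro p hp
      unfold okT norT at hp
      dsimp only at hp
      rw [List.mem_filter, List.mem_map] at hp
      obtain ⟨⟨q, hq, rfl⟩, hp⟩ := hp
      rw [Bool.and_eq_true, decide_eq_true_eq] at hp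
      have h1 := hS q.1
      have h2 := u8_sz_mem hp.1
      rw [sz_pair]
      dsimp only at h2
      omega
    have e2 : ∀ p ∈ (okT X E B S (norT S t')).2.1, sz p ≤ 3 * sz S + 1 := by
      intro p hp
      unfold okT norT at hp
      dsimp only at hp
      rw [List.mem_filter, List.mem_map] at hp
      obtain ⟨⟨q, hq, rfl⟩, hp⟩ := hp
      rw [Bool.and_eq_true, Bool.and_eq_true, decide_eq_true_eq] at hp
      have h1 := hS q.1
      have h2 := u8_sz_mem hp.1.2
      rw [sz_pair]
      dsimp only at h2
      omega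
    have e3 : ∀ p ∈ (okT X E B S (norT S t')).2.2, sz p ≤ sz S := by
      intro p hp
      unfold okT norT at hp
      dsimp only at hp
      rw [List.mem_filter, List.mem_map] at hp
      obtain ⟨⟨q, hq, rfl⟩, hp⟩ := hp
      exact hS q
    have f1 := u8_prune (okT X E B S (norT S t')).1
      (fun p => ft (d + d) (fv D (nor B S) p.1 p.2))
      (ft (d + d) ((nor B S).map fun _ => (0 : K))).length (3 * sz S + 1) e1
    have f2 := u8_prune (okT X E B S (norT S t')).2.1
      (fun p => ft (d + d) (cir D (nor B S) S p.1 p.2))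
      (ft (d + d) (S.map fun _ => (0 : K))).length (3 * sz S + 1) e2
    have f3 := u8_prune (okT X E B S (norT S t')).2.2
      (fun T => ft d (qv D (nor B S) S T))
      (ft d ((prd S (nor B S)).map fun _ => (0 : K))).length (sz S) e3
    have g1 : (ft (d + d) ((nor B S).map fun _ => (0 : K))).length ≤
        (sz S + sz B + 1) ^ (d + d) := by
      rw [length_ft, List.length_map]
      exact Nat.pow_le_pow_left (by omega) _
    have g2 : (ft (d + d) (S.map fun _ => (0 : K))).length ≤ (sz S + sz B + 1) ^ (d + d) := by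
      rw [length_ft, List.length_map]
      exact Nat.pow_le_pow_left (by omega) _
    have g3 : (ft d ((prd S (nor B S)).map fun _ => (0 : K))).length ≤
        ((sz S + sz B) * (sz S + sz B) + 1) ^ d := by
      rw [length_ft, List.length_map, u8_length_prd]
      exact Nat.pow_le_pow_left (Nat.add_le_add_right
        (Nat.mul_le_mul (by omega) (by omega)) 1) _
    have k1 := f1.trans (Nat.mul_le_mul g1 (show 2 * (3 * sz S + 1) + 1 ≤
      2 * (3 * (sz S + sz B) + 1) + 1 by omega))
    have k2 := f2.trans (Nat.mul_le_mul g2 (show 2 * (3 * sz S + 1) + 1 ≤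
      2 * (3 * (sz S + sz B) + 1) + 1 by omega))
    have k3 := f3.trans (Nat.mul_le_mul g3 (show 2 * sz S + 1 ≤ 2 * (sz S + sz B) + 1 by omega))
    dsimp only
    omega

/-- new entries -/
private theorem u8_entries (κ : ℕ) (hκ : ∀ x : K, sz x ≤ κ) (U V : List ℕ) (f : ℕ × ℕ → K)
    (n : ℕ) (hU : sz U ≤ n) (hV : sz V ≤ n) :
    sz ((prd U V).map fun p => (p, f p)) ≤ n * n * (2 * (2 * (3 * n + 1) + 1 + κ) + 1) := by
  refine (Pool.Agent.G4.sz_le_length_mul (C := 2 * (3 * n + 1) + 1 + κ) ?_).trans
    (Nat.mul_le_mul_right _ ?_)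
  · intro b hb
    rw [List.mem_map] at hb
    obtain ⟨p, hp, rfl⟩ := hb
    obtain ⟨h1, h2⟩ := u8_mem_prd hp
    have h3 := u8_sz_mem h1
    have h4 := u8_sz_mem h2
    have h5 : sz p = 2 * sz p.1 + 1 + sz p.2 := by
      conv_lhs => rw [show p = (p.1, p.2) from rfl]
      rw [sz_pair]
    have h6 := hκ (f p)
    rw [sz_pair]
    omega
  · rw [List.length_map, u8_length_prd]
    exact Nat.mul_le_mul ((length_le_sz _).trans hU) ((length_le_sz _).trans hV)

/-- the matrix grows by a bounded amount -/
theorem nwD_size (K : Type) [Field K] [DecidableEq K] [Finite K] [N487b59b3 K] :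
    ∃ P : ℕ → ℕ, PB P ∧ Monotone P ∧ ∀ (els : List K) (d : ℕ) (X : Oracle) (E B : List ℕ)
      (s : St K) (r : List ℕ × List ℕ),
      sz (stepB els d X E B s r).2.1 ≤ sz s.2.1 + P (sz E + (sz B + sz r)) := by
  obtain ⟨κ, hκ⟩ : ∃ κ, ∀ x : K, sz x ≤ κ := by
    have := Fintype.ofFinite K
    exact ⟨Finset.univ.sup fun x : K => sz x, fun x => Finset.le_sup (f := fun x : K => sz x)
      (Finset.mem_univ x)⟩
  refine ⟨fun n => 3 * (n * n * (2 * (2 * (3 * n + 1) + 1 + κ) + 1)), by fun_prop, ?_, ?_⟩
  · intro a b h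
    dsimp only
    gcongr
  · intro els d X E B s r
    have hr : sz r = 2 * sz r.1 + 1 + sz r.2 := by
      conv_lhs => rw [show r = (r.1, r.2) from rfl]
      rw [sz_pair]
    have h1 : ∀ T, sz (dif B T) ≤ sz B := u8_sz_dif B
    have h2 : ∀ T, sz (dif E T) ≤ sz E := u8_sz_dif E
    show sz (nwD els X E B (nwS E s r) (nwC els X E B s r)
      (nwT d X E B (nwS E s r) (nwC els X E B s r) s.2.2 r) r) ≤ _
    unfold nwD nwC
    rw [sz_append, sz_append, sz_append]
    have k1 := u8_entries κ hκ r.1 r.2 (fun p => crn els X E B s.1 s.2.1 s.2.2.2.2 p.1 p.2)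
      (sz E + (sz B + sz r)) (by omega) (by omega)
    have k2 : ∀ f : ℕ × ℕ → K, sz ((prd r.1 (dif B (nwS E s r))).map fun p => (p, f p)) ≤ _ :=
      fun f => u8_entries κ hκ r.1 (dif B (nwS E s r)) f
        (sz E + (sz B + sz r)) (by omega) ((h1 _).trans (by omega))
    have k3 : ∀ f : ℕ × ℕ → K,
        sz ((prd (dif E (B ++ nwS E s r)) r.2).map fun p => (p, f p)) ≤ _ :=
      fun f => u8_entries κ hκ (dif E (B ++ nwS E s r)) r.2 f
        (sz E + (sz B + sz r)) ((h2 _).trans (by omega)) (by omega)
    have a1 := k2 fun p => lrR els X E B (nwS E s r)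
      (((prd r.1 r.2).map fun p => (p, crn els X E B s.1 s.2.1 s.2.2.2.2 p.1 p.2)) ++ s.2.1)
      (nwT d X E B (nwS E s r) (((prd r.1 r.2).map fun p =>
        (p, crn els X E B s.1 s.2.1 s.2.2.2.2 p.1 p.2)) ++ s.2.1) s.2.2 r).2.1 p.1 p.2
    have a2 := k3 fun p => lrC els X E B (nwS E s r)
      (((prd r.1 r.2).map fun p => (p, crn els X E B s.1 s.2.1 s.2.2.2.2 p.1 p.2)) ++ s.2.1)
      (nwT d X E B (nwS E s r) (((prd r.1 r.2).map fun p =>
        (p, crn els X E B s.1 s.2.1 s.2.2.2.2 p.1 p.2)) ++ s.2.1) s.2.2 r).1 p.1 p.2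
    dsimp only at k1 a1 a2 ⊢
    omega

theorem up_fold (els : List K) (d : ℕ) {α : Type} [N487b59b3 α] {E B : Oracle → α → List ℕ}
    {s : Oracle → α → St K} {os : Oracle → α → List (List ℕ × List ℕ)} (hE : UP E) (hB : UP B)
    (hs : UP s) (ho : UP os) :
    UP fun X x => (os X x).foldl (stepB els d X (E X x) (B X x)) (s X x) := by
  obtain ⟨bE, hbE, hbEm, hbEle⟩ := hE.bound
  obtain ⟨bB, hbB, hbBm, hbBle⟩ := hB.bound
  obtain ⟨bs, hbs, hbsm, hbsle⟩ := hs.bound
  obtain ⟨bo, hbo, hbom, hbole⟩ := ho.bound
  obtain ⟨Q, hQ, hQm, hQle⟩ := nwT_size K d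
  obtain ⟨P, hP, hPm, hPle⟩ := nwD_size K
  have hg : UP fun X (p : α × (St K × (List ℕ × List ℕ))) =>
      stepB els d X (E X p.1) (B X p.1) p.2.1 p.2.2 :=
    up_stepB els d (hE.pre (f := fun p : α × (St K × (List ℕ × List ℕ)) => p.1) (by fun_prop))
      (hB.pre (f := fun p : α × (St K × (List ℕ × List ℕ)) => p.1) (by fun_prop))
      (UP.of_FP (by fun_prop)) (UP.of_FP (by fun_prop))
  have hPB : PB fun n => 2 * (bE n + bs n) + 1 + (2 * (bs n + bo n * P (bE n + (bB n + bo n))) +
      1 + (bs n + Q (bE n + bB n))) := by fun_prop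
  refine UP.foldA (g := fun X (x : α) (s : St K) (r : List ℕ × List ℕ) =>
    stepB els d X (E X x) (B X x) s r) hg hPB ho hs fun X a i hi => ?_
  have h1 : ∀ s : St K, sz s = 2 * sz s.1 + 1 + (2 * sz s.2.1 + 1 + sz s.2.2) := by
    intro s
    conv_lhs => rw [show s = (s.1, (s.2.1, s.2.2)) from rfl]
    rw [sz_pair, sz_pair]
  have hi2 : i ≤ bo (sz a) := hi.trans ((length_le_sz _).trans (hbole X a))
  have key := Pool.Agent.G4.foldl_take_ind
    (P := fun i (t : St K) => sz t.1 ≤ sz (E X a) + sz (s X a) ∧
      sz t.2.1 ≤ sz (s X a) + i * P (bE (sz a) + (bB (sz a) + bo (sz a))) ∧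
      sz t.2.2 ≤ sz (s X a) + Q (bE (sz a) + bB (sz a)))
    (g := fun (s : St K) (r : List ℕ × List ℕ) => stepB els d X (E X a) (B X a) s r)
    (l := os X a) (x := s X a) (by
      have h2 := h1 (s X a)
      refine ⟨by omega, by omega, by omega⟩) (by
      rintro i t r hr ⟨h2, h3, h4⟩
      refine ⟨?_, ?_, ?_⟩
      · show sz (nwS (E X a) t r) ≤ _
        have := u8_sz_nor (E X a) (t.1 ++ (r.1 ++ r.2))
        unfold nwS
        omega
      · have h5 := hPle els d X (E X a) (B X a) t r
        have h6 : P (sz (E X a) + (sz (B X a) + sz r)) ≤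
            P (bE (sz a) + (bB (sz a) + bo (sz a))) := by
          apply hPm
          have h7 := hbEle X a
          have h8 := hbBle X a
          have h9 := hbole X a
          have h10 := u8_sz_mem hr
          omega
        rw [Nat.add_mul, Nat.one_mul]
        omega
      · show sz (nwT d X (E X a) (B X a) (nwS (E X a) t r) (nwC els X (E X a) (B X a) t r)
          t.2.2 r) ≤ _
        have h5 := hQle X (E X a) (B X a) (nwS (E X a) t r) (nwC els X (E X a) (B X a) t r)
          t.2.2 r
        have h6 : Q (sz (nwS (E X a) t r) + sz (B X a)) ≤ Q (bE (sz a) + bB (sz a)) := by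
          apply hQm
          have h7 := hbEle X a
          have h8 := hbBle X a
          have h9 := u8_sz_nor (E X a) (t.1 ++ (r.1 ++ r.2))
          unfold nwS
          omega
        omega) i hi
  obtain ⟨k1, k2, k3⟩ := key
  have h2 := hbEle X a
  have h3 := hbsle X a
  have h4 : i * P (bE (sz a) + (bB (sz a) + bo (sz a))) ≤
      bo (sz a) * P (bE (sz a) + (bB (sz a) + bo (sz a))) := Nat.mul_le_mul_right _ hi2
  rw [h1]
  omega

end

end Pool.Agent.PM
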