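import Pool.Agent.PM.U5
import Pool.Agent.PM.U7
import Pool.Agent.PM.U8
import Pool.Agent.AM.U1

set_option autoImplicit false

/-!
# Module U9: the algorithm is polynomial

* `exists_encK`: an encoding of the finite type `K` by the codes `e` (`encodeNat (e.symm a)`, or any injective coding; a structure
`Computability.Encoding K Bool` with `decode_encode`).
* `fp_setW`: `List.range a.length`: see `AM.up_algA` (range of the length of the input). `zip`, `filter`, `map`.
* `up_labW`, `up_basW`: `AM.up_grdyX`. `up_chW`: `up_chain`.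
* `up_runS`: `up_bsSt`, `up_fold`. `dcd e`: constant outside a finite set (`BW.fp_table`).
* `up_outS`: `UP.mapA` twice, or `FP` and `fun_prop`; `cd : K → ℕ` is polynomial (`fp_fun`).
* `up_algP`: composition; `DecidableEq K` is given, `N487b59b3 K` from `exists_encK`.
-/

namespace Pool.Agent.PM

open Turing Function N487b59b3 N68a2faeb Pool.Agent.Helper22 Pool.Agent.Helper49.Cons
open Pool.Agent.Helper6.WB
open Pool.Agent.G4 (nor dif word prd UP)
open Pool.Agent.AM (Prm)

section

variable {α : Type} [N487b59b3 α] {E : Oracle → α → List ℕ} {a : Oracle → α → List Bool}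
  {s : Oracle → α → Ch}

@[fun_prop]
theorem fp_setW {a : α → List Bool} (ha : FP a) : FP fun x => setW (a x) := by
  unfold setW
  fun_prop

theorem up_basW (hE : UP E) (hs : UP s) : UP fun X x => basW X (E X x) (s X x) := by
  have h1 := hs.fst'
  have h2 := hs.snd'.fst'
  exact UP.fp2 (h := fun u v : List ℕ => u ++ v) (by fun_prop)
    (Pool.Agent.AM.up_grdyX hE h1 h2) h2

theorem up_labW (hE : UP E) (ha : UP a) : UP fun X x => labW X (E X x) (a X x) := by
  exact Pool.Agent.AM.up_grdyX (C := fun _ _ => []) hE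
    (ha.fp (g := fun b : List Bool => setW b) (by fun_prop)) (UP.const [])

theorem up_chW (N : ℕ) (ha : UP a) : UP fun X x => chW N X (a X x) := by
  have hR : UP fun X x => List.range (a X x).length :=
    ha.fp (g := fun b : List Bool => List.range b.length) (by fun_prop)
  exact up_chain N hR (up_labW hR ha)

end

section

variable {K : Type} [Field K] [DecidableEq K] [Finite K] [N487b59b3 K]
  {α : Type} [N487b59b3 α] {E B : Oracle → α → List ℕ} {s : Oracle → α → Ch}
  {σ : Oracle → α → St K}

theorem up_runS (els : List K) (vecs : List (List K)) {dc : ℕ → K} (hdc : FP dc) (P : Prm) (d : ℕ)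
    (hE : UP E) (hB : UP B) (hs : UP s) :
    UP fun X x => runS els vecs dc P d X (E X x) (B X x) (s X x) := by
  exact up_fold els d hE hB (up_bsSt vecs hdc P hE hB hs.fst') hs.snd'.snd'.snd'

theorem up_outS (cd : K → ℕ) (hE : UP E) (hB : UP B) (hσ : UP σ) :
    UP fun X x => outS cd (E X x) (B X x) (σ X x) := by
  have h0 : FP fun q : (((List ℕ × List ℕ) × St K) × ℕ) × ℕ =>
      cd (ent q.1.1.2.2.1 q.2 q.1.2) := fp_fun cd (by fun_prop)
  have h1 : FP fun q : ((List ℕ × List ℕ) × St K) × ℕ =>
      q.1.1.1.map fun y => cd (ent q.1.2.2.1 y q.2) :=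
    Pool.Agent.G4.FP.mapA (h := fun (q : ((List ℕ × List ℕ) × St K) × ℕ) (y : ℕ) =>
      cd (ent q.1.2.2.1 y q.2)) h0 (by fun_prop)
  have h2 : FP fun q : (List ℕ × List ℕ) × St K =>
      q.1.2.map fun i => q.1.1.map fun y => cd (ent q.2.2.1 y i) :=
    Pool.Agent.G4.FP.mapA (h := fun (q : (List ℕ × List ℕ) × St K) (i : ℕ) =>
      q.1.1.map fun y => cd (ent q.2.2.1 y i)) h1 (by fun_prop)
  exact ((hE.pair hB).pair hσ).fp h2

end

theorem exists_encK (K : Type) [Finite K] : Nonempty (N487b59b3 K) := by
  classical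
  refine ⟨N487b59b3.ofLeftInverse (β := ℕ) (fun a => (Finite.equivFin K a : ℕ))
    (fun n => if h : n < Nat.card K then some ((Finite.equivFin K).symm ⟨n, h⟩) else none) ?_⟩
  intro x
  show (if h : (Finite.equivFin K x : ℕ) < Nat.card K then
    some ((Finite.equivFin K).symm ⟨_, h⟩) else none) = some x
  rw [dif_pos (Finite.equivFin K x).2]
  simp

theorem up_algP {K : Type} [Field K] [Fintype K] [DecidableEq K]
    (e : Fin (Fintype.card K) ≃ K) : UP (algP e) := by
  obtain ⟨hK⟩ := exists_encK K
  have hE : UP fun (_ : Oracle) (a : List Bool) => List.range a.length :=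
    UP.of_FP (f := fun a : List Bool => List.range a.length) (by fun_prop)
  have hch := up_chW (Fintype.card K ^ 2 + Fintype.card K + 1)
    (a := fun _ (a : List Bool) => a) UP.id
  have hB := up_basW hE hch
  have hdc : FP (Pool.Agent.BW.dcd e) :=
    Pool.Agent.BW.fp_table {n : ℕ | n < Fintype.card K} (Set.finite_lt_nat _) _ 0
      (fun n hn => dif_neg hn)
  exact up_outS (Pool.Agent.BW.cod e) hE hB
    (up_runS _ _ hdc (Pool.Agent.AM.prmQ e) _ hE hB hch)

end Pool.Agent.PM
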